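import Pool.Agent.LogCentres.ExtDefs
import Pool.Agent.PlanarCentres.Lyap

/-!
# A periodic orbit is open in the level set of a first integral
-/

namespace Pool.Agent.LogCentres

open MvPolynomial Pool.Agent.PlanarCentres Topology

private theorem contDiff_vf (P Q : R) :
    ContDiff ℝ 1 (fun x : Fin 2 → ℝ => (![eval x P, eval x Q] : Fin 2 → ℝ)) := by
  rw [contDiff_pi]
  intro i
  fin_cases i
  · exact (AnalyticOnNhd.eval_mvPolynomial (𝕜 := ℝ) P).contDiff
  · exact (AnalyticOnNhd.eval_mvPolynomial (𝕜 := ℝ) Q).contDiff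

private theorem sol_cont {P Q : R} {γ : ℝ → Fin 2 → ℝ} (hγ : IsSolution P Q γ) :
    Continuous γ := continuous_iff_continuousAt.2 fun t => (hγ t).continuousAt

theorem orbit_compact {P Q : R} {γ : ℝ → Fin 2 → ℝ} (hγ : IsPeriodicOrbit P Q γ) :
    IsCompact (Set.range γ) := by
  obtain ⟨hs, ⟨T, hT, hper⟩, -⟩ := hγ
  exact Function.Periodic.compact_of_continuous (hp := hper) hT.ne' (sol_cont hs)

private theorem strict_coord {P Q : R} {γ : ℝ → Fin 2 → ℝ} (hγ : IsSolution P Q γ) (t : ℝ)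
    (k : Fin 2) : HasStrictDerivAt (fun s => γ s k)
      ((![eval (γ t) P, eval (γ t) Q] : Fin 2 → ℝ) k) t := by
  refine hasStrictDerivAt_of_hasDerivAt_of_continuousAt
    (f' := fun s => (![eval (γ s) P, eval (γ s) Q] : Fin 2 → ℝ) k)
    (Filter.Eventually.of_forall fun s => (hasDerivAt_pi.1 (hγ s)) k) ?_
  have h1 := (contDiff_vf P Q).continuous.comp (sol_cont hγ)
  exact ((continuous_apply k).comp h1).continuousAt

private theorem lin_expand (L : (Fin 2 → ℝ) →L[ℝ] ℝ) (v : Fin 2 → ℝ) :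
    L v = v 0 * L (Pi.single 0 1) + v 1 * L (Pi.single 1 1) := by
  have h : v = v 0 • (Pi.single 0 1 : Fin 2 → ℝ) + v 1 • (Pi.single 1 1 : Fin 2 → ℝ) := by
    funext i
    fin_cases i <;> simp
  conv_lhs => rw [h]
  rw [map_add, map_smul, map_smul, smul_eq_mul, smul_eq_mul]

private theorem lin_ker {L : (Fin 2 → ℝ) →L[ℝ] ℝ} (hL : L ≠ 0) {a v : Fin 2 → ℝ} {k : Fin 2}
    (ha : L a = 0) (hak : a k ≠ 0) (hv : L v = 0) (hvk : v k = 0) : v = 0 := by
  rw [lin_expand] at ha hv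
  set A := L (Pi.single 0 1)
  set B := L (Pi.single 1 1)
  have hAB : A ≠ 0 ∨ B ≠ 0 := by
    by_contra hcon
    push Not at hcon
    apply hL
    ext u
    rw [lin_expand]
    show u 0 * A + u 1 * B = 0
    rw [hcon.1, hcon.2]
    ring
  have hdet : v 0 * a 1 - v 1 * a 0 = 0 := by
    rcases hAB with h | h
    · apply mul_left_cancel₀ h
      linear_combination a 1 * hv - v 1 * ha
    · apply mul_left_cancel₀ h
      linear_combination v 0 * ha - a 0 * hv
  funext i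
  fin_cases k
  · have h0 : v 0 = 0 := hvk
    have h1 : a 0 ≠ 0 := hak
    have h2 : v 1 = 0 := by
      rw [h0] at hdet
      have : v 1 * a 0 = 0 := by linarith
      exact (mul_eq_zero.1 this).resolve_right h1
    fin_cases i
    · exact h0
    · exact h2
  · have h0 : v 1 = 0 := hvk
    have h1 : a 1 ≠ 0 := hak
    have h2 : v 0 = 0 := by
      rw [h0] at hdet
      have : v 0 * a 1 = 0 := by linarith
      exact (mul_eq_zero.1 this).resolve_right h1
    fin_cases i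
    · exact h2
    · exact h0

private theorem local_orbit {P Q : R} {γ : ℝ → Fin 2 → ℝ} (hγ : IsSolution P Q γ)
    {H : (Fin 2 → ℝ) → ℝ} {c : ℝ} (hval : ∀ t, H (γ t) = c)
    (hH : ∀ t, ContDiffAt ℝ 1 H (γ t)) (hd : ∀ t, fderiv ℝ H (γ t) ≠ 0)
    (hX : ∀ t, eval (γ t) P ≠ 0 ∨ eval (γ t) Q ≠ 0) (t : ℝ) :
    ∀ᶠ x in 𝓝 (γ t), H x = c → x ∈ Set.range γ := by
  set a : Fin 2 → ℝ := ![eval (γ t) P, eval (γ t) Q] with ha
  set L := fderiv ℝ H (γ t) with hL
  have hHs : HasStrictFDerivAt H L (γ t) := (hH t).hasStrictFDerivAt one_ne_zero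
  have hLa : L a = 0 := by
    have h1 : HasDerivAt (fun s => H (γ s)) (L a) t :=
      hHs.hasFDerivAt.comp_hasDerivAt t (hγ t)
    have h2 : HasDerivAt (fun s => H (γ s)) 0 t := by
      have h3 : (fun s => H (γ s)) = fun _ => c := funext hval
      rw [h3]
      exact hasDerivAt_const t c
    exact h1.unique h2
  obtain ⟨k, hk⟩ : ∃ k : Fin 2, a k ≠ 0 := by
    rcases hX t with h | h
    · exact ⟨0, h⟩
    · exact ⟨1, h⟩
  set Φ : (Fin 2 → ℝ) → (Fin 2 → ℝ) := fun x => ![H x, x k] with hΦ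
  set Φ' : (Fin 2 → ℝ) →L[ℝ] (Fin 2 → ℝ) :=
    ContinuousLinearMap.pi ![L, ContinuousLinearMap.proj k] with hΦ'
  have hΦs : HasStrictFDerivAt Φ Φ' (γ t) := by
    apply hasStrictFDerivAt_pi.2
    intro i
    fin_cases i
    · exact hHs
    · exact (ContinuousLinearMap.proj (R := ℝ) (φ := fun _ : Fin 2 => ℝ) k).hasStrictFDerivAt
  have hdet : Φ'.det ≠ 0 := by
    intro h0
    rw [ContinuousLinearMap.det, LinearMap.det_eq_zero_iff_ker_ne_bot] at h0
    apply h0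
    rw [LinearMap.ker_eq_bot']
    intro v hv
    have hv0 : L v = 0 := congrFun hv 0
    have hv1 : v k = 0 := congrFun hv 1
    exact lin_ker (hd t) hLa hk hv0 hv1
  have hΦe : HasStrictFDerivAt Φ
      ((Φ'.toContinuousLinearEquivOfDetNeZero hdet : (Fin 2 → ℝ) ≃L[ℝ] (Fin 2 → ℝ)) :
        (Fin 2 → ℝ) →L[ℝ] (Fin 2 → ℝ)) (γ t) := by
    rw [ContinuousLinearMap.coe_toContinuousLinearEquivOfDetNeZero]
    exact hΦs
  have hleft := hΦe.eventually_left_inverse
  -- the curve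
  have hg := strict_coord hγ t k
  have hmap : Filter.map (fun s => γ s k) (𝓝 t) = 𝓝 (γ t k) := hg.map_nhds_eq hk
  have hs : {s | hΦe.localInverse Φ _ (γ t) (Φ (γ s)) = γ s} ∈ 𝓝 t :=
    (sol_cont hγ).continuousAt.eventually hleft
  have himg : (fun s => γ s k) '' {s | hΦe.localInverse Φ _ (γ t) (Φ (γ s)) = γ s} ∈
      𝓝 (γ t k) := by
    rw [← hmap]
    exact Filter.image_mem_map hs
  have hpre : ∀ᶠ x in 𝓝 (γ t), x k ∈
      (fun s => γ s k) '' {s | hΦe.localInverse Φ _ (γ t) (Φ (γ s)) = γ s} :=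
    (continuous_apply k).continuousAt.eventually himg
  filter_upwards [hleft, hpre] with x hx1 hx2 hxc
  obtain ⟨s, hs1, hs2⟩ := hx2
  refine ⟨s, ?_⟩
  have hs1' : hΦe.localInverse Φ _ (γ t) (Φ (γ s)) = γ s := hs1
  rw [← hs1', ← hx1]
  congr 1
  show (![H (γ s), γ s k] : Fin 2 → ℝ) = ![H x, x k]
  rw [hval s, hxc]
  have hs2' : γ s k = x k := hs2
  rw [hs2']

theorem orbit_open {P Q : R} {γ : ℝ → Fin 2 → ℝ} (hγ : IsSolution P Q γ)
    {H : (Fin 2 → ℝ) → ℝ} {c : ℝ} (hval : ∀ t, H (γ t) = c)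
    (hH : ∀ t, ContDiffAt ℝ 1 H (γ t)) (hd : ∀ t, fderiv ℝ H (γ t) ≠ 0)
    (hX : ∀ t, eval (γ t) P ≠ 0 ∨ eval (γ t) Q ≠ 0) :
    ∃ N : Set (Fin 2 → ℝ), IsOpen N ∧ Set.range γ ⊆ N ∧
      ∀ x ∈ N, H x = c → x ∈ Set.range γ := by
  refine ⟨{x | ∀ᶠ y in 𝓝 x, H y = c → y ∈ Set.range γ}, isOpen_setOfPred_eventually_nhds, ?_, ?_⟩
  · rintro x ⟨t, rfl⟩
    exact local_orbit hγ hval hH hd hX t
  · intro x hx
    exact Filter.Eventually.self_of_nhds hx

/-- every point of a nonconstant periodic solution is not an equilibrium -/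
theorem orbit_ne {P Q : R} {γ : ℝ → Fin 2 → ℝ} (hγ : IsPeriodicOrbit P Q γ) (t : ℝ) :
    eval (γ t) P ≠ 0 ∨ eval (γ t) Q ≠ 0 := by
  by_contra hcon
  push Not at hcon
  obtain ⟨r, hr⟩ := (orbit_compact hγ).isBounded.subset_closedBall (γ t)
  obtain ⟨K, hK⟩ := (contDiff_vf P Q).contDiffOn.exists_lipschitzOnWith (s :=
    Metric.closedBall (γ t) r) one_ne_zero (convex_closedBall _ _) (isCompact_closedBall _ _)
  have hmem : ∀ s, γ s ∈ Metric.closedBall (γ t) r := fun s => hr ⟨s, rfl⟩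
  have huniq : γ = fun _ => γ t := by
    refine ODE_solution_unique_univ (v := fun _ x => (![eval x P, eval x Q] : Fin 2 → ℝ))
      (s := fun _ => Metric.closedBall (γ t) r) (t₀ := t) (fun _ => hK)
      (fun s => ⟨hγ.1 s, hmem s⟩) (fun s => ⟨?_, hmem t⟩) rfl
    have h0 : (![eval (γ t) P, eval (γ t) Q] : Fin 2 → ℝ) = 0 := by
      rw [hcon.1, hcon.2]
      funext i
      fin_cases i <;> rfl
    show HasDerivAt (fun _ => γ t) (![eval (γ t) P, eval (γ t) Q] : Fin 2 → ℝ) s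
    rw [h0]
    exact hasDerivAt_const s (γ t)
  obtain ⟨s, hs⟩ := hγ.2.2
  apply hs
  rw [congrFun huniq s, congrFun huniq 0]

end Pool.Agent.LogCentres
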