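import Pool.Agent.LogCentres.CsC
import Pool.Agent.LogCentres.ReCen

/-!
# All centres of centrally symmetric systems
-/

namespace Pool.Agent.LogCentres

open MvPolynomial Pool.Agent.PlanarCentres

theorem refl_refl (a : Fin 2 → ℝ) (p : R) : refl a (refl a p) = p := by
  apply MvPolynomial.funext
  intro x
  rw [eval_refl, eval_refl, sub_sub_cancel]

theorem pderiv_shift (a : Fin 2 → ℝ) (p : R) (i : Fin 2) :
    pderiv i (shift a p) = shift a (pderiv i p) := by
  induction p using MvPolynomial.induction_on with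
  | C a => simp [shift]
  | add p q hp hq => rw [map_add, map_add, map_add, map_add, hp, hq]
  | mul_X p j hp =>
    have h1 : shift a (X j) = X j + C (a j) := by simp [shift]
    rw [map_mul, Derivation.leibniz, Derivation.leibniz, map_add, h1, hp]
    simp only [smul_eq_mul, map_mul, map_add, h1, pderiv_C]
    by_cases h : j = i
    · subst h
      simp only [pderiv_X_self, map_one]
      ring
    · rw [pderiv_X_of_ne h]
      simp only [map_zero]
      ring

theorem shift_shift (a : Fin 2 → ℝ) (p : R) : shift a (shift (-a) p) = p := by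
  apply MvPolynomial.funext
  intro x
  rw [eval_shift, eval_shift, add_neg_cancel_right]

theorem shift_shift' (a : Fin 2 → ℝ) (p : R) : shift (-a) (shift a p) = p := by
  apply MvPolynomial.funext
  intro x
  rw [eval_shift, eval_shift, neg_add_cancel_right]

theorem shift_relprime (a : Fin 2 → ℝ) {P Q : R} (h : IsRelPrime P Q) :
    IsRelPrime (shift a P) (shift a Q) := by
  intro d h1 h2
  have k1 := map_dvd (shift (-a)) h1
  have k2 := map_dvd (shift (-a)) h2
  rw [shift_shift'] at k1 k2
  have k3 := (h k1 k2).map (shift a)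
  rwa [shift_shift] at k3

theorem sg_shift (a : Fin 2 → ℝ) (p : R) : sg (shift a p) = shift a (refl a p) := by
  apply MvPolynomial.funext
  intro x
  rw [sg_eval, eval_shift, eval_shift, eval_refl]
  congr 1
  abel_nf

theorem jacP_shift (a : Fin 2 → ℝ) (P Q : R) (p : Fin 2 → ℝ) :
    eval (p - a) (jacP (shift a P) (shift a Q)) = jac P Q p := by
  rw [jacP, map_sub, map_mul, map_mul, pderiv_shift, pderiv_shift, pderiv_shift, pderiv_shift,
    eval_shift, eval_shift, eval_shift, eval_shift, sub_add_cancel, jac]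

/-- a zero of a multiple with positive Jacobian determinant -/
theorem jac_reduced {P₀ Q₀ c : R} {p : Fin 2 → ℝ} (h1 : eval p (c * P₀) = 0)
    (h2 : eval p (c * Q₀) = 0) (hj : 0 < jac (c * P₀) (c * Q₀) p) :
    eval p P₀ = 0 ∧ eval p Q₀ = 0 ∧ 0 ≤ jac P₀ Q₀ p := by
  have e1 : jac (c * P₀) (c * Q₀) p = eval p c * eval p c * jac P₀ Q₀ p +
      eval p c * (eval p Q₀ * (eval p (pderiv 0 P₀) * eval p (pderiv 1 c) -
        eval p (pderiv 1 P₀) * eval p (pderiv 0 c)) + eval p P₀ * (eval p (pderiv 0 c) *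
        eval p (pderiv 1 Q₀) - eval p (pderiv 1 c) * eval p (pderiv 0 Q₀))) := by
    rw [jac, jac, Derivation.leibniz, Derivation.leibniz, Derivation.leibniz, Derivation.leibniz]
    simp only [smul_eq_mul, map_add, map_mul]
    ring
  have hc : eval p c ≠ 0 := by
    intro hc
    rw [hc] at e1
    rw [e1] at hj
    simp at hj
  rw [map_mul] at h1 h2
  have g1 := (mul_eq_zero.1 h1).resolve_left hc
  have g2 := (mul_eq_zero.1 h2).resolve_left hc
  refine ⟨g1, g2, ?_⟩
  rw [e1, g1, g2] at hj
  have h3 : 0 < eval p c * eval p c := by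
    rcases lt_or_gt_of_ne hc with h | h
    · exact mul_pos_of_neg_of_neg h h
    · exact mul_pos h h
  by_contra hneg
  push Not at hneg
  nlinarith [mul_pos_of_neg_of_neg hneg (neg_neg_of_pos h3)]

theorem card_symm_all {P Q : R} {n : ℕ} (hn : 1 ≤ n) (hP : P.totalDegree ≤ n)
    (hQ : Q.totalDegree ≤ n) (a : Fin 2 → ℝ) {e : ℝ} (he : e = 1 ∨ e = -1)
    (h : ∀ x : Fin 2 → ℝ, eval (a + a - x) P = e * eval x P ∧ eval (a + a - x) Q = e * eval x Q)
    (S : Finset (Fin 2 → ℝ)) (hS : ∀ p ∈ S, IsCentre P Q p ∨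
      (eval p P = 0 ∧ eval p Q = 0 ∧ 0 < jac P Q p)) :
    S.card ≤ (n ^ 2 + 1) / 2 := by
  classical
  by_cases hP0 : P = 0
  · have hS0 : S = ∅ := by
      refine Finset.eq_empty_of_forall_notMem fun s hs => ?_
      rcases hS s hs with h1 | h1
      · have h2 := (centre_reduced (P₀ := 0) (Q₀ := 1) (c := Q) (p := s) (by
          rw [mul_zero, mul_one, ← hP0]
          exact h1)).2.1
        rw [map_one] at h2
        exact one_ne_zero h2
      · have h2 := h1.2.2
        rw [hP0, jac] at h2
        simp at h2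
    rw [hS0, Finset.card_empty]
    omega
  obtain ⟨P₀, Q₀, c, hrp, hPe, hQe⟩ := UniqueFactorizationMonoid.exists_reduced_factors P hP0 Q
  have hc0 : c ≠ 0 := by
    rintro rfl
    exact hP0 (by rw [← hPe, zero_mul])
  have hP₀ : P₀ ≠ 0 := by
    rintro rfl
    exact hP0 (by rw [← hPe, mul_zero])
  have hdP : P₀.totalDegree ≤ n := by
    rw [← hPe, totalDegree_mul_of_isDomain hc0 hP₀] at hP
    omega
  have hdQ : Q₀.totalDegree ≤ n := by
    by_cases hQ₀ : Q₀ = 0
    · rw [hQ₀, totalDegree_zero]; omega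
    · rw [← hQe, totalDegree_mul_of_isDomain hc0 hQ₀] at hQ
      omega
  have hrP : refl a P = C e * P := by
    apply MvPolynomial.funext
    intro x
    rw [eval_refl, (h x).1, map_mul, eval_C]
  have hrQ : refl a Q = C e * Q := by
    apply MvPolynomial.funext
    intro x
    rw [eval_refl, (h x).2, map_mul, eval_C]
  have hee : e * e = 1 := by rcases he with rfl | rfl <;> norm_num
  have hcee : (C e : R) * C e = 1 := by rw [← C_mul, hee, C_1]
  have hcross : refl a P₀ * Q₀ = refl a Q₀ * P₀ := by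
    have h1 : P₀ * Q = Q₀ * P := by rw [← hPe, ← hQe]; ring
    have h2 := congrArg (refl a) h1
    rw [map_mul, map_mul, hrP, hrQ, ← hPe, ← hQe] at h2
    apply mul_left_cancel₀ hc0
    linear_combination (C e) * h2 - (refl a P₀ * (c * Q₀) - refl a Q₀ * (c * P₀)) * hcee
  obtain ⟨w, hw⟩ : P₀ ∣ refl a P₀ := by
    have h1 : P₀ ∣ refl a P₀ * Q₀ := ⟨refl a Q₀, by rw [hcross, mul_comm]⟩
    exact hrp.dvd_of_dvd_mul_right h1
  have hw2 : refl a Q₀ = w * Q₀ := by
    apply mul_right_cancel₀ hP₀
    rw [← hcross, hw]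
    ring
  have hww : w * refl a w = 1 := by
    have h1 := congrArg (refl a) hw
    rw [refl_refl, map_mul, hw] at h1
    apply mul_left_cancel₀ hP₀
    linear_combination -h1
  have hwu : IsUnit w := IsUnit.of_mul_eq_one _ hww
  obtain ⟨u, hu⟩ : ∃ u : ℝ, w = C u :=
    ⟨coeff 0 w, totalDegree_eq_zero_iff_eq_C.1
      (MvPolynomial.isUnit_iff_totalDegree_of_isReduced.1 hwu).2⟩
  have huu : u * u = 1 := by
    have h1 : refl a (C u) = C u := by simp [Pool.Agent.PlanarCentres.refl]
    rw [hu, h1, ← C_mul, ← C_1] at hww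
    exact C_injective _ _ hww
  have hb : ∀ p ∈ S, eval p P₀ = 0 ∧ eval p Q₀ = 0 ∧ 0 ≤ jac P₀ Q₀ p := by
    intro p hp
    rcases hS p hp with h1 | ⟨h1, h2, h3⟩
    · apply centre_reduced (c := c)
      rw [hPe, hQe]
      exact h1
    · rw [← hPe] at h1 h3
      rw [← hQe] at h2 h3
      exact jac_reduced h1 h2 h3
  have key := card_sym0 hn (shift_relprime a hrp) (totalDegree_shift a hdP)
    (totalDegree_shift a hdQ) huu
    (by rw [sg_shift, hw, hu, map_mul, mul_comm]; congr 1; simp [shift])
    (by rw [sg_shift, hw2, hu, map_mul]; congr 1; simp [shift])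
    (S.image fun p => p - a) (by
      intro q hq
      obtain ⟨p, hp, rfl⟩ := Finset.mem_image.1 hq
      obtain ⟨g1, g2, g3⟩ := hb p hp
      rw [eval_shift, eval_shift, sub_add_cancel, jacP_shift]
      exact ⟨g1, g2, g3⟩)
  rwa [Finset.card_image_of_injective _ (fun x y hxy => sub_left_injective hxy)] at key

end Pool.Agent.LogCentres
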