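import Pool.Agent.LogCentres.OrbOpen
import Pool.Agent.PlanarCentres.Cofactor

/-!
# A centre does not lie on an invariant line
-/

namespace Pool.Agent.LogCentres

open MvPolynomial Pool.Agent.PlanarCentres Topology

/-- a solution of `L' = k L` with `L 0 = 0` vanishes -/
theorem linear_ode_zero {L k : ℝ → ℝ} (hk : Continuous k) (hL : ∀ t, HasDerivAt L (k t * L t) t)
    (h0 : L 0 = 0) (t : ℝ) : L t = 0 := by
  have hI : ∀ t, HasDerivAt (fun t => ∫ s in (0 : ℝ)..t, k s) (k t) t := fun t =>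
    (hk.integral_hasStrictDerivAt 0 t).hasDerivAt
  obtain ⟨M, hM⟩ : ∃ M : ℝ → ℝ, M = fun t => L t * Real.exp (-(∫ s in (0 : ℝ)..t, k s)) :=
    ⟨_, rfl⟩
  have hMd : ∀ t, HasDerivAt M 0 t := by
    intro t
    rw [hM]
    have := (hL t).mul ((hI t).neg.exp)
    refine this.congr_deriv ?_
    ring
  have hconst : M t = M 0 :=
    is_const_of_deriv_eq_zero (fun t => (hMd t).differentiableAt) (fun t => (hMd t).deriv) t 0
  have hM0 : M 0 = 0 := by
    rw [hM]
    simp [h0]
  rw [hM0, hM] at hconst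
  exact (mul_eq_zero.mp hconst).resolve_right (Real.exp_pos _).ne'

/-- the values of a polynomial which vanishes on a line are divisible by the equation of the
line, with a continuous quotient -/
theorem exists_quot {G : R} {a b c : ℝ} (hab : a ≠ 0 ∨ b ≠ 0)
    (hG : ∀ x : Fin 2 → ℝ, a * x 0 + b * x 1 + c = 0 → eval x G = 0) :
    ∃ K : (Fin 2 → ℝ) → ℝ, Continuous K ∧ ∀ x, eval x G = K x * (a * x 0 + b * x 1 + c) := by
  have hD : a ^ 2 + b ^ 2 ≠ 0 := by
    rcases hab with h | h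
    · have : 0 < a ^ 2 := by positivity
      nlinarith [sq_nonneg b]
    · have : 0 < b ^ 2 := by positivity
      nlinarith [sq_nonneg a]
  obtain ⟨u, hu⟩ : ∃ u : (Fin 2 → ℝ) → Fin 2 → ℝ, u = fun x =>
      ![x 0 - (a * x 0 + b * x 1 + c) / (a ^ 2 + b ^ 2) * a,
        x 1 - (a * x 0 + b * x 1 + c) / (a ^ 2 + b ^ 2) * b] := ⟨_, rfl⟩
  have u0 : ∀ x, u x 0 = x 0 - (a * x 0 + b * x 1 + c) / (a ^ 2 + b ^ 2) * a := fun x => by
    rw [hu]; rfl
  have u1 : ∀ x, u x 1 = x 1 - (a * x 0 + b * x 1 + c) / (a ^ 2 + b ^ 2) * b := fun x => by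
    rw [hu]; rfl
  refine ⟨fun x => (a * dA G x (u x) + b * dB G x (u x)) / (a ^ 2 + b ^ 2), ?_, ?_⟩
  · apply Continuous.div_const
    unfold dA dB mA mB
    simp only [u0, u1]
    fun_prop
  · intro x
    have h1 := dAB G x (u x)
    have h2 : eval (u x) G = 0 := by
      apply hG
      rw [u0, u1]
      field_simp
      ring
    rw [h2, sub_zero, u0, u1] at h1
    rw [h1]
    field_simp
    ring

theorem centre_off {P Q : R} {p : Fin 2 → ℝ} (hc : IsCentre P Q p) {a b c : ℝ}
    (hab : a ≠ 0 ∨ b ≠ 0)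
    (hinv : ∀ x : Fin 2 → ℝ, a * x 0 + b * x 1 + c = 0 → a * eval x P + b * eval x Q = 0) :
    a * p 0 + b * p 1 + c ≠ 0 := by
  intro hp
  obtain ⟨U, hU, -, hq⟩ := hc.2.2 Set.univ Filter.univ_mem
  -- a point on the line
  obtain ⟨s, hs0, hsU⟩ : ∃ s : ℝ, s ≠ 0 ∧ (fun i => p i + s * (![-b, a] : Fin 2 → ℝ) i) ∈ U := by
    have hf : Continuous fun s : ℝ => (fun i => p i + s * (![-b, a] : Fin 2 → ℝ) i) := by
      refine continuous_pi fun i => ?_
      fun_prop
    have h6 : (fun i => p i + (0 : ℝ) * (![-b, a] : Fin 2 → ℝ) i) = p := by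
      funext i; simp
    have h7 : {s : ℝ | (fun i => p i + s * (![-b, a] : Fin 2 → ℝ) i) ∈ U} ∈ 𝓝 (0 : ℝ) := by
      apply hf.continuousAt.preimage_mem_nhds
      rw [h6]; exact hU
    have hne : (𝓝[≠] (0 : ℝ)).NeBot := inferInstance
    obtain ⟨s, hs1, hs2⟩ := (hne.nonempty_of_mem (Filter.inter_mem
      (mem_nhdsWithin_of_mem_nhds h7) self_mem_nhdsWithin))
    exact ⟨s, hs2, hs1⟩
  obtain ⟨q, hqd⟩ : ∃ q : Fin 2 → ℝ, q = fun i => p i + s * (![-b, a] : Fin 2 → ℝ) i := ⟨_, rfl⟩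
  rw [← hqd] at hsU
  have q0 : q 0 = p 0 - s * b := by rw [hqd]; simp [sub_eq_add_neg]
  have q1 : q 1 = p 1 + s * a := by rw [hqd]; simp
  have hqp : q ≠ p := by
    intro h
    rw [h] at q0 q1
    have e0 : s * b = 0 := by linarith
    have e1 : s * a = 0 := by linarith
    rcases hab with h' | h'
    · exact h' ((mul_eq_zero.mp e1).resolve_left hs0)
    · exact h' ((mul_eq_zero.mp e0).resolve_left hs0)
  obtain ⟨γ, hγ, hγ0, -⟩ := hq q hsU hqp
  have hsol := hγ.1
  obtain ⟨T, hT, hper⟩ := hγ.2.1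
  have hd0 : ∀ t, HasDerivAt (fun t => γ t 0) (eval (γ t) P) t := by
    intro t
    have := hasDerivAt_pi.mp (hsol t) 0
    simpa using this
  have hd1 : ∀ t, HasDerivAt (fun t => γ t 1) (eval (γ t) Q) t := by
    intro t
    have := hasDerivAt_pi.mp (hsol t) 1
    simpa using this
  have hγc : Continuous γ := by
    rw [continuous_iff_continuousAt]
    exact fun t => (hsol t).continuousAt
  obtain ⟨K, hKc, hK⟩ := exists_quot (G := C a * P + C b * Q) (c := c) hab (by
    intro x hx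
    simp only [map_add, map_mul, eval_C]
    exact hinv x hx)
  have hLd : ∀ t, HasDerivAt (fun t => a * γ t 0 + b * γ t 1 + c)
      (K (γ t) * (a * γ t 0 + b * γ t 1 + c)) t := by
    intro t
    have := (((hd0 t).const_mul a).add ((hd1 t).const_mul b)).add_const c
    refine this.congr_deriv ?_
    rw [← hK]
    simp only [map_add, map_mul, eval_C]
  have hL0 : ∀ t, a * γ t 0 + b * γ t 1 + c = 0 := fun t =>
    linear_ode_zero (k := fun t => K (γ t)) (hKc.comp hγc) hLd (by
      rw [hγ0, q0, q1]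
      linarith) t
  -- the maximum of the coordinate along the line
  obtain ⟨m, hm⟩ : ∃ m : ℝ → ℝ, m = fun t => -b * γ t 0 + a * γ t 1 := ⟨_, rfl⟩
  have hmd : ∀ t, HasDerivAt m (-b * eval (γ t) P + a * eval (γ t) Q) t := by
    intro t
    rw [hm]
    exact ((hd0 t).const_mul (-b)).add ((hd1 t).const_mul a)
  have hmper : Function.Periodic m T := by
    intro t
    rw [hm]
    simp only [hper t]
  have hmc : Continuous m := by
    rw [continuous_iff_continuousAt]
    exact fun t => (hmd t).continuousAt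
  obtain ⟨v, ⟨t, rfl⟩, hmax⟩ := (hmper.compact_of_continuous hT.ne' hmc).exists_isGreatest
    ⟨m 0, Set.mem_range_self 0⟩
  have hlm : IsLocalMax m t := Filter.Eventually.of_forall fun s => hmax (Set.mem_range_self s)
  have h1 : -b * eval (γ t) P + a * eval (γ t) Q = 0 := hlm.hasDerivAt_eq_zero (hmd t)
  have h2 : a * eval (γ t) P + b * eval (γ t) Q = 0 := hinv _ (hL0 t)
  have hD : a ^ 2 + b ^ 2 ≠ 0 := by
    rcases hab with h | h
    · have : 0 < a ^ 2 := by positivity
      nlinarith [sq_nonneg b]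
    · have : 0 < b ^ 2 := by positivity
      nlinarith [sq_nonneg a]
  have e1 : (a ^ 2 + b ^ 2) * eval (γ t) P = 0 := by linear_combination a * h2 - b * h1
  have e2 : (a ^ 2 + b ^ 2) * eval (γ t) Q = 0 := by linear_combination b * h2 + a * h1
  rcases orbit_ne hγ t with h | h
  · exact h ((mul_eq_zero.mp e1).resolve_left hD)
  · exact h ((mul_eq_zero.mp e2).resolve_left hD)

end Pool.Agent.LogCentres
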