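import Pool.Agent.LogCentres.TopF

/-!
# Degrees of the logarithmic vector field
-/

namespace Pool.Agent.LogCentres

open MvPolynomial

theorem euler_split {P Q : R} {k : ℕ} (hP : P.totalDegree ≤ k + 1) (hQ : Q.totalDegree ≤ k + 1)
    (h : (X 0 * Q - X 1 * P).totalDegree ≤ k + 1) :
    ∃ G P₁ Q₁ : R, G.totalDegree ≤ k ∧ P₁.totalDegree ≤ k ∧ Q₁.totalDegree ≤ k ∧
      P = X 0 * G + P₁ ∧ Q = X 1 * G + Q₁ := by
  have hX : ∀ i : Fin 2, (X i : R).totalDegree ≤ 1 := fun i => (totalDegree_X (R := ℝ) i).le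
  have h0 : topP (1 + (k + 1)) (X 0 * Q - X 1 * P) = 0 := topP_of_lt (by omega)
  have h1 : topP (k + 1) Q = Polynomial.X * topP (k + 1) P := by
    rw [sub_eq_add_neg, topP_add, ← neg_one_smul ℝ (X 1 * P), topP_smul,
      topP_mul (hX 0) hQ, topP_mul (hX 1) hP, topP_X0, topP_X1, one_mul, neg_one_smul,
      ← sub_eq_add_neg, sub_eq_zero] at h0
    exact h0
  have h2 : (topP (k + 1) P).natDegree ≤ k := by
    by_cases hz : topP (k + 1) P = 0
    · rw [hz]; simp
    · have h3 := topP_natDegree_le (k + 1) Q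
      rw [h1, Polynomial.natDegree_X_mul hz] at h3
      omega
  obtain ⟨G, hG, hG'⟩ := topP_surj h2
  have hXG : ∀ i : Fin 2, (X i * G : R).totalDegree ≤ k + 1 := by
    intro i
    refine (totalDegree_mul _ _).trans ?_
    have := hX i
    omega
  have hsub : ∀ (i : Fin 2) (A : R), A.totalDegree ≤ k + 1 →
      (A - X i * G).totalDegree ≤ k + 1 := by
    intro i A hA
    exact (totalDegree_sub _ _).trans (max_le hA (hXG i))
  have htop : ∀ (i : Fin 2) (A : R), topP (k + 1) (A - X i * G) =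
      topP (k + 1) A - topP 1 (X i) * topP k G := by
    intro i A
    rw [sub_eq_add_neg, topP_add, ← neg_one_smul ℝ (X i * G), topP_smul, add_comm k 1,
      topP_mul (hX i) hG, neg_one_smul, ← sub_eq_add_neg]
  refine ⟨G, P - X 0 * G, Q - X 1 * G, hG, ?_, ?_, by ring, by ring⟩
  · apply deg_of_topP (hsub 0 P hP)
    rw [htop, topP_X0, one_mul, hG', sub_self]
  · apply deg_of_topP (hsub 1 Q hQ)
    rw [htop, topP_X1, hG', h1, sub_self]

/-- the derivative lowers the degree -/
theorem deg_pderiv {f : R} {d : ℕ} (hf : f.totalDegree ≤ d) (i : Fin 2) :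
    (d = 0 ∧ pderiv i f = 0) ∨ (pderiv i f).totalDegree + 1 ≤ d := by
  rcases Nat.eq_zero_or_pos d with rfl | hd
  · left
    refine ⟨rfl, ?_⟩
    have : f = C (coeff 0 f) := totalDegree_eq_zero_iff_eq_C.1 (by omega)
    rw [this, pderiv_C]
  · right
    have : (pderiv i f).totalDegree ≤ d - 1 := by
      rw [totalDegree, Finset.sup_le_iff]
      intro s hs
      rw [mem_support_iff, coeff_pderiv] at hs
      have h1 : coeff (s + Finsupp.single i 1) f ≠ 0 := by
        intro h
        apply hs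
        rw [h]; simp
      have h2 := (le_totalDegree (mem_support_iff.2 h1)).trans hf
      rw [Finsupp.sum_add_index' (fun _ => rfl) (fun _ _ _ => rfl),
        Finsupp.sum_single_index rfl] at h2
      omega
    omega

/-- Euler's identity up to lower degree -/
theorem deg_eul {f : R} {d : ℕ} (hf : f.totalDegree ≤ d) :
    ∃ r : R, X 0 * pderiv 0 f + X 1 * pderiv 1 f = (d : ℝ) • f + r ∧
      ((d = 0 ∧ r = 0) ∨ r.totalDegree + 1 ≤ d) := by
  refine ⟨X 0 * pderiv 0 f + X 1 * pderiv 1 f - (d : ℝ) • f, by ring, ?_⟩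
  rcases Nat.eq_zero_or_pos d with rfl | hd
  · left
    refine ⟨rfl, ?_⟩
    have : f = C (coeff 0 f) := totalDegree_eq_zero_iff_eq_C.1 (by omega)
    rw [this, pderiv_C, pderiv_C]
    simp
  · right
    have hXc : ∀ (i : Fin 2) (s : Fin 2 →₀ ℕ), coeff s (X i * pderiv i f) = s i * coeff s f := by
      intro i s
      rw [mul_comm, coeff_mul_X']
      split_ifs with h
      · rw [coeff_pderiv]
        have h1 : 1 ≤ s i := by
          rw [Finsupp.mem_support_iff] at h
          omega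
        have h2 : s - Finsupp.single i 1 + Finsupp.single i 1 = s := by
          ext j
          by_cases hj : j = i
          · subst hj
            simp [h1]
          · simp [Ne.symm hj]
        rw [h2]
        have h3 : (((s - Finsupp.single i 1 : Fin 2 →₀ ℕ) i : ℕ) : ℝ) + 1 = s i := by
          rw [Finsupp.tsub_apply, Finsupp.single_eq_same, Nat.cast_sub h1]
          simp
        rw [h3, mul_comm]
      · rw [Finsupp.notMem_support_iff] at h
        rw [h]; simp
    have : (X 0 * pderiv 0 f + X 1 * pderiv 1 f - (d : ℝ) • f).totalDegree ≤ d - 1 := by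
      rw [totalDegree, Finset.sup_le_iff]
      intro s hs
      rw [mem_support_iff, coeff_sub, coeff_add, hXc, hXc, coeff_smul, smul_eq_mul, ← add_mul,
        ← sub_mul] at hs
      have h1 : coeff s f ≠ 0 := by
        intro h
        apply hs
        rw [h, mul_zero]
      have h2 := (le_totalDegree (mem_support_iff.2 h1)).trans hf
      have h3 : s.sum (fun _ e => e) = s 0 + s 1 := by
        rw [Finsupp.sum_fintype _ _ (fun _ => rfl), Fin.sum_univ_two]
      rw [h3] at h2 ⊢
      by_contra h4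
      apply hs
      have h5 : s 0 + s 1 = d := by omega
      rw [← h5]
      push_cast
      ring
    omega

theorem deg_logTerm {ι κ : Type} [Fintype ι] [DecidableEq ι] [Fintype κ] [DecidableEq κ]
    {F : ι → R} {G : κ → R} {dd : ι → ℕ} {ee : κ → ℕ} {N : ℕ}
    (hF : ∀ i, (F i).totalDegree ≤ dd i) (hG : ∀ j, (G j).totalDegree ≤ ee j)
    (hN : ∑ i, dd i + ∑ j, ee j = N + 1) (c : ι → ℝ) (D : ι → R)
    (hD : ∀ i, (dd i = 0 ∧ D i = 0) ∨ (D i).totalDegree + 1 ≤ dd i) :
    ((∏ j, G j) * ∑ i, c i • ((∏ k ∈ Finset.univ.erase i, F k) * D i)).totalDegree ≤ N := by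
  rw [Finset.mul_sum]
  apply totalDegree_finsetSum_le
  intro i _
  rcases hD i with ⟨_, h⟩ | h
  · rw [h, mul_zero, smul_zero, mul_zero, totalDegree_zero]
    exact Nat.zero_le _
  · have h1 : (∏ j, G j).totalDegree ≤ ∑ j, ee j :=
      (totalDegree_finsetProd _ _).trans (Finset.sum_le_sum fun j _ => hG j)
    have h2 : (∏ k ∈ Finset.univ.erase i, F k).totalDegree ≤ ∑ k ∈ Finset.univ.erase i, dd k :=
      (totalDegree_finsetProd _ _).trans (Finset.sum_le_sum fun j _ => hF j)
    have h3 : ∑ k ∈ Finset.univ.erase i, dd k + dd i = ∑ k, dd k :=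
      Finset.sum_erase_add _ _ (Finset.mem_univ i)
    have h4 : (c i • ((∏ k ∈ Finset.univ.erase i, F k) * D i)).totalDegree ≤
        ∑ k ∈ Finset.univ.erase i, dd k + (D i).totalDegree :=
      (totalDegree_smul_le _ _).trans ((totalDegree_mul _ _).trans (by omega))
    refine (totalDegree_mul _ _).trans ?_
    omega

theorem deg_XP {ι κ : Type} [Fintype ι] [DecidableEq ι] [Fintype κ] [DecidableEq κ]
    {F : ι → R} {α : ι → ℝ} {G : κ → R} {β : κ → ℝ} {dd : ι → ℕ} {ee : κ → ℕ} {N : ℕ}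
    (hF : ∀ i, (F i).totalDegree ≤ dd i) (hG : ∀ j, (G j).totalDegree ≤ ee j)
    (hN : ∑ i, dd i + ∑ j, ee j = N + 1) :
    (XP F α G β).totalDegree ≤ N ∧ (XQ F α G β).totalDegree ≤ N := by
  have hN' : ∑ j, ee j + ∑ i, dd i = N + 1 := by rw [add_comm]; exact hN
  exact ⟨(totalDegree_sub _ _).trans (max_le
    (deg_logTerm hF hG hN α _ fun i => deg_pderiv (hF i) 1)
    (deg_logTerm hG hF hN' β _ fun j => deg_pderiv (hG j) 1)),
    (totalDegree_sub _ _).trans (max_le
    (deg_logTerm hG hF hN' β _ fun j => deg_pderiv (hG j) 0)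
    (deg_logTerm hF hG hN α _ fun i => deg_pderiv (hF i) 0))⟩

theorem eul_logD {ι : Type} [Fintype ι] [DecidableEq ι] (F : ι → R) (α : ι → ℝ) (dd : ι → ℕ)
    (r : ι → R) (h : ∀ i, X 0 * pderiv 0 (F i) + X 1 * pderiv 1 (F i) =
      (dd i : ℝ) • F i + r i) :
    X 0 * logD F α 0 + X 1 * logD F α 1 = (∑ i, α i * dd i) • ∏ i, F i +
      ∑ i, α i • ((∏ k ∈ Finset.univ.erase i, F k) * r i) := by
  rw [logD, logD, Finset.mul_sum, Finset.mul_sum, ← Finset.sum_add_distrib, Finset.sum_smul,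
    ← Finset.sum_add_distrib]
  apply Finset.sum_congr rfl
  intro i _
  have h1 : (∏ k ∈ Finset.univ.erase i, F k) * F i = ∏ k, F k :=
    Finset.prod_erase_mul _ _ (Finset.mem_univ i)
  have h2 := congrArg (fun y => α i • ((∏ k ∈ Finset.univ.erase i, F k) * y)) (h i)
  simp only [mul_add, smul_add] at h2
  rw [mul_smul_comm, h1, smul_smul] at h2
  rw [← h2]
  rw [mul_smul_comm, mul_smul_comm]
  congr 1
  · congr 1; ring
  · congr 1; ring

theorem deg_euler {ι κ : Type} [Fintype ι] [DecidableEq ι] [Fintype κ] [DecidableEq κ]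
    {F : ι → R} {α : ι → ℝ} {G : κ → R} {β : κ → ℝ} {dd : ι → ℕ} {ee : κ → ℕ} {N : ℕ}
    (hF : ∀ i, (F i).totalDegree ≤ dd i) (hG : ∀ j, (G j).totalDegree ≤ ee j)
    (hN : ∑ i, dd i + ∑ j, ee j = N + 1) (hbal : ∑ i, α i * dd i = ∑ j, β j * ee j) :
    (X 0 * XQ F α G β - X 1 * XP F α G β).totalDegree ≤ N := by
  have hN' : ∑ j, ee j + ∑ i, dd i = N + 1 := by rw [add_comm]; exact hN
  choose r hr hr' using fun i => deg_eul (hF i)
  choose t ht ht' using fun j => deg_eul (hG j)
  have h1 := eul_logD F α dd r hr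
  have h2 := eul_logD G β ee t ht
  have h3 : X 0 * XQ F α G β - X 1 * XP F α G β =
      (∏ i, F i) * ∑ j, β j • ((∏ k ∈ Finset.univ.erase j, G k) * t j) -
      (∏ j, G j) * ∑ i, α i • ((∏ k ∈ Finset.univ.erase i, F k) * r i) := by
    have h4 : X 0 * XQ F α G β - X 1 * XP F α G β =
        (∏ i, F i) * (X 0 * logD G β 0 + X 1 * logD G β 1) -
        (∏ j, G j) * (X 0 * logD F α 0 + X 1 * logD F α 1) := by
      rw [XQ, XP]; ring
    rw [h4, h1, h2, hbal]
    simp only [mul_add, mul_smul_comm]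
    rw [mul_comm (∏ j, G j) (∏ i, F i)]
    ring
  rw [h3]
  exact (totalDegree_sub _ _).trans (max_le (deg_logTerm hG hF hN' β t ht')
    (deg_logTerm hF hG hN α r hr'))

end Pool.Agent.LogCentres
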