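import Pool.Agent.LogCentres.Member
import Pool.Agent.PlanarCentres.Curve

/-!
# Dimension of the quotient
-/

namespace Pool.Agent.LogCentres

open MvPolynomial

/-- polynomials of degree less than `k` -/
private noncomputable def Dg : ℕ → Submodule ℝ R
  | 0 => ⊥
  | k + 1 => restrictTotalDegree (Fin 2) ℝ k

private theorem mem_Dg {k : ℕ} {p : R} (h : p = 0 ∨ p.totalDegree + 1 ≤ k) : p ∈ Dg k := by
  rcases h with h | h
  · rw [h]
    exact Submodule.zero_mem _
  · cases k with
    | zero => omega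
    | succ k =>
      show p ∈ restrictTotalDegree (Fin 2) ℝ k
      rw [mem_restrictTotalDegree]
      omega

private theorem fin_deg (k : ℕ) : Module.Finite ℝ (restrictTotalDegree (Fin 2) ℝ k) := by
  apply Module.finite_of_finrank_pos
  rw [PlanarCentres.finrank_deg]
  have : (k + 1) * (k + 2) ≥ 2 := by nlinarith
  omega

private theorem fin_Dg (k : ℕ) : Module.Finite ℝ (Dg k) := by
  cases k with
  | zero =>
    show Module.Finite ℝ (⊥ : Submodule ℝ R)
    infer_instance
  | succ k => exact fin_deg k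

private theorem finrank_Dg (k : ℕ) : Module.finrank ℝ (Dg k) = k * (k + 1) / 2 := by
  cases k with
  | zero =>
    show Module.finrank ℝ (⊥ : Submodule ℝ R) = _
    rw [finrank_bot]
  | succ k =>
    show Module.finrank ℝ (restrictTotalDegree (Fin 2) ℝ k) = _
    rw [PlanarCentres.finrank_deg]

theorem finrank_ge {f h : R} {a b : ℕ} (hf : f.totalDegree ≤ a + 1)
    (hh : h.totalDegree ≤ b + 1) (hn : (topP (a + 1) f).natDegree = a + 1)
    (hc : IsCoprime (topP (a + 1) f) (topP (b + 1) h)) :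
    Module.Finite ℝ (R ⧸ Ideal.span {f, h}) ∧
      (a + 1) * (b + 1) ≤ Module.finrank ℝ (R ⧸ Ideal.span {f, h}) := by
  classical
  set I : Ideal R := Ideal.span {f, h} with hI
  let W : Submodule ℝ R := restrictTotalDegree (Fin 2) ℝ (a + b)
  have : Module.Finite ℝ W := fin_deg (a + b)
  have := fin_Dg a
  have := fin_Dg b
  let q : W →ₗ[ℝ] (R ⧸ I) := (Ideal.Quotient.mkₐ ℝ I).toLinearMap ∘ₗ W.subtype
  have hq : ∀ w : W, q w = Ideal.Quotient.mk I w.1 := fun w => rfl
  have hsurj : Function.Surjective q := by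
    intro y
    obtain ⟨p, rfl⟩ := Ideal.Quotient.mk_surjective y
    obtain ⟨p', h1, h2⟩ := reduction hf hh hn hc p
    refine ⟨⟨p', ?_⟩, ?_⟩
    · show p' ∈ restrictTotalDegree (Fin 2) ℝ (a + b)
      rw [mem_restrictTotalDegree]
      exact h1
    · rw [hq]
      symm
      rw [Ideal.Quotient.eq]
      exact h2
  have hfin : Module.Finite ℝ (R ⧸ I) := Module.Finite.of_surjective q hsurj
  refine ⟨hfin, ?_⟩
  have h1 := LinearMap.finrank_range_add_finrank_ker q
  rw [LinearMap.range_eq_top.mpr hsurj, finrank_top] at h1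
  have hW : Module.finrank ℝ W = (a + b + 1) * (a + b + 2) / 2 := PlanarCentres.finrank_deg (a + b)
  let Φ : (Dg b × Dg a) →ₗ[ℝ] R :=
    (LinearMap.mulRight ℝ f ∘ₗ (Dg b).subtype).coprod (LinearMap.mulRight ℝ h ∘ₗ (Dg a).subtype)
  have hΦ : ∀ x : Dg b × Dg a, Φ x = x.1.1 * f + x.2.1 * h := fun x => rfl
  have hle : (LinearMap.ker q).map W.subtype ≤ LinearMap.range Φ := by
    rintro _ ⟨w, hw, rfl⟩
    have hw' : q w = 0 := hw
    rw [hq, Ideal.Quotient.eq_zero_iff_mem] at hw'
    have hwd : w.1.totalDegree ≤ a + b := (mem_restrictTotalDegree _ _ _).mp w.2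
    obtain ⟨u, v, e1, e2, e3⟩ := membership hf hh hn hc hw' hwd
    refine ⟨(⟨u, mem_Dg ?_⟩, ⟨v, mem_Dg ?_⟩), ?_⟩
    · rcases e2 with e2 | e2
      · exact Or.inl e2
      · right; omega
    · rcases e3 with e3 | e3
      · exact Or.inl e3
      · right; omega
    · rw [hΦ]
      exact e1.symm
  have h2 : Module.finrank ℝ (LinearMap.ker q) ≤ b * (b + 1) / 2 + a * (a + 1) / 2 := by
    have h3 : Module.finrank ℝ ((LinearMap.ker q).map W.subtype) =
        Module.finrank ℝ (LinearMap.ker q) :=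
      (Submodule.equivMapOfInjective W.subtype (Submodule.injective_subtype W)
        (LinearMap.ker q)).finrank_eq.symm
    rw [← h3]
    have h4 := Submodule.finrank_mono hle
    have h5 := LinearMap.finrank_range_le Φ
    rw [Module.finrank_prod, finrank_Dg, finrank_Dg] at h5
    exact h4.trans h5
  rw [hW] at h1
  have ev1 : 2 * ((a + b + 1) * (a + b + 2) / 2) = (a + b + 1) * (a + b + 2) :=
    Nat.mul_div_cancel' (Nat.even_mul_succ_self (a + b + 1)).two_dvd
  have ev2 : 2 * (b * (b + 1) / 2) = b * (b + 1) :=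
    Nat.mul_div_cancel' (Nat.even_mul_succ_self _).two_dvd
  have ev3 : 2 * (a * (a + 1) / 2) = a * (a + 1) :=
    Nat.mul_div_cancel' (Nat.even_mul_succ_self _).two_dvd
  have key : (a + b + 1) * (a + b + 2) =
      2 * ((a + 1) * (b + 1)) + b * (b + 1) + a * (a + 1) := by ring
  omega

end Pool.Agent.LogCentres
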