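import Pool.Agent.LogCentres.Kern

/-!
# Syzygies of the diagonal
-/

namespace Pool.Agent.LogCentres

open MvPolynomial

theorem koszul {a b : T} (h : e 0 * a + e 1 * b = 0) : ∃ c, a = e 1 * c ∧ b = -(e 0 * c) := by
  have he : ∀ i, e i = (X i : T) - C (X i) := by
    intro i
    have h1 : ix (X i) = (X i : T) := by simp [ix]
    have h2 : iu (X i) = (C (X i) : T) := rfl
    rw [e, h1, h2]
  let φ : T →ₐ[R] T := aeval ![(X 0 : T), C (X 1)]
  have hφ0 : φ (X 0) = X 0 := by simp [φ]
  have hφ1 : φ (X 1) = C (X 1) := by simp [φ]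
  have hφC : ∀ r : R, φ (C r) = C r := fun r => φ.commutes r
  have h1 : φ (e 1) = 0 := by rw [he, map_sub, hφ1, hφC, sub_self]
  have h0 : φ (e 0) ≠ 0 := by
    rw [he, map_sub, hφ0, hφC]
    intro h2
    have h3 := congrArg (coeff (Finsupp.single 0 1)) h2
    rw [coeff_sub, coeff_X, if_pos rfl, coeff_C, if_neg, sub_zero, coeff_zero] at h3
    · exact one_ne_zero h3
    · intro h4
      have h5 := DFunLike.congr_fun h4 0
      simp at h5
  have hne : e 1 ≠ 0 := by
    rw [he]
    intro h2
    have h3 := congrArg (coeff (Finsupp.single 1 1)) h2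
    rw [coeff_sub, coeff_X, if_pos rfl, coeff_C, if_neg, sub_zero, coeff_zero] at h3
    · exact one_ne_zero h3
    · intro h4
      have h5 := DFunLike.congr_fun h4 1
      simp at h5
  have hmem : ∀ t : T, t - φ t ∈ Ideal.span {e 1} := by
    intro t
    have h2 : (Ideal.Quotient.mkₐ R (Ideal.span {e 1})) =
        (Ideal.Quotient.mkₐ R (Ideal.span {e 1})).comp φ := by
      apply MvPolynomial.algHom_ext
      intro i
      rw [AlgHom.comp_apply]
      fin_cases i
      · exact congrArg _ hφ0.symm
      · show Ideal.Quotient.mk _ (X 1) = Ideal.Quotient.mk _ (φ (X 1))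
        rw [hφ1, Ideal.Quotient.eq, ← he]
        exact Ideal.subset_span rfl
    have h3 := DFunLike.congr_fun h2 t
    exact (Ideal.Quotient.eq).1 h3
  have ha : φ a = 0 := by
    have h2 : φ (e 0) * φ a = 0 := by
      have h3 := congrArg φ h
      rw [map_add, map_mul, map_mul, h1, zero_mul, add_zero, map_zero] at h3
      exact h3
    exact (mul_eq_zero.1 h2).resolve_left h0
  have h4 := hmem a
  rw [ha, sub_zero, Ideal.mem_span_singleton] at h4
  obtain ⟨c, hc⟩ := h4
  refine ⟨c, hc, ?_⟩
  have h5 : e 1 * (e 0 * c + b) = 0 := by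
    rw [← h, hc]; ring
  have h6 := (mul_eq_zero.1 h5).resolve_left hne
  linear_combination h6

end Pool.Agent.LogCentres
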