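import Pool.Agent.LogCentres.DecE
import Pool.Agent.LogCentres.Koszul

/-!
# The Bezoutian modulo the ideal of both variables
-/

namespace Pool.Agent.LogCentres

open MvPolynomial

private theorem ix_sub_iu_left (f h : R) : ix f - iu f ∈ J f h :=
  Ideal.sub_mem _ (Ideal.subset_span (by simp)) (Ideal.subset_span (by simp))

private theorem ix_sub_iu_right (f h : R) : ix h - iu h ∈ J f h :=
  Ideal.sub_mem _ (Ideal.subset_span (by simp)) (Ideal.subset_span (by simp))

/-- the Bezoutian does not depend on the kernels, modulo `J f h` -/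
theorem det_indep {f h : R} {A B C D A' B' C' D' : T} (h1 : Ker f A B) (h2 : Ker h C D)
    (h1' : Ker f A' B') (h2' : Ker h C' D') :
    (A * D - B * C) - (A' * D' - B' * C') ∈ J f h := by
  obtain ⟨c, hA, hB⟩ := koszul (a := A - A') (b := B - B') (by
    unfold Ker at h1 h1'; linear_combination h1' - h1)
  obtain ⟨c', hC, hD⟩ := koszul (a := C - C') (b := D - D') (by
    unfold Ker at h2 h2'; linear_combination h2' - h2)
  have key : (A * D - B * C) - (A' * D' - B' * C') =
      c * (ix h - iu h) - c' * (ix f - iu f) := by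
    unfold Ker at h1' h2
    linear_combination D * hA - C * hB + A' * hD - B' * hC - c * h2 + c' * h1'
  rw [key]
  exact Ideal.sub_mem _ (Ideal.mul_mem_left _ _ (ix_sub_iu_right f h))
    (Ideal.mul_mem_left _ _ (ix_sub_iu_left f h))

theorem det_move {f h : R} {A B C D : T} (h1 : Ker f A B) (h2 : Ker h C D) (v : R) :
    (ix v - iu v) * (A * D - B * C) ∈ J f h := by
  obtain ⟨a, b, hv⟩ := exists_ker v
  have key : (ix v - iu v) * (A * D - B * C) =
      (a * D - b * C) * (ix f - iu f) + (b * A - a * B) * (ix h - iu h) := by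
    unfold Ker at h1 h2 hv
    linear_combination (A * D - B * C) * hv - (a * D - b * C) * h1 - (b * A - a * B) * h2
  rw [key]
  exact Ideal.add_mem _ (Ideal.mul_mem_left _ _ (ix_sub_iu_left f h))
    (Ideal.mul_mem_left _ _ (ix_sub_iu_right f h))

private theorem app_iu_kill {I : Ideal R} {m : R →ₗ[ℝ] ℝ} (hm : ∀ p ∈ I, m p = 0) {f : R}
    (hf : f ∈ I) (t : T) : app m (iu f * t) = 0 := by
  rw [app_iu_mul]
  ext s
  rw [coeff_app, coeff_zero]
  exact hm _ (Ideal.mul_mem_right _ _ hf)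

theorem app_J {f h : R} {m : R →ₗ[ℝ] ℝ} (hm : ∀ p ∈ Ideal.span {f, h}, m p = 0) {t : T}
    (ht : t ∈ J f h) : app m t ∈ Ideal.span {f, h} := by
  have hf : f ∈ Ideal.span {f, h} := Ideal.subset_span (by simp)
  have hh : h ∈ Ideal.span {f, h} := Ideal.subset_span (by simp)
  unfold J at ht
  rw [Ideal.mem_span_insert] at ht
  obtain ⟨a, z, hz, rfl⟩ := ht
  rw [Ideal.mem_span_insert] at hz
  obtain ⟨b, z, hz, rfl⟩ := hz
  rw [Ideal.mem_span_insert] at hz
  obtain ⟨c, z, hz, rfl⟩ := hz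
  rw [Ideal.mem_span_singleton'] at hz
  obtain ⟨d, rfl⟩ := hz
  rw [mul_comm a, mul_comm b, mul_comm c, mul_comm d, map_add, map_add, map_add, app_ix_mul,
    app_ix_mul, app_iu_kill hm hf, app_iu_kill hm hh, add_zero, add_zero]
  exact Ideal.add_mem _ (Ideal.mul_mem_right _ _ hf) (Ideal.mul_mem_right _ _ hh)

theorem pair_J {f h : R} {φ ψ : R →ₗ[ℝ] ℝ} (hφ : ∀ p ∈ Ideal.span {f, h}, φ p = 0)
    (hψ : ∀ p ∈ Ideal.span {f, h}, ψ p = 0) {t : T} (ht : t ∈ J f h) : pair φ ψ t = 0 :=
  hφ _ (app_J hψ ht)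

end Pool.Agent.LogCentres
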