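import Pool.Agent.LogCentres.Member
import Pool.Agent.LogCentres.Jid

/-!
# Existence of the residue functional
-/

namespace Pool.Agent.LogCentres

open MvPolynomial

/-- polynomials of degree less than `d` -/
private noncomputable def low (d : ℕ) : Submodule ℝ R :=
  Submodule.span ℝ {p | p.totalDegree + 1 ≤ d}

private theorem low_deg {d : ℕ} {p : R} (hp : p ∈ low d) : p.totalDegree ≤ d ∧ topP d p = 0 := by
  unfold low at hp
  induction hp using Submodule.span_induction with
  | mem x hx =>
    have hx' : x.totalDegree + 1 ≤ d := hx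
    exact ⟨by omega, topP_of_lt (by omega)⟩
  | zero =>
    refine ⟨by simp, ?_⟩
    have := topP_smul d 0 (0 : R)
    rwa [zero_smul, zero_smul] at this
  | add x y _ _ hx hy =>
    refine ⟨(totalDegree_add x y).trans (max_le hx.1 hy.1), ?_⟩
    rw [topP_add, hx.2, hy.2, add_zero]
  | smul c x _ hx =>
    refine ⟨(totalDegree_smul_le c x).trans hx.1, ?_⟩
    rw [topP_smul, hx.2, smul_zero]

private theorem coeff_ix (p : R) (s : Fin 2 →₀ ℕ) : coeff s (ix p) = C (coeff s p) := by
  show coeff s (MvPolynomial.map _ p) = _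
  rw [coeff_map]
  rfl

private theorem coeff_iu_mul (p : R) (t : T) (s : Fin 2 →₀ ℕ) :
    coeff s (iu p * t) = p * coeff s t := by
  show coeff s (C p * t) = _
  rw [coeff_C_mul]

private theorem coeff_low {d : ℕ} {t : T} (ht : t ∈ Fil d) {s : Fin 2 →₀ ℕ} (hs : s ≠ 0) :
    (coeff s t : R) ∈ low d := by
  unfold Fil at ht
  induction ht using Submodule.span_induction with
  | mem x hx =>
    obtain ⟨p, q, h1, rfl⟩ := hx
    rw [mul_comm, coeff_iu_mul, coeff_ix]
    by_cases h : coeff s p = 0
    · rw [h, C_0, mul_zero]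
      exact zero_mem _
    · have h2 : s.degree ≤ p.totalDegree := by
        have := le_totalDegree (mem_support_iff.2 h)
        rwa [Finsupp.degree_eq_sum, ← Finsupp.sum_fintype s (fun _ e => e) (fun _ => rfl)]
      have h3 : 1 ≤ s.degree := by
        rw [Nat.one_le_iff_ne_zero]
        intro h4
        exact hs ((Finsupp.degree_eq_zero_iff s).1 h4)
      rw [mul_comm, ← smul_eq_C_mul]
      refine Submodule.smul_mem _ _ (Submodule.subset_span ?_)
      show q.totalDegree + 1 ≤ d
      omega
  | zero => exact zero_mem _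
  | add x y _ _ hx hy => rw [coeff_add]; exact add_mem hx hy
  | smul c x _ hx => rw [coeff_smul]; exact Submodule.smul_mem _ _ hx

/-- the term at `x = 0` of the kernel equation -/
private theorem ker_zero {f : R} {A B : T} (h : Ker f A B) :
    f = C (coeff 0 f) + (X 0 * coeff 0 A + X 1 * coeff 0 B) := by
  have he : ∀ (i : Fin 2) (t : T), coeff 0 (e i * t) = -(X i * (coeff 0 t : R)) := by
    intro i t
    unfold e
    rw [sub_mul, coeff_sub, coeff_iu_mul]
    have : ix (X i) = (X i : T) := by
      show MvPolynomial.map _ (X i) = _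
      rw [map_X]
    rw [this]
    have h0 : coeff 0 ((X i : T) * t) = 0 := by
      rw [mul_comm]
      have := coeff_mul_X' (0 : Fin 2 →₀ ℕ) i t
      rw [this]
      simp
    rw [h0, zero_sub]
  have h1 := congrArg (coeff (0 : Fin 2 →₀ ℕ)) h
  rw [coeff_sub, coeff_add, he, he, coeff_ix] at h1
  have h2 : coeff (0 : Fin 2 →₀ ℕ) (iu f) = f := by
    have := coeff_iu_mul f 1 0
    rwa [mul_one, coeff_zero_one, mul_one] at this
  rw [h2] at h1
  linear_combination -h1

private theorem top_zero {f : R} {a : ℕ} {A B : T} (h : Dec f a A B) :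
    topP (a + 1) f = topP a (coeff 0 A) + Polynomial.X * topP a (coeff 0 B) := by
  have h1 := ker_zero h.eq
  have h2 : (coeff 0 A : R).totalDegree ≤ a := Fil_coeff_zero h.memA
  have h3 : (coeff 0 B : R).totalDegree ≤ a := Fil_coeff_zero h.memB
  have h4 : topP (a + 1) (X 0 * (coeff 0 A : R)) = topP a (coeff 0 A) := by
    rw [add_comm a 1, topP_mul (totalDegree_X _).le h2, topP_X0, one_mul]
  have h5 : topP (a + 1) (X 1 * (coeff 0 B : R)) = Polynomial.X * topP a (coeff 0 B) := by
    rw [add_comm a 1, topP_mul (totalDegree_X _).le h3, topP_X1]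
  conv_lhs => rw [h1]
  rw [topP_add, topP_add, h4, h5, topP_of_lt (by rw [totalDegree_C]; omega), zero_add]

private theorem top_mul {u f : R} {a b : ℕ} (hf : f.totalDegree ≤ a + 1)
    (hu : u = 0 ∨ u.totalDegree + (a + 1) ≤ a + b) :
    ∃ p : Polynomial ℝ, topP (a + b) (u * f) = p * topP (a + 1) f ∧
      (p = 0 ∨ p.natDegree + 1 ≤ b) := by
  rcases hu with rfl | hu
  · refine ⟨0, ?_, Or.inl rfl⟩
    have := topP_smul (a + b) 0 (0 : R)
    rw [zero_smul, zero_smul] at this
    rw [zero_mul, zero_mul, this]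
  · obtain ⟨c, rfl⟩ : ∃ c, b = c + 1 := ⟨b - 1, by omega⟩
    refine ⟨topP c u, ?_, Or.inr ?_⟩
    · rw [show a + (c + 1) = c + (a + 1) by ring]
      exact topP_mul (by omega) hf
    · have := topP_natDegree_le c u
      omega

private theorem not_mem {f h : R} {a b : ℕ} (hf : f.totalDegree ≤ a + 1)
    (hh : h.totalDegree ≤ b + 1) (hn : (topP (a + 1) f).natDegree = a + 1)
    (hc : IsCoprime (topP (a + 1) f) (topP (b + 1) h)) {A B C' D : T} (h1 : Dec f a A B)
    (h2 : Dec h b C' D) :
    (coeff 0 (A * D - B * C') : R) ∉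
      (Ideal.span {f, h}).restrictScalars ℝ ⊔ low (a + b) := by
  intro hmem
  obtain ⟨i, hi, p, hp, hip⟩ := Submodule.mem_sup.1 hmem
  have hA : (coeff 0 A : R).totalDegree ≤ a := Fil_coeff_zero h1.memA
  have hB : (coeff 0 B : R).totalDegree ≤ a := Fil_coeff_zero h1.memB
  have hC : (coeff 0 C' : R).totalDegree ≤ b := Fil_coeff_zero h2.memA
  have hD : (coeff 0 D : R).totalDegree ≤ b := Fil_coeff_zero h2.memB
  have hω : (coeff 0 (A * D - B * C') : R) =
      coeff 0 A * coeff 0 D - coeff 0 B * coeff 0 C' := by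
    show (constantCoeff (A * D - B * C') : R) =
      constantCoeff A * constantCoeff D - constantCoeff B * constantCoeff C'
    rw [map_sub, map_mul, map_mul]
  have hneg : ∀ (d : ℕ) (x y : R), topP d (x - y) = topP d x - topP d y := by
    intro d x y
    rw [show x - y = x + (-1 : ℝ) • y by rw [neg_smul, one_smul, sub_eq_add_neg], topP_add,
      topP_smul, neg_smul, one_smul, ← sub_eq_add_neg]
  have hωt : topP (a + b) (coeff 0 (A * D - B * C') : R) =
      topP a (coeff 0 A) * topP b (coeff 0 D) - topP a (coeff 0 B) * topP b (coeff 0 C') := by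
    rw [hω, hneg, topP_mul hA hD, topP_mul hB hC]
  have hωd : (coeff 0 (A * D - B * C') : R).totalDegree ≤ a + b := by
    rw [hω]
    exact (totalDegree_sub _ _).trans (max_le ((totalDegree_mul _ _).trans (add_le_add hA hD))
      ((totalDegree_mul _ _).trans (add_le_add hB hC)))
  have hi' : i = coeff 0 (A * D - B * C') - p := by rw [← hip, add_sub_cancel_right]
  have hid : i.totalDegree ≤ a + b := by
    rw [hi']
    exact (totalDegree_sub _ _).trans (max_le hωd (low_deg hp).1)
  have hit : topP (a + b) i = topP (a + b) (coeff 0 (A * D - B * C') : R) := by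
    rw [hi', hneg, (low_deg hp).2, sub_zero]
  obtain ⟨u, v, huv, hu, hv⟩ := membership hf hh hn hc (show i ∈ Ideal.span {f, h} from hi) hid
  obtain ⟨pu, hpu, hpu'⟩ := top_mul hf hu
  obtain ⟨pv, hpv, hpv'⟩ := top_mul (a := b) (b := a) hh (by rwa [add_comm b a])
  rw [add_comm b a] at hpv
  have h3 : topP a (coeff 0 A) * topP b (coeff 0 D) - topP a (coeff 0 B) * topP b (coeff 0 C') =
      pu * topP (a + 1) f + pv * topP (b + 1) h := by
    rw [← hωt, ← hit, huv, topP_add, hpu, hpv]
  have h4 := top_zero h1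
  have h5 := top_zero h2
  have h6 : (topP b (coeff 0 D) - pu) * topP (a + 1) f =
      (topP a (coeff 0 B) + pv) * topP (b + 1) h := by
    have e1 : topP b (coeff 0 D) * topP (a + 1) f - topP a (coeff 0 B) * topP (b + 1) h =
        topP a (coeff 0 A) * topP b (coeff 0 D) - topP a (coeff 0 B) * topP b (coeff 0 C') := by
      rw [h4, h5]
      ring
    linear_combination e1 + h3
  have h7 : topP (a + 1) f ∣ topP a (coeff 0 B) + pv := by
    refine hc.dvd_of_dvd_mul_right ?_
    rw [← h6]
    exact Dvd.intro_left _ rfl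
  have h8 : topP a (coeff 0 B) + pv = 0 := by
    by_contra hne
    have := Polynomial.natDegree_le_of_dvd h7 hne
    have hpvd : pv.natDegree ≤ a := by
      rcases hpv' with rfl | h
      · simp
      · omega
    have := Polynomial.natDegree_add_le (topP a (coeff 0 B)) pv
    have := topP_natDegree_le a (coeff 0 B)
    omega
  have h9 : topP a (coeff 0 B) = -pv := eq_neg_of_add_eq_zero_left h8
  have h10 : (Polynomial.X * topP a (coeff 0 B)).natDegree ≤ a := by
    rw [h9]
    rcases hpv' with rfl | h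
    · simp
    · refine (Polynomial.natDegree_mul_le).trans ?_
      rw [Polynomial.natDegree_X, Polynomial.natDegree_neg]
      omega
  have h11 := Polynomial.natDegree_add_le (topP a (coeff 0 A)) (Polynomial.X * topP a (coeff 0 B))
  rw [← h4, hn] at h11
  have h12 := topP_natDegree_le a (coeff 0 A)
  omega

theorem residue_low {f h : R} {a b : ℕ} (hf : f.totalDegree ≤ a + 1) (hh : h.totalDegree ≤ b + 1)
    (hn : (topP (a + 1) f).natDegree = a + 1)
    (hc : IsCoprime (topP (a + 1) f) (topP (b + 1) h)) :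
    ∃ m : R →ₗ[ℝ] ℝ, Res f h m ∧ ∀ p : R, p.totalDegree + 1 ≤ a + b → m p = 0 := by
  obtain ⟨A, B, h1⟩ := exists_dec hf
  obtain ⟨C', D, h2⟩ := exists_dec hh
  obtain ⟨m, hm1, hm2⟩ := Submodule.exists_dual_map_eq_bot_of_notMem
    (not_mem hf hh hn hc h1 h2) inferInstance
  have hm2' : ∀ x ∈ (Ideal.span {f, h}).restrictScalars ℝ ⊔ low (a + b), m x = 0 := by
    intro x hx
    have : m x ∈ Submodule.map m ((Ideal.span {f, h}).restrictScalars ℝ ⊔ low (a + b)) :=
      Submodule.mem_map_of_mem hx
    rw [hm2] at this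
    exact (Submodule.mem_bot ℝ).1 this
  set ω : R := coeff 0 (A * D - B * C') with hω
  set m' : R →ₗ[ℝ] ℝ := (m ω)⁻¹ • m with hm'
  have hkill : ∀ p ∈ Ideal.span {f, h}, m' p = 0 := by
    intro p hp
    rw [hm', LinearMap.smul_apply, hm2' p (Submodule.mem_sup_left hp), smul_zero]
  have hlow : ∀ p : R, p.totalDegree + 1 ≤ a + b → m' p = 0 := by
    intro p hp
    have h3 : p ∈ low (a + b) := Submodule.subset_span hp
    rw [hm', LinearMap.smul_apply, hm2' p (Submodule.mem_sup_right h3), smul_zero]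
  refine ⟨m', ⟨hkill, ?_⟩, hlow⟩
  intro A' B' C'' D' h3 h4
  have h5 : app m' (A * D - B * C') = 1 := by
    ext s
    rw [coeff_app]
    by_cases hs : s = 0
    · rw [hs, coeff_zero_one, hm', LinearMap.smul_apply, smul_eq_mul, ← hω,
        inv_mul_cancel₀ hm1]
    · have h6 : (coeff s (A * D - B * C') : R) ∈ low (a + b) := coeff_low
        (sub_mem (Fil_mul h1.memA h2.memB) (Fil_mul h1.memB h2.memA)) hs
      rw [hm', LinearMap.smul_apply, hm2' _ (Submodule.mem_sup_right h6), smul_zero]
      rw [coeff_one, if_neg (Ne.symm hs)]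
  have h6 := app_J hkill (det_indep h3 h4 h1.eq h2.eq)
  rw [map_sub, h5] at h6
  exact h6

theorem residue {f h : R} {a b : ℕ} (hf : f.totalDegree ≤ a + 1) (hh : h.totalDegree ≤ b + 1)
    (hn : (topP (a + 1) f).natDegree = a + 1)
    (hc : IsCoprime (topP (a + 1) f) (topP (b + 1) h)) :
    ∃ m : R →ₗ[ℝ] ℝ, Res f h m := by
  obtain ⟨m, hm, -⟩ := residue_low hf hh hn hc
  exact ⟨m, hm⟩

end Pool.Agent.LogCentres
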