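import Mathlib

/-!
# Traces of squares
-/

namespace Pool.Agent.LogCentres

open MvPolynomial

open TensorProduct in
private theorem ts_exists_char {A : Type} [CommRing A] [Algebra ℝ A] [Module.Finite ℝ A] (u : A)
    (z : ℂ) (hz : ¬ IsUnit ((1 : ℂ) ⊗ₜ[ℝ] u - z ⊗ₜ[ℝ] (1 : A))) : ∃ χ : A →ₐ[ℝ] ℂ, χ u = z := by
  obtain ⟨M, hM, hmem⟩ := exists_max_ideal_of_mem_nonunits hz
  let _ : Field ((ℂ ⊗[ℝ] A) ⧸ M) := Ideal.Quotient.field M
  have _ : Module.Finite ℂ ((ℂ ⊗[ℝ] A) ⧸ M) :=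
    Module.Finite.of_surjective (Ideal.Quotient.mkₐ ℂ M).toLinearMap
      (Ideal.Quotient.mkₐ_surjective ℂ M)
  have _ : Algebra.IsAlgebraic ℂ ((ℂ ⊗[ℝ] A) ⧸ M) := Algebra.IsAlgebraic.of_finite _ _
  let φ : ((ℂ ⊗[ℝ] A) ⧸ M) →ₐ[ℂ] ℂ := IsAlgClosed.lift
  refine ⟨(φ.restrictScalars ℝ).comp
    ((Ideal.Quotient.mkₐ ℝ M).comp Algebra.TensorProduct.includeRight), ?_⟩
  show φ (Ideal.Quotient.mk M ((1 : ℂ) ⊗ₜ[ℝ] u)) = z
  have h1 : Ideal.Quotient.mk M ((1 : ℂ) ⊗ₜ[ℝ] u) = Ideal.Quotient.mk M (z ⊗ₜ[ℝ] (1 : A)) :=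
    Ideal.Quotient.eq.2 hmem
  have h2 : Ideal.Quotient.mk M (z ⊗ₜ[ℝ] (1 : A)) = algebraMap ℂ ((ℂ ⊗[ℝ] A) ⧸ M) z := rfl
  rw [h1, h2, φ.commutes]
  rfl

private theorem ts_key {B : Type} [AddCommGroup B] [Module ℂ B] [FiniteDimensional ℂ B]
    (f : Module.End ℂ B) (hf : ∀ μ : ℂ, f.HasEigenvalue μ → μ.im = 0) :
    ∃ r : ℝ, 0 ≤ r ∧ LinearMap.trace ℂ B (f ∘ₗ f) = r := by
  classical
  have htop : ⨆ μ, f.maxGenEigenspace μ = ⊤ := Module.End.iSup_maxGenEigenspace_eq_top f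
  have hff : ∀ μ, Set.MapsTo (f ∘ₗ f) ↑(f.maxGenEigenspace μ) ↑(f.maxGenEigenspace μ) :=
    fun μ ↦ (f.mapsTo_maxGenEigenspace_of_comm rfl μ).comp (f.mapsTo_maxGenEigenspace_of_comm rfl μ)
  have hds := DirectSum.isInternal_submodule_of_iSupIndep_of_iSup_eq_top
    f.independent_maxGenEigenspace htop
  have h_fin : {μ | f.maxGenEigenspace μ ≠ ⊥}.Finite :=
    WellFoundedGT.finite_ne_bot_of_iSupIndep f.independent_maxGenEigenspace
  have hone : ∀ μ, LinearMap.trace ℂ _ ((f ∘ₗ f).restrict (hff μ)) =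
      μ * (μ * (Module.finrank ℂ (f.maxGenEigenspace μ) : ℂ)) := by
    intro μ
    have hf' := f.mapsTo_maxGenEigenspace_of_comm (Commute.refl _) μ
    have hc : Commute (f.restrict hf') (f.restrict hf') := Commute.refl _
    have hc1 : Commute (LinearMap.id : Module.End ℂ (f.maxGenEigenspace μ)) (f.restrict hf') :=
      Commute.one_left _
    have hn := f.isNilpotent_restrict_maxGenEigenspace_sub_algebraMap μ
    have e1 : (f ∘ₗ f).restrict (hff μ) = (f.restrict hf') ∘ₗ (f.restrict hf') := rfl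
    have e2 := LinearMap.trace_comp_eq_mul_of_commute_of_isNilpotent μ hc hn
    have e3 := LinearMap.trace_comp_eq_mul_of_commute_of_isNilpotent μ hc1 hn
    rw [e1, e2]
    rw [LinearMap.id_comp, LinearMap.trace_id] at e3
    rw [e3]
  rw [LinearMap.trace_eq_sum_trace_restrict' hds h_fin hff]
  refine ⟨∑ μ ∈ h_fin.toFinset, (μ.re * (μ.re * (Module.finrank ℂ (f.maxGenEigenspace μ) : ℝ))),
    Finset.sum_nonneg fun μ _ => ?_, ?_⟩
  · have : μ.re * (μ.re * (Module.finrank ℂ (f.maxGenEigenspace μ) : ℝ)) =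
        μ.re ^ 2 * (Module.finrank ℂ (f.maxGenEigenspace μ) : ℝ) := by ring
    rw [this]
    positivity
  · rw [Complex.ofReal_sum]
    refine Finset.sum_congr rfl fun μ hμ => ?_
    rw [hone μ]
    have h1 : f.maxGenEigenspace μ ≠ ⊥ := by simpa using hμ
    have h2 : f.HasEigenvalue μ :=
      Module.End.HasUnifEigenvalue.lt (m := 1) (k := ⊤) zero_lt_one h1
    have h5 : (μ.re : ℂ) = μ := Complex.ext (by simp) (by simp [hf μ h2])
    push_cast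
    rw [h5]

open TensorProduct in
theorem trace_sq_nonneg {A : Type} [CommRing A] [Algebra ℝ A] [Module.Finite ℝ A] (u : A)
    (hu : ∀ χ : A →ₐ[ℝ] ℂ, (χ u).im = 0) : 0 ≤ Algebra.trace ℝ A (u * u) := by
  classical
  set f : A →ₗ[ℝ] A := Algebra.lmul ℝ A u with hfdef
  have hev : ∀ μ : ℂ, Module.End.HasEigenvalue (f.baseChange ℂ) μ → μ.im = 0 := by
    intro μ hμ
    obtain ⟨v, hv⟩ := hμ.exists_hasEigenvector
    have hmul : ∀ w : ℂ ⊗[ℝ] A, f.baseChange ℂ w = ((1 : ℂ) ⊗ₜ[ℝ] u) * w := by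
      intro w
      induction w using TensorProduct.induction_on with
      | zero => simp
      | tmul a b => simp [hfdef]
      | add a b ha hb => rw [map_add, ha, hb, mul_add]
    have h1 : f.baseChange ℂ v = μ • v := hv.apply_eq_smul
    have h2 : ((1 : ℂ) ⊗ₜ[ℝ] u - μ ⊗ₜ[ℝ] (1 : A)) * v = 0 := by
      have h3 : (μ ⊗ₜ[ℝ] (1 : A)) * v = μ • v := by
        rw [Algebra.smul_def]
        rfl
      rw [sub_mul, ← hmul, h1, h3, sub_self]
    obtain ⟨χ, hχ⟩ := ts_exists_char u μ (fun h => hv.2 ((h.mul_right_eq_zero).1 h2))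
    rw [← hχ]
    exact hu χ
  obtain ⟨r, hr, h⟩ := ts_key (f.baseChange ℂ) hev
  have h1 : (f.baseChange ℂ) ∘ₗ (f.baseChange ℂ) = (f ∘ₗ f).baseChange ℂ := by
    rw [LinearMap.baseChange_comp]
  rw [h1, LinearMap.trace_baseChange] at h
  have h2 : Algebra.trace ℝ A (u * u) = LinearMap.trace ℝ A (f ∘ₗ f) := by
    rw [Algebra.trace_apply, map_mul]
    rfl
  rw [h2]
  have h3 : LinearMap.trace ℝ A (f ∘ₗ f) = r := by
    exact Complex.ofReal_injective h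
  rw [h3]
  exact hr

end Pool.Agent.LogCentres
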