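import Pool.Agent.LogCentres.TraceK
import Pool.Agent.LogCentres.TraceSq

/-!
# Positivity at the intersection points
-/

namespace Pool.Agent.LogCentres

open MvPolynomial

private theorem w_expand {ι κ : Type} [Fintype ι] [DecidableEq ι] [Fintype κ] [DecidableEq κ]
    (F : ι → R) (α : ι → ℝ) (G : κ → R) (β : κ → ℝ) :
    logD G β 1 * logD F α 0 - logD F α 1 * logD G β 0 =
      ∑ i, ∑ j, (α i * β j) • (((∏ k ∈ Finset.univ.erase i, F k) *
        (∏ k ∈ Finset.univ.erase j, G k)) * jacP (F i) (G j)) := by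
  have h1 : logD G β 1 * logD F α 0 = ∑ i, ∑ j, (α i * β j) •
      (((∏ k ∈ Finset.univ.erase i, F k) * (∏ k ∈ Finset.univ.erase j, G k)) *
        (pderiv 0 (F i) * pderiv 1 (G j))) := by
    rw [logD, logD, mul_comm, Finset.sum_mul_sum]
    refine Finset.sum_congr rfl fun i _ => Finset.sum_congr rfl fun j _ => ?_
    rw [smul_mul_smul_comm]
    congr 1
    ring
  have h2 : logD F α 1 * logD G β 0 = ∑ i, ∑ j, (α i * β j) •
      (((∏ k ∈ Finset.univ.erase i, F k) * (∏ k ∈ Finset.univ.erase j, G k)) *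
        (pderiv 1 (F i) * pderiv 0 (G j))) := by
    rw [logD, logD, Finset.sum_mul_sum]
    refine Finset.sum_congr rfl fun i _ => Finset.sum_congr rfl fun j _ => ?_
    rw [smul_mul_smul_comm]
    congr 1
    ring
  rw [h1, h2, ← Finset.sum_sub_distrib]
  refine Finset.sum_congr rfl fun i _ => ?_
  rw [← Finset.sum_sub_distrib]
  refine Finset.sum_congr rfl fun j _ => ?_
  rw [← smul_sub, ← mul_sub, jacP]

theorem w_span_le {ι κ : Type} [Fintype ι] [Fintype κ]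
    (F : ι → R) (G : κ → R) (i : ι) (j : κ) :
    Ideal.span {∏ i, F i, ∏ j, G j} ≤ (Ideal.span {F i, G j} : Ideal R) := by
  rw [Ideal.span_le]
  rintro x (rfl | hx)
  · exact Ideal.mem_of_dvd _ (Finset.dvd_prod_of_mem F (Finset.mem_univ i))
      (Ideal.subset_span (Set.mem_insert _ _))
  · rw [Set.mem_singleton_iff.1 hx]
    exact Ideal.mem_of_dvd _ (Finset.dvd_prod_of_mem G (Finset.mem_univ j))
      (Ideal.subset_span (Set.mem_insert_of_mem _ rfl))

theorem w_fin_quot {ι κ : Type} [Fintype ι] [Fintype κ]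
    (F : ι → R) (G : κ → R) [Module.Finite ℝ (R ⧸ Ideal.span {∏ i, F i, ∏ j, G j})]
    (i : ι) (j : κ) : Module.Finite ℝ (R ⧸ Ideal.span {F i, G j}) :=
  Module.Finite.of_surjective (Ideal.Quotient.factorₐ ℝ (w_span_le F G i j)).toLinearMap
    (Ideal.Quotient.factor_surjective (w_span_le F G i j))

theorem w_trace {ι κ : Type} [Fintype ι] [DecidableEq ι] [Fintype κ] [DecidableEq κ]
    (F : ι → R) (α : ι → ℝ) (G : κ → R) (β : κ → ℝ)
    {m : R →ₗ[ℝ] ℝ} (hm : Res (∏ i, F i) (∏ j, G j) m)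
    [Module.Finite ℝ (R ⧸ Ideal.span {∏ i, F i, ∏ j, G j})] (u : R) :
    m ((logD G β 1 * logD F α 0 - logD F α 1 * logD G β 0) * u) =
      ∑ i, ∑ j, (α i * β j) * Algebra.trace ℝ (R ⧸ Ideal.span {F i, G j})
        (Ideal.Quotient.mk _ u) := by
  rw [w_expand, Finset.sum_mul, map_sum]
  refine Finset.sum_congr rfl fun i _ => ?_
  rw [Finset.sum_mul, map_sum]
  refine Finset.sum_congr rfl fun j _ => ?_
  rw [smul_mul_assoc, map_smul, smul_eq_mul]
  congr 1
  have hfin := w_fin_quot F G i j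
  have hF : F i * ∏ k ∈ Finset.univ.erase i, F k = ∏ i, F i :=
    Finset.mul_prod_erase _ _ (Finset.mem_univ i)
  have hG : G j * ∏ k ∈ Finset.univ.erase j, G k = ∏ j, G j :=
    Finset.mul_prod_erase _ _ (Finset.mem_univ j)
  rw [← hF, ← hG] at hm
  rw [← res_trace (res_factor hm) u]
  change m _ = m (_ * _)
  congr 1
  ring

theorem W_nonneg {ι κ : Type} [Fintype ι] [DecidableEq ι] [Fintype κ] [DecidableEq κ]
    (F : ι → R) (α : ι → ℝ) (G : κ → R) (β : κ → ℝ) (hα : ∀ i, 0 < α i) (hβ : ∀ j, 0 < β j)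
    {m : R →ₗ[ℝ] ℝ} (hm : Res (∏ i, F i) (∏ j, G j) m)
    [Module.Finite ℝ (R ⧸ Ideal.span {∏ i, F i, ∏ j, G j})] (u : R)
    (hu : ∀ χ : (R ⧸ Ideal.span {∏ i, F i, ∏ j, G j}) →ₐ[ℝ] ℂ,
      (χ (Ideal.Quotient.mk _ u)).im = 0) :
    0 ≤ m ((logD G β 1 * logD F α 0 - logD F α 1 * logD G β 0) * (u * u)) := by
  rw [w_trace F α G β hm]
  refine Finset.sum_nonneg fun i _ => Finset.sum_nonneg fun j _ => ?_
  have hfin := w_fin_quot F G i j
  refine mul_nonneg (mul_pos (hα i) (hβ j)).le ?_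
  rw [map_mul]
  refine trace_sq_nonneg _ fun χ => ?_
  exact hu (χ.comp (Ideal.Quotient.factorₐ ℝ (w_span_le F G i j)))

theorem W_one_pos {ι κ : Type} [Fintype ι] [DecidableEq ι] [Fintype κ] [DecidableEq κ]
    (F : ι → R) (α : ι → ℝ) (G : κ → R) (β : κ → ℝ) (hα : ∀ i, 0 < α i) (hβ : ∀ j, 0 < β j)
    {m : R →ₗ[ℝ] ℝ} (hm : Res (∏ i, F i) (∏ j, G j) m)
    [Module.Finite ℝ (R ⧸ Ideal.span {∏ i, F i, ∏ j, G j})]
    (hne : Ideal.span {∏ i, F i, ∏ j, G j} ≠ (⊤ : Ideal R)) :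
    0 < m (logD G β 1 * logD F α 0 - logD F α 1 * logD G β 0) := by
  have h := w_trace F α G β hm 1
  rw [mul_one] at h
  rw [h]
  have htr : ∀ i j, Algebra.trace ℝ (R ⧸ Ideal.span {F i, G j}) (Ideal.Quotient.mk _ 1) =
      (Module.finrank ℝ (R ⧸ Ideal.span {F i, G j}) : ℝ) := by
    intro i j
    have hfin := w_fin_quot F G i j
    have h1 := Algebra.trace_algebraMap (R := ℝ) (S := R ⧸ Ideal.span {F i, G j}) 1
    rw [map_one] at h1
    rw [map_one, h1, nsmul_eq_mul, mul_one]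
  simp only [htr]
  obtain ⟨M, hM, hle⟩ := Ideal.exists_le_maximal _ hne
  have h1 : (∏ i, F i) ∈ M := hle (Ideal.subset_span (Set.mem_insert _ _))
  have h2 : (∏ j, G j) ∈ M := hle (Ideal.subset_span (Set.mem_insert_of_mem _ rfl))
  obtain ⟨i, -, hi⟩ := (hM.isPrime.prod_mem_iff).1 h1
  obtain ⟨j, -, hj⟩ := (hM.isPrime.prod_mem_iff).1 h2
  have hfin := w_fin_quot F G i j
  have hnt : Nontrivial (R ⧸ Ideal.span {F i, G j}) := by
    refine Ideal.Quotient.nontrivial_iff.2 fun htop => hM.ne_top ?_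
    rw [eq_top_iff, ← htop, Ideal.span_le]
    rintro x (rfl | hx)
    · exact hi
    · rw [Set.mem_singleton_iff.1 hx]
      exact hj
  have hpos : 0 < Module.finrank ℝ (R ⧸ Ideal.span {F i, G j}) := Module.finrank_pos
  have hterm : 0 < (α i * β j) * (Module.finrank ℝ (R ⧸ Ideal.span {F i, G j}) : ℝ) :=
    mul_pos (mul_pos (hα i) (hβ j)) (Nat.cast_pos.2 hpos)
  have hnn : ∀ i j, 0 ≤ (α i * β j) * (Module.finrank ℝ (R ⧸ Ideal.span {F i, G j}) : ℝ) :=
    fun i j => mul_nonneg (mul_pos (hα i) (hβ j)).le (Nat.cast_nonneg _)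
  refine lt_of_lt_of_le hterm ?_
  refine (Finset.single_le_sum (f := fun j => (α i * β j) *
    (Module.finrank ℝ (R ⧸ Ideal.span {F i, G j}) : ℝ)) (fun j _ => hnn i j)
    (Finset.mem_univ j)).trans ?_
  exact Finset.single_le_sum (f := fun i => ∑ j, (α i * β j) *
    (Module.finrank ℝ (R ⧸ Ideal.span {F i, G j}) : ℝ))
    (fun i _ => Finset.sum_nonneg fun j _ => hnn i j) (Finset.mem_univ i)

end Pool.Agent.LogCentres
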