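import Pool.Agent.LogCentres.Count
import Pool.Agent.LogCentres.WPos
import Pool.Agent.LogCentres.Resid
import Pool.Agent.LogCentres.FinRk
import Pool.Agent.LogCentres.EulerS

/-!
# The balanced case
-/

namespace Pool.Agent.LogCentres

open MvPolynomial

theorem totalDegree_prod_le {ι : Type} [Fintype ι] (F : ι → R) {dd : ι → ℕ} {N : ℕ}
    (hF : ∀ i, (F i).totalDegree ≤ dd i) (hN : ∑ i, dd i = N) :
    (∏ i, F i).totalDegree ≤ N := by
  refine (totalDegree_finsetProd _ _).trans ?_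
  rw [← hN]
  exact Finset.sum_le_sum fun i _ => hF i

theorem balanced {ι κ : Type} [Fintype ι] [DecidableEq ι] [Fintype κ] [DecidableEq κ]
    {F : ι → R} {α : ι → ℝ} {G : κ → R} {β : κ → ℝ} {dd : ι → ℕ} {ee : κ → ℕ} {a b : ℕ}
    (hα : ∀ i, 0 < α i) (hβ : ∀ j, 0 < β j)
    (hF : ∀ i, (F i).totalDegree ≤ dd i) (hG : ∀ j, (G j).totalDegree ≤ ee j)
    (ha : ∑ i, dd i = a + 1) (hb : ∑ j, ee j = b + 1)
    (hbal : ∑ i, α i * dd i = ∑ j, β j * ee j)
    (hn : (topP (a + 1) (∏ i, F i)).natDegree = a + 1)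
    (hc : IsCoprime (topP (a + 1) (∏ i, F i)) (topP (b + 1) (∏ j, G j)))
    (S : Finset (Fin 2 → ℝ))
    (hS : ∀ s ∈ S, eval s (XP F α G β) = 0 ∧ eval s (XQ F α G β) = 0 ∧
      0 < eval s (jacP (XP F α G β) (XQ F α G β)) ∧
      (eval s (∏ i, F i) ≠ 0 ∨ eval s (∏ j, G j) ≠ 0)) :
    2 * S.card + (a + 1) * (b + 1) ≤ (a + b) * (a + b + 1) + 2 := by
  have hf := totalDegree_prod_le F hF ha
  have hh := totalDegree_prod_le G hG hb
  obtain ⟨hfin, hrk⟩ := finrank_ge hf hh hn hc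
  obtain ⟨m, hm⟩ := residue hf hh hn hc
  have hN : ∑ i, dd i + ∑ j, ee j = (a + b + 1) + 1 := by omega
  obtain ⟨hXP, hXQ⟩ := deg_XP (α := α) (β := β) hF hG hN
  obtain ⟨G₀, P₁, Q₁, hG₀, hP₁, hQ₁, hP, hQ⟩ :=
    euler_split hXP hXQ (deg_euler hF hG hN hbal)
  have hne : Ideal.span {∏ i, F i, ∏ j, G j} ≠ (⊤ : Ideal R) := by
    intro h
    have : Module.finrank ℝ (R ⧸ Ideal.span {∏ i, F i, ∏ j, G j}) = 0 := by
      have := Ideal.Quotient.subsingleton_iff.2 h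
      exact Module.finrank_zero_of_subsingleton
    rw [this] at hrk
    simp at hrk
  have hW : (-logD G β 1) * (-logD F α 0) - logD F α 1 * logD G β 0 =
      logD G β 1 * logD F α 0 - logD F α 1 * logD G β 0 := by ring
  have key := count (d := a + b) S (U₁ := -logD G β 1) (V₁ := logD F α 1)
    (U₂ := logD G β 0) (V₂ := -logD F α 0) (f := ∏ i, F i) (h := ∏ j, G j)
    hG₀ hP₁ hQ₁ hP hQ (by rw [XP]; ring) (by rw [XQ]; ring) hS hm
    (fun u hu => by rw [hW]; exact W_nonneg F α G β hα hβ hm u hu)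
    (by rw [hW]; exact W_one_pos F α G β hα hβ hm hne)
    (fun u hu => res_const hm hf hh u hu)
  omega

end Pool.Agent.LogCentres
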