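import Pool.Agent.LogCentres.Defs3

/-!
# Zeros in the new chart
-/

namespace Pool.Agent.LogCentres

open MvPolynomial Pool.Agent.PlanarCentres

private theorem chart_core {P Q : R} {N : ℕ} (hP : P.totalDegree ≤ N) (hQ : Q.totalDegree ≤ N)
    {s : Fin 2 → ℝ} (hs : s 0 ≠ 0) (h0 : eval s P = 0) (h1 : eval s Q = 0)
    (hj : 0 < eval s (jacP P Q)) :
    eval ![(s 0)⁻¹, (s 0)⁻¹ * s 1] (homk N P) = 0 ∧
    eval ![(s 0)⁻¹, (s 0)⁻¹ * s 1] (homk N Q) = 0 ∧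
    0 < -((s 0)⁻¹ * eval ![(s 0)⁻¹, (s 0)⁻¹ * s 1] (jacP (homk N P) (homk N Q))) := by
  obtain ⟨x, hx⟩ : ∃ x, s 0 = x := ⟨_, rfl⟩
  obtain ⟨y, hy⟩ : ∃ y, s 1 = y := ⟨_, rfl⟩
  have hse : s = ![x, y] := by
    ext i
    fin_cases i
    · exact hx
    · exact hy
  rw [hx] at hs
  rw [hx, hy]
  rw [hse] at h0 h1 hj
  have hN : N ≠ 0 := by
    rintro rfl
    have e1 := totalDegree_eq_zero_iff_eq_C.1 (Nat.le_zero.1 hP)
    rw [e1] at hj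
    simp [jacP] at hj
  obtain ⟨k, rfl⟩ := Nat.exists_eq_succ_of_ne_zero hN
  have eP : eval ![x⁻¹, x⁻¹ * y] (homk (k + 1) P) = 0 := by
    rw [ev_homk hs y P hP, h0, mul_zero]
  have eQ : eval ![x⁻¹, x⁻¹ * y] (homk (k + 1) Q) = 0 := by
    rw [ev_homk hs y Q hQ, h1, mul_zero]
  refine ⟨eP, eQ, ?_⟩
  have a1 := ev_pderiv1 (k := k) hs y P hP
  have a0 := ev_pderiv0 (k := k) hs y P hP h0
  have b1 := ev_pderiv1 (k := k) hs y Q hQ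
  have b0 := ev_pderiv0 (k := k) hs y Q hQ h1
  have key : -(x⁻¹ * eval ![x⁻¹, x⁻¹ * y] (jacP (homk (k + 1) P) (homk (k + 1) Q))) =
      x⁻¹ ^ (2 * k) * eval ![x, y] (jacP P Q) := by
    have hxx : x⁻¹ * x = 1 := inv_mul_cancel₀ hs
    simp only [jacP, map_sub, map_mul]
    rw [a1, b1]
    have e1 : -(x⁻¹ * (eval ![x⁻¹, x⁻¹ * y] (pderiv 0 (homk (k + 1) P)) *
        (x⁻¹ ^ k * eval ![x, y] (pderiv 1 Q)) - x⁻¹ ^ k * eval ![x, y] (pderiv 1 P) *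
        eval ![x⁻¹, x⁻¹ * y] (pderiv 0 (homk (k + 1) Q)))) =
        -(x⁻¹ * eval ![x⁻¹, x⁻¹ * y] (pderiv 0 (homk (k + 1) P))) *
          (x⁻¹ ^ k * eval ![x, y] (pderiv 1 Q)) + x⁻¹ ^ k * eval ![x, y] (pderiv 1 P) *
          (x⁻¹ * eval ![x⁻¹, x⁻¹ * y] (pderiv 0 (homk (k + 1) Q))) := by ring
    rw [e1, a0, b0]
    have e2 : x⁻¹ ^ (2 * k) = x⁻¹ ^ k * x⁻¹ ^ k := by rw [two_mul, pow_add]
    rw [e2, pow_succ]
    linear_combination (x⁻¹ ^ k * x⁻¹ ^ k * (eval ![x, y] (pderiv 0 P) *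
      eval ![x, y] (pderiv 1 Q) - eval ![x, y] (pderiv 1 P) * eval ![x, y] (pderiv 0 Q))) * hxx
  rw [key]
  refine mul_pos ?_ hj
  rw [pow_mul]
  exact pow_pos (by positivity) _

theorem chart_pt {P Q : R} {N : ℕ} (hP : P.totalDegree ≤ N) (hQ : Q.totalDegree ≤ N)
    {s : Fin 2 → ℝ} (hs : s 0 ≠ 0) (h0 : eval s P = 0) (h1 : eval s Q = 0)
    (hj : 0 < eval s (jacP P Q)) :
    eval ![(s 0)⁻¹, (s 0)⁻¹ * s 1] (homk N P) = 0 ∧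
    eval ![(s 0)⁻¹, (s 0)⁻¹ * s 1] (homk N Q) = 0 ∧
    0 < eval ![(s 0)⁻¹, (s 0)⁻¹ * s 1]
      (jacP (X 0 * homk N P) (X 1 * homk N P - homk N Q)) := by
  obtain ⟨h2, h3, h4⟩ := chart_core hP hQ hs h0 h1 hj
  refine ⟨h2, h3, ?_⟩
  convert h4 using 1
  simp only [jacP, Derivation.leibniz, map_sub, pderiv_X_self,
    pderiv_X_of_ne (show (1 : Fin 2) ≠ 0 by decide),
    pderiv_X_of_ne (show (0 : Fin 2) ≠ 1 by decide), smul_eq_mul, mul_zero, mul_one, add_zero,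
    map_add, map_mul, eval_X, Matrix.cons_val_zero, Matrix.cons_val_one, h2]
  ring

theorem chart_pt0 {P Q Q' : R} {N : ℕ} (hP : P.totalDegree ≤ N) (hQ : Q.totalDegree ≤ N)
    (hQ' : X 0 * Q' = X 1 * homk N P - homk N Q)
    {s : Fin 2 → ℝ} (hs : s 0 ≠ 0) (h0 : eval s P = 0) (h1 : eval s Q = 0)
    (hj : 0 < eval s (jacP P Q)) :
    eval ![(s 0)⁻¹, (s 0)⁻¹ * s 1] (homk N P) = 0 ∧
    eval ![(s 0)⁻¹, (s 0)⁻¹ * s 1] Q' = 0 ∧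
    0 < eval ![(s 0)⁻¹, (s 0)⁻¹ * s 1] (jacP (homk N P) Q') := by
  obtain ⟨h2, h3, h4⟩ := chart_core hP hQ hs h0 h1 hj
  have hi : (s 0)⁻¹ ≠ 0 := inv_ne_zero hs
  have h5 : eval ![(s 0)⁻¹, (s 0)⁻¹ * s 1] Q' = 0 := by
    have h := congrArg (eval ![(s 0)⁻¹, (s 0)⁻¹ * s 1]) hQ'
    simp only [map_mul, map_sub, eval_X, Matrix.cons_val_zero, Matrix.cons_val_one, h2, h3,
      mul_zero, sub_zero] at h
    rcases mul_eq_zero.1 h with h6 | h6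
    · exact absurd h6 hi
    · exact h6
  refine ⟨h2, h5, ?_⟩
  have d0 := congrArg (fun p => eval ![(s 0)⁻¹, (s 0)⁻¹ * s 1] (pderiv 0 p)) hQ'
  have d1 := congrArg (fun p => eval ![(s 0)⁻¹, (s 0)⁻¹ * s 1] (pderiv 1 p)) hQ'
  simp only [Derivation.leibniz, map_sub, pderiv_X_self,
    pderiv_X_of_ne (show (1 : Fin 2) ≠ 0 by decide),
    pderiv_X_of_ne (show (0 : Fin 2) ≠ 1 by decide), smul_eq_mul, mul_zero, mul_one, add_zero,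
    map_add, map_mul, eval_X, Matrix.cons_val_zero, Matrix.cons_val_one, h2, h5] at d0 d1
  have h6 : 0 < (s 0)⁻¹ * (s 0)⁻¹ *
      eval ![(s 0)⁻¹, (s 0)⁻¹ * s 1] (jacP (homk N P) Q') := by
    convert h4 using 1
    simp only [jacP, map_sub, map_mul]
    linear_combination ((s 0)⁻¹ * eval ![(s 0)⁻¹, (s 0)⁻¹ * s 1] (pderiv 0 (homk N P))) * d1 -
      ((s 0)⁻¹ * eval ![(s 0)⁻¹, (s 0)⁻¹ * s 1] (pderiv 1 (homk N P))) * d0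
  exact (pos_iff_pos_of_mul_pos h6).1 (mul_self_pos.2 hi)

end Pool.Agent.LogCentres
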