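import Pool.Agent.LogCentres.ChartEq
import Pool.Agent.LogCentres.ChartPt
import Pool.Agent.LogCentres.Balanced

/-!
# The balanced theorem in the new chart
-/

namespace Pool.Agent.LogCentres

open MvPolynomial Pool.Agent.PlanarCentres

/-- the change of coordinates on points -/
noncomputable def sw (s : Fin 2 → ℝ) : Fin 2 → ℝ := ![(s 0)⁻¹, (s 0)⁻¹ * s 1]

theorem sw_inj {s t : Fin 2 → ℝ} (ht : t 0 ≠ 0) (h : sw s = sw t) : s = t := by
  have h0 : (s 0)⁻¹ = (t 0)⁻¹ := congrFun h 0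
  have h1 : (s 0)⁻¹ * s 1 = (t 0)⁻¹ * t 1 := congrFun h 1
  rw [h0] at h1
  ext i
  fin_cases i
  · exact inv_injective h0
  · exact mul_left_cancel₀ (inv_ne_zero ht) h1

theorem ev_sw {k : ℕ} {s : Fin 2 → ℝ} (hs : s 0 ≠ 0) {f : R} (hf : f.totalDegree ≤ k) :
    eval (sw s) (homk k f) = (s 0)⁻¹ ^ k * eval s f := by
  have h : s = ![s 0, s 1] := by
    ext i
    fin_cases i <;> rfl
  have := ev_homk hs (s 1) f hf
  rw [← h] at this
  exact this

theorem card_sw {S : Finset (Fin 2 → ℝ)} (hS : ∀ s ∈ S, s 0 ≠ 0) :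
    (S.image sw).card = S.card :=
  Finset.card_image_of_injOn fun _ _ _ ht h => sw_inj (hS _ ht) h

theorem topP_prod {ι : Type} [Fintype ι] {F : ι → R} {dd : ι → ℕ} {a : ℕ}
    (hF : ∀ i, (F i).totalDegree ≤ dd i) (ha : ∑ i, dd i = a) :
    topP a (∏ i, homk (dd i) (F i)) = ln (∏ i, F i) := by
  rw [← homk_prod Finset.univ F dd fun i _ => hF i, ha,
    topP_homk (totalDegree_prod_le F hF ha)]

theorem swap_zero {ι κ : Type} [Fintype ι] [DecidableEq ι] [Fintype κ] [DecidableEq κ]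
    {F : ι → R} {α : ι → ℝ} {G : κ → R} {β : κ → ℝ} {dd : ι → ℕ} {ee : κ → ℕ} {a b : ℕ}
    (hα : ∀ i, 0 < α i) (hβ : ∀ j, 0 < β j)
    (hF : ∀ i, (F i).totalDegree ≤ dd i) (hG : ∀ j, (G j).totalDegree ≤ ee j)
    (ha : ∑ i, dd i = a + 1) (hb : ∑ j, ee j = b + 1)
    (hD : ∑ j, β j * ee j = ∑ i, α i * dd i)
    (hn : (ln (∏ i, F i)).natDegree = a + 1) (hc : IsCoprime (ln (∏ i, F i)) (ln (∏ j, G j)))
    (S : Finset (Fin 2 → ℝ))
    (hS : ∀ s ∈ S, s 0 ≠ 0 ∧ eval s (XP F α G β) = 0 ∧ eval s (XQ F α G β) = 0 ∧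
      0 < eval s (jacP (XP F α G β) (XQ F α G β)) ∧
      (eval s (∏ i, F i) ≠ 0 ∨ eval s (∏ j, G j) ≠ 0)) :
    2 * S.card + (a + 1) * (b + 1) ≤ (a + b) * (a + b + 1) + 2 := by
  have hN : ∑ i, dd i + ∑ j, ee j = (a + b + 1) + 1 := by omega
  obtain ⟨h1, h2⟩ := chart_base (α := α) (β := β) hF hG hN
  rw [hD, sub_self, map_zero, zero_mul, add_zero] at h2
  obtain ⟨hXP, hXQ⟩ := deg_XP (α := α) (β := β) hF hG hN
  rw [← card_sw fun s hs => (hS s hs).1]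
  refine balanced (F := fun i => homk (dd i) (F i)) (G := fun j => homk (ee j) (G j)) (α := α)
    (β := β) (dd := dd) (ee := ee) hα hβ (fun i => deg_homk _ (hF i)) (fun j => deg_homk _ (hG j))
    ha hb hD.symm ?_ ?_ _ ?_
  · rw [topP_prod hF ha, hn]
  · rw [topP_prod hF ha, topP_prod hG hb]
    exact hc
  · intro s' hs'
    obtain ⟨s, hs, rfl⟩ := Finset.mem_image.1 hs'
    obtain ⟨h0, hP, hQ, hj, hne⟩ := hS s hs
    obtain ⟨e1, e2, e3⟩ := chart_pt0 hXP hXQ h2 h0 hP hQ hj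
    refine ⟨by rw [h1]; exact e1, e2, by rw [h1]; exact e3, ?_⟩
    rw [← homk_prod Finset.univ F dd fun i _ => hF i, ← homk_prod Finset.univ G ee fun j _ => hG j,
      ev_sw h0 (totalDegree_prod_le F hF rfl), ev_sw h0 (totalDegree_prod_le G hG rfl)]
    exact hne.imp (fun h => mul_ne_zero (pow_ne_zero _ (inv_ne_zero h0)) h)
      (fun h => mul_ne_zero (pow_ne_zero _ (inv_ne_zero h0)) h)

theorem swap_pos {ι κ : Type} [Fintype ι] [DecidableEq ι] [Fintype κ] [DecidableEq κ]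
    {F : ι → R} {α : ι → ℝ} {G : κ → R} {β : κ → ℝ} {dd : ι → ℕ} {ee : κ → ℕ} {a b : ℕ}
    (hα : ∀ i, 0 < α i) (hβ : ∀ j, 0 < β j)
    (hF : ∀ i, (F i).totalDegree ≤ dd i) (hG : ∀ j, (G j).totalDegree ≤ ee j)
    (ha : ∑ i, dd i = a + 1) (hb : ∑ j, ee j = b)
    (hD : ∑ j, β j * ee j < ∑ i, α i * dd i)
    (hn : (ln (∏ i, F i)).natDegree = a + 1) (hc : IsCoprime (ln (∏ i, F i)) (ln (∏ j, G j)))
    (S : Finset (Fin 2 → ℝ))
    (hS : ∀ s ∈ S, s 0 ≠ 0 ∧ eval s (XP F α G β) = 0 ∧ eval s (XQ F α G β) = 0 ∧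
      0 < eval s (jacP (XP F α G β) (XQ F α G β)) ∧
      (eval s (∏ i, F i) ≠ 0 ∨ eval s (∏ j, G j) ≠ 0)) :
    2 * S.card + (a + 1) * (b + 1) ≤ (a + b) * (a + b + 1) + 2 := by
  have hN : ∑ i, dd i + ∑ j, ee j = (a + b) + 1 := by omega
  obtain ⟨h1, h2⟩ := chart_base (α := α) (β := β) hF hG hN
  obtain ⟨hXP, hXQ⟩ := deg_XP (α := α) (β := β) hF hG hN
  obtain ⟨D, hDe⟩ : ∃ D, D = ∑ i, α i * dd i - ∑ j, β j * ee j := ⟨_, rfl⟩
  rw [← hDe] at h2
  have hD0 : 0 < D := by linarith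
  obtain ⟨o1, o2⟩ := opt_XP (fun i => homk (dd i) (F i)) α (fun j => homk (ee j) (G j)) β D
  rw [h1] at o1
  rw [h2] at o2
  have hsum : ∀ v : ℝ, ∀ w : κ → ℝ, ∑ o : Option κ, (o.elim v w : ℝ) = v + ∑ j, w j := by
    intro v w
    rw [Fintype.sum_option]
    rfl
  have hprod : ∏ o : Option κ, optF (fun j => homk (ee j) (G j)) o =
      X 0 * ∏ j, homk (ee j) (G j) := by
    rw [Fintype.prod_option]
    rfl
  have hdG : (∏ j, homk (ee j) (G j)).totalDegree ≤ b :=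
    totalDegree_prod_le _ (fun j => deg_homk _ (hG j)) hb
  rw [← card_sw fun s hs => (hS s hs).1]
  refine balanced (F := fun i => homk (dd i) (F i)) (G := optF fun j => homk (ee j) (G j))
    (α := α) (β := optV D β) (dd := dd) (ee := optN ee) hα ?_ (fun i => deg_homk _ (hF i))
    ?_ ha ?_ ?_ ?_ ?_ _ ?_
  · rintro (_ | j)
    · exact hD0
    · exact hβ j
  · rintro (_ | j)
    · exact (totalDegree_X (R := ℝ) (0 : Fin 2)).le
    · exact deg_homk _ (hG j)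
  · rw [Fintype.sum_option]
    change 1 + ∑ j, ee j = b + 1
    omega
  · rw [Fintype.sum_option]
    change _ = D * ((1 : ℕ) : ℝ) + ∑ j, β j * (ee j : ℝ)
    rw [hDe]
    push_cast
    ring
  · rw [topP_prod hF ha, hn]
  · rw [topP_prod hF ha, hprod, add_comm b 1,
      topP_mul (totalDegree_X (R := ℝ) (0 : Fin 2)).le hdG, topP_X0, one_mul, topP_prod hG hb]
    exact hc
  · intro s' hs'
    obtain ⟨s, hs, rfl⟩ := Finset.mem_image.1 hs'
    obtain ⟨h0, hP, hQ, hj, hne⟩ := hS s hs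
    obtain ⟨e1, e2, e3⟩ := chart_pt hXP hXQ h0 hP hQ hj
    change eval (sw s) _ = 0 at e1
    change eval (sw s) _ = 0 at e2
    refine ⟨by rw [o1, map_mul, e1, mul_zero], by rw [o2, map_sub, map_mul, e1, e2]; ring,
      by rw [o1, o2]; exact e3, ?_⟩
    rw [hprod, ← homk_prod Finset.univ F dd fun i _ => hF i,
      ← homk_prod Finset.univ G ee fun j _ => hG j, map_mul,
      ev_sw h0 (totalDegree_prod_le F hF rfl), ev_sw h0 (totalDegree_prod_le G hG rfl), eval_X]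
    exact hne.imp (fun h => mul_ne_zero (pow_ne_zero _ (inv_ne_zero h0)) h)
      (fun h => mul_ne_zero (inv_ne_zero h0) (mul_ne_zero (pow_ne_zero _ (inv_ne_zero h0)) h))

end Pool.Agent.LogCentres
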