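import Pool.Agent.LogCentres.Position
import Pool.Agent.LogCentres.Swap

/-!
# The bound for zeros
-/

namespace Pool.Agent.LogCentres

open MvPolynomial Pool.Agent.PlanarCentres

theorem X_symm {ι κ : Type} [Fintype ι] [DecidableEq ι] [Fintype κ] [DecidableEq κ]
    (F : ι → R) (α : ι → ℝ) (G : κ → R) (β : κ → ℝ) :
    XP G β F α = -XP F α G β ∧ XQ G β F α = -XQ F α G β := by
  constructor
  · rw [XP, XP]; ring
  · rw [XQ, XQ]; ring

theorem jacP_neg (P Q : R) : jacP (-P) (-Q) = jacP P Q := by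
  rw [jacP, jacP, map_neg, map_neg, map_neg, map_neg]; ring

theorem affine_pos {ι κ : Type} [Fintype ι] [DecidableEq ι] [Fintype κ] [DecidableEq κ]
    {F : ι → R} {α : ι → ℝ} {G : κ → R} {β : κ → ℝ} {n : ℕ}
    (hα : ∀ i, 0 < α i) (hβ : ∀ j, 0 < β j) (hF : ∀ i, F i ≠ 0) (hG : ∀ j, G j ≠ 0)
    (hrel : ∀ i j, IsRelPrime (F i) (G j))
    (hn : ∑ i, (F i).totalDegree + ∑ j, (G j).totalDegree ≤ n + 1)
    (hD : ∑ j, β j * ((G j).totalDegree : ℝ) < ∑ i, α i * ((F i).totalDegree : ℝ))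
    (S : Finset (Fin 2 → ℝ))
    (hS : ∀ s ∈ S, eval s (XP F α G β) = 0 ∧ eval s (XQ F α G β) = 0 ∧
      0 < eval s (jacP (XP F α G β) (XQ F α G β)) ∧
      (eval s (∏ i, F i) ≠ 0 ∨ eval s (∏ j, G j) ≠ 0)) :
    2 * S.card + (∑ i, (F i).totalDegree) * (∑ j, (G j).totalDegree + 1) ≤
      n * (n + 1) + 2 := by
  obtain ⟨F', G', S', hF', hG', hdeg, hcop, hcard, hS'⟩ := position hF hG hrel S hS
  obtain ⟨a, ha⟩ : ∃ a, ∑ i, (F i).totalDegree = a + 1 := by
    rcases Nat.eq_zero_or_pos (∑ i, (F i).totalDegree) with h | h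
    · exfalso
      have h0 : ∑ i, α i * ((F i).totalDegree : ℝ) = 0 :=
        Finset.sum_eq_zero fun i _ => by
          rw [(Finset.sum_eq_zero_iff.1 h) i (Finset.mem_univ i)]; simp
      have h1 : 0 ≤ ∑ j, β j * ((G j).totalDegree : ℝ) :=
        Finset.sum_nonneg fun j _ => mul_nonneg (hβ j).le (Nat.cast_nonneg _)
      linarith
    · exact ⟨_, (Nat.sub_add_cancel h).symm⟩
  have key := swap_pos (F := F') (G := G') (α := α) (β := β)
    (dd := fun i => (F i).totalDegree) (ee := fun j => (G j).totalDegree) hα hβ hF' hG' ha rfl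
    hD (by rw [hdeg, ha]) hcop S' hS'
  rw [hcard] at key
  obtain ⟨b, hb⟩ : ∃ b, ∑ j, (G j).totalDegree = b := ⟨_, rfl⟩
  rw [hb] at key
  rw [ha, hb] at hn
  rw [ha, hb]
  have h1 : a + b ≤ n := by omega
  have h2 : (a + b) * (a + b + 1) ≤ n * (n + 1) := Nat.mul_le_mul h1 (by omega)
  omega

theorem affine_zero {ι κ : Type} [Fintype ι] [DecidableEq ι] [Fintype κ] [DecidableEq κ]
    {F : ι → R} {α : ι → ℝ} {G : κ → R} {β : κ → ℝ} {n : ℕ}
    (hα : ∀ i, 0 < α i) (hβ : ∀ j, 0 < β j) (hF : ∀ i, F i ≠ 0) (hG : ∀ j, G j ≠ 0)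
    (hrel : ∀ i j, IsRelPrime (F i) (G j))
    (hn : ∑ i, (F i).totalDegree + ∑ j, (G j).totalDegree ≤ n + 1)
    (hD : ∑ j, β j * ((G j).totalDegree : ℝ) = ∑ i, α i * ((F i).totalDegree : ℝ))
    (S : Finset (Fin 2 → ℝ))
    (hS : ∀ s ∈ S, eval s (XP F α G β) = 0 ∧ eval s (XQ F α G β) = 0 ∧
      0 < eval s (jacP (XP F α G β) (XQ F α G β)) ∧
      (eval s (∏ i, F i) ≠ 0 ∨ eval s (∏ j, G j) ≠ 0)) :
    2 * S.card + (∑ i, (F i).totalDegree) * (∑ j, (G j).totalDegree + 1) ≤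
      n * (n + 1) + 2 := by
  obtain ⟨F', G', S', hF', hG', hdeg, hcop, hcard, hS'⟩ := position hF hG hrel S hS
  have hz : ∀ {τ : Type} [Fintype τ] (H : τ → R) (γ : τ → ℝ), (∀ i, 0 < γ i) →
      ∑ i, γ i * ((H i).totalDegree : ℝ) = 0 → ∀ i, (H i).totalDegree = 0 := by
    intro τ _ H γ hγ h i
    have := (Finset.sum_eq_zero_iff_of_nonneg (fun i _ =>
      mul_nonneg (hγ i).le (Nat.cast_nonneg _))).1 h i (Finset.mem_univ i)
    rcases mul_eq_zero.1 this with h1 | h1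
    · exact absurd h1 (hγ i).ne'
    · exact_mod_cast h1
  rcases Nat.eq_zero_or_pos (∑ i, (F i).totalDegree) with h | h
  · -- all polynomials are constant
    have h0 : ∑ i, α i * ((F i).totalDegree : ℝ) = 0 :=
      Finset.sum_eq_zero fun i _ => by
        rw [(Finset.sum_eq_zero_iff.1 h) i (Finset.mem_univ i)]; simp
    have hFc : ∀ i, (F i).totalDegree = 0 := hz F α hα h0
    have hGc : ∀ j, (G j).totalDegree = 0 := hz G β hβ (hD.trans h0)
    have hpd : ∀ (g : R) (k : Fin 2), g.totalDegree = 0 → pderiv k g = 0 := by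
      intro g k hg
      rw [totalDegree_eq_zero_iff_eq_C.1 hg, pderiv_C]
    have hlog : ∀ {τ : Type} [Fintype τ] [DecidableEq τ] (H : τ → R) (γ : τ → ℝ) (k : Fin 2),
        (∀ i, (H i).totalDegree = 0) → logD H γ k = 0 := by
      intro τ _ _ H γ k hH
      rw [logD]
      exact Finset.sum_eq_zero fun i _ => by rw [hpd _ _ (hH i), mul_zero, smul_zero]
    have hS0 : S = ∅ := by
      refine Finset.eq_empty_of_forall_notMem fun s hs => ?_
      have := (hS s hs).2.2.1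
      rw [XP, hlog F α 1 hFc, hlog G β 1 hGc, mul_zero, mul_zero, sub_zero, jacP, map_zero,
        map_zero, zero_mul, zero_mul, sub_zero, map_zero] at this
      exact lt_irrefl _ this
    rw [hS0, h]
    simp
  · obtain ⟨a, ha⟩ : ∃ a, ∑ i, (F i).totalDegree = a + 1 := ⟨_, (Nat.sub_add_cancel h).symm⟩
    obtain ⟨b, hb⟩ : ∃ b, ∑ j, (G j).totalDegree = b + 1 := by
      rcases Nat.eq_zero_or_pos (∑ j, (G j).totalDegree) with h' | h'
      · exfalso
        have h0 : ∑ j, β j * ((G j).totalDegree : ℝ) = 0 :=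
          Finset.sum_eq_zero fun j _ => by
            rw [(Finset.sum_eq_zero_iff.1 h') j (Finset.mem_univ j)]; simp
        have hFc := hz F α hα (hD.symm.trans h0)
        have : ∑ i, (F i).totalDegree = 0 := Finset.sum_eq_zero fun i _ => hFc i
        omega
      · exact ⟨_, (Nat.sub_add_cancel h').symm⟩
    have key := swap_zero (F := F') (G := G') (α := α) (β := β)
      (dd := fun i => (F i).totalDegree) (ee := fun j => (G j).totalDegree) hα hβ hF' hG' ha hb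
      hD (by rw [hdeg, ha]) hcop S' hS'
    rw [hcard] at key
    rw [ha, hb] at hn
    rw [ha, hb]
    have h1 : a + b + 1 ≤ n := by omega
    have h2 : (a + b + 1) * (a + b + 2) ≤ n * (n + 1) := Nat.mul_le_mul h1 (by omega)
    nlinarith

/-- the refined bound: with `A = ∑ deg Fᵢ`, `B = ∑ deg Gⱼ` and `∑ βⱼ deg Gⱼ ≤ ∑ αᵢ deg Fᵢ` -/
theorem affine_refined {ι κ : Type} [Fintype ι] [DecidableEq ι] [Fintype κ] [DecidableEq κ]
    {F : ι → R} {α : ι → ℝ} {G : κ → R} {β : κ → ℝ} {n : ℕ}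
    (hα : ∀ i, 0 < α i) (hβ : ∀ j, 0 < β j) (hF : ∀ i, F i ≠ 0) (hG : ∀ j, G j ≠ 0)
    (hrel : ∀ i j, IsRelPrime (F i) (G j))
    (hn : ∑ i, (F i).totalDegree + ∑ j, (G j).totalDegree ≤ n + 1)
    (hD : ∑ j, β j * ((G j).totalDegree : ℝ) ≤ ∑ i, α i * ((F i).totalDegree : ℝ))
    (S : Finset (Fin 2 → ℝ))
    (hS : ∀ s ∈ S, eval s (XP F α G β) = 0 ∧ eval s (XQ F α G β) = 0 ∧
      0 < eval s (jacP (XP F α G β) (XQ F α G β)) ∧
      (eval s (∏ i, F i) ≠ 0 ∨ eval s (∏ j, G j) ≠ 0)) :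
    2 * S.card + (∑ i, (F i).totalDegree) * (∑ j, (G j).totalDegree + 1) ≤
      n * (n + 1) + 2 := by
  rcases hD.lt_or_eq with h | h
  · exact affine_pos hα hβ hF hG hrel hn h S hS
  · exact affine_zero hα hβ hF hG hrel hn h S hS

theorem affine_half {ι κ : Type} [Fintype ι] [DecidableEq ι] [Fintype κ] [DecidableEq κ]
    {F : ι → R} {α : ι → ℝ} {G : κ → R} {β : κ → ℝ} {n : ℕ}
    (hα : ∀ i, 0 < α i) (hβ : ∀ j, 0 < β j) (hF : ∀ i, F i ≠ 0) (hG : ∀ j, G j ≠ 0)
    (hrel : ∀ i j, IsRelPrime (F i) (G j))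
    (hn : ∑ i, (F i).totalDegree + ∑ j, (G j).totalDegree ≤ n + 1)
    (hD : ∑ j, β j * ((G j).totalDegree : ℝ) ≤ ∑ i, α i * ((F i).totalDegree : ℝ))
    (S : Finset (Fin 2 → ℝ))
    (hS : ∀ s ∈ S, eval s (XP F α G β) = 0 ∧ eval s (XQ F α G β) = 0 ∧
      0 < eval s (jacP (XP F α G β) (XQ F α G β)) ∧
      (eval s (∏ i, F i) ≠ 0 ∨ eval s (∏ j, G j) ≠ 0)) :
    2 * S.card ≤ n ^ 2 + 1 := by
  rcases Nat.eq_zero_or_pos (∑ i, (F i).totalDegree) with h | h
  · -- then all degrees are zero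
    have h0 : ∑ i, α i * ((F i).totalDegree : ℝ) = 0 :=
      Finset.sum_eq_zero fun i _ => by
        rw [(Finset.sum_eq_zero_iff.1 h) i (Finset.mem_univ i)]; simp
    have h1 : 0 ≤ ∑ j, β j * ((G j).totalDegree : ℝ) :=
      Finset.sum_nonneg fun j _ => mul_nonneg (hβ j).le (Nat.cast_nonneg _)
    have h2 : ∑ j, β j * ((G j).totalDegree : ℝ) = 0 := le_antisymm (hD.trans h0.le) h1
    have h3 : ∑ j, (G j).totalDegree = 0 := by
      refine Finset.sum_eq_zero fun j hj => ?_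
      have := (Finset.sum_eq_zero_iff_of_nonneg (fun i _ =>
        mul_nonneg (hβ i).le (Nat.cast_nonneg _))).1 h2 j hj
      rcases mul_eq_zero.1 this with h4 | h4
      · exact absurd h4 (hβ j).ne'
      · exact_mod_cast h4
    have key := affine_refined (n := 0) hα hβ hF hG hrel (by omega) hD S hS
    have hS1 : S.card ≤ 1 := by omega
    rcases Nat.eq_zero_or_pos n with hn0 | hn0
    · -- `n = 0`: the vector field vanishes
      have hXP : (XP F α G β) = 0 ∨ S.card = 0 := by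
        left
        have hpd : ∀ (g : R) (k : Fin 2), g.totalDegree = 0 → pderiv k g = 0 := by
          intro g k hg
          rw [totalDegree_eq_zero_iff_eq_C.1 hg, pderiv_C]
        have e1 : logD F α 1 = 0 := by
          rw [logD]
          exact Finset.sum_eq_zero fun i hi => by
            rw [hpd _ _ ((Finset.sum_eq_zero_iff.1 h) i hi), mul_zero, smul_zero]
        have e2 : logD G β 1 = 0 := by
          rw [logD]
          exact Finset.sum_eq_zero fun j hj => by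
            rw [hpd _ _ ((Finset.sum_eq_zero_iff.1 h3) j hj), mul_zero, smul_zero]
        rw [XP, e1, e2, mul_zero, mul_zero, sub_zero]
      rcases hXP with hXP | hXP
      · have hS0 : S = ∅ := by
          refine Finset.eq_empty_of_forall_notMem fun s hs => ?_
          have := (hS s hs).2.2.1
          rw [hXP, jacP, map_zero, map_zero, zero_mul, zero_mul, sub_zero, map_zero] at this
          exact lt_irrefl _ this
        rw [hS0]
        simp
      · omega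
    · have : 1 ≤ n ^ 2 := Nat.one_le_pow _ _ hn0
      omega
  · obtain ⟨a, ha⟩ : ∃ a, ∑ i, (F i).totalDegree = a + 1 := ⟨_, (Nat.sub_add_cancel h).symm⟩
    obtain ⟨b, hb⟩ : ∃ b, ∑ j, (G j).totalDegree = b := ⟨_, rfl⟩
    have key := affine_refined (n := a + b) hα hβ hF hG hrel (by omega) hD S hS
    rw [ha, hb] at key hn
    have h1 : a + b ≤ n := by omega
    have h2 : (a + b) ^ 2 ≤ n ^ 2 := Nat.pow_le_pow_left h1 2
    nlinarith [Nat.zero_le (a * b)]

theorem affine_bound {ι κ : Type} [Fintype ι] [DecidableEq ι] [Fintype κ] [DecidableEq κ]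
    {F : ι → R} {α : ι → ℝ} {G : κ → R} {β : κ → ℝ} {n : ℕ}
    (hα : ∀ i, 0 < α i) (hβ : ∀ j, 0 < β j) (hF : ∀ i, F i ≠ 0) (hG : ∀ j, G j ≠ 0)
    (hrel : ∀ i j, IsRelPrime (F i) (G j))
    (hn : ∑ i, (F i).totalDegree + ∑ j, (G j).totalDegree ≤ n + 1)
    (S : Finset (Fin 2 → ℝ))
    (hS : ∀ s ∈ S, eval s (XP F α G β) = 0 ∧ eval s (XQ F α G β) = 0 ∧
      0 < eval s (jacP (XP F α G β) (XQ F α G β)) ∧
      (eval s (∏ i, F i) ≠ 0 ∨ eval s (∏ j, G j) ≠ 0)) :
    2 * S.card ≤ n ^ 2 + 1 := by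
  rcases le_total (∑ j, β j * ((G j).totalDegree : ℝ))
    (∑ i, α i * ((F i).totalDegree : ℝ)) with h | h
  · exact affine_half hα hβ hF hG hrel hn h S hS
  · refine affine_half hβ hα hG hF (fun i j => (hrel j i).symm) (by omega) h S fun s hs => ?_
    obtain ⟨h1, h2, h3, h4⟩ := hS s hs
    obtain ⟨e1, e2⟩ := X_symm F α G β
    rw [e1, e2, jacP_neg, map_neg, map_neg, h1, h2]
    exact ⟨neg_zero, neg_zero, h3, h4.symm⟩

end Pool.Agent.LogCentres
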