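import Pool.Agent.LogCentres.Defs3

/-!
# Centres and the curves of the first integral
-/

namespace Pool.Agent.LogCentres

open MvPolynomial Pool.Agent.PlanarCentres

theorem cent_pderiv_prod {ι : Type} [DecidableEq ι] (k : Fin 2) (F : ι → R) (s : Finset ι) :
    pderiv k (∏ i ∈ s, F i) = ∑ i ∈ s, (∏ j ∈ s.erase i, F j) * pderiv k (F i) := by
  induction s using Finset.induction_on with
  | empty => simp
  | insert a s ha ih =>
    rw [Finset.prod_insert ha, Derivation.leibniz, ih, Finset.sum_insert ha,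
      Finset.erase_insert ha, smul_eq_mul, smul_eq_mul, Finset.mul_sum]
    have h1 : ∑ i ∈ s, F a * ((∏ j ∈ s.erase i, F j) * pderiv k (F i)) =
        ∑ i ∈ s, (∏ j ∈ (insert a s).erase i, F j) * pderiv k (F i) := by
      refine Finset.sum_congr rfl fun i hi => ?_
      have hai : a ≠ i := fun h => ha (h ▸ hi)
      rw [Finset.erase_insert_of_ne hai, Finset.prod_insert (by simp [ha]), mul_assoc]
    rw [h1]
    ring

theorem cent_dvd {ι : Type} [Fintype ι] [DecidableEq ι] (F : ι → R) (α : ι → ℝ) :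
    (∏ i, F i) ∣ logD F α 1 * pderiv 0 (∏ i, F i) - logD F α 0 * pderiv 1 (∏ i, F i) := by
  rw [cent_pderiv_prod, cent_pderiv_prod, logD, logD, Finset.sum_mul_sum, Finset.sum_mul_sum,
    ← Finset.sum_sub_distrib]
  refine Finset.dvd_sum fun i _ => ?_
  rw [← Finset.sum_sub_distrib]
  refine Finset.dvd_sum fun j _ => ?_
  by_cases hij : i = j
  · subst hij
    have h1 : α i • ((∏ k ∈ Finset.univ.erase i, F k) * pderiv 1 (F i)) *
        ((∏ k ∈ Finset.univ.erase i, F k) * pderiv 0 (F i)) -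
        α i • ((∏ k ∈ Finset.univ.erase i, F k) * pderiv 0 (F i)) *
        ((∏ k ∈ Finset.univ.erase i, F k) * pderiv 1 (F i)) = 0 := by
      rw [smul_mul_assoc, smul_mul_assoc, ← smul_sub]
      have h2 : (∏ k ∈ Finset.univ.erase i, F k) * pderiv 1 (F i) *
          ((∏ k ∈ Finset.univ.erase i, F k) * pderiv 0 (F i)) -
          (∏ k ∈ Finset.univ.erase i, F k) * pderiv 0 (F i) *
          ((∏ k ∈ Finset.univ.erase i, F k) * pderiv 1 (F i)) = 0 := by ring
      rw [h2, smul_zero]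
    rw [h1]
    exact dvd_zero _
  · have h1 : F i * (∏ k ∈ Finset.univ.erase i, F k) = ∏ k, F k :=
      Finset.mul_prod_erase _ _ (Finset.mem_univ i)
    have h2 : F i ∣ ∏ k ∈ Finset.univ.erase j, F k :=
      Finset.dvd_prod_of_mem _ (Finset.mem_erase.2 ⟨hij, Finset.mem_univ i⟩)
    obtain ⟨c, hc⟩ := h2
    have h3 : ∀ u v : R, (∏ k, F k) ∣ α i • ((∏ k ∈ Finset.univ.erase i, F k) * u) *
        ((∏ k ∈ Finset.univ.erase j, F k) * v) := by
      intro u v
      refine ⟨α i • (c * u * v), ?_⟩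
      rw [smul_mul_assoc, mul_smul_comm, ← h1, hc]
      congr 1
      ring
    exact dvd_sub (h3 _ _) (h3 _ _)

theorem exists_cofactor {ι κ : Type} [Fintype ι] [DecidableEq ι] [Fintype κ] [DecidableEq κ]
    (F : ι → R) (α : ι → ℝ) (G : κ → R) (β : κ → ℝ) :
    (∃ K : R, XP F α G β * pderiv 0 (∏ i, F i) + XQ F α G β * pderiv 1 (∏ i, F i) =
      K * ∏ i, F i) ∧
    ∃ K : R, XP F α G β * pderiv 0 (∏ j, G j) + XQ F α G β * pderiv 1 (∏ j, G j) =
      K * ∏ j, G j := by
  constructor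
  · obtain ⟨c, hc⟩ := cent_dvd F α
    refine ⟨(∏ j, G j) * c + (logD G β 0 * pderiv 1 (∏ i, F i) -
      logD G β 1 * pderiv 0 (∏ i, F i)), ?_⟩
    rw [XP, XQ]
    linear_combination (∏ j, G j) * hc
  · obtain ⟨c, hc⟩ := cent_dvd G β
    refine ⟨(logD F α 1 * pderiv 0 (∏ j, G j) - logD F α 0 * pderiv 1 (∏ j, G j)) -
      (∏ i, F i) * c, ?_⟩
    rw [XP, XQ]
    linear_combination (-(∏ i, F i)) * hc

theorem not_both {ι κ : Type} [Fintype ι] [DecidableEq ι] [Fintype κ] [DecidableEq κ]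
    (F : ι → R) (α : ι → ℝ) (G : κ → R) (β : κ → ℝ) {s : Fin 2 → ℝ}
    (hP : eval s (XP F α G β) = 0) (hQ : eval s (XQ F α G β) = 0)
    (hj : 0 < eval s (jacP (XP F α G β) (XQ F α G β)))
    (htr : eval s (pderiv 0 (XP F α G β)) + eval s (pderiv 1 (XQ F α G β)) = 0) :
    eval s (∏ i, F i) ≠ 0 ∨ eval s (∏ j, G j) ≠ 0 := by
  by_contra hcon
  push Not at hcon
  obtain ⟨hf, hh⟩ := hcon
  obtain ⟨K, hK⟩ := (exists_cofactor F α G β).1
  have hd : ∀ k : Fin 2,
      eval s (pderiv k (XP F α G β)) = eval s (pderiv k (∏ j, G j)) * eval s (logD F α 1) -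
        eval s (pderiv k (∏ i, F i)) * eval s (logD G β 1) ∧
      eval s (pderiv k (XQ F α G β)) = eval s (pderiv k (∏ i, F i)) * eval s (logD G β 0) -
        eval s (pderiv k (∏ j, G j)) * eval s (logD F α 0) := by
    intro k
    constructor
    · rw [XP, map_sub, Derivation.leibniz, Derivation.leibniz]
      simp only [smul_eq_mul, map_sub, map_add, map_mul]
      rw [hf, hh]
      ring
    · rw [XQ, map_sub, Derivation.leibniz, Derivation.leibniz]
      simp only [smul_eq_mul, map_sub, map_add, map_mul]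
      rw [hf, hh]
      ring
  have he : ∀ k : Fin 2, eval s (pderiv k (XP F α G β)) * eval s (pderiv 0 (∏ i, F i)) +
      eval s (pderiv k (XQ F α G β)) * eval s (pderiv 1 (∏ i, F i)) =
        eval s K * eval s (pderiv k (∏ i, F i)) := by
    intro k
    have h1 := congrArg (fun p => eval s (pderiv k p)) hK
    simp only [map_add, Derivation.leibniz, smul_eq_mul, map_mul] at h1
    rw [hP, hQ, hf] at h1
    linarith
  rw [jacP, map_sub, map_mul, map_mul] at hj
  set p0 := eval s (pderiv 0 (XP F α G β))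
  set p1 := eval s (pderiv 1 (XP F α G β))
  set q0 := eval s (pderiv 0 (XQ F α G β))
  set q1 := eval s (pderiv 1 (XQ F α G β))
  set f0 := eval s (pderiv 0 (∏ i, F i))
  set f1 := eval s (pderiv 1 (∏ i, F i))
  have a0 := he 0
  have a1 := he 1
  by_cases hz : f0 = 0 ∧ f1 = 0
  · obtain ⟨b1, b2⟩ := hd 0
    obtain ⟨b3, b4⟩ := hd 1
    have c1 : p0 = eval s (pderiv 0 (∏ j, G j)) * eval s (logD F α 1) -
        f0 * eval s (logD G β 1) := b1
    have c2 : q0 = f0 * eval s (logD G β 0) -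
        eval s (pderiv 0 (∏ j, G j)) * eval s (logD F α 0) := b2
    have c3 : p1 = eval s (pderiv 1 (∏ j, G j)) * eval s (logD F α 1) -
        f1 * eval s (logD G β 1) := b3
    have c4 : q1 = f1 * eval s (logD G β 0) -
        eval s (pderiv 1 (∏ j, G j)) * eval s (logD F α 0) := b4
    rw [hz.1] at c1 c2
    rw [hz.2] at c3 c4
    rw [c1, c2, c3, c4] at hj
    have h2 : (eval s (pderiv 0 (∏ j, G j)) * eval s (logD F α 1) - 0 * eval s (logD G β 1)) *
        (0 * eval s (logD G β 0) - eval s (pderiv 1 (∏ j, G j)) * eval s (logD F α 0)) -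
        (eval s (pderiv 1 (∏ j, G j)) * eval s (logD F α 1) - 0 * eval s (logD G β 1)) *
        (0 * eval s (logD G β 0) - eval s (pderiv 0 (∏ j, G j)) * eval s (logD F α 0)) = 0 := by
      ring
    rw [h2] at hj
    exact lt_irrefl _ hj
  · set κ' := eval s K
    have e0 : p0 * f0 + q0 * f1 = κ' * f0 := a0
    have e1 : p1 * f0 + q1 * f1 = κ' * f1 := a1
    have h1 : ((p0 - κ') * (q1 - κ') - p1 * q0) * f0 = 0 := by
      linear_combination (q1 - κ') * e0 - q0 * e1
    have h2 : ((p0 - κ') * (q1 - κ') - p1 * q0) * f1 = 0 := by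
      linear_combination (p0 - κ') * e1 - p1 * e0
    have h3 : (p0 - κ') * (q1 - κ') - p1 * q0 = 0 := by
      by_contra h4
      exact hz ⟨(mul_eq_zero.1 h1).resolve_left h4, (mul_eq_zero.1 h2).resolve_left h4⟩
    have h4 : p0 * q1 - p1 * q0 = - κ' ^ 2 := by
      have h5 : p0 + q1 = 0 := htr
      linear_combination h3 + κ' * h5
    have h6 : 0 < p0 * q1 - p1 * q0 := hj
    rw [h4] at h6
    have := sq_nonneg κ'
    linarith

end Pool.Agent.LogCentres
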