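import Pool.Agent.LogCentres.NoLevel
import Pool.Agent.LogCentres.OrbOpen

/-!
# At a centre a first integral with isolated critical points has a strict local extremum
-/

namespace Pool.Agent.LogCentres

open MvPolynomial Pool.Agent.PlanarCentres Topology

/-- a punctured ball of the plane (sup norm) is preconnected -/
theorem punctured_preconnected (p : Fin 2 → ℝ) {s : ℝ} (hs : 0 < s) :
    IsPreconnected (Metric.ball p s \ {p}) := by
  have hB : Convex ℝ (Metric.ball p s) := convex_ball p s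
  have mem : ∀ a b : ℝ, |a| < s → |b| < s → ![p 0 + a, p 1 + b] ∈ Metric.ball p s := by
    intro a b ha hb
    rw [Metric.mem_ball, dist_pi_lt_iff hs]
    intro i
    fin_cases i
    · simpa [Real.dist_eq] using ha
    · simpa [Real.dist_eq] using hb
  have c1 : IsPreconnected (Metric.ball p s ∩ {x | x 0 < p 0}) :=
    (hB.inter (convex_halfSpace_lt (LinearMap.proj (R := ℝ) (φ := fun _ : Fin 2 => ℝ) 0).isLinear
      (p 0))).isPreconnected
  have c2 : IsPreconnected (Metric.ball p s ∩ {x | x 1 < p 1}) :=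
    (hB.inter (convex_halfSpace_lt (LinearMap.proj (R := ℝ) (φ := fun _ : Fin 2 => ℝ) 1).isLinear
      (p 1))).isPreconnected
  have c3 : IsPreconnected (Metric.ball p s ∩ {x | p 0 < x 0}) :=
    (hB.inter (convex_halfSpace_gt (LinearMap.proj (R := ℝ) (φ := fun _ : Fin 2 => ℝ) 0).isLinear
      (p 0))).isPreconnected
  have c4 : IsPreconnected (Metric.ball p s ∩ {x | p 1 < x 1}) :=
    (hB.inter (convex_halfSpace_gt (LinearMap.proj (R := ℝ) (φ := fun _ : Fin 2 => ℝ) 1).isLinear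
      (p 1))).isPreconnected
  have hh : |s / 2| < s := by rw [abs_of_pos (by linarith)]; linarith
  have hh' : |-(s / 2)| < s := by rw [abs_neg]; exact hh
  have u1 := IsPreconnected.union (s := Metric.ball p s ∩ {x | x 0 < p 0})
    (t := Metric.ball p s ∩ {x | x 1 < p 1}) ![p 0 + -(s / 2), p 1 + -(s / 2)]
    ⟨mem _ _ hh' hh', by simp [hs]⟩ ⟨mem _ _ hh' hh', by simp [hs]⟩ c1 c2
  have u2 := IsPreconnected.union (s := Metric.ball p s ∩ {x | x 0 < p 0} ∪
    Metric.ball p s ∩ {x | x 1 < p 1}) (t := Metric.ball p s ∩ {x | p 0 < x 0})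
    ![p 0 + s / 2, p 1 + -(s / 2)]
    (Or.inr ⟨mem _ _ hh hh', by simp [hs]⟩) ⟨mem _ _ hh hh', by simp [hs]⟩ u1 c3
  have u3 := IsPreconnected.union (s := Metric.ball p s ∩ {x | x 0 < p 0} ∪
    Metric.ball p s ∩ {x | x 1 < p 1} ∪ Metric.ball p s ∩ {x | p 0 < x 0})
    (t := Metric.ball p s ∩ {x | p 1 < x 1}) ![p 0 + s / 2, p 1 + s / 2]
    (Or.inr ⟨mem _ _ hh hh, by simp [hs]⟩) ⟨mem _ _ hh hh, by simp [hs]⟩ u2 c4
  convert u3 using 1
  ext x
  constructor
  · rintro ⟨hx, hxp⟩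
    rcases lt_trichotomy (x 0) (p 0) with h | h | h
    · exact Or.inl (Or.inl (Or.inl ⟨hx, h⟩))
    · rcases lt_trichotomy (x 1) (p 1) with h' | h' | h'
      · exact Or.inl (Or.inl (Or.inr ⟨hx, h'⟩))
      · exact absurd (by ext i; fin_cases i <;> assumption) hxp
      · exact Or.inr ⟨hx, h'⟩
    · exact Or.inl (Or.inr ⟨hx, h⟩)
  · have ne0 : x 0 ≠ p 0 → x ∈ Metric.ball p s → x ∈ Metric.ball p s \ {p} :=
      fun h hx => ⟨hx, fun e => h (by rw [Set.mem_singleton_iff.mp e])⟩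
    have ne1 : x 1 ≠ p 1 → x ∈ Metric.ball p s → x ∈ Metric.ball p s \ {p} :=
      fun h hx => ⟨hx, fun e => h (by rw [Set.mem_singleton_iff.mp e])⟩
    rintro (((⟨hx, h⟩ | ⟨hx, h⟩) | ⟨hx, h⟩) | ⟨hx, h⟩)
    · exact ne0 (ne_of_lt h) hx
    · exact ne1 (ne_of_lt h) hx
    · exact ne0 (ne_of_gt h) hx
    · exact ne1 (ne_of_gt h) hx

theorem centre_extremum {P Q : R} {H V : (Fin 2 → ℝ) → ℝ} {Ω : Set (Fin 2 → ℝ)}
    (hΩ : IsOpen Ω) {p : Fin 2 → ℝ} (hp : p ∈ Ω) (hH : ContDiffOn ℝ 2 H Ω)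
    (_hV : ∀ x ∈ Ω, V x ≠ 0)
    (hP : ∀ x ∈ Ω, eval x P = V x * fderiv ℝ H x (Pi.single 1 1))
    (hQ : ∀ x ∈ Ω, eval x Q = -(V x * fderiv ℝ H x (Pi.single 0 1)))
    (hc : IsCentre P Q p) :
    (∀ᶠ q in 𝓝[≠] p, H q < H p) ∨ ∀ᶠ q in 𝓝[≠] p, H p < H q := by
  obtain ⟨-, -, hU⟩ := hc
  have hHx : ∀ x ∈ Ω, ContDiffAt ℝ 2 H x := fun x hx => hH.contDiffAt (hΩ.mem_nhds hx)
  obtain ⟨U0, hU0, hU0s, hU0p⟩ := hU _ (hΩ.mem_nhds hp)
  obtain ⟨r, hr, hrU⟩ := Metric.nhds_basis_closedBall.mem_iff.mp hU0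
  have hcrit : ∀ x ∈ Metric.closedBall p r, fderiv ℝ H x = 0 → x = p := by
    intro x hx h0
    by_contra hne
    obtain ⟨γ, hγ, hγ0, -⟩ := hU0p x (hrU hx) hne
    have hxΩ : x ∈ Ω := hU0s (hrU hx)
    rcases orbit_ne hγ 0 with h | h
    · rw [hγ0] at h
      exact h (by rw [hP x hxΩ, h0]; simp)
    · rw [hγ0] at h
      exact h (by rw [hQ x hxΩ, h0]; simp)
  obtain ⟨U1, hU1, hU1s, hU1p⟩ := hU (Metric.ball p r) (Metric.ball_mem_nhds p hr)
  have hne : ∀ q ∈ U1, q ≠ p → H q ≠ H p := by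
    intro q hq hqp heq
    obtain ⟨γ, hγ, hγ0, hγU⟩ := hU1p q hq hqp
    have hγb : ∀ t, γ t ∈ Metric.closedBall p r := fun t =>
      Metric.ball_subset_closedBall (hU1s (hγU t).1)
    have hγΩ : ∀ t, γ t ∈ Ω := fun t => hU0s (hrU (hγb t))
    have hder : ∀ t, HasDerivAt (fun t => H (γ t)) 0 t := by
      intro t
      have h1 : HasFDerivAt H (fderiv ℝ H (γ t)) (γ t) :=
        ((hHx _ (hγΩ t)).differentiableAt (by norm_num)).hasFDerivAt
      have h2 := h1.comp_hasDerivAt t (hγ.1 t)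
      have h3 : fderiv ℝ H (γ t) ![eval (γ t) P, eval (γ t) Q] = 0 := by
        have h4 : (![eval (γ t) P, eval (γ t) Q] : Fin 2 → ℝ) =
            eval (γ t) P • Pi.single 0 1 + eval (γ t) Q • Pi.single 1 1 := by
          ext i
          fin_cases i <;> simp
        rw [h4, map_add, map_smul, map_smul, hP _ (hγΩ t), hQ _ (hγΩ t), smul_eq_mul, smul_eq_mul]
        ring
      rw [h3] at h2
      exact h2
    have hconst : ∀ t, H (γ t) = H p := by
      intro t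
      have h : H (γ t) = H (γ 0) :=
        is_const_of_deriv_eq_zero (f := fun t => H (γ t))
          (fun t => (hder t).differentiableAt) (fun t => (hder t).deriv) t 0
      rw [h, hγ0, heq]
    obtain ⟨N, hN, hγN, hlev⟩ := orbit_open hγ.1 (H := H) hconst
      (fun t => (hHx _ (hγΩ t)).of_le one_le_two)
      (fun t h0 => (hγU t).2 (hcrit _ (hγb t) h0)) (fun t => orbit_ne hγ t)
    exact no_level hΩ (fun x hx => hU0s (hrU hx)) hH hcrit (orbit_compact hγ)
      (Set.range_nonempty γ) (by rintro _ ⟨t, rfl⟩; exact hU1s (hγU t).1)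
      (by rintro ⟨t, ht⟩; exact (hγU t).2 ht) (by rintro _ ⟨t, rfl⟩; exact hconst t) hN hγN hlev
  obtain ⟨s, hs, hsU⟩ := Metric.nhds_basis_ball.mem_iff.mp hU1
  have hmem : Metric.ball p s \ {p} ∈ 𝓝[≠] p :=
    Filter.inter_mem (mem_nhdsWithin_of_mem_nhds (Metric.ball_mem_nhds p hs)) self_mem_nhdsWithin
  have hcont : ContinuousOn H (Metric.ball p s \ {p}) := fun x hx =>
    (hHx x (hU0s (hrU (Metric.ball_subset_closedBall
      (hU1s (hsU hx.1)))))).continuousAt.continuousWithinAt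
  by_cases h : ∀ q ∈ Metric.ball p s \ {p}, H q < H p
  · left
    filter_upwards [hmem] with q hq using h q hq
  · right
    push Not at h
    obtain ⟨b, hb, hbl⟩ := h
    filter_upwards [hmem] with q hq
    by_contra hlt
    push Not at hlt
    obtain ⟨c, hc, hcv⟩ := (punctured_preconnected p hs).intermediate_value hq hb hcont ⟨hlt, hbl⟩
    exact hne c (hsU hc.1) (fun e => hc.2 e) hcv

end Pool.Agent.LogCentres
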