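import Pool.Agent.LogCentres.ExtDefs

/-!
# Derivatives of `∑ λᵢ log |fᵢ|`
-/

namespace Pool.Agent.LogCentres

open MvPolynomial Pool.Agent.PlanarCentres Topology

theorem ld_contDiff_eval (p : R) {n : WithTop ℕ∞} :
    ContDiff ℝ n fun x : Fin 2 → ℝ => eval x p := by
  induction p using MvPolynomial.induction_on with
  | C a => simpa using contDiff_const
  | add p q hp hq => simpa using hp.add hq
  | mul_X p i hp => simpa using hp.mul (contDiff_apply ℝ ℝ i)

theorem ld_fderiv_eval (p : R) (x v : Fin 2 → ℝ) :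
    fderiv ℝ (fun y : Fin 2 → ℝ => eval y p) x v =
      eval x (pderiv 0 p) * v 0 + eval x (pderiv 1 p) * v 1 := by
  induction p using MvPolynomial.induction_on with
  | C a => simp
  | add p q hp hq =>
    have h1 : DifferentiableAt ℝ (fun y : Fin 2 → ℝ => eval y p) x :=
      ((ld_contDiff_eval p (n := 1)).differentiable one_ne_zero).differentiableAt
    have h2 : DifferentiableAt ℝ (fun y : Fin 2 → ℝ => eval y q) x :=
      ((ld_contDiff_eval q (n := 1)).differentiable one_ne_zero).differentiableAt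
    simp only [map_add]
    rw [fderiv_fun_add h1 h2]
    show fderiv ℝ (fun y : Fin 2 → ℝ => eval y p) x v + fderiv ℝ (fun y : Fin 2 → ℝ => eval y q) x v
      = _
    rw [hp, hq]
    ring
  | mul_X p i hp =>
    have h1 : DifferentiableAt ℝ (fun y : Fin 2 → ℝ => eval y p) x :=
      ((ld_contDiff_eval p (n := 1)).differentiable one_ne_zero).differentiableAt
    have h2 : HasFDerivAt (fun y : Fin 2 → ℝ => y i)
        (ContinuousLinearMap.proj (R := ℝ) (φ := fun _ : Fin 2 => ℝ) i) x :=
      hasFDerivAt_apply i x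
    have h3 := (h1.hasFDerivAt.mul h2).fderiv
    have h4 : (fun y : Fin 2 → ℝ => eval y (p * X i)) = fun y => eval y p * y i := by
      funext y; simp
    rw [h4]
    have h5 : fderiv ℝ (fun y : Fin 2 → ℝ => eval y p * y i) x v
        = eval x p * v i + x i * fderiv ℝ (fun y : Fin 2 → ℝ => eval y p) x v := by
      have h6 : (fun y : Fin 2 → ℝ => eval y p * y i)
          = (fun y : Fin 2 → ℝ => eval y p) * fun y => y i := rfl
      rw [h6]
      have := congrArg (fun A : (Fin 2 → ℝ) →L[ℝ] ℝ => A v) h3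
      simpa using this
    rw [h5, hp]
    simp only [Derivation.leibniz, smul_eq_mul, map_add, map_mul, eval_X, pderiv_X]
    fin_cases i <;> simp [Pi.single_apply] <;> ring

theorem logF_contDiffAt {ι : Type} [Fintype ι] (f : ι → R) (lam : ι → ℝ) {x : Fin 2 → ℝ}
    (hx : ∀ i, eval x (f i) ≠ 0) : ContDiffAt ℝ 2 (logF f lam) x := by
  have h0 : logF f lam = fun y => ∑ i, lam i * Real.log (eval y (f i)) := by
    funext y
    unfold logF
    simp only [Real.log_abs]
  rw [h0]
  apply ContDiffAt.sum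
  intro i _
  exact contDiffAt_const.mul (((ld_contDiff_eval (f i)).contDiffAt).log (hx i))

/-- `∂ₗ (∑ λᵢ log |fᵢ|) = logD f lam l / ∏ fᵢ` -/
theorem logF_fderiv {ι : Type} [Fintype ι] [DecidableEq ι] (f : ι → R) (lam : ι → ℝ)
    {x : Fin 2 → ℝ} (hx : ∀ i, eval x (f i) ≠ 0) (v : Fin 2 → ℝ) :
    fderiv ℝ (logF f lam) x v =
      (eval x (logD f lam 0) * v 0 + eval x (logD f lam 1) * v 1) / ∏ i, eval x (f i) := by
  have h0 : logF f lam = fun y => ∑ i, lam i * Real.log (eval y (f i)) := by
    funext y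
    unfold logF
    simp only [Real.log_abs]
  have hd : ∀ i, DifferentiableAt ℝ (fun y : Fin 2 → ℝ => eval y (f i)) x := fun i =>
    ((ld_contDiff_eval (f i) (n := 1)).differentiable one_ne_zero).differentiableAt
  have h1 : ∀ i ∈ (Finset.univ : Finset ι), HasFDerivAt
      (fun y : Fin 2 → ℝ => lam i * Real.log (eval y (f i)))
      (lam i • ((eval x (f i))⁻¹ • fderiv ℝ (fun y : Fin 2 → ℝ => eval y (f i)) x)) x := by
    intro i _
    exact ((hd i).hasFDerivAt.log (hx i)).const_mul (lam i)
  have h2 := (HasFDerivAt.fun_sum h1).fderiv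
  have hV : (∏ i, eval x (f i)) ≠ 0 := Finset.prod_ne_zero_iff.mpr fun i _ => hx i
  rw [h0, h2, eq_div_iff hV]
  have hD : ∀ k : Fin 2, eval x (logD f lam k) =
      (∏ i, eval x (f i)) * ∑ i, lam i * (eval x (pderiv k (f i)) / eval x (f i)) := by
    intro k
    rw [logD, map_sum, Finset.mul_sum]
    refine Finset.sum_congr rfl fun i _ => ?_
    rw [smul_eval, map_mul, map_prod, ← Finset.mul_prod_erase Finset.univ _ (Finset.mem_univ i)]
    have := hx i
    field_simp
  rw [hD, hD]
  have h3 : (∑ i, lam i • ((eval x (f i))⁻¹ • fderiv ℝ (fun y : Fin 2 → ℝ => eval y (f i)) x)) v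
      = ∑ i, lam i * ((eval x (pderiv 0 (f i)) * v 0 + eval x (pderiv 1 (f i)) * v 1)
        / eval x (f i)) := by
    rw [ContinuousLinearMap.sum_apply]
    refine Finset.sum_congr rfl fun i _ => ?_
    rw [ContinuousLinearMap.smul_apply, ContinuousLinearMap.smul_apply, ld_fderiv_eval]
    simp only [smul_eq_mul]
    rw [div_eq_inv_mul]
  rw [h3, Finset.sum_mul, Finset.mul_sum, Finset.mul_sum, Finset.sum_mul, Finset.sum_mul,
    ← Finset.sum_add_distrib]
  refine Finset.sum_congr rfl fun i _ => ?_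
  ring

/-- the points where all members are nonzero form an open set -/
theorem isOpen_ne {ι : Type} [Fintype ι] (f : ι → R) :
    IsOpen {x : Fin 2 → ℝ | ∀ i, eval x (f i) ≠ 0} := by
  have h : {x : Fin 2 → ℝ | ∀ i, eval x (f i) ≠ 0} = ⋂ i, {x | eval x (f i) ≠ 0} := by
    ext x; simp
  rw [h]
  apply isOpen_iInter_of_finite
  intro i
  exact isOpen_ne_fun (ld_contDiff_eval (f i) (n := 0)).continuous continuous_const

end Pool.Agent.LogCentres
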