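import Pool.Agent.LogCentres.ExpB
import Pool.Agent.LogCentres.CentExt
import Pool.Agent.LogCentres.LogDer
import Pool.Agent.LogCentres.Cent

/-!
# All centres, degenerate ones off the curves included
-/

namespace Pool.Agent.LogCentres

open MvPolynomial Pool.Agent.PlanarCentres Topology

/-- polynomial functions are smooth -/
theorem contDiff_evalC (p : R) : ContDiff ℝ 2 (fun x : Fin 2 → ℝ => eval x p) := by
  induction p using MvPolynomial.induction_on with
  | C a => simpa using contDiff_const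
  | add p q hp hq => simpa using hp.add hq
  | mul_X p i hp => simpa using hp.mul (contDiff_apply ℝ ℝ i)

private theorem fderiv_eval (p : R) (x v : Fin 2 → ℝ) :
    fderiv ℝ (fun x : Fin 2 → ℝ => eval x p) x v =
      eval x (pderiv 0 p) * v 0 + eval x (pderiv 1 p) * v 1 := by
  have hd : ∀ q : R, DifferentiableAt ℝ (fun x : Fin 2 → ℝ => eval x q) x := fun q =>
    ((contDiff_evalC q).differentiable (by norm_num)) x
  induction p using MvPolynomial.induction_on with
  | C a => simp
  | add p q hp hq =>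
    have h1 : (fun x : Fin 2 → ℝ => eval x (p + q)) = fun x => eval x p + eval x q := by
      funext y; rw [map_add]
    rw [h1, fderiv_fun_add (hd p) (hd q), _root_.add_apply, hp, hq]
    simp only [map_add]
    ring
  | mul_X p i hp =>
    have h1 : (fun x : Fin 2 → ℝ => eval x (p * X i)) = fun x => eval x p * x i := by
      funext y; rw [map_mul, eval_X]
    have h2 : HasFDerivAt (fun x : Fin 2 → ℝ => x i)
      (ContinuousLinearMap.proj (R := ℝ) (φ := fun _ : Fin 2 => ℝ) i) x :=
      hasFDerivAt_apply i x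
    have h3 : HasFDerivAt (fun x : Fin 2 → ℝ => eval x p * x i)
      (eval x p • (ContinuousLinearMap.proj (R := ℝ) (φ := fun _ : Fin 2 => ℝ) i) +
        x i • fderiv ℝ (fun x : Fin 2 → ℝ => eval x p) x) x :=
      (hd p).hasFDerivAt.mul h2
    rw [h1, h3.fderiv]
    simp only [_root_.add_apply, _root_.smul_apply, hp,
      ContinuousLinearMap.proj_apply, smul_eq_mul, Derivation.leibniz, map_add, map_mul, eval_X]
    fin_cases i
    · simp [pderiv_X_of_ne (show (0 : Fin 2) ≠ 1 by decide)]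
      ring
    · simp [pderiv_X_of_ne (show (1 : Fin 2) ≠ 0 by decide)]
      ring

private theorem prod_mul_pderiv {ι : Type} [Fintype ι] [DecidableEq ι] (f : ι → R) (nn : ι → ℕ)
    (l : Fin 2) : (∏ i, f i) * pderiv l (∏ i, f i ^ nn i) =
      (∏ i, f i ^ nn i) * logD f (fun i => (nn i : ℝ)) l := by
  rw [cent_pderiv_prod, logD, Finset.mul_sum, Finset.mul_sum]
  refine Finset.sum_congr rfl fun i _ => ?_
  have h1 : ∏ k, f k = f i * (∏ k ∈ Finset.univ.erase i, f k) :=
    (Finset.mul_prod_erase _ _ (Finset.mem_univ i)).symm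
  have h2 : ∏ k, f k ^ nn k = f i ^ nn i * (∏ k ∈ Finset.univ.erase i, f k ^ nn k) :=
    (Finset.mul_prod_erase _ (fun k => f k ^ nn k) (Finset.mem_univ i)).symm
  have h3 : f i * pderiv l (f i ^ nn i) = f i ^ nn i * (C (nn i : ℝ) * pderiv l (f i)) := by
    rw [Derivation.leibniz_pow]
    rcases Nat.eq_zero_or_pos (nn i) with h0 | h0
    · rw [h0]; simp
    · obtain ⟨m, hm⟩ : ∃ m, nn i = m + 1 := ⟨nn i - 1, by omega⟩
      rw [hm]
      simp only [Nat.add_sub_cancel, nsmul_eq_mul, smul_eq_mul, Nat.cast_add, Nat.cast_one,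
        map_add, map_natCast, map_one]
      ring
  rw [h1, h2, smul_eq_C_mul]
  calc f i * (∏ k ∈ Finset.univ.erase i, f k) *
        ((∏ k ∈ Finset.univ.erase i, f k ^ nn k) * pderiv l (f i ^ nn i))
      = (∏ k ∈ Finset.univ.erase i, f k) * (∏ k ∈ Finset.univ.erase i, f k ^ nn k) *
        (f i * pderiv l (f i ^ nn i)) := by ring
    _ = _ := by rw [h3]; ring

theorem fderiv_expH {ι : Type} [Fintype ι] [DecidableEq ι] (f : ι → R) (lam : ι → ℝ)
    (nn : ι → ℕ) (g : R) {x : Fin 2 → ℝ} (hx : ∀ i, eval x (f i) ≠ 0) (l : Fin 2) :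
    eval x (expD f lam nn g l) =
      ((∏ i, eval x (f i) ^ nn i) * ∏ i, eval x (f i)) *
        fderiv ℝ (expH f lam nn g) x (Pi.single l 1) := by
  have hPhi : ∀ y : Fin 2 → ℝ, eval y (∏ i, f i ^ nn i) = ∏ i, eval y (f i) ^ nn i := fun y => by
    rw [map_prod]; simp only [map_pow]
  have hne : (∏ i, eval x (f i)) ≠ 0 := Finset.prod_ne_zero_iff.2 fun i _ => hx i
  have hne2 : eval x (∏ i, f i ^ nn i) ≠ 0 := by
    rw [hPhi]; exact Finset.prod_ne_zero_iff.2 fun i _ => pow_ne_zero _ (hx i)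
  have hd : ∀ q : R, DifferentiableAt ℝ (fun x : Fin 2 → ℝ => eval x q) x := fun q =>
    ((contDiff_evalC q).differentiable (by norm_num)) x
  have h1 : expH f lam nn g = fun y => logF f lam y + eval y g / eval y (∏ i, f i ^ nn i) := by
    funext y; rw [expH, hPhi]
  have hlog : DifferentiableAt ℝ (logF f lam) x :=
    (logF_contDiffAt f lam hx).differentiableAt (by norm_num)
  have hdiv : HasFDerivAt (fun y : Fin 2 → ℝ => eval y g / eval y (∏ i, f i ^ nn i))
      ((1 / eval x (∏ i, f i ^ nn i) ^ 2) •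
        (eval x (∏ i, f i ^ nn i) • fderiv ℝ (fun y : Fin 2 → ℝ => eval y g) x -
          eval x g • fderiv ℝ (fun y : Fin 2 → ℝ => eval y (∏ i, f i ^ nn i)) x)) x := by
    have h2 : HasFDerivAt (fun y : Fin 2 → ℝ => (eval y (∏ i, f i ^ nn i))⁻¹)
        (-(eval x (∏ i, f i ^ nn i) ^ 2)⁻¹ •
          fderiv ℝ (fun y : Fin 2 → ℝ => eval y (∏ i, f i ^ nn i)) x) x :=
      (hasDerivAt_inv hne2).comp_hasFDerivAt x (hd _).hasFDerivAt
    have h3 : HasFDerivAt (fun y : Fin 2 → ℝ => eval y g * (eval y (∏ i, f i ^ nn i))⁻¹)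
        (eval x g • (-(eval x (∏ i, f i ^ nn i) ^ 2)⁻¹ •
          fderiv ℝ (fun y : Fin 2 → ℝ => eval y (∏ i, f i ^ nn i)) x) +
          (eval x (∏ i, f i ^ nn i))⁻¹ • fderiv ℝ (fun y : Fin 2 → ℝ => eval y g) x) x :=
      (hd g).hasFDerivAt.mul h2
    simp only [div_eq_mul_inv]
    convert h3 using 1
    ext v
    simp only [_root_.add_apply, _root_.smul_apply, _root_.sub_apply, smul_eq_mul]
    field_simp
    ring
  have hs : ∀ q : R, fderiv ℝ (fun y : Fin 2 → ℝ => eval y q) x (Pi.single l 1) =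
      eval x (pderiv l q) := by
    intro q
    rw [fderiv_eval]
    fin_cases l <;> simp
  have hs2 : fderiv ℝ (logF f lam) x (Pi.single l 1) =
      eval x (logD f lam l) / ∏ i, eval x (f i) := by
    rw [logF_fderiv f lam hx]
    fin_cases l <;> simp
  rw [h1, fderiv_fun_add hlog hdiv.differentiableAt, hdiv.fderiv, _root_.add_apply,
    hs2, _root_.smul_apply, _root_.sub_apply,
    _root_.smul_apply, _root_.smul_apply, hs, hs, ← hPhi]
  have hk : (∏ i, eval x (f i)) * eval x (pderiv l (∏ i, f i ^ nn i)) =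
      eval x (∏ i, f i ^ nn i) * eval x (logD f (fun i => (nn i : ℝ)) l) := by
    have := congrArg (eval x) (prod_mul_pderiv f nn l)
    rwa [map_mul, map_mul, map_prod] at this
  rw [expD]
  simp only [map_sub, map_add, map_mul, map_prod (eval x) f, smul_eq_mul]
  generalize eval x (∏ i, f i ^ nn i) = Φ at *
  generalize (∏ i, eval x (f i)) = F at *
  generalize eval x (logD f lam l) = L at *
  generalize eval x (logD f (fun i => (nn i : ℝ)) l) = M at *
  generalize eval x (pderiv l (∏ i, f i ^ nn i)) = Φ' at *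
  have hM : M = F * Φ' / Φ := by rw [hk]; field_simp
  rw [hM]
  field_simp
  ring

theorem all_centres {ι : Type} [Fintype ι] [DecidableEq ι] (f : ι → R) (lam : ι → ℝ)
    (nn : ι → ℕ) (g : R) (hf : ∀ i, f i ≠ 0) {n : ℕ}
    (hn : ∑ i, (f i).totalDegree +
      max g.totalDegree (∑ i, nn i * (f i).totalDegree) ≤ n + 1)
    (S : Finset (Fin 2 → ℝ))
    (hS : ∀ p ∈ S, IsCentre (expD f lam nn g 1) (-expD f lam nn g 0) p ∧
      (jac (expD f lam nn g 1) (-expD f lam nn g 0) p ≠ 0 ∨ ∀ i, eval p (f i) ≠ 0)) :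
    2 * S.card ≤ n ^ 2 + 1 := by
  refine exp_bound f lam nn g hf hn S fun p hp => ?_
  obtain ⟨hc, hor⟩ := hS p hp
  by_cases hj : jac (expD f lam nn g 1) (-expD f lam nn g 0) p = 0
  · left
    have hoff := hor.resolve_left (not_not.2 hj)
    refine ⟨hoff, ?_⟩
    refine centre_extremum (P := expD f lam nn g 1) (Q := -expD f lam nn g 0)
      (H := expH f lam nn g)
      (V := fun x => (∏ i, eval x (f i) ^ nn i) * ∏ i, eval x (f i)) (isOpen_ne f) hoff ?_ ?_ ?_ ?_
      hc
    · intro x hx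
      refine ContDiffAt.contDiffWithinAt ?_
      have h1 : expH f lam nn g = fun y => logF f lam y + eval y g / eval y (∏ i, f i ^ nn i) := by
        funext y; rw [expH, map_prod]; simp only [map_pow]
      rw [h1]
      refine (logF_contDiffAt f lam hx).add ?_
      refine (contDiff_evalC g).contDiffAt.div (contDiff_evalC _).contDiffAt ?_
      rw [map_prod]
      exact Finset.prod_ne_zero_iff.2 fun i _ => by rw [map_pow]; exact pow_ne_zero _ (hx i)
    · intro x hx
      exact mul_ne_zero (Finset.prod_ne_zero_iff.2 fun i _ => pow_ne_zero _ (hx i))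
        (Finset.prod_ne_zero_iff.2 fun i _ => hx i)
    · intro x hx
      exact fderiv_expH f lam nn g hx 1
    · intro x hx
      rw [map_neg, fderiv_expH f lam nn g hx 0]
  · right
    obtain ⟨htr, hpos⟩ := centre_jac hc hj
    refine ⟨hc.1, hc.2.1, ?_⟩
    rw [eval_jacP, htr]
    have : 0 < 4 * jac (expD f lam nn g 1) (-expD f lam nn g 0) p := by linarith
    simpa [jac] using this

end Pool.Agent.LogCentres
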