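import Pool.Agent.LogCentres.ExtDefs2

/-!
# The curves `fᵢ = 0` are invariant
-/

namespace Pool.Agent.LogCentres

open MvPolynomial

private theorem logD_split {ι : Type} [Fintype ι] [DecidableEq ι] (f : ι → R) (α : ι → ℝ)
    (i : ι) : ∃ M : Fin 2 → R, ∀ l, logD f α l =
      C (α i) * ((∏ j ∈ Finset.univ.erase i, f j) * pderiv l (f i)) + f i * M l := by
  refine ⟨fun l => ∑ j ∈ Finset.univ.erase i,
    α j • ((∏ k ∈ (Finset.univ.erase j).erase i, f k) * pderiv l (f j)), fun l => ?_⟩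
  unfold logD
  rw [← Finset.add_sum_erase _ _ (Finset.mem_univ i), MvPolynomial.smul_eq_C_mul, Finset.mul_sum]
  congr 1
  refine Finset.sum_congr rfl fun j hj => ?_
  have hij : i ∈ Finset.univ.erase j :=
    Finset.mem_erase.mpr ⟨(Finset.ne_of_mem_erase hj).symm, Finset.mem_univ i⟩
  rw [← Finset.mul_prod_erase _ _ hij, mul_smul_comm, mul_assoc]

theorem expD_inv {ι : Type} [Fintype ι] [DecidableEq ι] (f : ι → R) (lam : ι → ℝ) (nn : ι → ℕ)
    (g : R) (i : ι) : ∃ K : R, expD f lam nn g 1 * pderiv 0 (f i) +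
      (-expD f lam nn g 0) * pderiv 1 (f i) = K * f i := by
  obtain ⟨M, hM⟩ := logD_split f lam i
  obtain ⟨N, hN⟩ := logD_split f (fun i => (nn i : ℝ)) i
  have hE : ∏ j, f j = f i * ∏ j ∈ Finset.univ.erase i, f j :=
    (Finset.mul_prod_erase _ _ (Finset.mem_univ i)).symm
  set E : R := ∏ j ∈ Finset.univ.erase i, f j with hEdef
  set Φ : R := ∏ i, f i ^ nn i with hΦ
  have h : ∀ l, expD f lam nn g l = (Φ * C (lam i) - g * C (nn i : ℝ)) * E * pderiv l (f i) +
      f i * (Φ * M l + E * pderiv l g - g * N l) := by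
    intro l
    unfold expD
    rw [hM l, hN l, hE]
    ring
  refine ⟨(Φ * M 1 + E * pderiv 1 g - g * N 1) * pderiv 0 (f i) -
    (Φ * M 0 + E * pderiv 0 g - g * N 0) * pderiv 1 (f i), ?_⟩
  rw [h 1, h 0]
  ring

end Pool.Agent.LogCentres
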