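import Pool.Agent.LogCentres.Defs2

/-!
# Irreducible factors of an invariant polynomial are invariant
-/

namespace Pool.Agent.LogCentres

open MvPolynomial

theorem irr_dvd {P Q f K u : R} (hf : f ≠ 0)
    (hK : P * pderiv 0 f + Q * pderiv 1 f = K * f) (hu : Irreducible u) (hd : u ∣ f) :
    u ∣ P * pderiv 0 u + Q * pderiv 1 u := by
  obtain ⟨n, h, hh, hfe⟩ := WfDvdMonoid.max_power_factor hf hu
  cases n with
  | zero =>
    rw [pow_zero, one_mul] at hfe
    exact absurd (hfe ▸ hd) hh
  | succ m =>
    have hpow : ∀ k : Fin 2, pderiv k (u ^ (m + 1)) = ((m : R) + 1) * u ^ m * pderiv k u := by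
      intro k
      rw [Derivation.leibniz_pow]
      simp only [smul_eq_mul, nsmul_eq_mul, Nat.add_sub_cancel, Nat.cast_add, Nat.cast_one]
      ring
    have hum : u ^ m ≠ 0 := pow_ne_zero _ hu.ne_zero
    have hder : ∀ k : Fin 2, pderiv k f =
        u ^ m * (((m : R) + 1) * pderiv k u * h + u * pderiv k h) := by
      intro k
      rw [hfe, Derivation.leibniz, hpow k]
      simp only [smul_eq_mul]
      ring
    rw [hder 0, hder 1] at hK
    have h1 : u ^ m * (((m : R) + 1) * (P * pderiv 0 u + Q * pderiv 1 u) * h) =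
        u ^ m * (u * (K * h - (P * pderiv 0 h + Q * pderiv 1 h))) := by
      have h2 : K * f = u ^ m * (u * (K * h)) := by
        rw [hfe]; ring
      rw [h2] at hK
      linear_combination hK
    have h3 := mul_left_cancel₀ hum h1
    have h4 : u ∣ ((m : R) + 1) * (P * pderiv 0 u + Q * pderiv 1 u) * h := ⟨_, h3⟩
    have hp : Prime u := hu.prime
    rcases hp.dvd_or_dvd h4 with h5 | h5
    · rcases hp.dvd_or_dvd h5 with h6 | h6
      · exfalso
        have h7 : IsUnit ((m : R) + 1) := by
          have h8 : ((m : R) + 1) = C ((m : ℝ) + 1) := by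
            simp
          rw [h8]
          refine IsUnit.map C ?_
          rw [isUnit_iff_ne_zero]
          positivity
        exact hu.not_isUnit (isUnit_of_dvd_unit h6 h7)
      · exact h6
    · exact absurd h5 hh

end Pool.Agent.LogCentres
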