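import Pool.Agent.LogCentres.IrrIso
import Pool.Agent.LogCentres.IrrDvd
import Pool.Agent.LogCentres.OrbOpen
import Pool.Agent.PlanarCentres.Cofactor

/-!
# A centre on an invariant algebraic curve is an isolated point of the curve
-/

namespace Pool.Agent.LogCentres

open MvPolynomial Pool.Agent.PlanarCentres Topology

/-- an orbit through a zero of an invariant polynomial consists of zeros -/
theorem orbit_zero {P Q u K : R} (hK : P * pderiv 0 u + Q * pderiv 1 u = K * u)
    {γ : ℝ → Fin 2 → ℝ} (hγ : IsSolution P Q γ) (h0 : eval (γ 0) u = 0) (t : ℝ) :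
    eval (γ t) u = 0 := by
  have hγc : Continuous γ := continuous_iff_continuousAt.2 fun s => (hγ s).continuousAt
  have hkc : Continuous fun s => eval (γ s) K := (MvPolynomial.continuous_eval K).comp hγc
  set k : ℝ → ℝ := fun s => eval (γ s) K with hk
  have hI : ∀ s, HasDerivAt (fun s => ∫ v in (0 : ℝ)..s, k v) (k s) s := fun s =>
    (hkc.integral_hasStrictDerivAt 0 s).hasDerivAt
  have hu : ∀ s, HasDerivAt (fun s => eval (γ s) u) (k s * eval (γ s) u) s := by
    intro s
    refine (hasDerivAt_eval u (hγ s)).congr_deriv ?_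
    have h2 := congrArg (eval (γ s)) hK
    simp only [map_add, map_mul] at h2
    simp only [Matrix.cons_val_zero, Matrix.cons_val_one, hk]
    linear_combination h2
  have hw : ∀ s, HasDerivAt (fun s => eval (γ s) u * Real.exp (-∫ v in (0 : ℝ)..s, k v)) 0 s := by
    intro s
    refine ((hu s).mul ((hI s).neg.exp)).congr_deriv ?_
    ring
  have hc : eval (γ t) u * Real.exp (-∫ v in (0 : ℝ)..t, k v) =
      eval (γ 0) u * Real.exp (-∫ v in (0 : ℝ)..0, k v) :=
    is_const_of_deriv_eq_zero (f := fun s => eval (γ s) u * Real.exp (-∫ v in (0 : ℝ)..s, k v))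
      (fun s => (hw s).differentiableAt) (fun s => (hw s).deriv) t 0
  rw [h0, zero_mul] at hc
  exact (mul_eq_zero.1 hc).resolve_right (Real.exp_pos _).ne'

/-- a closed orbit consisting of zeros of `u` has points where the partial derivatives vanish -/
theorem orbit_touch {P Q u : R} {γ : ℝ → Fin 2 → ℝ} (hγ : IsPeriodicOrbit P Q γ)
    (h0 : ∀ t, eval (γ t) u = 0) (k : Fin 2) : ∃ t, eval (γ t) (pderiv k u) = 0 := by
  obtain ⟨l, hl⟩ : ∃ l : Fin 2, l ≠ k := ⟨1 - k, by fin_cases k <;> decide⟩
  have hcomp : IsCompact (Set.range γ) := orbit_compact hγ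
  obtain ⟨z, ⟨t, rfl⟩, hz⟩ := hcomp.exists_isMaxOn (Set.range_nonempty γ)
    (continuous_apply l).continuousOn
  have hloc : IsLocalMax (fun s => γ s l) t := Filter.Eventually.of_forall fun s => hz ⟨s, rfl⟩
  have hd : HasDerivAt (fun s => γ s l) (![eval (γ t) P, eval (γ t) Q] l) t :=
    hasDerivAt_pi.mp (hγ.1 t) l
  have h1 := hloc.hasDerivAt_eq_zero hd
  have hu : HasDerivAt (fun s => eval (γ s) u)
    (eval (γ t) (pderiv 0 u) * eval (γ t) P + eval (γ t) (pderiv 1 u) * eval (γ t) Q) t := by
    have := hasDerivAt_eval u (hγ.1 t)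
    simpa using this
  have h2 : eval (γ t) (pderiv 0 u) * eval (γ t) P +
      eval (γ t) (pderiv 1 u) * eval (γ t) Q = 0 := by
    have h3 : (fun s => eval (γ s) u) = fun _ => 0 := funext h0
    rw [h3] at hu
    exact hu.unique (hasDerivAt_const t 0)
  have hne := orbit_ne hγ t
  refine ⟨t, ?_⟩
  fin_cases k
  · have hl1 : l = 1 := by fin_cases l <;> simp_all
    subst hl1
    have h4 : eval (γ t) Q = 0 := by simpa using h1
    rw [h4] at h2 hne
    have h5 : eval (γ t) P ≠ 0 := by
      rcases hne with h | h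
      · exact h
      · exact absurd rfl h
    rw [mul_zero, add_zero] at h2
    exact (mul_eq_zero.1 h2).resolve_right h5
  · have hl1 : l = 0 := by fin_cases l <;> simp_all
    subst hl1
    have h4 : eval (γ t) P = 0 := by simpa using h1
    rw [h4] at h2 hne
    have h5 : eval (γ t) Q ≠ 0 := by
      rcases hne with h | h
      · exact absurd rfl h
      · exact h
    rw [mul_zero, zero_add] at h2
    exact (mul_eq_zero.1 h2).resolve_right h5

theorem irr_invariant_isolated {P Q : R} {p : Fin 2 → ℝ} (hc : IsCentre P Q p) {u K : R}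
    (hu : Irreducible u) (hK : P * pderiv 0 u + Q * pderiv 1 u = K * u) :
    ∀ᶠ q in 𝓝[≠] p, eval q u ≠ 0 := by
  have hk : ∃ k : Fin 2, pderiv k u ≠ 0 := by
    by_contra hcon
    push Not at hcon
    have hC : u = C (coeff 0 u) := by
      ext s
      rw [coeff_C]
      split_ifs with h
      · rw [h]
      · obtain ⟨k, hk⟩ : ∃ k : Fin 2, s k ≠ 0 := by
          by_contra hno
          push Not at hno
          exact h (Finsupp.ext fun k => by rw [hno k]; rfl)
        have h1 := congrArg (coeff (s - Finsupp.single k 1)) (hcon k)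
        rw [coeff_pderiv, coeff_zero] at h1
        have h2 : s - Finsupp.single k 1 + Finsupp.single k 1 = s :=
          tsub_add_cancel_of_le (Finsupp.single_le_iff.2 (Nat.one_le_iff_ne_zero.2 hk))
        rw [h2] at h1
        have h3 : (((s - Finsupp.single k 1 : Fin 2 →₀ ℕ) k : ℝ) + 1) ≠ 0 := by positivity
        exact (mul_eq_zero.1 h1).resolve_right h3
    rw [hC] at hu
    have h0 : coeff 0 u ≠ 0 := by
      intro h
      rw [h, C_0] at hu
      exact hu.ne_zero rfl
    exact hu.not_isUnit ((isUnit_iff_ne_zero.2 h0).map C)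
  obtain ⟨k, hk⟩ := hk
  have hW : {q | q ≠ p → ¬ (eval q u = 0 ∧ eval q (pderiv k u) = 0)} ∈ 𝓝 p :=
    eventually_nhdsWithin_iff.1 (irr_isolated hu k hk p)
  obtain ⟨U, hU, hUW, hq⟩ := hc.2.2 _ hW
  rw [eventually_nhdsWithin_iff]
  filter_upwards [hU] with q hqU hqp hq0
  obtain ⟨γ, hγ, hγ0, hγU⟩ := hq q hqU hqp
  have hz : ∀ t, eval (γ t) u = 0 := orbit_zero hK hγ.1 (by rw [hγ0]; exact hq0)
  obtain ⟨t, ht⟩ := orbit_touch hγ hz k
  exact hUW (hγU t).1 (hγU t).2 ⟨hz t, ht⟩

/-- a centre on an invariant algebraic curve is an isolated point of the curve -/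
theorem invariant_isolated {P Q : R} {p : Fin 2 → ℝ} (hc : IsCentre P Q p) {f K : R} (hf : f ≠ 0)
    (hK : P * pderiv 0 f + Q * pderiv 1 f = K * f) : ∀ᶠ q in 𝓝[≠] p, eval q f ≠ 0 := by
  classical
  obtain ⟨s, hs, hsa⟩ := UniqueFactorizationMonoid.exists_prime_factors f hf
  have h1 : ∀ u ∈ s, ∀ᶠ q in 𝓝[≠] p, eval q u ≠ 0 := by
    intro u hus
    have hu : Irreducible u := (hs u hus).irreducible
    have hd : u ∣ f := (Multiset.dvd_prod hus).trans hsa.dvd
    obtain ⟨L, hL⟩ := irr_dvd hf hK hu hd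
    exact irr_invariant_isolated hc hu (K := L) (by rw [hL, mul_comm])
  have h2 : ∀ t : Multiset R, (∀ u ∈ t, ∀ᶠ q in 𝓝[≠] p, eval q u ≠ 0) →
      ∀ᶠ q in 𝓝[≠] p, eval q t.prod ≠ 0 := by
    intro t
    induction t using Multiset.induction_on with
    | empty => intro _; simp
    | cons a t ih =>
      intro h
      have ha := h a (Multiset.mem_cons_self a t)
      have ht := ih fun u hu => h u (Multiset.mem_cons_of_mem hu)
      filter_upwards [ha, ht] with q h3 h4
      rw [Multiset.prod_cons, map_mul]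
      exact mul_ne_zero h3 h4
  obtain ⟨v, hv⟩ := hsa
  filter_upwards [h2 s h1] with q hq
  rw [← hv, map_mul]
  refine mul_ne_zero hq ?_
  exact (v.isUnit.map (eval q)).ne_zero

end Pool.Agent.LogCentres
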