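import Pool.Agent.LogCentres.ExtB
import Pool.Agent.LogCentres.InvIso
import Pool.Agent.LogCentres.ExpInv
import Pool.Agent.LogCentres.CentExt2
import Pool.Agent.LogCentres.ExpC

/-!
# All centres
-/

namespace Pool.Agent.LogCentres

open MvPolynomial Pool.Agent.PlanarCentres Topology

open Classical in
/-- the product of the factors with zero exponents -/
noncomputable def trivF {ι : Type} (f : ι → R) (lam : ι → ℝ) (nn : ι → ℕ) (i : ι) : R :=
  if Nontriv lam nn i then 1 else f i

theorem trivF_mul {ι : Type} (f : ι → R) (lam : ι → ℝ) (nn : ι → ℕ) (i : ι) :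
    trivF f lam nn i * redF f lam nn i = f i := by
  by_cases hi : Nontriv lam nn i
  · rw [trivF, if_pos hi, redF_pos hi, one_mul]
  · rw [trivF, if_neg hi, redF_neg hi, mul_one]

theorem logD_redF {ι : Type} [Fintype ι] [DecidableEq ι] (f : ι → R) (lam : ι → ℝ)
    (nn : ι → ℕ) (a : ι → ℝ) (ha : ∀ i, ¬ Nontriv lam nn i → a i = 0) (l : Fin 2) :
    logD f a l = (∏ i, trivF f lam nn i) * logD (redF f lam nn) a l := by
  rw [logD, logD, Finset.mul_sum]
  refine Finset.sum_congr rfl fun i _ => ?_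
  by_cases hi : Nontriv lam nn i
  · have h1 : ∏ j ∈ Finset.univ.erase i, f j =
        (∏ j ∈ Finset.univ.erase i, trivF f lam nn j) *
          ∏ j ∈ Finset.univ.erase i, redF f lam nn j := by
      rw [← Finset.prod_mul_distrib]
      exact Finset.prod_congr rfl fun j _ => (trivF_mul f lam nn j).symm
    have h2 : ∏ j, trivF f lam nn j = ∏ j ∈ Finset.univ.erase i, trivF f lam nn j := by
      rw [← Finset.mul_prod_erase _ _ (Finset.mem_univ i), trivF, if_pos hi, one_mul]
    rw [h1, h2, redF_pos hi, mul_smul_comm]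
    congr 1
    ring
  · rw [ha i hi, zero_smul, zero_smul, mul_zero]

theorem expD_redF {ι : Type} [Fintype ι] [DecidableEq ι] (f : ι → R) (lam : ι → ℝ)
    (nn : ι → ℕ) (g : R) (l : Fin 2) :
    expD f lam nn g l = (∏ i, trivF f lam nn i) * expD (redF f lam nn) lam nn g l := by
  have h1 : ∏ i, f i ^ nn i = ∏ i, redF f lam nn i ^ nn i := by
    refine Finset.prod_congr rfl fun i _ => ?_
    by_cases hi : Nontriv lam nn i
    · rw [redF_pos hi]
    · have h1 : nn i = 0 := by
        by_contra h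
        exact hi (Or.inr h)
      rw [h1, pow_zero, pow_zero]
  have h2 : ∏ i, f i = (∏ i, trivF f lam nn i) * ∏ i, redF f lam nn i := by
    rw [← Finset.prod_mul_distrib]
    exact Finset.prod_congr rfl fun j _ => (trivF_mul f lam nn j).symm
  have h3 := logD_redF f lam nn lam (fun i hi => by
    by_contra h
    exact hi (Or.inl h)) l
  have h4 := logD_redF f lam nn (fun i => (nn i : ℝ)) (fun i hi => by
    have h : nn i = 0 := by
      by_contra h
      exact hi (Or.inr h)
    rw [h, Nat.cast_zero]) l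
  rw [expD, expD, h1, h2, h3, h4]
  ring

/-- a centre is a strict local extremum, or an isolated point of the curves -/
theorem centre_cases {ι : Type} [Fintype ι] [DecidableEq ι] (f : ι → R) (lam : ι → ℝ)
    (nn : ι → ℕ) (g : R) (hf : ∀ i, f i ≠ 0) {p : Fin 2 → ℝ}
    (hc : IsCentre (expD f lam nn g 1) (-expD f lam nn g 0) p) :
    ((∀ i, Nontriv lam nn i → eval p (f i) ≠ 0) ∧
      ((∀ᶠ q in 𝓝[≠] p, expH f lam nn g q < expH f lam nn g p) ∨
        ∀ᶠ q in 𝓝[≠] p, expH f lam nn g p < expH f lam nn g q)) ∨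
      ((∃ i, Nontriv lam nn i ∧ eval p (f i) = 0) ∧
        ∀ᶠ q in 𝓝[≠] p, ∀ i, Nontriv lam nn i → eval q (f i) ≠ 0) := by
  by_cases hall : ∀ i, Nontriv lam nn i → eval p (f i) ≠ 0
  · left
    refine ⟨hall, ?_⟩
    set F := redF f lam nn with hF
    have hH : expH F lam nn g = expH f lam nn g := expH_redF f lam nn g
    rw [← hH]
    have hpF : p ∈ {x : Fin 2 → ℝ | ∀ i, eval x (F i) ≠ 0} := redF_ne_zero.2 hall
    refine centre_extremum2 (P := expD f lam nn g 1) (Q := -expD f lam nn g 0)
      (H := expH F lam nn g)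
      (V := fun x => eval x (∏ i, trivF f lam nn i) *
        ((∏ i, eval x (F i) ^ nn i) * ∏ i, eval x (F i))) (isOpen_ne F) hpF ?_ ?_ ?_ hc
    · intro x hx
      refine ContDiffAt.contDiffWithinAt ?_
      have h1 : expH F lam nn g = fun y => logF F lam y + eval y g / eval y (∏ i, F i ^ nn i) := by
        funext y; rw [expH, map_prod]; simp only [map_pow]
      rw [h1]
      refine (logF_contDiffAt F lam hx).add ?_
      refine (contDiff_evalC g).contDiffAt.div (contDiff_evalC _).contDiffAt ?_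
      rw [map_prod]
      exact Finset.prod_ne_zero_iff.2 fun i _ => by rw [map_pow]; exact pow_ne_zero _ (hx i)
    · intro x hx
      rw [expD_redF, map_mul, fderiv_expH F lam nn g hx 1]
      ring
    · intro x hx
      rw [map_neg, expD_redF, map_mul, fderiv_expH F lam nn g hx 0]
      ring
  · right
    push Not at hall
    obtain ⟨i₀, hi₀, hz⟩ := hall
    refine ⟨⟨i₀, hi₀, hz⟩, ?_⟩
    rw [Filter.eventually_all]
    intro i
    obtain ⟨K, hK⟩ := expD_inv f lam nn g i
    exact (invariant_isolated hc (hf i) hK).mono fun q hq _ => hq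

theorem all_bound {ι : Type} [Fintype ι] [DecidableEq ι] (f : ι → R) (lam : ι → ℝ)
    (nn : ι → ℕ) (g : R) (hf : ∀ i, f i ≠ 0) {n : ℕ}
    (hn : ∑ i, (f i).totalDegree +
      max g.totalDegree (∑ i, nn i * (f i).totalDegree) ≤ n + 1)
    (S : Finset (Fin 2 → ℝ))
    (hS : ∀ p ∈ S, IsCentre (expD f lam nn g 1) (-expD f lam nn g 0) p ∨
      ((∀ i, Nontriv lam nn i → eval p (f i) ≠ 0) ∧
        ((∀ᶠ q in 𝓝[≠] p, expH f lam nn g q < expH f lam nn g p) ∨
          ∀ᶠ q in 𝓝[≠] p, expH f lam nn g p < expH f lam nn g q)) ∨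
      ((∃ i, Nontriv lam nn i ∧ eval p (f i) = 0) ∧
        ∀ᶠ q in 𝓝[≠] p, ∀ i, Nontriv lam nn i → eval q (f i) ≠ 0)) :
    2 * S.card ≤ n ^ 2 + 1 := by
  refine ext_bound f lam nn g hn S fun p hp => ?_
  rcases hS p hp with h | h
  · exact centre_cases f lam nn g hf h
  · exact h

end Pool.Agent.LogCentres
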