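import Pool.Agent.LogCentres.Defs3

/-!
# The mean of a polynomial and of a translate
-/

namespace Pool.Agent.LogCentres

open MvPolynomial Pool.Agent.PlanarCentres

/-- the mean of `f (x, y)` and of `f (x + ε, y)` -/
noncomputable def avg (ε : ℝ) (f : R) : R := C (1 / 2) * (f + shear 0 ε f)

end Pool.Agent.LogCentres
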