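import Pool.Agent.LogCentres.AvDefs
import Pool.Agent.LogCentres.CentExt

/-!
# The mean of a polynomial with an isolated zero and of its translate has no zero near that zero
-/

namespace Pool.Agent.LogCentres

open MvPolynomial Topology

theorem eval_avg (ε : ℝ) (f : R) (x : Fin 2 → ℝ) :
    eval x (avg ε f) = (eval x f + eval ![x 0 + ε, x 1] f) / 2 := by
  have h1 : eval x (shear 0 ε f) = eval ![x 0 + ε, x 1] f := by
    rw [shear, PlanarCentres.eval_sub']
    congr 1
    have h2 : PlanarCentres.aff ![![1, 0], ![0, 1]] ![ε, 0] x = ![x 0 + ε, x 1] := by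
      funext i
      fin_cases i
      · simp [PlanarCentres.aff]
        ring
      · simp [PlanarCentres.aff]
    rw [h2]
  rw [avg, map_mul, map_add, eval_C, h1]
  ring

theorem totalDegree_avg (ε : ℝ) (f : R) : (avg ε f).totalDegree ≤ f.totalDegree := by
  have h1 : (f + shear 0 ε f).totalDegree ≤ f.totalDegree :=
    (totalDegree_add _ _).trans (max_le le_rfl (PlanarCentres.totalDegree_sub' _ _ le_rfl))
  refine (totalDegree_mul _ _).trans ?_
  rw [totalDegree_C, zero_add]
  exact h1

theorem continuous_avg (f : R) :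
    Continuous fun z : ℝ × (Fin 2 → ℝ) => eval z.2 (avg z.1 f) := by
  have h1 : (fun z : ℝ × (Fin 2 → ℝ) => eval z.2 (avg z.1 f)) =
      fun z => (eval z.2 f + eval ![z.2 0 + z.1, z.2 1] f) / 2 := by
    funext z
    exact eval_avg z.1 f z.2
  rw [h1]
  have h2 : Continuous fun z : ℝ × (Fin 2 → ℝ) => (![z.2 0 + z.1, z.2 1] : Fin 2 → ℝ) := by
    refine continuous_pi fun i => ?_
    fin_cases i
    · have h3 : Continuous fun z : ℝ × (Fin 2 → ℝ) => z.2 0 :=
        (continuous_apply (0 : Fin 2)).comp continuous_snd
      exact h3.add continuous_fst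
    · have h3 : Continuous fun z : ℝ × (Fin 2 → ℝ) => z.2 1 :=
        (continuous_apply (1 : Fin 2)).comp continuous_snd
      exact h3
  exact (((MvPolynomial.continuous_eval f).comp continuous_snd).add
    ((MvPolynomial.continuous_eval f).comp h2)).div_const 2

theorem avg_ne_compact {f : R} {K : Set (Fin 2 → ℝ)} (hK : IsCompact K)
    (h : ∀ x ∈ K, eval x f ≠ 0) :
    ∀ᶠ ε in 𝓝 (0 : ℝ), ∀ x ∈ K, eval x (avg ε f) ≠ 0 := by
  refine hK.eventually_forall_of_forall_eventually fun x hx => ?_
  have h1 : eval x (avg 0 f) ≠ 0 := by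
    rw [eval_avg, add_zero]
    have h2 : (![x 0, x 1] : Fin 2 → ℝ) = x := by
      funext i
      fin_cases i <;> rfl
    rw [h2, add_self_div_two]
    exact h x hx
  exact (continuous_avg f).continuousAt.eventually_ne h1

theorem avg_ne {f : R} {p : Fin 2 → ℝ} {r : ℝ} (hr : 0 < r)
    (h : ∀ x ∈ Metric.closedBall p r, x ≠ p → eval x f ≠ 0) :
    ∀ᶠ ε in 𝓝[>] (0 : ℝ), ∀ x ∈ Metric.closedBall p r, eval x (avg ε f) ≠ 0 := by
  by_cases hp : eval p f = 0
  swap
  · refine nhdsWithin_le_nhds (avg_ne_compact (isCompact_closedBall p r) fun x hx => ?_)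
    by_cases hxp : x = p
    · rwa [hxp]
    · exact h x hx hxp
  · -- the sign of `f` on the punctured ball
    have hS : ∀ x ∈ Metric.ball p r \ {p}, eval x f ≠ 0 := fun x hx =>
      h x (Metric.ball_subset_closedBall hx.1) fun e => hx.2 e
    have hsign : (∀ x ∈ Metric.ball p r \ {p}, 0 < eval x f) ∨
        ∀ x ∈ Metric.ball p r \ {p}, eval x f < 0 := by
      by_contra hcon
      push Not at hcon
      obtain ⟨⟨a, ha, ha0⟩, ⟨b, hb, hb0⟩⟩ := hcon
      obtain ⟨c, hc, hc0⟩ := (punctured_preconnected p hr).intermediate_value ha hb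
        (MvPolynomial.continuous_eval f).continuousOn ⟨ha0, hb0⟩
      exact hS c hc hc0
    have hK : IsCompact (Metric.closedBall p r \ Metric.ball p (r / 2)) :=
      (isCompact_closedBall p r).diff Metric.isOpen_ball
    have h1 := nhdsWithin_le_nhds (s := Set.Ioi (0 : ℝ)) (avg_ne_compact hK fun x hx =>
      h x hx.1 fun e => hx.2 (by rw [e]; exact Metric.mem_ball_self (by linarith)))
    have h2 : ∀ᶠ ε in 𝓝[>] (0 : ℝ), ε ∈ Set.Ioo (0 : ℝ) (r / 2) :=
      Ioo_mem_nhdsGT (by linarith)
    filter_upwards [h1, h2] with ε hε1 hε2 x hx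
    by_cases hx2 : x ∈ Metric.ball p (r / 2)
    swap
    · exact hε1 x ⟨hx, hx2⟩
    · set y : Fin 2 → ℝ := ![x 0 + ε, x 1] with hy
      have hxr : x ∈ Metric.ball p r := Metric.ball_subset_ball (by linarith) hx2
      have hyr : y ∈ Metric.ball p r := by
        rw [Metric.mem_ball, dist_pi_lt_iff hr]
        rw [Metric.mem_ball, dist_pi_lt_iff (by linarith)] at hx2
        intro i
        fin_cases i
        · have h3 := hx2 0
          rw [Real.dist_eq, abs_lt] at h3
          change dist (x 0 + ε) (p 0) < r
          rw [Real.dist_eq, abs_lt]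
          constructor
          · linarith [hε2.1, hε2.2, h3.1]
          · linarith [hε2.1, hε2.2, h3.2]
        · have h3 := hx2 1
          change dist (x 1) (p 1) < r
          linarith
      have hxy : x ≠ p ∨ y ≠ p := by
        by_contra hcon
        push Not at hcon
        have h3 := congrFun hcon.1 0
        have h4 := congrFun hcon.2 0
        rw [hy] at h4
        change x 0 + ε = p 0 at h4
        linarith [hε2.1]
      rw [eval_avg]
      rcases hsign with hs | hs
      · have key : ∀ z ∈ Metric.ball p r, 0 ≤ eval z f := by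
          intro z hz
          by_cases hzp : z = p
          · rw [hzp, hp]
          · exact (hs z ⟨hz, hzp⟩).le
        have hx0 := key x hxr
        have hy0 := key y hyr
        rcases hxy with h3 | h3
        · have h4 := hs x ⟨hxr, h3⟩
          exact (by linarith : 0 < (eval x f + eval y f) / 2).ne'
        · have h4 := hs y ⟨hyr, h3⟩
          exact (by linarith : 0 < (eval x f + eval y f) / 2).ne'
      · have key : ∀ z ∈ Metric.ball p r, eval z f ≤ 0 := by
          intro z hz
          by_cases hzp : z = p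
          · rw [hzp, hp]
          · exact (hs z ⟨hz, hzp⟩).le
        have hx0 := key x hxr
        have hy0 := key y hyr
        rcases hxy with h3 | h3
        · have h4 := hs x ⟨hxr, h3⟩
          exact (by linarith : (eval x f + eval y f) / 2 < 0).ne
        · have h4 := hs y ⟨hyr, h3⟩
          exact (by linarith : (eval x f + eval y f) / 2 < 0).ne

end Pool.Agent.LogCentres
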