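import Mathlib

/-!
# A limit
-/

namespace Pool.Agent.LogCentres

open Filter Topology

theorem blow_up (a l b : ℝ) (n : ℕ) (h : (n = 0 ∧ l ≠ 0) ∨ (n ≠ 0 ∧ b ≠ 0)) :
    Tendsto (fun t : ℝ => |a + l * Real.log |t| + b / t ^ n|) (𝓝[≠] 0) atTop := by
  have hlog : Tendsto (fun t : ℝ => Real.log |t|) (𝓝[≠] 0) atBot := by
    simp only [Real.log_abs]
    exact Real.tendsto_log_nhdsNE_zero
  rcases h with ⟨hn, hl⟩ | ⟨hn, hb⟩
  · subst hn
    simp only [pow_zero, div_one]
    rcases lt_or_gt_of_ne hl with hl | hl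
    · have h1 : Tendsto (fun t : ℝ => l * Real.log |t|) (𝓝[≠] 0) atTop :=
        hlog.const_mul_atBot_of_neg hl
      have h2 : Tendsto (fun t : ℝ => a + l * Real.log |t| + b) (𝓝[≠] 0) atTop :=
        tendsto_atTop_add_const_right _ _ (tendsto_atTop_add_const_left _ _ h1)
      exact tendsto_abs_atTop_atTop.comp h2
    · have h1 : Tendsto (fun t : ℝ => l * Real.log |t|) (𝓝[≠] 0) atBot :=
        hlog.const_mul_atBot hl
      have h2 : Tendsto (fun t : ℝ => a + l * Real.log |t| + b) (𝓝[≠] 0) atBot :=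
        tendsto_atBot_add_const_right _ _ (tendsto_atBot_add_const_left _ _ h1)
      exact tendsto_abs_atBot_atTop.comp h2
  · obtain ⟨m, rfl⟩ := Nat.exists_eq_succ_of_ne_zero hn
    have hid : Tendsto (fun t : ℝ => t) (𝓝[≠] 0) (𝓝 0) :=
      tendsto_nhdsWithin_of_tendsto_nhds tendsto_id
    have hpow : Tendsto (fun t : ℝ => t ^ (m + 1)) (𝓝[≠] 0) (𝓝 0) := by
      have := hid.pow (m + 1)
      simpa using this
    have htl : Tendsto (fun t : ℝ => t * Real.log t) (𝓝[≠] 0) (𝓝 0) := by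
      have h0 : Tendsto (fun t : ℝ => t * Real.log t) (𝓝 0) (𝓝 (0 * Real.log 0)) :=
        Real.continuous_mul_log.tendsto 0
      rw [zero_mul] at h0
      exact tendsto_nhdsWithin_of_tendsto_nhds h0
    have hmid : Tendsto (fun t : ℝ => t ^ m * (t * Real.log t)) (𝓝[≠] 0) (𝓝 0) := by
      have := (hid.pow m).mul htl
      simpa using this
    have hsum : Tendsto (fun t : ℝ => a * t ^ (m + 1) + l * (t ^ m * (t * Real.log t)) + b)
        (𝓝[≠] 0) (𝓝 b) := by
      have := ((hpow.const_mul a).add (hmid.const_mul l)).add_const b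
      simpa using this
    have habs : Tendsto (fun t : ℝ => |a * t ^ (m + 1) + l * (t ^ m * (t * Real.log t)) + b|)
        (𝓝[≠] 0) (𝓝 |b|) := hsum.abs
    have hinv : Tendsto (fun t : ℝ => |t ^ (m + 1)|⁻¹) (𝓝[≠] 0) atTop := by
      refine tendsto_inv_nhdsGT_zero.comp ?_
      rw [tendsto_nhdsWithin_iff]
      refine ⟨?_, ?_⟩
      · have := hpow.abs
        simpa using this
      · filter_upwards [self_mem_nhdsWithin] with t ht
        exact abs_pos.mpr (pow_ne_zero _ ht)
    have hmul := Filter.Tendsto.pos_mul_atTop (abs_pos.mpr hb) habs hinv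
    refine hmul.congr' ?_
    filter_upwards [self_mem_nhdsWithin] with t ht
    have ht' : t ≠ 0 := ht
    have hp : t ^ (m + 1) ≠ 0 := pow_ne_zero _ ht'
    rw [← abs_inv, ← abs_mul, Real.log_abs]
    congr 1
    field_simp
    ring

end Pool.Agent.LogCentres
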