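import Pool.Agent.LogCentres.Homk

/-!
# The vector field in the new chart
-/

namespace Pool.Agent.LogCentres

open MvPolynomial Pool.Agent.PlanarCentres

private theorem deg_pderiv {m : ℕ} (k : Fin 2) (f : R) (hf : f.totalDegree ≤ m + 1) :
    (pderiv k f).totalDegree ≤ m := by
  refine ind_deg (P := fun f => (pderiv k f).totalDegree ≤ m)
    (by simp) (fun f g h h' => by
      rw [map_add]; exact (totalDegree_add _ _).trans (max_le h h')) ?_ f hf
  intro s c hs
  rw [pderiv_monomial]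
  rcases Nat.eq_zero_or_pos (s k) with h | h
  · rw [h]; simp
  · refine (deg_mon _ _).trans ?_
    fin_cases k
    · simp only [Fin.zero_eta, Fin.isValue] at h
      simp
      omega
    · simp only [Fin.mk_one, Fin.isValue] at h
      simp
      omega

private theorem pderiv_deg_zero (k : Fin 2) (f : R) (hf : f.totalDegree ≤ 0) :
    pderiv k f = 0 := by
  rw [totalDegree_eq_zero_iff_eq_C.1 (Nat.le_zero.1 hf), pderiv_C]

private theorem homk_zero_deg (f : R) (hf : f.totalDegree ≤ 0) : homk 0 f = f := by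
  rw [totalDegree_eq_zero_iff_eq_C.1 (Nat.le_zero.1 hf)]
  change homk 0 (monomial 0 _) = monomial 0 _
  rw [homk_mon, mon_eq]
  simp

section

variable {ι κ : Type} [Fintype ι] [DecidableEq ι] [Fintype κ] [DecidableEq κ]
  {F : ι → R} {α : ι → ℝ} {G : κ → R} {dd : ι → ℕ} {ee : κ → ℕ} {N : ℕ}

omit [DecidableEq κ] in
private theorem hom_term (hF : ∀ i, (F i).totalDegree ≤ dd i)
    (hG : ∀ j, (G j).totalDegree ≤ ee j) (hN : ∑ i, dd i + ∑ j, ee j = N + 1) (i : ι) (p q : R)
    (h0 : dd i = 0 → p = 0 ∧ q = 0)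
    (h1 : ∀ k, dd i = k + 1 → q = homk k p ∧ p.totalDegree ≤ k) :
    (∏ j, homk (ee j) (G j)) * ((∏ j ∈ Finset.univ.erase i, homk (dd j) (F j)) * q) =
      homk N ((∏ j, G j) * ((∏ j ∈ Finset.univ.erase i, F j) * p)) := by
  rcases Nat.eq_zero_or_pos (dd i) with h | h
  · obtain ⟨rfl, rfl⟩ := h0 h
    rw [mul_zero, mul_zero, mul_zero, mul_zero, map_zero]
  · obtain ⟨k, hk⟩ : ∃ k, dd i = k + 1 := ⟨dd i - 1, by omega⟩
    obtain ⟨rfl, hp⟩ := h1 k hk
    have hsum : ∑ j ∈ Finset.univ.erase i, dd j + dd i = ∑ j, dd j :=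
      Finset.sum_erase_add _ _ (Finset.mem_univ i)
    have hNe : N = ∑ j, ee j + (∑ j ∈ Finset.univ.erase i, dd j + k) := by omega
    have hd1 : (∏ j ∈ Finset.univ.erase i, F j).totalDegree ≤
        ∑ j ∈ Finset.univ.erase i, dd j :=
      (totalDegree_finsetProd _ _).trans (Finset.sum_le_sum fun j _ => hF j)
    have hd2 : (∏ j, G j).totalDegree ≤ ∑ j, ee j :=
      (totalDegree_finsetProd _ _).trans (Finset.sum_le_sum fun j _ => hG j)
    rw [hNe, homk_mul hd2 ((totalDegree_mul _ _).trans (add_le_add hd1 hp)),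
      homk_mul hd1 hp, homk_prod _ _ _ (fun j _ => hF j), homk_prod _ _ _ (fun j _ => hG j)]

omit [DecidableEq κ] in
private theorem hom_logD1 (hF : ∀ i, (F i).totalDegree ≤ dd i)
    (hG : ∀ j, (G j).totalDegree ≤ ee j) (hN : ∑ i, dd i + ∑ j, ee j = N + 1) :
    (∏ j, homk (ee j) (G j)) * logD (fun i => homk (dd i) (F i)) α 1 =
      homk N ((∏ j, G j) * logD F α 1) := by
  unfold logD
  rw [Finset.mul_sum, Finset.mul_sum, map_sum]
  refine Finset.sum_congr rfl fun i _ => ?_
  rw [mul_smul_comm, mul_smul_comm, map_smul]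
  congr 1
  refine hom_term hF hG hN i _ _ ?_ ?_
  · intro h
    have h1 := hF i
    rw [h] at h1
    refine ⟨pderiv_deg_zero 1 _ h1, ?_⟩
    change pderiv 1 (homk (dd i) (F i)) = 0
    rw [h, homk_zero_deg _ h1]
    exact pderiv_deg_zero 1 _ h1
  · intro k hk
    have h1 := hF i
    rw [hk] at h1
    change pderiv 1 (homk (dd i) (F i)) = _ ∧ _
    rw [hk]
    exact ⟨pderiv1_homk _ h1, deg_pderiv 1 _ h1⟩

omit [DecidableEq κ] in
private theorem hom_logD0 (hF : ∀ i, (F i).totalDegree ≤ dd i)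
    (hG : ∀ j, (G j).totalDegree ≤ ee j) (hN : ∑ i, dd i + ∑ j, ee j = N + 1) :
    X 0 * ((∏ j, homk (ee j) (G j)) * logD (fun i => homk (dd i) (F i)) α 0) =
      C (∑ i, α i * dd i) * ((∏ i, homk (dd i) (F i)) * ∏ j, homk (ee j) (G j)) -
      X 1 * homk N ((∏ j, G j) * logD F α 1) - homk N ((∏ j, G j) * logD F α 0) := by
  rw [← hom_logD1 hF hG hN]
  unfold logD
  rw [Finset.mul_sum, Finset.mul_sum, Finset.mul_sum, Finset.mul_sum, Finset.mul_sum, map_sum,
    map_sum, Finset.sum_mul, ← Finset.sum_sub_distrib, ← Finset.sum_sub_distrib]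
  refine Finset.sum_congr rfl fun i _ => ?_
  have hterm := hom_term hF hG hN i (pderiv 0 (F i))
    (homk (dd i) (X 0 * pderiv 0 (F i))) (by
      intro h
      have h1 := hF i
      rw [h] at h1
      have h2 := pderiv_deg_zero 0 _ h1
      refine ⟨h2, ?_⟩
      rw [h2, mul_zero, map_zero]) (by
      intro k hk
      have h1 := hF i
      rw [hk] at h1
      have h2 := deg_pderiv 0 _ h1
      rw [hk]
      exact ⟨homk_X0_mul h2, h2⟩)
  have hprod : (∏ j, homk (dd j) (F j)) =
      homk (dd i) (F i) * ∏ j ∈ Finset.univ.erase i, homk (dd j) (F j) :=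
    (Finset.mul_prod_erase _ _ (Finset.mem_univ i)).symm
  rw [mul_smul_comm, mul_smul_comm, mul_smul_comm, mul_smul_comm, mul_smul_comm, map_smul,
    ← hterm, pderiv0_homk _ (hF i), hprod, C_mul, smul_eq_C_mul, smul_eq_C_mul, smul_eq_C_mul]
  ring

end

theorem chart_base {ι κ : Type} [Fintype ι] [DecidableEq ι] [Fintype κ] [DecidableEq κ]
    {F : ι → R} {α : ι → ℝ} {G : κ → R} {β : κ → ℝ} {dd : ι → ℕ} {ee : κ → ℕ} {N : ℕ}
    (hF : ∀ i, (F i).totalDegree ≤ dd i) (hG : ∀ j, (G j).totalDegree ≤ ee j)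
    (hN : ∑ i, dd i + ∑ j, ee j = N + 1) :
    XP (fun i => homk (dd i) (F i)) α (fun j => homk (ee j) (G j)) β = homk N (XP F α G β) ∧
    X 0 * XQ (fun i => homk (dd i) (F i)) α (fun j => homk (ee j) (G j)) β +
      C (∑ i, α i * dd i - ∑ j, β j * ee j) *
        ((∏ i, homk (dd i) (F i)) * ∏ j, homk (ee j) (G j)) =
      X 1 * homk N (XP F α G β) - homk N (XQ F α G β) := by
  have hN' : ∑ j, ee j + ∑ i, dd i = N + 1 := by rw [add_comm]; exact hN
  have e1 := hom_logD1 (α := α) hF hG hN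
  have e2 := hom_logD1 (α := β) hG hF hN'
  have e3 := hom_logD0 (α := α) hF hG hN
  have e4 := hom_logD0 (α := β) hG hF hN'
  constructor
  · unfold XP
    rw [map_sub, e1, e2]
  · unfold XP XQ
    rw [mul_sub, e3, e4]
    simp only [map_sub]
    ring

private theorem opt_prod {κ : Type} [Fintype κ] (G : κ → R) :
    (∏ o, optF G o) = X 0 * ∏ j, G j := by
  rw [Fintype.prod_option]
  rfl

private theorem opt_prod_none {κ : Type} [Fintype κ] [DecidableEq κ] (G : κ → R) :
    (∏ o ∈ Finset.univ.erase none, optF G o) = ∏ j, G j := by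
  have h1 : (Finset.univ.erase (none : Option κ)) = Finset.univ.map Function.Embedding.some := by
    ext o
    cases o <;> simp
  rw [h1, Finset.prod_map]
  rfl

private theorem opt_prod_some {κ : Type} [Fintype κ] [DecidableEq κ] (G : κ → R) (j : κ) :
    (∏ o ∈ Finset.univ.erase (some j), optF G o) = X 0 * ∏ l ∈ Finset.univ.erase j, G l := by
  have h1 : (Finset.univ.erase (some j : Option κ)) =
      insert none ((Finset.univ.erase j).map Function.Embedding.some) := by
    ext o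
    cases o <;> simp
  rw [h1, Finset.prod_insert (by simp), Finset.prod_map]
  rfl

private theorem opt_logD {κ : Type} [Fintype κ] [DecidableEq κ] (G : κ → R) (β : κ → ℝ) (D : ℝ)
    (k : Fin 2) : logD (optF G) (optV D β) k =
      D • ((∏ j, G j) * pderiv k (X 0)) + X 0 * logD G β k := by
  unfold logD
  rw [Fintype.sum_option, opt_prod_none, Finset.mul_sum]
  congr 1
  refine Finset.sum_congr rfl fun j _ => ?_
  rw [opt_prod_some, mul_smul_comm, ← mul_assoc]
  rfl

theorem opt_XP {ι κ : Type} [Fintype ι] [DecidableEq ι] [Fintype κ] [DecidableEq κ]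
    (F : ι → R) (α : ι → ℝ) (G : κ → R) (β : κ → ℝ) (D : ℝ) :
    XP F α (optF G) (optV D β) = X 0 * XP F α G β ∧
    XQ F α (optF G) (optV D β) = X 0 * XQ F α G β + C D * ((∏ i, F i) * ∏ j, G j) := by
  constructor
  · unfold XP
    rw [opt_prod, opt_logD, pderiv_X_of_ne (show (0 : Fin 2) ≠ 1 by decide)]
    simp only [mul_zero, smul_zero, zero_add]
    ring
  · unfold XQ
    rw [opt_prod, opt_logD, pderiv_X_self, mul_one, smul_eq_C_mul]
    ring

end Pool.Agent.LogCentres
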