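import Pool.Agent.LogCentres.DecE

/-!
# The Bezoutian on functionals killing low degrees
-/

namespace Pool.Agent.LogCentres

open MvPolynomial

/-- kernels of joint degree at most `n - c` -/
noncomputable def KK (c n : ℕ) : Submodule ℝ T :=
  Submodule.span ℝ {t | ∃ a b : R, a.totalDegree + b.totalDegree + c ≤ n ∧ t = ix a * iu b}

theorem KK.mul {c c' m n : ℕ} {s t : T} (hs : s ∈ KK c m) (ht : t ∈ KK c' n) :
    s * t ∈ KK (c + c') (m + n) := by
  refine Submodule.span_induction₂ (p := fun s t _ _ => s * t ∈ KK (c + c') (m + n))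
    ?_ ?_ ?_ ?_ ?_ ?_ ?_ hs ht
  · rintro _ _ ⟨a, b, h1, rfl⟩ ⟨a', b', h2, rfl⟩
    refine Submodule.subset_span ⟨a * a', b * b', ?_, ?_⟩
    · have h3 := totalDegree_mul a a'
      have h4 := totalDegree_mul b b'
      omega
    · rw [map_mul, map_mul]
      ring
  · intro y _
    rw [zero_mul]
    exact Submodule.zero_mem _
  · intro x _
    rw [mul_zero]
    exact Submodule.zero_mem _
  · intro x y z _ _ _ h1 h2
    rw [add_mul]
    exact Submodule.add_mem _ h1 h2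
  · intro x y z _ _ _ h1 h2
    rw [mul_add]
    exact Submodule.add_mem _ h1 h2
  · intro r x y _ _ h1
    rw [smul_mul_assoc]
    exact Submodule.smul_mem _ _ h1
  · intro r x y _ _ h1
    rw [mul_smul_comm]
    exact Submodule.smul_mem _ _ h1

theorem KK.ix_mul {c m k : ℕ} {t : T} {g : R} (hg : g.totalDegree ≤ k) (ht : t ∈ KK (c + k) m) :
    ix g * t ∈ KK c m := by
  refine Submodule.span_induction (p := fun t _ => ix g * t ∈ KK c m) ?_ ?_ ?_ ?_ ht
  · rintro _ ⟨a, b, h1, rfl⟩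
    refine Submodule.subset_span ⟨g * a, b, ?_, ?_⟩
    · have h3 := totalDegree_mul g a
      omega
    · rw [map_mul]
      ring
  · rw [mul_zero]
    exact Submodule.zero_mem _
  · intro x y _ _ h1 h2
    rw [mul_add]
    exact Submodule.add_mem _ h1 h2
  · intro r x _ h1
    rw [mul_smul_comm]
    exact Submodule.smul_mem _ _ h1

theorem KK.iu_mul {c m k : ℕ} {t : T} {g : R} (hg : g.totalDegree ≤ k) (ht : t ∈ KK c m) :
    iu g * t ∈ KK c (m + k) := by
  refine Submodule.span_induction (p := fun t _ => iu g * t ∈ KK c (m + k)) ?_ ?_ ?_ ?_ ht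
  · rintro _ ⟨a, b, h1, rfl⟩
    refine Submodule.subset_span ⟨a, g * b, ?_, ?_⟩
    · have h3 := totalDegree_mul g b
      omega
    · rw [map_mul]
      ring
  · rw [mul_zero]
    exact Submodule.zero_mem _
  · intro x y _ _ h1 h2
    rw [mul_add]
    exact Submodule.add_mem _ h1 h2
  · intro r x _ h1
    rw [mul_smul_comm]
    exact Submodule.smul_mem _ _ h1

theorem KK.anti {c c' m : ℕ} (h : c ≤ c') : KK c' m ≤ KK c m := by
  refine Submodule.span_mono ?_
  rintro _ ⟨a, b, h1, rfl⟩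
  exact ⟨a, b, by omega, rfl⟩

theorem exists_kk {f : R} {d : ℕ} (hf : f.totalDegree ≤ d) :
    ∃ A B : T, Ker f A B ∧ A ∈ KK 1 d ∧ B ∈ KK 1 d := by
  rcases Nat.eq_zero_or_pos d with rfl | hd
  · refine ⟨0, 0, ?_, Submodule.zero_mem _, Submodule.zero_mem _⟩
    have h1 : f = C (coeff 0 f) := by
      rw [← totalDegree_eq_zero_iff_eq_C]
      omega
    show ix f - iu f = e 0 * 0 + e 1 * 0
    have h2 : (C (coeff 0 f) : R) = algebraMap ℝ R (coeff 0 f) := rfl
    rw [h1, h2, AlgHom.commutes, AlgHom.commutes, sub_self, mul_zero, mul_zero, add_zero]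
  · obtain ⟨n, rfl⟩ : ∃ n, d = n + 1 := ⟨d - 1, by omega⟩
    obtain ⟨A, B, h⟩ := exists_dec hf
    have h1 : Fil n ≤ KK 1 (n + 1) := by
      refine Submodule.span_mono ?_
      rintro _ ⟨a, b, h1, rfl⟩
      exact ⟨a, b, by omega, rfl⟩
    exact ⟨A, B, h.eq, h1 h.memA, h1 h.memB⟩

theorem pair_ix_iu (φ ψ : R →ₗ[ℝ] ℝ) (a b : R) : pair φ ψ (ix a * iu b) = φ a * ψ b := by
  show φ (app ψ (ix a * iu b)) = _
  rw [app_ix_iu, map_smul, smul_eq_mul, mul_comm]

theorem kernel_top {P Q G P₁ Q₁ : R} {d : ℕ} (hG : G.totalDegree ≤ d)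
    (hP₁ : P₁.totalDegree ≤ d) (hQ₁ : Q₁.totalDegree ≤ d) (hP : P = X 0 * G + P₁)
    (hQ : Q = X 1 * G + Q₁) :
    ∃ A B C D : T, Ker P A B ∧ Ker Q C D ∧ ∀ φ : R →ₗ[ℝ] ℝ,
      (∀ p : R, p.totalDegree + 1 ≤ d → φ p = 0) → pair φ φ (A * D - B * C) = φ G ^ 2 := by
  obtain ⟨a, b, h0, ha, hb⟩ := exists_kk hG
  obtain ⟨a₁, b₁, h1, ha₁, hb₁⟩ := exists_kk hP₁
  obtain ⟨a₂, b₂, h2, ha₂, hb₂⟩ := exists_kk hQ₁
  have g0 : ix G - iu G = e 0 * a + e 1 * b := h0
  have g1 : ix P₁ - iu P₁ = e 0 * a₁ + e 1 * b₁ := h1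
  have g2 : ix Q₁ - iu Q₁ = e 0 * a₂ + e 1 * b₂ := h2
  have e0 : e 0 = ix (X 0) - iu (X 0) := rfl
  have e1 : e 1 = ix (X 1) - iu (X 1) := rfl
  refine ⟨iu G + ix (X 0) * a + a₁, ix (X 0) * b + b₁, ix (X 1) * a + a₂,
    iu G + ix (X 1) * b + b₂, ?_, ?_, ?_⟩
  · show ix P - iu P = _
    rw [hP, map_add, map_add, map_mul, map_mul]
    linear_combination ix (X 0) * g0 + g1 - iu G * e0
  · show ix Q - iu Q = _
    rw [hQ, map_add, map_add, map_mul, map_mul]
    linear_combination ix (X 1) * g0 + g2 - iu G * e1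
  · intro φ hφ
    have k1 : ∀ t ∈ KK 1 (d + d), pair φ φ t = 0 := by
      intro t ht
      refine Submodule.span_induction (p := fun t _ => pair φ φ t = 0) ?_ ?_ ?_ ?_ ht
      · rintro _ ⟨p, q, h3, rfl⟩
        rw [pair_ix_iu]
        by_cases h4 : p.totalDegree + 1 ≤ d
        · rw [hφ p h4, zero_mul]
        · rw [hφ q (by omega), mul_zero]
      · rw [map_zero]
      · intro x y _ _ h3 h4
        rw [map_add, h3, h4, add_zero]
      · intro r x _ h3
        rw [map_smul, h3, smul_zero]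
    have k2 : ∀ (r : R), ∀ t ∈ KK 1 d, pair φ φ (iu r * t) = 0 := by
      intro r t ht
      refine Submodule.span_induction (p := fun t _ => pair φ φ (iu r * t) = 0) ?_ ?_ ?_ ?_ ht
      · rintro _ ⟨p, q, h3, rfl⟩
        have h5 : iu r * (ix p * iu q) = ix p * iu (r * q) := by
          rw [map_mul]
          ring
        rw [h5, pair_ix_iu, hφ p (by omega), zero_mul]
      · rw [mul_zero, map_zero]
      · intro x y _ _ h3 h4
        rw [mul_add, map_add, h3, h4, add_zero]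
      · intro c x _ h3
        rw [mul_smul_comm, map_smul, h3, smul_zero]
    have hX : ∀ i : Fin 2, (X i : R).totalDegree ≤ 1 := fun i => (totalDegree_X i).le
    have m1 : iu G * b₂ ∈ KK 1 (d + d) := KK.iu_mul hG hb₂
    have m2 : iu G * a₁ ∈ KK 1 (d + d) := KK.iu_mul hG ha₁
    have m3 : ∀ (i : Fin 2) (s t : T), s ∈ KK 1 d → t ∈ KK 1 d →
        ix (X i) * (s * t) ∈ KK 1 (d + d) := fun i s t hs ht => KK.ix_mul (hX i) (KK.mul hs ht)
    have m4 : ∀ s t : T, s ∈ KK 1 d → t ∈ KK 1 d → s * t ∈ KK 1 (d + d) :=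
      fun s t hs ht => KK.anti (by omega) (KK.mul hs ht)
    have key : (iu G + ix (X 0) * a + a₁) * (iu G + ix (X 1) * b + b₂) -
        (ix (X 0) * b + b₁) * (ix (X 1) * a + a₂) =
        ix G * iu G + iu (G * X 0) * a + iu (G * X 1) * b + (iu G * b₂ + iu G * a₁ +
          ix (X 0) * (a * b₂) + ix (X 1) * (a₁ * b) - ix (X 0) * (b * a₂) -
          ix (X 1) * (b₁ * a) + a₁ * b₂ - b₁ * a₂) := by
      rw [map_mul, map_mul]
      rw [e0, e1] at g0
      linear_combination (-iu G) * g0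
    rw [key, map_add, map_add, map_add, pair_ix_iu, k2 _ a ha, k2 _ b hb]
    rw [k1 _ ?_]
    · ring
    · refine Submodule.sub_mem _ (Submodule.add_mem _ (Submodule.sub_mem _ (Submodule.sub_mem _
        (Submodule.add_mem _ (Submodule.add_mem _ (Submodule.add_mem _ m1 m2) (m3 0 _ _ ha hb₂))
        (m3 1 _ _ ha₁ hb)) (m3 0 _ _ hb ha₂)) (m3 1 _ _ hb₁ ha)) (m4 _ _ ha₁ hb₂))
        (m4 _ _ hb₁ ha₂)

end Pool.Agent.LogCentres
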