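import Pool.Agent.LogCentres.Jid

/-!
# The Bezoutian on evaluations
-/

namespace Pool.Agent.LogCentres

open MvPolynomial

/-- evaluation at a pair of points -/
noncomputable def pevE (s s' : Fin 2 → ℝ) : T →+* ℝ :=
  MvPolynomial.eval₂Hom (MvPolynomial.eval s' : R →+* ℝ) s

theorem pevE_ix (s s' : Fin 2 → ℝ) (a : R) : pevE s s' (ix a) = eval s a := by
  have h : ∀ a : R, ix a = MvPolynomial.map (algebraMap ℝ R) a := fun a => rfl
  rw [h, pevE, coe_eval₂Hom, eval₂_map]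
  have h2 : (MvPolynomial.eval s' : R →+* ℝ).comp (algebraMap ℝ R) = RingHom.id ℝ := by
    apply RingHom.ext
    intro r
    simp [algebraMap_eq]
  rw [h2]
  rfl

theorem pevE_iu (s s' : Fin 2 → ℝ) (b : R) : pevE s s' (iu b) = eval s' b := by
  have h : iu b = C b := rfl
  rw [h, pevE, coe_eval₂Hom, eval₂_C]

theorem ev_apply (s : Fin 2 → ℝ) (a : R) : ev s a = eval s a := by
  have h : ev s a = MvPolynomial.aeval s a := rfl
  rw [h, MvPolynomial.aeval_eq_eval]

theorem pair_ev_eq (s s' : Fin 2 → ℝ) (t : T) : pair (ev s) (ev s') t = pevE s s' t := by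
  obtain ⟨n, a, b, rfl⟩ := exists_sum t
  rw [map_sum, map_sum]
  refine Finset.sum_congr rfl fun i _ => ?_
  rw [(pevE s s').map_mul, pevE_ix, pevE_iu]
  change ev s (app (ev s') (ix (a i) * iu (b i))) = _
  rw [app_ix_iu, map_smul, ev_apply, ev_apply, smul_eq_mul, mul_comm]

theorem pevE_self (s : Fin 2 → ℝ) (t : T) : pevE s s t = eval s (mu t) := by
  obtain ⟨n, a, b, rfl⟩ := exists_sum t
  rw [map_sum, map_sum, map_sum]
  refine Finset.sum_congr rfl fun i _ => ?_
  rw [map_mul, map_mul, pevE_ix, pevE_iu, mu_ix, mu_iu, map_mul]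

theorem pevE_e (s s' : Fin 2 → ℝ) (i : Fin 2) : pevE s s' (e i) = s i - s' i := by
  rw [e, map_sub, pevE_ix, pevE_iu, eval_X, eval_X]

theorem e0_det {P Q : R} {A B C D : T} (h1 : Ker P A B) (h2 : Ker Q C D) :
    e 0 * (A * D - B * C) = (ix P - iu P) * D - (ix Q - iu Q) * B := by
  rw [Ker] at h1 h2
  rw [h1, h2]
  ring

theorem e1_det {P Q : R} {A B C D : T} (h1 : Ker P A B) (h2 : Ker Q C D) :
    e 1 * (A * D - B * C) = (ix Q - iu Q) * A - (ix P - iu P) * C := by
  rw [Ker] at h1 h2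
  rw [h1, h2]
  ring

theorem pair_ev_ev {P Q : R} {A B C D : T} (h1 : Ker P A B) (h2 : Ker Q C D)
    {s s' : Fin 2 → ℝ} (hP : eval s P = 0) (hQ : eval s Q = 0) (hP' : eval s' P = 0)
    (hQ' : eval s' Q = 0) (hs : s ≠ s') : pair (ev s) (ev s') (A * D - B * C) = 0 := by
  rw [pair_ev_eq]
  have k0 := congrArg (pevE s s') (e0_det h1 h2)
  have k1 := congrArg (pevE s s') (e1_det h1 h2)
  rw [map_mul, pevE_e, map_sub _ ((ix P - iu P) * D), map_mul, map_mul, map_sub _ (ix P),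
    map_sub _ (ix Q), pevE_ix, pevE_ix, pevE_iu, pevE_iu, hP, hQ, hP', hQ'] at k0
  rw [map_mul, pevE_e, map_sub _ ((ix Q - iu Q) * A), map_mul, map_mul, map_sub _ (ix P),
    map_sub _ (ix Q), pevE_ix, pevE_ix, pevE_iu, pevE_iu, hP, hQ, hP', hQ'] at k1
  by_contra hne
  refine hs (funext fun i => ?_)
  have k0' : s 0 - s' 0 = 0 := by
    rcases mul_eq_zero.1 (k0.trans (by ring)) with h | h
    · exact h
    · exact absurd h hne
  have k1' : s 1 - s' 1 = 0 := by
    rcases mul_eq_zero.1 (k1.trans (by ring)) with h | h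
    · exact h
    · exact absurd h hne
  fin_cases i
  · exact sub_eq_zero.1 k0'
  · exact sub_eq_zero.1 k1'

theorem pair_ev_self {P Q : R} {A B C D : T} (h1 : Ker P A B) (h2 : Ker Q C D)
    (s : Fin 2 → ℝ) : pair (ev s) (ev s) (A * D - B * C) = eval s (jacP P Q) := by
  obtain ⟨a0, a1⟩ := h1.mu_eq
  obtain ⟨b0, b1⟩ := h2.mu_eq
  rw [pair_ev_eq, pevE_self, map_sub, map_mul, map_mul, a0, a1, b0, b1, jacP]

/-- a functional which kills the multiples of `P` and `Q` in both variables -/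
theorem kill_det {P Q : R} {A B C D : T} (h1 : Ker P A B) (h2 : Ker Q C D) (L : T →ₗ[ℝ] ℝ)
    (hxP : ∀ w, L (ix P * w) = 0) (huP : ∀ w, L (iu P * w) = 0) (hxQ : ∀ w, L (ix Q * w) = 0)
    (huQ : ∀ w, L (iu Q * w) = 0) (f : R) : L ((ix f - iu f) * (A * D - B * C)) = 0 := by
  obtain ⟨a, b, hab⟩ := exists_ker f
  have hE : (ix f - iu f) * (A * D - B * C) =
      ix P * (a * D - b * C) - iu P * (a * D - b * C) + ix Q * (b * A - a * B) -
        iu Q * (b * A - a * B) := by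
    rw [Ker] at hab
    have k0 := e0_det h1 h2
    have k1 := e1_det h1 h2
    rw [hab]
    linear_combination a * k0 + b * k1
  rw [hE, map_sub, map_add, map_sub, hxP, huP, hxQ, huQ]
  ring

theorem app_zero (t : T) : app 0 t = 0 := by
  ext r
  rw [coeff_app]
  simp

theorem tw_kill {I : Ideal R} {m : R →ₗ[ℝ] ℝ} (hm : ∀ p ∈ I, m p = 0) {f : R} (hf : f ∈ I) :
    tw m f = 0 := by
  apply LinearMap.ext
  intro p
  exact hm _ (I.mul_mem_right p hf)

theorem app_smul (c : ℝ) (m : R →ₗ[ℝ] ℝ) (t : T) : app (c • m) t = c • app m t := by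
  ext r
  rw [coeff_app, coeff_smul, coeff_app]
  rfl

theorem tw_ev (s : Fin 2 → ℝ) (f : R) : tw (ev s) f = eval s f • ev s := by
  apply LinearMap.ext
  intro p
  change ev s (f * p) = eval s f * ev s p
  rw [ev_apply, ev_apply, map_mul]

theorem pair_ev_left {P Q : R} {A B C D : T} (h1 : Ker P A B) (h2 : Ker Q C D) {I : Ideal R}
    {m : R →ₗ[ℝ] ℝ} (hm : ∀ p ∈ I, m p = 0) (hPI : P ∈ I) (hQI : Q ∈ I) {f : R} (hf : f ∈ I)
    {s : Fin 2 → ℝ} (hP : eval s P = 0) (hQ : eval s Q = 0) (hs : eval s f ≠ 0) :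
    pair (ev s) m (A * D - B * C) = 0 := by
  have hx : ∀ g w, pair (ev s) m (ix g * w) = eval s g * pair (ev s) m w := by
    intro g w
    change ev s (app m (ix g * w)) = eval s g * ev s (app m w)
    rw [app_ix_mul, ev_apply, ev_apply, map_mul]
  have hu : ∀ g ∈ I, ∀ w, pair (ev s) m (iu g * w) = 0 := by
    intro g hg w
    change ev s (app m (iu g * w)) = 0
    rw [app_iu_mul, tw_kill hm hg, app_zero, map_zero]
  have h := kill_det h1 h2 (pair (ev s) m) (fun w => by rw [hx, hP, zero_mul])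
    (fun w => hu P hPI w) (fun w => by rw [hx, hQ, zero_mul]) (fun w => hu Q hQI w) f
  rw [sub_mul, map_sub, hx, hu f hf, sub_zero] at h
  exact (mul_eq_zero.1 h).resolve_left hs

theorem pair_ev_right {P Q : R} {A B C D : T} (h1 : Ker P A B) (h2 : Ker Q C D) {I : Ideal R}
    {m : R →ₗ[ℝ] ℝ} (hm : ∀ p ∈ I, m p = 0) (hPI : P ∈ I) (hQI : Q ∈ I) {f : R} (hf : f ∈ I)
    {s : Fin 2 → ℝ} (hP : eval s P = 0) (hQ : eval s Q = 0) (hs : eval s f ≠ 0) :
    pair m (ev s) (A * D - B * C) = 0 := by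
  have hu : ∀ g w, pair m (ev s) (iu g * w) = eval s g * pair m (ev s) w := by
    intro g w
    change m (app (ev s) (iu g * w)) = eval s g * m (app (ev s) w)
    rw [app_iu_mul, tw_ev, app_smul, map_smul, smul_eq_mul]
  have hx : ∀ g ∈ I, ∀ w, pair m (ev s) (ix g * w) = 0 := by
    intro g hg w
    change m (app (ev s) (ix g * w)) = 0
    rw [app_ix_mul]
    exact hm _ (I.mul_mem_right _ hg)
  have h := kill_det h1 h2 (pair m (ev s)) (fun w => hx P hPI w)
    (fun w => by rw [hu, hP, zero_mul]) (fun w => hx Q hQI w)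
    (fun w => by rw [hu, hQ, zero_mul]) f
  rw [sub_mul, map_sub, hu, hx f hf, zero_sub, neg_eq_zero] at h
  exact (mul_eq_zero.1 h).resolve_left hs

end Pool.Agent.LogCentres
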