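import Pool.Agent.LogCentres.Jid

/-!
# The Bezoutian on functionals killing an ideal
-/

namespace Pool.Agent.LogCentres

open MvPolynomial

/-- a kernel of a combination -/
private theorem ker_comb {f h U V : R} {A' B' C' D' a b c d : T} (h1 : Ker f A' B')
    (h2 : Ker h C' D') (hU : Ker U a b) (hV : Ker V c d) :
    Ker (f * U + h * V) (ix U * A' + ix V * C' + (iu f * a + iu h * c))
      (ix U * B' + ix V * D' + (iu f * b + iu h * d)) := by
  unfold Ker at *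
  rw [map_add, map_add, map_mul, map_mul, map_mul, map_mul]
  calc ix f * ix U + ix h * ix V - (iu f * iu U + iu h * iu V)
      = ix U * (ix f - iu f) + ix V * (ix h - iu h) + iu f * (ix U - iu U) +
          iu h * (ix V - iu V) := by ring
    _ = _ := by rw [h1, h2, hU, hV]; ring

private theorem J_le {f h P Q U₁ V₁ U₂ V₂ : R} (hP : P = f * U₁ + h * V₁)
    (hQ : Q = f * U₂ + h * V₂) : J P Q ≤ J f h := by
  have h1 : ix f ∈ J f h := Ideal.subset_span (by simp)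
  have h2 : ix h ∈ J f h := Ideal.subset_span (by simp)
  have h3 : iu f ∈ J f h := Ideal.subset_span (by simp)
  have h4 : iu h ∈ J f h := Ideal.subset_span (by simp)
  have key : ∀ U V : R, ix (f * U + h * V) ∈ J f h ∧ iu (f * U + h * V) ∈ J f h := by
    intro U V
    constructor
    · rw [map_add, map_mul, map_mul]
      exact Ideal.add_mem _ (Ideal.mul_mem_right _ _ h1) (Ideal.mul_mem_right _ _ h2)
    · rw [map_add, map_mul, map_mul]
      exact Ideal.add_mem _ (Ideal.mul_mem_right _ _ h3) (Ideal.mul_mem_right _ _ h4)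
  unfold J
  rw [Ideal.span_le]
  intro x hx
  simp only [Set.mem_insert_iff, Set.mem_singleton_iff] at hx
  rcases hx with rfl | rfl | rfl | rfl
  · rw [hP]
    exact (key U₁ V₁).1
  · rw [hQ]
    exact (key U₂ V₂).1
  · rw [hP]
    exact (key U₁ V₁).2
  · rw [hQ]
    exact (key U₂ V₂).2

theorem pair_ideal {f h P Q U₁ V₁ U₂ V₂ : R} (hP : P = f * U₁ + h * V₁)
    (hQ : Q = f * U₂ + h * V₂) {φ ψ : R →ₗ[ℝ] ℝ} (hφ : ∀ p ∈ Ideal.span {f, h}, φ p = 0)
    (hψ : ∀ p ∈ Ideal.span {f, h}, ψ p = 0) {A B C D A' B' C' D' : T} (h1 : Ker P A B)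
    (h2 : Ker Q C D) (h1' : Ker f A' B') (h2' : Ker h C' D') :
    pair φ ψ (A * D - B * C) =
      pair φ ψ (ix (U₁ * V₂ - V₁ * U₂) * (A' * D' - B' * C')) := by
  obtain ⟨a₁, b₁, hU₁⟩ := exists_ker U₁
  obtain ⟨c₁, d₁, hV₁⟩ := exists_ker V₁
  obtain ⟨a₂, b₂, hU₂⟩ := exists_ker U₂
  obtain ⟨c₂, d₂, hV₂⟩ := exists_ker V₂
  have k1 := ker_comb h1' h2' hU₁ hV₁
  have k2 := ker_comb h1' h2' hU₂ hV₂
  rw [← hP] at k1
  rw [← hQ] at k2
  have h3 := J_le hP hQ (det_indep h1 h2 k1 k2)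
  have hf : iu f ∈ J f h := Ideal.subset_span (by simp)
  have hh : iu h ∈ J f h := Ideal.subset_span (by simp)
  have h4 := Ideal.add_mem _
    (Ideal.mul_mem_right ((ix U₁ * A' + ix V₁ * C') * b₂ + a₁ * (ix U₂ * B' + ix V₂ * D') +
      a₁ * (iu f * b₂ + iu h * d₂) - (ix U₁ * B' + ix V₁ * D') * a₂ -
      b₁ * (ix U₂ * A' + ix V₂ * C') - b₁ * (iu f * a₂ + iu h * c₂)) _ hf)
    (Ideal.mul_mem_right ((ix U₁ * A' + ix V₁ * C') * d₂ + c₁ * (ix U₂ * B' + ix V₂ * D') +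
      c₁ * (iu f * b₂ + iu h * d₂) - (ix U₁ * B' + ix V₁ * D') * c₂ -
      d₁ * (ix U₂ * A' + ix V₂ * C') - d₁ * (iu f * a₂ + iu h * c₂)) _ hh)
  have h5 := pair_J hφ hψ (Ideal.add_mem _ h3 h4)
  rw [← sub_eq_zero, ← map_sub]
  rw [← h5]
  congr 1
  rw [map_sub, map_mul, map_mul]
  ring

end Pool.Agent.LogCentres
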