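import Pool.Agent.LogCentres.Jid

/-!
# Residue functionals
-/

namespace Pool.Agent.LogCentres

open MvPolynomial

private theorem mem_l (f h p : R) : p * f ∈ Ideal.span {f, h} :=
  Ideal.mul_mem_left _ _ (Ideal.subset_span (by simp))

private theorem mem_r (f h p : R) : p * h ∈ Ideal.span {f, h} :=
  Ideal.mul_mem_left _ _ (Ideal.subset_span (by simp))

private theorem ker_factor {F f' : R} {A B a b : T} (h1 : Ker F A B) (h2 : Ker f' a b) :
    Ker (F * f') (A * iu f' + ix F * a) (B * iu f' + ix F * b) := by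
  unfold Ker at *
  rw [map_mul, map_mul]
  linear_combination (iu f') * h1 + (ix F) * h2

theorem res_factor {F f' G h' : R} {m : R →ₗ[ℝ] ℝ} (hm : Res (F * f') (G * h') m) :
    Res F G (tw m (f' * h')) := by
  have hle : Ideal.span {F * f', G * h'} ≤ Ideal.span {F, G} := by
    rw [Ideal.span_le]
    intro x hx
    simp only [Set.mem_insert_iff, Set.mem_singleton_iff] at hx
    rcases hx with rfl | rfl
    · rw [mul_comm]
      exact mem_l F G f'
    · rw [mul_comm]
      exact mem_r F G h'
  constructor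
  · intro p hp
    obtain ⟨x, y, hxy⟩ := Ideal.mem_span_pair.mp hp
    show m ((f' * h') * p) = 0
    apply hm.kill
    rw [← hxy]
    have : (f' * h') * (x * F + y * G) = (x * h') * (F * f') + (y * f') * (G * h') := by ring
    rw [this]
    exact Ideal.add_mem _ (mem_l _ _ _) (mem_r _ _ _)
  · intro A B C D h1 h2
    obtain ⟨a, b, h3⟩ := exists_ker f'
    obtain ⟨c, d, h4⟩ := exists_ker h'
    have key := hm.one _ _ _ _ (ker_factor h1 h3) (ker_factor h2 h4)
    have e1 : (A * iu f' + ix F * a) * (D * iu h' + ix G * d) -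
        (B * iu f' + ix F * b) * (C * iu h' + ix G * c) =
        iu (f' * h') * (A * D - B * C) +
          ix F * (a * (D * iu h' + ix G * d) - b * (C * iu h' + ix G * c)) +
          ix G * (A * iu f' * d - B * iu f' * c) := by
      rw [map_mul]
      ring
    rw [e1, map_add, map_add, app_iu_mul, app_ix_mul, app_ix_mul] at key
    have key' := hle key
    set X := app m (a * (D * iu h' + ix G * d) - b * (C * iu h' + ix G * c))
    set Y := app m (A * iu f' * d - B * iu f' * c)
    have e2 : app (tw m (f' * h')) (A * D - B * C) - 1 =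
        (app (tw m (f' * h')) (A * D - B * C) + F * X + G * Y - 1) - (X * F + Y * G) := by ring
    rw [e2]
    exact Ideal.sub_mem _ key' (Ideal.add_mem _ (mem_l _ _ _) (mem_r _ _ _))

theorem res_repr {f h : R} {m : R →ₗ[ℝ] ℝ} (hm : Res f h m) {A B C D : T} (h1 : Ker f A B)
    (h2 : Ker h C D) (u : R) : app m (iu u * (A * D - B * C)) - u ∈ Ideal.span {f, h} := by
  have k1 := app_J hm.kill (det_move h1 h2 u)
  rw [sub_mul, map_sub, app_ix_mul] at k1
  have k2 := Ideal.mul_mem_left _ u (hm.one A B C D h1 h2)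
  have e1 : app m (iu u * (A * D - B * C)) - u =
      u * (app m (A * D - B * C) - 1) -
        (u * app m (A * D - B * C) - app m (iu u * (A * D - B * C))) := by ring
  rw [e1]
  exact Ideal.sub_mem _ k2 k1

theorem res_pair {f h : R} {m : R →ₗ[ℝ] ℝ} (hm : Res f h m) {A B C D : T} (h1 : Ker f A B)
    (h2 : Ker h C D) (u u' w : R) :
    pair (tw m u) (tw m u') (ix w * (A * D - B * C)) = m (w * (u * u')) := by
  show m (u * app (tw m u') (ix w * (A * D - B * C))) = m (w * (u * u'))
  rw [app_ix_mul, ← app_iu_mul, ← sub_eq_zero, ← map_sub]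
  apply hm.kill
  have e1 : u * (w * app m (iu u' * (A * D - B * C))) - w * (u * u') =
      (u * w) * (app m (iu u' * (A * D - B * C)) - u') := by ring
  rw [e1]
  exact Ideal.mul_mem_left _ _ (res_repr hm h1 h2 u')

theorem res_const {f h : R} {m : R →ₗ[ℝ] ℝ} (hm : Res f h m) {a b : ℕ}
    (hf : f.totalDegree ≤ a + 1) (hh : h.totalDegree ≤ b + 1) (u : R)
    (hu : ∀ p : R, p.totalDegree + 1 ≤ a + b → m (u * p) = 0) :
    ∃ c : ℝ, u - C c ∈ Ideal.span {f, h} := by
  obtain ⟨A, B, h1⟩ := exists_dec hf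
  obtain ⟨C', D, h2⟩ := exists_dec hh
  have hΔ : A * D - B * C' ∈ Fil (a + b) :=
    Submodule.sub_mem _ (Fil_mul h1.memA h2.memB) (Fil_mul h1.memB h2.memA)
  have hc : ∀ t ∈ Fil (a + b), ∃ c : ℝ, app (tw m u) t = C c := by
    intro t ht
    unfold Fil at ht
    induction ht using Submodule.span_induction with
    | mem t ht =>
      obtain ⟨p, q, hd, rfl⟩ := ht
      rw [app_ix_iu]
      rcases Nat.lt_or_ge q.totalDegree (a + b) with hlt | hge
      · refine ⟨0, ?_⟩
        show m (u * q) • p = C 0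
        rw [hu q (by omega), zero_smul, map_zero]
      · have hp : p.totalDegree = 0 := by omega
        rw [totalDegree_eq_zero_iff_eq_C] at hp
        refine ⟨tw m u q * coeff 0 p, ?_⟩
        rw [hp, smul_eq_C_mul, ← C_mul, coeff_C]
        simp
    | zero => exact ⟨0, by rw [map_zero, map_zero]⟩
    | add s t _ _ hs ht =>
      obtain ⟨c, hc⟩ := hs
      obtain ⟨d, hd⟩ := ht
      exact ⟨c + d, by rw [map_add, hc, hd, map_add]⟩
    | smul r t _ ht =>
      obtain ⟨c, hc⟩ := ht
      exact ⟨r * c, by rw [map_smul, hc, smul_eq_C_mul, ← C_mul]⟩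
  obtain ⟨c, hc'⟩ := hc _ hΔ
  refine ⟨c, ?_⟩
  have k := res_repr hm h1.eq h2.eq u
  rw [app_iu_mul, hc'] at k
  have e1 : u - C c = -(C c - u) := by ring
  rw [e1]
  exact Submodule.neg_mem _ k

end Pool.Agent.LogCentres
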