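import Pool.Agent.LogCentres.RealSub
import Pool.Agent.LogCentres.KTop
import Pool.Agent.LogCentres.PairEv
import Pool.Agent.LogCentres.PairId
import Pool.Agent.LogCentres.ResC
import Pool.Agent.PlanarCentres.Curve

/-!
# The count
-/

namespace Pool.Agent.LogCentres

open MvPolynomial

theorem app_add (m m' : R →ₗ[ℝ] ℝ) (t : T) : app (m + m') t = app m t + app m' t := by
  ext s
  rw [coeff_add, coeff_app, coeff_app, coeff_app, LinearMap.add_apply]

theorem app_sum {ι : Type*} (S : Finset ι) (m : ι → R →ₗ[ℝ] ℝ) (t : T) :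
    app (∑ i ∈ S, m i) t = ∑ i ∈ S, app (m i) t := by
  ext s
  rw [coeff_sum, coeff_app, LinearMap.sum_apply]
  exact Finset.sum_congr rfl fun i _ => (coeff_app _ _ _).symm

theorem exists_low (d : ℕ) : ∃ W : Submodule ℝ R,
    (∀ p : R, p.totalDegree + 1 ≤ d → p ∈ W) ∧ Module.finrank ℝ W = d * (d + 1) / 2 ∧
      Module.Finite ℝ W := by
  rcases d with _ | k
  · exact ⟨⊥, fun p hp => absurd hp (by omega), by simp, inferInstance⟩
  · have h := PlanarCentres.finrank_deg k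
    refine ⟨restrictTotalDegree (Fin 2) ℝ k, fun p hp => ?_, h, ?_⟩
    · rw [mem_restrictTotalDegree]
      omega
    · refine Module.finite_of_finrank_pos ?_
      rw [h]
      have h2 : 1 * 2 ≤ (k + 1) * (k + 2) := Nat.mul_le_mul (by omega) (by omega)
      omega

/-- the final count -/
theorem count {d : ℕ} (S : Finset (Fin 2 → ℝ)) {P Q G P₁ Q₁ f h U₁ V₁ U₂ V₂ : R}
    {m : R →ₗ[ℝ] ℝ} (hG : G.totalDegree ≤ d) (hP₁ : P₁.totalDegree ≤ d)
    (hQ₁ : Q₁.totalDegree ≤ d) (hP : P = X 0 * G + P₁) (hQ : Q = X 1 * G + Q₁)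
    (hP' : P = f * U₁ + h * V₁) (hQ' : Q = f * U₂ + h * V₂)
    (hS : ∀ s ∈ S, eval s P = 0 ∧ eval s Q = 0 ∧ 0 < eval s (jacP P Q) ∧
      (eval s f ≠ 0 ∨ eval s h ≠ 0))
    (hm : Res f h m) [Module.Finite ℝ (R ⧸ Ideal.span {f, h})]
    (hpos : ∀ u : R, (∀ χ : (R ⧸ Ideal.span {f, h}) →ₐ[ℝ] ℂ,
      (χ (Ideal.Quotient.mk _ u)).im = 0) → 0 ≤ m ((U₁ * V₂ - V₁ * U₂) * (u * u)))
    (hone : 0 < m (U₁ * V₂ - V₁ * U₂))
    (hconst : ∀ u : R, (∀ p : R, p.totalDegree + 1 ≤ d → m (u * p) = 0) →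
      ∃ c : ℝ, u - C c ∈ Ideal.span {f, h}) :
    2 * S.card + Module.finrank ℝ (R ⧸ Ideal.span {f, h}) ≤ d * (d + 1) + 2 := by
  classical
  by_contra hcon
  obtain ⟨n, L, hn, hL⟩ := exists_real_subspace (R ⧸ Ideal.span {f, h})
  obtain ⟨W, hW, hWr, hWf⟩ := exists_low d
  -- a linear section
  obtain ⟨σ, hσ⟩ := LinearMap.exists_rightInverse_of_surjective
    (Ideal.Quotient.mkₐ ℝ (Ideal.span {f, h})).toLinearMap
    (LinearMap.range_eq_top.2 (Ideal.Quotient.mkₐ_surjective ℝ _))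
  have hσ' : ∀ x, Ideal.Quotient.mk (Ideal.span {f, h}) (σ x) = x := fun x => by
    have h1 := LinearMap.congr_fun hσ x
    simpa using h1
  -- the functional
  let φ : ((S → ℝ) × (R ⧸ Ideal.span {f, h})) →ₗ[ℝ] (R →ₗ[ℝ] ℝ) :=
    { toFun := fun v => ∑ s, v.1 s • ev s.1 + tw m (σ v.2)
      map_add' := fun v w => by
        refine LinearMap.ext fun p => ?_
        simp only [Prod.fst_add, Pi.add_apply, Prod.snd_add, map_add, tw, LinearMap.add_apply,
          LinearMap.sum_apply, LinearMap.smul_apply, LinearMap.comp_apply,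
          LinearMap.mulLeft_apply, add_mul, add_smul, Finset.sum_add_distrib]
        ring
      map_smul' := fun c v => by
        refine LinearMap.ext fun p => ?_
        simp only [Prod.smul_fst, Pi.smul_apply, Prod.smul_snd, map_smul, tw,
          LinearMap.add_apply, LinearMap.sum_apply, LinearMap.smul_apply, LinearMap.comp_apply,
          LinearMap.mulLeft_apply, smul_mul_assoc, smul_eq_mul, RingHom.id_apply, mul_add,
          Finset.mul_sum, mul_assoc] }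
  have hφ : ∀ v, φ v = ∑ s, v.1 s • ev s.1 + tw m (σ v.2) := fun v => rfl
  let Ψ : ((S → ℝ) × (R ⧸ Ideal.span {f, h})) →ₗ[ℝ] ((W →ₗ[ℝ] ℝ) × ℝ × (Fin n → ℝ)) :=
    ((LinearMap.lcomp ℝ ℝ W.subtype).comp φ).prod
      (((LinearMap.applyₗ G).comp φ).prod (L.comp (LinearMap.snd ℝ _ _)))
  have hd2 : 2 * (d * (d + 1) / 2) = d * (d + 1) :=
    Nat.mul_div_cancel' (Nat.even_mul_succ_self d).two_dvd
  have hrank : Module.finrank ℝ ((W →ₗ[ℝ] ℝ) × ℝ × (Fin n → ℝ)) <
      Module.finrank ℝ ((S → ℝ) × (R ⧸ Ideal.span {f, h})) := by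
    rw [Module.finrank_prod, Module.finrank_prod, Module.finrank_prod, Module.finrank_self,
      Module.finrank_fintype_fun_eq_card, Module.finrank_fintype_fun_eq_card,
      Module.finrank_linearMap, hWr, Module.finrank_self, Fintype.card_fin, Fintype.card_coe]
    omega
  obtain ⟨⟨w, x⟩, hv, hv0⟩ := Submodule.exists_mem_ne_zero_of_ne_bot
    (LinearMap.ker_ne_bot_of_finrank_lt (f := Ψ) hrank)
  have hΨ : Ψ (w, x) = 0 := LinearMap.mem_ker.1 hv
  have h1 : ∀ p : R, p.totalDegree + 1 ≤ d → φ (w, x) p = 0 := fun p hp =>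
    LinearMap.congr_fun (Prod.ext_iff.1 hΨ).1 ⟨p, hW p hp⟩
  have h2 : φ (w, x) G = 0 := (Prod.ext_iff.1 (Prod.ext_iff.1 hΨ).2).1
  have h3 : L x = 0 := (Prod.ext_iff.1 (Prod.ext_iff.1 hΨ).2).2
  obtain ⟨A, B, C', D, hA, hC, htop⟩ := kernel_top hG hP₁ hQ₁ hP hQ
  have h4 := htop (φ (w, x)) h1
  rw [h2] at h4
  set K : T := A * D - B * C' with hK
  -- the ideal
  have hfI : f ∈ Ideal.span {f, h} := Ideal.subset_span (by simp)
  have hhI : h ∈ Ideal.span {f, h} := Ideal.subset_span (by simp)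
  have hPI : P ∈ Ideal.span {f, h} := by
    rw [hP']
    exact Ideal.add_mem _ (Ideal.mul_mem_right _ _ hfI) (Ideal.mul_mem_right _ _ hhI)
  have hQI : Q ∈ Ideal.span {f, h} := by
    rw [hQ']
    exact Ideal.add_mem _ (Ideal.mul_mem_right _ _ hfI) (Ideal.mul_mem_right _ _ hhI)
  set u : R := σ x with hu
  have hmu : ∀ p ∈ Ideal.span {f, h}, tw m u p = 0 := fun p hp =>
    hm.kill _ (Ideal.mul_mem_left _ _ hp)
  obtain ⟨A', B', hA'⟩ := exists_ker f
  obtain ⟨C'', D', hC''⟩ := exists_ker h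
  have h5 : pair (tw m u) (tw m u) K = m ((U₁ * V₂ - V₁ * U₂) * (u * u)) := by
    rw [hK, pair_ideal hP' hQ' hmu hmu hA hC hA' hC'', res_pair hm hA' hC'']
  have h6 : ∀ s ∈ S, pair (ev s) (tw m u) K = 0 := fun s hs => by
    obtain ⟨hs1, hs2, -, hs3 | hs3⟩ := hS s hs
    · exact pair_ev_left hA hC hmu hPI hQI hfI hs1 hs2 hs3
    · exact pair_ev_left hA hC hmu hPI hQI hhI hs1 hs2 hs3
  have h7 : ∀ s ∈ S, pair (tw m u) (ev s) K = 0 := fun s hs => by
    obtain ⟨hs1, hs2, -, hs3 | hs3⟩ := hS s hs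
    · exact pair_ev_right hA hC hmu hPI hQI hfI hs1 hs2 hs3
    · exact pair_ev_right hA hC hmu hPI hQI hhI hs1 hs2 hs3
  have h8 : pair (φ (w, x)) (φ (w, x)) K =
      ∑ s : S, w s ^ 2 * eval s.1 (jacP P Q) + m ((U₁ * V₂ - V₁ * U₂) * (u * u)) := by
    have ha : app (φ (w, x)) K = ∑ s : S, w s • app (ev s.1) K + app (tw m u) K := by
      rw [hφ, app_add, app_sum]
      simp only [app_smul]
      rfl
    have hb : ∀ ψ : R →ₗ[ℝ] ℝ, pair ψ (φ (w, x)) K =
        ∑ s : S, w s * pair ψ (ev s.1) K + pair ψ (tw m u) K := fun ψ => by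
      change ψ (app (φ (w, x)) K) = _
      rw [ha, map_add, map_sum]
      simp only [map_smul, smul_eq_mul]
      rfl
    have hc : ∀ ψ : R →ₗ[ℝ] ℝ, pair (φ (w, x)) ψ K =
        ∑ s : S, w s * pair (ev s.1) ψ K + pair (tw m u) ψ K := fun ψ => by
      change φ (w, x) (app ψ K) = _
      rw [hφ, LinearMap.add_apply, LinearMap.sum_apply]
      rfl
    rw [hc, hb, h5]
    have hd : ∑ s : S, w s * pair (tw m u) (ev s.1) K = 0 :=
      Finset.sum_eq_zero fun s _ => by rw [h7 _ s.2, mul_zero]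
    rw [hd, zero_add]
    congr 1
    refine Finset.sum_congr rfl fun s _ => ?_
    rw [hb, h6 _ s.2, add_zero, Finset.sum_eq_single s, pair_ev_self hA hC]
    · ring
    · intro t _ hts
      obtain ⟨hs1, hs2, -, -⟩ := hS _ s.2
      obtain ⟨ht1, ht2, -, -⟩ := hS _ t.2
      rw [pair_ev_ev hA hC hs1 hs2 ht1 ht2 fun he => hts (Subtype.ext he.symm), mul_zero]
    · intro hs
      exact absurd (Finset.mem_univ _) hs
  rw [h8] at h4
  have h9 : 0 ≤ m ((U₁ * V₂ - V₁ * U₂) * (u * u)) := hpos u fun χ => by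
    rw [hu, hσ']
    exact hL x h3 χ
  have h10 : ∀ s : S, 0 ≤ w s ^ 2 * eval s.1 (jacP P Q) := fun s =>
    mul_nonneg (sq_nonneg _) (hS _ s.2).2.2.1.le
  have h11 : 0 ≤ ∑ s : S, w s ^ 2 * eval s.1 (jacP P Q) := Finset.sum_nonneg fun s _ => h10 s
  have h12 : ∑ s : S, w s ^ 2 * eval s.1 (jacP P Q) = 0 := by
    have : (0 : ℝ) ^ 2 = 0 := by norm_num
    linarith
  have h13 : m ((U₁ * V₂ - V₁ * U₂) * (u * u)) = 0 := by
    have : (0 : ℝ) ^ 2 = 0 := by norm_num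
    linarith
  have hw : w = 0 := by
    funext s
    have h14 := (Finset.sum_eq_zero_iff_of_nonneg fun s _ => h10 s).1 h12 s (Finset.mem_univ _)
    rcases mul_eq_zero.1 h14 with h15 | h15
    · simpa using h15
    · exact absurd h15 (hS _ s.2).2.2.1.ne'
  have h14 : ∀ p : R, p.totalDegree + 1 ≤ d → m (u * p) = 0 := fun p hp => by
    have h15 := h1 p hp
    rw [hφ, hw] at h15
    simpa [tw] using h15
  obtain ⟨c, hc⟩ := hconst u h14
  have h16 : m ((U₁ * V₂ - V₁ * U₂) * (u * u)) = c ^ 2 * m (U₁ * V₂ - V₁ * U₂) := by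
    have h17 : (U₁ * V₂ - V₁ * U₂) * (u * u) =
        (U₁ * V₂ - V₁ * U₂) * (u + C c) * (u - C c) + (c ^ 2) • (U₁ * V₂ - V₁ * U₂) := by
      rw [MvPolynomial.smul_eq_C_mul, C_pow]
      ring
    rw [h17, map_add, hm.kill _ (Ideal.mul_mem_left _ _ hc), zero_add, map_smul, smul_eq_mul]
  have hc0 : c = 0 := by
    rw [h16] at h13
    rcases mul_eq_zero.1 h13 with h17 | h17
    · simpa using h17
    · exact absurd h17 hone.ne'
  apply hv0
  have hx : x = 0 := by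
    rw [hc0, map_zero, sub_zero] at hc
    rw [← hσ' x]
    exact Ideal.Quotient.eq_zero_iff_mem.2 hc
  rw [hw, hx]
  rfl

end Pool.Agent.LogCentres
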