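import Pool.Agent.H53LS.Lb
import Pool.Agent.LogCentres.CsD

/-!
# Centres of systems with an affine involution as a symmetry
-/

namespace Pool.Agent.LogCentres

open MvPolynomial Pool.Agent.PlanarCentres

/-- all affine involutions -/
theorem card_involution {P Q : R} {n : ℕ} (hn : 1 ≤ n) (hP : P.totalDegree ≤ n)
    (hQ : Q.totalDegree ≤ n) (s : (Fin 2 → ℝ) →ᵃ[ℝ] (Fin 2 → ℝ)) (hinv : ∀ x, s (s x) = x)
    (hne : ∃ x, s x ≠ x) {e : ℝ} (he : e = 1 ∨ e = -1)
    (hX : ∀ x : Fin 2 → ℝ, (![eval (s x) P, eval (s x) Q] : Fin 2 → ℝ) =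
      e • s.linear ![eval x P, eval x Q])
    (S : Finset (Fin 2 → ℝ))
    (hS : ∀ p ∈ S, IsCentre P Q p ∧ (e = 1 ∨ (∀ x, s.linear x = -x) ∨ s p ≠ p)) :
    S.card ≤ (n ^ 2 + 1) / 2 := by
  classical
  have hsx : ∀ x : Fin 2 → ℝ, s x = s 0 + s.linear x := by
    intro x
    have h1 := s.map_vadd 0 x
    rw [vadd_eq_add, vadd_eq_add, add_zero] at h1
    rw [h1, add_comm]
  by_cases h2 : ∃ x, s.linear x ≠ -x
  · have h1 : ∃ x, s.linear x ≠ x := by
      by_contra hcon
      push Not at hcon
      have h3 : ∀ x, s x = s 0 + x := fun x => by rw [hsx, hcon]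
      have h4 : s 0 = 0 := by
        have h5 := hinv 0
        rw [h3 (s 0)] at h5
        funext i
        have h6 := congrFun h5 i
        simp only [Pi.add_apply, Pi.zero_apply] at h6 ⊢
        linarith
      obtain ⟨x, hx⟩ := hne
      apply hx
      rw [h3, h4, zero_add]
    obtain ⟨k1, k2⟩ := Pool.Agent.H53LS.line_main hn hP hQ s hinv h1 h2 he hX
    have h3 := k1 S (fun p hp => (hS p hp).1) (fun p hp => by
      rcases (hS p hp).2 with h | h | h
      · exact k2 h p (hS p hp).1
      · obtain ⟨x, hx⟩ := h2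
        exact absurd (h x) hx
      · exact h)
    omega
  · push Not at h2
    refine card_symm_all hn hP hQ ((1 / 2 : ℝ) • s 0) (e := -e) ?_ ?_ S
      (fun p hp => Or.inl (hS p hp).1)
    · rcases he with rfl | rfl
      · right; rfl
      · left; norm_num
    · intro x
      have h1 : (1 / 2 : ℝ) • s 0 + (1 / 2 : ℝ) • s 0 - x = s x := by
        rw [hsx x, h2, ← add_smul]
        norm_num
        rfl
      have h0 := congrFun (hX x) 0
      have h3 := congrFun (hX x) 1
      rw [h2] at h0 h3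
      rw [h1]
      have h4 : eval (s x) P = e * -eval x P := h0
      have h5 : eval (s x) Q = e * -eval x Q := h3
      rw [h4, h5]
      constructor <;> ring

end Pool.Agent.LogCentres
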