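import Pool.Agent.LogCentres.Defs2

/-!
# Functionals supported at a point and the local ideal
-/

namespace Pool.Agent.LogCentres

open MvPolynomial

/-- `δ` lies in `I + m ^ L` for all `L` -/
private theorem krl_mem {I : Ideal R} {p : Fin 2 → ℝ} {δ : R}
    (h : ∀ (ψ : R →ₗ[ℝ] ℝ) (L : ℕ), (∀ q ∈ I, ψ q = 0) →
      (∀ q ∈ (RingHom.ker (eval p : R →+* ℝ)) ^ L, ψ q = 0) → ψ δ = 0) (L : ℕ) :
    δ ∈ I ⊔ (RingHom.ker (eval p : R →+* ℝ)) ^ L := by
  by_contra hδ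
  have h1 : δ ∉ ((I ⊔ (RingHom.ker (eval p : R →+* ℝ)) ^ L : Ideal R).restrictScalars ℝ) := hδ
  obtain ⟨f, hf, hk⟩ := Submodule.exists_le_ker_of_notMem h1
  refine hf (h f L (fun q hq => ?_) (fun q hq => ?_))
  · exact hk (Ideal.mem_sup_left hq)
  · exact hk (Ideal.mem_sup_right hq)

theorem krull_fn {I : Ideal R} {p : Fin 2 → ℝ} {δ : R}
    (h : ∀ (ψ : R →ₗ[ℝ] ℝ) (L : ℕ), (∀ q ∈ I, ψ q = 0) →
      (∀ q ∈ (RingHom.ker (eval p : R →+* ℝ)) ^ L, ψ q = 0) → ψ δ = 0) :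
    ∃ s : R, eval p s ≠ 0 ∧ s * δ ∈ I := by
  set m : Ideal R := RingHom.ker (eval p : R →+* ℝ) with hm
  have hx : (Submodule.Quotient.mk δ : R ⧸ I) ∈
      (⨅ i : ℕ, m ^ i • ⊤ : Submodule R (R ⧸ I)) := by
    rw [Submodule.mem_iInf]
    intro L
    obtain ⟨a, ha, b, hb, hab⟩ := Submodule.mem_sup.1 (krl_mem h L)
    have h1 : (Submodule.Quotient.mk δ : R ⧸ I) = b • (Submodule.Quotient.mk 1 : R ⧸ I) := by
      rw [← Submodule.Quotient.mk_smul, smul_eq_mul, mul_one, ← hab]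
      rw [Submodule.Quotient.eq]
      simpa using ha
    rw [h1]
    exact Submodule.smul_mem_smul hb Submodule.mem_top
  obtain ⟨r, hr⟩ := (Ideal.mem_iInf_smul_pow_eq_bot_iff m _).1 hx
  refine ⟨1 - (r : R), ?_, ?_⟩
  · have h1 : eval p (r : R) = 0 := r.2
    rw [map_sub, map_one, h1, sub_zero]
    exact one_ne_zero
  · have h1 : (Submodule.Quotient.mk ((r : R) * δ) : R ⧸ I) = Submodule.Quotient.mk δ := by
      rw [← smul_eq_mul, Submodule.Quotient.mk_smul]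
      exact hr
    rw [Submodule.Quotient.eq] at h1
    have h2 : (1 - (r : R)) * δ = -((r : R) * δ - δ) := by ring
    rw [h2]
    exact I.neg_mem h1

end Pool.Agent.LogCentres
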