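import Pool.Agent.LogCentres.ReSoc
import Pool.Agent.LogCentres.ReKrull
import Pool.Agent.LogCentres.PairEv
import Pool.Agent.LogCentres.PairId
import Pool.Agent.LogCentres.ResC

/-!
# A functional at a zero which pairs nontrivially with the evaluation
-/

namespace Pool.Agent.LogCentres

open MvPolynomial

private theorem cb_app_ev (p : Fin 2 → ℝ) (t : T) :
    app (ev p) t = MvPolynomial.map (eval p : R →+* ℝ) t := by
  ext s
  rw [coeff_app, coeff_map, ev_apply]

private theorem cb_map_ix (p : Fin 2 → ℝ) (a : R) :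
    MvPolynomial.map (eval p : R →+* ℝ) (ix a) = a := by
  have h : ix a = MvPolynomial.map (algebraMap ℝ R) a := rfl
  rw [h, MvPolynomial.map_map]
  have h2 : (MvPolynomial.eval p : R →+* ℝ).comp (algebraMap ℝ R) = RingHom.id ℝ := by
    apply RingHom.ext
    intro r
    simp [algebraMap_eq]
  rw [h2, MvPolynomial.map_id]

private theorem cb_map_iu (p : Fin 2 → ℝ) (a : R) :
    MvPolynomial.map (eval p : R →+* ℝ) (iu a) = C (eval p a) := by
  rw [iu_eq, map_C]

private theorem cb_ev_ix (p : Fin 2 → ℝ) (a : R) :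
    (eval (fun i => (C (p i) : R)) : T →+* R) (ix a) = C (eval p a) := by
  have h : ix a = MvPolynomial.map (algebraMap ℝ R) a := rfl
  rw [h, eval_map]
  have h3 : eval p a = eval₂ (RingHom.id ℝ) p a := rfl
  rw [h3, MvPolynomial.hom_eval₂ a (RingHom.id ℝ) (C : ℝ →+* R) p]
  rfl

private theorem cb_ev_iu (p : Fin 2 → ℝ) (a : R) :
    (eval (fun i => (C (p i) : R)) : T →+* R) (iu a) = a := by
  rw [iu_eq, eval_C]

private theorem cb_pair_left (p : Fin 2 → ℝ) (ψ : R →ₗ[ℝ] ℝ) (t : T) :
    pair (ev p) ψ t = ψ ((eval (fun i => (C (p i) : R)) : T →+* R) t) := by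
  obtain ⟨n, a, b, rfl⟩ := exists_sum t
  rw [map_sum, map_sum, map_sum]
  refine Finset.sum_congr rfl fun i _ => ?_
  rw [map_mul (eval (fun i => (C (p i) : R)) : T →+* R), cb_ev_ix, cb_ev_iu]
  change ev p (app ψ (ix (a i) * iu (b i))) = _
  rw [app_ix_iu, map_smul, ev_apply, smul_eq_mul, ← MvPolynomial.smul_eq_C_mul, map_smul,
    smul_eq_mul, mul_comm]

private theorem cb_app_add (m m' : R →ₗ[ℝ] ℝ) (t : T) :
    app (m + m') t = app m t + app m' t := by
  ext s
  rw [coeff_add, coeff_app, coeff_app, coeff_app, LinearMap.add_apply]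

private theorem cb_pair_comb (c : ℝ) (m m' : R →ₗ[ℝ] ℝ) (t : T) :
    pair (c • m + m') (c • m + m') t =
      c ^ 2 * pair m m t + c * (pair m m' t + pair m' m t) + pair m' m' t := by
  have h : ∀ a b : R →ₗ[ℝ] ℝ, pair a b t = a (app b t) := fun _ _ => rfl
  rw [h, h, h, h, h, cb_app_add, app_smul, LinearMap.add_apply, LinearMap.smul_apply,
    map_add, map_add, map_smul, map_smul, smul_eq_mul, smul_eq_mul, smul_eq_mul]
  ring

private theorem cb_mapE (p : Fin 2 → ℝ) (i : Fin 2) :
    MvPolynomial.map (eval p : R →+* ℝ) (e i) = X i - C (p i) := by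
  rw [e, map_sub, cb_map_ix, cb_map_iu, eval_X]

private theorem cb_evE (p : Fin 2 → ℝ) (i : Fin 2) :
    (eval (fun i => (C (p i) : R)) : T →+* R) (e i) = C (p i) - X i := by
  rw [e, map_sub, cb_ev_ix, cb_ev_iu, eval_X]

private theorem cb_fac1 {P : R} {p : Fin 2 → ℝ} (hP : eval p P = 0) {A B : T} (h : Ker P A B) :
    P = (X 0 - C (p 0)) * MvPolynomial.map (eval p : R →+* ℝ) A +
      (X 1 - C (p 1)) * MvPolynomial.map (eval p : R →+* ℝ) B := by
  have k := congrArg (MvPolynomial.map (eval p : R →+* ℝ)) h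
  rw [map_sub, cb_map_ix, cb_map_iu, hP, map_add, map_mul, map_mul, cb_mapE, cb_mapE, C_0,
    sub_zero] at k
  exact k

private theorem cb_fac2 {P : R} {p : Fin 2 → ℝ} (hP : eval p P = 0) {A B : T} (h : Ker P A B) :
    P = (X 0 - C (p 0)) * (eval (fun i => (C (p i) : R)) : T →+* R) A +
      (X 1 - C (p 1)) * (eval (fun i => (C (p i) : R)) : T →+* R) B := by
  have k := congrArg (eval (fun i => (C (p i) : R)) : T →+* R) h
  rw [map_sub, cb_ev_ix, cb_ev_iu, hP, map_add, map_mul, map_mul, cb_evE, cb_evE, C_0] at k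
  linear_combination -k

theorem nondeg_fn {P Q : R} (hrel : IsRelPrime P Q) {p : Fin 2 → ℝ} (hP : eval p P = 0)
    (hQ : eval p Q = 0) {A B C D : T} (h1 : Ker P A B) (h2 : Ker Q C D) :
    ∃ (ψ : R →ₗ[ℝ] ℝ) (L : ℕ), (∀ q ∈ Ideal.span {P, Q}, ψ q = 0) ∧
      (∀ q ∈ (RingHom.ker (eval p : R →+* ℝ)) ^ L, ψ q = 0) ∧
      pair ψ (ev p) (A * D - B * C) ≠ 0 ∧
      pair (ev p) ψ (A * D - B * C) = pair ψ (ev p) (A * D - B * C) := by
  by_contra hcon
  have hd := det_two (cb_fac1 hP h1) (cb_fac1 hQ h2) (cb_fac2 hP h1) (cb_fac2 hQ h2)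
  obtain ⟨s, hs, hsI⟩ := krull_fn (I := Ideal.span {P, Q}) (p := p)
    (δ := MvPolynomial.map (eval p : R →+* ℝ) (A * D - B * C)) (by
      intro ψ L hψI hψm
      by_contra hne
      have e1 : pair ψ (ev p) (A * D - B * C) =
          ψ (MvPolynomial.map (eval p : R →+* ℝ) (A * D - B * C)) := by
        rw [← cb_app_ev]
        rfl
      have e2 : pair (ev p) ψ (A * D - B * C) =
          ψ (MvPolynomial.map (eval p : R →+* ℝ) (A * D - B * C)) := by
        rw [cb_pair_left]
        have h3 := hψI _ hd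
        rw [map_sub, sub_eq_zero] at h3
        have k1 : MvPolynomial.map (eval p : R →+* ℝ) (A * D - B * C) =
            MvPolynomial.map (eval p : R →+* ℝ) A * MvPolynomial.map (eval p : R →+* ℝ) D -
            MvPolynomial.map (eval p : R →+* ℝ) B * MvPolynomial.map (eval p : R →+* ℝ) C := by
          rw [map_sub, map_mul, map_mul]
        have k2 : (eval (fun i => (MvPolynomial.C (p i) : R)) : T →+* R) (A * D - B * C) =
            (eval (fun i => (MvPolynomial.C (p i) : R)) : T →+* R) A *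
              (eval (fun i => (MvPolynomial.C (p i) : R)) : T →+* R) D -
            (eval (fun i => (MvPolynomial.C (p i) : R)) : T →+* R) B *
              (eval (fun i => (MvPolynomial.C (p i) : R)) : T →+* R) C := by
          rw [map_sub, map_mul, map_mul]
        rw [k1, k2]
        exact h3.symm
      exact hcon ⟨ψ, L, hψI, hψm, by rw [e1]; exact hne, by rw [e1, e2]⟩)
  refine socle hrel (cb_fac1 hP h1) (cb_fac1 hQ h2) hs ?_
  rw [map_sub, map_mul, map_mul] at hsI
  exact hsI

end Pool.Agent.LogCentres
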