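import Pool.Agent.LogCentres.ReOrth
import Pool.Agent.LogCentres.CsB

/-!
# The reflection of the plane and the Bezoutian
-/

namespace Pool.Agent.LogCentres

open MvPolynomial

/-- the polynomial `p(-x)` -/
noncomputable def sg : R →ₐ[ℝ] R := aeval fun i => -X i

theorem sg_X (i : Fin 2) : sg (X i) = -X i := by simp [sg]

theorem sg_C (r : ℝ) : sg (C r) = C r := by simp [sg]

theorem sg_eval (x : Fin 2 → ℝ) (p : R) : eval x (sg p) = eval (-x) p := by
  induction p using MvPolynomial.induction_on with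
  | C a => rw [sg_C, eval_C, eval_C]
  | add p q hp hq => rw [map_add, map_add, map_add, hp, hq]
  | mul_X p i hp =>
    rw [map_mul, map_mul, map_mul, hp, sg_X, map_neg, eval_X, eval_X]
    rfl

theorem sg_sg (p : R) : sg (sg p) = p := by
  apply MvPolynomial.funext
  intro x
  rw [sg_eval, sg_eval, neg_neg]

/-- the reflection in both groups of variables -/
noncomputable def Sg : T →+* T :=
  eval₂Hom ((C : R →+* T).comp (sg : R →+* R)) (fun i => -X i)

theorem Sg_iu (b : R) : Sg (iu b) = iu (sg b) := by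
  rw [iu_eq, iu_eq, Sg, coe_eval₂Hom, eval₂_C]
  rfl

theorem ix_X (i : Fin 2) : ix (X i) = X i := by
  have h := ix_monomial (Finsupp.single i 1) 1
  rw [C_1] at h
  exact h

theorem ix_C (r : ℝ) : ix (C r) = iu (C r) := by
  have h := ix_monomial 0 r
  exact h

theorem Sg_ix (a : R) : Sg (ix a) = ix (sg a) := by
  induction a using MvPolynomial.induction_on with
  | C r => rw [sg_C, ix_C, Sg_iu, sg_C]
  | add p q hp hq => rw [map_add, map_add, hp, hq, map_add, map_add]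
  | mul_X p i hp =>
    rw [map_mul, map_mul, hp, map_mul, map_mul, sg_X, ix_X, map_neg, ix_X, Sg, coe_eval₂Hom,
      eval₂_X]

theorem Sg_e (i : Fin 2) : Sg (e i) = -e i := by
  rw [e, map_sub, Sg_ix, Sg_iu, sg_X, map_neg, map_neg]
  ring

/-- a functional composed with the reflection -/
noncomputable def rf (φ : R →ₗ[ℝ] ℝ) : R →ₗ[ℝ] ℝ := φ ∘ₗ sg.toLinearMap

theorem rf_apply (φ : R →ₗ[ℝ] ℝ) (p : R) : rf φ p = φ (sg p) := rfl

theorem rf_rf (φ : R →ₗ[ℝ] ℝ) : rf (rf φ) = φ := by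
  apply LinearMap.ext
  intro p
  rw [rf_apply, rf_apply, sg_sg]

theorem pair_rf (φ ψ : R →ₗ[ℝ] ℝ) (t : T) : pair (rf φ) (rf ψ) t = pair φ ψ (Sg t) := by
  obtain ⟨n, a, b, rfl⟩ := exists_sum t
  rw [map_sum, map_sum, map_sum]
  refine Finset.sum_congr rfl fun i _ => ?_
  rw [Sg.map_mul, Sg_ix, Sg_iu]
  change rf φ (app (rf ψ) (ix (a i) * iu (b i))) = φ (app ψ (ix (sg (a i)) * iu (sg (b i))))
  rw [app_ix_iu, app_ix_iu, map_smul, map_smul, rf_apply, rf_apply]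

/-- the reflection preserves the Bezoutian of a symmetric system -/
theorem pair_symm {P Q : R} {ε : ℝ} (hε : ε * ε = 1) (hP : sg P = C ε * P) (hQ : sg Q = C ε * Q)
    {A B C' D : T} (h1 : Ker P A B) (h2 : Ker Q C' D) {φ ψ : R →ₗ[ℝ] ℝ}
    (hφ : ∀ q ∈ Ideal.span {P, Q}, φ q = 0) (hψ : ∀ q ∈ Ideal.span {P, Q}, ψ q = 0) :
    pair (rf φ) (rf ψ) (A * D - B * C') = pair φ ψ (A * D - B * C') := by
  have hc : (iu (C ε) : T) * iu (C ε) = 1 := by
    rw [← map_mul, ← C_mul, hε, C_1, map_one]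
  have key : ∀ {F : R} {a b : T}, sg F = C ε * F → Ker F a b →
      Ker F (-(iu (C ε) * Sg a)) (-(iu (C ε) * Sg b)) := by
    intro F a b hF h
    have k := congrArg Sg h
    rw [map_sub, Sg_ix, Sg_iu, hF, map_mul, map_mul, ix_C, map_add, Sg.map_mul, Sg.map_mul,
      Sg_e, Sg_e] at k
    unfold Ker
    linear_combination (iu (C ε)) * k - (ix F - iu F) * hc
  have k1 := key hP h1
  have k2 := key hQ h2
  have h3 := pair_ideal (f := P) (h := Q) (P := P) (Q := Q) (U₁ := 1) (V₁ := 0) (U₂ := 0)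
    (V₂ := 1) (by ring) (by ring) hφ hψ k1 k2 h1 h2
  rw [pair_rf]
  have e1 : Sg (A * D - B * C') = -(iu (C ε) * Sg A) * -(iu (C ε) * Sg D) -
      -(iu (C ε) * Sg B) * -(iu (C ε) * Sg C') := by
    rw [map_sub, map_mul, map_mul]
    linear_combination (-(Sg A * Sg D - Sg B * Sg C')) * hc
  rw [e1, h3]
  congr 1
  rw [mul_one, mul_zero, sub_zero, map_one, one_mul]

/-- a functional which kills the ideal and is supported at a point -/
def Good (P Q : R) (p : Fin 2 → ℝ) (φ : R →ₗ[ℝ] ℝ) : Prop :=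
  (∀ q ∈ Ideal.span {P, Q}, φ q = 0) ∧
    ∃ L : ℕ, ∀ q ∈ (RingHom.ker (eval p : R →+* ℝ)) ^ L, φ q = 0

theorem good_orth {P Q : R} {A B C' D : T} (h1 : Ker P A B) (h2 : Ker Q C' D)
    {p q : Fin 2 → ℝ} (hpq : p ≠ q) {φ ψ : R →ₗ[ℝ] ℝ} (hφ : Good P Q p φ) (hψ : Good P Q q ψ) :
    pair φ ψ (A * D - B * C') = 0 := by
  obtain ⟨hφI, L, hφL⟩ := hφ
  obtain ⟨hψI, M, hψM⟩ := hψ
  obtain ⟨i, hi⟩ : ∃ i, p i ≠ q i := by
    by_contra hcon
    push Not at hcon
    exact hpq (funext hcon)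
  have hker : (X i - C (q i) : R) ∈ RingHom.ker (eval q : R →+* ℝ) := by
    rw [RingHom.mem_ker, map_sub, eval_X, eval_C, sub_self]
  refine (orth h1 h2 (p := p) (L := L) (φ := φ) (ψ := ψ)
    (I := Ideal.span {P, Q} ⊔ (RingHom.ker (eval q : R →+* ℝ)) ^ M) hφI hφL ?_
    (Ideal.mem_sup_left (Ideal.subset_span (by simp)))
    (Ideal.mem_sup_left (Ideal.subset_span (by simp)))
    (g := (X i - C (q i)) ^ M) (Ideal.mem_sup_right (Ideal.pow_mem_pow hker M)) ?_).1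
  · intro r hr
    obtain ⟨a, ha, b, hb, rfl⟩ := Submodule.mem_sup.1 hr
    rw [map_add, hψI a ha, hψM b hb, add_zero]
  · rw [map_pow, map_sub, eval_X, eval_C]
    exact pow_ne_zero _ (sub_ne_zero.2 hi)

theorem good_rf {P Q : R} {ε : ℝ} (hP : sg P = C ε * P) (hQ : sg Q = C ε * Q)
    {p : Fin 2 → ℝ} {φ : R →ₗ[ℝ] ℝ} (hφ : Good P Q p φ) : Good P Q (-p) (rf φ) := by
  obtain ⟨hφI, L, hφL⟩ := hφ
  refine ⟨?_, L, ?_⟩
  · intro q hq
    obtain ⟨a, b, rfl⟩ := Ideal.mem_span_pair.1 hq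
    rw [rf_apply]
    apply hφI
    rw [map_add, map_mul, map_mul, hP, hQ]
    exact Ideal.mem_span_pair.2 ⟨sg a * C ε, sg b * C ε, by ring⟩
  · intro q hq
    rw [rf_apply]
    apply hφL
    have h1 : RingHom.ker (eval (-p) : R →+* ℝ) ≤
        Ideal.comap (sg : R →+* R) (RingHom.ker (eval p : R →+* ℝ)) := by
      intro r hr
      rw [Ideal.mem_comap, RingHom.mem_ker]
      rw [RingHom.mem_ker] at hr
      change eval p (sg r) = 0
      rw [sg_eval]
      exact hr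
    have h2 := (Ideal.pow_right_mono h1 L).trans (Ideal.le_comap_pow (sg : R →+* R) L)
    exact h2 hq

theorem good_add {P Q : R} {p : Fin 2 → ℝ} {φ ψ : R →ₗ[ℝ] ℝ} (hφ : Good P Q p φ)
    (hψ : Good P Q p ψ) : Good P Q p (φ + ψ) := by
  obtain ⟨hφI, L, hφL⟩ := hφ
  obtain ⟨hψI, M, hψM⟩ := hψ
  refine ⟨fun q hq => ?_, max L M, fun q hq => ?_⟩
  · rw [LinearMap.add_apply, hφI q hq, hψI q hq, add_zero]
  · rw [LinearMap.add_apply, hφL q (Ideal.pow_le_pow_right (le_max_left L M) hq),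
      hψM q (Ideal.pow_le_pow_right (le_max_right L M) hq), add_zero]

theorem good_smul {P Q : R} {p : Fin 2 → ℝ} {φ : R →ₗ[ℝ] ℝ} (c : ℝ) (hφ : Good P Q p φ) :
    Good P Q p (c • φ) := by
  obtain ⟨hφI, L, hφL⟩ := hφ
  refine ⟨fun q hq => ?_, L, fun q hq => ?_⟩
  · rw [LinearMap.smul_apply, hφI q hq, smul_zero]
  · rw [LinearMap.smul_apply, hφL q hq, smul_zero]

theorem good_ev {P Q : R} {p : Fin 2 → ℝ} (hP : eval p P = 0) (hQ : eval p Q = 0) :
    Good P Q p (ev p) := by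
  refine ⟨fun q hq => ?_, 1, fun q hq => ?_⟩
  · obtain ⟨a, b, rfl⟩ := Ideal.mem_span_pair.1 hq
    rw [ev_apply, map_add, map_mul, map_mul, hP, hQ, mul_zero, mul_zero, add_zero]
  · rw [pow_one] at hq
    rw [ev_apply]
    exact hq

theorem pair_add_l (a b c : R →ₗ[ℝ] ℝ) (t : T) : pair (a + b) c t = pair a c t + pair b c t :=
  rfl

theorem pair_add_r (a b c : R →ₗ[ℝ] ℝ) (t : T) : pair a (b + c) t = pair a b t + pair a c t := by
  have h : app (b + c) t = app b t + app c t := by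
    ext s
    rw [coeff_add, coeff_app, coeff_app, coeff_app, LinearMap.add_apply]
  change a (app (b + c) t) = _
  rw [h, map_add]
  rfl

theorem pair_smul_l (r : ℝ) (a b : R →ₗ[ℝ] ℝ) (t : T) : pair (r • a) b t = r * pair a b t :=
  rfl

theorem pair_smul_r (r : ℝ) (a b : R →ₗ[ℝ] ℝ) (t : T) : pair a (r • b) t = r * pair a b t := by
  change a (app (r • b) t) = _
  rw [app_smul, map_smul, smul_eq_mul]
  rfl

/-- an even functional at the origin with positive square -/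
theorem even_fn {P Q : R} (hrel : IsRelPrime P Q) {ε : ℝ} (hε : ε * ε = 1)
    (hP : sg P = C ε * P) (hQ : sg Q = C ε * Q) {A B C' D : T} (h1 : Ker P A B)
    (h2 : Ker Q C' D) (hP0 : eval 0 P = 0) (hQ0 : eval 0 Q = 0)
    (hj : 0 ≤ eval (0 : Fin 2 → ℝ) (jacP P Q)) :
    ∃ φ : R →ₗ[ℝ] ℝ, Good P Q 0 φ ∧ rf φ = φ ∧ 0 < pair φ φ (A * D - B * C') := by
  have hev : rf (ev 0) = ev 0 := by
    apply LinearMap.ext
    intro p
    rw [rf_apply, ev_apply, ev_apply, sg_eval, neg_zero]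
  have hg0 : Good P Q 0 (ev 0) := good_ev hP0 hQ0
  rcases hj.lt_or_eq with hj | hj
  · refine ⟨ev 0, hg0, hev, ?_⟩
    rw [pair_ev_self h1 h2]
    exact hj
  · obtain ⟨ψ, L, hψI, hψL, hw, hsy⟩ := nondeg_fn hrel hP0 hQ0 h1 h2
    have hgψ : Good P Q 0 ψ := ⟨hψI, L, hψL⟩
    have hgr : Good P Q 0 (rf ψ) := by
      have := good_rf hP hQ hgψ
      rwa [neg_zero] at this
    obtain ⟨w, hwd⟩ : ∃ w, w = pair ψ (ev 0) (A * D - B * C') := ⟨_, rfl⟩
    rw [← hwd] at hw hsy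
    have w1 : pair (rf ψ) (ev 0) (A * D - B * C') = w := by
      rw [← hev, pair_symm hε hP hQ h1 h2 hψI hg0.1, hwd]
    have w2 : pair (ev 0) (rf ψ) (A * D - B * C') = w := by
      rw [← hev, pair_symm hε hP hQ h1 h2 hg0.1 hψI, hsy]
    obtain ⟨χ, hχ⟩ : ∃ χ, χ = ψ + rf ψ := ⟨_, rfl⟩
    obtain ⟨z, hz⟩ : ∃ z, z = pair χ χ (A * D - B * C') := ⟨_, rfl⟩
    refine ⟨((1 - z) / (4 * w)) • ev 0 + χ, good_add (good_smul _ hg0) (by rw [hχ]; exact good_add hgψ hgr), ?_, ?_⟩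
    · apply LinearMap.ext
      intro p
      have e1 := LinearMap.congr_fun hev p
      rw [rf_apply] at e1
      rw [rf_apply, LinearMap.add_apply, LinearMap.add_apply, LinearMap.smul_apply,
        LinearMap.smul_apply, e1, hχ, LinearMap.add_apply, LinearMap.add_apply, rf_apply,
        rf_apply, sg_sg]
      ring
    · have w3 : pair χ (ev 0) (A * D - B * C') = 2 * w := by
        rw [hχ, pair_add_l, w1, ← hwd]; ring
      have w4 : pair (ev 0) χ (A * D - B * C') = 2 * w := by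
        rw [hχ, pair_add_r, w2, hsy]; ring
      rw [pair_add_l, pair_add_r, pair_add_r, pair_smul_l, pair_smul_l, pair_smul_r,
        pair_smul_r, w3, w4, pair_ev_self h1 h2, ← hj, ← hz]
      have h5 : ((1 - z) / (4 * w)) * (2 * w) = (1 - z) / 2 := by
        field_simp
        ring
      rw [h5]
      linarith

end Pool.Agent.LogCentres
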