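import Pool.Agent.LogCentres.Kern

/-!
# Existence of kernels
-/

namespace Pool.Agent.LogCentres

open MvPolynomial

theorem dec_mon (i j n : ℕ) (h : i + j ≤ n + 1) :
    ∃ A B : T, Dec (X 0 ^ i * X 1 ^ j) n A B := by
  refine ⟨∑ k ∈ Finset.range i, ix (X 0 ^ k * X 1 ^ j) * iu (X 0 ^ (i - 1 - k)),
    ∑ k ∈ Finset.range j, ix (X 1 ^ k) * iu (X 0 ^ i * X 1 ^ (j - 1 - k)), ?_, ?_, ?_⟩
  · have g0 := geom_sum₂_mul (ix (X 0)) (iu (X 0)) i
    have g1 := geom_sum₂_mul (ix (X 1)) (iu (X 1)) j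
    have e0 : ∑ k ∈ Finset.range i, ix (X 0 ^ k * X 1 ^ j) * iu (X 0 ^ (i - 1 - k)) =
        (∑ k ∈ Finset.range i, ix (X 0) ^ k * iu (X 0) ^ (i - 1 - k)) * ix (X 1) ^ j := by
      rw [Finset.sum_mul]
      refine Finset.sum_congr rfl fun k _ => ?_
      rw [map_mul, map_pow, map_pow, map_pow]
      ring
    have e1 : ∑ k ∈ Finset.range j, ix (X 1 ^ k) * iu (X 0 ^ i * X 1 ^ (j - 1 - k)) =
        (∑ k ∈ Finset.range j, ix (X 1) ^ k * iu (X 1) ^ (j - 1 - k)) * iu (X 0) ^ i := by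
      rw [Finset.sum_mul]
      refine Finset.sum_congr rfl fun k _ => ?_
      rw [map_mul, map_pow, map_pow, map_pow]
      ring
    rw [e0, e1, e, e, map_mul, map_mul, map_pow, map_pow, map_pow, map_pow]
    linear_combination -(ix (X 1) ^ j * g0) - iu (X 0) ^ i * g1
  · refine Submodule.sum_mem _ fun k hk => Fil_gen ?_
    rw [Finset.mem_range] at hk
    have h1 := totalDegree_mul (X 0 ^ k : R) (X 1 ^ j)
    have h2 := totalDegree_X_pow (R := ℝ) (0 : Fin 2) k
    have h3 := totalDegree_X_pow (R := ℝ) (1 : Fin 2) j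
    have h4 := totalDegree_X_pow (R := ℝ) (0 : Fin 2) (i - 1 - k)
    omega
  · refine Submodule.sum_mem _ fun k hk => Fil_gen ?_
    rw [Finset.mem_range] at hk
    have h1 := totalDegree_mul (X 0 ^ i : R) (X 1 ^ (j - 1 - k))
    have h2 := totalDegree_X_pow (R := ℝ) (1 : Fin 2) k
    have h3 := totalDegree_X_pow (R := ℝ) (0 : Fin 2) i
    have h4 := totalDegree_X_pow (R := ℝ) (1 : Fin 2) (j - 1 - k)
    omega

theorem monomial_two (s : Fin 2 →₀ ℕ) (c : ℝ) :
    (monomial s c : R) = c • (X 0 ^ s 0 * X 1 ^ s 1) := by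
  rw [MvPolynomial.monomial_eq, MvPolynomial.smul_eq_C_mul, Finsupp.prod_fintype _ _ (by simp),
    Fin.prod_univ_two]

theorem exists_dec {f : R} {n : ℕ} (hf : f.totalDegree ≤ n + 1) : ∃ A B : T, Dec f n A B := by
  rw [← MvPolynomial.support_sum_monomial_coeff f]
  refine Finset.sum_induction _ (fun g : R => ∃ A B : T, Dec g n A B) ?_ ?_ ?_
  · rintro g g' ⟨A, B, h⟩ ⟨A', B', h'⟩
    refine ⟨A + A', B + B', ?_, add_mem h.memA h'.memA, add_mem h.memB h'.memB⟩
    rw [map_add, map_add]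
    linear_combination h.eq + h'.eq
  · exact ⟨0, 0, by simp, zero_mem _, zero_mem _⟩
  · intro s hs
    have h1 := le_totalDegree hs
    rw [Finsupp.sum_fintype _ _ (by simp), Fin.sum_univ_two] at h1
    obtain ⟨A, B, h⟩ := dec_mon (s 0) (s 1) n (h1.trans hf)
    rw [monomial_two]
    refine ⟨coeff s f • A, coeff s f • B, ?_, Submodule.smul_mem _ _ h.memA,
      Submodule.smul_mem _ _ h.memB⟩
    rw [map_smul, map_smul, ← smul_sub, h.eq, smul_add, mul_smul_comm, mul_smul_comm]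

theorem exists_ker (f : R) : ∃ A B : T, Ker f A B := by
  obtain ⟨A, B, h⟩ := exists_dec (Nat.le_succ f.totalDegree)
  exact ⟨A, B, h.eq⟩

theorem pderiv_ix (i : Fin 2) (f : R) : pderiv i (ix f) = ix (pderiv i f) := by
  rw [ix, mapAlgHom_apply, mapAlgHom_apply, pderiv_map]

theorem pderiv_iu (i : Fin 2) (f : R) : pderiv i (iu f) = 0 := by
  rw [iu_eq, pderiv_C]

theorem Ker.mu_eq {f : R} {A B : T} (h : Ker f A B) : mu A = pderiv 0 f ∧ mu B = pderiv 1 f := by
  have key : ∀ i : Fin 2, pderiv i f = mu (pderiv i (e 0)) * mu A + mu (pderiv i (e 1)) * mu B := by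
    intro i
    have h1 := congrArg (fun t => mu (pderiv i t)) h
    simp only [map_sub, map_add, pderiv_mul, map_mul, mu_e, zero_mul, add_zero] at h1
    rw [pderiv_ix, pderiv_iu, mu_ix, map_zero, sub_zero] at h1
    exact h1
  have he : ∀ i j : Fin 2, mu (pderiv i (e j)) = if i = j then 1 else 0 := by
    intro i j
    rw [e, map_sub, pderiv_ix, pderiv_iu, sub_zero, mu_ix, pderiv_X]
    simp [Pi.single_apply, eq_comm]
  constructor
  · rw [key 0, he, he]; simp
  · rw [key 1, he, he]; simp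

end Pool.Agent.LogCentres
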