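import Pool.Agent.LogCentres.ReSoc
import Pool.Agent.LogCentres.ReKrull
import Pool.Agent.LogCentres.PairEv
import Pool.Agent.LogCentres.PairId
import Pool.Agent.LogCentres.ResC

/-!
# A positive functional at a zero with nonnegative Jacobian determinant
-/

namespace Pool.Agent.LogCentres

open MvPolynomial

private theorem ep_app_ev (p : Fin 2 → ℝ) (t : T) :
    app (ev p) t = MvPolynomial.map (eval p : R →+* ℝ) t := by
  ext s
  rw [coeff_app, coeff_map, ev_apply]

private theorem ep_map_ix (p : Fin 2 → ℝ) (a : R) :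
    MvPolynomial.map (eval p : R →+* ℝ) (ix a) = a := by
  have h : ix a = MvPolynomial.map (algebraMap ℝ R) a := rfl
  rw [h, MvPolynomial.map_map]
  have h2 : (MvPolynomial.eval p : R →+* ℝ).comp (algebraMap ℝ R) = RingHom.id ℝ := by
    apply RingHom.ext
    intro r
    simp [algebraMap_eq]
  rw [h2, MvPolynomial.map_id]

private theorem ep_map_iu (p : Fin 2 → ℝ) (a : R) :
    MvPolynomial.map (eval p : R →+* ℝ) (iu a) = C (eval p a) := by
  rw [iu_eq, map_C]

private theorem ep_ev_ix (p : Fin 2 → ℝ) (a : R) :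
    (eval (fun i => (C (p i) : R)) : T →+* R) (ix a) = C (eval p a) := by
  have h : ix a = MvPolynomial.map (algebraMap ℝ R) a := rfl
  rw [h, eval_map]
  have h3 : eval p a = eval₂ (RingHom.id ℝ) p a := rfl
  rw [h3, MvPolynomial.hom_eval₂ a (RingHom.id ℝ) (C : ℝ →+* R) p]
  rfl

private theorem ep_ev_iu (p : Fin 2 → ℝ) (a : R) :
    (eval (fun i => (C (p i) : R)) : T →+* R) (iu a) = a := by
  rw [iu_eq, eval_C]

private theorem ep_pair_left (p : Fin 2 → ℝ) (ψ : R →ₗ[ℝ] ℝ) (t : T) :
    pair (ev p) ψ t = ψ ((eval (fun i => (C (p i) : R)) : T →+* R) t) := by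
  obtain ⟨n, a, b, rfl⟩ := exists_sum t
  rw [map_sum, map_sum, map_sum]
  refine Finset.sum_congr rfl fun i _ => ?_
  rw [map_mul (eval (fun i => (C (p i) : R)) : T →+* R), ep_ev_ix, ep_ev_iu]
  change ev p (app ψ (ix (a i) * iu (b i))) = _
  rw [app_ix_iu, map_smul, ev_apply, smul_eq_mul, ← MvPolynomial.smul_eq_C_mul, map_smul,
    smul_eq_mul, mul_comm]

private theorem ep_app_add (m m' : R →ₗ[ℝ] ℝ) (t : T) :
    app (m + m') t = app m t + app m' t := by
  ext s
  rw [coeff_add, coeff_app, coeff_app, coeff_app, LinearMap.add_apply]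

private theorem ep_pair_comb (c : ℝ) (m m' : R →ₗ[ℝ] ℝ) (t : T) :
    pair (c • m + m') (c • m + m') t =
      c ^ 2 * pair m m t + c * (pair m m' t + pair m' m t) + pair m' m' t := by
  have h : ∀ a b : R →ₗ[ℝ] ℝ, pair a b t = a (app b t) := fun _ _ => rfl
  rw [h, h, h, h, h, ep_app_add, app_smul, LinearMap.add_apply, LinearMap.smul_apply,
    map_add, map_add, map_smul, map_smul, smul_eq_mul, smul_eq_mul, smul_eq_mul]
  ring

private theorem ep_mapE (p : Fin 2 → ℝ) (i : Fin 2) :
    MvPolynomial.map (eval p : R →+* ℝ) (e i) = X i - C (p i) := by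
  rw [e, map_sub, ep_map_ix, ep_map_iu, eval_X]

private theorem ep_evE (p : Fin 2 → ℝ) (i : Fin 2) :
    (eval (fun i => (C (p i) : R)) : T →+* R) (e i) = C (p i) - X i := by
  rw [e, map_sub, ep_ev_ix, ep_ev_iu, eval_X]

private theorem ep_fac1 {P : R} {p : Fin 2 → ℝ} (hP : eval p P = 0) {A B : T} (h : Ker P A B) :
    P = (X 0 - C (p 0)) * MvPolynomial.map (eval p : R →+* ℝ) A +
      (X 1 - C (p 1)) * MvPolynomial.map (eval p : R →+* ℝ) B := by
  have k := congrArg (MvPolynomial.map (eval p : R →+* ℝ)) h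
  rw [map_sub, ep_map_ix, ep_map_iu, hP, map_add, map_mul, map_mul, ep_mapE, ep_mapE, C_0,
    sub_zero] at k
  exact k

private theorem ep_fac2 {P : R} {p : Fin 2 → ℝ} (hP : eval p P = 0) {A B : T} (h : Ker P A B) :
    P = (X 0 - C (p 0)) * (eval (fun i => (C (p i) : R)) : T →+* R) A +
      (X 1 - C (p 1)) * (eval (fun i => (C (p i) : R)) : T →+* R) B := by
  have k := congrArg (eval (fun i => (C (p i) : R)) : T →+* R) h
  rw [map_sub, ep_ev_ix, ep_ev_iu, hP, map_add, map_mul, map_mul, ep_evE, ep_evE, C_0] at k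
  linear_combination -k

theorem pos_fn {P Q : R} (hrel : IsRelPrime P Q) {p : Fin 2 → ℝ} (hP : eval p P = 0)
    (hQ : eval p Q = 0) {A B C D : T} (h1 : Ker P A B) (h2 : Ker Q C D)
    (hj : 0 ≤ eval p (jacP P Q)) :
    ∃ (φ : R →ₗ[ℝ] ℝ) (L : ℕ), (∀ q ∈ Ideal.span {P, Q}, φ q = 0) ∧
      (∀ q ∈ (RingHom.ker (eval p : R →+* ℝ)) ^ L, φ q = 0) ∧
      0 < pair φ φ (A * D - B * C) := by
  have hkI : ∀ q ∈ Ideal.span {P, Q}, ev p q = 0 := by
    have hle : Ideal.span {P, Q} ≤ RingHom.ker (eval p : R →+* ℝ) := by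
      rw [Ideal.span_le]
      rintro x (rfl | rfl)
      · exact hP
      · exact hQ
    intro q hq
    rw [ev_apply]
    exact hle hq
  have hkm : ∀ L : ℕ, 1 ≤ L → ∀ q ∈ (RingHom.ker (eval p : R →+* ℝ)) ^ L, ev p q = 0 := by
    intro L hL q hq
    rw [ev_apply]
    have h := Ideal.pow_le_pow_right hL hq
    rw [pow_one] at h
    exact h
  rcases hj.lt_or_eq with hj | hj
  · refine ⟨ev p, 1, hkI, hkm 1 le_rfl, ?_⟩
    rw [pair_ev_self h1 h2]
    exact hj
  · by_contra hcon
    push Not at hcon
    have hd := det_two (ep_fac1 hP h1) (ep_fac1 hQ h2) (ep_fac2 hP h1) (ep_fac2 hQ h2)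
    obtain ⟨s, hs, hsI⟩ := krull_fn (I := Ideal.span {P, Q}) (p := p)
      (δ := MvPolynomial.map (eval p : R →+* ℝ) (A * D - B * C)) (by
        intro ψ L hψI hψm
        by_contra hne
        have e1 : pair ψ (ev p) (A * D - B * C) =
            ψ (MvPolynomial.map (eval p : R →+* ℝ) (A * D - B * C)) := by
          rw [← ep_app_ev]
          rfl
        have e2 : pair (ev p) ψ (A * D - B * C) =
            ψ (MvPolynomial.map (eval p : R →+* ℝ) (A * D - B * C)) := by
          rw [ep_pair_left]
          have h3 := hψI _ hd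
          rw [map_sub, sub_eq_zero] at h3
          have k1 : MvPolynomial.map (eval p : R →+* ℝ) (A * D - B * C) =
              MvPolynomial.map (eval p : R →+* ℝ) A * MvPolynomial.map (eval p : R →+* ℝ) D -
              MvPolynomial.map (eval p : R →+* ℝ) B * MvPolynomial.map (eval p : R →+* ℝ) C := by
            rw [map_sub, map_mul, map_mul]
          have k2 : (eval (fun i => (MvPolynomial.C (p i) : R)) : T →+* R) (A * D - B * C) =
              (eval (fun i => (MvPolynomial.C (p i) : R)) : T →+* R) A *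
                (eval (fun i => (MvPolynomial.C (p i) : R)) : T →+* R) D -
              (eval (fun i => (MvPolynomial.C (p i) : R)) : T →+* R) B *
                (eval (fun i => (MvPolynomial.C (p i) : R)) : T →+* R) C := by
            rw [map_sub, map_mul, map_mul]
          rw [k1, k2]
          exact h3.symm
        set w := ψ (MvPolynomial.map (eval p : R →+* ℝ) (A * D - B * C)) with hw
        set z := pair ψ ψ (A * D - B * C) with hz
        have h4 := hcon (((1 - z) / (2 * w)) • ev p + ψ) (max L 1) (by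
          intro q hq
          rw [LinearMap.add_apply, LinearMap.smul_apply, hkI q hq, hψI q hq, smul_zero,
            add_zero]) (by
          intro q hq
          rw [LinearMap.add_apply, LinearMap.smul_apply, hkm _ (le_max_right L 1) q hq,
            hψm q (Ideal.pow_le_pow_right (le_max_left L 1) hq), smul_zero, add_zero])
        rw [ep_pair_comb, pair_ev_self h1 h2, ← hj, e1, e2, ← hz] at h4
        have h5 : ((1 - z) / (2 * w)) * (w + w) = 1 - z := by
          field_simp
          ring
        rw [h5] at h4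
        linarith)
    refine socle hrel (ep_fac1 hP h1) (ep_fac1 hQ h2) hs ?_
    rw [map_sub, map_mul, map_mul] at hsI
    exact hsI

end Pool.Agent.LogCentres
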