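import Pool.Agent.LogCentres.CsA
import Pool.Agent.LogCentres.RePosFn
import Pool.Agent.LogCentres.DecE
import Pool.Agent.PlanarCentres.Sym

/-!
# Counting zeros of a centrally symmetric system
-/

namespace Pool.Agent.LogCentres

open MvPolynomial Pool.Agent.PlanarCentres

/-- a functional which kills the polynomials of low degree is isotropic -/
theorem pair_low {d : ℕ} {t : T} (ht : t ∈ Fil d) {φ : R →ₗ[ℝ] ℝ}
    (h : ∀ q : R, 2 * q.totalDegree ≤ d → φ q = 0) : pair φ φ t = 0 := by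
  induction ht using Submodule.span_induction with
  | mem s hs =>
    obtain ⟨a, b, hab, rfl⟩ := hs
    change φ (app φ (ix a * iu b)) = 0
    rw [app_ix_iu, map_smul, smul_eq_mul]
    by_cases h1 : 2 * a.totalDegree ≤ d
    · rw [h a h1, mul_zero]
    · rw [h b (by omega), zero_mul]
  | zero => rw [map_zero]
  | add x y _ _ hx hy => rw [map_add, hx, hy, add_zero]
  | smul c x _ hx => rw [map_smul, hx, smul_zero]

/-- the monomial with exponents `m` -/
noncomputable def mo (m : ℕ × ℕ) : R := X 0 ^ m.1 * X 1 ^ m.2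

theorem sg_mo (m : ℕ × ℕ) : sg (mo m) = (-1 : ℝ) ^ (m.1 + m.2) • mo m := by
  rw [mo, map_mul, map_pow, map_pow, sg_X, sg_X, neg_pow, neg_pow (X 1 : R), smul_eq_C_mul,
    map_pow, map_neg, C_1, pow_add]
  ring

theorem sum_mo (q : R) : q = ∑ s ∈ q.support, coeff s q • mo (s 0, s 1) := by
  conv_lhs => rw [← support_sum_monomial_coeff q]
  refine Finset.sum_congr rfl fun s _ => ?_
  rw [monomial_eq, Finsupp.prod_fintype _ _ (fun i => by simp), Fin.prod_univ_two, smul_eq_C_mul]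
  rfl

theorem kill_low {n : ℕ} {φ : R →ₗ[ℝ] ℝ} (hcl : rf φ = (-1 : ℝ) ^ n • φ)
    (hk : ∀ m ∈ parM n, φ (mo m) = 0) {q : R} (hq : q.totalDegree < n) : φ q = 0 := by
  have key : ∀ m : ℕ × ℕ, m.1 + m.2 < n → φ (mo m) = 0 := by
    intro m hm
    by_cases hpar : (m.1 + m.2) % 2 = n % 2
    · exact hk m (mem_parM.mpr ⟨hm, hpar⟩)
    · have h1 := LinearMap.congr_fun hcl (mo m)
      rw [rf_apply, sg_mo, map_smul, LinearMap.smul_apply, smul_eq_mul, smul_eq_mul] at h1
      have h3 : ((-1 : ℝ) ^ (m.1 + m.2)) * (-1) ^ n = -1 := by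
        rw [← pow_add]
        apply Odd.neg_one_pow
        rw [Nat.odd_iff]
        omega
      have h4 : ((-1 : ℝ) ^ n) * (-1) ^ n = 1 := by
        rw [← pow_add]
        exact Even.neg_one_pow ⟨n, rfl⟩
      have h5 : -φ (mo m) = φ (mo m) := by
        calc -φ (mo m) = ((-1 : ℝ) ^ (m.1 + m.2) * (-1) ^ n) * φ (mo m) := by rw [h3]; ring
          _ = (-1) ^ n * ((-1 : ℝ) ^ (m.1 + m.2) * φ (mo m)) := by ring
          _ = ((-1 : ℝ) ^ n * (-1) ^ n) * φ (mo m) := by rw [h1]; ring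
          _ = φ (mo m) := by rw [h4, one_mul]
      linarith
  rw [sum_mo q, map_sum]
  refine Finset.sum_eq_zero fun s hs => ?_
  rw [map_smul, key (s 0, s 1), smul_zero]
  have := deg_two (le_refl q.totalDegree) hs
  simp only
  omega

theorem rf_sum {ι : Type} [Fintype ι] (w : ι → ℝ) (Φ : ι → R →ₗ[ℝ] ℝ) (c : ℝ)
    (h : ∀ i, rf (Φ i) = c • Φ i) : rf (∑ i, w i • Φ i) = c • ∑ i, w i • Φ i := by
  apply LinearMap.ext
  intro p
  rw [rf_apply, LinearMap.smul_apply, LinearMap.sum_apply, LinearMap.sum_apply, smul_eq_mul,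
    Finset.mul_sum]
  refine Finset.sum_congr rfl fun i _ => ?_
  have h1 := LinearMap.congr_fun (h i) p
  rw [rf_apply, LinearMap.smul_apply, smul_eq_mul] at h1
  rw [LinearMap.smul_apply, LinearMap.smul_apply, h1, smul_eq_mul, smul_eq_mul]
  ring

theorem pair_sum_l {ι : Type} (s : Finset ι) (w : ι → ℝ) (Φ : ι → R →ₗ[ℝ] ℝ) (ψ : R →ₗ[ℝ] ℝ)
    (t : T) : pair (∑ i ∈ s, w i • Φ i) ψ t = ∑ i ∈ s, w i * pair (Φ i) ψ t := by
  change (∑ i ∈ s, w i • Φ i) (app ψ t) = _
  rw [LinearMap.sum_apply]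
  rfl

theorem pair_sum_r {ι : Type} (s : Finset ι) (w : ι → ℝ) (Φ : ι → R →ₗ[ℝ] ℝ) (ψ : R →ₗ[ℝ] ℝ)
    (t : T) : pair ψ (∑ i ∈ s, w i • Φ i) t = ∑ i ∈ s, w i * pair ψ (Φ i) t := by
  classical
  induction s using Finset.induction_on with
  | empty =>
    rw [Finset.sum_empty, Finset.sum_empty]
    change ψ (app 0 t) = 0
    rw [app_zero, map_zero]
  | insert a s ha ih =>
    rw [Finset.sum_insert ha, Finset.sum_insert ha, pair_add_r, ih, pair_smul_r]

/-- orthogonal functionals with positive squares in a parity class -/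
theorem card_class {n k : ℕ} (hnk : n = k + 1) {ι : Type} [Fintype ι] (Φ : ι → R →ₗ[ℝ] ℝ)
    {t : T} (ht : t ∈ Fil (k + k)) (hcl : ∀ i, rf (Φ i) = (-1 : ℝ) ^ n • Φ i)
    (horth : ∀ i j, i ≠ j → pair (Φ i) (Φ j) t = 0) (hpos : ∀ i, 0 < pair (Φ i) (Φ i) t) :
    Fintype.card ι ≤ n ^ 2 / 4 := by
  classical
  let L : (ι → ℝ) →ₗ[ℝ] (parM n → ℝ) :=
    { toFun := fun w m => ∑ i, w i * Φ i (mo m.1)
      map_add' := fun w v => by
        funext m; simp [add_mul, Finset.sum_add_distrib]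
      map_smul' := fun c w => by
        funext m
        simp only [Pi.smul_apply, smul_eq_mul, RingHom.id_apply, Finset.mul_sum]
        refine Finset.sum_congr rfl fun i _ => ?_
        ring }
  have hinj : Function.Injective L := by
    rw [← LinearMap.ker_eq_bot, LinearMap.ker_eq_bot']
    intro w hw
    obtain ⟨φ, hφ⟩ : ∃ φ, φ = ∑ i, w i • Φ i := ⟨_, rfl⟩
    have h1 : rf φ = (-1 : ℝ) ^ n • φ := by
      rw [hφ]
      exact rf_sum w Φ _ hcl
    have h2 : ∀ m ∈ parM n, φ (mo m) = 0 := by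
      intro m hm
      have h3 := congrFun hw ⟨m, hm⟩
      rw [hφ, LinearMap.sum_apply]
      exact h3
    have h3 : pair φ φ t = 0 := pair_low ht fun q hq => kill_low h1 h2 (by omega)
    have h4 : pair φ φ t = ∑ i, w i * (w i * pair (Φ i) (Φ i) t) := by
      rw [hφ, pair_sum_l]
      refine Finset.sum_congr rfl fun i _ => ?_
      rw [pair_sum_r, Finset.sum_eq_single i]
      · intro j _ hj
        rw [horth i j (Ne.symm hj), mul_zero]
      · intro h
        exact absurd (Finset.mem_univ i) h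
    rw [h3] at h4
    have h5 := (Finset.sum_eq_zero_iff_of_nonneg (fun i _ => by
      rw [← mul_assoc]
      exact mul_nonneg (mul_self_nonneg (w i)) (hpos i).le)).1 h4.symm
    funext i
    have h6 := h5 i (Finset.mem_univ i)
    rw [← mul_assoc, mul_eq_zero] at h6
    rcases h6 with h6 | h6
    · exact mul_self_eq_zero.1 h6
    · exact absurd h6 (hpos i).ne'
  have h7 := LinearMap.finrank_le_finrank_of_injective hinj
  rw [Module.finrank_fintype_fun_eq_card, Module.finrank_fintype_fun_eq_card,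
    Fintype.card_coe] at h7
  exact h7.trans (card_parM n)

theorem good_zero {P Q : R} (p : Fin 2 → ℝ) : Good P Q p 0 :=
  ⟨fun _ _ => rfl, 0, fun _ _ => rfl⟩

theorem card_sym0 {P Q : R} {n : ℕ} (hn : 1 ≤ n) (hrel : IsRelPrime P Q)
    (hP : P.totalDegree ≤ n) (hQ : Q.totalDegree ≤ n) {ε : ℝ} (hε : ε * ε = 1)
    (hsP : sg P = C ε * P) (hsQ : sg Q = C ε * Q) (S : Finset (Fin 2 → ℝ))
    (hS : ∀ p ∈ S, eval p P = 0 ∧ eval p Q = 0 ∧ 0 ≤ eval p (jacP P Q)) :
    S.card ≤ (n ^ 2 + 1) / 2 := by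
  classical
  obtain ⟨k, rfl⟩ : ∃ k, n = k + 1 := ⟨n - 1, by omega⟩
  obtain ⟨A, B, hAB⟩ := exists_dec hP
  obtain ⟨C', D, hCD⟩ := exists_dec hQ
  have h1 : Ker P A B := hAB.eq
  have h2 : Ker Q C' D := hCD.eq
  obtain ⟨t, htd⟩ : ∃ t, t = A * D - B * C' := ⟨_, rfl⟩
  have ht : t ∈ Fil (k + k) := by
    rw [htd]
    exact sub_mem (Fil_mul hAB.memA hCD.memB) (Fil_mul hAB.memB hCD.memA)
  have hsj : ∀ p : Fin 2 → ℝ, eval (-p) (jacP P Q) = eval p (jacP P Q) := by
    intro p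
    have hd : ∀ (F : R) (i : Fin 2), sg F = C ε * F →
        eval (-p) (pderiv i F) = -(ε * eval p (pderiv i F)) := by
      intro F i hF
      have h3 := eval_pderiv_refl (a := 0) (p := F) (e := ε) (fun x => by
        rw [add_zero, zero_sub, ← sg_eval, hF, map_mul, eval_C]) i p
      rw [add_zero, zero_sub] at h3
      exact h3
    rw [jacP, map_sub, map_mul, map_mul, hd P 0 hsP, hd P 1 hsP, hd Q 0 hsQ, hd Q 1 hsQ, map_sub,
      map_mul, map_mul]
    linear_combination (eval p (pderiv 0 P) * eval p (pderiv 1 Q) -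
      eval p (pderiv 1 P) * eval p (pderiv 0 Q)) * hε
  have hneg : ∀ p : Fin 2 → ℝ, (eval p P = 0 ∧ eval p Q = 0 ∧ 0 ≤ eval p (jacP P Q)) →
      (eval (-p) P = 0 ∧ eval (-p) Q = 0 ∧ 0 ≤ eval (-p) (jacP P Q)) := by
    rintro p ⟨g1, g2, g3⟩
    refine ⟨?_, ?_, by rw [hsj]; exact g3⟩
    · rw [← sg_eval, hsP, map_mul, g1, mul_zero]
    · rw [← sg_eval, hsQ, map_mul, g2, mul_zero]
  obtain ⟨T1, hT1⟩ : ∃ T1, T1 = (S ∪ S.image fun p => -p).filter fun p => lpos p := ⟨_, rfl⟩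
  obtain ⟨T0, hT0⟩ : ∃ T0, T0 = S.filter fun p => p = 0 := ⟨_, rfl⟩
  have hT1p : ∀ p ∈ T1, lpos p ∧ eval p P = 0 ∧ eval p Q = 0 ∧ 0 ≤ eval p (jacP P Q) := by
    intro p hp
    rw [hT1, Finset.mem_filter] at hp
    refine ⟨hp.2, ?_⟩
    rcases Finset.mem_union.1 hp.1 with h | h
    · exact hS p h
    · obtain ⟨q, hq, rfl⟩ := Finset.mem_image.1 h
      exact hneg q (hS q hq)
  have hT0c : T0.card ≤ 1 := by
    apply Finset.card_le_one.mpr
    intro x hx y hy
    rw [hT0, Finset.mem_filter] at hx hy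
    rw [hx.2, hy.2]
  have hcover : S ⊆ T1 ∪ T1.image (fun p => -p) ∪ T0 := by
    intro p hp
    rw [Finset.mem_union, Finset.mem_union]
    rcases lpos_tri p with h | h | h
    · left; left
      rw [hT1, Finset.mem_filter]
      exact ⟨Finset.mem_union_left _ hp, h⟩
    · left; right
      rw [Finset.mem_image]
      refine ⟨-p, ?_, neg_neg p⟩
      rw [hT1, Finset.mem_filter]
      exact ⟨Finset.mem_union_right _ (Finset.mem_image_of_mem _ hp), h⟩
    · right
      rw [hT0, Finset.mem_filter]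
      exact ⟨hp, h⟩
  have hcard : S.card ≤ 2 * T1.card + T0.card := by
    have e1 := Finset.card_le_card hcover
    have e2 := Finset.card_union_le (T1 ∪ T1.image fun p => -p) T0
    have e3 := Finset.card_union_le T1 (T1.image fun p => -p)
    have e4 : (T1.image fun p => -p).card ≤ T1.card := Finset.card_image_le
    omega
  have hz : ∀ p : Fin 2 → ℝ, lpos p → p ≠ -p := by
    intro p hp h
    exact lpos_neg hp (h ▸ hp)
  have hmm : ((-1 : ℝ) ^ (k + 1)) * (-1) ^ (k + 1) = 1 := by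
    rw [← pow_add]
    exact Even.neg_one_pow ⟨k + 1, rfl⟩
  -- a functional in the parity class at a pair
  have hex : ∀ p ∈ T1, ∃ α β : R →ₗ[ℝ] ℝ, Good P Q p α ∧ Good P Q (-p) β ∧
      rf (α + β) = (-1 : ℝ) ^ (k + 1) • (α + β) ∧ 0 < pair (α + β) (α + β) t := by
    intro p hp
    obtain ⟨hl, g1, g2, g3⟩ := hT1p p hp
    obtain ⟨φ, L, hφI, hφL, hφp⟩ := pos_fn hrel g1 g2 h1 h2 g3
    have hg : Good P Q p φ := ⟨hφI, L, hφL⟩
    have hr : Good P Q (-p) (rf φ) := good_rf hsP hsQ hg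
    refine ⟨φ, (-1 : ℝ) ^ (k + 1) • rf φ, hg, good_smul _ hr, ?_, ?_⟩
    · apply LinearMap.ext
      intro q
      rw [rf_apply, LinearMap.add_apply, LinearMap.smul_apply, rf_apply, sg_sg,
        LinearMap.smul_apply, LinearMap.add_apply, LinearMap.smul_apply, rf_apply,
        smul_eq_mul, smul_eq_mul, smul_eq_mul]
      linear_combination (-φ (sg q)) * hmm
    · have c1 : pair φ (rf φ) t = 0 := by
        rw [htd]; exact good_orth h1 h2 (hz p hl) hg hr
      have c2 : pair (rf φ) φ t = 0 := by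
        rw [htd]; exact good_orth h1 h2 (hz p hl).symm hr hg
      have c3 : pair (rf φ) (rf φ) t = pair φ φ t := by
        rw [htd]; exact pair_symm hε hsP hsQ h1 h2 hφI hφI
      rw [← htd] at hφp
      rw [pair_add_l, pair_add_r, pair_add_r, pair_smul_l, pair_smul_l, pair_smul_r,
        pair_smul_r, c1, c2, c3]
      have e1 : ((-1 : ℝ) ^ (k + 1)) * ((-1) ^ (k + 1) * pair φ φ t) = pair φ φ t := by
        rw [← mul_assoc, hmm, one_mul]
      rw [e1]
      linarith
  have main : ∀ U : Finset (Fin 2 → ℝ), (∀ p ∈ U, lpos p ∨ p = 0) →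
      (∀ p ∈ U, ∃ α β : R →ₗ[ℝ] ℝ, Good P Q p α ∧ Good P Q (-p) β ∧
        rf (α + β) = (-1 : ℝ) ^ (k + 1) • (α + β) ∧ 0 < pair (α + β) (α + β) t) →
      U.card ≤ (k + 1) ^ 2 / 4 := by
    intro U hU hUe
    have hUe' : ∀ p : {p // p ∈ U}, ∃ α β : R →ₗ[ℝ] ℝ, Good P Q p.1 α ∧ Good P Q (-p.1) β ∧
        rf (α + β) = (-1 : ℝ) ^ (k + 1) • (α + β) ∧ 0 < pair (α + β) (α + β) t :=
      fun p => hUe p.1 p.2
    choose α β ha hb hc hd using hUe'
    have h3 := card_class (n := k + 1) (k := k) rfl (fun p => α p + β p) ht hc ?_ hd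
    · rwa [Fintype.card_coe] at h3
    · intro i j hij
      have hne : i.1 ≠ j.1 := fun h => hij (Subtype.ext h)
      have hne2 : i.1 ≠ -j.1 := by
        intro h
        rcases hU i.1 i.2 with h4 | h4 <;> rcases hU j.1 j.2 with h5 | h5
        · exact lpos_neg h5 (h ▸ h4)
        · rw [h5, neg_zero] at h
          exact not_lpos_zero (h ▸ h4)
        · rw [h4] at h
          rw [← neg_eq_iff_eq_neg.2 h, neg_zero] at h5
          exact not_lpos_zero h5
        · exact hne (h4.trans h5.symm)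
      have hne3 : -i.1 ≠ j.1 := fun h => hne2 (by rw [← h, neg_neg])
      have hne4 : -i.1 ≠ -j.1 := fun h => hne (neg_injective h)
      rw [pair_add_l, pair_add_r, pair_add_r, htd, good_orth h1 h2 hne (ha i) (ha j),
        good_orth h1 h2 hne2 (ha i) (hb j), good_orth h1 h2 hne3 (hb i) (ha j),
        good_orth h1 h2 hne4 (hb i) (hb j)]
      ring
  rcases Nat.even_or_odd (k + 1) with hev | hodd
  · have hdisj : Disjoint T1 T0 := by
      rw [Finset.disjoint_left]
      intro p hp hp0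
      rw [hT0, Finset.mem_filter] at hp0
      rw [hp0.2] at hp
      exact not_lpos_zero (hT1p 0 hp).1
    have h3 := main (T1 ∪ T0) (by
      intro p hp
      rcases Finset.mem_union.1 hp with h | h
      · exact Or.inl (hT1p p h).1
      · rw [hT0, Finset.mem_filter] at h
        exact Or.inr h.2) (by
      intro p hp
      rcases Finset.mem_union.1 hp with h | h
      · exact hex p h
      · rw [hT0, Finset.mem_filter] at h
        obtain ⟨hpS, rfl⟩ := h
        obtain ⟨g1, g2, g3⟩ := hS 0 hpS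
        obtain ⟨φ, hg, hr, hpos⟩ := even_fn hrel hε hsP hsQ h1 h2 g1 g2 g3
        refine ⟨φ, 0, hg, good_zero _, ?_, ?_⟩
        · rw [add_zero, hr, hev.neg_one_pow, one_smul]
        · rw [add_zero, htd]
          exact hpos)
    rw [Finset.card_union_of_disjoint hdisj] at h3
    obtain ⟨m, hm⟩ := hev
    rw [hm] at h3 ⊢
    have e1 : (m + m) ^ 2 / 4 = m ^ 2 := by
      have : (m + m) ^ 2 = 4 * m ^ 2 := by ring
      omega
    have e2 : ((m + m) ^ 2 + 1) / 2 = 2 * m ^ 2 := by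
      have : (m + m) ^ 2 = 4 * m ^ 2 := by ring
      omega
    omega
  · have h3 := main T1 (fun p hp => Or.inl (hT1p p hp).1) hex
    obtain ⟨m, hm⟩ := hodd
    rw [hm] at h3 ⊢
    have e1 : (2 * m + 1) ^ 2 / 4 = m ^ 2 + m := by
      have : (2 * m + 1) ^ 2 = 4 * (m ^ 2 + m) + 1 := by ring
      omega
    have e2 : ((2 * m + 1) ^ 2 + 1) / 2 = 2 * (m ^ 2 + m) + 1 := by
      have : (2 * m + 1) ^ 2 = 4 * (m ^ 2 + m) + 1 := by ring
      omega
    omega

end Pool.Agent.LogCentres
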