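import Mathlib

/-!
# Kernels in two groups of variables

`R = ℝ[x₀,x₁]`, `T = R[x₀,x₁]`, the polynomials in `x` with coefficients polynomials in `u`.
`ix f = f(x)`, `iu f = f(u)`, `e i = xᵢ - uᵢ`, `mu` is the restriction to the diagonal and `app m`
applies a linear functional in the variable `u`.
-/

namespace Pool.Agent.LogCentres

open MvPolynomial

/-- real polynomials in two variables -/
abbrev R : Type := MvPolynomial (Fin 2) ℝ

/-- polynomials in `x` with coefficients polynomials in `u` -/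
abbrev T : Type := MvPolynomial (Fin 2) R

/-- `f(x)` -/
noncomputable def ix : R →ₐ[ℝ] T := MvPolynomial.mapAlgHom (Algebra.ofId ℝ R)

/-- `f(u)` -/
noncomputable def iu : R →ₐ[ℝ] T := IsScalarTower.toAlgHom ℝ R T

/-- `xᵢ - uᵢ` -/
noncomputable def e (i : Fin 2) : T := ix (X i) - iu (X i)

/-- restriction to the diagonal `x = u` -/
noncomputable def mu : T →ₐ[R] R := MvPolynomial.aeval X

theorem coeff_appFun (m : R →ₗ[ℝ] ℝ) (t : T) (s : Fin 2 →₀ ℕ) :
    coeff s (∑ r ∈ t.support, monomial r (m (coeff r t)) : R) = m (coeff s t) := by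
  classical
  rw [coeff_sum]
  simp only [coeff_monomial]
  rw [Finset.sum_ite_eq' t.support s]
  split_ifs with h
  · rfl
  · rw [notMem_support_iff.mp h, map_zero]

/-- apply a linear functional to the variable `u` -/
noncomputable def app (m : R →ₗ[ℝ] ℝ) : T →ₗ[ℝ] R where
  toFun t := ∑ r ∈ t.support, monomial r (m (coeff r t))
  map_add' s t := by
    ext r
    rw [coeff_appFun, coeff_add, coeff_add, coeff_appFun, coeff_appFun, map_add]
  map_smul' c t := by
    ext r
    rw [coeff_appFun, coeff_smul, RingHom.id_apply, coeff_smul, coeff_appFun, map_smul]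

theorem coeff_app (m : R →ₗ[ℝ] ℝ) (t : T) (s : Fin 2 →₀ ℕ) :
    coeff s (app m t) = m (coeff s t) := coeff_appFun m t s

/-- kernels of joint degree at most `d` -/
noncomputable def Fil (d : ℕ) : Submodule ℝ T :=
  Submodule.span ℝ {t | ∃ a b : R, a.totalDegree + b.totalDegree ≤ d ∧ t = ix a * iu b}

/-- `f(x) - f(u) = (x₀ - u₀) A + (x₁ - u₁) B` with kernels of joint degree at most `d` -/
structure Dec (f : R) (d : ℕ) (A B : T) : Prop where
  eq : ix f - iu f = e 0 * A + e 1 * B
  memA : A ∈ Fil d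
  memB : B ∈ Fil d

/-- the Jacobian determinant of a pair of polynomials, as a polynomial -/
noncomputable def jacP (f g : R) : R :=
  pderiv 0 f * pderiv 1 g - pderiv 1 f * pderiv 0 g

/-- the polynomial `∑ₖ c(a - k, k) tᵏ` formed with the coefficients of degree `a` of `f` -/
noncomputable def topP (a : ℕ) (f : R) : Polynomial ℝ :=
  ∑ k ∈ Finset.range (a + 1),
    Polynomial.monomial k (coeff (Finsupp.single 0 (a - k) + Finsupp.single 1 k) f)

/-- `φ ⊗ ψ` applied to a kernel (`φ` in the variable `x`, `ψ` in `u`) -/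
noncomputable def pair (φ ψ : R →ₗ[ℝ] ℝ) : T →ₗ[ℝ] ℝ := φ ∘ₗ app ψ

/-- evaluation at a real point, as a linear functional -/
noncomputable def ev (s : Fin 2 → ℝ) : R →ₗ[ℝ] ℝ := (MvPolynomial.aeval s).toLinearMap

/-- `p ↦ m (u p)` -/
noncomputable def tw (m : R →ₗ[ℝ] ℝ) (u : R) : R →ₗ[ℝ] ℝ := m ∘ₗ LinearMap.mulLeft ℝ u

/-- `∑ᵢ αᵢ (∏_{j ≠ i} Fⱼ) ∂ₖ Fᵢ` -/
noncomputable def logD {ι : Type} [Fintype ι] [DecidableEq ι] (F : ι → R) (α : ι → ℝ)
    (k : Fin 2) : R :=
  ∑ i, α i • ((∏ j ∈ Finset.univ.erase i, F j) * pderiv k (F i))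

/-- the first component of the vector field with first integral `∏ Fᵢ^αᵢ / ∏ Gⱼ^βⱼ` -/
noncomputable def XP {ι κ : Type} [Fintype ι] [DecidableEq ι] [Fintype κ] [DecidableEq κ]
    (F : ι → R) (α : ι → ℝ) (G : κ → R) (β : κ → ℝ) : R :=
  (∏ j, G j) * logD F α 1 - (∏ i, F i) * logD G β 1

/-- the second component -/
noncomputable def XQ {ι κ : Type} [Fintype ι] [DecidableEq ι] [Fintype κ] [DecidableEq κ]
    (F : ι → R) (α : ι → ℝ) (G : κ → R) (β : κ → ℝ) : R :=
  (∏ i, F i) * logD G β 0 - (∏ j, G j) * logD F α 0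

end Pool.Agent.LogCentres
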