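import Pool.Agent.LogCentres.Defs

/-!
# Kernels, the ideal of both variables, residue functionals
-/

namespace Pool.Agent.LogCentres

open MvPolynomial

/-- the kernel equation without degree bounds -/
def Ker (f : R) (A B : T) : Prop := ix f - iu f = e 0 * A + e 1 * B

/-- the ideal generated by `f(x), h(x), f(u), h(u)` -/
noncomputable def J (f h : R) : Ideal T := Ideal.span {ix f, ix h, iu f, iu h}

/-- `m` is the residue functional of the pair `(f, h)` -/
structure Res (f h : R) (m : R →ₗ[ℝ] ℝ) : Prop where
  kill : ∀ p ∈ Ideal.span {f, h}, m p = 0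
  one : ∀ A B C D : T, Ker f A B → Ker h C D →
    app m (A * D - B * C) - 1 ∈ Ideal.span {f, h}

end Pool.Agent.LogCentres
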