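import Pool.Agent.LogCentres.Defs2
import Pool.Agent.PlanarCentres.ProjSwap
import Pool.Agent.PlanarCentres.AffLine
import Pool.Agent.PlanarCentres.LineArg

/-!
# Charts
-/

namespace Pool.Agent.LogCentres

open MvPolynomial Pool.Agent.PlanarCentres

/-- a family with the line `x = 0` added -/
noncomputable def optF {κ : Type} (G : κ → R) : Option κ → R := fun o => o.elim (X 0) G

/-- exponents with one added -/
def optV {κ : Type} (D : ℝ) (β : κ → ℝ) : Option κ → ℝ := fun o => o.elim D β

/-- degrees with one added -/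
def optN {κ : Type} (ee : κ → ℕ) : Option κ → ℕ := fun o => o.elim 1 ee

/-- the substitution `x ↦ c + x + μ y`, `y ↦ y` -/
noncomputable def shear (μ c : ℝ) : R →ₐ[ℝ] R := sub ![![1, μ], ![0, 1]] ![c, 0]

end Pool.Agent.LogCentres
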