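import Pool.Agent.LogCentres.Defs3

/-!
# Elimination
-/

namespace Pool.Agent.LogCentres

open MvPolynomial Pool.Agent.PlanarCentres

/-- `R` as polynomials in `y` with coefficients in `ℝ[x]` -/
private noncomputable def fwd : R →+* Polynomial (Polynomial ℝ) :=
  MvPolynomial.eval₂Hom (Polynomial.C.comp Polynomial.C)
    ![Polynomial.C Polynomial.X, Polynomial.X]

private noncomputable def bwd : Polynomial (Polynomial ℝ) →+* R :=
  Polynomial.eval₂RingHom (Polynomial.aeval (X 0 : R) : Polynomial ℝ →ₐ[ℝ] R).toRingHom (X 1)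

private theorem bwd_fwd (p : R) : bwd (fwd p) = p := by
  have : bwd.comp fwd = RingHom.id R := by
    refine MvPolynomial.ringHom_ext (fun c => ?_) fun i => ?_
    · simp [bwd, fwd]
    · fin_cases i <;> simp [bwd, fwd]
  exact congrArg (fun r : R →+* R => r p) this

private theorem fwd_bwd (p : Polynomial (Polynomial ℝ)) : fwd (bwd p) = p := by
  have : fwd.comp bwd = RingHom.id _ := by
    refine Polynomial.ringHom_ext' (Polynomial.ringHom_ext' ?_ ?_) ?_
    · ext c
      simp [bwd, fwd]
    · simp [bwd, fwd]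
    · simp [bwd, fwd]
  exact congrArg (fun r : Polynomial (Polynomial ℝ) →+* Polynomial (Polynomial ℝ) => r p) this

private theorem fwd_eq (f : R) : fwd f = ∑ s ∈ f.support,
    Polynomial.C (Polynomial.C (coeff s f) * Polynomial.X ^ (s 0)) * Polynomial.X ^ (s 1) := by
  show MvPolynomial.eval₂ _ _ f = _
  rw [MvPolynomial.eval₂_eq']
  refine Finset.sum_congr rfl fun s _ => ?_
  rw [Fin.prod_univ_two]
  simp [mul_assoc]

private theorem deg_split (s : Fin 2 →₀ ℕ) : s.degree = s 0 + s 1 := by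
  rw [Finsupp.degree_eq_sum, Fin.sum_univ_two]

private theorem deg_le {f : R} {s : Fin 2 →₀ ℕ} (h : s ∈ f.support) :
    s 0 + s 1 ≤ f.totalDegree := by
  have := le_totalDegree h
  rwa [Finsupp.sum_fintype s (fun _ e => e) (fun _ => rfl), Fin.sum_univ_two] at this

private theorem fwd_natDegree {f : R} {a : ℕ} (hf : f.totalDegree ≤ a) :
    (fwd f).natDegree ≤ a := by
  rw [fwd_eq]
  refine Polynomial.natDegree_sum_le_of_forall_le _ _ fun s hs => ?_
  refine (Polynomial.natDegree_C_mul_X_pow_le _ _).trans ?_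
  have := deg_le hs
  omega

private theorem fwd_coeff {f : R} {a : ℕ} (hf : f.totalDegree ≤ a) :
    (fwd f).coeff a = Polynomial.C (coeff (Finsupp.single 1 a) f) := by
  rw [fwd_eq, Polynomial.finsetSum_coeff]
  rw [Finset.sum_eq_single (Finsupp.single 1 a)]
  · rw [Polynomial.coeff_C_mul_X_pow]
    simp
  · intro s hs hne
    rw [Polynomial.coeff_C_mul_X_pow, if_neg]
    intro h
    apply hne
    have := deg_le hs
    ext i
    fin_cases i
    · simp
      omega
    · simp
      omega
  · intro h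
    rw [notMem_support_iff.1 h]
    simp

private theorem elim_aux (F H : Polynomial (Polynomial ℝ)) (hF : F.Monic) (hc : IsRelPrime F H) :
    ∃ r : Polynomial ℝ, r ≠ 0 ∧ Polynomial.C r ∈ Ideal.span {F, H} := by
  let K := FractionRing (Polynomial ℝ)
  have hinj : Function.Injective (algebraMap (Polynomial ℝ) K) := IsFractionRing.injective _ _
  have h1 : IsCoprime (F.map (algebraMap (Polynomial ℝ) K)) (H.map (algebraMap _ K)) := by
    rw [← isRelPrime_iff_isCoprime]
    intro d hd1 hd2
    obtain ⟨g, hg⟩ := IsIntegrallyClosed.eq_map_mul_C_of_dvd K hF hd1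
    have hd0 : d ≠ 0 := ne_zero_of_dvd_ne_zero (hF.map _).ne_zero hd1
    have hl : d.leadingCoeff ≠ 0 := Polynomial.leadingCoeff_ne_zero.2 hd0
    have hgm : (g.map (algebraMap (Polynomial ℝ) K)).Monic := by
      have h2 := congrArg Polynomial.leadingCoeff hg
      rw [Polynomial.leadingCoeff_mul, Polynomial.leadingCoeff_C] at h2
      exact mul_right_cancel₀ hl (by rw [h2, one_mul])
    have hgm' : g.Monic := (hinj.monic_map_iff).2 hgm
    have hgd : g.map (algebraMap (Polynomial ℝ) K) ∣ d := ⟨_, hg.symm⟩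
    have hu : IsUnit g := hc ((Polynomial.map_dvd_map _ hinj hgm').1 (hgd.trans hd1))
      ((Polynomial.map_dvd_map _ hinj hgm').1 (hgd.trans hd2))
    rw [← hg]
    refine IsUnit.mul ?_ ?_
    · exact hu.map (Polynomial.mapRingHom (algebraMap (Polynomial ℝ) K))
    · exact (isUnit_iff_ne_zero.2 hl).map Polynomial.C
  obtain ⟨u, v, huv⟩ := h1
  obtain ⟨b, hb, hbu⟩ := IsLocalization.integerNormalization_spec (nonZeroDivisors (Polynomial ℝ)) u
  obtain ⟨c, hc', hcv⟩ := IsLocalization.integerNormalization_spec (nonZeroDivisors (Polynomial ℝ)) v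
  set U := IsLocalization.integerNormalization (nonZeroDivisors (Polynomial ℝ)) u
  set V := IsLocalization.integerNormalization (nonZeroDivisors (Polynomial ℝ)) v
  refine ⟨b * c, mul_ne_zero (nonZeroDivisors.ne_zero hb) (nonZeroDivisors.ne_zero hc'), ?_⟩
  rw [Ideal.mem_span_pair]
  refine ⟨Polynomial.C c * U, Polynomial.C b * V, ?_⟩
  apply Polynomial.map_injective _ hinj
  rw [Polynomial.map_add, Polynomial.map_mul, Polynomial.map_mul, Polynomial.map_mul,
    Polynomial.map_mul, hbu, hcv, Polynomial.map_C, Polynomial.map_C, Polynomial.map_C, map_mul,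
    Polynomial.C_mul]
  have e1 : b • u = Polynomial.C (algebraMap (Polynomial ℝ) K b) * u := by
    rw [← Polynomial.smul_eq_C_mul, algebraMap_smul]
  have e2 : c • v = Polynomial.C (algebraMap (Polynomial ℝ) K c) * v := by
    rw [← Polynomial.smul_eq_C_mul, algebraMap_smul]
  rw [e1, e2]
  linear_combination Polynomial.C (algebraMap (Polynomial ℝ) K b) *
    Polynomial.C (algebraMap (Polynomial ℝ) K c) * huv

theorem exists_elim {f h : R} {a : ℕ} (hf : f.totalDegree ≤ a)
    (hm : coeff (Finsupp.single 1 a) f ≠ 0) (hc : IsRelPrime f h) :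
    ∃ r : Polynomial ℝ, r ≠ 0 ∧ (Polynomial.aeval (X 0 : R) r) ∈ Ideal.span {f, h} := by
  set c := coeff (Finsupp.single 1 a) f with hcdef
  have hu : IsUnit (Polynomial.C (Polynomial.C c⁻¹) : Polynomial (Polynomial ℝ)) :=
    (isUnit_iff_ne_zero.2 (inv_ne_zero hm)).map (Polynomial.C.comp Polynomial.C)
  have hF : (Polynomial.C (Polynomial.C c⁻¹) * fwd f).Monic := by
    refine Polynomial.monic_of_natDegree_le_of_coeff_eq_one a ?_ ?_
    · exact (Polynomial.natDegree_C_mul_le _ _).trans (fwd_natDegree hf)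
    · rw [Polynomial.coeff_C_mul, fwd_coeff hf, ← Polynomial.C_mul, inv_mul_cancel₀ hm,
        Polynomial.C_1]
  have hrel : IsRelPrime (fwd f) (fwd h) := by
    intro d h1 h2
    have h3 := hc (show bwd d ∣ f by rw [← bwd_fwd f]; exact map_dvd bwd h1)
      (show bwd d ∣ h by rw [← bwd_fwd h]; exact map_dvd bwd h2)
    rw [← fwd_bwd d]
    exact h3.map fwd
  have hrel' : IsRelPrime (Polynomial.C (Polynomial.C c⁻¹) * fwd f) (fwd h) := by
    intro d h1 h2
    exact hrel ((hu.dvd_mul_left).1 h1) h2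
  obtain ⟨r, hr, hr2⟩ := elim_aux _ _ hF hrel'
  refine ⟨r, hr, ?_⟩
  obtain ⟨P, Q, hPQ⟩ := Ideal.mem_span_pair.1 hr2
  have h4 := congrArg bwd hPQ
  rw [map_add, map_mul, map_mul, map_mul, bwd_fwd, bwd_fwd] at h4
  have h5 : bwd (Polynomial.C r) = Polynomial.aeval (X 0 : R) r := by
    show Polynomial.eval₂ _ _ (Polynomial.C r) = _
    rw [Polynomial.eval₂_C]
    rfl
  rw [← h5, ← h4]
  exact Ideal.mem_span_pair.2 ⟨bwd P * bwd (Polynomial.C (Polynomial.C c⁻¹)), bwd Q, by ring⟩

end Pool.Agent.LogCentres
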