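import Pool.Agent.LogCentres.GapB

/-!
# Exponential factors
-/

namespace Pool.Agent.LogCentres

open MvPolynomial Pool.Agent.PlanarCentres Topology

/-- the family `f` with `∏ fᵢ ^ nᵢ + ε g` added -/
noncomputable def expF {ι : Type} [Fintype ι] (f : ι → R) (nn : ι → ℕ) (g : R) (ε : ℝ) :
    Option ι → R := fun o => o.elim (∏ i, f i ^ nn i + ε • g) f

/-- the exponents `lamᵢ - nᵢ / ε` with `1 / ε` added -/
noncomputable def expL {ι : Type} (lam : ι → ℝ) (nn : ι → ℕ) (ε : ℝ) : Option ι → ℝ :=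
  fun o => o.elim ε⁻¹ fun i => lam i - nn i * ε⁻¹

private theorem expF_prod_none {ι : Type} [Fintype ι] [DecidableEq ι] (f : ι → R) (nn : ι → ℕ)
    (g : R) (ε : ℝ) : (∏ o ∈ Finset.univ.erase none, expF f nn g ε o) = ∏ j, f j := by
  have h1 : (Finset.univ.erase (none : Option ι)) = Finset.univ.map Function.Embedding.some := by
    ext o
    cases o <;> simp
  rw [h1, Finset.prod_map]
  rfl

private theorem expF_prod_some {ι : Type} [Fintype ι] [DecidableEq ι] (f : ι → R) (nn : ι → ℕ)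
    (g : R) (ε : ℝ) (j : ι) : (∏ o ∈ Finset.univ.erase (some j), expF f nn g ε o) =
      (∏ i, f i ^ nn i + ε • g) * ∏ l ∈ Finset.univ.erase j, f l := by
  have h1 : (Finset.univ.erase (some j : Option ι)) =
      insert none ((Finset.univ.erase j).map Function.Embedding.some) := by
    ext o
    cases o <;> simp
  rw [h1, Finset.prod_insert (by simp), Finset.prod_map]
  rfl

private theorem dPhi {ι : Type} [Fintype ι] [DecidableEq ι] (f : ι → R) (nn : ι → ℕ)
    (l : Fin 2) : (∏ i, f i) * pderiv l (∏ i, f i ^ nn i) =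
      (∏ i, f i ^ nn i) * logD f (fun i => (nn i : ℝ)) l := by
  rw [cent_pderiv_prod, logD, Finset.mul_sum, Finset.mul_sum]
  refine Finset.sum_congr rfl fun i _ => ?_
  rw [Derivation.leibniz_pow, ← Finset.mul_prod_erase Finset.univ f (Finset.mem_univ i),
    ← Finset.mul_prod_erase Finset.univ (fun i => f i ^ nn i) (Finset.mem_univ i)]
  rcases Nat.eq_zero_or_pos (nn i) with h0 | h0
  · rw [h0]
    simp
  · obtain ⟨m, hm⟩ : ∃ m, nn i = m + 1 := ⟨nn i - 1, by omega⟩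
    rw [hm, Nat.add_sub_cancel]
    simp only [smul_eq_mul, nsmul_eq_mul, Nat.cast_add, Nat.cast_one, smul_eq_C_mul, map_add,
      map_natCast, map_one]
    ring

theorem logD_expF {ι : Type} [Fintype ι] [DecidableEq ι] (f : ι → R) (lam : ι → ℝ)
    (nn : ι → ℕ) (g : R) {ε : ℝ} (hε : ε ≠ 0) (l : Fin 2) :
    logD (expF f nn g ε) (expL lam nn ε) l = expD f lam nn g l + ε • (g * logD f lam l) := by
  have h0 : logD (expF f nn g ε) (expL lam nn ε) l =
      ε⁻¹ • ((∏ j, f j) * pderiv l (∏ i, f i ^ nn i + ε • g)) +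
        (∏ i, f i ^ nn i + ε • g) * (logD f lam l - ε⁻¹ • logD f (fun i => (nn i : ℝ)) l) := by
    rw [logD, Fintype.sum_option, expF_prod_none]
    congr 1
    rw [logD, logD, Finset.smul_sum, ← Finset.sum_sub_distrib, Finset.mul_sum]
    refine Finset.sum_congr rfl fun j _ => ?_
    rw [expF_prod_some]
    show (lam j - nn j * ε⁻¹) • ((∏ i, f i ^ nn i + ε • g) * (∏ l ∈ Finset.univ.erase j, f l) *
      pderiv l (f j)) = _
    simp only [smul_eq_C_mul, map_sub, map_mul]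
    ring
  have h1 := dPhi f nn l
  have h2 : (C ε⁻¹ : R) * C ε = 1 := by rw [← map_mul, inv_mul_cancel₀ hε, map_one]
  rw [h0, expD]
  simp only [smul_eq_C_mul, map_add, Derivation.leibniz, smul_eq_mul, pderiv_C, mul_zero,
    add_zero]
  linear_combination (C ε⁻¹) * h1 + ((∏ i, f i) * pderiv l g -
    g * logD f (fun i => (nn i : ℝ)) l) * h2

theorem expF_deg {ι : Type} [Fintype ι] (f : ι → R) (nn : ι → ℕ) (g : R) (ε : ℝ) :
    ∑ o, (expF f nn g ε o).totalDegree ≤ ∑ i, (f i).totalDegree +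
      max g.totalDegree (∑ i, nn i * (f i).totalDegree) := by
  rw [Fintype.sum_option, add_comm]
  refine add_le_add le_rfl ?_
  show (∏ i, f i ^ nn i + ε • g).totalDegree ≤ _
  refine (totalDegree_add _ _).trans ?_
  rw [max_comm]
  refine max_le_max (totalDegree_smul_le _ _) ?_
  refine (totalDegree_finsetProd _ _).trans ?_
  exact Finset.sum_le_sum fun i _ => totalDegree_pow _ _

theorem logF_expF {ι : Type} [Fintype ι] [DecidableEq ι] (f : ι → R) (lam : ι → ℝ)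
    (nn : ι → ℕ) (g : R) (ε : ℝ) {x : Fin 2 → ℝ} (hx : ∀ i, eval x (f i) ≠ 0)
    (hx' : eval x (∏ i, f i ^ nn i) + ε * eval x g ≠ 0) :
    logF (expF f nn g ε) (expL lam nn ε) x = logF f lam x +
      ε⁻¹ * Real.log (1 + ε * (eval x g / ∏ i, eval x (f i) ^ nn i)) := by
  have hP : (∏ i, eval x (f i) ^ nn i) ≠ 0 :=
    Finset.prod_ne_zero_iff.mpr fun i _ => pow_ne_zero _ (hx i)
  have hPe : eval x (∏ i, f i ^ nn i) = ∏ i, eval x (f i) ^ nn i := by
    rw [map_prod]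
    simp only [map_pow]
  rw [hPe] at hx'
  have h1 : Real.log (1 + ε * (eval x g / ∏ i, eval x (f i) ^ nn i)) =
      Real.log (∏ i, eval x (f i) ^ nn i + ε * eval x g) -
        ∑ i, nn i * Real.log (eval x (f i)) := by
    have h2 : 1 + ε * (eval x g / ∏ i, eval x (f i) ^ nn i) =
        (∏ i, eval x (f i) ^ nn i + ε * eval x g) / ∏ i, eval x (f i) ^ nn i := by
      field_simp
    rw [h2, Real.log_div hx' hP, Real.log_prod fun i _ => pow_ne_zero _ (hx i)]
    simp only [Real.log_pow]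
  rw [h1, logF, Fintype.sum_option, logF]
  show ε⁻¹ * Real.log |eval x (∏ i, f i ^ nn i + ε • g)| +
    ∑ i, (lam i - nn i * ε⁻¹) * Real.log |eval x (f i)| = _
  simp only [Real.log_abs, map_add, smul_eval, hPe]
  simp only [sub_mul, Finset.sum_sub_distrib, mul_sub, Finset.mul_sum]
  have h3 : ∑ i, (nn i : ℝ) * ε⁻¹ * Real.log (eval x (f i)) =
      ∑ i, ε⁻¹ * ((nn i : ℝ) * Real.log (eval x (f i))) :=
    Finset.sum_congr rfl fun i _ => by ring
  rw [h3]
  ring

private theorem log_bound {t : ℝ} (ht : |t| ≤ 1 / 2) : |Real.log (1 + t) - t| ≤ 2 * t ^ 2 := by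
  have h1 := abs_le.mp ht
  have h2 : 0 < 1 + t := by linarith
  have h3 := Real.log_le_sub_one_of_pos h2
  have h4 := Real.one_sub_inv_le_log_of_pos h2
  have h5 : t - 2 * t ^ 2 ≤ 1 - (1 + t)⁻¹ := by
    have h6 : 1 - (1 + t)⁻¹ = t / (1 + t) := by
      field_simp
      ring
    rw [h6, le_div_iff₀ h2]
    nlinarith [sq_nonneg t]
  rw [abs_le]
  constructor
  · linarith
  · nlinarith [sq_nonneg t]

private theorem approx {ι : Type} [Fintype ι] [DecidableEq ι] (f : ι → R) (lam : ι → ℝ)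
    (nn : ι → ℕ) (g : R) {ε M : ℝ} (he : 0 < ε) (heM : ε * M ≤ 1 / 2) {x : Fin 2 → ℝ}
    (hx : ∀ i, eval x (f i) ≠ 0) (hM : |eval x g / ∏ i, eval x (f i) ^ nn i| ≤ M) :
    (∀ o, eval x (expF f nn g ε o) ≠ 0) ∧
      |logF (expF f nn g ε) (expL lam nn ε) x - expH f lam nn g x| ≤ 2 * ε * M ^ 2 := by
  have hP : (∏ i, eval x (f i) ^ nn i) ≠ 0 :=
    Finset.prod_ne_zero_iff.mpr fun i _ => pow_ne_zero _ (hx i)
  have hPe : eval x (∏ i, f i ^ nn i) = ∏ i, eval x (f i) ^ nn i := by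
    rw [map_prod]
    simp only [map_pow]
  have hM0 : 0 ≤ M := le_trans (abs_nonneg _) hM
  have hut : |ε * (eval x g / ∏ i, eval x (f i) ^ nn i)| ≤ 1 / 2 := by
    rw [abs_mul, abs_of_pos he]
    exact le_trans (mul_le_mul_of_nonneg_left hM he.le) heM
  have h1 : 0 < 1 + ε * (eval x g / ∏ i, eval x (f i) ^ nn i) := by
    have := abs_le.mp hut
    linarith
  have hev : eval x (∏ i, f i ^ nn i) + ε * eval x g ≠ 0 := by
    have h2 : eval x (∏ i, f i ^ nn i) + ε * eval x g =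
        (∏ i, eval x (f i) ^ nn i) * (1 + ε * (eval x g / ∏ i, eval x (f i) ^ nn i)) := by
      rw [hPe]
      field_simp
    rw [h2]
    exact mul_ne_zero hP h1.ne'
  refine ⟨?_, ?_⟩
  · rintro (_ | i)
    · change eval x (∏ i, f i ^ nn i + ε • g) ≠ 0
      rw [map_add, smul_eval]
      exact hev
    · exact hx i
  · rw [logF_expF f lam nn g ε hx hev, expH]
    have h2 := log_bound hut
    have h3 : logF f lam x + ε⁻¹ * Real.log (1 + ε * (eval x g / ∏ i, eval x (f i) ^ nn i)) -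
        (logF f lam x + eval x g / ∏ i, eval x (f i) ^ nn i) =
        ε⁻¹ * (Real.log (1 + ε * (eval x g / ∏ i, eval x (f i) ^ nn i)) -
          ε * (eval x g / ∏ i, eval x (f i) ^ nn i)) := by
      field_simp
      ring
    rw [h3, abs_mul, abs_of_pos (inv_pos.mpr he), inv_mul_le_iff₀ he]
    refine h2.trans ?_
    have h4 : (eval x g / ∏ i, eval x (f i) ^ nn i) ^ 2 ≤ M ^ 2 := by
      rw [← sq_abs]
      exact pow_le_pow_left₀ (abs_nonneg _) hM 2
    have h5 : ε ^ 2 * (eval x g / ∏ i, eval x (f i) ^ nn i) ^ 2 ≤ ε ^ 2 * M ^ 2 :=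
      mul_le_mul_of_nonneg_left h4 (sq_nonneg ε)
    nlinarith [h5]

theorem continuousOn_expH {ι : Type} [Fintype ι] [DecidableEq ι] (f : ι → R)
    (lam : ι → ℝ) (nn : ι → ℕ) (g : R) {s : Set (Fin 2 → ℝ)}
    (hs : ∀ x ∈ s, ∀ i, eval x (f i) ≠ 0) :
    ContinuousOn (fun x => eval x g / ∏ i, eval x (f i) ^ nn i) s ∧
      ContinuousOn (expH f lam nn g) s := by
  have h1 : ContinuousOn (fun x => eval x g / ∏ i, eval x (f i) ^ nn i) s := by
    refine ContinuousOn.div (MvPolynomial.continuous_eval g).continuousOn ?_ fun x hx =>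
      Finset.prod_ne_zero_iff.mpr fun i _ => pow_ne_zero _ (hs x hx i)
    exact (continuous_finsetProd _ fun i _ =>
      (MvPolynomial.continuous_eval (f i)).pow _).continuousOn
  refine ⟨h1, ContinuousOn.add ?_ h1⟩
  refine continuousOn_finsetSum _ fun i _ => ContinuousOn.mul continuousOn_const ?_
  exact ContinuousOn.log (MvPolynomial.continuous_eval (f i)).abs.continuousOn fun x hx =>
    abs_ne_zero.mpr (hs x hx i)

theorem sphere_gap {F : (Fin 2 → ℝ) → ℝ} {p : Fin 2 → ℝ} {r : ℝ} (hr : 0 < r)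
    (hF : ContinuousOn F (Metric.sphere p r)) (h : ∀ x ∈ Metric.sphere p r, F x < F p) :
    ∃ δ > 0, ∀ x ∈ Metric.sphere p r, F x + δ ≤ F p := by
  obtain ⟨y, hy, hmax⟩ := (isCompact_sphere p r).exists_isMaxOn
    ((NormedSpace.sphere_nonempty (x := p) (r := r)).mpr hr.le) hF
  refine ⟨F p - F y, sub_pos.mpr (h y hy), fun x hx => ?_⟩
  have : F x ≤ F y := hmax hx
  linarith

theorem good_a {ι : Type} [Fintype ι] [DecidableEq ι] (f : ι → R) (lam : ι → ℝ)
    (nn : ι → ℕ) (g : R) {p : Fin 2 → ℝ} {r : ℝ} (hr : 0 < r)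
    (hne : ∀ x ∈ Metric.closedBall p r, ∀ i, eval x (f i) ≠ 0)
    (h : Gap (expH f lam nn g) p r) :
    ∀ᶠ ε in 𝓝[>] (0 : ℝ), Good (expF f nn g ε) (expL lam nn ε) p r := by
  obtain ⟨hc1, hc2⟩ := continuousOn_expH f lam nn g hne
  obtain ⟨M, hM⟩ := (isCompact_closedBall p r).exists_bound_of_continuousOn hc1
  simp only [Real.norm_eq_abs] at hM
  have hc3 : ContinuousOn (expH f lam nn g) (Metric.sphere p r) :=
    hc2.mono Metric.sphere_subset_closedBall
  have hgap : ∃ δ > 0, (∀ x ∈ Metric.sphere p r, expH f lam nn g x + δ ≤ expH f lam nn g p) ∨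
      ∀ x ∈ Metric.sphere p r, expH f lam nn g p + δ ≤ expH f lam nn g x := by
    rcases h with h | h
    · obtain ⟨δ, h1, h2⟩ := sphere_gap hr hc3 h
      exact ⟨δ, h1, Or.inl h2⟩
    · obtain ⟨δ, h1, h2⟩ := sphere_gap hr hc3.neg fun x hx => neg_lt_neg (h x hx)
      refine ⟨δ, h1, Or.inr fun x hx => ?_⟩
      have := h2 x hx
      simp only [Pi.neg_apply] at this
      linarith
  obtain ⟨δ, hδ, hgap⟩ := hgap
  have hM0 : 0 ≤ M := le_trans (abs_nonneg _) (hM p (Metric.mem_closedBall_self hr.le))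
  have hb : 0 < min (1 / (2 * (M + 1))) (δ / (8 * (M ^ 2 + 1))) := by positivity
  filter_upwards [Ioo_mem_nhdsGT hb] with ε hε
  have he : 0 < ε := hε.1
  have h1 : ε * M ≤ 1 / 2 := by
    have h2 : ε ≤ 1 / (2 * (M + 1)) := (hε.2.le).trans (min_le_left _ _)
    rw [le_div_iff₀ (by positivity)] at h2
    nlinarith
  have h3 : 2 * ε * M ^ 2 ≤ δ / 4 := by
    have h2 : ε ≤ δ / (8 * (M ^ 2 + 1)) := (hε.2.le).trans (min_le_right _ _)
    rw [le_div_iff₀ (by positivity)] at h2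
    nlinarith
  have happ := fun x (hx : x ∈ Metric.closedBall p r) =>
    approx f lam nn g he h1 (hne x hx) (hM x hx)
  have hp := abs_le.mp ((happ p (Metric.mem_closedBall_self hr.le)).2.trans h3)
  refine Or.inl ⟨fun x hx => (happ x hx).1, ?_⟩
  rcases hgap with hgap | hgap
  · refine Or.inl fun x hx => ?_
    have hx' := abs_le.mp ((happ x (Metric.sphere_subset_closedBall hx)).2.trans h3)
    have := hgap x hx
    linarith [hp.1, hp.2, hx'.1, hx'.2]
  · refine Or.inr fun x hx => ?_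
    have hx' := abs_le.mp ((happ x (Metric.sphere_subset_closedBall hx)).2.trans h3)
    have := hgap x hx
    linarith [hp.1, hp.2, hx'.1, hx'.2]

private theorem good_b {ι : Type} [Fintype ι] [DecidableEq ι] (f : ι → R) (lam : ι → ℝ)
    (nn : ι → ℕ) (g : R) {p : Fin 2 → ℝ} {r : ℝ} (hr : 0 < r)
    (h : FocusZero (expD f lam nn g 1) (-expD f lam nn g 0) p) :
    ∀ᶠ ε in 𝓝[>] (0 : ℝ), Good (expF f nn g ε) (expL lam nn ε) p r := by
  obtain ⟨ε₀, hε₀, H⟩ := persist_focus (m := 1) (fun _ => g * logD f lam 1)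
    (fun _ => -(g * logD f lam 0)) (Metric.mem_ball_self hr) h
  filter_upwards [Ioo_mem_nhdsGT hε₀] with ε hε
  obtain ⟨q, hq, hz⟩ := H (fun _ => ε) fun _ => by
    rw [abs_of_pos hε.1]
    exact hε.2
  refine Or.inr ⟨q, hq, ?_⟩
  rw [logD_expF f lam nn g hε.1.ne', logD_expF f lam nn g hε.1.ne']
  rw [Fin.sum_univ_one, Fin.sum_univ_one] at hz
  have h1 : -(expD f lam nn g 0 + ε • (g * logD f lam 0)) =
      -expD f lam nn g 0 + ε • -(g * logD f lam 0) := by
    rw [smul_neg]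
    ring
  rw [h1]
  exact hz

theorem radius_a {ι : Type} [Fintype ι] [DecidableEq ι] (f : ι → R) (lam : ι → ℝ)
    (nn : ι → ℕ) (g : R) {p : Fin 2 → ℝ} (hp : ∀ i, eval p (f i) ≠ 0)
    (h : (∀ᶠ q in 𝓝[≠] p, expH f lam nn g q < expH f lam nn g p) ∨
        ∀ᶠ q in 𝓝[≠] p, expH f lam nn g p < expH f lam nn g q) :
    ∀ᶠ r in 𝓝[>] (0 : ℝ), (∀ x ∈ Metric.closedBall p r, ∀ i, eval x (f i) ≠ 0) ∧
      Gap (expH f lam nn g) p r := by
  have h1 : ∀ᶠ q in 𝓝 p, ∀ i, eval q (f i) ≠ 0 := by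
    rw [Filter.eventually_all]
    exact fun i => (MvPolynomial.continuous_eval (f i)).continuousAt.eventually_ne (hp i)
  obtain ⟨ρ₁, hρ₁, H1⟩ := Metric.eventually_nhds_iff_ball.mp h1
  have key : ∀ P : (Fin 2 → ℝ) → Prop, (∀ᶠ q in 𝓝[≠] p, P q) →
      ∃ ρ > 0, ∀ r, 0 < r → r < ρ → ∀ x ∈ Metric.sphere p r, P x := by
    intro P hP
    obtain ⟨ρ, hρ, H⟩ := Metric.eventually_nhds_iff_ball.mp (eventually_nhdsWithin_iff.mp hP)
    refine ⟨ρ, hρ, fun r h0 hr x hx => H x ?_ ?_⟩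
    · rw [Metric.mem_ball, Metric.mem_sphere.mp hx]
      exact hr
    · rintro rfl
      rw [Metric.mem_sphere, dist_self] at hx
      exact h0.ne hx
  have hg : ∃ ρ > 0, ∀ r, 0 < r → r < ρ → Gap (expH f lam nn g) p r := by
    rcases h with h | h
    · obtain ⟨ρ, hρ, H⟩ := key _ h
      exact ⟨ρ, hρ, fun r h0 hr => Or.inl (H r h0 hr)⟩
    · obtain ⟨ρ, hρ, H⟩ := key _ h
      exact ⟨ρ, hρ, fun r h0 hr => Or.inr (H r h0 hr)⟩
  obtain ⟨ρ₂, hρ₂, H2⟩ := hg
  filter_upwards [Ioo_mem_nhdsGT (lt_min hρ₁ hρ₂)] with r hr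
  refine ⟨fun x hx => H1 x ?_, H2 r hr.1 (hr.2.trans_le (min_le_right _ _))⟩
  rw [Metric.mem_ball]
  exact (Metric.mem_closedBall.mp hx).trans_lt (hr.2.trans_le (min_le_left _ _))

theorem exp_bound {ι : Type} [Fintype ι] [DecidableEq ι] (f : ι → R) (lam : ι → ℝ) (nn : ι → ℕ)
    (g : R) (hf : ∀ i, f i ≠ 0) {n : ℕ}
    (hn : ∑ i, (f i).totalDegree +
      max g.totalDegree (∑ i, nn i * (f i).totalDegree) ≤ n + 1)
    (S : Finset (Fin 2 → ℝ))
    (hS : ∀ p ∈ S, ((∀ i, eval p (f i) ≠ 0) ∧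
      ((∀ᶠ q in 𝓝[≠] p, expH f lam nn g q < expH f lam nn g p) ∨
        ∀ᶠ q in 𝓝[≠] p, expH f lam nn g p < expH f lam nn g q)) ∨
      FocusZero (expD f lam nn g 1) (-expD f lam nn g 0) p) : 2 * S.card ≤ n ^ 2 + 1 := by
  classical
  have hr1 : ∀ᶠ r in 𝓝[>] (0 : ℝ), ∀ p ∈ S,
      ((∀ x ∈ Metric.closedBall p r, ∀ i, eval x (f i) ≠ 0) ∧ Gap (expH f lam nn g) p r) ∨
        FocusZero (expD f lam nn g 1) (-expD f lam nn g 0) p := by
    rw [Filter.eventually_all_finset]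
    intro p hp
    rcases hS p hp with h | h
    · exact (radius_a f lam nn g h.1 h.2).mono fun _ => Or.inl
    · exact Filter.Eventually.of_forall fun _ => Or.inr h
  have hr2 : ∀ᶠ r in 𝓝[>] (0 : ℝ), ∀ p ∈ S, ∀ q ∈ S, p ≠ q →
      Disjoint (Metric.ball p r) (Metric.ball q r) := by
    rw [Filter.eventually_all_finset]
    intro p _
    rw [Filter.eventually_all_finset]
    intro q _
    rcases eq_or_ne p q with h | h
    · exact Filter.Eventually.of_forall fun _ h' => absurd h h'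
    · have h1 : 0 < dist p q / 2 := by
        have := dist_pos.mpr h
        positivity
      filter_upwards [Ioo_mem_nhdsGT h1] with r hr _
      refine Metric.ball_disjoint_ball ?_
      linarith [hr.2]
  obtain ⟨r, ⟨hr1, hr2⟩, hr0⟩ := ((hr1.and hr2).and self_mem_nhdsWithin).exists
  have hr0 : 0 < r := hr0
  have hgood : ∀ᶠ ε in 𝓝[>] (0 : ℝ), ∀ p ∈ S, Good (expF f nn g ε) (expL lam nn ε) p r := by
    rw [Filter.eventually_all_finset]
    intro p hp
    rcases hr1 p hp with h | h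
    · exact good_a f lam nn g hr0 h.1 h.2
    · exact good_b f lam nn g hr0 h
  have hΦ : (∏ i, f i ^ nn i) ≠ 0 := Finset.prod_ne_zero_iff.mpr fun i _ => pow_ne_zero _ (hf i)
  obtain ⟨s, hs⟩ := MvPolynomial.ne_zero_iff.mp hΦ
  have hne : ∀ᶠ ε in 𝓝[>] (0 : ℝ), coeff s (∏ i, f i ^ nn i) + ε * coeff s g ≠ 0 := by
    have hc : ContinuousAt (fun ε : ℝ => coeff s (∏ i, f i ^ nn i) + ε * coeff s g) 0 := by
      fun_prop
    refine (hc.eventually_ne ?_).filter_mono nhdsWithin_le_nhds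
    rw [zero_mul, add_zero]
    exact hs
  obtain ⟨ε, h1, h2⟩ := (hgood.and hne).exists
  refine gap_bound (expF f nn g ε) (expL lam nn ε) ?_ ((expF_deg f nn g ε).trans hn) S hr0 hr2 h1
  rintro (_ | i)
  · change ∏ i, f i ^ nn i + ε • g ≠ 0
    intro h0
    apply h2
    have h3 := congrArg (coeff s) h0
    rwa [coeff_add, coeff_smul, coeff_zero, smul_eq_mul] at h3
  · exact hf i

end Pool.Agent.LogCentres
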