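import Pool.Agent.LogCentres.ExpB

/-!
# The bound for the number of gaps
-/

namespace Pool.Agent.LogCentres

open MvPolynomial Pool.Agent.PlanarCentres Topology

theorem exp_bound_gap {ι : Type} [Fintype ι] [DecidableEq ι] (f : ι → R) (lam : ι → ℝ)
    (nn : ι → ℕ) (g : R) (hf : ∀ i, f i ≠ 0) {n : ℕ}
    (hn : ∑ i, (f i).totalDegree +
      max g.totalDegree (∑ i, nn i * (f i).totalDegree) ≤ n + 1)
    (S : Finset (Fin 2 → ℝ)) {r : ℝ} (hr : 0 < r)
    (hdisj : ∀ p ∈ S, ∀ q ∈ S, p ≠ q → Disjoint (Metric.ball p r) (Metric.ball q r))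
    (hS : ∀ p ∈ S, (∀ x ∈ Metric.closedBall p r, ∀ i, eval x (f i) ≠ 0) ∧
      Gap (expH f lam nn g) p r) : 2 * S.card ≤ n ^ 2 + 1 := by
  classical
  have hgood : ∀ᶠ ε in 𝓝[>] (0 : ℝ), ∀ p ∈ S, Good (expF f nn g ε) (expL lam nn ε) p r := by
    rw [Filter.eventually_all_finset]
    intro p hp
    exact good_a f lam nn g hr (hS p hp).1 (hS p hp).2
  have hΦ : (∏ i, f i ^ nn i) ≠ 0 := Finset.prod_ne_zero_iff.mpr fun i _ => pow_ne_zero _ (hf i)
  obtain ⟨s, hs⟩ := MvPolynomial.ne_zero_iff.mp hΦ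
  have hne : ∀ᶠ ε in 𝓝[>] (0 : ℝ), coeff s (∏ i, f i ^ nn i) + ε * coeff s g ≠ 0 := by
    have hc : ContinuousAt (fun ε : ℝ => coeff s (∏ i, f i ^ nn i) + ε * coeff s g) 0 := by
      fun_prop
    refine (hc.eventually_ne ?_).filter_mono nhdsWithin_le_nhds
    rw [zero_mul, add_zero]
    exact hs
  obtain ⟨ε, h1, h2⟩ := (hgood.and hne).exists
  refine gap_bound (expF f nn g ε) (expL lam nn ε) ?_ ((expF_deg f nn g ε).trans hn) S hr hdisj h1
  rintro (_ | i)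
  · change ∏ i, f i ^ nn i + ε • g ≠ 0
    intro h0
    apply h2
    have h3 := congrArg (coeff s) h0
    rwa [coeff_add, coeff_smul, coeff_zero, smul_eq_mul] at h3
  · exact hf i

end Pool.Agent.LogCentres
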