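import Pool.Agent.LogCentres.PertAll

/-!
# Extrema and isolated points of the curves
-/

namespace Pool.Agent.LogCentres

open MvPolynomial Pool.Agent.PlanarCentres Topology

/-- the curve `fᵢ = 0` is a singularity of the Darboux function -/
def Nontriv {ι : Type} (lam : ι → ℝ) (nn : ι → ℕ) (i : ι) : Prop := lam i ≠ 0 ∨ nn i ≠ 0

open Classical in
/-- factors with zero exponents are replaced by `1` -/
noncomputable def redF {ι : Type} (f : ι → R) (lam : ι → ℝ) (nn : ι → ℕ) (i : ι) : R :=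
  if Nontriv lam nn i then f i else 1

theorem redF_pos {ι : Type} {f : ι → R} {lam : ι → ℝ} {nn : ι → ℕ} {i : ι}
    (h : Nontriv lam nn i) : redF f lam nn i = f i := if_pos h

theorem redF_neg {ι : Type} {f : ι → R} {lam : ι → ℝ} {nn : ι → ℕ} {i : ι}
    (h : ¬ Nontriv lam nn i) : redF f lam nn i = 1 := if_neg h

theorem redF_ne_zero {ι : Type} {f : ι → R} {lam : ι → ℝ} {nn : ι → ℕ} {x : Fin 2 → ℝ} :
    (∀ i, eval x (redF f lam nn i) ≠ 0) ↔ ∀ i, Nontriv lam nn i → eval x (f i) ≠ 0 := by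
  constructor
  · intro h i hi
    have := h i
    rwa [redF_pos hi] at this
  · intro h i
    by_cases hi : Nontriv lam nn i
    · rw [redF_pos hi]
      exact h i hi
    · rw [redF_neg hi, map_one]
      exact one_ne_zero

theorem expH_redF {ι : Type} [Fintype ι] (f : ι → R) (lam : ι → ℝ) (nn : ι → ℕ) (g : R) :
    expH (redF f lam nn) lam nn g = expH f lam nn g := by
  funext x
  unfold expH logF
  congr 1
  · refine Finset.sum_congr rfl fun i _ => ?_
    by_cases hi : Nontriv lam nn i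
    · rw [redF_pos hi]
    · have h1 : lam i = 0 := by
        by_contra h
        exact hi (Or.inl h)
      rw [h1, zero_mul, zero_mul]
  · congr 1
    refine Finset.prod_congr rfl fun i _ => ?_
    by_cases hi : Nontriv lam nn i
    · rw [redF_pos hi]
    · have h1 : nn i = 0 := by
        by_contra h
        exact hi (Or.inr h)
      rw [h1, pow_zero, pow_zero]

theorem totalDegree_redF {ι : Type} (f : ι → R) (lam : ι → ℝ) (nn : ι → ℕ) (i : ι) :
    (redF f lam nn i).totalDegree ≤ (f i).totalDegree := by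
  by_cases hi : Nontriv lam nn i
  · rw [redF_pos hi]
  · rw [redF_neg hi, totalDegree_one]
    exact Nat.zero_le _

theorem expH_add_C {ι : Type} [Fintype ι] [DecidableEq ι] (f : ι → R) (lam : ι → ℝ)
    (nn : ι → ℕ) (g : R) {p : Fin 2 → ℝ} {r : ℝ} (hr : 0 < r)
    (h1 : ∀ x ∈ Metric.closedBall p r, ∀ i, eval x (f i) ≠ 0)
    (h : Gap (expH f lam nn g) p r) :
    ∀ᶠ ε in 𝓝[>] (0 : ℝ), Gap (expH f lam nn (g + C ε)) p r := by
  have hG : Continuous fun z : ℝ × (Fin 2 → ℝ) => eval z.2 (g + C z.1) := by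
    simp only [map_add, eval_C]
    exact ((MvPolynomial.continuous_eval _).comp continuous_snd).add continuous_fst
  have hc : ∀ x ∈ Metric.closedBall p r, ContinuousAt (fun z : ℝ × (Fin 2 → ℝ) =>
      expH f lam nn (g + C z.1) z.2) (0, x) := by
    intro x hx
    exact expH_contAt (F := fun _ => f) (G := fun ε => g + C ε) lam nn
      (fun i => (MvPolynomial.continuous_eval _).comp continuous_snd) hG fun i => h1 x hx i
  refine Filter.Eventually.filter_mono nhdsWithin_le_nhds
    (gap_persist (Ψ := fun ε => expH f lam nn (g + C ε)) hr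
      (fun x hx => hc x (Metric.sphere_subset_closedBall hx)) ?_ ?_)
  · exact (hc p (Metric.mem_closedBall_self hr.le)).comp (f := fun ε : ℝ => (ε, p))
      (by fun_prop)
  · simp only [C_0, add_zero]
    exact h

/-- punctured neighbourhoods contain punctured closed balls -/
theorem punctured_radius {p : Fin 2 → ℝ} {W : (Fin 2 → ℝ) → Prop} (h : ∀ᶠ q in 𝓝[≠] p, W q) :
    ∀ᶠ r in 𝓝[>] (0 : ℝ), ∀ x ∈ Metric.closedBall p r, x ≠ p → W x := by
  obtain ⟨ρ, hρ, H⟩ := Metric.eventually_nhds_iff_ball.mp (eventually_nhdsWithin_iff.mp h)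
  filter_upwards [Ioo_mem_nhdsGT hρ] with r hr x hx hxp
  refine H x ?_ hxp
  rw [Metric.mem_ball]
  exact (Metric.mem_closedBall.mp hx).trans_lt hr.2

theorem ext_bound {ι : Type} [Fintype ι] [DecidableEq ι] (f : ι → R) (lam : ι → ℝ)
    (nn : ι → ℕ) (g : R) {n : ℕ}
    (hn : ∑ i, (f i).totalDegree +
      max g.totalDegree (∑ i, nn i * (f i).totalDegree) ≤ n + 1)
    (S : Finset (Fin 2 → ℝ))
    (hS : ∀ p ∈ S, ((∀ i, Nontriv lam nn i → eval p (f i) ≠ 0) ∧
      ((∀ᶠ q in 𝓝[≠] p, expH f lam nn g q < expH f lam nn g p) ∨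
        ∀ᶠ q in 𝓝[≠] p, expH f lam nn g p < expH f lam nn g q)) ∨
      ((∃ i, Nontriv lam nn i ∧ eval p (f i) = 0) ∧
        ∀ᶠ q in 𝓝[≠] p, ∀ i, Nontriv lam nn i → eval q (f i) ≠ 0)) :
    2 * S.card ≤ n ^ 2 + 1 := by
  classical
  set F := redF f lam nn with hF
  have hH : expH F lam nn g = expH f lam nn g := expH_redF f lam nn g
  -- the radius
  have hr1 : ∀ᶠ r in 𝓝[>] (0 : ℝ), ∀ p ∈ S,
      (∀ x ∈ Metric.closedBall p r, x ≠ p → ∀ i, eval x (F i) ≠ 0) ∧
        ((∀ i, eval p (F i) ≠ 0) → Gap (expH F lam nn g) p r) := by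
    rw [Filter.eventually_all_finset]
    intro p hp
    rcases hS p hp with ⟨h1, h2⟩ | ⟨⟨i, hi, hi0⟩, h2⟩
    · refine (radius_a F lam nn g (redF_ne_zero.2 h1) (by rw [hH]; exact h2)).mono ?_
      intro r hr
      exact ⟨fun x hx _ => hr.1 x hx, fun _ => hr.2⟩
    · refine (punctured_radius h2).mono fun r hr => ⟨fun x hx hxp => ?_, fun h => ?_⟩
      · exact redF_ne_zero.2 (hr x hx hxp)
      · exact absurd hi0 (redF_ne_zero.1 h i hi)
  have hr2 : ∀ᶠ r in 𝓝[>] (0 : ℝ), ∀ p ∈ S, ∀ q ∈ S, p ≠ q →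
      Disjoint (Metric.ball p r) (Metric.ball q r) := by
    rw [Filter.eventually_all_finset]
    intro p _
    rw [Filter.eventually_all_finset]
    intro q _
    rcases eq_or_ne p q with h | h
    · exact Filter.Eventually.of_forall fun _ h' => absurd h h'
    · have h1 : 0 < dist p q / 2 := by
        have := dist_pos.mpr h
        positivity
      filter_upwards [Ioo_mem_nhdsGT h1] with r hr _
      refine Metric.ball_disjoint_ball ?_
      linarith [hr.2]
  obtain ⟨r, ⟨hr1, hr2⟩, hr0⟩ := ((hr1.and hr2).and self_mem_nhdsWithin).exists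
  have hr0 : 0 < r := hr0
  -- the constant
  have e1 : ∀ᶠ ε in 𝓝[>] (0 : ℝ), ∀ p ∈ S, eval p (g + C ε) ≠ 0 := by
    rw [Filter.eventually_all_finset]
    intro p _
    simp only [map_add, eval_C]
    by_cases h : eval p g = 0
    · filter_upwards [self_mem_nhdsWithin] with ε hε
      rw [h, zero_add]
      exact (Set.mem_Ioi.1 hε).ne'
    · have hc : ContinuousAt (fun ε : ℝ => eval p g + ε) 0 := by fun_prop
      refine (hc.eventually_ne ?_).filter_mono nhdsWithin_le_nhds
      rw [add_zero]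
      exact h
  have e2 : ∀ᶠ ε in 𝓝[>] (0 : ℝ), ∀ p ∈ S, (∀ i, eval p (F i) ≠ 0) →
      Gap (expH F lam nn (g + C ε)) p r := by
    rw [Filter.eventually_all_finset]
    intro p hp
    by_cases h : ∀ i, eval p (F i) ≠ 0
    · refine (expH_add_C F lam nn g hr0 ?_ ((hr1 p hp).2 h)).mono fun ε hε _ => hε
      intro x hx i
      by_cases hxp : x = p
      · rw [hxp]; exact h i
      · exact (hr1 p hp).1 x hx hxp i
    · exact Filter.Eventually.of_forall fun ε h' => absurd h' h
  obtain ⟨ε, hε1, hε2⟩ := (e1.and e2).exists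
  refine pert_bound F lam nn (g + C ε) (n := n) ?_ S hr0 hr2 ?_ ?_ hε2
  · refine le_trans (add_le_add (Finset.sum_le_sum fun i _ => totalDegree_redF f lam nn i) ?_) hn
    refine max_le_max ?_ (Finset.sum_le_sum fun i _ =>
      Nat.mul_le_mul le_rfl (totalDegree_redF f lam nn i))
    refine (totalDegree_add _ _).trans (max_le le_rfl ?_)
    rw [totalDegree_C]
    exact Nat.zero_le _
  · intro p hp i x hx hxp
    exact (hr1 p hp).1 x hx hxp i
  · intro p hp i hi
    have hnt : Nontriv lam nn i := by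
      by_contra h
      rw [hF, redF_neg h, map_one] at hi
      exact one_ne_zero hi
    by_cases h0 : nn i = 0
    · refine Or.inl ⟨h0, ?_⟩
      rcases hnt with h | h
      · exact h
      · exact absurd h0 h
    · exact Or.inr ⟨h0, hε1 p hp⟩

end Pool.Agent.LogCentres
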