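import Pool.Agent.LogCentres.Defs3

/-!
# Extrema of Darboux functions: definitions
-/

namespace Pool.Agent.LogCentres

open MvPolynomial Pool.Agent.PlanarCentres

/-- `∑ᵢ λᵢ log |fᵢ|` -/
noncomputable def logF {ι : Type} [Fintype ι] (f : ι → R) (lam : ι → ℝ) (x : Fin 2 → ℝ) : ℝ :=
  ∑ i, lam i * Real.log |eval x (f i)|

/-- `f + c₀ + c₁ x + c₂ y` -/
noncomputable def pertF (f : R) (c : Fin 3 → ℝ) : R :=
  f + C (c 0) + C (c 1) * X 0 + C (c 2) * X 1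

/-- `λ h ∂ₗ f_c + f_c Hₗ`, where `f_c = f + c₀ + c₁ x + c₂ y` -/
noncomputable def pertX (f h : R) (H : Fin 2 → R) (lam : ℝ) (c : Fin 3 → ℝ) (l : Fin 2) : R :=
  lam • (h * pderiv l (pertF f c)) + pertF f c * H l

end Pool.Agent.LogCentres
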