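import Pool.Agent.LogCentres.ExtDefs

/-!
# Focus type zeros, gaps, generalised Darboux forms
-/

namespace Pool.Agent.LogCentres

open MvPolynomial Pool.Agent.PlanarCentres

/-- a common zero of `P, Q` at which the eigenvalues of the linear part are not real -/
def FocusZero (P Q : R) (s : Fin 2 → ℝ) : Prop :=
  eval s P = 0 ∧ eval s Q = 0 ∧
    (eval s (pderiv 0 P) + eval s (pderiv 1 Q)) ^ 2 < 4 * eval s (jacP P Q)

/-- the value at the centre of the ball is larger, or smaller, than all values on the sphere -/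
def Gap (L : (Fin 2 → ℝ) → ℝ) (p : Fin 2 → ℝ) (r : ℝ) : Prop :=
  (∀ x ∈ Metric.sphere p r, L x < L p) ∨ ∀ x ∈ Metric.sphere p r, L p < L x

/-- a ball that contains a centre of every small perturbation -/
def Good {ι : Type} [Fintype ι] [DecidableEq ι] (f : ι → R) (lam : ι → ℝ) (p : Fin 2 → ℝ)
    (r : ℝ) : Prop :=
  ((∀ x ∈ Metric.closedBall p r, ∀ i, eval x (f i) ≠ 0) ∧ Gap (logF f lam) p r) ∨
    ∃ q ∈ Metric.ball p r, FocusZero (logD f lam 1) (-logD f lam 0) q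

/-- `Φ ∑ λᵢ (∏_{j ≠ i} fⱼ) ∂ₗ fᵢ + (∏ fᵢ) ∂ₗ g - g ∑ nᵢ (∏_{j ≠ i} fⱼ) ∂ₗ fᵢ`, `Φ = ∏ fᵢ ^ nᵢ`: the
derivative of `∑ λᵢ log |fᵢ| + g / Φ` multiplied by `Φ ∏ fᵢ` -/
noncomputable def expD {ι : Type} [Fintype ι] [DecidableEq ι] (f : ι → R) (lam : ι → ℝ)
    (nn : ι → ℕ) (g : R) (l : Fin 2) : R :=
  (∏ i, f i ^ nn i) * logD f lam l + (∏ i, f i) * pderiv l g -
    g * logD f (fun i => (nn i : ℝ)) l

/-- `∑ λᵢ log |fᵢ| + g / ∏ fᵢ ^ nᵢ` -/
noncomputable def expH {ι : Type} [Fintype ι] (f : ι → R) (lam : ι → ℝ) (nn : ι → ℕ) (g : R)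
    (x : Fin 2 → ℝ) : ℝ :=
  logF f lam x + eval x g / ∏ i, eval x (f i) ^ nn i

end Pool.Agent.LogCentres
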