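import Pool.Agent.LogCentres.Affine
import Pool.Agent.LogCentres.Cent
import Pool.Agent.PlanarCentres.Encard

/-!
# The bound for centres
-/

namespace Pool.Agent.LogCentres

open MvPolynomial Pool.Agent.PlanarCentres

/-- a product over all indices different from `i`, split by the sign of the exponents -/
theorem prod_split {ι : Type} [Fintype ι] [DecidableEq ι] (f : ι → R) (lam : ι → ℝ)
    (hlam : ∀ i, lam i ≠ 0) :
    (∏ i : {i // 0 < lam i}, f i) * ∏ j : {j // lam j < 0}, f j = ∏ i, f i := by
  classical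
  have h1 : ∏ i : {i // 0 < lam i}, f i = ∏ i ∈ Finset.univ.filter (fun i => 0 < lam i), f i := by
    rw [Finset.prod_subtype (p := fun i => 0 < lam i) _ (fun i => by simp)]
  have h2 : ∏ j : {j // lam j < 0}, f j =
      ∏ i ∈ Finset.univ.filter (fun i => ¬ 0 < lam i), f i := by
    rw [Finset.prod_subtype (p := fun j => lam j < 0) _ (fun i => by
      simp only [Finset.mem_filter, Finset.mem_univ, true_and, not_lt]
      exact ⟨fun h => lt_of_le_of_ne h (hlam i), fun h => h.le⟩)]
  rw [h1, h2, Finset.prod_filter_mul_prod_filter_not]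

theorem sum_split {ι M : Type} [AddCommMonoid M] [Fintype ι] (g : ι → M) (lam : ι → ℝ)
    (hlam : ∀ i, lam i ≠ 0) :
    ∑ i : {i // 0 < lam i}, g i + ∑ j : {j // lam j < 0}, g j = ∑ i, g i := by
  classical
  have h1 : ∑ i : {i // 0 < lam i}, g i = ∑ i ∈ Finset.univ.filter (fun i => 0 < lam i), g i := by
    rw [Finset.sum_subtype (p := fun i => 0 < lam i) _ (fun i => by simp)]
  have h2 : ∑ j : {j // lam j < 0}, g j =
      ∑ i ∈ Finset.univ.filter (fun i => ¬ 0 < lam i), g i := by
    rw [Finset.sum_subtype (p := fun j => lam j < 0) _ (fun i => by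
      simp only [Finset.mem_filter, Finset.mem_univ, true_and, not_lt]
      exact ⟨fun h => lt_of_le_of_ne h (hlam i), fun h => h.le⟩)]
  rw [h1, h2, Finset.sum_filter_add_sum_filter_not]

/-- the logarithmic sum, split by the sign of the exponents -/
theorem log_split {ι : Type} [Fintype ι] [DecidableEq ι] (f : ι → R) (lam : ι → ℝ)
    (hf : ∀ i, f i ≠ 0) (hlam : ∀ i, lam i ≠ 0) (k : Fin 2) :
    (∏ j : {j // lam j < 0}, f j) * logD (fun i : {i // 0 < lam i} => f i) (fun i => lam i) k -
      (∏ i : {i // 0 < lam i}, f i) * logD (fun j : {j // lam j < 0} => f j)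
        (fun j => -lam j) k =
      ∑ i, lam i • ((∏ j ∈ Finset.univ.erase i, f j) * pderiv k (f i)) := by
  classical
  rw [← sum_split (fun i => lam i • ((∏ j ∈ Finset.univ.erase i, f j) * pderiv k (f i))) lam hlam,
    logD, logD, Finset.mul_sum, Finset.mul_sum, sub_eq_add_neg, ← Finset.sum_neg_distrib]
  have hall := prod_split f lam hlam
  congr 1
  · refine Finset.sum_congr rfl fun i _ => ?_
    rw [mul_smul_comm, ← mul_assoc]
    congr 2
    apply mul_left_cancel₀ (hf i)
    rw [Finset.mul_prod_erase _ _ (Finset.mem_univ (i : ι)), ← hall,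
      ← Finset.mul_prod_erase Finset.univ (fun i : {i // 0 < lam i} => f i) (Finset.mem_univ i)]
    ring
  · refine Finset.sum_congr rfl fun j _ => ?_
    rw [mul_smul_comm, ← neg_smul, neg_neg, ← mul_assoc]
    congr 2
    apply mul_left_cancel₀ (hf j)
    rw [Finset.mul_prod_erase _ _ (Finset.mem_univ (j : ι)), ← hall,
      ← Finset.mul_prod_erase Finset.univ (fun j : {j // lam j < 0} => f j) (Finset.mem_univ j)]
    ring

/-- the data of a logarithmic system, split by the sign of the exponents, at a finite set of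
centres -/
theorem centres_count (n : ℕ) {ι : Type} [Fintype ι] [DecidableEq ι]
    (f : ι → MvPolynomial (Fin 2) ℝ) (lam : ι → ℝ) (hf : ∀ i, f i ≠ 0) (hlam : ∀ i, lam i ≠ 0)
    (hrel : ∀ i j, 0 < lam i → lam j < 0 → IsRelPrime (f i) (f j))
    (hn : ∑ i, (f i).totalDegree ≤ n + 1)
    (P Q : MvPolynomial (Fin 2) ℝ)
    (hP : P = ∑ i, lam i • ((∏ j ∈ Finset.univ.erase i, f j) * pderiv 1 (f i)))
    (hQ : Q = -∑ i, lam i • ((∏ j ∈ Finset.univ.erase i, f j) * pderiv 0 (f i)))
    (S : Finset (Fin 2 → ℝ)) (hS : ∀ p ∈ S, IsCentre P Q p ∧ jac P Q p ≠ 0) :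
    2 * S.card ≤ n ^ 2 + 1 ∧
      (0 ≤ ∑ i, lam i * ((f i).totalDegree : ℝ) →
        2 * S.card + (∑ i ∈ Finset.univ.filter (fun i => 0 < lam i), (f i).totalDegree) *
          (∑ i ∈ Finset.univ.filter (fun i => lam i < 0), (f i).totalDegree + 1) ≤
          n * (n + 1) + 2) := by
  classical
  have eP : P = XP (fun i : {i // 0 < lam i} => f i) (fun i => lam i)
      (fun j : {j // lam j < 0} => f j) (fun j => -lam j) := by
    rw [hP, XP, log_split f lam hf hlam 1]
  have eQ : Q = XQ (fun i : {i // 0 < lam i} => f i) (fun i => lam i)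
      (fun j : {j // lam j < 0} => f j) (fun j => -lam j) := by
    rw [hQ, XQ, ← log_split f lam hf hlam 0]
    ring
  have hj : ∀ p : Fin 2 → ℝ, eval p (jacP P Q) = jac P Q p := by
    intro p
    rw [jacP, jac]
    simp only [map_sub, map_mul]
  have hz : ∀ s ∈ S, eval s (XP (fun i : {i // 0 < lam i} => f i) (fun i => lam i)
      (fun j : {j // lam j < 0} => f j) (fun j => -lam j)) = 0 ∧
      eval s (XQ (fun i : {i // 0 < lam i} => f i) (fun i => lam i)
      (fun j : {j // lam j < 0} => f j) (fun j => -lam j)) = 0 ∧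
      0 < eval s (jacP (XP (fun i : {i // 0 < lam i} => f i) (fun i => lam i)
      (fun j : {j // lam j < 0} => f j) (fun j => -lam j))
      (XQ (fun i : {i // 0 < lam i} => f i) (fun i => lam i)
      (fun j : {j // lam j < 0} => f j) (fun j => -lam j))) ∧
      (eval s (∏ i : {i // 0 < lam i}, f i) ≠ 0 ∨ eval s (∏ j : {j // lam j < 0}, f j) ≠ 0) := by
    intro s hs
    obtain ⟨hc, hne⟩ := hS s hs
    obtain ⟨htr, hpos⟩ := centre_jac hc hne
    rw [← eP, ← eQ]
    refine ⟨hc.1, hc.2.1, by rw [hj]; exact hpos, ?_⟩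
    exact not_both _ _ _ _ (by rw [← eP]; exact hc.1) (by rw [← eQ]; exact hc.2.1)
      (by rw [← eP, ← eQ, hj]; exact hpos) (by rw [← eP, ← eQ]; exact htr)
  have hn' : ∑ i : {i // 0 < lam i}, (f i).totalDegree +
      ∑ j : {j // lam j < 0}, (f j).totalDegree ≤ n + 1 := by
    rw [sum_split (fun i => (f i).totalDegree) lam hlam]; exact hn
  refine ⟨affine_bound (n := n) (F := fun i : {i // 0 < lam i} => f i) (α := fun i => lam i)
    (G := fun j : {j // lam j < 0} => f j) (β := fun j => -lam j) (fun i => i.2)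
    (fun j => neg_pos.2 j.2) (fun i => hf i) (fun j => hf j) (fun i j => hrel i j i.2 j.2)
    hn' S hz, fun hD => ?_⟩
  have key := affine_refined (n := n) (F := fun i : {i // 0 < lam i} => f i)
    (α := fun i => lam i)
    (G := fun j : {j // lam j < 0} => f j) (β := fun j => -lam j) (fun i => i.2)
    (fun j => neg_pos.2 j.2) (fun i => hf i) (fun j => hf j) (fun i j => hrel i j i.2 j.2)
    hn' (by
      rw [← sum_split (fun i => lam i * ((f i).totalDegree : ℝ)) lam hlam] at hD
      have : ∑ j : {j // lam j < 0}, -lam j * ((f j).totalDegree : ℝ) =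
          -∑ j : {j // lam j < 0}, lam j * ((f j).totalDegree : ℝ) := by
        rw [← Finset.sum_neg_distrib]
        exact Finset.sum_congr rfl fun j _ => by ring
      rw [this]
      linarith) S hz
  rw [Finset.sum_subtype (p := fun i => 0 < lam i) _ (fun i => by simp),
    Finset.sum_subtype (p := fun i => lam i < 0) _ (fun i => by simp)]
  exact key

end Pool.Agent.LogCentres
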