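import Pool.Agent.LogCentres.Normal
import Pool.Agent.LogCentres.MainR

/-!
# The bound for arbitrary families
-/

namespace Pool.Agent.LogCentres

open MvPolynomial Pool.Agent.PlanarCentres

/-- the bound for a family whose members with exponents of opposite signs are relatively prime -/
theorem zeros_coprime {ι : Type} [Fintype ι] [DecidableEq ι] (f : ι → R) (lam : ι → ℝ)
    (hf : ∀ i, f i ≠ 0) (hlam : ∀ i, lam i ≠ 0)
    (hrel : ∀ i j, 0 < lam i → lam j < 0 → IsRelPrime (f i) (f j))
    {n : ℕ} (hn : ∑ i, (f i).totalDegree ≤ n + 1) (S : Finset (Fin 2 → ℝ))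
    (hS : ∀ s ∈ S, eval s (logD f lam 1) = 0 ∧ eval s (logD f lam 0) = 0 ∧
      0 < eval s (jacP (logD f lam 1) (-logD f lam 0)) ∧
      ((∏ i, eval s (f i)) ≠ 0 ∨
        eval s (pderiv 0 (logD f lam 1)) = eval s (pderiv 1 (logD f lam 0)))) :
    2 * S.card ≤ n ^ 2 + 1 := by
  classical
  have eP : logD f lam 1 = XP (fun i : {i // 0 < lam i} => f i) (fun i => lam i)
      (fun j : {j // lam j < 0} => f j) (fun j => -lam j) := by
    rw [XP, log_split f lam hf hlam 1]; rfl
  have eQ : -logD f lam 0 = XQ (fun i : {i // 0 < lam i} => f i) (fun i => lam i)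
      (fun j : {j // lam j < 0} => f j) (fun j => -lam j) := by
    rw [XQ, ← neg_sub, log_split f lam hf hlam 0]; rfl
  refine affine_bound (n := n) (F := fun i : {i // 0 < lam i} => f i) (α := fun i => lam i)
    (G := fun j : {j // lam j < 0} => f j) (β := fun j => -lam j) (fun i => i.2)
    (fun j => neg_pos.2 j.2) (fun i => hf i) (fun j => hf j) (fun i j => hrel i j i.2 j.2)
    (by rw [sum_split (fun i => (f i).totalDegree) lam hlam]; exact hn) S fun s hs => ?_
  obtain ⟨h1, h2, h3, h4⟩ := hS s hs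
  have h2' : eval s (-logD f lam 0) = 0 := by rw [map_neg, h2, neg_zero]
  rw [← eP, ← eQ]
  refine ⟨h1, h2', h3, ?_⟩
  rcases h4 with h4 | h4
  · left
    rw [map_prod]
    exact Finset.prod_ne_zero_iff.2 fun i _ => (Finset.prod_ne_zero_iff.1 h4) i (Finset.mem_univ _)
  · refine not_both _ _ _ _ (by rw [← eP]; exact h1) (by rw [← eQ]; exact h2')
      (by rw [← eP, ← eQ]; exact h3) ?_
    rw [← eP, ← eQ, map_neg, map_neg, h4]
    ring

/-- the values of the derivatives of a multiple -/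
theorem eval_pderiv_mul {s : Fin 2 → ℝ} (W g : R) (hg : eval s g = 0) (k : Fin 2) :
    eval s (pderiv k (W * g)) = eval s W * eval s (pderiv k g) := by
  rw [Derivation.leibniz, map_add, smul_eq_mul, smul_eq_mul, map_mul, map_mul, hg]
  ring

theorem eval_jacP (s : Fin 2 → ℝ) (P Q : R) : eval s (jacP P Q) =
    eval s (pderiv 0 P) * eval s (pderiv 1 Q) - eval s (pderiv 1 P) * eval s (pderiv 0 Q) := by
  rw [jacP, map_sub, map_mul, map_mul]

/-- a multiple `W g` has a nonzero Jacobian only where `W ≠ 0` -/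
theorem eval_W_ne {s : Fin 2 → ℝ} {W P Q : R} (hj : 0 < eval s (jacP (W * P) (W * Q))) :
    eval s W ≠ 0 := by
  intro hW
  rw [eval_jacP] at hj
  simp only [Derivation.leibniz, map_add, smul_eq_mul, map_mul, hW, zero_mul, zero_add] at hj
  linarith [mul_comm (eval s P * eval s ((pderiv 0) W)) (eval s Q * eval s ((pderiv 1) W))]

theorem zeros_general {ι : Type} [Fintype ι] [DecidableEq ι] (f : ι → R) (lam : ι → ℝ)
    (hf : ∀ i, f i ≠ 0) {n : ℕ} (hn : ∑ i, (f i).totalDegree ≤ n + 1) (S : Finset (Fin 2 → ℝ))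
    (hS : ∀ s ∈ S, eval s (logD f lam 1) = 0 ∧ eval s (logD f lam 0) = 0 ∧
      0 < eval s (jacP (logD f lam 1) (-logD f lam 0)) ∧
      ((∏ i, eval s (f i)) ≠ 0 ∨
        eval s (pderiv 0 (logD f lam 1)) = eval s (pderiv 1 (logD f lam 0)))) :
    2 * S.card ≤ n ^ 2 + 1 := by
  obtain ⟨k, g, mu, W, hg, hmu, hrel, hdeg, hprod, hW⟩ := normalize f lam hf
  refine zeros_coprime g mu hg hmu hrel (hdeg.trans hn) S fun s hs => ?_
  obtain ⟨h1, h2, h3, h4⟩ := hS s hs
  rw [hW] at h1 h2
  rw [hW, hW, ← mul_neg] at h3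
  have hWs := eval_W_ne h3
  have g1 : eval s (logD g mu 1) = 0 := by
    rw [map_mul] at h1
    exact (mul_eq_zero.1 h1).resolve_left hWs
  have g0 : eval s (logD g mu 0) = 0 := by
    rw [map_mul] at h2
    exact (mul_eq_zero.1 h2).resolve_left hWs
  have g0' : eval s (-logD g mu 0) = 0 := by rw [map_neg, g0, neg_zero]
  refine ⟨g1, g0, ?_, ?_⟩
  · rw [eval_jacP, eval_pderiv_mul W _ g1, eval_pderiv_mul W _ g0', eval_pderiv_mul W _ g1,
      eval_pderiv_mul W _ g0'] at h3
    rw [eval_jacP]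
    have h5 : 0 < eval s W ^ 2 := by positivity
    have h6 : 0 < eval s W ^ 2 * (eval s (pderiv 0 (logD g mu 1)) *
        eval s (pderiv 1 (-logD g mu 0)) - eval s (pderiv 1 (logD g mu 1)) *
        eval s (pderiv 0 (-logD g mu 0))) := by
      nlinarith [h3]
    exact (mul_pos_iff_of_pos_left h5).1 h6
  · rcases h4 with h4 | h4
    · left
      have := congrArg (eval s) hprod
      rw [map_prod, map_mul, map_prod] at this
      rw [this] at h4
      exact (mul_ne_zero_iff.1 h4).2
    · right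
      rw [hW, hW, eval_pderiv_mul W _ g1, eval_pderiv_mul W _ g0] at h4
      exact mul_left_cancel₀ hWs h4

end Pool.Agent.LogCentres
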