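import Pool.Agent.LogCentres.ExtDefs2
import Pool.Agent.LogCentres.General

/-!
# The bound for focus type zeros of arbitrary families
-/

namespace Pool.Agent.LogCentres

open MvPolynomial Pool.Agent.PlanarCentres

theorem FocusZero.jac_pos {P Q : R} {s : Fin 2 → ℝ} (h : FocusZero P Q s) :
    0 < eval s (jacP P Q) := by
  have h1 := h.2.2
  nlinarith [sq_nonneg (eval s (pderiv 0 P) + eval s (pderiv 1 Q))]

theorem not_both_focus {ι κ : Type} [Fintype ι] [DecidableEq ι] [Fintype κ] [DecidableEq κ]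
    (F : ι → R) (α : ι → ℝ) (G : κ → R) (β : κ → ℝ) {s : Fin 2 → ℝ}
    (h : FocusZero (XP F α G β) (XQ F α G β) s) :
    eval s (∏ i, F i) ≠ 0 ∨ eval s (∏ j, G j) ≠ 0 := by
  by_contra hcon
  push Not at hcon
  obtain ⟨hf, hh⟩ := hcon
  have hj := h.jac_pos
  obtain ⟨hP, hQ, htr⟩ := h
  obtain ⟨K, hK⟩ := (exists_cofactor F α G β).1
  have hd : ∀ k : Fin 2,
      eval s (pderiv k (XP F α G β)) = eval s (pderiv k (∏ j, G j)) * eval s (logD F α 1) -
        eval s (pderiv k (∏ i, F i)) * eval s (logD G β 1) ∧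
      eval s (pderiv k (XQ F α G β)) = eval s (pderiv k (∏ i, F i)) * eval s (logD G β 0) -
        eval s (pderiv k (∏ j, G j)) * eval s (logD F α 0) := by
    intro k
    constructor
    · rw [XP, map_sub, Derivation.leibniz, Derivation.leibniz]
      simp only [smul_eq_mul, map_sub, map_add, map_mul]
      rw [hf, hh]
      ring
    · rw [XQ, map_sub, Derivation.leibniz, Derivation.leibniz]
      simp only [smul_eq_mul, map_sub, map_add, map_mul]
      rw [hf, hh]
      ring
  have he : ∀ k : Fin 2, eval s (pderiv k (XP F α G β)) * eval s (pderiv 0 (∏ i, F i)) +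
      eval s (pderiv k (XQ F α G β)) * eval s (pderiv 1 (∏ i, F i)) =
        eval s K * eval s (pderiv k (∏ i, F i)) := by
    intro k
    have h1 := congrArg (fun p => eval s (pderiv k p)) hK
    simp only [map_add, Derivation.leibniz, smul_eq_mul, map_mul] at h1
    rw [hP, hQ, hf] at h1
    linarith
  rw [jacP, map_sub, map_mul, map_mul] at hj htr
  set p0 := eval s (pderiv 0 (XP F α G β))
  set p1 := eval s (pderiv 1 (XP F α G β))
  set q0 := eval s (pderiv 0 (XQ F α G β))
  set q1 := eval s (pderiv 1 (XQ F α G β))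
  set f0 := eval s (pderiv 0 (∏ i, F i))
  set f1 := eval s (pderiv 1 (∏ i, F i))
  have a0 := he 0
  have a1 := he 1
  by_cases hz : f0 = 0 ∧ f1 = 0
  · obtain ⟨b1, b2⟩ := hd 0
    obtain ⟨b3, b4⟩ := hd 1
    have c1 : p0 = eval s (pderiv 0 (∏ j, G j)) * eval s (logD F α 1) -
        f0 * eval s (logD G β 1) := b1
    have c2 : q0 = f0 * eval s (logD G β 0) -
        eval s (pderiv 0 (∏ j, G j)) * eval s (logD F α 0) := b2
    have c3 : p1 = eval s (pderiv 1 (∏ j, G j)) * eval s (logD F α 1) -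
        f1 * eval s (logD G β 1) := b3
    have c4 : q1 = f1 * eval s (logD G β 0) -
        eval s (pderiv 1 (∏ j, G j)) * eval s (logD F α 0) := b4
    rw [hz.1] at c1 c2
    rw [hz.2] at c3 c4
    rw [c1, c2, c3, c4] at hj
    have h2 : (eval s (pderiv 0 (∏ j, G j)) * eval s (logD F α 1) - 0 * eval s (logD G β 1)) *
        (0 * eval s (logD G β 0) - eval s (pderiv 1 (∏ j, G j)) * eval s (logD F α 0)) -
        (eval s (pderiv 1 (∏ j, G j)) * eval s (logD F α 1) - 0 * eval s (logD G β 1)) *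
        (0 * eval s (logD G β 0) - eval s (pderiv 0 (∏ j, G j)) * eval s (logD F α 0)) = 0 := by
      ring
    rw [h2] at hj
    exact lt_irrefl _ hj
  · have e0 : p0 * f0 + q0 * f1 = eval s K * f0 := a0
    have e1 : p1 * f0 + q1 * f1 = eval s K * f1 := a1
    have d0 : ((p0 - eval s K) * (q1 - eval s K) - q0 * p1) * f0 = 0 := by
      linear_combination (q1 - eval s K) * e0 - q0 * e1
    have d1 : ((p0 - eval s K) * (q1 - eval s K) - q0 * p1) * f1 = 0 := by
      linear_combination (p0 - eval s K) * e1 - p1 * e0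
    have hdet : (p0 - eval s K) * (q1 - eval s K) - q0 * p1 = 0 := by
      by_contra hne
      exact hz ⟨(mul_eq_zero.1 d0).resolve_left hne, (mul_eq_zero.1 d1).resolve_left hne⟩
    nlinarith [sq_nonneg (2 * eval s K - (p0 + q1))]

theorem zeros_focus {ι : Type} [Fintype ι] [DecidableEq ι] (f : ι → R) (lam : ι → ℝ)
    (hf : ∀ i, f i ≠ 0) {n : ℕ} (hn : ∑ i, (f i).totalDegree ≤ n + 1) (S : Finset (Fin 2 → ℝ))
    (hS : ∀ s ∈ S, FocusZero (logD f lam 1) (-logD f lam 0) s) : 2 * S.card ≤ n ^ 2 + 1 := by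
  obtain ⟨k, g, mu, W, hg, hmu, hrel, hdeg, hprod, hW⟩ := normalize f lam hf
  classical
  have eP : logD g mu 1 = XP (fun i : {i // 0 < mu i} => g i) (fun i => mu i)
      (fun j : {j // mu j < 0} => g j) (fun j => -mu j) := by
    rw [XP, log_split g mu hg hmu 1]; rfl
  have eQ : -logD g mu 0 = XQ (fun i : {i // 0 < mu i} => g i) (fun i => mu i)
      (fun j : {j // mu j < 0} => g j) (fun j => -mu j) := by
    rw [XQ, ← neg_sub, log_split g mu hg hmu 0]; rfl
  refine affine_bound (n := n) (F := fun i : {i // 0 < mu i} => g i) (α := fun i => mu i)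
    (G := fun j : {j // mu j < 0} => g j) (β := fun j => -mu j) (fun i => i.2)
    (fun j => neg_pos.2 j.2) (fun i => hg i) (fun j => hg j) (fun i j => hrel i j i.2 j.2)
    (by rw [sum_split (fun i => (g i).totalDegree) mu hmu]; exact hdeg.trans hn) S fun s hs => ?_
  have h := hS s hs
  have h3 := h.jac_pos
  obtain ⟨h1, h2, h4⟩ := h
  rw [hW] at h1
  rw [hW, ← mul_neg] at h2
  rw [hW, hW, ← mul_neg] at h3 h4
  have hWs := eval_W_ne h3
  have g1 : eval s (logD g mu 1) = 0 := by
    rw [map_mul] at h1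
    exact (mul_eq_zero.1 h1).resolve_left hWs
  have g0 : eval s (-logD g mu 0) = 0 := by
    rw [map_mul] at h2
    exact (mul_eq_zero.1 h2).resolve_left hWs
  have hfz : FocusZero (logD g mu 1) (-logD g mu 0) s := by
    refine ⟨g1, g0, ?_⟩
    rw [eval_jacP, eval_pderiv_mul W _ g1, eval_pderiv_mul W _ g0, eval_pderiv_mul W _ g1,
      eval_pderiv_mul W _ g0] at h4
    rw [eval_jacP]
    have h5 : 0 < eval s W ^ 2 := by positivity
    have h6 : eval s W ^ 2 * (eval s (pderiv 0 (logD g mu 1)) +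
        eval s (pderiv 1 (-logD g mu 0))) ^ 2 < eval s W ^ 2 *
        (4 * (eval s (pderiv 0 (logD g mu 1)) * eval s (pderiv 1 (-logD g mu 0)) -
          eval s (pderiv 1 (logD g mu 1)) * eval s (pderiv 0 (-logD g mu 0)))) := by
      nlinarith [h4]
    exact lt_of_mul_lt_mul_left h6 h5.le
  rw [← eP, ← eQ]
  exact ⟨g1, g0, hfz.jac_pos, not_both_focus _ _ _ _ (by rw [← eP, ← eQ]; exact hfz)⟩

end Pool.Agent.LogCentres
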