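import Pool.Agent.LogCentres.ExtDefs

/-!
# Local extrema of `∑ λᵢ log |fᵢ|`
-/

namespace Pool.Agent.LogCentres

open MvPolynomial Pool.Agent.PlanarCentres Filter Topology

/-- first and second order conditions at a local maximum -/
theorem second_le {φ ψ : ℝ → ℝ} {D : ℝ} (h1 : ∀ᶠ t in 𝓝 (0 : ℝ), HasDerivAt φ (ψ t) t)
    (h2 : ψ 0 = 0 → HasDerivAt ψ D 0) (hmax : IsLocalMax φ 0) : ψ 0 = 0 ∧ D ≤ 0 := by
  have h0 : ψ 0 = 0 := hmax.hasDerivAt_eq_zero h1.self_of_nhds
  refine ⟨h0, ?_⟩
  by_contra hD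
  push Not at hD
  have hd : deriv φ =ᶠ[𝓝 0] ψ := h1.mono fun t ht => ht.deriv
  have hdd : deriv (deriv φ) 0 = D := by
    rw [hd.deriv_eq]
    exact (h2 h0).deriv
  have hmin : IsLocalMin φ 0 := by
    refine isLocalMin_of_deriv_deriv_pos (by rw [hdd]; exact hD) ?_
      h1.self_of_nhds.continuousAt
    rw [hd.self_of_nhds, h0]
  have hc : φ =ᶠ[𝓝 0] fun _ => φ 0 := by
    filter_upwards [hmax, hmin] with t a b using le_antisymm a b
  have hz : deriv φ =ᶠ[𝓝 0] fun _ => (0 : ℝ) := by
    refine hc.deriv.trans ?_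
    filter_upwards with t
    simp
  have : deriv (deriv φ) 0 = 0 := by
    rw [hz.deriv_eq]
    simp
  rw [hdd] at this
  exact hD.ne' this

theorem hasDerivAt_line (x v : Fin 2 → ℝ) (t : ℝ) :
    HasDerivAt (fun s : ℝ => x + s • v) v t := by
  have := ((hasDerivAt_id t).smul_const v).const_add x
  simpa using this

theorem eval_logD {ι : Type} [Fintype ι] [DecidableEq ι] (f : ι → R) (lam : ι → ℝ)
    (k : Fin 2) {x : Fin 2 → ℝ} (hx : ∀ i, eval x (f i) ≠ 0) :
    eval x (logD f lam k) =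
      (∏ i, eval x (f i)) * ∑ i, lam i * (eval x (pderiv k (f i)) / eval x (f i)) := by
  rw [logD, map_sum, Finset.mul_sum]
  refine Finset.sum_congr rfl fun i _ => ?_
  rw [smul_eval, map_mul, map_prod, ← Finset.mul_prod_erase Finset.univ _ (Finset.mem_univ i)]
  have := hx i
  field_simp

theorem hasDerivAt_logF {ι : Type} [Fintype ι] [DecidableEq ι] (f : ι → R) (lam : ι → ℝ)
    (x v : Fin 2 → ℝ) (t : ℝ) (hx : ∀ i, eval (x + t • v) (f i) ≠ 0) :
    HasDerivAt (fun s : ℝ => logF f lam (x + s • v))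
      ((v 0 * eval (x + t • v) (logD f lam 0) + v 1 * eval (x + t • v) (logD f lam 1)) /
        ∏ i, eval (x + t • v) (f i)) t := by
  have h1 : ∀ i ∈ (Finset.univ : Finset ι), HasDerivAt
      (fun s : ℝ => lam i * Real.log |eval (x + s • v) (f i)|)
      (lam i * ((eval (x + t • v) (pderiv 0 (f i)) * v 0 +
        eval (x + t • v) (pderiv 1 (f i)) * v 1) / eval (x + t • v) (f i))) t := by
    intro i _
    simp only [Real.log_abs]
    exact ((hasDerivAt_eval (f i) (hasDerivAt_line x v t)).log (hx i)).const_mul (lam i)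
  have h2 := HasDerivAt.fun_sum h1
  have hV : (∏ i, eval (x + t • v) (f i)) ≠ 0 := Finset.prod_ne_zero_iff.mpr fun i _ => hx i
  refine h2.congr_deriv ?_
  rw [eval_logD f lam 0 hx, eval_logD f lam 1 hx, eq_div_iff hV, Finset.sum_mul,
    Finset.mul_sum, Finset.mul_sum, Finset.mul_sum, Finset.mul_sum, ← Finset.sum_add_distrib]
  refine Finset.sum_congr rfl fun i _ => ?_
  have := hx i
  field_simp

theorem hasDerivAt_grad {ι : Type} [Fintype ι] [DecidableEq ι] (f : ι → R) (lam : ι → ℝ)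
    (x v : Fin 2 → ℝ) (hx : ∀ i, eval x (f i) ≠ 0) (hA : v 0 * eval x (logD f lam 0) +
      v 1 * eval x (logD f lam 1) = 0) :
    HasDerivAt (fun s : ℝ =>
      (v 0 * eval (x + s • v) (logD f lam 0) + v 1 * eval (x + s • v) (logD f lam 1)) /
        ∏ i, eval (x + s • v) (f i))
      ((v 0 * (eval x (pderiv 0 (logD f lam 0)) * v 0 + eval x (pderiv 1 (logD f lam 0)) * v 1) +
        v 1 * (eval x (pderiv 0 (logD f lam 1)) * v 0 + eval x (pderiv 1 (logD f lam 1)) * v 1)) /
        ∏ i, eval x (f i)) 0 := by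
  have e0 : x + (0 : ℝ) • v = x := by simp
  have hl := hasDerivAt_line x v 0
  have h0 := (hasDerivAt_eval (logD f lam 0) hl).const_mul (v 0)
  have h1 := (hasDerivAt_eval (logD f lam 1) hl).const_mul (v 1)
  have hV := hasDerivAt_eval (∏ i, f i) hl
  have hVe : ∀ s : ℝ, eval (x + s • v) (∏ i, f i) = ∏ i, eval (x + s • v) (f i) :=
    fun s => map_prod _ _ _
  simp only [hVe] at hV
  have hV0 : (∏ i, eval (x + (0 : ℝ) • v) (f i)) ≠ 0 := by
    rw [e0]
    exact Finset.prod_ne_zero_iff.mpr fun i _ => hx i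
  have := (h0.fun_add h1).fun_div hV hV0
  rw [e0] at this hV0
  refine this.congr_deriv ?_
  rw [hA, zero_mul, sub_zero, sq, mul_div_mul_right _ _ hV0]

theorem quad_nonneg {a b b' c s : ℝ} (hs : s ≠ 0)
    (h : ∀ u w : ℝ, s * (u * (a * u + b * w) + w * (b' * u + c * w)) ≤ 0) :
    0 ≤ b' * (-b) - c * (-a) := by
  have h1 : ∀ u w : ℝ, s * (a * u ^ 2 + (b + b') * u * w + c * w ^ 2) ≤ 0 := by
    intro u w
    refine le_of_eq_of_le ?_ (h u w)
    ring
  have ha : s * a ≤ 0 := by simpa using h1 1 0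
  have h2 : 0 ≤ s ^ 2 * (4 * a * c - (b + b') ^ 2) := by
    rcases eq_or_lt_of_le ha with ha0 | ha0
    · have ha' : a = 0 := by
        rcases mul_eq_zero.mp ha0 with h | h
        · exact absurd h hs
        · exact h
      have hb : s * (b + b') = 0 := by
        by_contra hne
        have := h1 ((1 - s * c) / (s * (b + b'))) 1
        rw [ha'] at this
        have e : s * (0 * ((1 - s * c) / (s * (b + b'))) ^ 2 +
            (b + b') * ((1 - s * c) / (s * (b + b'))) * 1 + c * 1 ^ 2) =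
            (s * (b + b')) * ((1 - s * c) / (s * (b + b'))) + s * c := by ring
        rw [e, mul_div_cancel₀ _ hne] at this
        linarith
      have e : s ^ 2 * (4 * a * c - (b + b') ^ 2) = s ^ 2 * 4 * a * c - (s * (b + b')) ^ 2 := by
        ring
      rw [e, hb, ha']
      simp
    · have := h1 (b + b') (-(2 * a))
      have e : s * (a * (b + b') ^ 2 + (b + b') * (b + b') * -(2 * a) + c * (-(2 * a)) ^ 2) =
          (s * a) * (4 * a * c - (b + b') ^ 2) := by ring
      rw [e] at this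
      have h3 : 0 ≤ 4 * a * c - (b + b') ^ 2 := by
        by_contra hn
        push Not at hn
        have := mul_pos_of_neg_of_neg ha0 hn
        linarith
      positivity
  have hs2 : 0 < s ^ 2 := by positivity
  have h3 : 0 ≤ 4 * a * c - (b + b') ^ 2 := by
    by_contra hn
    push Not at hn
    have := mul_neg_of_pos_of_neg hs2 hn
    linarith
  nlinarith [sq_nonneg (b - b')]

theorem loc_max {ι : Type} [Fintype ι] [DecidableEq ι] (f : ι → R) (lam : ι → ℝ)
    {x : Fin 2 → ℝ} (hx : ∀ i, eval x (f i) ≠ 0) (h : IsLocalMax (logF f lam) x)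
    (v : Fin 2 → ℝ) :
    v 0 * eval x (logD f lam 0) + v 1 * eval x (logD f lam 1) = 0 ∧
    (v 0 * (eval x (pderiv 0 (logD f lam 0)) * v 0 + eval x (pderiv 1 (logD f lam 0)) * v 1) +
        v 1 * (eval x (pderiv 0 (logD f lam 1)) * v 0 + eval x (pderiv 1 (logD f lam 1)) * v 1)) /
        ∏ i, eval x (f i) ≤ 0 := by
  have e0 : x + (0 : ℝ) • v = x := by simp
  have hc : ContinuousAt (fun s : ℝ => x + s • v) 0 := (hasDerivAt_line x v 0).continuousAt
  have hV0 : (∏ i, eval x (f i)) ≠ 0 := Finset.prod_ne_zero_iff.mpr fun i _ => hx i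
  have hev : ∀ᶠ t in 𝓝 (0 : ℝ), ∀ i, eval (x + t • v) (f i) ≠ 0 := by
    rw [eventually_all]
    intro i
    have h1 : ContinuousAt (fun s : ℝ => eval (x + s • v) (f i)) 0 :=
      (hasDerivAt_eval (f i) (hasDerivAt_line x v 0)).continuousAt
    refine h1.eventually_ne ?_
    rw [e0]
    exact hx i
  have hmax : IsLocalMax (fun s : ℝ => logF f lam (x + s • v)) 0 := by
    have ht : Tendsto (fun s : ℝ => x + s • v) (𝓝 0) (𝓝 x) := by
      have := hc.tendsto
      rwa [e0] at this
    have := ht.eventually h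
    filter_upwards [this] with s hs
    rw [e0]
    exact hs
  have key := second_le (hev.mono fun t ht => hasDerivAt_logF f lam x v t ht)
    (D := (v 0 * (eval x (pderiv 0 (logD f lam 0)) * v 0 +
      eval x (pderiv 1 (logD f lam 0)) * v 1) +
        v 1 * (eval x (pderiv 0 (logD f lam 1)) * v 0 + eval x (pderiv 1 (logD f lam 1)) * v 1)) /
        ∏ i, eval x (f i)) (fun h0 => ?_) hmax
  · refine ⟨?_, key.2⟩
    have := key.1
    simp only [e0] at this
    exact (div_eq_zero_iff.mp this).resolve_right hV0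
  · refine hasDerivAt_grad f lam x v hx ?_
    simp only [e0] at h0
    exact (div_eq_zero_iff.mp h0).resolve_right hV0

theorem logD_neg' {ι : Type} [Fintype ι] [DecidableEq ι] (f : ι → R) (lam : ι → ℝ) (k : Fin 2) :
    logD f (-lam) k = -logD f lam k := by
  simp only [logD, Pi.neg_apply, neg_smul, Finset.sum_neg_distrib]

theorem loc_ext_max {ι : Type} [Fintype ι] [DecidableEq ι] (f : ι → R) (lam : ι → ℝ)
    {x : Fin 2 → ℝ} (hx : ∀ i, eval x (f i) ≠ 0) (h : IsLocalMax (logF f lam) x) :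
    eval x (logD f lam 1) = 0 ∧ eval x (logD f lam 0) = 0 ∧
      0 ≤ eval x (jacP (logD f lam 1) (-logD f lam 0)) := by
  have hV0 : (∏ i, eval x (f i)) ≠ 0 := Finset.prod_ne_zero_iff.mpr fun i _ => hx i
  refine ⟨by simpa using (loc_max f lam hx h ![0, 1]).1,
    by simpa using (loc_max f lam hx h ![1, 0]).1, ?_⟩
  have hq := quad_nonneg (a := eval x (pderiv 0 (logD f lam 0)))
    (b := eval x (pderiv 1 (logD f lam 0))) (b' := eval x (pderiv 0 (logD f lam 1)))
    (c := eval x (pderiv 1 (logD f lam 1))) (s := (∏ i, eval x (f i))⁻¹) (inv_ne_zero hV0)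
    (fun u w => by
      have := (loc_max f lam hx h ![u, w]).2
      rw [div_eq_inv_mul] at this
      simpa using this)
  simpa [jacP] using hq

theorem loc_ext {ι : Type} [Fintype ι] [DecidableEq ι] (f : ι → R) (lam : ι → ℝ)
    {x : Fin 2 → ℝ} (hx : ∀ i, eval x (f i) ≠ 0)
    (h : IsLocalMax (logF f lam) x ∨ IsLocalMin (logF f lam) x) :
    eval x (logD f lam 1) = 0 ∧ eval x (logD f lam 0) = 0 ∧
      0 ≤ eval x (jacP (logD f lam 1) (-logD f lam 0)) := by
  rcases h with h | h
  · exact loc_ext_max f lam hx h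
  · have hm : IsLocalMax (logF f (-lam)) x := by
      have := h.neg
      refine this.congr ?_
      filter_upwards with y
      simp [logF]
    obtain ⟨h1, h0, hj⟩ := loc_ext_max f (-lam) hx hm
    rw [logD_neg'] at h1 h0
    rw [map_neg, neg_eq_zero] at h1 h0
    refine ⟨h1, h0, ?_⟩
    rw [logD_neg', logD_neg'] at hj
    simpa [jacP] using hj

end Pool.Agent.LogCentres
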