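import Pool.Agent.LogCentres.ExtDefs2

/-!
# Focus type zeros persist under small perturbations
-/

namespace Pool.Agent.LogCentres

open MvPolynomial Pool.Agent.PlanarCentres Topology

theorem contDiff_evalR (f : R) : ContDiff ℝ 1 (fun x : Fin 2 → ℝ => eval x f) := by
  induction f using MvPolynomial.induction_on with
  | C a => simpa using contDiff_const
  | add p q hp hq => simpa using hp.add hq
  | mul_X p i hp => simpa using hp.mul (contDiff_apply ℝ ℝ i)

/-- the differential of a polynomial at a point -/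
noncomputable def evD (f : R) (x : Fin 2 → ℝ) : (Fin 2 → ℝ) →L[ℝ] ℝ :=
  eval x (pderiv 0 f) • ContinuousLinearMap.proj (R := ℝ) (φ := fun _ : Fin 2 => ℝ) 0 +
    eval x (pderiv 1 f) • ContinuousLinearMap.proj (R := ℝ) (φ := fun _ : Fin 2 => ℝ) 1

theorem hasFDerivAt_evalR (f : R) (x : Fin 2 → ℝ) :
    HasFDerivAt (fun x : Fin 2 → ℝ => eval x f) (evD f x) x := by
  unfold evD
  induction f using MvPolynomial.induction_on with
  | C a =>
    simp only [pderiv_C, map_zero, zero_smul, add_zero, eval_C]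
    exact hasFDerivAt_const a x
  | add p q hp hq =>
    refine (hp.add hq).congr_fderiv ?_ |>.congr_of_eventuallyEq ?_
    · ext v
      simp
      ring
    · exact Filter.Eventually.of_forall fun y => by simp
  | mul_X p i hp =>
    have hx : HasFDerivAt (fun x : Fin 2 → ℝ => x i)
        (ContinuousLinearMap.proj (R := ℝ) (φ := fun _ : Fin 2 => ℝ) i) x :=
      (ContinuousLinearMap.proj (R := ℝ) (φ := fun _ : Fin 2 => ℝ) i).hasFDerivAt
    refine (hp.mul hx).congr_fderiv ?_ |>.congr_of_eventuallyEq ?_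
    · ext v
      fin_cases i <;> simp [pderiv_X] <;> ring
    · exact Filter.Eventually.of_forall fun y => by simp

/-- two linear forms with nonzero determinant take all pairs of values -/
theorem exists_dx {a b c d : ℝ} (h : a * d - b * c ≠ 0) (y z : ℝ) :
    ∃ v : Fin 2 → ℝ, a * v 0 + b * v 1 = y ∧ c * v 0 + d * v 1 = z := by
  refine ⟨![(d * y - b * z) / (a * d - b * c), (a * z - c * y) / (a * d - b * c)], ?_, ?_⟩
  · simp only [Matrix.cons_val_zero, Matrix.cons_val_one]
    rw [mul_div_assoc', mul_div_assoc', ← add_div, div_eq_iff h]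
    ring
  · simp only [Matrix.cons_val_zero, Matrix.cons_val_one]
    rw [mul_div_assoc', mul_div_assoc', ← add_div, div_eq_iff h]
    ring

/-- a family which is affine in the parameters is continuously differentiable -/
theorem contDiff_fam {m : ℕ} (P : R) (A : Fin m → R) :
    ContDiff ℝ 1 (fun z : (Fin m → ℝ) × (Fin 2 → ℝ) => eval z.2 (P + ∑ k, z.1 k • A k)) := by
  simp only [map_add, map_sum, smul_eval]
  refine ((contDiff_evalR P).comp contDiff_snd).add (ContDiff.sum fun k _ => ?_)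
  exact ((contDiff_apply ℝ ℝ k).comp contDiff_fst).mul ((contDiff_evalR (A k)).comp contDiff_snd)

theorem pderiv_fam {m : ℕ} (P : R) (A : Fin m → R) (t : Fin m → ℝ) (l : Fin 2) :
    pderiv l (P + ∑ k, t k • A k) = pderiv l P + ∑ k, t k • pderiv l (A k) := by
  rw [map_add, map_sum]
  simp only [Derivation.map_smul]

theorem persist_focus {m : ℕ} {P Q : R} (A B : Fin m → R) {p q : Fin 2 → ℝ} {r : ℝ}
    (hq : q ∈ Metric.ball p r) (h : FocusZero P Q q) :
    ∃ ε > 0, ∀ t : Fin m → ℝ, (∀ k, |t k| < ε) → ∃ q' ∈ Metric.ball p r,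
      FocusZero (P + ∑ k, t k • A k) (Q + ∑ k, t k • B k) q' := by
  obtain ⟨h1, h0, hj⟩ := h
  have hcont : ∀ (G : R) (C : Fin m → R), ContinuousAt
      (fun z : (Fin m → ℝ) × (Fin 2 → ℝ) => eval z.2 (G + ∑ k, z.1 k • C k)) (0, q) :=
    fun G C => (contDiff_fam G C).continuous.continuousAt
  have hzero : ∀ (G : R) (C : Fin m → R), (G + ∑ k, (0 : Fin m → ℝ) k • C k) = G := by
    intro G C
    simp
  -- the neighbourhood
  have N1 : ∀ᶠ z in 𝓝 ((0 : Fin m → ℝ), q), z.2 ∈ Metric.ball p r :=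
    continuousAt_snd.eventually (Metric.isOpen_ball.mem_nhds hq)
  have N2 : ∀ᶠ z in 𝓝 ((0 : Fin m → ℝ), q),
      (eval z.2 (pderiv 0 (P + ∑ k, z.1 k • A k)) +
        eval z.2 (pderiv 1 (Q + ∑ k, z.1 k • B k))) ^ 2 <
      4 * eval z.2 (jacP (P + ∑ k, z.1 k • A k) (Q + ∑ k, z.1 k • B k)) := by
    simp only [jacP, pderiv_fam, map_sub, map_mul]
    refine ContinuousAt.eventually_lt ?_ ?_ ?_
    · exact ((hcont _ _).add (hcont _ _)).pow 2
    · exact (((hcont _ _).mul (hcont _ _)).sub ((hcont _ _).mul (hcont _ _))).const_mul 4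
    · simp only [hzero]
      simpa only [jacP, map_sub, map_mul] using hj
  -- the map
  set F : (Fin m → ℝ) × (Fin 2 → ℝ) → ℝ × ℝ := fun z =>
    (eval z.2 (P + ∑ k, z.1 k • A k), eval z.2 (Q + ∑ k, z.1 k • B k)) with hF
  have hFd : ContDiff ℝ 1 F := ContDiff.prodMk (contDiff_fam P A) (contDiff_fam Q B)
  have hF' : HasStrictFDerivAt F (fderiv ℝ F (0, q)) (0, q) :=
    hFd.contDiffAt.hasStrictFDerivAt (by norm_num)
  set D := fderiv ℝ F (0, q) with hD
  have hΦ : HasStrictFDerivAt (fun z : (Fin m → ℝ) × (Fin 2 → ℝ) => (z.1, F z))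
      ((ContinuousLinearMap.fst ℝ (Fin m → ℝ) (Fin 2 → ℝ)).prod D) (0, q) :=
    hasStrictFDerivAt_fst.prodMk hF'
  -- the derivative in the direction of `x`
  have hin : D ∘L ContinuousLinearMap.inr ℝ (Fin m → ℝ) (Fin 2 → ℝ) =
      (evD P q).prod (evD Q q) := by
    have a1 : HasFDerivAt (fun x : Fin 2 → ℝ => F (0, x))
        (D ∘L ContinuousLinearMap.inr ℝ (Fin m → ℝ) (Fin 2 → ℝ)) q :=
      HasFDerivAt.comp (g := F) (f := fun x : Fin 2 → ℝ => ((0 : Fin m → ℝ), x)) q
        hF'.hasFDerivAt (hasFDerivAt_prodMk_right 0 q)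
    have a2 : HasFDerivAt (fun x : Fin 2 → ℝ => F (0, x)) ((evD P q).prod (evD Q q)) q := by
      simp only [hF, hzero]
      exact (hasFDerivAt_evalR P q).prodMk (hasFDerivAt_evalR Q q)
    exact a1.unique a2
  have hsurj : ((ContinuousLinearMap.fst ℝ (Fin m → ℝ) (Fin 2 → ℝ)).prod D).range = ⊤ := by
    rw [LinearMap.range_eq_top]
    rintro ⟨c, y⟩
    have hdet : eval q (pderiv 0 P) * eval q (pderiv 1 Q) -
        eval q (pderiv 1 P) * eval q (pderiv 0 Q) ≠ 0 := by
      simp only [jacP, map_sub, map_mul] at hj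
      intro h'
      rw [h'] at hj
      have := sq_nonneg (eval q (pderiv 0 P) + eval q (pderiv 1 Q))
      linarith
    obtain ⟨v, hv1, hv2⟩ := exists_dx hdet (y.1 - (D (c, 0)).1) (y.2 - (D (c, 0)).2)
    refine ⟨(c, v), ?_⟩
    have hv : D (0, v) = (D ∘L ContinuousLinearMap.inr ℝ (Fin m → ℝ) (Fin 2 → ℝ)) v := rfl
    have hcv : D (c, v) = D (c, 0) + D (0, v) := by
      rw [← map_add, Prod.mk_add_mk, add_zero, zero_add]
    have : D (c, v) = y := by
      rw [hcv, hv, hin]
      refine Prod.ext ?_ ?_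
      · simp only [Prod.fst_add, evD, ContinuousLinearMap.prod_apply, _root_.add_apply,
          _root_.smul_apply, ContinuousLinearMap.proj_apply, smul_eq_mul]
        linarith
      · simp only [Prod.snd_add, evD, ContinuousLinearMap.prod_apply, _root_.add_apply,
          _root_.smul_apply, ContinuousLinearMap.proj_apply, smul_eq_mul]
        linarith
    exact Prod.ext rfl this
  have hmap := hΦ.map_nhds_eq_of_surj hsurj
  have hF0 : F (0, q) = (0, 0) := by
    simp only [hF, hzero, h1, h0]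
  have hV := hmap ▸ Filter.image_mem_map (N1.and N2)
  simp only [hF0] at hV
  -- small parameters
  have hcc : ContinuousAt (fun c : Fin m → ℝ => (c, ((0 : ℝ), (0 : ℝ)))) 0 := by fun_prop
  obtain ⟨ε, hε, hεc⟩ := Metric.mem_nhds_iff.mp (hcc.preimage_mem_nhds hV)
  refine ⟨ε, hε, fun t ht => ?_⟩
  have hdt : t ∈ Metric.ball (0 : Fin m → ℝ) ε := by
    rw [Metric.mem_ball, dist_pi_lt_iff hε]
    intro k
    simpa [Real.dist_eq] using ht k
  obtain ⟨⟨t', q'⟩, ⟨m1, m2⟩, hq'⟩ := hεc hdt
  have ht' : t' = t := congrArg Prod.fst hq'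
  subst ht'
  have hq'' : F (t', q') = (0, 0) := congrArg Prod.snd hq'
  exact ⟨q', m1, congrArg Prod.fst hq'', congrArg Prod.snd hq'', m2⟩

end Pool.Agent.LogCentres
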