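import Pool.Agent.LogCentres.ExtDefs

/-!
# Strict local maxima persist under small perturbations
-/

namespace Pool.Agent.LogCentres

open MvPolynomial Pool.Agent.PlanarCentres Topology

theorem eval_upd {ι : Type} [DecidableEq ι] (f : ι → R) (i₀ i : ι) (c : Fin 3 → ℝ)
    (x : Fin 2 → ℝ) :
    eval x (Function.update f i₀ (pertF (f i₀) c) i) =
      eval x (f i) + if i = i₀ then c 0 + c 1 * x 0 + c 2 * x 1 else 0 := by
  by_cases h : i = i₀
  · subst h
    simp only [Function.update_self, pertF, map_add, map_mul, eval_C, eval_X, if_true]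
    ring
  · rw [Function.update_of_ne h, if_neg h, add_zero]

theorem cont_upd {ι : Type} [DecidableEq ι] (f : ι → R) (i₀ i : ι) :
    Continuous fun z : (Fin 3 → ℝ) × (Fin 2 → ℝ) =>
      eval z.2 (Function.update f i₀ (pertF (f i₀) z.1) i) := by
  have h : (fun z : (Fin 3 → ℝ) × (Fin 2 → ℝ) =>
      eval z.2 (Function.update f i₀ (pertF (f i₀) z.1) i)) = fun z =>
      eval z.2 (f i) + if i = i₀ then z.1 0 + z.1 1 * z.2 0 + z.1 2 * z.2 1 else 0 := by
    funext z
    exact eval_upd f i₀ i z.1 z.2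
  rw [h]
  have h1 : Continuous fun z : (Fin 3 → ℝ) × (Fin 2 → ℝ) => eval z.2 (f i) :=
    (MvPolynomial.continuous_eval (f i)).comp continuous_snd
  refine h1.add ?_
  by_cases hi : i = i₀
  · simp only [hi, if_true]
    fun_prop
  · simp only [hi, if_false]
    exact continuous_const

theorem cont_logF {ι : Type} [Fintype ι] [DecidableEq ι] (f : ι → R) (lam : ι → ℝ) (i₀ : ι)
    (z₀ : (Fin 3 → ℝ) × (Fin 2 → ℝ))
    (h : ∀ i, eval z₀.2 (Function.update f i₀ (pertF (f i₀) z₀.1) i) ≠ 0) :
    ContinuousAt (fun z : (Fin 3 → ℝ) × (Fin 2 → ℝ) =>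
      logF (Function.update f i₀ (pertF (f i₀) z.1)) lam z.2) z₀ := by
  unfold logF
  refine tendsto_finsetSum _ fun i _ => ?_
  exact ((cont_upd f i₀ i).continuousAt.abs.log (abs_ne_zero.mpr (h i))).const_mul (lam i)

theorem persist {ι : Type} [Fintype ι] [DecidableEq ι] (f : ι → R) (lam : ι → ℝ) (i₀ : ι)
    {p : Fin 2 → ℝ} (hp : ∀ i, eval p (f i) ≠ 0)
    (h : ∀ᶠ q in 𝓝[≠] p, logF f lam q < logF f lam p) {r : ℝ} (hr : 0 < r) :
    ∃ ε > 0, ∀ c : Fin 3 → ℝ, (∀ k, |c k| < ε) → ∃ q ∈ Metric.ball p r,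
      (∀ i, eval q (Function.update f i₀ (pertF (f i₀) c) i) ≠ 0) ∧
      IsLocalMax (logF (Function.update f i₀ (pertF (f i₀) c)) lam) q := by
  have hzero : ∀ (x : Fin 2 → ℝ) (i : ι),
      eval x (Function.update f i₀ (pertF (f i₀) 0) i) = eval x (f i) := by
    intro x i
    rw [eval_upd]
    simp
  have hzlog : ∀ x : Fin 2 → ℝ,
      logF (Function.update f i₀ (pertF (f i₀) 0)) lam x = logF f lam x := by
    intro x
    unfold logF
    exact Finset.sum_congr rfl fun i _ => by rw [hzero]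
  -- a small closed ball
  have hU : ∀ᶠ q in 𝓝 p, ∀ i, eval q (f i) ≠ 0 :=
    Filter.eventually_all.mpr fun i =>
      (MvPolynomial.continuous_eval (f i)).continuousAt.eventually_ne (hp i)
  have h' : ∀ᶠ q in 𝓝 p, q ≠ p → logF f lam q < logF f lam p :=
    eventually_nhdsWithin_iff.mp h
  obtain ⟨δ₀, hδ₀, hball⟩ := Metric.nhds_basis_closedBall.eventually_iff.mp (hU.and h')
  set δ := min δ₀ (r / 2) with hδ
  have hδ0 : 0 < δ := lt_min hδ₀ (by linarith)
  have hδr : δ < r := (min_le_right _ _).trans_lt (by linarith)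
  have hB : ∀ q ∈ Metric.closedBall p δ, (∀ i, eval q (f i) ≠ 0) ∧
      (q ≠ p → logF f lam q < logF f lam p) := by
    intro q hq
    exact hball (Metric.closedBall_subset_closedBall (min_le_left _ _) hq)
  have hK : IsCompact (Metric.closedBall p δ) := isCompact_closedBall p δ
  have hS : IsCompact (Metric.sphere p δ) := isCompact_sphere p δ
  -- no zeros
  have hA : ∀ᶠ c in 𝓝 (0 : Fin 3 → ℝ), ∀ x ∈ Metric.closedBall p δ,
      ∀ i, eval x (Function.update f i₀ (pertF (f i₀) c) i) ≠ 0 := by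
    refine hK.eventually_forall_of_forall_eventually ?_
    intro y hy
    refine Filter.eventually_all.mpr fun i => ?_
    refine (cont_upd f i₀ i).continuousAt.eventually_ne ?_
    simp only
    rw [hzero]
    exact (hB y hy).1 i
  -- smaller values on the sphere
  have hC : ∀ᶠ c in 𝓝 (0 : Fin 3 → ℝ), ∀ x ∈ Metric.sphere p δ,
      logF (Function.update f i₀ (pertF (f i₀) c)) lam x <
        logF (Function.update f i₀ (pertF (f i₀) c)) lam p := by
    refine hS.eventually_forall_of_forall_eventually ?_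
    intro y hy
    have hyb : y ∈ Metric.closedBall p δ := Metric.sphere_subset_closedBall hy
    have hyp : y ≠ p := by
      rintro rfl
      rw [Metric.mem_sphere, dist_self] at hy
      exact hδ0.ne hy
    have c1 := cont_logF f lam i₀ ((0 : Fin 3 → ℝ), y) (by
      intro i
      simp only
      rw [hzero]
      exact (hB y hyb).1 i)
    have c2 := cont_logF f lam i₀ ((0 : Fin 3 → ℝ), p) (by
      intro i
      simp only
      rw [hzero]
      exact hp i)
    have c3 : ContinuousAt (fun z : (Fin 3 → ℝ) × (Fin 2 → ℝ) =>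
        logF (Function.update f i₀ (pertF (f i₀) z.1)) lam p) ((0 : Fin 3 → ℝ), y) := by
      have c4 : ContinuousAt (fun z : (Fin 3 → ℝ) × (Fin 2 → ℝ) => (z.1, p))
          ((0 : Fin 3 → ℝ), y) := by fun_prop
      exact ContinuousAt.comp (f := fun z : (Fin 3 → ℝ) × (Fin 2 → ℝ) => (z.1, p))
        (g := fun z : (Fin 3 → ℝ) × (Fin 2 → ℝ) =>
          logF (Function.update f i₀ (pertF (f i₀) z.1)) lam z.2) c2 c4
    refine c1.eventually_lt c3 ?_
    simp only
    rw [hzlog, hzlog]
    exact (hB y hyb).2 hyp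
  obtain ⟨ε, hε, hεc⟩ := Metric.eventually_nhds_iff.mp (hA.and hC)
  refine ⟨ε, hε, fun c hc => ?_⟩
  have hdc : dist c 0 < ε := by
    rw [dist_pi_lt_iff hε]
    intro k
    simpa [Real.dist_eq] using hc k
  obtain ⟨hA', hC'⟩ := hεc hdc
  have hcont : ContinuousOn (logF (Function.update f i₀ (pertF (f i₀) c)) lam)
      (Metric.closedBall p δ) := by
    intro x hx
    refine ContinuousAt.continuousWithinAt ?_
    have c1 := cont_logF f lam i₀ (c, x) (hA' x hx)
    have c2 : ContinuousAt (fun y : Fin 2 → ℝ => (c, y)) x := by fun_prop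
    exact ContinuousAt.comp (f := fun y : Fin 2 → ℝ => (c, y))
      (g := fun z : (Fin 3 → ℝ) × (Fin 2 → ℝ) =>
        logF (Function.update f i₀ (pertF (f i₀) z.1)) lam z.2) c1 c2
  have hpb : p ∈ Metric.closedBall p δ := Metric.mem_closedBall_self hδ0.le
  obtain ⟨q, hq, hmax⟩ := hK.exists_isMaxOn ⟨p, hpb⟩ hcont
  have hqb : q ∈ Metric.ball p δ := by
    rcases (Metric.mem_closedBall.mp hq).lt_or_eq with h1 | h1
    · exact Metric.mem_ball.mpr h1
    · exact absurd (hmax hpb) (not_le.mpr (hC' q (Metric.mem_sphere.mpr h1)))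
  refine ⟨q, Metric.ball_subset_ball hδr.le hqb, hA' q hq, ?_⟩
  exact hmax.isLocalMax (Filter.mem_of_superset (Metric.isOpen_ball.mem_nhds hqb)
    Metric.ball_subset_closedBall)

/-- the logarithmic form of a family with one member replaced -/
theorem logD_update {ι : Type} [Fintype ι] [DecidableEq ι] (f : ι → R) (lam : ι → ℝ) (i₀ : ι) :
    ∃ (h : R) (H : Fin 2 → R), (h = ∏ j ∈ Finset.univ.erase i₀, f j) ∧
      ∀ (g : R) (l : Fin 2), logD (Function.update f i₀ g) lam l =
        lam i₀ • (h * pderiv l g) + g * H l := by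
  refine ⟨_, fun l => ∑ i ∈ Finset.univ.erase i₀,
    lam i • ((∏ j ∈ (Finset.univ.erase i).erase i₀, f j) * pderiv l (f i)), rfl, ?_⟩
  intro g l
  rw [logD, ← Finset.add_sum_erase Finset.univ _ (Finset.mem_univ i₀)]
  congr 1
  · rw [Function.update_self]
    congr 2
    exact Finset.prod_congr rfl fun j hj => by
      rw [Function.update_of_ne (Finset.ne_of_mem_erase hj)]
  · rw [Finset.mul_sum]
    refine Finset.sum_congr rfl fun i hi => ?_
    have hne : i ≠ i₀ := Finset.ne_of_mem_erase hi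
    have hmem : i₀ ∈ Finset.univ.erase i := Finset.mem_erase.mpr ⟨hne.symm, Finset.mem_univ _⟩
    rw [← Finset.mul_prod_erase (Finset.univ.erase i) _ hmem, Function.update_self,
      Function.update_of_ne hne, mul_smul_comm]
    congr 1
    rw [mul_assoc]
    congr 2
    exact Finset.prod_congr rfl fun j hj => by
      rw [Function.update_of_ne (Finset.ne_of_mem_erase hj)]

theorem pertF_deg (f : R) (c : Fin 3 → ℝ) {d : ℕ} (hd : 1 ≤ d) (hf : f.totalDegree ≤ d) :
    (pertF f c).totalDegree ≤ d := by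
  have hx : ∀ (a : ℝ) (i : Fin 2), (C a * X i : R).totalDegree ≤ d := by
    intro a i
    refine (totalDegree_mul _ _).trans ?_
    rw [totalDegree_C, totalDegree_X, zero_add]
    exact hd
  refine (totalDegree_add _ _).trans (max_le ?_ (hx _ _))
  refine (totalDegree_add _ _).trans (max_le ?_ (hx _ _))
  refine (totalDegree_add _ _).trans (max_le hf ?_)
  rw [totalDegree_C]
  exact Nat.zero_le _

end Pool.Agent.LogCentres
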