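import Pool.Agent.LogCentres.ExtDefs2
import Pool.Agent.LogCentres.Persist

/-!
# Gaps persist under small perturbations
-/

namespace Pool.Agent.LogCentres

open MvPolynomial Pool.Agent.PlanarCentres Topology

theorem persist_gap_max {ι : Type} [Fintype ι] [DecidableEq ι] (f : ι → R) (lam : ι → ℝ) (i₀ : ι)
    {p : Fin 2 → ℝ} {r : ℝ} (hr : 0 < r)
    (hne : ∀ x ∈ Metric.closedBall p r, ∀ i, eval x (f i) ≠ 0)
    (h : ∀ x ∈ Metric.sphere p r, logF f lam x < logF f lam p) :
    ∃ ε > 0, ∀ c : Fin 3 → ℝ, (∀ k, |c k| < ε) → ∃ q ∈ Metric.ball p r,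
      (∀ i, eval q (Function.update f i₀ (pertF (f i₀) c) i) ≠ 0) ∧
      IsLocalMax (logF (Function.update f i₀ (pertF (f i₀) c)) lam) q := by
  have hzero : ∀ (x : Fin 2 → ℝ) (i : ι),
      eval x (Function.update f i₀ (pertF (f i₀) 0) i) = eval x (f i) := by
    intro x i
    rw [eval_upd]
    simp
  have hzlog : ∀ x : Fin 2 → ℝ,
      logF (Function.update f i₀ (pertF (f i₀) 0)) lam x = logF f lam x := by
    intro x
    unfold logF
    exact Finset.sum_congr rfl fun i _ => by rw [hzero]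
  have hpb : p ∈ Metric.closedBall p r := Metric.mem_closedBall_self hr.le
  have hK : IsCompact (Metric.closedBall p r) := isCompact_closedBall p r
  have hS : IsCompact (Metric.sphere p r) := isCompact_sphere p r
  -- no zeros
  have hA : ∀ᶠ c in 𝓝 (0 : Fin 3 → ℝ), ∀ x ∈ Metric.closedBall p r,
      ∀ i, eval x (Function.update f i₀ (pertF (f i₀) c) i) ≠ 0 := by
    refine hK.eventually_forall_of_forall_eventually ?_
    intro y hy
    refine Filter.eventually_all.mpr fun i => ?_
    refine (cont_upd f i₀ i).continuousAt.eventually_ne ?_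
    simp only
    rw [hzero]
    exact hne y hy i
  -- smaller values on the sphere
  have hC : ∀ᶠ c in 𝓝 (0 : Fin 3 → ℝ), ∀ x ∈ Metric.sphere p r,
      logF (Function.update f i₀ (pertF (f i₀) c)) lam x <
        logF (Function.update f i₀ (pertF (f i₀) c)) lam p := by
    refine hS.eventually_forall_of_forall_eventually ?_
    intro y hy
    have hyb : y ∈ Metric.closedBall p r := Metric.sphere_subset_closedBall hy
    have c1 := cont_logF f lam i₀ ((0 : Fin 3 → ℝ), y) (by
      intro i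
      simp only
      rw [hzero]
      exact hne y hyb i)
    have c2 := cont_logF f lam i₀ ((0 : Fin 3 → ℝ), p) (by
      intro i
      simp only
      rw [hzero]
      exact hne p hpb i)
    have c3 : ContinuousAt (fun z : (Fin 3 → ℝ) × (Fin 2 → ℝ) =>
        logF (Function.update f i₀ (pertF (f i₀) z.1)) lam p) ((0 : Fin 3 → ℝ), y) := by
      have c4 : ContinuousAt (fun z : (Fin 3 → ℝ) × (Fin 2 → ℝ) => (z.1, p))
          ((0 : Fin 3 → ℝ), y) := by fun_prop
      exact ContinuousAt.comp (f := fun z : (Fin 3 → ℝ) × (Fin 2 → ℝ) => (z.1, p))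
        (g := fun z : (Fin 3 → ℝ) × (Fin 2 → ℝ) =>
          logF (Function.update f i₀ (pertF (f i₀) z.1)) lam z.2) c2 c4
    refine c1.eventually_lt c3 ?_
    simp only
    rw [hzlog, hzlog]
    exact h y hy
  obtain ⟨ε, hε, hεc⟩ := Metric.eventually_nhds_iff.mp (hA.and hC)
  refine ⟨ε, hε, fun c hc => ?_⟩
  have hdc : dist c 0 < ε := by
    rw [dist_pi_lt_iff hε]
    intro k
    simpa [Real.dist_eq] using hc k
  obtain ⟨hA', hC'⟩ := hεc hdc
  have hcont : ContinuousOn (logF (Function.update f i₀ (pertF (f i₀) c)) lam)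
      (Metric.closedBall p r) := by
    intro x hx
    refine ContinuousAt.continuousWithinAt ?_
    have c1 := cont_logF f lam i₀ (c, x) (hA' x hx)
    have c2 : ContinuousAt (fun y : Fin 2 → ℝ => (c, y)) x := by fun_prop
    exact ContinuousAt.comp (f := fun y : Fin 2 → ℝ => (c, y))
      (g := fun z : (Fin 3 → ℝ) × (Fin 2 → ℝ) =>
        logF (Function.update f i₀ (pertF (f i₀) z.1)) lam z.2) c1 c2
  obtain ⟨q, hq, hmax⟩ := hK.exists_isMaxOn ⟨p, hpb⟩ hcont
  have hqb : q ∈ Metric.ball p r := by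
    rcases (Metric.mem_closedBall.mp hq).lt_or_eq with h1 | h1
    · exact Metric.mem_ball.mpr h1
    · exact absurd (hmax hpb) (not_le.mpr (hC' q (Metric.mem_sphere.mpr h1)))
  refine ⟨q, hqb, hA' q hq, ?_⟩
  exact hmax.isLocalMax (Filter.mem_of_superset (Metric.isOpen_ball.mem_nhds hqb)
    Metric.ball_subset_closedBall)

theorem logF_neg {ι : Type} [Fintype ι] (f : ι → R) (lam : ι → ℝ) (x : Fin 2 → ℝ) :
    logF f (fun i => -lam i) x = -logF f lam x := by
  unfold logF
  rw [← Finset.sum_neg_distrib]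
  exact Finset.sum_congr rfl fun i _ => by ring

theorem persist_gap {ι : Type} [Fintype ι] [DecidableEq ι] (f : ι → R) (lam : ι → ℝ) (i₀ : ι)
    {p : Fin 2 → ℝ} {r : ℝ} (hr : 0 < r)
    (hne : ∀ x ∈ Metric.closedBall p r, ∀ i, eval x (f i) ≠ 0) (h : Gap (logF f lam) p r) :
    ∃ ε > 0, ∀ c : Fin 3 → ℝ, (∀ k, |c k| < ε) → ∃ q ∈ Metric.ball p r,
      (∀ i, eval q (Function.update f i₀ (pertF (f i₀) c) i) ≠ 0) ∧
      (IsLocalMax (logF (Function.update f i₀ (pertF (f i₀) c)) lam) q ∨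
        IsLocalMin (logF (Function.update f i₀ (pertF (f i₀) c)) lam) q) := by
  rcases h with h | h
  · obtain ⟨ε, hε, H⟩ := persist_gap_max f lam i₀ hr hne h
    refine ⟨ε, hε, fun c hc => ?_⟩
    obtain ⟨q, hq, h1, h2⟩ := H c hc
    exact ⟨q, hq, h1, Or.inl h2⟩
  · obtain ⟨ε, hε, H⟩ := persist_gap_max f (fun i => -lam i) i₀ hr hne (fun x hx => by
      rw [logF_neg, logF_neg]
      exact neg_lt_neg (h x hx))
    refine ⟨ε, hε, fun c hc => ?_⟩
    obtain ⟨q, hq, h1, h2⟩ := H c hc
    refine ⟨q, hq, h1, Or.inr ?_⟩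
    filter_upwards [h2] with y hy
    rw [logF_neg, logF_neg] at hy
    exact neg_le_neg_iff.mp hy

end Pool.Agent.LogCentres
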