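import Pool.Agent.LogCentres.ExtDefs

/-!
# A generic small perturbation has only nondegenerate zeros
-/

namespace Pool.Agent.LogCentres

open MvPolynomial Pool.Agent.PlanarCentres

/-- `p(w₀, w₁)` as a function of three variables -/
private noncomputable def e3 (p : R) (w : Fin 3 → ℝ) : ℝ := eval ![w 0, w 1] p

/-- the projection to a coordinate -/
private noncomputable def pr (k : Fin 3) : (Fin 3 → ℝ) →L[ℝ] ℝ := ContinuousLinearMap.proj k

/-- the derivative of `e3 p` -/
private noncomputable def dp (p : R) (w : Fin 3 → ℝ) : (Fin 3 → ℝ) →L[ℝ] ℝ :=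
  e3 (pderiv 0 p) w • pr 0 + e3 (pderiv 1 p) w • pr 1

private theorem pr_apply (k : Fin 3) (v : Fin 3 → ℝ) : pr k v = v k := rfl

private theorem hasF_pr (k : Fin 3) (w : Fin 3 → ℝ) :
    HasFDerivAt (fun w : Fin 3 → ℝ => w k) (pr k) w := (pr k).hasFDerivAt

private theorem dp_apply (p : R) (w v : Fin 3 → ℝ) :
    dp p w v = e3 (pderiv 0 p) w * v 0 + e3 (pderiv 1 p) w * v 1 := rfl

private theorem hasF (p : R) (w : Fin 3 → ℝ) : HasFDerivAt (e3 p) (dp p w) w := by
  induction p using MvPolynomial.induction_on with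
  | C a =>
    have h1 : dp (C a) w = 0 := by
      ext v
      simp [dp_apply, e3]
    rw [h1]
    have h2 : e3 (C a) = fun _ => a := by
      funext v
      simp [e3]
    rw [h2]
    exact hasFDerivAt_const a w
  | add p q hp hq =>
    have h1 : dp (p + q) w = dp p w + dp q w := by
      ext v
      simp [dp_apply, e3]
      ring
    have h2 : e3 (p + q) = e3 p + e3 q := by
      funext v
      simp [e3]
    rw [h1, h2]
    exact hp.add hq
  | mul_X p i hp =>
    have h2 : e3 (p * X i) = fun v => e3 p v * v i.castSucc := by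
      funext v
      fin_cases i <;> simp [e3]
    have h3 := hp.mul (hasF_pr i.castSucc w)
    rw [h2]
    refine h3.congr_fderiv ?_
    ext v
    simp only [add_apply, smul_apply, smul_eq_mul, dp_apply, pr_apply]
    fin_cases i
    · simp [e3, Derivation.leibniz]
      ring
    · simp [e3, Derivation.leibniz]
      ring

section

variable (f h : R) (H : Fin 2 → R) (lam : ℝ)

private noncomputable def g (l : Fin 2) (w : Fin 3 → ℝ) : ℝ :=
  -e3 (pderiv l f) w - w 2 * e3 (H l) w

private noncomputable def g' (l : Fin 2) (w : Fin 3 → ℝ) : (Fin 3 → ℝ) →L[ℝ] ℝ :=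
  -dp (pderiv l f) w - (w 2 • dp (H l) w + e3 (H l) w • pr 2)

private noncomputable def g0 (w : Fin 3 → ℝ) : ℝ :=
  lam * (e3 h w * w 2) - e3 f w - g f H 0 w * w 0 - g f H 1 w * w 1

private noncomputable def g0' (w : Fin 3 → ℝ) : (Fin 3 → ℝ) →L[ℝ] ℝ :=
  lam • (e3 h w • pr 2 + w 2 • dp h w) - dp f w - (g f H 0 w • pr 0 + w 0 • g' f H 0 w) -
    (g f H 1 w • pr 1 + w 1 • g' f H 1 w)

private theorem hasF_g (l : Fin 2) (w : Fin 3 → ℝ) : HasFDerivAt (g f H l) (g' f H l w) w :=
  (hasF _ w).neg.sub ((hasF_pr 2 w).mul (hasF _ w))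

private theorem hasF_g0 (w : Fin 3 → ℝ) : HasFDerivAt (g0 f h H lam) (g0' f h H lam w) w :=
  (((((hasF h w).mul (hasF_pr 2 w)).const_mul lam).sub (hasF f w)).sub
    ((hasF_g f H 0 w).mul (hasF_pr 0 w))).sub ((hasF_g f H 1 w).mul (hasF_pr 1 w))

/-- the parametrisation of the parameters with a zero -/
private noncomputable def Psi (w : Fin 3 → ℝ) : Fin 3 → ℝ :=
  ![g0 f h H lam w, g f H 0 w, g f H 1 w]

private noncomputable def Psi' (w : Fin 3 → ℝ) : (Fin 3 → ℝ) →L[ℝ] (Fin 3 → ℝ) :=
  ContinuousLinearMap.pi ![g0' f h H lam w, g' f H 0 w, g' f H 1 w]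

private theorem hasF_Psi (w : Fin 3 → ℝ) :
    HasFDerivAt (Psi f h H lam) (Psi' f h H lam w) w := by
  apply hasFDerivAt_pi.2
  intro k
  fin_cases k
  · exact hasF_g0 f h H lam w
  · exact hasF_g f H 0 w
  · exact hasF_g f H 1 w

end

private theorem pderiv0_pertF (f : R) (c : Fin 3 → ℝ) :
    pderiv 0 (pertF f c) = pderiv 0 f + C (c 1) := by
  simp [pertF, Derivation.leibniz]

private theorem pderiv1_pertF (f : R) (c : Fin 3 → ℝ) :
    pderiv 1 (pertF f c) = pderiv 1 f + C (c 2) := by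
  simp [pertF, Derivation.leibniz]

private theorem pderiv_pertF (f : R) (c : Fin 3 → ℝ) (l : Fin 2) :
    pderiv l (pertF f c) = pderiv l f + C (c l.succ) := by
  fin_cases l
  · exact pderiv0_pertF f c
  · exact pderiv1_pertF f c

private theorem ev_pertF (f : R) (c : Fin 3 → ℝ) (x : Fin 2 → ℝ) :
    eval x (pertF f c) = eval x f + c 0 + c 1 * x 0 + c 2 * x 1 := by
  simp [pertF]

private theorem ev_pertX (f h : R) (H : Fin 2 → R) (lam : ℝ) (c : Fin 3 → ℝ) (l : Fin 2)
    (x : Fin 2 → ℝ) : eval x (pertX f h H lam c l) =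
      lam * (eval x h * (eval x (pderiv l f) + c l.succ)) + eval x (pertF f c) * eval x (H l) := by
  rw [pertX, pderiv_pertF]
  simp

private theorem ev_d (f h : R) (H : Fin 2 → R) (lam : ℝ) (c : Fin 3 → ℝ) (k l : Fin 2)
    (x : Fin 2 → ℝ) : eval x (pderiv k (pertX f h H lam c l)) =
      lam * (eval x (pderiv k h) * (eval x (pderiv l f) + c l.succ) +
        eval x h * eval x (pderiv k (pderiv l f))) +
      (eval x (pderiv k f) + c k.succ) * eval x (H l) +
      eval x (pertF f c) * eval x (pderiv k (H l)) := by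
  rw [pertX, pderiv_pertF, map_add, Derivation.map_smul, Derivation.leibniz, Derivation.leibniz,
    pderiv_pertF, map_add (pderiv k), pderiv_C, add_zero]
  simp
  ring

private theorem crit (f h : R) (H : Fin 2 → R) {lam : ℝ} (hlam : lam ≠ 0) (c : Fin 3 → ℝ)
    (x : Fin 2 → ℝ) (hh : eval x h ≠ 0) (hX : ∀ l, eval x (pertX f h H lam c l) = 0)
    (hj : eval x (jacP (pertX f h H lam c 1) (-pertX f h H lam c 0)) = 0) :
    ∃ w : Fin 3 → ℝ, Psi f h H lam w = c ∧ (Psi' f h H lam w).det = 0 := by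
  have hdet : (Matrix.of fun l k : Fin 2 => eval x (pderiv k (pertX f h H lam c l))).det = 0 := by
    rw [Matrix.det_fin_two]
    simp only [jacP, map_neg, map_sub, map_mul] at hj
    simp only [Matrix.of_apply]
    linear_combination hj
  obtain ⟨v, hv, hMv⟩ := Matrix.exists_mulVec_eq_zero_iff.2 hdet
  have hv0 := congrFun hMv 0
  have hv1 := congrFun hMv 1
  simp only [Matrix.mulVec, dotProduct, Fin.sum_univ_two, Matrix.of_apply, Pi.zero_apply] at hv0 hv1
  rw [ev_d, ev_d] at hv0 hv1
  have hX0 := hX 0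
  have hX1 := hX 1
  rw [ev_pertX] at hX0 hX1
  have hlA : lam * eval x h ≠ 0 := mul_ne_zero hlam hh
  obtain ⟨s, hs⟩ : ∃ s : ℝ, eval x (pertF f c) = lam * eval x h * s :=
    ⟨eval x (pertF f c) / (lam * eval x h), by field_simp⟩
  obtain ⟨σ, hσ⟩ : ∃ σ : ℝ, lam * eval x h * σ =
      -s * (lam * (eval x (pderiv 0 h) * v 0 + eval x (pderiv 1 h) * v 1) +
        (eval x (H 0) * v 0 + eval x (H 1) * v 1)) :=
    ⟨-s * (lam * (eval x (pderiv 0 h) * v 0 + eval x (pderiv 1 h) * v 1) +
        (eval x (H 0) * v 0 + eval x (H 1) * v 1)) / (lam * eval x h), by field_simp⟩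
  have ha0 : eval x (pderiv 0 f) + c (Fin.succ 0) = -s * eval x (H 0) := by
    apply mul_left_cancel₀ hlA
    linear_combination hX0 - eval x (H 0) * hs
  have ha1 : eval x (pderiv 1 f) + c (Fin.succ 1) = -s * eval x (H 1) := by
    apply mul_left_cancel₀ hlA
    linear_combination hX1 - eval x (H 1) * hs
  have he : ∀ p : R, e3 p ![x 0, x 1, s] = eval x p := by
    intro p
    rw [e3]
    congr 1
    congr 1
    funext i
    fin_cases i <;> rfl
  refine ⟨![x 0, x 1, s], ?_, ?_⟩
  · have hp := ev_pertF f c x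
    have hc1 : c (Fin.succ 0) = c 1 := rfl
    have hc2 : c (Fin.succ 1) = c 2 := rfl
    rw [hc1] at ha0
    rw [hc2] at ha1
    funext k
    fin_cases k
    · show g0 f h H lam ![x 0, x 1, s] = c 0
      simp only [g0, g, he]
      show lam * (eval x h * s) - eval x f - (-eval x (pderiv 0 f) - s * eval x (H 0)) * x 0 -
        (-eval x (pderiv 1 f) - s * eval x (H 1)) * x 1 = c 0
      linear_combination hp - hs + x 0 * ha0 + x 1 * ha1
    · show g f H 0 ![x 0, x 1, s] = c 1
      simp only [g, he]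
      show -eval x (pderiv 0 f) - s * eval x (H 0) = c 1
      linear_combination -ha0
    · show g f H 1 ![x 0, x 1, s] = c 2
      simp only [g, he]
      show -eval x (pderiv 1 f) - s * eval x (H 1) = c 2
      linear_combination -ha1
  · rw [ContinuousLinearMap.det, LinearMap.det_eq_zero_iff_ker_ne_bot]
    have hD0 : -(eval x (pderiv 0 (pderiv 0 f)) * v 0 + eval x (pderiv 1 (pderiv 0 f)) * v 1) -
        (s * (eval x (pderiv 0 (H 0)) * v 0 + eval x (pderiv 1 (H 0)) * v 1) +
          eval x (H 0) * σ) = 0 := by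
      apply mul_left_cancel₀ hlA
      linear_combination -hv0 + (lam * (v 0 * eval x (pderiv 0 h) + v 1 * eval x (pderiv 1 h))) *
        ha0 + eval x (H 0) * v 0 * ha0 + eval x (H 0) * v 1 * ha1 +
        (eval x (pderiv 0 (H 0)) * v 0 + eval x (pderiv 1 (H 0)) * v 1) * hs - eval x (H 0) * hσ
    have hD1 : -(eval x (pderiv 0 (pderiv 1 f)) * v 0 + eval x (pderiv 1 (pderiv 1 f)) * v 1) -
        (s * (eval x (pderiv 0 (H 1)) * v 0 + eval x (pderiv 1 (H 1)) * v 1) +
          eval x (H 1) * σ) = 0 := by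
      apply mul_left_cancel₀ hlA
      linear_combination -hv1 + (lam * (v 0 * eval x (pderiv 0 h) + v 1 * eval x (pderiv 1 h))) *
        ha1 + eval x (H 1) * v 0 * ha0 + eval x (H 1) * v 1 * ha1 +
        (eval x (pderiv 0 (H 1)) * v 0 + eval x (pderiv 1 (H 1)) * v 1) * hs - eval x (H 1) * hσ
    intro hbot
    have hmem : (![v 0, v 1, σ] : Fin 3 → ℝ) ∈
        LinearMap.ker (Psi' f h H lam ![x 0, x 1, s] : (Fin 3 → ℝ) →ₗ[ℝ] (Fin 3 → ℝ)) := by
      rw [LinearMap.mem_ker]
      funext k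
      fin_cases k
      · show g0' f h H lam ![x 0, x 1, s] ![v 0, v 1, σ] = 0
        simp only [g0', g', g, sub_apply, add_apply, smul_apply, neg_apply, smul_eq_mul, dp_apply,
          pr_apply, he]
        show lam * (eval x h * σ + s * (eval x (pderiv 0 h) * v 0 + eval x (pderiv 1 h) * v 1)) -
          (eval x (pderiv 0 f) * v 0 + eval x (pderiv 1 f) * v 1) -
          ((-eval x (pderiv 0 f) - s * eval x (H 0)) * v 0 +
            x 0 * (-(eval x (pderiv 0 (pderiv 0 f)) * v 0 + eval x (pderiv 1 (pderiv 0 f)) * v 1) -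
            (s * (eval x (pderiv 0 (H 0)) * v 0 + eval x (pderiv 1 (H 0)) * v 1) +
              eval x (H 0) * σ))) -
          ((-eval x (pderiv 1 f) - s * eval x (H 1)) * v 1 +
            x 1 * (-(eval x (pderiv 0 (pderiv 1 f)) * v 0 + eval x (pderiv 1 (pderiv 1 f)) * v 1) -
            (s * (eval x (pderiv 0 (H 1)) * v 0 + eval x (pderiv 1 (H 1)) * v 1) +
              eval x (H 1) * σ))) = 0
        rw [hD0, hD1]
        linear_combination hσ
      · show g' f H 0 ![x 0, x 1, s] ![v 0, v 1, σ] = 0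
        simp only [g', sub_apply, add_apply, smul_apply, neg_apply, smul_eq_mul, dp_apply,
          pr_apply, he]
        exact hD0
      · show g' f H 1 ![x 0, x 1, s] ![v 0, v 1, σ] = 0
        simp only [g', sub_apply, add_apply, smul_apply, neg_apply, smul_eq_mul, dp_apply,
          pr_apply, he]
        exact hD1
    rw [hbot, Submodule.mem_bot] at hmem
    apply hv
    funext k
    fin_cases k
    · exact congrFun hmem 0
    · exact congrFun hmem 1

theorem exists_good (f h : R) (H : Fin 2 → R) {lam ε : ℝ} (hlam : lam ≠ 0) (hε : 0 < ε) :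
    ∃ c : Fin 3 → ℝ, (∀ k, |c k| < ε) ∧ ∀ x : Fin 2 → ℝ, eval x h ≠ 0 →
      (∀ l, eval x (pertX f h H lam c l) = 0) →
      eval x (jacP (pertX f h H lam c 1) (-pertX f h H lam c 0)) ≠ 0 := by
  by_contra hcon
  push Not at hcon
  have hsub : Set.pi Set.univ (fun _ : Fin 3 => Set.Ioo (-ε) ε) ⊆
      Psi f h H lam '' {w | (Psi' f h H lam w).det = 0} := by
    intro c hc
    obtain ⟨x, hx, hX, hj⟩ := hcon c fun k => abs_lt.2 (hc k (Set.mem_univ k))
    obtain ⟨w, hw, hd⟩ := crit f h H hlam c x hx hX hj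
    exact ⟨w, hd, hw⟩
  have h0 : MeasureTheory.volume (Psi f h H lam '' {w | (Psi' f h H lam w).det = 0}) = 0 :=
    MeasureTheory.addHaar_image_eq_zero_of_det_fderivWithin_eq_zero MeasureTheory.volume
      (fun w _ => (hasF_Psi f h H lam w).hasFDerivWithinAt) (fun w hw => hw)
  have h1 : 0 < MeasureTheory.volume (Set.pi Set.univ (fun _ : Fin 3 => Set.Ioo (-ε) ε)) := by
    apply IsOpen.measure_pos
    · exact isOpen_set_pi Set.finite_univ fun _ _ => isOpen_Ioo
    · exact ⟨0, fun k _ => ⟨by simpa using hε, by simpa using hε⟩⟩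
  exact absurd (MeasureTheory.measure_mono_null hsub h0) h1.ne'

end Pool.Agent.LogCentres
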