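import Pool.Agent.LogCentres.Focus
import Pool.Agent.LogCentres.PersF
import Pool.Agent.LogCentres.PersG
import Pool.Agent.LogCentres.Sard
import Pool.Agent.LogCentres.LocExt

/-!
# The bound for disjoint good balls
-/

namespace Pool.Agent.LogCentres

open MvPolynomial Pool.Agent.PlanarCentres Topology

private theorem pderiv_swap (f : R) : pderiv 1 (pderiv 0 f) = pderiv 0 (pderiv 1 f) := by
  have h : ⁅(pderiv 1 : Derivation ℝ R R), (pderiv 0 : Derivation ℝ R R)⁆ = 0 := by
    refine MvPolynomial.derivation_ext fun i => ?_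
    rw [Derivation.commutator_apply]
    fin_cases i <;> simp [pderiv_X]
  have h1 := congrArg (fun D : Derivation ℝ R R => D f) h
  simp only [Derivation.commutator_apply, Derivation.coe_zero, Pi.zero_apply] at h1
  exact sub_eq_zero.mp h1

private theorem curl_logD {ι : Type} [Fintype ι] [DecidableEq ι] (f : ι → R) (lam : ι → ℝ) :
    (∏ i, f i) * (pderiv 1 (logD f lam 0) - pderiv 0 (logD f lam 1)) =
      pderiv 1 (∏ i, f i) * logD f lam 0 - pderiv 0 (∏ i, f i) * logD f lam 1 := by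
  unfold logD
  rw [map_sum, map_sum, ← Finset.sum_sub_distrib, Finset.mul_sum, Finset.mul_sum,
    Finset.mul_sum, ← Finset.sum_sub_distrib]
  refine Finset.sum_congr rfl fun i _ => ?_
  have hV : ∏ j, f j = f i * ∏ j ∈ Finset.univ.erase i, f j :=
    (Finset.mul_prod_erase Finset.univ f (Finset.mem_univ i)).symm
  rw [hV]
  set p := ∏ j ∈ Finset.univ.erase i, f j with hp
  simp only [MvPolynomial.smul_eq_C_mul, Derivation.leibniz, smul_eq_mul, pderiv_C, mul_zero,
    add_zero, pderiv_swap (f i)]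
  ring

private theorem trace_zero {ι : Type} [Fintype ι] [DecidableEq ι] (f : ι → R) (lam : ι → ℝ)
    {s : Fin 2 → ℝ} (hs : ∀ i, eval s (f i) ≠ 0) (h1 : eval s (logD f lam 1) = 0)
    (h0 : eval s (logD f lam 0) = 0) :
    eval s (pderiv 0 (logD f lam 1)) + eval s (pderiv 1 (-logD f lam 0)) = 0 := by
  have h := congrArg (eval s) (curl_logD f lam)
  rw [map_mul, map_sub, map_sub, map_mul, map_mul, h1, h0, mul_zero, mul_zero, sub_zero] at h
  have hV : eval s (∏ i, f i) ≠ 0 := by
    rw [map_prod]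
    exact Finset.prod_ne_zero_iff.mpr fun i _ => hs i
  have h2 := (mul_eq_zero.mp h).resolve_left hV
  rw [map_neg, map_neg]
  linarith

private theorem exists_index2 {ι : Type} [Fintype ι] [DecidableEq ι] (f : ι → R) (lam : ι → ℝ)
    {p : Fin 2 → ℝ} {r : ℝ} (hr : 0 < r) (h : Good f lam p r) :
    ∃ i₀, lam i₀ ≠ 0 ∧ 1 ≤ (f i₀).totalDegree := by
  by_contra hno
  push Not at hno
  have hC : ∀ i, lam i ≠ 0 → f i = C (coeff 0 (f i)) := by
    intro i h0
    have hd : (f i).totalDegree = 0 := by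
      have := hno i h0
      omega
    exact totalDegree_eq_zero_iff_eq_C.mp hd
  rcases h with ⟨-, h⟩ | ⟨q, -, -, -, hj⟩
  · have hc : ∀ q, logF f lam q = logF f lam p := by
      intro q
      unfold logF
      refine Finset.sum_congr rfl fun i _ => ?_
      rcases eq_or_ne (lam i) 0 with h0 | h0
      · rw [h0, zero_mul, zero_mul]
      · rw [hC i h0, eval_C, eval_C]
    obtain ⟨q, hq⟩ : (Metric.sphere p r).Nonempty := NormedSpace.sphere_nonempty.mpr hr.le
    rcases h with h | h
    · have := h q hq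
      rw [hc q] at this
      exact lt_irrefl _ this
    · have := h q hq
      rw [hc q] at this
      exact lt_irrefl _ this
  · have h0 : ∀ l, logD f lam l = 0 := by
      intro l
      unfold logD
      refine Finset.sum_eq_zero fun i _ => ?_
      rcases eq_or_ne (lam i) 0 with h0 | h0
      · rw [h0, zero_smul]
      · rw [hC i h0, pderiv_C, mul_zero, smul_zero]
    rw [h0, h0, jacP] at hj
    simp at hj

/-- the linear perturbations -/
private noncomputable def pe : Fin 3 → R := ![1, X 0, X 1]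

private theorem pertF_eq (f : R) (c : Fin 3 → ℝ) : pertF f c = f + ∑ k, c k • pe k := by
  rw [Fin.sum_univ_three]
  simp only [pertF, pe, Matrix.cons_val_zero, Matrix.cons_val_one, Matrix.cons_val,
    MvPolynomial.smul_eq_C_mul, mul_one]
  ring

private theorem lin_pert (lam : ℝ) (h : R) (H : R) (l : Fin 2) (f : R) (c : Fin 3 → ℝ) :
    lam • (h * pderiv l (pertF f c)) + pertF f c * H =
      (lam • (h * pderiv l f) + f * H) +
        ∑ k, c k • (lam • (h * pderiv l (pe k)) + pe k * H) := by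
  rw [pertF_eq, map_add, map_sum, Fin.sum_univ_three, Fin.sum_univ_three, Fin.sum_univ_three]
  simp only [MvPolynomial.smul_eq_C_mul, Derivation.leibniz, pderiv_C, smul_eq_mul, mul_zero,
    add_zero]
  ring

private theorem point_moves {ι : Type} [Fintype ι] [DecidableEq ι] (f : ι → R) (lam : ι → ℝ)
    (i₀ : ι) (h : R) (H : Fin 2 → R) (hh : h = ∏ j ∈ Finset.univ.erase i₀, f j)
    (hup : ∀ (g : R) (l : Fin 2), logD (Function.update f i₀ g) lam l =
        lam i₀ • (h * pderiv l g) + g * H l)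
    {p : Fin 2 → ℝ} {r : ℝ} (hr : 0 < r) (hgood : Good f lam p r) :
    ∃ ε > 0, ∀ c : Fin 3 → ℝ, (∀ k, |c k| < ε) →
      (∀ x : Fin 2 → ℝ, eval x h ≠ 0 →
        (∀ l, eval x (pertX (f i₀) h H (lam i₀) c l) = 0) →
        eval x (jacP (pertX (f i₀) h H (lam i₀) c 1) (-pertX (f i₀) h H (lam i₀) c 0)) ≠ 0) →
      ∃ q ∈ Metric.ball p r,
        FocusZero (logD (Function.update f i₀ (pertF (f i₀) c)) lam 1)
          (-logD (Function.update f i₀ (pertF (f i₀) c)) lam 0) q := by
  rcases hgood with ⟨hne, hgap⟩ | ⟨q₀, hq₀, hfoc⟩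
  · obtain ⟨ε, hε, K⟩ := persist_gap f lam i₀ hr hne hgap
    refine ⟨ε, hε, fun c hc hgood => ?_⟩
    obtain ⟨q, hq, h2, h3⟩ := K c hc
    obtain ⟨h4, h5, h6⟩ := loc_ext (Function.update f i₀ (pertF (f i₀) c)) lam h2 h3
    have hX : ∀ l, logD (Function.update f i₀ (pertF (f i₀) c)) lam l =
        pertX (f i₀) h H (lam i₀) c l := fun l => hup _ l
    have h7 : eval q h ≠ 0 := by
      rw [hh, map_prod]
      refine Finset.prod_ne_zero_iff.mpr fun j hj => ?_
      have := h2 j
      rwa [Function.update_of_ne (Finset.ne_of_mem_erase hj)] at this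
    have h8 := hgood q h7 fun l => by
      rw [← hX]
      fin_cases l
      · exact h5
      · exact h4
    rw [← hX, ← hX] at h8
    refine ⟨q, hq, h4, by rw [map_neg, h5, neg_zero], ?_⟩
    rw [trace_zero _ lam h2 h4 h5]
    have := lt_of_le_of_ne h6 (Ne.symm h8)
    linarith
  · have hbase : ∀ l, logD f lam l = lam i₀ • (h * pderiv l (f i₀)) + f i₀ * H l := by
      intro l
      have := hup (f i₀) l
      rwa [Function.update_eq_self] at this
    obtain ⟨ε, hε, K⟩ := persist_focus (m := 3)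
      (fun k => lam i₀ • (h * pderiv 1 (pe k)) + pe k * H 1)
      (fun k => -(lam i₀ • (h * pderiv 0 (pe k)) + pe k * H 0)) hq₀ hfoc
    refine ⟨ε, hε, fun c hc _ => ?_⟩
    obtain ⟨q, hq, h2⟩ := K c hc
    refine ⟨q, hq, ?_⟩
    have e1 : logD (Function.update f i₀ (pertF (f i₀) c)) lam 1 =
        logD f lam 1 + ∑ k, c k • (lam i₀ • (h * pderiv 1 (pe k)) + pe k * H 1) := by
      rw [hup, hbase, lin_pert]
    have e0 : -logD (Function.update f i₀ (pertF (f i₀) c)) lam 0 =
        -logD f lam 0 + ∑ k, c k • -(lam i₀ • (h * pderiv 0 (pe k)) + pe k * H 0) := by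
      rw [hup, hbase, lin_pert, neg_add]
      congr 1
      simp only [smul_neg, Finset.sum_neg_distrib]
    rw [e1, e0]
    exact h2

theorem gap_bound {ι : Type} [Fintype ι] [DecidableEq ι] (f : ι → R) (lam : ι → ℝ)
    (hf : ∀ i, f i ≠ 0) {n : ℕ} (hn : ∑ i, (f i).totalDegree ≤ n + 1)
    (S : Finset (Fin 2 → ℝ)) {r : ℝ} (hr : 0 < r)
    (hdisj : ∀ p ∈ S, ∀ q ∈ S, p ≠ q → Disjoint (Metric.ball p r) (Metric.ball q r))
    (hS : ∀ p ∈ S, Good f lam p r) : 2 * S.card ≤ n ^ 2 + 1 := by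
  classical
  rcases S.eq_empty_or_nonempty with rfl | ⟨p₀, hp₀⟩
  · simp
  obtain ⟨i₀, hi₀, hdeg⟩ := exists_index2 f lam hr (hS p₀ hp₀)
  obtain ⟨h, H, hh, hup⟩ := logD_update f lam i₀
  have hper : ∀ p, ∃ ε > 0, p ∈ S → ∀ c : Fin 3 → ℝ, (∀ k, |c k| < ε) →
      (∀ x : Fin 2 → ℝ, eval x h ≠ 0 →
        (∀ l, eval x (pertX (f i₀) h H (lam i₀) c l) = 0) →
        eval x (jacP (pertX (f i₀) h H (lam i₀) c 1) (-pertX (f i₀) h H (lam i₀) c 0)) ≠ 0) →
      ∃ q ∈ Metric.ball p r,
        FocusZero (logD (Function.update f i₀ (pertF (f i₀) c)) lam 1)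
          (-logD (Function.update f i₀ (pertF (f i₀) c)) lam 0) q := by
    intro p
    by_cases hp : p ∈ S
    · obtain ⟨ε, hε, K⟩ := point_moves f lam i₀ h H hh hup hr (hS p hp)
      exact ⟨ε, hε, fun _ => K⟩
    · exact ⟨1, one_pos, fun h => absurd h hp⟩
  choose ε hε hper using hper
  obtain ⟨ε₀, hε₀, hle⟩ : ∃ ε₀ > 0, ∀ p ∈ S, ε₀ ≤ ε p := by
    have h1 : ∀ᶠ t in 𝓝[>] (0 : ℝ), ∀ p ∈ S, t ≤ ε p := by
      rw [Filter.eventually_all_finset]
      intro p _
      filter_upwards [Ioc_mem_nhdsGT (hε p)] with t ht using ht.2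
    obtain ⟨t, ht, ht0⟩ := (h1.and self_mem_nhdsWithin).exists
    exact ⟨t, ht0, ht⟩
  obtain ⟨c, hc, hgood⟩ := exists_good (f i₀) h H hi₀ hε₀
  set g : ι → R := Function.update f i₀ (pertF (f i₀) c) with hg
  have hq : ∀ p, ∃ q : Fin 2 → ℝ, p ∈ S → q ∈ Metric.ball p r ∧
      FocusZero (logD g lam 1) (-logD g lam 0) q := by
    intro p
    by_cases hp : p ∈ S
    · obtain ⟨q, h1, h2⟩ := hper p hp c (fun k => lt_of_lt_of_le (hc k) (hle p hp)) hgood
      exact ⟨q, fun _ => ⟨h1, h2⟩⟩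
    · exact ⟨p, fun h => absurd h hp⟩
  choose q hq using hq
  have hinj : Set.InjOn q S := by
    intro p hp p' hp' hpp
    by_contra hne'
    have h2 := (hq p hp).1
    have h3 := (hq p' hp').1
    rw [← hpp] at h3
    exact Set.disjoint_left.mp (hdisj p hp p' hp' hne') h2 h3
  have hcard : (S.image q).card = S.card := Finset.card_image_of_injOn hinj
  have hg0 : ∀ i, g i ≠ 0 := by
    intro i
    rcases eq_or_ne i i₀ with rfl | hi
    · rw [hg, Function.update_self]
      intro h0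
      obtain ⟨-, -, -, hj⟩ := hq p₀ hp₀
      have hz : ∀ l, logD g lam l = 0 := by
        intro l
        rw [hg, hup, h0, map_zero, mul_zero, smul_zero, zero_mul, add_zero]
      rw [hz, hz, jacP] at hj
      simp at hj
    · rw [hg, Function.update_of_ne hi]
      exact hf i
  have hgdeg : ∑ i, (g i).totalDegree ≤ n + 1 := by
    refine le_trans (Finset.sum_le_sum fun i _ => ?_) hn
    rcases eq_or_ne i i₀ with rfl | hi
    · rw [hg, Function.update_self]
      exact pertF_deg _ _ hdeg le_rfl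
    · rw [hg, Function.update_of_ne hi]
  rw [← hcard]
  refine zeros_focus g lam hg0 hgdeg (S.image q) fun s hs => ?_
  obtain ⟨p, hp, rfl⟩ := Finset.mem_image.mp hs
  exact (hq p hp).2

end Pool.Agent.LogCentres
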