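import Pool.Agent.LogCentres.ExtDefs2

/-!
# Persistence and creation of gaps
-/

namespace Pool.Agent.LogCentres

open Filter Topology

theorem gap_persist {Ψ : ℝ → (Fin 2 → ℝ) → ℝ} {p : Fin 2 → ℝ} {r : ℝ} (hr : 0 < r)
    (hc : ∀ x ∈ Metric.sphere p r, ContinuousAt (fun z : ℝ × (Fin 2 → ℝ) => Ψ z.1 z.2) (0, x))
    (hp : ContinuousAt (fun ε : ℝ => Ψ ε p) 0) (h : Gap (Ψ 0) p r) :
    ∀ᶠ ε in 𝓝 (0 : ℝ), Gap (Ψ ε) p r := by
  have _ := hr
  have hp' : ∀ x : Fin 2 → ℝ, ContinuousAt (fun z : ℝ × (Fin 2 → ℝ) => Ψ z.1 p) (0, x) :=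
    fun x => ContinuousAt.comp (f := Prod.fst) (x := ((0 : ℝ), x)) (g := fun ε : ℝ => Ψ ε p) hp
      continuousAt_fst
  rcases h with h | h
  · have h1 : ∀ᶠ ε in 𝓝 (0 : ℝ), ∀ x ∈ Metric.sphere p r, Ψ ε x < Ψ ε p :=
      (isCompact_sphere p r).eventually_forall_of_forall_eventually fun x hx =>
        (hc x hx).eventually_lt (hp' x) (h x hx)
    exact h1.mono fun _ => Or.inl
  · have h1 : ∀ᶠ ε in 𝓝 (0 : ℝ), ∀ x ∈ Metric.sphere p r, Ψ ε p < Ψ ε x :=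
      (isCompact_sphere p r).eventually_forall_of_forall_eventually fun x hx =>
        (hp' x).eventually_lt (hc x hx) (h x hx)
    exact h1.mono fun _ => Or.inr

theorem gap_blow {Ψ : ℝ → (Fin 2 → ℝ) → ℝ} {p : Fin 2 → ℝ} {r : ℝ} (hr : 0 < r)
    (hc : ∀ x ∈ Metric.sphere p r, ContinuousAt (fun z : ℝ × (Fin 2 → ℝ) => Ψ z.1 z.2) (0, x))
    (hp : Tendsto (fun ε : ℝ => |Ψ ε p|) (𝓝[>] 0) atTop) :
    ∀ᶠ ε in 𝓝[>] (0 : ℝ), Gap (Ψ ε) p r := by
  have _ := hr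
  have h0 : ContinuousOn (Ψ 0) (Metric.sphere p r) := fun x hx =>
    (ContinuousAt.comp (f := fun y : Fin 2 → ℝ => ((0 : ℝ), y)) (x := x)
      (g := fun z : ℝ × (Fin 2 → ℝ) => Ψ z.1 z.2) (hc x hx)
      (by fun_prop)).continuousWithinAt
  obtain ⟨M, hM⟩ := (isCompact_sphere p r).exists_bound_of_continuousOn h0
  have h1 : ∀ᶠ ε in 𝓝 (0 : ℝ), ∀ x ∈ Metric.sphere p r, |Ψ ε x| < M + 1 :=
    (isCompact_sphere p r).eventually_forall_of_forall_eventually fun x hx =>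
      (hc x hx).abs.eventually_lt continuousAt_const (lt_of_le_of_lt (hM x hx) (by linarith))
  filter_upwards [h1.filter_mono nhdsWithin_le_nhds, hp.eventually_gt_atTop (M + 1)] with ε h2 h3
  rcases le_or_gt 0 (Ψ ε p) with h4 | h4
  · refine Or.inl fun x hx => ?_
    rw [abs_of_nonneg h4] at h3
    exact (le_abs_self _).trans_lt ((h2 x hx).trans h3)
  · refine Or.inr fun x hx => ?_
    rw [abs_of_neg h4] at h3
    have := (neg_abs_le (Ψ ε x))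
    linarith [h2 x hx]

end Pool.Agent.LogCentres
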