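import Pool.Agent.LogCentres.Shear
import Pool.Agent.LogCentres.Elim

/-!
# Generic translation
-/

namespace Pool.Agent.LogCentres

open MvPolynomial Pool.Agent.PlanarCentres

private theorem ln_shear (c : ℝ) (f : R) :
    ln (shear 0 c f) = aeval (![Polynomial.C c, Polynomial.X] : Fin 2 → Polynomial ℝ) f := by
  have h : (aeval (![0, Polynomial.X] : Fin 2 → Polynomial ℝ)).comp (shear 0 c) =
      aeval (![Polynomial.C c, Polynomial.X] : Fin 2 → Polynomial ℝ) := by
    apply MvPolynomial.algHom_ext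
    intro i
    rw [AlgHom.comp_apply, shear, sub, aeval_X, aeval_X]
    fin_cases i <;> simp [← MvPolynomial.algebraMap_eq, Polynomial.algebraMap_eq]
  exact congrArg (fun g : R →ₐ[ℝ] Polynomial ℝ => g f) h

private theorem ln_shear_sum (c : ℝ) (f : R) : ln (shear 0 c f) =
    ∑ s ∈ f.support, Polynomial.C (coeff s f * c ^ s 0) * Polynomial.X ^ s 1 := by
  rw [ln_shear, aeval_def, eval₂_eq']
  refine Finset.sum_congr rfl fun s _ => ?_
  rw [Fin.prod_univ_two]
  simp only [Matrix.cons_val_zero, Matrix.cons_val_one, Polynomial.algebraMap_eq, map_mul, map_pow]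
  ring

theorem generic {f h : R} {a : ℕ} (hf : f.totalDegree ≤ a)
    (hm : coeff (Finsupp.single 1 a) f ≠ 0) (hc : IsRelPrime f h) (S : Finset (Fin 2 → ℝ)) :
    ∃ c : ℝ, (∀ s ∈ S, s 0 ≠ c) ∧ (ln (shear 0 c f)).natDegree = a ∧
      IsCoprime (ln (shear 0 c f)) (ln (shear 0 c h)) := by
  classical
  obtain ⟨r, hr, hmem⟩ := exists_elim hf hm hc
  obtain ⟨c, hc'⟩ := Infinite.exists_notMem_finset (r.roots.toFinset ∪ S.image fun s => s 0)
  rw [Finset.notMem_union, Multiset.mem_toFinset, Polynomial.mem_roots hr,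
    Polynomial.IsRoot.def] at hc'
  have hdeg : ∀ s ∈ f.support, s 0 + s 1 ≤ a := by
    intro s hs
    have h1 := (le_totalDegree hs).trans hf
    rwa [Finsupp.sum_fintype _ _ (fun _ => rfl), Fin.sum_univ_two] at h1
  have hco : (ln (shear 0 c f)).coeff a = coeff (Finsupp.single 1 a) f := by
    rw [ln_shear_sum, Polynomial.finsetSum_coeff]
    simp only [Polynomial.coeff_C_mul, Polynomial.coeff_X_pow]
    rw [Finset.sum_eq_single (Finsupp.single 1 a)]
    · simp
    · intro s hs hne
      rw [if_neg, mul_zero]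
      intro h1
      apply hne
      have h2 := hdeg s hs
      ext i
      fin_cases i
      · simp; omega
      · simp; omega
    · intro hns
      rw [notMem_support_iff.mp hns]
      simp
  refine ⟨c, fun s hs h => hc'.2 (Finset.mem_image.2 ⟨s, hs, h⟩), ?_, ?_⟩
  · apply Polynomial.natDegree_eq_of_le_of_coeff_ne_zero
    · rw [ln_shear_sum]
      apply Polynomial.natDegree_sum_le_of_forall_le
      intro s hs
      refine (Polynomial.natDegree_C_mul_X_pow_le _ _).trans ?_
      have := hdeg s hs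
      omega
    · rw [hco]
      exact hm
  · obtain ⟨u, v, huv⟩ := Ideal.mem_span_pair.1 hmem
    have h1 := congrArg (aeval (![Polynomial.C c, Polynomial.X] : Fin 2 → Polynomial ℝ)) huv
    have h2 : aeval (![Polynomial.C c, Polynomial.X] : Fin 2 → Polynomial ℝ)
        (Polynomial.aeval (X 0 : R) r) = Polynomial.C (r.eval c) := by
      rw [← Polynomial.aeval_algHom_apply, aeval_X]
      simp [Polynomial.aeval_def]
    rw [map_add, map_mul, map_mul, h2, ← ln_shear, ← ln_shear, ← ln_shear, ← ln_shear] at h1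
    have h3 : Polynomial.C (r.eval c)⁻¹ * Polynomial.C (r.eval c) = 1 := by
      rw [← Polynomial.C_mul, inv_mul_cancel₀ hc'.1, Polynomial.C_1]
    refine ⟨Polynomial.C (r.eval c)⁻¹ * ln (shear 0 c u),
      Polynomial.C (r.eval c)⁻¹ * ln (shear 0 c v), ?_⟩
    rw [← h3, ← h1]
    ring

end Pool.Agent.LogCentres
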