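import Pool.Agent.LogCentres.Defs3

/-!
# Homogenisation
-/

namespace Pool.Agent.LogCentres

open MvPolynomial Pool.Agent.PlanarCentres

private theorem Homk_monmon {k l : ℕ} (s t : Fin 2 →₀ ℕ) (c d : ℝ) (hs : s 0 + s 1 ≤ k)
    (ht : t 0 + t 1 ≤ l) :
    homk (k + l) ((monomial s c : R) * monomial t d) =
      homk k (monomial s c) * homk l (monomial t d) := by
  obtain ⟨i, rfl⟩ := Nat.exists_eq_add_of_le hs
  obtain ⟨j, rfl⟩ := Nat.exists_eq_add_of_le ht
  rw [monomial_mul, homk_mon, homk_mon, homk_mon, Finsupp.add_apply, Finsupp.add_apply,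
    show s 0 + s 1 + i + (t 0 + t 1 + j) - (s 0 + t 0) - (s 1 + t 1) = i + j by omega,
    show s 0 + s 1 + i - s 0 - s 1 = i by omega, show t 0 + t 1 + j - t 0 - t 1 = j by omega,
    C_mul, pow_add, pow_add]
  ring

theorem homk_mul {k l : ℕ} {f g : R} (hf : f.totalDegree ≤ k) (hg : g.totalDegree ≤ l) :
    homk (k + l) (f * g) = homk k f * homk l g := by
  refine ind_deg (P := fun f => homk (k + l) (f * g) = homk k f * homk l g)
    (by simp) (fun f f' h h' => by rw [add_mul, map_add, map_add, h, h', add_mul]) ?_ f hf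
  intro s c hs
  refine ind_deg (P := fun g => homk (k + l) ((monomial s c : R) * g) =
      homk k (monomial s c) * homk l g)
    (by simp) (fun g g' h h' => by rw [mul_add, map_add, map_add, h, h', mul_add]) ?_ g hg
  intro t d ht
  exact Homk_monmon s t c d hs ht

private theorem Homk_one : homk 0 (1 : R) = 1 := by
  have h : (1 : R) = monomial 0 1 := rfl
  rw [h, homk_mon]
  simp [← h]

theorem homk_prod {ι : Type} (s : Finset ι) (F : ι → R) (dd : ι → ℕ)
    (h : ∀ i ∈ s, (F i).totalDegree ≤ dd i) :
    homk (∑ i ∈ s, dd i) (∏ i ∈ s, F i) = ∏ i ∈ s, homk (dd i) (F i) := by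
  classical
  induction s using Finset.induction with
  | empty => simp [Homk_one]
  | insert a s ha ih =>
    have h1 : (∏ i ∈ s, F i).totalDegree ≤ ∑ i ∈ s, dd i :=
      (totalDegree_finsetProd s F).trans
        (Finset.sum_le_sum fun i hi => h i (Finset.mem_insert_of_mem hi))
    rw [Finset.sum_insert ha, Finset.prod_insert ha, Finset.prod_insert ha,
      homk_mul (h a (Finset.mem_insert_self a s)) h1,
      ih fun i hi => h i (Finset.mem_insert_of_mem hi)]

private theorem Homk_X0 : homk 1 (X 0 : R) = 1 := by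
  have h : (X 0 : R) = monomial (Finsupp.single 0 1) 1 := rfl
  rw [h, homk_mon]
  simp

theorem homk_X0_mul {k : ℕ} {f : R} (hf : f.totalDegree ≤ k) :
    homk (k + 1) (X 0 * f) = homk k f := by
  rw [mul_comm, homk_mul hf (totalDegree_X (R := ℝ) (0 : Fin 2)).le, Homk_X0, mul_one]

private theorem Homk_topP_zero (a : ℕ) : topP a 0 = 0 := by simp [topP]

private theorem Homk_topP_add (a : ℕ) (f g : R) : topP a (f + g) = topP a f + topP a g := by
  simp only [topP, coeff_add, map_add, Finset.sum_add_distrib]

private theorem Homk_ln_mon (s : Fin 2 →₀ ℕ) (c : ℝ) :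
    ln (monomial s c) = Polynomial.C c * (0 ^ s 0 * Polynomial.X ^ s 1) := by
  rw [mon_eq, ln]
  simp

theorem topP_homk {a : ℕ} {f : R} (hf : f.totalDegree ≤ a) : topP a (homk a f) = ln f := by
  classical
  refine ind_deg (P := fun f => topP a (homk a f) = ln f)
    (by rw [map_zero, Homk_topP_zero]; simp [ln])
    (fun f g h h' => by
      rw [map_add, Homk_topP_add, h, h']
      simp [ln]) ?_ f hf
  intro s c hs
  have h1 : homk a (monomial s c : R) =
      monomial (Finsupp.single 0 (a - s 0 - s 1) + Finsupp.single 1 (s 1)) c := by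
    rw [homk_mon, mon_eq]
    simp
  rw [h1, Homk_ln_mon, topP]
  simp only [coeff_monomial]
  have h2 : ∀ k ∈ Finset.range (a + 1), (if Finsupp.single (0 : Fin 2) (a - s 0 - s 1) +
      Finsupp.single 1 (s 1) = Finsupp.single 0 (a - k) + Finsupp.single 1 k then c else 0) =
      if k = s 1 then (if s 0 = 0 then c else 0) else 0 := by
    intro k hk
    have hk' : k ≤ a := Nat.lt_succ_iff.1 (Finset.mem_range.1 hk)
    by_cases hks : k = s 1
    · rw [if_pos hks]
      by_cases h0 : s 0 = 0
      · rw [if_pos h0, if_pos]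
        rw [h0, hks, Nat.sub_zero]
      · rw [if_neg h0, if_neg]
        intro h3
        have h4 := DFunLike.congr_fun h3 0
        simp only [Finsupp.add_apply, Finsupp.single_eq_same] at h4
        rw [Finsupp.single_eq_of_ne (by decide), Finsupp.single_eq_of_ne (by decide)] at h4
        omega
    · rw [if_neg hks, if_neg]
      intro h3
      have h4 := DFunLike.congr_fun h3 1
      simp only [Finsupp.add_apply, Finsupp.single_eq_same] at h4
      rw [Finsupp.single_eq_of_ne (by decide), Finsupp.single_eq_of_ne (by decide)] at h4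
      omega
  rw [Finset.sum_congr rfl fun k hk => by rw [h2 k hk]]
  have h5 : ∀ k ∈ Finset.range (a + 1), Polynomial.monomial k
      (if k = s 1 then (if s 0 = 0 then c else 0) else 0) =
      if k = s 1 then Polynomial.monomial (s 1) (if s 0 = 0 then c else 0) else 0 := by
    intro k _
    by_cases hks : k = s 1
    · rw [if_pos hks, if_pos hks, hks]
    · rw [if_neg hks, if_neg hks, map_zero]
  rw [Finset.sum_congr rfl h5, Finset.sum_ite_eq' (Finset.range (a + 1)) (s 1),
    if_pos (Finset.mem_range.2 (by omega))]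
  by_cases h0 : s 0 = 0
  · rw [if_pos h0, h0, pow_zero, one_mul, Polynomial.C_mul_X_pow_eq_monomial]
  · rw [if_neg h0, zero_pow h0, zero_mul, mul_zero, map_zero]

end Pool.Agent.LogCentres
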