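import Pool.Agent.LogCentres.Defs2

/-!
# The common zeros of an irreducible polynomial and of a nonzero partial derivative are isolated
-/

namespace Pool.Agent.LogCentres

open MvPolynomial Topology

/-- `R` as polynomials in the `k`-th variable with coefficients in polynomials in the other one -/
private noncomputable def fw (k : Fin 2) : R →+* Polynomial (Polynomial ℝ) :=
  MvPolynomial.eval₂Hom (Polynomial.C.comp Polynomial.C)
    (fun i => if i = k then Polynomial.X else Polynomial.C Polynomial.X)

private noncomputable def bw (k : Fin 2) : Polynomial (Polynomial ℝ) →+* R :=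
  Polynomial.eval₂RingHom (Polynomial.aeval (X (1 - k) : R) : Polynomial ℝ →ₐ[ℝ] R).toRingHom
    (X k)

private theorem fw_C (k : Fin 2) (c : ℝ) : fw k (C c) = Polynomial.C (Polynomial.C c) := by
  simp [fw]

private theorem fw_X (k i : Fin 2) :
    fw k (X i) = if i = k then Polynomial.X else Polynomial.C Polynomial.X := by
  simp [fw]

private theorem bw_fw (k : Fin 2) (p : R) : bw k (fw k p) = p := by
  have : (bw k).comp (fw k) = RingHom.id R := by
    refine MvPolynomial.ringHom_ext (fun c => ?_) fun i => ?_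
    · simp [bw, fw]
    · fin_cases i <;> fin_cases k <;> simp [bw, fw]
  exact congrArg (fun r : R →+* R => r p) this

private theorem fw_bw (k : Fin 2) (p : Polynomial (Polynomial ℝ)) : fw k (bw k p) = p := by
  have : (fw k).comp (bw k) = RingHom.id _ := by
    refine Polynomial.ringHom_ext' (Polynomial.ringHom_ext' ?_ ?_) ?_
    · ext c
      simp [bw, fw]
    · fin_cases k <;> simp [bw, fw]
    · simp [bw, fw]
  exact congrArg (fun r : Polynomial (Polynomial ℝ) →+* Polynomial (Polynomial ℝ) => r p) this

private noncomputable def fwE (k : Fin 2) : R ≃+* Polynomial (Polynomial ℝ) :=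
  { fw k with
    toFun := fw k
    invFun := bw k
    left_inv := bw_fw k
    right_inv := fw_bw k }

private theorem fw_pderiv (k : Fin 2) (f : R) :
    fw k (pderiv k f) = Polynomial.derivative (fw k f) := by
  induction f using MvPolynomial.induction_on with
  | C a => rw [pderiv_C, map_zero, fw_C, Polynomial.derivative_C]
  | add p q hp hq => rw [map_add, map_add, map_add, map_add, hp, hq]
  | mul_X p i hp =>
    rw [Derivation.leibniz, map_add, smul_eq_mul, smul_eq_mul, map_mul, map_mul, map_mul, hp,
      Polynomial.derivative_mul, fw_X, pderiv_X]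
    by_cases h : i = k
    · subst h
      simp
      ring
    · simp [h]
      ring

private theorem fw_eval (k : Fin 2) (q : Fin 2 → ℝ) (f : R) :
    eval q f = ((fw k f).map (Polynomial.evalRingHom (q (1 - k)))).eval (q k) := by
  have : (eval q : R →+* ℝ) = (Polynomial.evalRingHom (q k)).comp
      ((Polynomial.mapRingHom (Polynomial.evalRingHom (q (1 - k)))).comp (fw k)) := by
    refine MvPolynomial.ringHom_ext (fun c => ?_) fun i => ?_
    · simp [fw]
    · fin_cases i <;> fin_cases k <;> simp [fw]
  exact congrArg (fun r : R →+* ℝ => r f) this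

private theorem coprime_aux {F H : Polynomial (Polynomial ℝ)} (hF : Irreducible F)
    (hH : Polynomial.derivative F = H) (h0 : H ≠ 0) :
    ∃ r : Polynomial ℝ, r ≠ 0 ∧ Polynomial.C r ∈ Ideal.span {F, H} := by
  let K := FractionRing (Polynomial ℝ)
  have hinj : Function.Injective (algebraMap (Polynomial ℝ) K) := IsFractionRing.injective _ _
  have hdeg : F.natDegree ≠ 0 := by
    intro h
    apply h0
    rw [← hH, Polynomial.eq_C_of_natDegree_eq_zero h, Polynomial.derivative_C]
  have hprim : F.IsPrimitive := hF.isPrimitive hdeg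
  have hirr : Irreducible (F.map (algebraMap (Polynomial ℝ) K)) :=
    (hprim.irreducible_iff_irreducible_map_fraction_map (K := K)).1 hF
  have h1 : IsCoprime (F.map (algebraMap (Polynomial ℝ) K)) (H.map (algebraMap _ K)) := by
    refine (hirr.coprime_iff_not_dvd).2 fun hd => ?_
    have h3 : H.map (algebraMap (Polynomial ℝ) K) ≠ 0 := (Polynomial.map_ne_zero_iff hinj).2 h0
    have h4 := Polynomial.natDegree_le_of_dvd hd h3
    rw [Polynomial.natDegree_map_eq_of_injective hinj,
      Polynomial.natDegree_map_eq_of_injective hinj, ← hH] at h4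
    have h5 := Polynomial.natDegree_derivative_lt hdeg
    omega
  obtain ⟨u, v, huv⟩ := h1
  obtain ⟨b, hb, hbu⟩ := IsLocalization.integerNormalization_spec (nonZeroDivisors (Polynomial ℝ)) u
  obtain ⟨c, hc', hcv⟩ := IsLocalization.integerNormalization_spec (nonZeroDivisors (Polynomial ℝ)) v
  set U := IsLocalization.integerNormalization (nonZeroDivisors (Polynomial ℝ)) u
  set V := IsLocalization.integerNormalization (nonZeroDivisors (Polynomial ℝ)) v
  refine ⟨b * c, mul_ne_zero (nonZeroDivisors.ne_zero hb) (nonZeroDivisors.ne_zero hc'), ?_⟩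
  rw [Ideal.mem_span_pair]
  refine ⟨Polynomial.C c * U, Polynomial.C b * V, ?_⟩
  apply Polynomial.map_injective _ hinj
  rw [Polynomial.map_add, Polynomial.map_mul, Polynomial.map_mul, Polynomial.map_mul,
    Polynomial.map_mul, hbu, hcv, Polynomial.map_C, Polynomial.map_C, Polynomial.map_C, map_mul,
    Polynomial.C_mul]
  have e1 : b • u = Polynomial.C (algebraMap (Polynomial ℝ) K b) * u := by
    rw [← Polynomial.smul_eq_C_mul, algebraMap_smul]
  have e2 : c • v = Polynomial.C (algebraMap (Polynomial ℝ) K c) * v := by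
    rw [← Polynomial.smul_eq_C_mul, algebraMap_smul]
  rw [e1, e2]
  linear_combination Polynomial.C (algebraMap (Polynomial ℝ) K b) *
    Polynomial.C (algebraMap (Polynomial ℝ) K c) * huv

private theorem ev_ne {g : Polynomial ℝ} (hg : g ≠ 0) (a : ℝ) :
    ∀ᶠ t in 𝓝 a, t ≠ a → g.eval t ≠ 0 := by
  have hfin : (({t | g.IsRoot t} : Set ℝ) \ {a}).Finite :=
    (Polynomial.finite_setOfPred_isRoot hg).subset Set.sdiff_subset
  have h1 : (({t | g.IsRoot t} : Set ℝ) \ {a})ᶜ ∈ 𝓝 a :=
    hfin.isClosed.isOpen_compl.mem_nhds fun h => h.2 rfl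
  filter_upwards [h1] with t ht hta h
  exact ht ⟨h, hta⟩

theorem irr_isolated {u : R} (hu : Irreducible u) (k : Fin 2) (hk : pderiv k u ≠ 0)
    (p : Fin 2 → ℝ) : ∀ᶠ q in 𝓝[≠] p, ¬ (eval q u = 0 ∧ eval q (pderiv k u) = 0) := by
  have hF : Irreducible (fw k u) :=
    (MulEquiv.irreducible_iff (fwE k)).2 hu
  have hH : fw k (pderiv k u) ≠ 0 := by
    intro h
    apply hk
    rw [← bw_fw k (pderiv k u), h, map_zero]
  obtain ⟨r, hr, hr2⟩ := coprime_aux hF (fw_pderiv k u).symm hH
  obtain ⟨A, B, hAB⟩ := Ideal.mem_span_pair.1 hr2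
  have hdeg : (fw k u).natDegree ≠ 0 := by
    intro h
    apply hH
    rw [fw_pderiv, Polynomial.eq_C_of_natDegree_eq_zero h, Polynomial.derivative_C]
  have hprim : (fw k u).IsPrimitive := hF.isPrimitive hdeg
  have hg : (fw k u).map (Polynomial.evalRingHom (p (1 - k))) ≠ 0 := by
    intro h
    have h1 : Polynomial.C (Polynomial.X - Polynomial.C (p (1 - k))) ∣ fw k u := by
      rw [Polynomial.C_dvd_iff_dvd_coeff]
      intro n
      rw [Polynomial.dvd_iff_isRoot]
      have h2 := congrArg (fun g : Polynomial ℝ => g.coeff n) h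
      simpa using h2
    exact Polynomial.not_isUnit_X_sub_C _ (hprim _ h1)
  have e1 : ∀ᶠ q in 𝓝 p, q (1 - k) ≠ p (1 - k) → r.eval (q (1 - k)) ≠ 0 :=
    ((continuous_apply (1 - k)).tendsto p).eventually (ev_ne hr (p (1 - k)))
  have e2 : ∀ᶠ q in 𝓝 p, q k ≠ p k →
      ((fw k u).map (Polynomial.evalRingHom (p (1 - k)))).eval (q k) ≠ 0 :=
    ((continuous_apply k).tendsto p).eventually (ev_ne hg (p k))
  rw [eventually_nhdsWithin_iff]
  filter_upwards [e1, e2] with q h1 h2 hqp hz
  by_cases h : q (1 - k) = p (1 - k)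
  · refine h2 (fun h3 => hqp ?_) ?_
    · rw [Set.mem_singleton_iff]
      funext i
      fin_cases i <;> fin_cases k
      · exact h3
      · exact h
      · exact h
      · exact h3
    · rw [← h, ← fw_eval]
      exact hz.1
  · refine h1 h ?_
    have h3 := congrArg (fun G : Polynomial (Polynomial ℝ) =>
      (G.map (Polynomial.evalRingHom (q (1 - k)))).eval (q k)) hAB
    simp only [Polynomial.map_add, Polynomial.map_mul, Polynomial.eval_add,
      Polynomial.eval_mul, ← fw_eval, hz.1, hz.2, mul_zero, add_zero, Polynomial.map_C,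
      Polynomial.eval_C] at h3
    exact h3.symm

end Pool.Agent.LogCentres
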