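import Pool.Agent.LogCentres.CsC
import Pool.Agent.LogCentres.CsB
import Pool.Agent.LogCentres.Count
import Pool.Agent.LogCentres.ReCen
import Pool.Agent.PlanarCentres.Cofactor

/-!
# Zeros with nonnegative Jacobian determinant on curves of low degree
-/

namespace Pool.Agent.LogCentres

open MvPolynomial Pool.Agent.PlanarCentres

theorem app_low {k : ℕ} {t : T} (ht : t ∈ Fil (k + k)) {φ : R →ₗ[ℝ] ℝ}
    (h : ∀ q : R, q.totalDegree ≤ k → φ q = 0) : (app φ t).totalDegree ≤ k - 1 := by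
  induction ht using Submodule.span_induction with
  | mem s hs =>
    obtain ⟨a, b, hab, rfl⟩ := hs
    rw [app_ix_iu]
    by_cases h1 : b.totalDegree ≤ k
    · rw [h b h1, zero_smul, totalDegree_zero]
      omega
    · exact (totalDegree_smul_le _ _).trans (by omega)
  | zero =>
    rw [map_zero, totalDegree_zero]
    omega
  | add x y _ _ hx hy =>
    rw [map_add]
    exact (totalDegree_add _ _).trans (max_le hx hy)
  | smul c x _ hx =>
    rw [map_smul]
    exact (totalDegree_smul_le _ _).trans hx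

theorem app_low0 {t : T} (ht : t ∈ Fil (0 + 0)) {φ : R →ₗ[ℝ] ℝ}
    (h : ∀ q : R, q.totalDegree ≤ 0 → φ q = 0) : app φ t = 0 := by
  induction ht using Submodule.span_induction with
  | mem s hs =>
    obtain ⟨a, b, hab, rfl⟩ := hs
    rw [app_ix_iu, h b (by omega), zero_smul]
  | zero => rw [map_zero]
  | add x y _ _ hx hy => rw [map_add, hx, hy, add_zero]
  | smul c x _ hx => rw [map_smul, hx, smul_zero]

/-- an element of largest degree in the variable `i` -/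
theorem exists_top {k : ℕ} (A : Submodule ℝ R) (hA : ∀ f ∈ A, f.totalDegree ≤ k) (hne : A ≠ ⊥)
    (i : Fin 2) : ∃ f ∈ A, f ≠ 0 ∧ ∀ g ∈ A, degreeOf i g ≤ degreeOf i f := by
  classical
  obtain ⟨f0, hf0, hf0n⟩ := (Submodule.ne_bot_iff A).1 hne
  have h1 : {d | ∃ f ∈ A, f ≠ 0 ∧ degreeOf i f = d}.Nonempty := ⟨_, f0, hf0, hf0n, rfl⟩
  have h2 : BddAbove {d | ∃ f ∈ A, f ≠ 0 ∧ degreeOf i f = d} := ⟨k, by
    rintro d ⟨f, hf, -, rfl⟩
    exact (degreeOf_le_totalDegree _ _).trans (hA f hf)⟩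
  obtain ⟨f, hf, hfn, hfd⟩ := Nat.sSup_mem h1 h2
  refine ⟨f, hf, hfn, fun g hg => ?_⟩
  by_cases hg0 : g = 0
  · rw [hg0, degreeOf_zero]
    omega
  · rw [hfd]
    exact le_csSup h2 ⟨g, hg, hg0, rfl⟩

/-- a subspace grows by at least two dimensions under multiplication by the variables -/
theorem grow_two {k : ℕ} (A V : Submodule ℝ R) [Module.Finite ℝ V]
    (hA : ∀ f ∈ A, f.totalDegree ≤ k) (hne : A ≠ ⊥) (hAV : A ≤ V)
    (hX : ∀ f ∈ A, ∀ i : Fin 2, f * X i ∈ V) :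
    Module.finrank ℝ A + 2 ≤ Module.finrank ℝ V := by
  classical
  obtain ⟨f, hf, hf0, hfm⟩ := exists_top A hA hne 0
  obtain ⟨g, hg, hg0, hgm⟩ := exists_top A hA hne 1
  obtain ⟨B, hB⟩ : ∃ B, B = A ⊔ A.map (LinearMap.mulRight ℝ (X 0 : R)) := ⟨_, rfl⟩
  have hAB : A ≤ B := by
    rw [hB]
    exact le_sup_left
  have hBV : B ≤ V := by
    rw [hB]
    refine sup_le hAV ?_
    rintro _ ⟨a, ha, rfl⟩
    exact hX a ha 0
  have : Module.Finite ℝ B := Submodule.finiteDimensional_of_le hBV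
  have hfB : f * X 0 ∈ B := by
    rw [hB]
    exact Submodule.mem_sup_right ⟨f, hf, rfl⟩
  have hfA : f * X 0 ∉ A := by
    intro h
    have h1 := hfm _ h
    rw [(degreeOf_mul_X_eq_degreeOf_add_one_iff 0 f).2 hf0] at h1
    omega
  have hgB : g * X 1 ∉ B := by
    intro h
    rw [hB] at h
    obtain ⟨a, ha, b, hb, hab⟩ := Submodule.mem_sup.1 h
    obtain ⟨c, hc, rfl⟩ := hb
    have h1 : degreeOf 1 (g * X 1) = degreeOf 1 g + 1 :=
      (degreeOf_mul_X_eq_degreeOf_add_one_iff 1 g).2 hg0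
    have h2 : degreeOf 1 (c * X 0) = degreeOf 1 c := degreeOf_mul_X_of_ne c (by decide)
    have h3 := degreeOf_add_le 1 a (c * X 0)
    have h4 := hgm a ha
    have h5 := hgm c hc
    have h6 : a + c * X 0 = g * X 1 := hab
    rw [h6, h1, h2] at h3
    have h7 := max_le h4 h5
    omega
  have e1 : A < B := lt_of_le_of_ne hAB (fun h => hfA (h ▸ hfB))
  have e2 : B < V := lt_of_le_of_ne hBV (fun h => hgB (h ▸ hX g hg 1))
  have e3 := Submodule.finrank_lt_finrank_of_lt e1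
  have e4 := Submodule.finrank_lt_finrank_of_lt e2
  omega

theorem count_main {P Q : R} {k j : ℕ} (hj : j ≤ 2) (hrel : IsRelPrime P Q)
    (hP : P.totalDegree ≤ k + 1) (hQ : Q.totalDegree ≤ k + 1) (S : Finset (Fin 2 → ℝ))
    (hS : ∀ p ∈ S, eval p P = 0 ∧ eval p Q = 0 ∧ 0 ≤ eval p (jacP P Q))
    (hV : j ≤ Module.finrank ℝ (LinearMap.ker (evL k S))) :
    S.card + j ≤ (k + 1) * (k + 2) / 2 := by
  classical
  have hr1 := LinearMap.finrank_range_add_finrank_ker (evL k S)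
  rw [finrank_deg] at hr1
  have hr2 := LinearMap.finrank_range_add_finrank_ker (evL k S).dualMap
  rw [LinearMap.finrank_range_dualMap_eq_finrank_range, Subspace.dual_finrank_eq,
    Module.finrank_fintype_fun_eq_card, Fintype.card_coe] at hr2
  by_cases hk0 : Module.finrank ℝ (LinearMap.ker (evL k S).dualMap) = 0
  · omega
  suffices h : Module.finrank ℝ (LinearMap.ker (evL k S).dualMap) + 2 ≤
      Module.finrank ℝ (LinearMap.ker (evL k S)) by omega
  obtain ⟨A, B, hAB⟩ := exists_dec hP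
  obtain ⟨C', D, hCD⟩ := exists_dec hQ
  have h1 : Ker P A B := hAB.eq
  have h2 : Ker Q C' D := hCD.eq
  obtain ⟨t, htd⟩ : ∃ t, t = A * D - B * C' := ⟨_, rfl⟩
  have ht : t ∈ Fil (k + k) := by
    rw [htd]
    exact sub_mem (Fil_mul hAB.memA hCD.memB) (Fil_mul hAB.memB hCD.memA)
  let E : R →ₗ[ℝ] ({x // x ∈ S} → ℝ) := LinearMap.pi fun q => ev q.1
  let Λ : Module.Dual ℝ ({x // x ∈ S} → ℝ) →ₗ[ℝ] R :=
    { toFun := fun ξ => app (ξ ∘ₗ E) t
      map_add' := fun a b => by rw [LinearMap.add_comp, app_add]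
      map_smul' := fun c a => by rw [LinearMap.smul_comp, app_smul]; rfl }
  have hdec : ∀ ξ : Module.Dual ℝ ({x // x ∈ S} → ℝ),
      ξ ∘ₗ E = ∑ q, ξ (Pi.single q 1) • ev q.1 := by
    intro ξ
    apply LinearMap.ext
    intro f
    rw [LinearMap.comp_apply, LinearMap.pi_apply_eq_sum_univ ξ (E f), LinearMap.sum_apply]
    apply Finset.sum_congr rfl
    intro p _
    rw [smul_eq_mul, LinearMap.smul_apply, smul_eq_mul, mul_comm]
    congr 2
    funext q
    simp [Pi.single_apply, eq_comm]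
  have hkill : ∀ ξ ∈ LinearMap.ker (evL k S).dualMap, ∀ q : R, q.totalDegree ≤ k →
      (ξ ∘ₗ E) q = 0 := by
    intro ξ hξ q hq
    have h3 := LinearMap.congr_fun (LinearMap.mem_ker.1 hξ)
      ⟨q, (mem_restrictTotalDegree _ _ _).mpr hq⟩
    rw [LinearMap.dualMap_apply, LinearMap.zero_apply] at h3
    exact h3
  have hgood : ∀ (q : {x // x ∈ S}) (ψ : R →ₗ[ℝ] ℝ), Good P Q q.1 ψ →
      ∀ θ : {x // x ∈ S} → ℝ, pair ψ (∑ p, θ p • ev p.1) t = θ q * pair ψ (ev q.1) t := by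
    intro q ψ hψ θ
    rw [pair_sum_r, Finset.sum_eq_single q]
    · intro p _ hpq
      rw [htd, good_orth h1 h2 (fun h => hpq (Subtype.ext h).symm) hψ
        (good_ev (hS p.1 p.2).1 (hS p.1 p.2).2.1), mul_zero]
    · intro h
      exact absurd (Finset.mem_univ q) h
  have hself : ∀ q : {x // x ∈ S}, pair (ev q.1) (ev q.1) t = eval q.1 (jacP P Q) := by
    intro q
    rw [htd, pair_ev_self h1 h2]
  have hzero : ∀ ξ ∈ LinearMap.ker (evL k S).dualMap, ∀ q ∈ S, eval q (Λ ξ) = 0 := by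
    intro ξ hξ q hq
    obtain ⟨θ, hθ⟩ : ∃ θ : {x // x ∈ S} → ℝ, θ = fun q => ξ (Pi.single q 1) := ⟨_, rfl⟩
    have hw : ξ ∘ₗ E = ∑ q, θ q • ev q.1 := by rw [hdec, hθ]
    have h3 : pair (ξ ∘ₗ E) (ξ ∘ₗ E) t = 0 := pair_low ht fun r hr => hkill ξ hξ r (by omega)
    have h4 : pair (ξ ∘ₗ E) (ξ ∘ₗ E) t = ∑ p, θ p * (θ p * eval p.1 (jacP P Q)) := by
      rw [hw, pair_sum_l]
      refine Finset.sum_congr rfl fun p _ => ?_
      rw [hgood p _ (good_ev (hS p.1 p.2).1 (hS p.1 p.2).2.1) θ, hself]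
    rw [h3] at h4
    have h5 := (Finset.sum_eq_zero_iff_of_nonneg (fun p _ => by
      rw [← mul_assoc]
      exact mul_nonneg (mul_self_nonneg _) (hS p.1 p.2).2.2)).1 h4.symm ⟨q, hq⟩
      (Finset.mem_univ _)
    have h6 : eval q (Λ ξ) = θ ⟨q, hq⟩ * eval q (jacP P Q) := by
      have h7 : eval q (Λ ξ) = pair (ev q) (ξ ∘ₗ E) t := rfl
      rw [h7, hw, hgood ⟨q, hq⟩ _ (good_ev (hS q hq).1 (hS q hq).2.1) θ, hself]
    rw [h6]
    rcases mul_eq_zero.1 h5 with h7 | h7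
    · rw [h7, zero_mul]
    · exact h7
  have hker0 : ∀ ξ ∈ LinearMap.ker (evL k S).dualMap, Λ ξ = 0 → ξ = 0 := by
    intro ξ hξ h0
    obtain ⟨θ, hθ⟩ : ∃ θ : {x // x ∈ S} → ℝ, θ = fun q => ξ (Pi.single q 1) := ⟨_, rfl⟩
    have hw : ξ ∘ₗ E = ∑ q, θ q • ev q.1 := by rw [hdec, hθ]
    have h3 : app (ξ ∘ₗ E) t = 0 := h0
    have h4 : ∀ q, ξ (Pi.single q 1) = 0 := by
      intro q
      obtain ⟨ψ, L, hψI, hψL, hψn, -⟩ := nondeg_fn hrel (hS q.1 q.2).1 (hS q.1 q.2).2.1 h1 h2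
      have h5 : pair ψ (ξ ∘ₗ E) t = 0 := by
        change ψ (app (ξ ∘ₗ E) t) = 0
        rw [h3, map_zero]
      rw [hw, hgood q ψ ⟨hψI, L, hψL⟩ θ, htd] at h5
      have h6 := (mul_eq_zero.1 h5).resolve_right hψn
      rw [hθ] at h6
      exact h6
    apply LinearMap.ext
    intro g
    rw [LinearMap.pi_apply_eq_sum_univ ξ g]
    apply Finset.sum_eq_zero
    intro q _
    have h5 : (fun j => if q = j then (1 : ℝ) else 0) = Pi.single q 1 := by
      funext j
      simp [Pi.single_apply, eq_comm]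
    rw [h5, h4 q, smul_zero]
  have hinj : Function.Injective (Λ ∘ₗ (LinearMap.ker (evL k S).dualMap).subtype) := by
    rintro ⟨a, ha⟩ ⟨b, hb⟩ hab
    apply Subtype.ext
    have h3 : Λ (a - b) = 0 := by
      rw [map_sub, sub_eq_zero]
      exact hab
    exact sub_eq_zero.1 (hker0 (a - b) (sub_mem ha hb) h3)
  rcases Nat.eq_zero_or_pos k with rfl | hk
  · exfalso
    apply hk0
    rw [Submodule.finrank_eq_zero, Submodule.eq_bot_iff]
    exact fun ξ hξ => hker0 ξ hξ (app_low0 ht (hkill ξ hξ))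
  rw [← LinearMap.finrank_range_of_inj hinj,
    ← Submodule.finrank_map_subtype_eq (restrictTotalDegree (Fin 2) ℝ k)
      (LinearMap.ker (evL k S))]
  have hmem : ∀ f : R, f.totalDegree ≤ k → (∀ p ∈ S, eval p f = 0) →
      f ∈ (LinearMap.ker (evL k S)).map (restrictTotalDegree (Fin 2) ℝ k).subtype := by
    intro f hf hf0
    refine ⟨⟨f, (mem_restrictTotalDegree _ _ _).mpr hf⟩, ?_, rfl⟩
    rw [SetLike.mem_coe, LinearMap.mem_ker]
    funext p
    exact hf0 p.1 p.2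
  have hdeg : ∀ f ∈ LinearMap.range (Λ ∘ₗ (LinearMap.ker (evL k S).dualMap).subtype),
      f.totalDegree ≤ k - 1 := by
    rintro _ ⟨⟨ξ, hξ⟩, rfl⟩
    exact app_low ht (hkill ξ hξ)
  have hvan : ∀ f ∈ LinearMap.range (Λ ∘ₗ (LinearMap.ker (evL k S).dualMap).subtype),
      ∀ p ∈ S, eval p f = 0 := by
    rintro _ ⟨⟨ξ, hξ⟩, rfl⟩ p hp
    exact hzero ξ hξ p hp
  apply grow_two (k := k - 1) _ _ hdeg
  · intro hb
    apply hk0
    rw [← LinearMap.finrank_range_of_inj hinj, hb, finrank_bot]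
  · intro f hf
    exact hmem f ((hdeg f hf).trans (Nat.sub_le _ _)) (hvan f hf)
  · intro f hf i
    refine hmem _ ?_ ?_
    · refine (totalDegree_mul _ _).trans ?_
      rw [totalDegree_X]
      have := hdeg f hf
      omega
    · intro p hp
      rw [map_mul, hvan f hf p hp, zero_mul]

/-- at most two independent polynomials of degree at most `k` which vanish on `S` -/
theorem card_two {P Q : R} {k j : ℕ} (hj : j ≤ 2) (hrel : IsRelPrime P Q)
    (hP : P.totalDegree ≤ k + 1) (hQ : Q.totalDegree ≤ k + 1) (S : Finset (Fin 2 → ℝ))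
    (hS : ∀ p ∈ S, eval p P = 0 ∧ eval p Q = 0 ∧ 0 ≤ eval p (jacP P Q))
    (K : Fin j → R) (hK : LinearIndependent ℝ K) (hKd : ∀ i, (K i).totalDegree ≤ k)
    (hKS : ∀ i, ∀ p ∈ S, eval p (K i) = 0) :
    S.card + j ≤ (k + 1) * (k + 2) / 2 := by
  classical
  apply count_main hj hrel hP hQ S hS
  let K' : Fin j → LinearMap.ker (evL k S) := fun i =>
    ⟨⟨K i, (mem_restrictTotalDegree _ _ _).mpr (hKd i)⟩, by
      rw [LinearMap.mem_ker]
      funext p
      exact hKS i p.1 p.2⟩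
  have hK' : LinearIndependent ℝ K' := by
    let L : LinearMap.ker (evL k S) →ₗ[ℝ] MvPolynomial (Fin 2) ℝ :=
      (restrictTotalDegree (Fin 2) ℝ k).subtype ∘ₗ (LinearMap.ker (evL k S)).subtype
    exact LinearIndependent.of_comp L hK
  have := hK'.fintype_card_le_finrank
  rwa [Fintype.card_fin] at this

/-- the count for all centres -/
theorem card_centres {P Q : R} {n j : ℕ} (hn : 1 ≤ n) (hj : j ≤ 2) (hP : P.totalDegree ≤ n)
    (hQ : Q.totalDegree ≤ n) (S : Finset (Fin 2 → ℝ)) (hS : ∀ p ∈ S, IsCentre P Q p)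
    (K : Fin j → R) (hK : LinearIndependent ℝ K) (hKd : ∀ i, (K i).totalDegree ≤ n - 1)
    (hKS : ∀ i, ∀ p ∈ S, eval p (K i) = 0) : S.card + j ≤ n * (n + 1) / 2 := by
  classical
  by_cases hP0 : P = 0
  · have hS0 : S = ∅ := by
      refine Finset.eq_empty_of_forall_notMem fun s hs => ?_
      have h2 := (centre_reduced (P₀ := 0) (Q₀ := 1) (c := Q) (p := s) (by
        rw [mul_zero, mul_one, ← hP0]
        exact hS s hs)).2.1
      rw [map_one] at h2
      exact one_ne_zero h2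
    rw [hS0]
    exact card_add_le hn hP hQ ∅ (fun p hp => absurd hp (Finset.notMem_empty p)) K hK hKd
      (fun i p hp => absurd hp (Finset.notMem_empty p))
  obtain ⟨P₀, Q₀, c, hrp, hPe, hQe⟩ := UniqueFactorizationMonoid.exists_reduced_factors P hP0 Q
  have hc0 : c ≠ 0 := by
    rintro rfl
    exact hP0 (by rw [← hPe, zero_mul])
  have hP₀ : P₀ ≠ 0 := by
    rintro rfl
    exact hP0 (by rw [← hPe, mul_zero])
  have hdP : P₀.totalDegree ≤ n := by
    rw [← hPe, totalDegree_mul_of_isDomain hc0 hP₀] at hP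
    omega
  have hdQ : Q₀.totalDegree ≤ n := by
    by_cases hQ₀ : Q₀ = 0
    · rw [hQ₀, totalDegree_zero]; omega
    · rw [← hQe, totalDegree_mul_of_isDomain hc0 hQ₀] at hQ
      omega
  obtain ⟨k, rfl⟩ : ∃ k, n = k + 1 := ⟨n - 1, by omega⟩
  have h1 := card_two (k := k) hj hrp hdP hdQ S (fun p hp => by
    have h2 := centre_reduced (c := c) (P₀ := P₀) (Q₀ := Q₀) (p := p) (by
      rw [hPe, hQe]
      exact hS p hp)
    refine ⟨h2.1, h2.2.1, ?_⟩
    have h3 := h2.2.2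
    rw [jac] at h3
    rw [jacP, map_sub, map_mul, map_mul]
    exact h3) K hK hKd hKS
  exact h1

end Pool.Agent.LogCentres
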