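import Pool.Agent.PlanarCentres.Cofactor

/-!
# The divergence vanishes at every centre
-/

namespace Pool.Agent.LogCentres

open MvPolynomial Pool.Agent.PlanarCentres Topology

/-- an indefinite quadratic form which increases along the flow where it is positive -/
theorem form_pos_cone {A B C L M : ℝ} (hA : |B| + |C| < A) (hLM : M ^ 2 < L ^ 2) :
    0 < A * L ^ 2 + B * (L * M) + C * M ^ 2 := by
  have hL : 0 < L ^ 2 := lt_of_le_of_lt (sq_nonneg M) hLM
  have h1 : |L * M| ≤ L ^ 2 := by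
    rw [abs_mul, ← sq_abs L, sq]
    have : |M| ≤ |L| := (sq_lt_sq.mp hLM).le
    exact mul_le_mul_of_nonneg_left this (abs_nonneg L)
  have h2 : -(|B| * L ^ 2) ≤ B * (L * M) := by
    have h3 : |B * (L * M)| ≤ |B| * L ^ 2 := by
      rw [abs_mul]
      exact mul_le_mul_of_nonneg_left h1 (abs_nonneg B)
    exact (neg_le_neg h3).trans (neg_abs_le _)
  have h4 : -(|C| * L ^ 2) ≤ C * M ^ 2 := by
    have h3 : |C * M ^ 2| ≤ |C| * L ^ 2 := by
      rw [abs_mul, abs_of_nonneg (sq_nonneg M)]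
      exact mul_le_mul_of_nonneg_left hLM.le (abs_nonneg C)
    exact (neg_le_neg h3).trans (neg_abs_le _)
  have h5 : (|B| + |C|) * L ^ 2 < A * L ^ 2 := mul_lt_mul_of_pos_right hA hL
  linarith

theorem no_centre_aux {P Q : MvPolynomial (Fin 2) ℝ} {p : Fin 2 → ℝ} (hc : IsCentre P Q p)
    {l1 l2 m1 m2 τ : ℝ}
    (h1 : l1 * eval p (pderiv 0 P) + l2 * eval p (pderiv 0 Q) = τ * l1)
    (h2 : l1 * eval p (pderiv 1 P) + l2 * eval p (pderiv 1 Q) = τ * l2)
    (h3 : m1 * eval p (pderiv 0 P) + m2 * eval p (pderiv 0 Q) = 0)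
    (h4 : m1 * eval p (pderiv 1 P) + m2 * eval p (pderiv 1 Q) = 0)
    (hD : l1 * m2 - l2 * m1 ≠ 0) (hτ : τ ≠ 0) : False := by
  rw [← dA_self, ← dA_self] at h1 h3
  rw [← dB_self, ← dB_self] at h2 h4
  have c1 := dA_cont P p
  have c2 := dB_cont P p
  have c3 := dA_cont Q p
  have c4 := dB_cont Q p
  set D : ℝ := l1 * m2 - l2 * m1 with hDd
  set A : (Fin 2 → ℝ) → ℝ := fun x => τ * D * ((l1 * dA P x p + l2 * dA Q x p) * m2 -
    (l1 * dB P x p + l2 * dB Q x p) * m1) with hA
  set B : (Fin 2 → ℝ) → ℝ := fun x => τ * D * (((l1 * dB P x p + l2 * dB Q x p) * l1 -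
    (l1 * dA P x p + l2 * dA Q x p) * l2) - ((m1 * dA P x p + m2 * dA Q x p) * m2 -
    (m1 * dB P x p + m2 * dB Q x p) * m1)) with hB
  set C : (Fin 2 → ℝ) → ℝ := fun x => -(τ * D * ((m1 * dB P x p + m2 * dB Q x p) * l1 -
    (m1 * dA P x p + m2 * dA Q x p) * l2)) with hC
  have cA : Continuous A := by rw [hA]; fun_prop
  have cB : Continuous B := by rw [hB]; fun_prop
  have cC : Continuous C := by rw [hC]; fun_prop
  have vA : A p = (τ * D) ^ 2 := by
    simp only [hA, h1, h2]
    rw [hDd]; ring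
  have vB : B p = 0 := by
    simp only [hB, h1, h2, h3, h4]
    ring
  have vC : C p = 0 := by
    simp only [hC, h3, h4]
    ring
  have hpos : 0 < (τ * D) ^ 2 := by positivity
  have o1 : ∀ᶠ x in 𝓝 p, |B x| + |C x| < A x := by
    have hcon : Continuous fun x => A x - (|B x| + |C x|) := by fun_prop
    have h5 : 0 < A p - (|B p| + |C p|) := by
      rw [vA, vB, vC, abs_zero]
      linarith
    have := hcon.continuousAt.eventually (lt_mem_nhds h5)
    filter_upwards [this] with x hx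
    linarith
  obtain ⟨U, hU, hUW, hq⟩ := hc.2.2 _ o1
  -- a point on the line `m = 0`
  obtain ⟨s, hs0, hsU⟩ : ∃ s : ℝ, s ≠ 0 ∧ (fun i => p i + s * (![m2, -m1] : Fin 2 → ℝ) i) ∈ U := by
    have hf : Continuous fun s : ℝ => (fun i => p i + s * (![m2, -m1] : Fin 2 → ℝ) i) := by
      refine continuous_pi fun i => ?_
      fun_prop
    have h6 : (fun i => p i + (0 : ℝ) * (![m2, -m1] : Fin 2 → ℝ) i) = p := by
      funext i; simp
    have h7 : {s : ℝ | (fun i => p i + s * (![m2, -m1] : Fin 2 → ℝ) i) ∈ U} ∈ 𝓝 (0 : ℝ) := by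
      apply hf.continuousAt.preimage_mem_nhds
      rw [h6]; exact hU
    have hne : (𝓝[≠] (0 : ℝ)).NeBot := inferInstance
    obtain ⟨s, hs1, hs2⟩ := (hne.nonempty_of_mem (Filter.inter_mem
      (mem_nhdsWithin_of_mem_nhds h7) self_mem_nhdsWithin))
    exact ⟨s, hs2, hs1⟩
  set q : Fin 2 → ℝ := fun i => p i + s * (![m2, -m1] : Fin 2 → ℝ) i with hqd
  have q0 : q 0 - p 0 = s * m2 := by simp [hqd]
  have q1 : q 1 - p 1 = -(s * m1) := by simp [hqd]
  have hqp : q ≠ p := by
    intro h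
    rw [h, sub_self] at q0 q1
    have e0 : s * m2 = 0 := q0.symm
    have e1 : s * m1 = 0 := by linarith
    apply hD
    have e2 : m2 = 0 := (mul_eq_zero.mp e0).resolve_left hs0
    have e3 : m1 = 0 := (mul_eq_zero.mp e1).resolve_left hs0
    rw [hDd, e2, e3]; ring
  obtain ⟨γ, ⟨hsol, ⟨T, hT, hper⟩, -⟩, hγ0, hγU⟩ := hq q hsU hqp
  have hd0 : ∀ t, HasDerivAt (fun t => γ t 0) (eval (γ t) P) t := by
    intro t
    have := hasDerivAt_pi.mp (hsol t) 0
    simpa using this
  have hd1 : ∀ t, HasDerivAt (fun t => γ t 1) (eval (γ t) Q) t := by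
    intro t
    have := hasDerivAt_pi.mp (hsol t) 1
    simpa using this
  set L : ℝ → ℝ := fun t => l1 * (γ t 0 - p 0) + l2 * (γ t 1 - p 1) with hL
  set M : ℝ → ℝ := fun t => m1 * (γ t 0 - p 0) + m2 * (γ t 1 - p 1) with hM
  set V : ℝ → ℝ := fun t => L t ^ 2 - M t ^ 2 with hV
  set G : ℝ → ℝ := fun t => 2 * L t * (l1 * eval (γ t) P + l2 * eval (γ t) Q) -
    2 * M t * (m1 * eval (γ t) P + m2 * eval (γ t) Q) with hG
  have hVd : ∀ t, HasDerivAt V (G t) t := by
    intro t
    have a0 := (hd0 t).sub_const (p 0)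
    have a1 := (hd1 t).sub_const (p 1)
    have b0 : HasDerivAt L (l1 * eval (γ t) P + l2 * eval (γ t) Q) t :=
      (a0.const_mul l1).add (a1.const_mul l2)
    have b1 : HasDerivAt M (m1 * eval (γ t) P + m2 * eval (γ t) Q) t :=
      (a0.const_mul m1).add (a1.const_mul m2)
    have := (b0.pow 2).sub (b1.pow 2)
    refine this.congr_deriv ?_
    rw [hG]
    simp only [Nat.cast_ofNat, Nat.add_one_sub_one, pow_one]
  have hVper : Function.Periodic V T := by
    intro t; simp only [hV, hL, hM, hper]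
  have hVc : Continuous V := by
    rw [continuous_iff_continuousAt]
    exact fun t => (hVd t).continuousAt
  obtain ⟨v, ⟨t, rfl⟩, hmax⟩ := (hVper.compact_of_continuous hT.ne' hVc).exists_isGreatest
    ⟨V 0, Set.mem_range_self 0⟩
  have hmax' : ∀ s, V s ≤ V t := fun s => hmax (Set.mem_range_self s)
  have hlm : IsLocalMax V t := Filter.Eventually.of_forall hmax'
  have hG0 : G t = 0 := hlm.hasDerivAt_eq_zero (hVd t)
  have hV0 : 0 < V 0 := by
    have e1 : L 0 = s * D := by
      simp only [hL, hγ0, q0, q1, hDd]; ring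
    have e2 : M 0 = 0 := by
      simp only [hM, hγ0, q0, q1]; ring
    simp only [hV, e1, e2]
    have : 0 < (s * D) ^ 2 := by positivity
    linarith
  have hVt : 0 < V t := lt_of_lt_of_le hV0 (hmax' 0)
  have hW : |B (γ t)| + |C (γ t)| < A (γ t) := hUW (hγU t).1
  have hfin := form_pos_cone hW (L := L t) (M := M t) (by simp only [hV] at hVt; linarith)
  have e1 := dAB P (γ t) p
  have e2 := dAB Q (γ t) p
  rw [hc.1, sub_zero] at e1
  rw [hc.2.1, sub_zero] at e2
  have key : A (γ t) * L t ^ 2 + B (γ t) * (L t * M t) + C (γ t) * M t ^ 2 =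
      τ * D ^ 2 * G t / 2 := by
    simp only [hA, hB, hC, hG, hL, hM, e1, e2, hDd]
    ring
  rw [key, hG0] at hfin
  simp at hfin

/-- **The divergence vanishes at every centre**, degenerate or not. -/
theorem centre_div {P Q : MvPolynomial (Fin 2) ℝ} {p : Fin 2 → ℝ} (hc : IsCentre P Q p) :
    eval p (pderiv 0 P) + eval p (pderiv 1 Q) = 0 := by
  by_cases hj : jac P Q p = 0
  · by_contra hτ
    have hj' : eval p (pderiv 0 P) * eval p (pderiv 1 Q) -
        eval p (pderiv 1 P) * eval p (pderiv 0 Q) = 0 := by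
      simpa [jac] using hj
    set a := eval p (pderiv 0 P) with ha
    set b := eval p (pderiv 1 P) with hb
    set c := eval p (pderiv 0 Q) with hcc
    set d := eval p (pderiv 1 Q) with hd
    by_cases ha0 : a = 0
    · have hd0 : d ≠ 0 := by
        intro h; apply hτ; rw [ha0, h, add_zero]
      refine no_centre_aux hc (l1 := c) (l2 := d) (m1 := -d) (m2 := b) (τ := a + d) ?_ ?_ ?_ ?_ ?_ hτ
      · rw [← ha, ← hcc]; ring
      · rw [← hb, ← hd]; linear_combination -hj'
      · rw [← ha, ← hcc]; linear_combination -hj'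
      · rw [← hb, ← hd]; ring
      · have : c * b - d * -d = d * d := by linear_combination -hj' + d * ha0
        rw [this]
        exact mul_ne_zero hd0 hd0
    · refine no_centre_aux hc (l1 := a) (l2 := b) (m1 := -c) (m2 := a) (τ := a + d) ?_ ?_ ?_ ?_ ?_ hτ
      · rw [← ha, ← hcc]; linear_combination -hj'
      · rw [← hb, ← hd]; ring
      · rw [← ha, ← hcc]; ring
      · rw [← hb, ← hd]; linear_combination hj'
      · have : a * a - b * -c = a * (a + d) := by linear_combination -hj'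
        rw [this]
        exact mul_ne_zero ha0 hτ
  · exact (centre_jac hc hj).1

end Pool.Agent.LogCentres
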