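import Pool.Agent.LogCentres.Defs2

/-!
# Kernels
-/

namespace Pool.Agent.LogCentres

open MvPolynomial

theorem app_monomial (m : R →ₗ[ℝ] ℝ) (s : Fin 2 →₀ ℕ) (r : R) :
    app m (monomial s r) = monomial s (m r) := by
  ext k
  rw [coeff_app, coeff_monomial, coeff_monomial]
  split_ifs <;> simp

theorem ix_monomial (s : Fin 2 →₀ ℕ) (c : ℝ) : ix (monomial s c) = monomial s (C c) := by
  simp [ix, MvPolynomial.algebraMap_eq]

theorem iu_eq (f : R) : iu f = C f := rfl

theorem monomial_eq_ix_iu (s : Fin 2 →₀ ℕ) (r : R) :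
    (monomial s r : T) = ix (monomial s 1) * iu r := by
  rw [ix_monomial, iu_eq, map_one, mul_comm, C_mul_monomial, mul_one]

theorem app_ix_mul (m : R →ₗ[ℝ] ℝ) (f : R) (t : T) : app m (ix f * t) = f * app m t := by
  induction f using MvPolynomial.induction_on' with
  | monomial s c =>
    induction t using MvPolynomial.induction_on' with
    | monomial k r =>
      rw [ix_monomial, monomial_mul, app_monomial, app_monomial, monomial_mul]
      congr 1
      rw [← MvPolynomial.smul_eq_C_mul, map_smul, smul_eq_mul]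
    | add p q hp hq => rw [mul_add, map_add, hp, hq, map_add, mul_add]
  | add p q hp hq => rw [map_add, add_mul, map_add, hp, hq, add_mul]

theorem app_iu_mul (m : R →ₗ[ℝ] ℝ) (f : R) (t : T) : app m (iu f * t) = app (tw m f) t := by
  induction t using MvPolynomial.induction_on' with
  | monomial k r =>
    rw [iu_eq, C_mul_monomial, app_monomial, app_monomial]
    rfl
  | add p q hp hq => rw [mul_add, map_add, hp, hq, map_add]

theorem app_ix_iu (m : R →ₗ[ℝ] ℝ) (a b : R) : app m (ix a * iu b) = m b • a := by
  rw [app_ix_mul, iu_eq]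
  have h : (C b : T) = monomial 0 b := rfl
  rw [h, app_monomial, MvPolynomial.smul_eq_C_mul, mul_comm]
  rfl

theorem mu_ix (f : R) : mu (ix f) = f := by
  induction f using MvPolynomial.induction_on' with
  | monomial s c =>
    rw [ix_monomial, mu, aeval_monomial]
    rw [MvPolynomial.monomial_eq (s := s) (a := c)]
    rfl
  | add p q hp hq => rw [map_add, map_add, hp, hq]

theorem mu_iu (f : R) : mu (iu f) = f := by
  rw [iu_eq, mu, aeval_C]
  rfl

theorem mu_e (i : Fin 2) : mu (e i) = 0 := by
  rw [e, map_sub, mu_ix, mu_iu, sub_self]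

theorem exists_sum (t : T) : ∃ (n : ℕ) (a b : Fin n → R), t = ∑ i, ix (a i) * iu (b i) := by
  induction t using MvPolynomial.induction_on' with
  | monomial s r =>
    exact ⟨1, fun _ => monomial s 1, fun _ => r, by simp [monomial_eq_ix_iu s r]⟩
  | add p q hp hq =>
    obtain ⟨n, a, b, rfl⟩ := hp
    obtain ⟨k, c, d, rfl⟩ := hq
    refine ⟨n + k, Fin.append a c, Fin.append b d, ?_⟩
    rw [Fin.sum_univ_add]
    simp

theorem Fil_gen {a b : R} {d : ℕ} (h : a.totalDegree + b.totalDegree ≤ d) :
    ix a * iu b ∈ Fil d := Submodule.subset_span ⟨a, b, h, rfl⟩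

theorem Fil_mul {d d' : ℕ} {s t : T} (hs : s ∈ Fil d) (ht : t ∈ Fil d') :
    s * t ∈ Fil (d + d') := by
  induction hs using Submodule.span_induction with
  | mem s hs =>
    obtain ⟨a, b, hab, rfl⟩ := hs
    induction ht using Submodule.span_induction with
    | mem t ht =>
      obtain ⟨c, f, hcf, rfl⟩ := ht
      have h : ix a * iu b * (ix c * iu f) = ix (a * c) * iu (b * f) := by
        rw [map_mul, map_mul]; ring
      rw [h]
      refine Fil_gen ?_
      have h1 := totalDegree_mul a c
      have h2 := totalDegree_mul b f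
      omega
    | zero => rw [mul_zero]; exact zero_mem _
    | add x y _ _ hx hy => rw [mul_add]; exact add_mem hx hy
    | smul c x _ hx => rw [mul_smul_comm]; exact Submodule.smul_mem _ _ hx
  | zero => rw [zero_mul]; exact zero_mem _
  | add x y _ _ hx hy => rw [add_mul]; exact add_mem hx hy
  | smul c x _ hx => rw [smul_mul_assoc]; exact Submodule.smul_mem _ _ hx

theorem Fil_mono {d d' : ℕ} (h : d ≤ d') : Fil d ≤ Fil d' := by
  refine Submodule.span_mono ?_
  rintro t ⟨a, b, hab, rfl⟩
  exact ⟨a, b, hab.trans h, rfl⟩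

/-- the term at `x = 0` of a kernel of joint degree at most `d` has degree at most `d` -/
theorem Fil_coeff_zero {d : ℕ} {t : T} (ht : t ∈ Fil d) : (coeff 0 t : R).totalDegree ≤ d := by
  induction ht using Submodule.span_induction with
  | mem t ht =>
    obtain ⟨a, b, hab, rfl⟩ := ht
    have h1 : (coeff 0 (ix a) : R) = C (coeff 0 a) := by
      rw [ix, mapAlgHom_apply, coeff_map]
      rfl
    have h : (coeff 0 (ix a * iu b) : R) = C (coeff 0 a) * b := by
      rw [iu_eq, mul_comm, coeff_C_mul, h1, mul_comm]
    rw [h]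
    have h2 := totalDegree_mul (C (coeff 0 a)) b
    rw [totalDegree_C] at h2
    omega
  | zero => rw [coeff_zero, totalDegree_zero]; exact Nat.zero_le _
  | add x y _ _ hx hy =>
    rw [coeff_add]
    exact (totalDegree_add _ _).trans (max_le hx hy)
  | smul c x _ hx =>
    rw [coeff_smul]
    exact (totalDegree_smul_le _ _).trans hx

end Pool.Agent.LogCentres
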