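import Pool.Agent.LogCentres.LiMain

/-!
# Invariant lines in general position, coprime case
-/

namespace Pool.Agent.LogCentres

open MvPolynomial Pool.Agent.PlanarCentres Finset

theorem sub_relprime {M M' : Fin 2 → Fin 2 → ℝ} {v v' : Fin 2 → ℝ}
    (h1 : ∀ x, aff M v (aff M' v' x) = x) (h2 : ∀ x, aff M' v' (aff M v x) = x) {P Q : R}
    (h : IsRelPrime P Q) : IsRelPrime (sub M v P) (sub M v Q) := by
  have e1 : ∀ p : R, sub M' v' (sub M v p) = p := by
    intro p
    apply MvPolynomial.funext
    intro x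
    rw [eval_sub', eval_sub', h1]
  have e2 : ∀ p : R, sub M v (sub M' v' p) = p := by
    intro p
    apply MvPolynomial.funext
    intro x
    rw [eval_sub', eval_sub', h2]
  intro d k1 k2
  have g1 := map_dvd (sub M' v') k1
  have g2 := map_dvd (sub M' v') k2
  rw [e1] at g1 g2
  have g3 := (h g1 g2).map (sub M v)
  rwa [e2] at g3

/-- **Invariant line, general position, coprime case.** -/
theorem line_general0 {P Q : R} {n : ℕ} (hn : 3 ≤ n) (hP : P.totalDegree ≤ n)
    (hQ : Q.totalDegree ≤ n) (hcop : IsRelPrime P Q) (a b c : ℝ) (hab : a ≠ 0 ∨ b ≠ 0)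
    (hinv : ∀ x : Fin 2 → ℝ, a * x 0 + b * x 1 + c = 0 → a * eval x P + b * eval x Q = 0)
    (S : Finset (Fin 2 → ℝ))
    (hS : ∀ p ∈ S, a * p 0 + b * p 1 + c ≠ 0 ∧ eval p P = 0 ∧ eval p Q = 0 ∧
      0 ≤ jac P Q p ∧ eval p (pderiv 0 P + pderiv 1 Q) = 0) :
    S.card + 2 ≤ n * (n + 1) / 2 := by
  classical
  set N : ℝ := a ^ 2 + b ^ 2 with hN
  have hN0 : 0 < N := by
    rcases hab with h | h
    · have : 0 < a ^ 2 := by positivity
      nlinarith [sq_nonneg b]
    · have : 0 < b ^ 2 := by positivity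
      nlinarith [sq_nonneg a]
  have hNne : N ≠ 0 := hN0.ne'
  set M : Fin 2 → Fin 2 → ℝ := ![![a / N, -b], ![b / N, a]] with hM
  set v : Fin 2 → ℝ := ![-(c * a) / N, -(c * b) / N] with hv
  set M' : Fin 2 → Fin 2 → ℝ := ![![a, b], ![-b / N, a / N]] with hM'
  set v' : Fin 2 → ℝ := ![c, 0] with hv'
  have hM00 : M 0 0 = a / N := by simp [hM]
  have hM01 : M 0 1 = -b := by simp [hM]
  have hM10 : M 1 0 = b / N := by simp [hM]
  have hM11 : M 1 1 = a := by simp [hM]
  have hv0 : v 0 = -(c * a) / N := by simp [hv]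
  have hv1 : v 1 = -(c * b) / N := by simp [hv]
  have hM'00 : M' 0 0 = a := by simp [hM']
  have hM'01 : M' 0 1 = b := by simp [hM']
  have hM'10 : M' 1 0 = -b / N := by simp [hM']
  have hM'11 : M' 1 1 = a / N := by simp [hM']
  have hv'0 : v' 0 = c := by simp [hv']
  have hv'1 : v' 1 = 0 := by simp [hv']
  have hi1 : ∀ x, aff M v (aff M' v' x) = x := by
    intro x
    funext i
    fin_cases i
    · simp only [aff, Fin.zero_eta, hM00, hM01, hv0, hM'00, hM'01, hM'10, hM'11, hv'0, hv'1]
      field_simp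
      rw [hN]; ring
    · simp only [aff, Fin.mk_one, hM10, hM11, hv1, hM'00, hM'01, hM'10, hM'11, hv'0, hv'1]
      field_simp
      rw [hN]; ring
  have hi2 : ∀ x, aff M' v' (aff M v x) = x := by
    intro x
    funext i
    fin_cases i
    · simp only [aff, Fin.zero_eta, hM00, hM01, hM10, hM11, hv0, hv1, hM'00, hM'01, hv'0]
      field_simp
      rw [hN]; ring
    · simp only [aff, Fin.mk_one, hM00, hM01, hM10, hM11, hv0, hv1, hM'10, hM'11, hv'1]
      field_simp
      rw [hN]; ring
  set P' : R := C a * sub M v P + C b * sub M v Q with hP'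
  set Q' : R := C (-b / N) * sub M v P + C (a / N) * sub M v Q with hQ'
  have hdC : ∀ (r : ℝ) {f : R}, f.totalDegree ≤ n →
      (C r * f).totalDegree ≤ n := by
    intro r f hf
    refine (totalDegree_mul _ _).trans ?_
    rw [totalDegree_C, zero_add]; exact hf
  have hP'd : P'.totalDegree ≤ n := (totalDegree_add _ _).trans
    (max_le (hdC _ (totalDegree_sub' _ _ hP)) (hdC _ (totalDegree_sub' _ _ hQ)))
  have hQ'd : Q'.totalDegree ≤ n := (totalDegree_add _ _).trans
    (max_le (hdC _ (totalDegree_sub' _ _ hP)) (hdC _ (totalDegree_sub' _ _ hQ)))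
  have hdd : (a ^ 2 + b ^ 2) / N = 1 := by rw [← hN]; exact div_self hNne
  have hcN1 : (a / N) * a + -b * (-b / N) = 1 := by
    rw [← hdd]; ring
  have hcN2 : (a / N) * b + -b * (a / N) = 0 := by ring
  have hcN3 : (b / N) * a + a * (-b / N) = 0 := by ring
  have hcN4 : (b / N) * b + a * (a / N) = 1 := by
    rw [← hdd]; ring
  have hrec1 : sub M v P = C (a / N) * P' + C (-b) * Q' := by
    have e1 : C (a / N) * P' + C (-b) * Q' =
        C ((a / N) * a + -b * (-b / N)) * sub M v P +
        C ((a / N) * b + -b * (a / N)) * sub M v Q := by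
      rw [hP', hQ']
      simp only [map_add, map_mul]
      ring
    rw [e1, hcN1, hcN2, C_1, C_0, one_mul, zero_mul, add_zero]
  have hrec2 : sub M v Q = C (b / N) * P' + C a * Q' := by
    have e1 : C (b / N) * P' + C a * Q' =
        C ((b / N) * a + a * (-b / N)) * sub M v P +
        C ((b / N) * b + a * (a / N)) * sub M v Q := by
      rw [hP', hQ']
      simp only [map_add, map_mul]
      ring
    rw [e1, hcN3, hcN4, C_1, C_0, one_mul, zero_mul, zero_add]
  have hcop' : IsRelPrime P' Q' := by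
    intro d k1 k2
    refine sub_relprime hi1 hi2 hcop ?_ ?_
    · rw [hrec1]
      exact dvd_add (k1.mul_left _) (k2.mul_left _)
    · rw [hrec2]
      exact dvd_add (k1.mul_left _) (k2.mul_left _)
  obtain ⟨A, hA⟩ := X0_dvd (f := P') (by
    intro y
    rw [hP', map_add, map_mul, map_mul, eval_C, eval_C, eval_sub', eval_sub']
    apply hinv
    simp only [aff, hM00, hM01, hM10, hM11, hv0, hv1, Matrix.cons_val_zero, Matrix.cons_val_one]
    field_simp
    rw [hN]; ring)
  have hAd : A.totalDegree ≤ n - 1 := by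
    by_cases hA0 : A = 0
    · rw [hA0, totalDegree_zero]; exact Nat.zero_le _
    · rw [hA, totalDegree_mul_of_isDomain (X_ne_zero _) hA0, totalDegree_X] at hP'd
      omega
  -- the inverse map
  let g : (Fin 2 → ℝ) → (Fin 2 → ℝ) := fun p =>
    ![a * p 0 + b * p 1 + c, (-b * p 0 + a * p 1) / N]
  have hg : ∀ p, aff M v (g p) = p := by
    intro p
    funext i
    fin_cases i
    · simp only [aff, g, Fin.zero_eta, hM00, hM01, hv0, Matrix.cons_val_zero,
        Matrix.cons_val_one]
      field_simp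
      rw [hN]; ring
    · simp only [aff, g, Fin.mk_one, hM10, hM11, hv1, Matrix.cons_val_zero,
        Matrix.cons_val_one]
      field_simp
      rw [hN]; ring
  have hginj : Function.Injective g := fun p q h => by rw [← hg p, ← hg q, h]
  have hder : ∀ (r s : ℝ) (p : Fin 2 → ℝ) (j : Fin 2),
      eval (g p) (pderiv j (C r * sub M v P + C s * sub M v Q)) =
      r * (M 0 j * eval p (pderiv 0 P) + M 1 j * eval p (pderiv 1 P)) +
      s * (M 0 j * eval p (pderiv 0 Q) + M 1 j * eval p (pderiv 1 Q)) := by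
    intro r s p j
    rw [map_add, Derivation.leibniz, Derivation.leibniz, pderiv_C, pderiv_C, smul_zero, smul_zero,
      add_zero, add_zero, smul_eq_mul, smul_eq_mul, pderiv_sub', pderiv_sub']
    simp only [map_add, map_mul, eval_C, eval_sub', hg]
  have hmain := line_main0 (A := A) hn hAd hQ'd (by rw [← hA]; exact hcop') (S.image g) (by
    intro w hw
    obtain ⟨p, hp, rfl⟩ := mem_image.mp hw
    obtain ⟨h0, h1, h2, h3, h4⟩ := hS p hp
    rw [← hA]
    refine ⟨?_, ?_, ?_, ?_, ?_⟩
    · have : g p 0 = a * p 0 + b * p 1 + c := by simp [g]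
      rw [this]; exact h0
    · rw [hP', map_add, map_mul, map_mul, eval_sub', eval_sub', hg, h1, h2]; simp
    · rw [hQ', map_add, map_mul, map_mul, eval_sub', eval_sub', hg, h1, h2]; simp
    · have : jac P' Q' (g p) = jac P Q p := by
        rw [jac, jac, hP', hQ', hder, hder, hder, hder, hM00, hM01, hM10, hM11]
        field_simp
        rw [hN]; ring
      rw [this]; exact h3
    · rw [map_add] at h4 ⊢
      rw [hP', hQ', hder, hder, hM00, hM01, hM10, hM11]
      have : eval p (pderiv 1 Q) = - eval p (pderiv 0 P) := by linarith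
      rw [this]
      field_simp
      rw [hN]; ring)
  rw [card_image_of_injective _ hginj] at hmain
  exact hmain

end Pool.Agent.LogCentres
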