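import Pool.Agent.LogCentres.LiAff
import Pool.Agent.LogCentres.LiOff
import Pool.Agent.LogCentres.IvDiv

/-!
# Centres of systems with an invariant line
-/

namespace Pool.Agent.LogCentres

open MvPolynomial Pool.Agent.PlanarCentres

/-- all centres of a system with an invariant line -/
theorem line_centres {P Q : R} {n : ℕ} (hn : 3 ≤ n) (hP : P.totalDegree ≤ n)
    (hQ : Q.totalDegree ≤ n) (a b c : ℝ) (hab : a ≠ 0 ∨ b ≠ 0)
    (hinv : ∀ x : Fin 2 → ℝ, a * x 0 + b * x 1 + c = 0 → a * eval x P + b * eval x Q = 0)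
    (S : Finset (Fin 2 → ℝ)) (hS : ∀ p ∈ S, IsCentre P Q p) :
    S.card + 2 ≤ n * (n + 1) / 2 := by
  classical
  have hbig : (n - 1) * n / 2 + n = n * (n + 1) / 2 := by
    obtain ⟨m, rfl⟩ : ∃ m, n = m + 1 := ⟨n - 1, by omega⟩
    have : (m + 1) * (m + 1 + 1) = (m + 1 - 1) * (m + 1) + 2 * (m + 1) := by
      rw [Nat.add_sub_cancel]
      ring
    omega
  by_cases hP0 : P = 0
  · have hS0 : S = ∅ := by
      refine Finset.eq_empty_of_forall_notMem fun s hs => ?_
      have h2 := (centre_reduced (P₀ := 0) (Q₀ := 1) (c := Q) (p := s) (by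
        rw [mul_zero, mul_one, ← hP0]
        exact hS s hs)).2.1
      rw [map_one] at h2
      exact one_ne_zero h2
    rw [hS0, Finset.card_empty]
    omega
  obtain ⟨P₀, Q₀, d, hrp, hPe, hQe⟩ := UniqueFactorizationMonoid.exists_reduced_factors P hP0 Q
  have hd0 : d ≠ 0 := by
    rintro rfl
    exact hP0 (by rw [← hPe, zero_mul])
  have hP₀ : P₀ ≠ 0 := by
    rintro rfl
    exact hP0 (by rw [← hPe, mul_zero])
  have hred : ∀ p ∈ S, eval p P₀ = 0 ∧ eval p Q₀ = 0 ∧ 0 ≤ jac P₀ Q₀ p := by
    intro p hp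
    apply centre_reduced (c := d)
    rw [hPe, hQe]
    exact hS p hp
  rcases Nat.eq_zero_or_pos d.totalDegree with hdd | hdd
  · -- the system is reduced
    have hdu : IsUnit d := by
      rw [isUnit_iff_totalDegree_of_isReduced]
      refine ⟨?_, hdd⟩
      rw [isUnit_iff_ne_zero]
      intro h8
      apply hd0
      rw [totalDegree_eq_zero_iff_eq_C.1 hdd, h8, C_0]
    have hcop : IsRelPrime P Q := by
      intro e h1 h2
      rw [← hPe] at h1
      rw [← hQe] at h2
      exact hrp ((hdu.dvd_mul_left).1 h1) ((hdu.dvd_mul_left).1 h2)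
    refine line_general0 hn hP hQ hcop a b c hab hinv S fun p hp => ?_
    have h1 := centre_reduced (P₀ := P) (Q₀ := Q) (c := 1) (p := p) (by
      rw [one_mul, one_mul]
      exact hS p hp)
    refine ⟨centre_off (hS p hp) hab hinv, h1.1, h1.2.1, h1.2.2, ?_⟩
    rw [map_add]
    exact centre_div (hS p hp)
  · have hdP : P₀.totalDegree ≤ n - 1 := by
      rw [← hPe, totalDegree_mul_of_isDomain hd0 hP₀] at hP
      omega
    have hdQ : Q₀.totalDegree ≤ n - 1 := by
      by_cases hQ₀ : Q₀ = 0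
      · rw [hQ₀, totalDegree_zero]; omega
      · rw [← hQe, totalDegree_mul_of_isDomain hd0 hQ₀] at hQ
        omega
    obtain ⟨k, rfl⟩ : ∃ k, n = k + 2 := ⟨n - 2, by omega⟩
    have h1 := card_two (k := k) (j := 0) (by omega) hrp (by omega) (by omega) S (fun p hp => by
      have h2 := hred p hp
      refine ⟨h2.1, h2.2.1, ?_⟩
      have h3 := h2.2.2
      rw [jac] at h3
      rw [jacP, map_sub, map_mul, map_mul]
      exact h3) (fun i => i.elim0) linearIndependent_empty_type (fun i => i.elim0)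
      (fun i => i.elim0)
    have e1 : (k + 2 - 1) * (k + 2) / 2 = (k + 1) * (k + 2) / 2 := by
      rw [show k + 2 - 1 = k + 1 by omega]
    omega

end Pool.Agent.LogCentres
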