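import Pool.Agent.LogCentres.IvCount
import Pool.Agent.PlanarCentres.LineMain
import Pool.Agent.PlanarCentres.AffLine

/-!
# Independent evaluations
-/

namespace Pool.Agent.LogCentres

open MvPolynomial Pool.Agent.PlanarCentres

/-- the evaluations at the points of `S` are independent on the polynomials of degree at
most `k` -/
def Ind (k : ℕ) (S : Finset (Fin 2 → ℝ)) : Prop :=
  ∀ w : (Fin 2 → ℝ) → ℝ, (∀ f : R, f.totalDegree ≤ k → ∑ p ∈ S, w p * eval p f = 0) →
    ∀ p ∈ S, w p = 0

end Pool.Agent.LogCentres
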