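import Pool.Agent.LogCentres.Swap

/-!
# Coprimality in the new chart
-/

namespace Pool.Agent.LogCentres

open MvPolynomial Pool.Agent.PlanarCentres

/-- homogenising twice gives the polynomial back -/
private theorem reh_twice {k : ℕ} {f : R} (hf : f.totalDegree ≤ k) : homk k (homk k f) = f := by
  refine ind_deg (P := fun f => homk k (homk k f) = f)
    (by simp) (fun f g h h' => by rw [map_add, map_add, h, h']) ?_ f hf
  intro s c hs
  obtain ⟨j, rfl⟩ := Nat.exists_eq_add_of_le hs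
  have h1 : homk (s 0 + s 1 + j) (monomial s c : R) =
      monomial (Finsupp.single 0 j + Finsupp.single 1 (s 1)) c := by
    rw [homk_mon, mon_eq, show s 0 + s 1 + j - s 0 - s 1 = j by omega]
    simp
  rw [h1, homk_mon, mon_eq]
  have h2 : (Finsupp.single (0 : Fin 2) j + Finsupp.single 1 (s 1) : Fin 2 →₀ ℕ) 0 = j := by simp
  have h3 : (Finsupp.single (0 : Fin 2) j + Finsupp.single 1 (s 1) : Fin 2 →₀ ℕ) 1 = s 1 := by
    simp
  rw [h2, h3, show s 0 + s 1 + j - j - s 1 = s 0 by omega]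

private theorem reh_not_dvd {K : R} {k : ℕ} (hK0 : K ≠ 0) (hK : K.totalDegree = k) :
    ¬ (X 0 : R) ∣ homk k K := by
  rintro ⟨M, hM⟩
  have h1 := reh_twice hK.le
  have hM0 : M ≠ 0 := by
    rintro rfl
    rw [hM, mul_zero, map_zero] at h1
    exact hK0 h1.symm
  have h2 : (X 0 * M : R).totalDegree = 1 + M.totalDegree := by
    rw [totalDegree_mul_of_isDomain (X_ne_zero 0) hM0, totalDegree_X]
  have h3 := deg_homk K hK.le
  rw [hM, h2] at h3
  obtain ⟨j, rfl⟩ : ∃ j, k = j + 1 := ⟨k - 1, by omega⟩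
  have h4 : M.totalDegree ≤ j := by omega
  rw [hM, homk_X0_mul h4] at h1
  have h5 := deg_homk M h4
  rw [h1, hK] at h5
  omega

private theorem reh_not_unit : ¬ IsUnit (X 0 : R) := (X_prime (R := ℝ) (i := (0 : Fin 2))).not_isUnit

private theorem reh_dvd {d P : R} {n : ℕ} (hd0 : d ≠ 0) (hP : P.totalDegree ≤ n)
    (hd : d ∣ homk n P) : homk d.totalDegree d ∣ P := by
  obtain ⟨e, he⟩ := hd
  have h1 := reh_twice hP
  by_cases he0 : e = 0
  · rw [he, he0, mul_zero, map_zero] at h1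
    rw [← h1]
    exact dvd_zero _
  · have h2 : (d * e).totalDegree = d.totalDegree + e.totalDegree :=
      totalDegree_mul_of_isDomain hd0 he0
    have h3 := deg_homk P hP
    rw [he, h2] at h3
    obtain ⟨j, rfl⟩ : ∃ j, n = d.totalDegree + j := ⟨n - d.totalDegree, by omega⟩
    rw [he, homk_mul le_rfl (by omega : e.totalDegree ≤ j)] at h1
    exact ⟨homk j e, h1.symm⟩

theorem homk_rel {P Q : R} {n : ℕ} (hrel : IsRelPrime P Q) (hP : P.totalDegree ≤ n)
    (hQ : Q.totalDegree ≤ n) (hn : P.totalDegree = n ∨ Q.totalDegree = n) :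
    IsRelPrime (homk n P) (homk n Q) := by
  have hne : ¬ (P = 0 ∧ Q = 0) := by
    rintro ⟨rfl, rfl⟩
    exact reh_not_unit (hrel (dvd_zero _) (dvd_zero _))
  have hX : ¬ ((X 0 : R) ∣ homk n P ∧ (X 0 : R) ∣ homk n Q) := by
    rintro ⟨h1, h2⟩
    rcases hn with hn | hn
    · by_cases h0 : P = 0
      · rw [h0, totalDegree_zero] at hn
        have hQ0 : Q ≠ 0 := fun h => hne ⟨h0, h⟩
        exact reh_not_dvd hQ0 (by omega) h2
      · exact reh_not_dvd h0 hn h1
    · by_cases h0 : Q = 0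
      · rw [h0, totalDegree_zero] at hn
        have hP0 : P ≠ 0 := fun h => hne ⟨h, h0⟩
        exact reh_not_dvd hP0 (by omega) h1
      · exact reh_not_dvd h0 hn h2
  intro d h1 h2
  have hd0 : d ≠ 0 := by
    rintro rfl
    rw [zero_dvd_iff] at h1 h2
    apply hne
    constructor
    · rw [← reh_twice hP, h1, map_zero]
    · rw [← reh_twice hQ, h2, map_zero]
  have h3 : IsUnit (homk d.totalDegree d) := hrel (reh_dvd hd0 hP h1) (reh_dvd hd0 hQ h2)
  have h4 : (homk d.totalDegree d).totalDegree = 0 :=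
    (isUnit_iff_totalDegree_of_isReduced.1 h3).2
  have h5 := totalDegree_eq_zero_iff_eq_C.1 h4
  have h6 := reh_twice (le_refl d.totalDegree)
  rw [h5] at h6
  rcases Nat.eq_zero_or_pos d.totalDegree with h7 | h7
  · rw [isUnit_iff_totalDegree_of_isReduced]
    refine ⟨?_, h7⟩
    rw [isUnit_iff_ne_zero]
    intro h8
    apply hd0
    rw [totalDegree_eq_zero_iff_eq_C.1 h7]
    rw [h8, C_0]
  · exfalso
    have h8 : (X 0 : R) ∣ d := by
      rw [← h6]
      change _ ∣ homk d.totalDegree (monomial 0 _)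
      rw [homk_mon]
      obtain ⟨j, hj⟩ : ∃ j, d.totalDegree = j + 1 := ⟨d.totalDegree - 1, by omega⟩
      rw [hj]
      refine Dvd.dvd.mul_left (Dvd.dvd.mul_right ?_ _) _
      exact dvd_pow_self _ (by simp)
    exact hX ⟨h8.trans h1, h8.trans h2⟩

theorem rel_chart {P Q : R} (h : IsRelPrime P Q) (h0 : ¬ (X 0 : R) ∣ X 1 * P - Q) :
    IsRelPrime (X 0 * P) (X 1 * P - Q) := by
  refine IsRelPrime.mul_left ?_ ?_
  · exact ((X_prime (R := ℝ) (i := (0 : Fin 2))).irreducible.isRelPrime_iff_not_dvd).2 h0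
  · intro d h1 h2
    refine h h1 ?_
    have h3 : Q = X 1 * P - (X 1 * P - Q) := by ring
    rw [h3]
    exact dvd_sub (h1.mul_left _) h2

theorem rel_chart0 {P Q Q' : R} (h : IsRelPrime P Q) (h0 : X 0 * Q' = X 1 * P - Q) :
    IsRelPrime P Q' := by
  intro d h1 h2
  refine h h1 ?_
  have h3 : Q = X 1 * P - X 0 * Q' := by rw [h0]; ring
  rw [h3]
  exact dvd_sub (h1.mul_left _) (h2.mul_left _)

end Pool.Agent.LogCentres
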