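import Pool.Agent.LogCentres.LiDef
import Pool.Agent.LogCentres.ReHom

/-!
# The projective change of coordinates, degenerate zeros included
-/

namespace Pool.Agent.LogCentres

open MvPolynomial Pool.Agent.PlanarCentres

private theorem lsw_coeff_X0 (f : R) (k : ℕ) :
    coeff (Finsupp.single (1 : Fin 2) k) (X 0 * f) = 0 := by
  rw [mul_comm, coeff_mul_X']
  split_ifs with h
  · simp at h
  · rfl

private theorem lsw_coeff_X1 (f : R) (k : ℕ) :
    coeff (Finsupp.single (1 : Fin 2) (k + 1)) (X 1 * f) = coeff (Finsupp.single 1 k) f := by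
  have h : (Finsupp.single (1 : Fin 2) (k + 1) : Fin 2 →₀ ℕ) =
      Finsupp.single 1 1 + Finsupp.single 1 k := by
    rw [← Finsupp.single_add, add_comm]
  rw [h, coeff_X_mul]

private theorem lsw_coeff_pderiv (f : R) (k : ℕ) :
    coeff (Finsupp.single (1 : Fin 2) k) (pderiv 1 f) =
      coeff (Finsupp.single 1 (k + 1)) f * (k + 1) := by
  have h := coeff_pderiv (R := ℝ) (i := (1 : Fin 2)) f (Finsupp.single 1 k)
  rw [h]
  have h2 : (Finsupp.single (1 : Fin 2) k + Finsupp.single 1 1 : Fin 2 →₀ ℕ) =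
      Finsupp.single 1 (k + 1) := by
    rw [← Finsupp.single_add]
  rw [h2]
  simp

theorem proj_swap0 {A Q : R} {n : ℕ} (hn : 2 ≤ n) (lam : ℝ) (hlam : 0 ≤ lam)
    (hA : A.totalDegree ≤ n - 1) (hQ : Q.totalDegree ≤ n)
    (hrel : pderiv 1 Q = -(C lam * A) - X 0 * pderiv 0 A)
    (hcoef : coeff (Finsupp.single 1 (n - 1)) A ≠ 0) (hcop : IsRelPrime (X 0 * A) Q)
    (S : Finset (Fin 2 → ℝ))
    (hS : ∀ p ∈ S, p 0 ≠ 0 ∧ eval p A = 0 ∧ eval p Q = 0 ∧ 0 ≤ jac (X 0 * A) Q p)
    (hind : Ind (n - 1) S) :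
    ∃ (A' Q' : R) (S' : Finset (Fin 2 → ℝ)),
      A'.totalDegree ≤ n - 1 ∧ Q'.totalDegree ≤ n ∧
      pderiv 1 Q' = -(C (-(lam + n)) * A') - X 0 * pderiv 0 A' ∧
      coeff (Finsupp.single 1 (n - 1)) A' ≠ 0 ∧ IsRelPrime (X 0 * A') Q' ∧
      S'.card = S.card ∧ Ind (n - 1) S' ∧
      ∀ p ∈ S', p 0 ≠ 0 ∧ eval p A' = 0 ∧ eval p Q' = 0 ∧ 0 ≤ jac (X 0 * A') Q' p := by
  classical
  obtain ⟨m, rfl⟩ : ∃ m, n = m + 2 := ⟨n - 2, by omega⟩
  rw [show m + 2 - 1 = m + 1 by omega] at hA hcoef hind ⊢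
  refine ⟨-homk (m + 1) A, homk (m + 2) Q - X 1 * homk (m + 1) A, S.image sw,
    ?_, ?_, ?_, ?_, ?_, ?_, ?_, ?_⟩
  · rw [totalDegree_neg]
    exact deg_homk A hA
  · refine (totalDegree_sub _ _).trans (max_le (deg_homk Q hQ) ?_)
    refine (totalDegree_mul _ _).trans ?_
    have := deg_homk A hA
    rw [totalDegree_X]
    omega
  · have h1 := pderiv1_homk (k := m + 1) Q hQ
    rw [hrel, map_sub, map_neg, ← smul_eq_C_mul, map_smul, pderiv0_homk A hA,
      smul_eq_C_mul] at h1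
    rw [map_sub, h1, Derivation.leibniz, pderiv_X_self, smul_eq_mul, smul_eq_mul]
    push_cast
    simp only [C_add, map_neg, map_natCast, map_one]
    have h2 : (C (2 : ℝ) : MvPolynomial (Fin 2) ℝ) = 2 := map_ofNat _ 2
    rw [h2]
    ring
  · rw [coeff_neg, coeff_homk A hA]
    exact neg_ne_zero.2 hcoef
  · -- coprimality
    have hA0 : A ≠ 0 := by
      rintro rfl
      exact hcoef (coeff_zero _)
    have hAd : A.totalDegree = m + 1 := by
      refine le_antisymm hA ?_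
      have h1 := le_totalDegree (mem_support_iff.2 hcoef)
      have h2 : (Finsupp.single (1 : Fin 2) (m + 1)).sum (fun _ e => e) = m + 1 := by
        rw [Finsupp.sum_single_index rfl]
      rwa [h2] at h1
    have hPd : (X 0 * A : R).totalDegree = m + 2 := by
      rw [totalDegree_mul_of_isDomain (X_ne_zero 0) hA0, totalDegree_X, hAd]
      omega
    have h1 := homk_rel hcop hPd.le hQ (Or.inl hPd)
    rw [homk_X0_mul hA] at h1
    have h2 := rel_chart h1 (by
      rintro ⟨M, hM⟩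
      have h3 := congrArg (coeff (Finsupp.single (1 : Fin 2) (m + 2))) hM
      rw [lsw_coeff_X0, coeff_sub, lsw_coeff_X1, coeff_homk A hA, coeff_homk Q hQ] at h3
      have h4 := congrArg (coeff (Finsupp.single (1 : Fin 2) (m + 1))) hrel
      rw [lsw_coeff_pderiv, coeff_sub, lsw_coeff_X0, coeff_neg, coeff_C_mul] at h4
      have h5 : coeff (Finsupp.single (1 : Fin 2) (m + 2)) Q =
          coeff (Finsupp.single 1 (m + 1)) A := by linarith
      rw [show m + 1 + 1 = m + 2 from rfl, h5] at h4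
      have h6 : coeff (Finsupp.single (1 : Fin 2) (m + 1)) A * (lam + m + 2) = 0 := by
        push_cast at h4
        linear_combination h4
      have h7 : (0 : ℝ) < lam + m + 2 := by positivity
      rcases mul_eq_zero.1 h6 with h | h
      · exact hcoef h
      · exact h7.ne' h)
    have h3 : X 0 * -homk (m + 1) A = -(X 0 * homk (m + 1) A) := by ring
    have h4 : homk (m + 2) Q - X 1 * homk (m + 1) A =
        -(X 1 * homk (m + 1) A - homk (m + 2) Q) := by ring
    rw [h3, h4]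
    intro d hd1 hd2
    exact h2 ((dvd_neg).1 hd1) ((dvd_neg).1 hd2)
  · exact card_sw fun s hs => (hS s hs).1
  · -- independence
    intro w hw p' hp'
    obtain ⟨p, hp, rfl⟩ := Finset.mem_image.1 hp'
    have h1 := hind (fun p => w (sw p) * (p 0)⁻¹ ^ (m + 1)) (by
      intro f hf
      have h2 := hw (homk (m + 1) f) (deg_homk f hf)
      rw [Finset.sum_image (fun a ha b hb h => sw_inj (hS b hb).1 h)] at h2
      rw [← h2]
      refine Finset.sum_congr rfl fun s hs => ?_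
      rw [ev_sw (hS s hs).1 hf, mul_assoc]) p hp
    exact (mul_eq_zero.1 h1).resolve_right (pow_ne_zero _ (inv_ne_zero (hS p hp).1))
  · intro p' hp'
    obtain ⟨p, hp, rfl⟩ := Finset.mem_image.1 hp'
    obtain ⟨hx, hpA, hpQ, hj⟩ := hS p hp
    unfold sw
    obtain ⟨x, hxe⟩ : ∃ x, p 0 = x := ⟨_, rfl⟩
    obtain ⟨y, hye⟩ : ∃ y, p 1 = y := ⟨_, rfl⟩
    have hpe : p = ![x, y] := by
      ext i
      fin_cases i
      · exact hxe
      · exact hye
    rw [hxe] at hx
    rw [hxe, hye]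
    rw [hpe] at hpA hpQ hj
    have eA : eval ![x⁻¹, x⁻¹ * y] (homk (m + 1) A) = 0 := by
      rw [ev_homk hx y A hA, hpA, mul_zero]
    have eQ : eval ![x⁻¹, x⁻¹ * y] (homk (m + 2) Q) = 0 := by
      rw [ev_homk hx y Q hQ, hpQ, mul_zero]
    refine ⟨inv_ne_zero hx, by rw [map_neg, eA, neg_zero], by rw [map_sub, map_mul, eA, eQ]; ring,
      ?_⟩
    have a1 := ev_pderiv1 (k := m) hx y A hA
    have a0 := ev_pderiv0 (k := m) hx y A hA hpA
    have q1 := ev_pderiv1 (k := m + 1) hx y Q hQ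
    have q0 := ev_pderiv0 (k := m + 1) hx y Q hQ hpQ
    have hj' : jac (X 0 * -homk (m + 1) A) (homk (m + 2) Q - X 1 * homk (m + 1) A)
        ![x⁻¹, x⁻¹ * y] = x⁻¹ ^ (2 * (m + 1)) * jac (X 0 * A) Q ![x, y] := by
      simp only [jac, Derivation.leibniz, map_sub, map_neg, pderiv_X_self,
        pderiv_X_of_ne (show (1 : Fin 2) ≠ 0 by decide),
        pderiv_X_of_ne (show (0 : Fin 2) ≠ 1 by decide), smul_eq_mul, mul_zero, mul_one, add_zero,
        map_add, map_mul, eval_X, Matrix.cons_val_zero, Matrix.cons_val_one, eA, hpA, neg_zero]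
      rw [show m + 1 + 1 = m + 2 from rfl] at q1 q0
      linear_combination (-(eval ![x⁻¹, x⁻¹ * y]) (pderiv 1 (homk (m + 2) Q))) * a0 +
        (x⁻¹ ^ (m + 1) * (y * eval ![x, y] (pderiv 1 A) + x * eval ![x, y] (pderiv 0 A))) * q1 +
        (x⁻¹ * eval ![x⁻¹, x⁻¹ * y] (pderiv 0 (homk (m + 2) Q))) * a1 +
        (x⁻¹ ^ m * eval ![x, y] (pderiv 1 A)) * q0
    rw [hj']
    refine mul_nonneg ?_ hj
    rw [pow_mul]
    exact pow_nonneg (by positivity) _

end Pool.Agent.LogCentres
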