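import Pool.Agent.LogCentres.LiWt

/-!
# The functional top coefficient of `y^(n-1)`, for zeros with nonnegative Jacobian determinant
-/

namespace Pool.Agent.LogCentres

open MvPolynomial Pool.Agent.PlanarCentres

/-- the coefficient of `y^m` -/
noncomputable def cy (m : ℕ) : R →ₗ[ℝ] ℝ := MvPolynomial.lcoeff ℝ (Finsupp.single 1 m)

theorem cy_apply (m : ℕ) (f : R) : cy m f = coeff (Finsupp.single 1 m) f := rfl

theorem cy_low {m : ℕ} {f : R} (h : f.totalDegree < m) : cy m f = 0 := by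
  rw [cy_apply]
  apply coeff_eq_zero_of_totalDegree_lt
  have e : (∑ i ∈ (Finsupp.single (1 : Fin 2) m).support, (Finsupp.single (1 : Fin 2) m) i) = m :=
    Finsupp.sum_single_index (h := fun _ k => k) rfl
  rw [e]
  exact h

theorem cy_X0_mul (m : ℕ) (f : R) : cy m (X 0 * f) = 0 := by
  rw [cy_apply, coeff_X_mul', if_neg]
  simp

theorem cy_X1_mul (m : ℕ) (f : R) : cy (m + 1) (X 1 * f) = cy m f := by
  rw [cy_apply, cy_apply, coeff_X_mul', if_pos (by simp)]
  congr 1
  ext i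
  fin_cases i <;> simp

/-- (2) a functional which is the coefficient of `y^(n-1)` on the polynomials of degree at most
`n - 1`, applied to a kernel of joint degree at most `n - 1` -/
theorem app_cy {m : ℕ} {s : T} (hs : s ∈ Fil m) {φ : R →ₗ[ℝ] ℝ}
    (h : ∀ q : R, q.totalDegree ≤ m → φ q = cy m q) :
    app φ s = C (cy m (coeff 0 s)) := by
  induction hs using Submodule.span_induction with
  | mem s hs =>
    obtain ⟨a, b, hab, rfl⟩ := hs
    rw [app_ix_iu, h b (by omega)]
    have e1 : coeff 0 (ix a * iu b) = coeff 0 a • b := by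
      change coeff 0 (ix a * C b) = _
      rw [mul_comm, coeff_C_mul]
      change b * coeff 0 (MvPolynomial.map _ a) = _
      rw [coeff_map, MvPolynomial.smul_eq_C_mul, mul_comm]
      rfl
    rw [e1, map_smul, smul_eq_mul]
    by_cases h1 : b.totalDegree < m
    · rw [cy_low h1, zero_smul, mul_zero, map_zero]
    · have h2 : a.totalDegree = 0 := by omega
      rw [totalDegree_eq_zero_iff_eq_C] at h2
      rw [map_mul, mul_comm, ← MvPolynomial.smul_eq_C_mul]
      conv_lhs => rw [h2]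
  | zero => simp
  | add x y _ _ hx hy => rw [map_add, hx, hy, coeff_add, map_add, map_add]
  | smul c x _ hx =>
    rw [map_smul, hx]
    have : coeff 0 (c • x) = c • coeff 0 x := coeff_smul _ _ _
    rw [this, map_smul, smul_eq_mul, map_mul, MvPolynomial.smul_eq_C_mul]

/-- (1) a functional which kills the polynomials of degree at most `m` -/
theorem app_low' {m d : ℕ} {t : T} (ht : t ∈ Fil d) (hd : d ≤ m + 1 + m) {φ : R →ₗ[ℝ] ℝ}
    (h : ∀ q : R, q.totalDegree ≤ m → φ q = 0) : (app φ t).totalDegree ≤ m := by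
  induction ht using Submodule.span_induction with
  | mem s hs =>
    obtain ⟨a, b, hab, rfl⟩ := hs
    rw [app_ix_iu]
    by_cases h1 : b.totalDegree ≤ m
    · rw [h b h1, zero_smul, totalDegree_zero]
      omega
    · exact (totalDegree_smul_le _ _).trans (by omega)
  | zero =>
    rw [map_zero, totalDegree_zero]
    omega
  | add x y _ _ hx hy =>
    rw [map_add]
    exact (totalDegree_add _ _).trans (max_le hx hy)
  | smul c x _ hx =>
    rw [map_smul]
    exact (totalDegree_smul_le _ _).trans hx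

/-- the coefficient of the second kernel of `Q` -/
theorem cy_coeff_ker {Q : R} {C' D : T} (h : Ker Q C' D) {m : ℕ}
    (hQ : coeff (Finsupp.single 1 (m + 1)) Q = 0) : cy m (coeff 0 D) = 0 := by
  have h1 := congrArg (fun t : T => coeff 0 t) h
  have e1 : coeff 0 (ix Q) = C (coeff 0 Q) := by
    change coeff 0 (MvPolynomial.map _ Q) = _
    rw [coeff_map]
    rfl
  have e2 : coeff 0 (iu Q) = Q := by
    change coeff 0 (C Q) = Q
    rw [coeff_C, if_pos rfl]
  have e3 : ∀ (i : Fin 2) (t : T), coeff 0 (e i * t) = - (X i * coeff 0 t) := by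
    intro i t
    have e4 : e i = X i - C (X i) := by
      change MvPolynomial.map _ (X i) - C (X i) = _
      rw [map_X]
    rw [e4, sub_mul, coeff_sub, coeff_C_mul, coeff_X_mul', if_neg (by simp), zero_sub]
  simp only [coeff_sub, coeff_add] at h1
  rw [e1, e2, e3, e3] at h1
  have h2 := congrArg (cy (m + 1)) h1
  rw [map_sub, map_add, map_neg, map_neg, cy_X0_mul, cy_X1_mul, cy_apply (m + 1) Q, hQ,
    cy_low (f := C (coeff 0 Q)) (by rw [totalDegree_C]; omega)] at h2
  linarith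

/-- E, with `small_zero` as a hypothesis -/
theorem top_coef0' {A Q : R} {n : ℕ} (hn : 2 ≤ n) (hA : A.totalDegree ≤ n - 1)
    (hQ : Q.totalDegree ≤ n)
    (hcoefQ : coeff (Finsupp.single 1 n) Q = 0) (hcop : IsRelPrime (X 0 * A) Q)
    (S : Finset (Fin 2 → ℝ))
    (hS : ∀ p ∈ S, p 0 ≠ 0 ∧ eval p A = 0 ∧ eval p Q = 0 ∧ 0 ≤ jac (X 0 * A) Q p)
    (hsmall : ∀ F : R, F.totalDegree + 2 ≤ n → (∀ p ∈ S, eval p F = 0) → F = 0)
    (w : (Fin 2 → ℝ) → ℝ)
    (hw : ∀ f : R, f.totalDegree ≤ n - 1 →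
      ∑ p ∈ S, w p * eval p f = coeff (Finsupp.single 1 (n - 1)) f) : False := by
  classical
  obtain ⟨k, rfl⟩ : ∃ k, n = k + 2 := ⟨n - 2, by omega⟩
  have e0 : k + 2 - 1 = k + 1 := rfl
  rw [e0] at hA hw
  obtain ⟨al, be, hab⟩ := exists_dec hA
  obtain ⟨C', D, hCD⟩ := exists_dec (n := k + 1) hQ
  have h2 : Ker Q C' D := hCD.eq
  have h1 : Ker (X 0 * A) (ix A + iu (X 0) * al) (iu (X 0) * be) := by
    have h3 := hab.eq
    change ix (X 0 * A) - iu (X 0 * A) = e 0 * (ix A + iu (X 0) * al) + e 1 * (iu (X 0) * be)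
    rw [map_mul, map_mul]
    have h4 : e 0 = ix (X 0) - iu (X 0) := rfl
    have h5 : ix A = iu A + (e 0 * al + e 1 * be) := by rw [← h3]; ring
    rw [h5, h4]
    ring
  have hPS : ∀ p ∈ S, eval p (X 0 * A) = 0 := fun p hp => by
    rw [map_mul, (hS p hp).2.1, mul_zero]
  obtain ⟨om, hom⟩ : ∃ om : R →ₗ[ℝ] ℝ, om = ∑ p ∈ S, w p • ev p := ⟨_, rfl⟩
  have homa : ∀ f : R, om f = ∑ p ∈ S, w p * eval p f := by
    intro f
    rw [hom, LinearMap.sum_apply]
    rfl
  have hlow : ∀ q : R, q.totalDegree ≤ k + 1 → om q = cy (k + 1) q := by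
    intro q hq
    rw [homa, hw q hq, cy_apply]
  obtain ⟨t, ht⟩ : ∃ t, t = (ix A + iu (X 0) * al) * D - (iu (X 0) * be) * C' := ⟨_, rfl⟩
  obtain ⟨F, hF⟩ : ∃ F, F = app om t := ⟨_, rfl⟩
  have hFeq : F = app (tw om (X 0)) (al * D - be * C') := by
    have e1 : t = ix A * D + iu (X 0) * (al * D - be * C') := by rw [ht]; ring
    rw [hF, e1, map_add, app_ix_mul, app_iu_mul, app_cy hCD.memB hlow,
      cy_coeff_ker h2 hcoefQ, map_zero, mul_zero, zero_add]
  have hFd : F.totalDegree ≤ k := by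
    rw [hFeq]
    refine app_low' (m := k) (d := k + (k + 1))
      (sub_mem (Fil_mul hab.memA hCD.memB) (Fil_mul hab.memB hCD.memA)) (by omega) ?_
    intro q hq
    change om (X 0 * q) = 0
    rw [hlow _ ((totalDegree_mul _ _).trans (by rw [totalDegree_X]; omega)), cy_X0_mul]
  have hgood : ∀ q ∈ S, ∀ ψ : R →ₗ[ℝ] ℝ, Good (X 0 * A) Q q ψ →
      pair ψ om t = w q * pair ψ (ev q) t := by
    intro q hq ψ hψ
    rw [hom, pair_sum_r, Finset.sum_eq_single q]
    · intro p hp hpq
      rw [ht, good_orth h1 h2 (fun h => hpq h.symm) hψ (good_ev (hPS p hp) (hS p hp).2.2.1),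
        mul_zero]
    · intro h
      exact absurd hq h
  have hself : ∀ q, pair (ev q) (ev q) t = eval q (jacP (X 0 * A) Q) := by
    intro q
    rw [ht, pair_ev_self h1 h2]
  have hjac : ∀ p ∈ S, 0 ≤ eval p (jacP (X 0 * A) Q) := by
    intro p hp
    have h3 := (hS p hp).2.2.2
    rw [jac] at h3
    rw [jacP, map_sub, map_mul (eval p), map_mul (eval p)]
    exact h3
  have hpair0 : pair om om t = 0 := by
    change om (app om t) = 0
    rw [← hF, hlow F (by omega), cy_low (by omega)]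
  have hpair1 : pair om om t = ∑ p ∈ S, w p * (w p * eval p (jacP (X 0 * A) Q)) := by
    have e1 : pair om om t = ∑ p ∈ S, w p * pair (ev p) om t := by
      conv_lhs => rw [hom]
      rw [pair_sum_l]
      rw [← hom]
    rw [e1]
    refine Finset.sum_congr rfl fun p hp => ?_
    rw [hgood p hp _ (good_ev (hPS p hp) (hS p hp).2.2.1), hself]
  rw [hpair0] at hpair1
  have hz := (Finset.sum_eq_zero_iff_of_nonneg (fun p hp => by
      rw [← mul_assoc]
      exact mul_nonneg (mul_self_nonneg _) (hjac p hp))).1 hpair1.symm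
  have hFS : ∀ p ∈ S, eval p F = 0 := by
    intro p hp
    have h6 : eval p F = w p * eval p (jacP (X 0 * A) Q) := by
      have h7 : eval p F = pair (ev p) om t := by rw [hF]; rfl
      rw [h7, hgood p hp _ (good_ev (hPS p hp) (hS p hp).2.2.1), hself]
    rw [h6]
    rcases mul_eq_zero.1 (hz p hp) with h7 | h7
    · rw [h7, zero_mul]
    · exact h7
  have hF0 : app om t = 0 := by
    rw [← hF]
    exact hsmall F (by omega) hFS
  have hw0 : ∀ q ∈ S, w q = 0 := by
    intro q hq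
    obtain ⟨ψ, L, hψI, hψL, hψn, -⟩ := nondeg_fn hcop (hPS q hq) (hS q hq).2.2.1 h1 h2
    have h5 : pair ψ om t = 0 := by
      change ψ (app om t) = 0
      rw [hF0, map_zero]
    rw [hgood q hq ψ ⟨hψI, L, hψL⟩, ht] at h5
    exact (mul_eq_zero.1 h5).resolve_right hψn
  have h9 := hw (X 1 ^ (k + 1)) (totalDegree_X_pow_le 1 (k + 1))
  rw [Finset.sum_eq_zero (fun p hp => by rw [hw0 p hp, zero_mul]), X_pow_eq_monomial,
    coeff_monomial, if_pos rfl] at h9
  exact zero_ne_one h9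

/-- E -/
theorem top_coef0 {A Q : R} {n : ℕ} (hn : 2 ≤ n) (hA : A.totalDegree ≤ n - 1)
    (hQ : Q.totalDegree ≤ n) (_hcoef : coeff (Finsupp.single 1 (n - 1)) A = 0)
    (hcoefQ : coeff (Finsupp.single 1 n) Q = 0) (hcop : IsRelPrime (X 0 * A) Q)
    (S : Finset (Fin 2 → ℝ))
    (hS : ∀ p ∈ S, p 0 ≠ 0 ∧ eval p A = 0 ∧ eval p Q = 0 ∧ 0 ≤ jac (X 0 * A) Q p)
    (hind : Ind (n - 1) S) (hcard : S.card + 1 = n * (n + 1) / 2) (w : (Fin 2 → ℝ) → ℝ)
    (hw : ∀ f : R, f.totalDegree ≤ n - 1 →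
      ∑ p ∈ S, w p * eval p f = coeff (Finsupp.single 1 (n - 1)) f) : False :=
  top_coef0' hn hA hQ hcoefQ hcop S hS (fun _ h1 h2 => small_zero hn hind hcard h1 h2) w hw

end Pool.Agent.LogCentres
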