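import Pool.Agent.LogCentres.LiNeg
import Pool.Agent.LogCentres.LiSwap
import Pool.Agent.LogCentres.LiTop

/-!
# Zeros off an invariant line
-/

namespace Pool.Agent.LogCentres

open MvPolynomial Pool.Agent.PlanarCentres

theorem ind_or {P Q : R} {k : ℕ} (hcop : IsRelPrime P Q) (hP : P.totalDegree ≤ k + 1)
    (hQ : Q.totalDegree ≤ k + 1) (S : Finset (Fin 2 → ℝ))
    (hS : ∀ p ∈ S, eval p P = 0 ∧ eval p Q = 0 ∧ 0 ≤ eval p (jacP P Q)) :
    Ind k S ∨ S.card + 2 ≤ (k + 1) * (k + 2) / 2 := by
  classical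
  by_cases h2 : 2 ≤ Module.finrank ℝ (LinearMap.ker (evL k S))
  · exact Or.inr (count_main le_rfl hcop hP hQ S hS h2)
  · left
    have h3 := count_main (by omega) hcop hP hQ S hS
      (le_refl (Module.finrank ℝ (LinearMap.ker (evL k S))))
    have hr1 := LinearMap.finrank_range_add_finrank_ker (evL k S)
    rw [finrank_deg] at hr1
    have hr2 : Module.finrank ℝ (S → ℝ) = S.card := by
      rw [Module.finrank_fintype_fun_eq_card, Fintype.card_coe]
    have hr3 := Submodule.finrank_le (LinearMap.range (evL k S))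
    rw [hr2] at hr3
    have htop : LinearMap.range (evL k S) = ⊤ := by
      apply Submodule.eq_top_of_finrank_eq
      rw [hr2]
      omega
    intro w hw p hp
    obtain ⟨f, hf⟩ : ∃ f, evL k S f = fun q => w q.1 := by
      have : (fun q : S => w q.1) ∈ LinearMap.range (evL k S) := by
        rw [htop]
        exact Submodule.mem_top
      exact this
    have h4 := hw f.1 ((mem_restrictTotalDegree _ _ _).mp f.2)
    have h5 : ∀ q ∈ S, eval q f.1 = w q := fun q hq => congrFun hf ⟨q, hq⟩
    have h6 : ∑ q ∈ S, w q * w q = 0 := by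
      rw [← h4]
      exact Finset.sum_congr rfl fun q hq => by rw [h5 q hq]
    have h7 := (Finset.sum_eq_zero_iff_of_nonneg (fun q _ => mul_self_nonneg (w q))).1 h6 p hp
    exact mul_self_eq_zero.1 h7

theorem eval_jacP (P Q : R) (p : Fin 2 → ℝ) : eval p (jacP P Q) = jac P Q p := by
  rw [jacP, map_sub, map_mul, map_mul, jac]

theorem line_main0 {A Q : R} {n : ℕ} (hn : 3 ≤ n)
    (hA : A.totalDegree ≤ n - 1) (hQ : Q.totalDegree ≤ n) (hcop : IsRelPrime (X 0 * A) Q)
    (S : Finset (Fin 2 → ℝ))
    (hS : ∀ p ∈ S, p 0 ≠ 0 ∧ eval p (X 0 * A) = 0 ∧ eval p Q = 0 ∧ 0 ≤ jac (X 0 * A) Q p ∧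
      eval p (pderiv 0 (X 0 * A) + pderiv 1 Q) = 0) :
    S.card + 2 ≤ n * (n + 1) / 2 := by
  classical
  have hn1 : 1 ≤ n := by omega
  have hbig : 6 ≤ n * (n + 1) / 2 := by
    have : 3 * (3 + 1) ≤ n * (n + 1) := Nat.mul_le_mul hn (by omega)
    omega
  have hP : (X 0 * A : R).totalDegree ≤ n := by
    refine (totalDegree_mul _ _).trans ?_
    rw [totalDegree_X]
    omega
  have hSA : ∀ p ∈ S, p 0 ≠ 0 ∧ eval p A = 0 ∧ eval p Q = 0 ∧ 0 ≤ jac (X 0 * A) Q p := by
    intro p hp
    obtain ⟨h1, h2, h3, h4, -⟩ := hS p hp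
    rw [map_mul, eval_X] at h2
    exact ⟨h1, (mul_eq_zero.mp h2).resolve_left h1, h3, h4⟩
  have hor : Ind (n - 1) S ∨ S.card + 2 ≤ n * (n + 1) / 2 := by
    obtain ⟨k, rfl⟩ : ∃ k, n = k + 1 := ⟨n - 1, by omega⟩
    refine ind_or hcop hP hQ S fun p hp => ?_
    obtain ⟨-, h2, h3, h4, -⟩ := hS p hp
    refine ⟨h2, h3, ?_⟩
    rw [eval_jacP]
    exact h4
  rcases hor with hind | h
  swap
  · exact h
  by_cases hA0 : A = 0
  · have hempty : S = ∅ := by
      apply Finset.eq_empty_of_forall_notMem
      intro p hp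
      have h1 : IsUnit Q := by
        apply hcop _ dvd_rfl
        rw [hA0, mul_zero]
        exact dvd_zero _
      have h2 := h1.map (eval p)
      rw [(hS p hp).2.2.1] at h2
      exact not_isUnit_zero h2
    rw [hempty, Finset.card_empty]
    omega
  obtain ⟨D, hD⟩ : ∃ D : R, D = pderiv 0 (X 0 * A) + pderiv 1 Q := ⟨_, rfl⟩
  by_cases hli : LinearIndependent ℝ ![A, D]
  · refine ind_count hn1 hind ![A, D] hli ?_ ?_
    · intro i
      fin_cases i
      · exact hA
      · change D.totalDegree ≤ n - 1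
        rw [hD]
        exact divergence_degree hP hQ
    · intro i p hp
      fin_cases i
      · exact (hSA p hp).2.1
      · change eval p D = 0
        rw [hD]
        exact (hS p hp).2.2.2.2
  · rw [LinearIndependent.pair_iff' hA0] at hli
    push Not at hli
    obtain ⟨c, hc⟩ := hli
    have hrel : pderiv 1 Q = -(C (1 - c) * A) - X 0 * pderiv 0 A := by
      have h1 : pderiv 0 (X 0 * A) = X 0 * pderiv 0 A + A := by
        rw [Derivation.leibniz, pderiv_X_self, smul_eq_mul, smul_eq_mul, mul_one]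
      have h2 : c • A = X 0 * pderiv 0 A + A + pderiv 1 Q := by rw [hc, hD, h1]
      rw [smul_eq_C_mul] at h2
      rw [map_sub, map_one]
      linear_combination -h2
    by_contra hcon
    have h1 : S.card + 1 ≤ n * (n + 1) / 2 := by
      refine ind_count hn1 hind ![A] ?_ ?_ ?_
      · rw [linearIndependent_unique_iff]
        simpa using hA0
      · intro i
        fin_cases i
        exact hA
      · intro i p hp
        fin_cases i
        exact (hSA p hp).2.1
    have hcard : S.card + 1 = n * (n + 1) / 2 := by omega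
    by_cases hcoef : coeff (Finsupp.single 1 (n - 1)) A = 0
    · obtain ⟨w, hw⟩ := exists_weight0 hn1 hind hA0 hA (fun p hp => (hSA p hp).2.1) hcard
        (lcoeff ℝ (Finsupp.single 1 (n - 1))) (by simpa using hcoef)
      refine top_coef0 (by omega) hA hQ hcoef ?_ hcop S hSA hind hcard w (fun f hf => by
        rw [hw f hf]; rfl)
      have h2 := congrArg Polynomial.derivative (rfl : ln Q = ln Q)
      have h3 : Polynomial.derivative (ln Q) = -(Polynomial.C (1 - c) * ln A) := by
        rw [ln_derivative, hrel]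
        simp [ln]
      have h4 := congrArg (fun q => Polynomial.coeff q (n - 1)) h3
      simp only [Polynomial.coeff_derivative, Polynomial.coeff_neg, Polynomial.coeff_C_mul] at h4
      rw [ln_coeff, ln_coeff, hcoef, mul_zero, neg_zero, show n - 1 + 1 = n by omega] at h4
      rcases mul_eq_zero.1 h4 with h5 | h5
      · exact h5
      · exfalso
        have h6 : (0 : ℝ) ≤ ((n - 1 : ℕ) : ℝ) := Nat.cast_nonneg _
        linarith
    · by_cases hlam : 1 - c < 0
      · exact line_neg0 hn (1 - c) hlam hA hQ hrel hcoef hcop S hSA hind hcard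
      · obtain ⟨A', Q', S', hA', hQ', hrel', hcoef', hcop', hcard', hind', hS'⟩ :=
          proj_swap0 (by omega) (1 - c) (not_lt.1 hlam) hA hQ hrel hcoef hcop S hSA hind
        refine line_neg0 hn (-(1 - c + n)) ?_ hA' hQ' hrel' hcoef' hcop' S' hS' hind'
          (by rw [hcard']; exact hcard)
        have : (0 : ℝ) < n := by exact_mod_cast (show 0 < n by omega)
        linarith [not_lt.mp hlam]

end Pool.Agent.LogCentres
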