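import Pool.Agent.LogCentres.LiDef

/-!
# Weights for independent evaluations
-/

namespace Pool.Agent.LogCentres

open MvPolynomial Pool.Agent.PlanarCentres

theorem ind_range {k : ℕ} {S : Finset (Fin 2 → ℝ)} (hind : Ind k S) :
    LinearMap.range (evL k S) = ⊤ := by
  classical
  by_contra hne
  obtain ⟨φ, hφ, hle⟩ := Submodule.exists_le_ker_of_lt_top _ (lt_top_iff_ne_top.mpr hne)
  have hφs : ∀ g : S → ℝ, φ g = ∑ p : S, g p * φ (Pi.single p 1) := by
    intro g
    conv_lhs => rw [LinearMap.pi_apply_eq_sum_univ φ g]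
    apply Finset.sum_congr rfl
    intro p _
    rw [smul_eq_mul]
    congr 2
    funext q
    simp [Pi.single_apply, eq_comm]
  have hz := hind (fun p => if hp : p ∈ S then φ (Pi.single ⟨p, hp⟩ 1) else 0) (by
    intro f hf
    have hfm : f ∈ restrictTotalDegree (Fin 2) ℝ k := (mem_restrictTotalDegree _ _ _).mpr hf
    have h1 : φ (evL k S ⟨f, hfm⟩) = 0 := hle (LinearMap.mem_range_self _ _)
    rw [hφs] at h1
    rw [← h1, ← Finset.sum_attach]
    apply Finset.sum_congr rfl
    intro p _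
    simp only [Finset.coe_mem, dif_pos, Subtype.coe_eta, evL, LinearMap.coe_mk, AddHom.coe_mk]
    ring)
  apply hφ
  apply LinearMap.ext
  intro g
  rw [hφs, LinearMap.zero_apply]
  apply Finset.sum_eq_zero
  intro p _
  have h3 := hz p.1 p.2
  simp only [Finset.coe_mem, dif_pos, Subtype.coe_eta] at h3
  rw [h3, mul_zero]

theorem ind_rank {n : ℕ} (hn : 1 ≤ n) {S : Finset (Fin 2 → ℝ)} (hind : Ind (n - 1) S) :
    S.card + Module.finrank ℝ (LinearMap.ker (evL (n - 1) S)) = n * (n + 1) / 2 := by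
  have hrn := LinearMap.finrank_range_add_finrank_ker (evL (n - 1) S)
  rw [ind_range hind, finrank_top, finrank_deg, Module.finrank_fintype_fun_eq_card,
    Fintype.card_coe] at hrn
  have e1 : n - 1 + 1 = n := by omega
  have e2 : n - 1 + 2 = n + 1 := by omega
  rw [e1, e2] at hrn
  exact hrn

theorem ind_count {n k : ℕ} (hn : 1 ≤ n) {S : Finset (Fin 2 → ℝ)} (hind : Ind (n - 1) S)
    (K : Fin k → R) (hK : LinearIndependent ℝ K) (hKd : ∀ i, (K i).totalDegree ≤ n - 1)
    (hKS : ∀ i, ∀ p ∈ S, eval p (K i) = 0) : S.card + k ≤ n * (n + 1) / 2 := by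
  classical
  have hrn := ind_rank hn hind
  let K' : Fin k → LinearMap.ker (evL (n - 1) S) := fun i =>
    ⟨⟨K i, (mem_restrictTotalDegree _ _ _).mpr (hKd i)⟩, by
      rw [LinearMap.mem_ker]
      funext p
      exact hKS i p.1 p.2⟩
  have hK' : LinearIndependent ℝ K' := by
    let L : LinearMap.ker (evL (n - 1) S) →ₗ[ℝ] MvPolynomial (Fin 2) ℝ :=
      (restrictTotalDegree (Fin 2) ℝ (n - 1)).subtype ∘ₗ (LinearMap.ker (evL (n - 1) S)).subtype
    exact LinearIndependent.of_comp L hK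
  have := hK'.fintype_card_le_finrank
  rw [Fintype.card_fin] at this
  omega

theorem small_zero {n : ℕ} (hn : 2 ≤ n) {S : Finset (Fin 2 → ℝ)} (hind : Ind (n - 1) S)
    (hcard : S.card + 1 = n * (n + 1) / 2) {F : R} (hF : F.totalDegree + 2 ≤ n)
    (hFS : ∀ p ∈ S, eval p F = 0) : F = 0 := by
  by_contra hF0
  have hli : LinearIndependent ℝ ![F, F * X 0] := by
    rw [LinearIndependent.pair_iff' hF0]
    intro c hc
    have h1 := congrArg (degreeOf (0 : Fin 2)) hc
    rw [(degreeOf_mul_X_eq_degreeOf_add_one_iff 0 F).2 hF0] at h1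
    have h2 : degreeOf 0 (c • F) ≤ degreeOf 0 F := by
      rw [smul_eq_C_mul]
      exact degreeOf_C_mul_le F 0 c
    omega
  have h1 := ind_count (by omega : 1 ≤ n) hind ![F, F * X 0] hli (by
    intro i
    fin_cases i
    · change F.totalDegree ≤ n - 1
      omega
    · change (F * X 0).totalDegree ≤ n - 1
      refine (totalDegree_mul _ _).trans ?_
      rw [totalDegree_X]
      omega) (by
    intro i p hp
    fin_cases i
    · exact hFS p hp
    · change eval p (F * X 0) = 0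
      rw [map_mul, hFS p hp, zero_mul])
  omega

theorem exists_weight0 {A : R} {n : ℕ} (hn : 1 ≤ n) {S : Finset (Fin 2 → ℝ)}
    (hind : Ind (n - 1) S) (hA0 : A ≠ 0) (hA : A.totalDegree ≤ n - 1)
    (hAS : ∀ p ∈ S, eval p A = 0) (hcard : S.card + 1 = n * (n + 1) / 2) (v : R →ₗ[ℝ] ℝ)
    (hv : v A = 0) :
    ∃ w : (Fin 2 → ℝ) → ℝ, ∀ f : R, f.totalDegree ≤ n - 1 →
      ∑ p ∈ S, w p * eval p f = v f := by
  classical
  have hrn := ind_rank hn hind
  have hsurj := ind_range hind
  have hk1 : Module.finrank ℝ (LinearMap.ker (evL (n - 1) S)) = 1 := by omega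
  let A' : LinearMap.ker (evL (n - 1) S) :=
    ⟨⟨A, (mem_restrictTotalDegree _ _ _).mpr hA⟩, by
      rw [LinearMap.mem_ker]
      funext p
      exact hAS p.1 p.2⟩
  have hA'0 : A' ≠ 0 := by
    intro h
    exact hA0 (congrArg (fun z => z.1.1) h)
  have hall := (finrank_eq_one_iff_of_nonzero' A' hA'0).mp hk1
  obtain ⟨g, hg⟩ := LinearMap.exists_rightInverse_of_surjective (evL (n - 1) S) hsurj
  let v' : restrictTotalDegree (Fin 2) ℝ (n - 1) →ₗ[ℝ] ℝ :=
    v ∘ₗ (restrictTotalDegree (Fin 2) ℝ (n - 1)).subtype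
  let φ : (S → ℝ) →ₗ[ℝ] ℝ := v' ∘ₗ g
  have hφ : ∀ f, φ (evL (n - 1) S f) = v' f := by
    intro f
    have h1 : f - g (evL (n - 1) S f) ∈ LinearMap.ker (evL (n - 1) S) := by
      rw [LinearMap.mem_ker, map_sub]
      have := congrArg (fun L => L (evL (n - 1) S f)) hg
      simp only [LinearMap.comp_apply, LinearMap.id_apply] at this
      rw [this, sub_self]
    obtain ⟨c, hc⟩ := hall ⟨_, h1⟩
    have h2 : v' (f - g (evL (n - 1) S f)) = 0 := by
      have h3 : f - g (evL (n - 1) S f) = c • A'.1 := (congrArg (fun z => z.1) hc).symm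
      rw [h3, map_smul]
      have : v' A'.1 = v A := rfl
      rw [this, hv, smul_zero]
    rw [map_sub, sub_eq_zero] at h2
    exact h2.symm
  have hφs : ∀ g : S → ℝ, φ g = ∑ p : S, g p * φ (Pi.single p 1) := by
    intro g
    conv_lhs => rw [LinearMap.pi_apply_eq_sum_univ φ g]
    apply Finset.sum_congr rfl
    intro p _
    rw [smul_eq_mul]
    congr 2
    funext q
    simp [Pi.single_apply, eq_comm]
  refine ⟨fun p => if hp : p ∈ S then φ (Pi.single ⟨p, hp⟩ 1) else 0, ?_⟩
  intro f hf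
  have hfm : f ∈ restrictTotalDegree (Fin 2) ℝ (n - 1) := (mem_restrictTotalDegree _ _ _).mpr hf
  have h1 : φ (evL (n - 1) S ⟨f, hfm⟩) = v f := hφ ⟨f, hfm⟩
  rw [hφs] at h1
  rw [← h1, ← Finset.sum_attach]
  apply Finset.sum_congr rfl
  intro p _
  simp only [Finset.coe_mem, dif_pos, Subtype.coe_eta, evL, LinearMap.coe_mk, AddHom.coe_mk]
  ring

end Pool.Agent.LogCentres
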