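import Pool.Agent.LogCentres.LiDef
import Pool.Agent.LogCentres.LiWt

/-!
# Weights at degenerate zeros off an invariant line vanish
-/

namespace Pool.Agent.LogCentres

open MvPolynomial Pool.Agent.PlanarCentres

theorem weight_zero {P Q : R} {n : ℕ} (hn : 2 ≤ n) (hcop : IsRelPrime P Q)
    (hP : P.totalDegree ≤ n) (hQ : Q.totalDegree ≤ n) {S : Finset (Fin 2 → ℝ)}
    (hind : Ind (n - 1) S) (hcard : S.card + 1 = n * (n + 1) / 2)
    (hS : ∀ p ∈ S, p 0 ≠ 0 ∧ eval p P = 0 ∧ eval p Q = 0) (v : R →ₗ[ℝ] ℝ)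
    (hvP : ∀ f, v (P * f) = 0) (hvQ : ∀ f, v (Q * f) = 0) (hvX : ∀ f, v (X 0 * f) = 0)
    (w : (Fin 2 → ℝ) → ℝ)
    (hw : ∀ f : R, f.totalDegree ≤ n - 1 → ∑ p ∈ S, w p * eval p f = v f)
    (hwj : ∀ p ∈ S, w p * jac P Q p = 0) : ∀ p ∈ S, w p = 0 := by
  classical
  obtain ⟨k, rfl⟩ : ∃ k, n = k + 1 := ⟨n - 1, by omega⟩
  rw [Nat.add_sub_cancel] at hind hw
  obtain ⟨A, B, hAB⟩ := exists_dec hP
  obtain ⟨C', D, hCD⟩ := exists_dec hQ
  have h1 : Ker P A B := hAB.eq
  have h2 : Ker Q C' D := hCD.eq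
  obtain ⟨t, htd⟩ : ∃ t, t = A * D - B * C' := ⟨_, rfl⟩
  have ht : t ∈ Fil (k + k) := by
    rw [htd]
    exact sub_mem (Fil_mul hAB.memA hCD.memB) (Fil_mul hAB.memB hCD.memA)
  obtain ⟨om, hom⟩ : ∃ om : R →ₗ[ℝ] ℝ, om = (∑ p : {x // x ∈ S}, w p.1 • ev p.1) + (-1 : ℝ) • v :=
    ⟨_, rfl⟩
  have hkill : ∀ q : R, q.totalDegree ≤ k → om q = 0 := by
    intro q hq
    have h3 := hw q hq
    rw [← Finset.sum_coe_sort S (fun p => w p * eval p q)] at h3
    rw [hom, LinearMap.add_apply, LinearMap.sum_apply, LinearMap.smul_apply, smul_eq_mul]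
    have h4 : ∑ p : {x // x ∈ S}, (w p.1 • ev p.1) q = ∑ p : {x // x ∈ S}, w p.1 * eval p.1 q := by
      refine Finset.sum_congr rfl fun p _ => ?_
      rw [LinearMap.smul_apply, smul_eq_mul, ev_apply]
    rw [h4, h3]
    ring
  -- the pairing with a functional at a point of `S`
  have hpair : ∀ (q : {x // x ∈ S}) (ψ : R →ₗ[ℝ] ℝ), Good P Q q.1 ψ →
      pair ψ om t = w q.1 * pair ψ (ev q.1) t := by
    intro q ψ hψ
    have hv : pair ψ v t = 0 := by
      obtain ⟨hψI, L, hψL⟩ := hψ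
      rw [htd]
      refine (orth h1 h2 (p := q.1) (L := L) (φ := ψ) (ψ := v)
        (I := Ideal.span {P, Q} ⊔ Ideal.span {X 0}) hψI hψL ?_
        (Ideal.mem_sup_left (Ideal.subset_span (by simp)))
        (Ideal.mem_sup_left (Ideal.subset_span (by simp))) (g := X 0)
        (Ideal.mem_sup_right (Ideal.subset_span (by simp))) ?_).1
      · intro r hr
        obtain ⟨a, ha, b, hb, rfl⟩ := Submodule.mem_sup.1 hr
        obtain ⟨a1, a2, rfl⟩ := Ideal.mem_span_pair.1 ha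
        obtain ⟨b1, rfl⟩ := Ideal.mem_span_singleton'.1 hb
        rw [map_add, map_add, mul_comm a1 P, mul_comm a2 Q, mul_comm b1 (X 0), hvP, hvQ, hvX]
        ring
      · rw [eval_X]
        exact (hS q.1 q.2).1
    rw [hom, pair_add_r, pair_smul_r, hv, mul_zero, add_zero, pair_sum_r, Finset.sum_eq_single q]
    · intro p _ hpq
      rw [htd, good_orth h1 h2 (fun h => hpq (Subtype.ext h).symm) hψ
        (good_ev (hS p.1 p.2).2.1 (hS p.1 p.2).2.2), mul_zero]
    · intro h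
      exact absurd (Finset.mem_univ q) h
  have hF0 : app om t = 0 := by
    refine small_zero (n := k + 1) hn (by rw [Nat.add_sub_cancel]; exact hind) hcard ?_ ?_
    · have h3 := app_low ht hkill
      omega
    · intro q hq
      have h3 := hpair ⟨q, hq⟩ (ev q) (good_ev (hS q hq).2.1 (hS q hq).2.2)
      have h4 : pair (ev q) om t = eval q (app om t) := by
        change ev q (app om t) = _
        rw [ev_apply]
      have h5 : pair (ev q) (ev q) t = jac P Q q := by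
        rw [htd, pair_ev_self h1 h2, jacP, jac, map_sub, map_mul, map_mul]
      rw [← h4, h3]
      change w q * pair (ev q) (ev q) t = 0
      rw [h5]
      exact hwj q hq
  intro q hq
  obtain ⟨ψ, L, hψI, hψL, hψn, -⟩ := nondeg_fn hcop (hS q hq).2.1 (hS q hq).2.2 h1 h2
  have h3 := hpair ⟨q, hq⟩ ψ ⟨hψI, L, hψL⟩
  have h4 : pair ψ om t = 0 := by
    change ψ (app om t) = 0
    rw [hF0, map_zero]
  rw [h4, htd] at h3
  exact (mul_eq_zero.1 h3.symm).resolve_right hψn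

end Pool.Agent.LogCentres
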