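import Pool.Agent.LogCentres.LiWt
import Pool.Agent.LogCentres.LiNd

/-!
# The argument on an invariant line, degenerate centres included: the case of a negative ratio
-/

namespace Pool.Agent.LogCentres

open MvPolynomial Finset Pool.Agent.PlanarCentres

/-- On an invariant line with `λ < 0` there is no maximal set of centres, degenerate centres
included. -/
theorem line_neg0 {A Q : R} {n : ℕ} (hn : 3 ≤ n) (lam : ℝ) (hlam : lam < 0)
    (hA : A.totalDegree ≤ n - 1) (hQ : Q.totalDegree ≤ n)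
    (hrel : pderiv 1 Q = -(C lam * A) - X 0 * pderiv 0 A)
    (hcoef : coeff (Finsupp.single 1 (n - 1)) A ≠ 0) (hcop : IsRelPrime (X 0 * A) Q)
    (S : Finset (Fin 2 → ℝ))
    (hS : ∀ p ∈ S, p 0 ≠ 0 ∧ eval p A = 0 ∧ eval p Q = 0 ∧ 0 ≤ jac (X 0 * A) Q p)
    (hind : Ind (n - 1) S) (hcard : S.card + 1 = n * (n + 1) / 2) : False := by
  classical
  have hn1 : 1 ≤ n := by omega
  have hP : (X 0 * A : R).totalDegree ≤ n := by
    refine (totalDegree_mul _ _).trans ?_
    rw [totalDegree_X]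
    omega
  have hS3 : ∀ p ∈ S, p 0 ≠ 0 ∧ eval p A = 0 ∧ eval p Q = 0 := fun p hp =>
    ⟨(hS p hp).1, (hS p hp).2.1, (hS p hp).2.2.1⟩
  have hA0 : A ≠ 0 := by
    rintro rfl
    exact hcoef (coeff_zero _)
  have hAS : ∀ p ∈ S, eval p A = 0 := fun p hp => (hS p hp).2.1
  -- the polynomial on the line
  have hder : Polynomial.derivative (ln Q) = -(Polynomial.C lam * ln A) := by
    rw [ln_derivative, hrel]
    simp [ln]
  have hqn : 3 ≤ (ln Q).natDegree := by
    have h1 : (Polynomial.derivative (ln Q)).coeff (n - 1) ≠ 0 := by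
      rw [hder, Polynomial.coeff_neg, Polynomial.coeff_C_mul, ln_coeff]
      exact neg_ne_zero.mpr (mul_ne_zero hlam.ne hcoef)
    rw [Polynomial.coeff_derivative] at h1
    have h2 : (ln Q).coeff (n - 1 + 1) ≠ 0 := left_ne_zero_of_mul h1
    have h3 := Polynomial.le_natDegree_of_ne_zero h2
    omega
  have hQz : ∀ z : ℂ, Polynomial.aeval z (ln Q) = 0 → aeval (lpt z) Q = 0 := fun z hz => by
    rw [aeval_lpt, hz]
  have hconjf : ∀ (z : ℂ) (f : R),
      aeval (lpt ((starRingEnd ℂ) z)) f = (starRingEnd ℂ) (aeval (lpt z) f) := by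
    intro z f
    rw [aeval_lpt, aeval_lpt, Polynomial.aeval_conj]
  have hder' : ∀ z : ℂ, Polynomial.aeval z (Polynomial.derivative (ln Q)) =
      -((lam : ℂ) * aeval (lpt z) A) := by
    intro z
    rw [hder, aeval_lpt]
    simp
  have hlam' : (lam : ℂ) ≠ 0 := by exact_mod_cast hlam.ne
  by_cases hmul : ∃ z : ℂ, Polynomial.aeval z (ln Q) = 0 ∧
      Polynomial.aeval z (Polynomial.derivative (ln Q)) = 0
  · obtain ⟨z, hz0, hz1⟩ := hmul
    have hαz : aeval (lpt z) A = 0 := by
      rw [hder'] at hz1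
      exact (mul_eq_zero.mp (neg_eq_zero.mp hz1)).resolve_left hlam'
    let v : R →ₗ[ℝ] ℝ := Complex.reLm ∘ₗ (aeval (lpt z)).toLinearMap
    have hvf : ∀ f, v f = (aeval (lpt z) f).re := fun f => rfl
    obtain ⟨w, hw⟩ := exists_weight0 hn1 hind hA0 hA hAS hcard v (by
      rw [hvf, hαz, Complex.zero_re])
    set cz : ℂ := (starRingEnd ℂ) z with hcz
    have hsum : ∀ g : ℂ → ℂ, ∑ y ∈ ({z, cz} : Finset ℂ),
        (((if y = z then (1 / 2 : ℂ) else 0) + (if y = cz then (1 / 2 : ℂ) else 0)) * g y) =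
        (g z + g cz) / 2 := by
      intro g
      have h1 : ∀ y ∈ ({z, cz} : Finset ℂ),
          (((if y = z then (1 / 2 : ℂ) else 0) + (if y = cz then (1 / 2 : ℂ) else 0)) * g y) =
          (if y = z then g y / 2 else 0) + (if y = cz then g y / 2 else 0) := by
        intro y _
        split_ifs <;> ring
      rw [Finset.sum_congr rfl h1, Finset.sum_add_distrib, Finset.sum_ite_eq', Finset.sum_ite_eq',
        if_pos (by simp), if_pos (by simp)]
      ring
    have hquad := line_quad hn1 lam hA hQ hrel S hS3 w {z, cz} (by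
      intro y hy
      rw [mem_insert, mem_singleton] at hy
      rcases hy with rfl | rfl
      · exact hQz _ hz0
      · rw [hconjf, hQz _ hz0, map_zero])
      (fun y => (if y = z then (1 / 2 : ℂ) else 0) + (if y = cz then (1 / 2 : ℂ) else 0)) (by
      intro f hf
      rw [hw f hf, hsum (fun y => aeval (lpt y) f), hvf, hconjf, Complex.add_conj]
      push_cast
      ring)
    have hz' : ∑ y ∈ ({z, cz} : Finset ℂ),
        (((if y = z then (1 / 2 : ℂ) else 0) + (if y = cz then (1 / 2 : ℂ) else 0)) *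
          aeval (lpt y) A) ^ 2 = 0 := by
      apply Finset.sum_eq_zero
      intro y hy
      rw [mem_insert, mem_singleton] at hy
      have : aeval (lpt y) A = 0 := by
        rcases hy with rfl | rfl
        · exact hαz
        · rw [hconjf, hαz, map_zero]
      rw [this, mul_zero]
      ring
    rw [hz', mul_zero, sub_zero] at hquad
    have hreal : ∑ p ∈ S, w p ^ 2 * jac (X 0 * A) Q p = 0 := by exact_mod_cast hquad
    rw [Finset.sum_eq_zero_iff_of_nonneg
      (fun p hp => mul_nonneg (sq_nonneg _) (hS p hp).2.2.2)] at hreal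
    have hwj : ∀ p ∈ S, w p * jac (X 0 * A) Q p = 0 := by
      intro p hp
      rcases mul_eq_zero.mp (hreal p hp) with h3 | h3
      · rw [(pow_eq_zero_iff (two_ne_zero)).mp h3, zero_mul]
      · rw [h3, mul_zero]
    have hX0 : aeval (lpt z) (X 0 : R) = 0 := by
      rw [aeval_X]
      simp [lpt]
    have hw0 : ∀ p ∈ S, w p = 0 :=
      weight_zero (by omega) hcop hP hQ hind hcard
        (fun p hp => ⟨(hS p hp).1, by rw [map_mul, (hS p hp).2.1, mul_zero], (hS p hp).2.2.1⟩) v
        (fun f => by rw [hvf, map_mul, map_mul, hX0, zero_mul, zero_mul, Complex.zero_re])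
        (fun f => by rw [hvf, map_mul, hQz _ hz0, zero_mul, Complex.zero_re])
        (fun f => by rw [hvf, map_mul, hX0, zero_mul, Complex.zero_re]) w hw hwj
    have h1 := hw 1 (by rw [totalDegree_one]; exact Nat.zero_le _)
    rw [Finset.sum_eq_zero (fun p hp => by rw [hw0 p hp, zero_mul]), hvf, map_one,
      Complex.one_re] at h1
    exact zero_ne_one h1
  · obtain ⟨z1, z2, hz1, hz2, h21, h21c⟩ := (root_choice (ln Q) hqn).resolve_left hmul
    have hα : ∀ z : ℂ, Polynomial.aeval z (ln Q) = 0 → aeval (lpt z) A ≠ 0 := by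
      intro z hz h0
      apply hmul
      refine ⟨z, hz, ?_⟩
      rw [hder', h0, mul_zero, neg_zero]
    set α1 : ℂ := aeval (lpt z1) A with hα1
    set α2 : ℂ := aeval (lpt z2) A with hα2
    have hα1n : α1 ≠ 0 := hα z1 hz1
    have hα2n : α2 ≠ 0 := hα z2 hz2
    let v : R →ₗ[ℝ] ℝ :=
      Complex.reLm ∘ₗ ((LinearMap.mulLeft ℝ (α1⁻¹)) ∘ₗ (aeval (lpt z1)).toLinearMap -
        (LinearMap.mulLeft ℝ (α2⁻¹)) ∘ₗ (aeval (lpt z2)).toLinearMap)
    have hvf : ∀ f, v f = (α1⁻¹ * aeval (lpt z1) f - α2⁻¹ * aeval (lpt z2) f).re := fun f => rfl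
    obtain ⟨w, hw⟩ := exists_weight0 hn1 hind hA0 hA hAS hcard v (by
      rw [hvf, ← hα1, ← hα2, inv_mul_cancel₀ hα1n, inv_mul_cancel₀ hα2n, sub_self,
        Complex.zero_re])
    set c1 : ℂ := (starRingEnd ℂ) z1 with hc1
    set c2 : ℂ := (starRingEnd ℂ) z2 with hc2
    let er : ℂ → ℝ := fun y => ((if y = z1 then 1 else 0) + (if y = c1 then 1 else 0) -
      (if y = z2 then 1 else 0) - (if y = c2 then 1 else 0)) / 2
    let Zl : Finset ℂ := {z1, c1, z2, c2}
    have hZroot : ∀ z ∈ Zl, aeval (lpt z) Q = 0 ∧ aeval (lpt z) A ≠ 0 := by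
      intro z hz
      have hz' : z = z1 ∨ z = c1 ∨ z = z2 ∨ z = c2 := by
        simpa [Zl] using hz
      rcases hz' with rfl | rfl | rfl | rfl
      · exact ⟨hQz _ hz1, hα1n⟩
      · refine ⟨by rw [hconjf, hQz _ hz1, map_zero], ?_⟩
        rw [hconjf]
        exact (map_ne_zero _).mpr hα1n
      · exact ⟨hQz _ hz2, hα2n⟩
      · refine ⟨by rw [hconjf, hQz _ hz2, map_zero], ?_⟩
        rw [hconjf]
        exact (map_ne_zero _).mpr hα2n
    have hsum : ∀ g : ℂ → ℂ, ∑ y ∈ Zl, ((er y : ℝ) : ℂ) * g y =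
        (g z1 + g c1 - g z2 - g c2) / 2 := by
      intro g
      have h1 : ∀ y ∈ Zl, ((er y : ℝ) : ℂ) * g y =
          (if y = z1 then g y / 2 else 0) + (if y = c1 then g y / 2 else 0) -
          (if y = z2 then g y / 2 else 0) - (if y = c2 then g y / 2 else 0) := by
        intro y _
        simp only [er]
        split_ifs <;> push_cast <;> ring
      rw [Finset.sum_congr rfl h1, Finset.sum_sub_distrib, Finset.sum_sub_distrib,
        Finset.sum_add_distrib, Finset.sum_ite_eq', Finset.sum_ite_eq', Finset.sum_ite_eq',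
        Finset.sum_ite_eq', if_pos (by simp [Zl]), if_pos (by simp [Zl]), if_pos (by simp [Zl]),
        if_pos (by simp [Zl])]
      ring
    have hquad := line_quad hn1 lam hA hQ hrel S hS3 w Zl (fun z hz => (hZroot z hz).1)
      (fun y => ((er y : ℝ) : ℂ) * (aeval (lpt y) A)⁻¹) (by
      intro f hf
      have h2 : ∀ y, ((er y : ℝ) : ℂ) * (aeval (lpt y) A)⁻¹ * aeval (lpt y) f =
          ((er y : ℝ) : ℂ) * ((aeval (lpt y) A)⁻¹ * aeval (lpt y) f) := fun y => by ring
      simp only [h2]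
      rw [hw f hf, hsum (fun y => (aeval (lpt y) A)⁻¹ * aeval (lpt y) f), hvf, hconjf, hconjf,
        hconjf, hconjf, ← hα1, ← hα2]
      have e1 : ((starRingEnd ℂ) α1)⁻¹ * (starRingEnd ℂ) (aeval (lpt z1) f) =
          (starRingEnd ℂ) (α1⁻¹ * aeval (lpt z1) f) := by rw [map_mul, map_inv₀]
      have e2 : ((starRingEnd ℂ) α2)⁻¹ * (starRingEnd ℂ) (aeval (lpt z2) f) =
          (starRingEnd ℂ) (α2⁻¹ * aeval (lpt z2) f) := by rw [map_mul, map_inv₀]
      rw [e1, e2]
      have h3 : ∀ a b : ℂ, (a + (starRingEnd ℂ) a - b - (starRingEnd ℂ) b) / 2 =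
          (((a - b).re : ℝ) : ℂ) := by
        intro a b
        have e1 := Complex.add_conj a
        have e2 := Complex.add_conj b
        rw [Complex.sub_re]
        push_cast at *
        linear_combination e1 / 2 - e2 / 2
      rw [h3])
    have h5 : ∑ z ∈ Zl, (((er z : ℝ) : ℂ) * (aeval (lpt z) A)⁻¹ * aeval (lpt z) A) ^ 2 =
        ((∑ z ∈ Zl, er z ^ 2 : ℝ) : ℂ) := by
      push_cast
      apply Finset.sum_congr rfl
      intro z hz
      rw [mul_assoc, inv_mul_cancel₀ (hZroot z hz).2, mul_one]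
    rw [h5] at hquad
    have hreal : ∑ p ∈ S, w p ^ 2 * jac (X 0 * A) Q p - lam * ∑ z ∈ Zl, er z ^ 2 = 0 := by
      exact_mod_cast hquad
    have hpos1 : 0 ≤ ∑ p ∈ S, w p ^ 2 * jac (X 0 * A) Q p :=
      Finset.sum_nonneg fun p hp => mul_nonneg (sq_nonneg _) (hS p hp).2.2.2
    have hz1c2 : z1 ≠ c2 := by
      intro h
      apply h21c
      rw [hc1, h, hc2, Complex.conj_conj]
    have her1 : 0 < er z1 := by
      simp only [er, if_neg (Ne.symm h21), if_neg hz1c2, if_true]
      split_ifs <;> norm_num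
    have hpos2 : 0 < ∑ z ∈ Zl, er z ^ 2 :=
      Finset.sum_pos' (fun z _ => sq_nonneg _) ⟨z1, by simp [Zl], by positivity⟩
    nlinarith

end Pool.Agent.LogCentres
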