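import Pool.Agent.LogCentres.TopF

/-!
# Membership in an ideal with coprime top forms
-/

namespace Pool.Agent.LogCentres

open MvPolynomial

/-- a univariate lemma: controlled division -/
theorem member_uni {F H : Polynomial ℝ} {a b : ℕ} (hF : F.natDegree = a + 1)
    (hH : H.natDegree ≤ b + 1) (hc : IsCoprime F H) {k : ℕ} (hk : a + b + 1 ≤ k)
    {q : Polynomial ℝ} (hq : q.natDegree ≤ k) :
    ∃ p1 p2 : Polynomial ℝ, q = p1 * F + p2 * H ∧ p1.natDegree + (a + 1) ≤ k ∧
      p2.natDegree + (b + 1) ≤ k := by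
  obtain ⟨u0, v0, h0⟩ := hc
  have hF0 : F ≠ 0 := by
    rintro rfl
    simp at hF
  have hd : (q * v0 % F).natDegree ≤ a := by
    have h1 : (q * v0 % F).degree < F.degree := Polynomial.degree_mod_lt _ hF0
    by_cases h2 : q * v0 % F = 0
    · rw [h2]; simp
    · have h3 := Polynomial.natDegree_lt_natDegree h2 h1
      omega
  have he : F * (q * v0 / F) + q * v0 % F = q * v0 := EuclideanDomain.div_add_mod _ _
  have hq2 : q = (q * u0 + q * v0 / F * H) * F + q * v0 % F * H := by
    linear_combination (-q) * h0 + (-H) * he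
  refine ⟨q * u0 + q * v0 / F * H, q * v0 % F, hq2, ?_, by omega⟩
  set p1 := q * u0 + q * v0 / F * H with hp1
  by_cases h1 : p1 = 0
  · rw [h1]; simp; omega
  · have h2 : (p1 * F).natDegree = p1.natDegree + (a + 1) := by
      rw [Polynomial.natDegree_mul h1 hF0, hF]
    have h3 : p1 * F = q - q * v0 % F * H := by
      rw [eq_sub_iff_add_eq]; exact hq2.symm
    have h4 : (q - q * v0 % F * H).natDegree ≤ k := by
      refine (Polynomial.natDegree_sub_le _ _).trans (max_le hq ?_)
      refine Polynomial.natDegree_mul_le.trans ?_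
      omega
    rw [← h2, h3]
    exact h4

theorem topP_zero (a : ℕ) : topP a (0 : R) = 0 := by
  have h := topP_smul a 0 (0 : R)
  simpa using h

theorem topP_neg (a : ℕ) (f : R) : topP a (-f) = - topP a f := by
  have h := topP_smul a (-1) f
  simpa using h

theorem topP_sub (a : ℕ) (f g : R) : topP a (f - g) = topP a f - topP a g := by
  rw [sub_eq_add_neg, topP_add, topP_neg, sub_eq_add_neg]

/-- one step of the reduction -/
theorem reduction_step {f h : R} {a b : ℕ} (hf : f.totalDegree ≤ a + 1)
    (hh : h.totalDegree ≤ b + 1) (hn : (topP (a + 1) f).natDegree = a + 1)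
    (hc : IsCoprime (topP (a + 1) f) (topP (b + 1) h)) {K : ℕ} (hK : a + b ≤ K) {p : R}
    (hp : p.totalDegree ≤ K + 1) :
    ∃ p' : R, p'.totalDegree ≤ K ∧ p - p' ∈ Ideal.span {f, h} := by
  obtain ⟨p1, p2, hq, h1, h2⟩ := member_uni hn (topP_natDegree_le (b + 1) h) hc
    (k := K + 1) (by omega) (topP_natDegree_le (K + 1) p)
  obtain ⟨u, hu, hu'⟩ := topP_surj (a := K - a) (q := p1) (by omega)
  obtain ⟨v, hv, hv'⟩ := topP_surj (a := K - b) (q := p2) (by omega)
  refine ⟨p - (u * f + v * h), ?_, ?_⟩
  · apply deg_of_topP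
    · refine (totalDegree_sub _ _).trans (max_le hp ?_)
      refine (totalDegree_add _ _).trans (max_le ?_ ?_)
      · refine (totalDegree_mul _ _).trans ?_
        omega
      · refine (totalDegree_mul _ _).trans ?_
        omega
    · have e1 : topP (K + 1) (u * f) = p1 * topP (a + 1) f := by
        have := topP_mul hu hf
        rw [show K - a + (a + 1) = K + 1 by omega, hu'] at this
        exact this
      have e2 : topP (K + 1) (v * h) = p2 * topP (b + 1) h := by
        have := topP_mul hv hh
        rw [show K - b + (b + 1) = K + 1 by omega, hv'] at this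
        exact this
      rw [topP_sub, topP_add, e1, e2, ← hq, sub_self]
  · rw [sub_sub_cancel]
    exact Ideal.mem_span_pair.mpr ⟨u, v, rfl⟩

/-- every polynomial is congruent modulo `(f, h)` to one of degree at most `a + b` -/
theorem reduction {f h : R} {a b : ℕ} (hf : f.totalDegree ≤ a + 1) (hh : h.totalDegree ≤ b + 1)
    (hn : (topP (a + 1) f).natDegree = a + 1)
    (hc : IsCoprime (topP (a + 1) f) (topP (b + 1) h)) (p : R) :
    ∃ p' : R, p'.totalDegree ≤ a + b ∧ p - p' ∈ Ideal.span {f, h} := by
  have key : ∀ j : ℕ, ∀ p : R, p.totalDegree ≤ a + b + j →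
      ∃ p' : R, p'.totalDegree ≤ a + b ∧ p - p' ∈ Ideal.span {f, h} := by
    intro j
    induction j with
    | zero =>
      intro p hp
      exact ⟨p, by simpa using hp, by rw [sub_self]; exact Ideal.zero_mem _⟩
    | succ j ih =>
      intro p hp
      obtain ⟨p1, h1, h2⟩ := reduction_step hf hh hn hc (K := a + b + j) (by omega)
        (p := p) (by omega)
      obtain ⟨p2, h3, h4⟩ := ih p1 h1
      refine ⟨p2, h3, ?_⟩
      have := Ideal.add_mem _ h2 h4
      rwa [sub_add_sub_cancel] at this
  exact key p.totalDegree p (by omega)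

theorem Bd_lower {u : R} {c K : ℕ} (_hc : 1 ≤ c) (hu : u = 0 ∨ u.totalDegree + c ≤ K + 1)
    (h : topP (K + 1 - c) u = 0) : u = 0 ∨ u.totalDegree + c ≤ K := by
  rcases hu with hu | hu
  · exact Or.inl hu
  · rcases Nat.eq_zero_or_pos (K + 1 - c) with h0 | h0
    · left
      have h1 : u.totalDegree = 0 := by omega
      rw [h0] at h
      have h2 := congrArg (fun q => Polynomial.coeff q 0) h
      rw [totalDegree_eq_zero_iff_eq_C] at h1
      rw [h1] at h2 ⊢
      simp [topP] at h2
      rw [h2, map_zero]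
    · right
      obtain ⟨n, hn⟩ : ∃ n, K + 1 - c = n + 1 := ⟨K + 1 - c - 1, by omega⟩
      rw [hn] at h
      have := deg_of_topP (a := n) (f := u) (by omega) h
      omega

theorem top_eq {u f : R} {c K : ℕ} (hu : u = 0 ∨ u.totalDegree + c ≤ K)
    (hf : f.totalDegree ≤ c) : topP K (u * f) = topP (K - c) u * topP c f := by
  rcases hu with hu | hu
  · rw [hu, zero_mul, topP_zero, topP_zero, zero_mul]
  · have h := topP_mul (a := K - c) (b := c) (f := u) (g := f) (by omega) hf
    rwa [show K - c + c = K by omega] at h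

/-- one step of the descent of the degree bound of a representation -/
theorem member_step {f h : R} {a b : ℕ} (hf : f.totalDegree ≤ a + 1)
    (hh : h.totalDegree ≤ b + 1) (hn : (topP (a + 1) f).natDegree = a + 1)
    (hc : IsCoprime (topP (a + 1) f) (topP (b + 1) h)) {K : ℕ} {u v : R}
    (hp : (u * f + v * h).totalDegree ≤ K) (hu : u = 0 ∨ u.totalDegree + (a + 1) ≤ K + 1)
    (hv : v = 0 ∨ v.totalDegree + (b + 1) ≤ K + 1) :
    ∃ u' v' : R, u' * f + v' * h = u * f + v * h ∧ (u' = 0 ∨ u'.totalDegree + (a + 1) ≤ K) ∧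
      (v' = 0 ∨ v'.totalDegree + (b + 1) ≤ K) := by
  have hF0 : topP (a + 1) f ≠ 0 := by
    intro h0
    rw [h0] at hn
    simp at hn
  have e1 := top_eq hu hf
  have e2 := top_eq hv hh
  have e3 : topP (K + 1 - (a + 1)) u * topP (a + 1) f +
      topP (K + 1 - (b + 1)) v * topP (b + 1) h = 0 := by
    rw [← e1, ← e2, ← topP_add]
    exact topP_of_lt (by omega)
  have hdvd : topP (a + 1) f ∣ topP (K + 1 - (b + 1)) v := by
    refine hc.dvd_of_dvd_mul_right ?_
    refine ⟨- topP (K + 1 - (a + 1)) u, ?_⟩
    linear_combination e3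
  obtain ⟨Q, hQ⟩ := hdvd
  have hU : topP (K + 1 - (a + 1)) u = - (Q * topP (b + 1) h) := by
    apply mul_right_cancel₀ hF0
    rw [hQ] at e3
    linear_combination e3
  by_cases hQ0 : Q = 0
  · rw [hQ0] at hU hQ
    refine ⟨u, v, rfl, Bd_lower (by omega) hu (by rw [hU]; simp),
      Bd_lower (by omega) hv (by rw [hQ]; simp)⟩
  · have hVdeg := topP_natDegree_le (K + 1 - (b + 1)) v
    rw [hQ, Polynomial.natDegree_mul hF0 hQ0, hn] at hVdeg
    obtain ⟨n, hn'⟩ : ∃ n, K = n + a + b + 1 := ⟨K - a - b - 1, by omega⟩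
    obtain ⟨w, hw, hw'⟩ := topP_surj (a := n) (q := Q) (by omega)
    refine ⟨u + w * h, v - w * f, by ring, ?_, ?_⟩
    · right
      have h1 : (u + w * h).totalDegree ≤ n + b := by
        apply deg_of_topP
        · refine (totalDegree_add _ _).trans (max_le ?_ ?_)
          · rcases hu with hu | hu
            · rw [hu]; simp
            · omega
          · refine (totalDegree_mul _ _).trans ?_
            omega
        · have e4 := topP_mul hw hh
          rw [hw'] at e4
          rw [show K + 1 - (a + 1) = n + (b + 1) by omega] at hU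
          rw [show n + b + 1 = n + (b + 1) by omega, topP_add, e4, hU]
          ring
      omega
    · right
      have h1 : (v - w * f).totalDegree ≤ n + a := by
        apply deg_of_topP
        · refine (totalDegree_sub _ _).trans (max_le ?_ ?_)
          · rcases hv with hv | hv
            · rw [hv]; simp
            · omega
          · refine (totalDegree_mul _ _).trans ?_
            omega
        · have e4 := topP_mul hw hf
          rw [hw'] at e4
          rw [show K + 1 - (b + 1) = n + (a + 1) by omega] at hQ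
          rw [show n + a + 1 = n + (a + 1) by omega, topP_sub, e4, hQ]
          ring
      omega

/-- controlled membership -/
theorem membership {f h : R} {a b : ℕ} (hf : f.totalDegree ≤ a + 1)
    (hh : h.totalDegree ≤ b + 1) (hn : (topP (a + 1) f).natDegree = a + 1)
    (hc : IsCoprime (topP (a + 1) f) (topP (b + 1) h)) {p : R} (hp : p ∈ Ideal.span {f, h})
    {k : ℕ} (hk : p.totalDegree ≤ k) :
    ∃ u v : R, p = u * f + v * h ∧ (u = 0 ∨ u.totalDegree + (a + 1) ≤ k) ∧
      (v = 0 ∨ v.totalDegree + (b + 1) ≤ k) := by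
  have key : ∀ j : ℕ, ∀ u v : R, (u * f + v * h).totalDegree ≤ k →
      (u = 0 ∨ u.totalDegree + (a + 1) ≤ k + j) → (v = 0 ∨ v.totalDegree + (b + 1) ≤ k + j) →
      ∃ u' v' : R, u' * f + v' * h = u * f + v * h ∧ (u' = 0 ∨ u'.totalDegree + (a + 1) ≤ k) ∧
        (v' = 0 ∨ v'.totalDegree + (b + 1) ≤ k) := by
    intro j
    induction j with
    | zero =>
      intro u v _ hu hv
      exact ⟨u, v, rfl, hu, hv⟩
    | succ j ih =>
      intro u v hd hu hv
      obtain ⟨u1, v1, h1, h2, h3⟩ := member_step hf hh hn hc (K := k + j) (by omega) hu hv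
      obtain ⟨u2, v2, h4, h5, h6⟩ := ih u1 v1 (by rw [h1]; exact hd) h2 h3
      exact ⟨u2, v2, h4.trans h1, h5, h6⟩
  obtain ⟨u, v, huv⟩ := Ideal.mem_span_pair.mp hp
  obtain ⟨u', v', h1, h2, h3⟩ := key (u.totalDegree + v.totalDegree + a + b + 2) u v
    (by rw [huv]; exact hk) (Or.inr (by omega)) (Or.inr (by omega))
  exact ⟨u', v', by rw [h1, huv], h2, h3⟩

end Pool.Agent.LogCentres
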