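import Pool.Agent.LogCentres.Primitive

/-!
# A compact piece of a level set and isolated critical points
-/

namespace Pool.Agent.LogCentres

open Metric Topology

private theorem chi_lt {η : ℝ} {k χ : ℝ → ℝ} (hχ : ∀ s, HasDerivAt χ (k s) s)
    (hk : ∀ s, |s| < η → 0 < k s) (hk0 : ∀ s, η ≤ |s| → k s = 0) {s s' : ℝ} (h1 : -η ≤ s)
    (h2 : s < η) (h3 : s < s') : χ s < χ s' := by
  have hc : Continuous χ := continuous_iff_continuousAt.2 fun s => (hχ s).continuousAt
  have hmono : Monotone χ := by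
    apply monotone_of_deriv_nonneg (fun s => (hχ s).differentiableAt)
    intro s
    rw [(hχ s).deriv]
    by_cases h : |s| < η
    · exact (hk s h).le
    · rw [hk0 s (not_lt.1 h)]
  have hstr : StrictMonoOn χ (Set.Icc (-η) η) := by
    apply strictMonoOn_of_deriv_pos (convex_Icc _ _) hc.continuousOn
    intro s hs
    rw [interior_Icc] at hs
    rw [(hχ s).deriv]
    exact hk s (abs_lt.2 hs)
  have h4 : χ s < χ (min s' η) :=
    hstr ⟨h1, h2.le⟩ ⟨h1.trans (lt_min h3 h2).le, min_le_right _ _⟩ (lt_min h3 h2)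
  exact h4.trans_le (hmono (min_le_left _ _))

private theorem chi_const {η : ℝ} (hη : 0 < η) {k χ : ℝ → ℝ} (hχ : ∀ s, HasDerivAt χ (k s) s)
    (hk0 : ∀ s, η ≤ |s| → k s = 0) {s : ℝ} (h1 : η ≤ s) : χ s = χ η := by
  have h := (convex_Ici η).is_const_of_fderivWithin_eq_zero (𝕜 := ℝ) (f := χ)
    (fun s _ => (hχ s).differentiableAt.differentiableWithinAt) (by
      intro u hu
      have h3 : HasFDerivWithinAt χ (ContinuousLinearMap.toSpanSingleton ℝ (k u)) (Set.Ici η) u :=
        (hχ u).hasFDerivAt.hasFDerivWithinAt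
      rw [h3.fderivWithin ((uniqueDiffOn_Ici η) u hu), hk0 u (by
        rw [abs_of_nonneg (hη.le.trans hu)]; exact hu)]
      ext
      simp) h1 (Set.self_mem_Ici)
  exact h

private theorem oneside {H : (Fin 2 → ℝ) → ℝ} {p : Fin 2 → ℝ} {r η : ℝ} (hη : 0 < η)
    (hHp : H p = 0) (hcrit : ∀ x ∈ closedBall p r, fderiv ℝ H x = 0 → x = p)
    (hd : ∀ x ∈ closedBall p r, DifferentiableAt ℝ H x)
    {U A : Set (Fin 2 → ℝ)} (hU : IsOpen U) (hUr : U ⊆ closedBall p r) (hpU : p ∉ U)
    (hA : IsClosed A) (hAU : A ⊆ U) (hAη : ∀ x ∈ A, |H x| ≤ η)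
    {k χ : ℝ → ℝ} (hχ : ∀ s, HasDerivAt χ (k s) s)
    (hk : ∀ s, |s| < η → 0 < k s) (hk0 : ∀ s, η ≤ |s| → k s = 0)
    {ω : (Fin 2 → ℝ) → ((Fin 2 → ℝ) →L[ℝ] ℝ)} (hω : ∀ x ∈ U, ω x = k (H x) • fderiv ℝ H x)
    (hωA : ∀ x, x ∉ A → ω x = 0)
    {θ : (Fin 2 → ℝ) → ℝ} (hθ : ∀ x, HasFDerivAt θ (ω x) x)
    (hθ0 : ∀ x, x ∉ closedBall p r → θ x = 0) (hpos : ∃ x, 0 < θ x) : False := by
  obtain ⟨x0, hx0⟩ := hpos
  have hcont : Continuous θ := continuous_iff_continuousAt.2 fun x => (hθ x).continuousAt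
  have hx0r : x0 ∈ closedBall p r := by
    by_contra h
    rw [hθ0 x0 h] at hx0
    exact lt_irrefl _ hx0
  obtain ⟨z, hz, hzmax⟩ := (isCompact_closedBall p r).exists_isMaxOn ⟨x0, hx0r⟩ hcont.continuousOn
  have hμ : 0 < θ z := hx0.trans_le (hzmax hx0r)
  have hle : ∀ x, θ x ≤ θ z := by
    intro x
    by_cases h : x ∈ closedBall p r
    · exact hzmax h
    · rw [hθ0 x h]; exact hμ.le
  set M : Set (Fin 2 → ℝ) := {x | θ x = θ z} with hM
  have hMcl : IsClosed M := isClosed_eq hcont continuous_const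
  have hMr : M ⊆ closedBall p r := by
    intro x hx
    by_contra h
    have h1 : θ x = θ z := hx
    rw [hθ0 x h] at h1
    exact hμ.ne h1
  have hMc : IsCompact M := (isCompact_closedBall p r).of_isClosed_subset hMcl hMr
  have hMn : M.Nonempty := ⟨z, rfl⟩
  have hHc : ContinuousOn H M := fun x hx => (hd x (hMr hx)).continuousAt.continuousWithinAt
  obtain ⟨y, hyM, hymax⟩ := hMc.exists_isMaxOn hMn hHc
  -- frontier points
  have key : ∀ w ∈ frontier M, H w = η ∧ ∃ x ∈ M, η < H x := by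
    intro w hw
    have hwM : w ∈ M := hMcl.frontier_subset hw
    have hwint : w ∉ interior M := hw.2
    have hwA : w ∈ A := by
      by_contra h
      obtain ⟨ρ, hρ, hball⟩ := Metric.isOpen_iff.1 hA.isOpen_compl w h
      apply hwint
      rw [mem_interior]
      refine ⟨ball w ρ, ?_, isOpen_ball, mem_ball_self hρ⟩
      intro x hx
      have h1 : θ x = θ w := by
        apply (convex_ball w ρ).is_const_of_fderivWithin_eq_zero (𝕜 := ℝ) (f := θ)
          (fun u _ => (hθ u).differentiableAt.differentiableWithinAt) _ hx (mem_ball_self hρ)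
        intro u hu
        rw [fderivWithin_of_isOpen isOpen_ball hu, (hθ u).fderiv]
        exact hωA u (hball hu)
      show θ x = θ z
      rw [h1]
      exact hwM
    obtain ⟨ρ, hρ, hball⟩ := Metric.isOpen_iff.1 hU w (hAU hwA)
    have hloc : ∀ x ∈ ball w ρ, θ x - χ (H x) = θ w - χ (H w) := by
      intro x hx
      have hder : ∀ u ∈ ball w ρ, HasFDerivAt (fun u => θ u - χ (H u)) (0 : (Fin 2 → ℝ) →L[ℝ] ℝ) u := by
        intro u hu
        have h1 : HasFDerivAt (fun u => χ (H u)) (k (H u) • fderiv ℝ H u) u :=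
          (hχ (H u)).comp_hasFDerivAt u (hd u (hUr (hball hu))).hasFDerivAt
        have h2 := (hθ u).sub h1
        rw [hω u (hball hu), sub_self] at h2
        exact h2
      apply (convex_ball w ρ).is_const_of_fderivWithin_eq_zero (𝕜 := ℝ)
        (f := fun u => θ u - χ (H u))
        (fun u hu => (hder u hu).differentiableAt.differentiableWithinAt) _ hx (mem_ball_self hρ)
      intro u hu
      rw [fderivWithin_of_isOpen isOpen_ball hu, (hder u hu).fderiv]
    have hwr : w ∈ closedBall p r := hUr (hAU hwA)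
    have hex : ∃ x ∈ ball w ρ, H w < H x := by
      by_contra hcon
      push Not at hcon
      have h1 : IsLocalMax H w := by
        filter_upwards [ball_mem_nhds w hρ] with x hx using hcon x hx
      have h2 := hcrit w hwr h1.fderiv_eq_zero
      exact hpU (h2 ▸ hAU hwA)
    obtain ⟨x, hx, hxw⟩ := hex
    have hwη := abs_le.1 (hAη w hwA)
    have h1 := hloc x hx
    have h2 : θ w = θ z := hwM
    have h3 := hle x
    have h4 : H w = η := by
      by_contra hne
      have h5 := chi_lt hχ hk hk0 hwη.1 (lt_of_le_of_ne hwη.2 hne) hxw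
      linarith
    refine ⟨h4, x, ?_, by rw [← h4]; exact hxw⟩
    have h5 : χ (H x) = χ (H w) := by
      rw [h4]
      exact chi_const hη hχ hk0 (by rw [← h4]; exact hxw.le)
    show θ x = θ z
    linarith
  -- a frontier point
  have hfr : (frontier M).Nonempty := by
    rw [nonempty_frontier_iff]
    refine ⟨hMn, ?_⟩
    intro h
    have hb : Bornology.IsBounded (Set.univ : Set (Fin 2 → ℝ)) := by
      rw [← h]
      exact hMc.isBounded
    exact NormedSpace.unbounded_univ ℝ (Fin 2 → ℝ) hb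
  obtain ⟨w, hw⟩ := hfr
  obtain ⟨_, x, hxM, hxη⟩ := key w hw
  have h1 : η < H y := hxη.trans_le (hymax hxM)
  have h2 : y ∈ interior M := by
    by_contra h
    have h3 := (key y ⟨subset_closure hyM, h⟩).1
    linarith
  have h3 : IsLocalMax H y := by
    filter_upwards [isOpen_interior.mem_nhds h2] with x hx using hymax (interior_subset hx)
  have h4 := hcrit y (hMr hyM) h3.fderiv_eq_zero
  rw [h4, hHp] at h1
  linarith

/-- Let `H` be of class `C²` near a closed ball with at most one critical point `p` in it.  The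
level set of `p` has no nonempty compact relatively open piece in the open ball off `p`. -/
theorem no_level {H : (Fin 2 → ℝ) → ℝ} {p : Fin 2 → ℝ} {r : ℝ} {Ω : Set (Fin 2 → ℝ)}
    (hΩ : IsOpen Ω) (hr : closedBall p r ⊆ Ω) (hH : ContDiffOn ℝ 2 H Ω)
    (hcrit : ∀ x ∈ closedBall p r, fderiv ℝ H x = 0 → x = p) {Γ : Set (Fin 2 → ℝ)}
    (hΓc : IsCompact Γ) (hΓn : Γ.Nonempty) (hΓr : Γ ⊆ ball p r) (hpΓ : p ∉ Γ)
    (hval : ∀ x ∈ Γ, H x = H p) {N : Set (Fin 2 → ℝ)} (hN : IsOpen N) (hΓN : Γ ⊆ N)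
    (hlev : ∀ x ∈ N, H x = H p → x ∈ Γ) : False := by
  classical
  -- the normalised function
  set G : (Fin 2 → ℝ) → ℝ := fun x => H x - H p with hG
  have hGd : ∀ x, fderiv ℝ G x = fderiv ℝ H x := fun x => by
    rw [hG, fderiv_sub_const]
  have hH2 : ∀ x ∈ Ω, ContDiffAt ℝ 2 H x := fun x hx => hH.contDiffAt (hΩ.mem_nhds hx)
  have hG2 : ∀ x ∈ Ω, ContDiffAt ℝ 2 G x := fun x hx => (hH2 x hx).sub contDiffAt_const
  have hGc : ∀ x ∈ Ω, ContinuousAt G x := fun x hx => (hG2 x hx).continuousAt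
  -- the neighbourhood
  have hVo : IsOpen (N ∩ ball p r ∩ {p}ᶜ) := (hN.inter isOpen_ball).inter isOpen_compl_singleton
  obtain ⟨δ, hδ, hδV⟩ := hΓc.exists_cthickening_subset_open hVo
    (fun x hx => ⟨⟨hΓN hx, hΓr hx⟩, fun h => hpΓ (h ▸ hx)⟩)
  set U := thickening δ Γ with hUdef
  set K := cthickening δ Γ with hKdef
  have hUo : IsOpen U := isOpen_thickening
  have hUK : U ⊆ K := thickening_subset_cthickening δ Γ
  have hKc : IsCompact K := hΓc.cthickening
  have hKΩ : K ⊆ Ω := fun x hx => hr (ball_subset_closedBall (hδV hx).1.2)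
  have hGK : ContinuousOn G K := fun x hx => (hGc x (hKΩ hx)).continuousWithinAt
  -- the number η
  have hη : ∃ η : ℝ, 0 < η ∧ ∀ x ∈ K \ U, η < |G x| := by
    have hSc : IsCompact (K \ U) := hKc.diff hUo
    by_cases hne : (K \ U).Nonempty
    · obtain ⟨z, hz, hzmin⟩ := hSc.exists_isMinOn hne
        ((hGK.mono Set.sdiff_subset).abs)
      have hz0 : G z ≠ 0 := by
        intro h
        have h1 : H z = H p := sub_eq_zero.1 h
        exact hz.2 (self_subset_thickening hδ Γ (hlev z (hδV hz.1).1.1 h1))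
      have hz1 : 0 < |G z| := abs_pos.2 hz0
      refine ⟨|G z| / 2, by positivity, fun x hx => ?_⟩
      have h2 : |G z| ≤ |G x| := hzmin hx
      linarith
    · refine ⟨1, one_pos, fun x hx => absurd ⟨x, hx⟩ hne⟩
  obtain ⟨η, hη0, hη⟩ := hη
  set A : Set (Fin 2 → ℝ) := {x ∈ K | |G x| ≤ η} with hAdef
  have hAcl : IsClosed A := by
    have h1 := (hGK.abs).preimage_isClosed_of_isClosed hKc.isClosed (isClosed_Iic (a := η))
    exact h1
  have hAU : A ⊆ U := by
    intro x hx
    by_contra h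
    exact absurd (hη x ⟨hx.1, h⟩) (not_lt.2 hx.2)
  -- the bump function
  let k : ℝ → ℝ := fun s => Real.smoothTransition (η + s) * Real.smoothTransition (η - s)
  have hkc : ContDiff ℝ 1 k := by
    have h1 : ContDiff ℝ 1 Real.smoothTransition := Real.smoothTransition.contDiff
    exact (h1.comp (contDiff_const.add contDiff_id)).mul (h1.comp (contDiff_const.sub contDiff_id))
  have hk : ∀ s, |s| < η → 0 < k s := by
    intro s hs
    obtain ⟨h1, h2⟩ := abs_lt.1 hs
    exact mul_pos (Real.smoothTransition.pos_of_pos (by linarith))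
      (Real.smoothTransition.pos_of_pos (by linarith))
  have hk0 : ∀ s, η ≤ |s| → k s = 0 := by
    intro s hs
    rcases le_abs.1 hs with h | h
    · show _ * Real.smoothTransition (η - s) = 0
      rw [Real.smoothTransition.zero_of_nonpos (by linarith : η - s ≤ 0), mul_zero]
    · show Real.smoothTransition (η + s) * _ = 0
      rw [Real.smoothTransition.zero_of_nonpos (by linarith : η + s ≤ 0), zero_mul]
  have hkneg : ∀ s, k (-s) = k s := by
    intro s
    show Real.smoothTransition (η + -s) * Real.smoothTransition (η - -s) =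
      Real.smoothTransition (η + s) * Real.smoothTransition (η - s)
    rw [sub_neg_eq_add, ← sub_eq_add_neg, mul_comm]
  let χ : ℝ → ℝ := fun s => ∫ u in (0 : ℝ)..s, k u
  have hχ : ∀ s, HasDerivAt χ (k s) s := fun s =>
    (hkc.continuous.integral_hasStrictDerivAt 0 s).hasDerivAt
  -- the one-form
  let ω : (Fin 2 → ℝ) → ((Fin 2 → ℝ) →L[ℝ] ℝ) := fun x =>
    if x ∈ U then k (G x) • fderiv ℝ H x else 0
  have hωU : ∀ x ∈ U, ω x = k (G x) • fderiv ℝ H x := fun x hx => if_pos hx
  have hωA : ∀ x, x ∉ A → ω x = 0 := by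
    intro x hx
    by_cases h : x ∈ U
    · rw [hωU x h]
      have h1 : η < |G x| := by
        by_contra h2
        exact hx ⟨hUK h, not_lt.1 h2⟩
      rw [hk0 _ h1.le, zero_smul]
    · exact if_neg h
  have hUΩ : U ⊆ Ω := hUK.trans hKΩ
  have hωev : ∀ x ∈ U, ω =ᶠ[𝓝 x] fun x => k (G x) • fderiv ℝ H x := by
    intro x hx
    filter_upwards [hUo.mem_nhds hx] with y hy using hωU y hy
  have hω0 : ∀ x, x ∉ A → ω =ᶠ[𝓝 x] fun _ => 0 := by
    intro x hx
    filter_upwards [hAcl.isOpen_compl.mem_nhds hx] with y hy using hωA y hy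
  have hdH : ∀ x ∈ Ω, ContDiffAt ℝ 1 (fderiv ℝ H) x := fun x hx =>
    (hH2 x hx).fderiv_right (by norm_num)
  have hkG : ∀ x ∈ Ω, ContDiffAt ℝ 1 (fun x => k (G x)) x := fun x hx =>
    hkc.contDiffAt.comp x ((hG2 x hx).of_le (by norm_num))
  have hωc : ContDiff ℝ 1 ω := by
    rw [contDiff_iff_contDiffAt]
    intro x
    by_cases hx : x ∈ A
    · exact ((hkG x (hUΩ (hAU hx))).smul (hdH x (hUΩ (hAU hx)))).congr_of_eventuallyEq
        (hωev x (hAU hx))
    · exact contDiffAt_const.congr_of_eventuallyEq (hω0 x hx)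
  have hcl : ∀ x v w, fderiv ℝ ω x v w = fderiv ℝ ω x w v := by
    intro x v w
    by_cases hx : x ∈ A
    · have hxU := hAU hx
      have hxΩ := hUΩ hxU
      rw [(hωev x hxU).fderiv_eq]
      have h1 : DifferentiableAt ℝ (fun x => k (G x)) x := (hkG x hxΩ).differentiableAt (by norm_num)
      have h2 : DifferentiableAt ℝ (fderiv ℝ H) x := (hdH x hxΩ).differentiableAt (by norm_num)
      rw [fderiv_fun_smul h1 h2]
      have h3 : fderiv ℝ (fun x => k (G x)) x = (deriv k (G x)) • fderiv ℝ H x := by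
        have h4 : HasFDerivAt (fun x => k (G x)) ((deriv k (G x)) • fderiv ℝ G x) x :=
          ((hkc.differentiable (by norm_num)) (G x)).hasDerivAt.comp_hasFDerivAt x
            ((hG2 x hxΩ).differentiableAt (by norm_num)).hasFDerivAt
        rw [h4.fderiv, hGd]
      have h5 : IsSymmSndFDerivAt ℝ H x := (hH2 x hxΩ).isSymmSndFDerivAt (by simp)
      rw [h3]
      simp only [add_apply, smul_apply,
        ContinuousLinearMap.smulRight_apply, smul_eq_mul]
      rw [h5.eq v w]
      ring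
    · rw [(hω0 x hx).fderiv_eq]
      simp
  have hUr : U ⊆ closedBall p r := fun x hx => ball_subset_closedBall (hδV (hUK hx)).1.2
  have hpU : p ∉ U := fun h => (hδV (hUK h)).2 rfl
  have hsupp : ∀ x, x ∉ closedBall p r → ω x = 0 := fun x hx => if_neg fun h => hx (hUr h)
  obtain ⟨θ, hθ, hθ0⟩ := exists_primitive ω hωc hcl hsupp
  have hGp : G p = 0 := sub_self _
  have hGdiff : ∀ x ∈ closedBall p r, DifferentiableAt ℝ G x := fun x hx =>
    (hG2 x (hr hx)).differentiableAt (by norm_num)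
  by_cases h1 : ∃ x, 0 < θ x
  · refine oneside (H := G) hη0 hGp (fun x hx h => hcrit x hx (by rw [← hGd]; exact h)) hGdiff
      hUo hUr hpU hAcl hAU (fun x hx => hx.2) hχ hk hk0 ?_ hωA hθ hθ0 h1
    intro x hx
    rw [hωU x hx, hGd]
  by_cases h2 : ∃ x, θ x < 0
  · have hGn : ∀ x, fderiv ℝ (fun x => -G x) x = - fderiv ℝ H x := fun x => by
      rw [fderiv_fun_neg, hGd]
    refine oneside (H := fun x => - G x) (ω := fun x => - ω x) (θ := fun x => - θ x) hη0
      (by simp [hGp]) (fun x hx h => hcrit x hx ?_) (fun x hx => (hGdiff x hx).neg)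
      hUo hUr hpU hAcl hAU (fun x hx => by rw [abs_neg]; exact hx.2) hχ hk hk0 ?_ ?_
      (fun x => (hθ x).neg) ?_ ?_
    · rw [hGn] at h
      exact neg_eq_zero.1 h
    · intro x hx
      rw [hωU x hx, hGn, hkneg, smul_neg]
    · intro x hx
      rw [hωA x hx, neg_zero]
    · intro x hx
      rw [hθ0 x hx, neg_zero]
    · obtain ⟨x, hx⟩ := h2
      exact ⟨x, by linarith⟩
  · -- θ vanishes
    push Not at h1 h2
    have h3 : ∀ x, θ x = 0 := fun x => le_antisymm (h1 x) (h2 x)
    obtain ⟨x, hx⟩ := hΓn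
    have hxU : x ∈ U := self_subset_thickening hδ Γ hx
    have h4 : HasFDerivAt θ (0 : (Fin 2 → ℝ) →L[ℝ] ℝ) x := by
      have : θ = fun _ => 0 := funext h3
      rw [this]
      exact hasFDerivAt_const _ _
    have h5 := (hθ x).unique h4
    rw [hωU x hxU] at h5
    have h6 : G x = 0 := by
      show H x - H p = 0
      rw [hval x hx, sub_self]
    have h7 : k (G x) ≠ 0 := by
      rw [h6]
      exact (hk 0 (by simpa using hη0)).ne'
    have h8 := (smul_eq_zero.1 h5).resolve_left h7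
    exact hpΓ ((hcrit x (hUr hxU) h8) ▸ hx)

end Pool.Agent.LogCentres
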