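import Pool.Agent.LogCentres.ExtDefs

/-!
# Reduction to relatively prime families
-/

namespace Pool.Agent.LogCentres

open MvPolynomial Pool.Agent.PlanarCentres

/-- the field of rational functions -/
private abbrev KK : Type := FractionRing R

/-- the inclusion of the polynomials into the rational functions -/
private noncomputable abbrev em : R →+* KK := algebraMap R KK

private theorem em_ne {p : R} (h : p ≠ 0) : em p ≠ 0 :=
  fun h' => h ((FaithfulSMul.algebraMap_injective R KK) (by rw [h', map_zero]))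

/-- `a ∂ p / p` -/
private noncomputable def ld (l : Fin 2) (p : R × ℝ) : KK := em (C p.2) * em (pderiv l p.1) / em p.1

private noncomputable def prodL (L : List (R × ℝ)) : R := (L.map Prod.fst).prod

private noncomputable def sigL (L : List (R × ℝ)) (l : Fin 2) : KK := (L.map (ld l)).sum

private noncomputable def degL (L : List (R × ℝ)) : ℕ := (L.map fun p => p.1.totalDegree).sum

private theorem em_logD {ι : Type} [Fintype ι] [DecidableEq ι] (F : ι → R) (α : ι → ℝ)
    (hF : ∀ i, F i ≠ 0) (l : Fin 2) :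
    em (logD F α l) = em (∏ i, F i) * ∑ i, ld l (F i, α i) := by
  rw [logD, map_sum, Finset.mul_sum]
  refine Finset.sum_congr rfl fun i _ => ?_
  rw [← Finset.mul_prod_erase _ _ (Finset.mem_univ i), ld, MvPolynomial.smul_eq_C_mul]
  simp only [map_mul]
  have := em_ne (hF i)
  field_simp

private theorem deg_pos {h : R} (h0 : h ≠ 0) (hu : ¬ IsUnit h) : 1 ≤ h.totalDegree := by
  by_contra hc
  have h1 : h.totalDegree = 0 := by omega
  rw [totalDegree_eq_zero_iff_eq_C] at h1
  apply hu
  rw [h1]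
  refine IsUnit.map C ?_
  rw [isUnit_iff_ne_zero]
  intro h2
  rw [h2, map_zero] at h1
  exact h0 h1

private theorem ld_mul (l : Fin 2) {h u : R} (hh : h ≠ 0) (hu : u ≠ 0) (a : ℝ) :
    ld l (h * u, a) = ld l (h, a) + ld l (u, a) := by
  have h1 := em_ne hh
  have h2 := em_ne hu
  simp only [ld, Derivation.leibniz, smul_eq_mul, map_add, map_mul]
  field_simp
  ring

private theorem ld_add (l : Fin 2) (h : R) (a b : ℝ) :
    ld l (h, a + b) = ld l (h, a) + ld l (h, b) := by
  simp only [ld, map_add]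
  ring

private theorem norm_list (n : ℕ) : ∀ L : List (R × ℝ), (∀ p ∈ L, p.1 ≠ 0) → degL L ≤ n →
    ∃ L' : List (R × ℝ), (∀ p ∈ L', p.1 ≠ 0) ∧ (∀ p ∈ L', p.2 ≠ 0) ∧
      (∀ p ∈ L', ∀ q ∈ L', 0 < p.2 → q.2 < 0 → IsRelPrime p.1 q.1) ∧
      degL L' ≤ degL L ∧ (∃ W, prodL L = W * prodL L') ∧ ∀ l, sigL L l = sigL L' l := by
  classical
  induction n using Nat.strong_induction_on with
  | _ n ih =>
  intro L hL hn
  -- remove the zero exponents
  have hfil : ∃ L1 : List (R × ℝ), (∀ p ∈ L1, p.1 ≠ 0) ∧ (∀ p ∈ L1, p.2 ≠ 0) ∧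
      degL L1 ≤ degL L ∧ (∃ W, prodL L = W * prodL L1) ∧ ∀ l, sigL L l = sigL L1 l := by
    clear hn ih
    induction L with
    | nil => exact ⟨[], by simp, by simp, le_rfl, ⟨1, by simp⟩, fun _ => rfl⟩
    | cons p L ihL =>
      obtain ⟨L1, h1, h2, h3, ⟨W, h4⟩, h5⟩ := ihL fun q hq => hL q (List.mem_cons_of_mem _ hq)
      by_cases hp : p.2 = 0
      · refine ⟨L1, h1, h2, ?_, ⟨p.1 * W, ?_⟩, fun l => ?_⟩
        · simp only [degL, List.map_cons, List.sum_cons] at h3 ⊢
          omega
        · simp only [prodL, List.map_cons, List.prod_cons] at h4 ⊢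
          rw [h4, mul_assoc]
        · have h6 := h5 l
          simp only [sigL, List.map_cons, List.sum_cons] at h6 ⊢
          rw [h6]
          simp [ld, hp]
      · refine ⟨p :: L1, ?_, ?_, ?_, ⟨W, ?_⟩, fun l => ?_⟩
        · intro q hq
          rcases List.mem_cons.1 hq with rfl | hq
          · exact hL _ List.mem_cons_self
          · exact h1 q hq
        · intro q hq
          rcases List.mem_cons.1 hq with rfl | hq
          · exact hp
          · exact h2 q hq
        · simp only [degL, List.map_cons, List.sum_cons] at h3 ⊢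
          omega
        · simp only [prodL, List.map_cons, List.prod_cons] at h4 ⊢
          rw [h4]
          ring
        · have h6 := h5 l
          simp only [sigL, List.map_cons, List.sum_cons] at h6 ⊢
          rw [h6]
  obtain ⟨L1, a1, a2, a3, ⟨W1, a4⟩, a5⟩ := hfil
  by_cases hrel : ∀ p ∈ L1, ∀ q ∈ L1, 0 < p.2 → q.2 < 0 → IsRelPrime p.1 q.1
  · exact ⟨L1, a1, a2, hrel, a3, ⟨W1, a4⟩, a5⟩
  push Not at hrel
  obtain ⟨p, hp, q, hq, hp2, hq2, hnr⟩ := hrel
  rw [IsRelPrime] at hnr
  push Not at hnr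
  obtain ⟨h, ⟨u, hu⟩, ⟨v, hv⟩, hnu⟩ := hnr
  have hp1 := a1 p hp
  have hq1 := a1 q hq
  have hh0 : h ≠ 0 := by rintro rfl; rw [zero_mul] at hu; exact hp1 hu
  have hu0 : u ≠ 0 := by rintro rfl; rw [mul_zero] at hu; exact hp1 hu
  have hv0 : v ≠ 0 := by rintro rfl; rw [mul_zero] at hv; exact hq1 hv
  have hdeg := deg_pos hh0 hnu
  have hqp : q ≠ p := by
    rintro rfl
    exact absurd hp2 (not_lt.2 hq2.le)
  have hq' : q ∈ L1.erase p := (List.mem_erase_of_ne hqp).2 hq
  have hperm : L1.Perm (p :: q :: (L1.erase p).erase q) :=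
    (List.perm_cons_erase hp).trans ((List.perm_cons_erase hq').cons p)
  set M := (L1.erase p).erase q with hM
  have hMmem : ∀ r ∈ M, r ∈ L1 := fun r hr =>
    hperm.mem_iff.2 (List.mem_cons_of_mem _ (List.mem_cons_of_mem _ hr))
  have e1 : prodL L1 = p.1 * (q.1 * prodL M) := by
    have := (hperm.map Prod.fst).prod_eq
    simpa only [prodL, List.map_cons, List.prod_cons] using this
  have e2 : degL L1 = p.1.totalDegree + (q.1.totalDegree + degL M) := by
    have := (hperm.map fun p : R × ℝ => p.1.totalDegree).sum_eq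
    simpa only [degL, List.map_cons, List.sum_cons] using this
  have e3 : ∀ l, sigL L1 l = ld l p + (ld l q + sigL M l) := by
    intro l
    have := (hperm.map (ld l)).sum_eq
    simpa only [sigL, List.map_cons, List.sum_cons] using this
  have d1 : p.1.totalDegree = h.totalDegree + u.totalDegree := by
    rw [hu]; exact totalDegree_mul_of_isDomain hh0 hu0
  have d2 : q.1.totalDegree = h.totalDegree + v.totalDegree := by
    rw [hv]; exact totalDegree_mul_of_isDomain hh0 hv0
  set L2 : List (R × ℝ) := (u, p.2) :: (v, q.2) :: (h, p.2 + q.2) :: M with hL2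
  have f2 : degL L2 = u.totalDegree + (v.totalDegree + (h.totalDegree + degL M)) := by
    simp only [hL2, degL, List.map_cons, List.sum_cons]
  have f1 : prodL L2 = u * (v * (h * prodL M)) := by
    simp only [hL2, prodL, List.map_cons, List.prod_cons]
  have f3 : ∀ l, sigL L2 l = sigL L1 l := by
    intro l
    rw [e3]
    simp only [hL2, sigL, List.map_cons, List.sum_cons]
    have g1 : ld l p = ld l (h, p.2) + ld l (u, p.2) := by
      rw [← ld_mul l hh0 hu0, ← hu]
    have g2 : ld l q = ld l (h, q.2) + ld l (v, q.2) := by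
      rw [← ld_mul l hh0 hv0, ← hv]
    rw [g1, g2, ld_add]
    ring
  have hL2ne : ∀ r ∈ L2, r.1 ≠ 0 := by
    intro r hr
    simp only [hL2, List.mem_cons] at hr
    rcases hr with rfl | rfl | rfl | hr
    · exact hu0
    · exact hv0
    · exact hh0
    · exact a1 r (hMmem r hr)
  obtain ⟨L', b1, b2, b3, b4, ⟨W2, b5⟩, b6⟩ := ih (degL L2) (by omega) L2 hL2ne le_rfl
  refine ⟨L', b1, b2, b3, by omega, ⟨W1 * h * W2, ?_⟩, fun l => ?_⟩
  · rw [a4, e1, hu, hv]
    have : u * (v * (h * prodL M)) = W2 * prodL L' := by rw [← f1, b5]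
    linear_combination W1 * h * this
  · rw [a5, ← f3, b6]

/-- every logarithmic form is a multiple of one whose polynomials with exponents of opposite signs
are relatively prime -/
theorem normalize {ι : Type} [Fintype ι] [DecidableEq ι] (f : ι → R) (lam : ι → ℝ)
    (hf : ∀ i, f i ≠ 0) :
    ∃ (k : ℕ) (g : Fin k → R) (mu : Fin k → ℝ) (W : R), (∀ i, g i ≠ 0) ∧ (∀ i, mu i ≠ 0) ∧
      (∀ i j, 0 < mu i → mu j < 0 → IsRelPrime (g i) (g j)) ∧
      ∑ i, (g i).totalDegree ≤ ∑ i, (f i).totalDegree ∧ (∏ i, f i) = W * ∏ i, g i ∧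
      ∀ l, logD f lam l = W * logD g mu l := by
  classical
  set L : List (R × ℝ) := Finset.univ.toList.map fun i => (f i, lam i) with hL
  have hLne : ∀ p ∈ L, p.1 ≠ 0 := by
    intro p hp
    rw [hL, List.mem_map] at hp
    obtain ⟨i, _, rfl⟩ := hp
    exact hf i
  obtain ⟨L', b1, b2, b3, b4, ⟨W, b5⟩, b6⟩ := norm_list _ L hLne le_rfl
  have c1 : prodL L = ∏ i, f i := by
    rw [prodL, hL, List.map_map, Finset.prod_map_toList]
    rfl
  have c2 : degL L = ∑ i, (f i).totalDegree := by
    rw [degL, hL, List.map_map, Finset.sum_map_toList]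
    rfl
  have c3 : ∀ l, sigL L l = ∑ i, ld l (f i, lam i) := by
    intro l
    rw [sigL, hL, List.map_map, Finset.sum_map_toList]
    rfl
  have c1' : prodL L' = ∏ i : Fin L'.length, (L'.get i).1 := by
    rw [prodL, ← List.prod_ofFn]
    congr 1
    conv_lhs => rw [← List.ofFn_get L']
    rw [List.map_ofFn]
    rfl
  have c2' : degL L' = ∑ i : Fin L'.length, (L'.get i).1.totalDegree := by
    rw [degL, ← List.sum_ofFn]
    congr 1
    conv_lhs => rw [← List.ofFn_get L']
    rw [List.map_ofFn]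
    rfl
  have c3' : ∀ l, sigL L' l = ∑ i : Fin L'.length, ld l ((L'.get i).1, (L'.get i).2) := by
    intro l
    rw [sigL, ← List.sum_ofFn]
    congr 1
    conv_lhs => rw [← List.ofFn_get L']
    rw [List.map_ofFn]
    rfl
  have hg : ∀ i : Fin L'.length, (L'.get i).1 ≠ 0 := fun i => b1 _ (List.get_mem _ _)
  refine ⟨L'.length, fun i => (L'.get i).1, fun i => (L'.get i).2, W, hg,
    fun i => b2 _ (List.get_mem _ _), fun i j hi hj => b3 _ (List.get_mem _ _) _
      (List.get_mem _ _) hi hj, ?_, ?_, fun l => ?_⟩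
  · rw [← c2, ← c2']
    exact b4
  · rw [← c1, ← c1']
    exact b5
  · apply FaithfulSMul.algebraMap_injective R KK
    rw [map_mul]
    show em _ = em W * em _
    rw [em_logD f lam hf, em_logD _ _ hg, ← c3, ← c3', ← c1, ← c1', b5, b6, map_mul]
    ring

end Pool.Agent.LogCentres
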