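import Pool.Agent.LogCentres.BlowUp
import Pool.Agent.LogCentres.AvgNe
import Pool.Agent.LogCentres.GapPer
import Pool.Agent.LogCentres.ExpGap

/-!
# Moving a factor off its isolated zeros
-/

namespace Pool.Agent.LogCentres

open MvPolynomial Pool.Agent.PlanarCentres Topology

theorem expH_contAt {ι : Type} [Fintype ι] {F : ℝ → ι → R} {G : ℝ → R} (lam : ι → ℝ)
    (nn : ι → ℕ) (hF : ∀ i, Continuous fun z : ℝ × (Fin 2 → ℝ) => eval z.2 (F z.1 i))
    (hG : Continuous fun z : ℝ × (Fin 2 → ℝ) => eval z.2 (G z.1)) {z : ℝ × (Fin 2 → ℝ)}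
    (hz : ∀ i, eval z.2 (F z.1 i) ≠ 0) :
    ContinuousAt (fun z : ℝ × (Fin 2 → ℝ) => expH (F z.1) lam nn (G z.1) z.2) z := by
  unfold expH logF
  refine ContinuousAt.add ?_ (ContinuousAt.div hG.continuousAt ?_ ?_)
  · refine tendsto_finsetSum _ fun i _ => ?_
    refine Filter.Tendsto.mul tendsto_const_nhds ?_
    exact ((hF i).continuousAt.abs).log (abs_ne_zero.2 (hz i))
  · exact (continuous_finsetProd _ fun i _ => (hF i).pow _).continuousAt
  · exact Finset.prod_ne_zero_iff.2 fun i _ => pow_ne_zero _ (hz i)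

theorem cont_avg (f : R) : Continuous fun z : ℝ × (Fin 2 → ℝ) => eval z.2 (avg z.1 f) := by
  simp only [eval_avg]
  have h1 : Continuous fun z : ℝ × (Fin 2 → ℝ) => (![z.2 0 + z.1, z.2 1] : Fin 2 → ℝ) := by
    have h2 : Continuous fun z : ℝ × (Fin 2 → ℝ) => z.2 0 + z.1 :=
      ((continuous_apply 0).comp continuous_snd).add continuous_fst
    have h3 : Continuous fun z : ℝ × (Fin 2 → ℝ) => z.2 1 :=
      (continuous_apply 1).comp continuous_snd
    refine continuous_pi fun i => ?_
    fin_cases i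
    · exact h2
    · exact h3
  exact (((MvPolynomial.continuous_eval f).comp continuous_snd).add
    ((MvPolynomial.continuous_eval f).comp h1)).div_const 2

theorem avg_zero (f : R) : avg 0 f = f := by
  have h : shear 0 0 f = f := by
    have h2 : shear 0 0 = AlgHom.id ℝ R := by
      apply MvPolynomial.algHom_ext
      intro i
      rw [shear, sub, aeval_X]
      fin_cases i <;> simp
    rw [h2]
    rfl
  have h3 : (C (1 / 2) : R) * 2 = 1 := by
    rw [show (2 : R) = C 2 from rfl, ← C_mul]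
    norm_num
  rw [avg, h, ← two_mul, ← mul_assoc, h3, one_mul]

theorem cont_updA {ι : Type} [DecidableEq ι] (f : ι → R) (i₀ i : ι) :
    Continuous fun z : ℝ × (Fin 2 → ℝ) =>
      eval z.2 (Function.update f i₀ (avg z.1 (f i₀)) i) := by
  by_cases h : i = i₀
  · subst h
    simp only [Function.update_self]
    exact cont_avg _
  · simp only [Function.update_of_ne h]
    exact (MvPolynomial.continuous_eval _).comp continuous_snd

theorem updA_zero {ι : Type} [DecidableEq ι] (f : ι → R) (i₀ : ι) :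
    Function.update f i₀ (avg 0 (f i₀)) = f := by
  rw [avg_zero, Function.update_eq_self]

theorem step_persist {ι : Type} [Fintype ι] [DecidableEq ι] (f : ι → R) (lam : ι → ℝ)
    (nn : ι → ℕ) (g : R) (i₀ : ι) {p : Fin 2 → ℝ} {r : ℝ} (hr : 0 < r)
    (h1 : ∀ x ∈ Metric.closedBall p r, ∀ i, eval x (f i) ≠ 0)
    (h : Gap (expH f lam nn g) p r) :
    ∀ᶠ ε in 𝓝[>] (0 : ℝ),
      Gap (expH (Function.update f i₀ (avg ε (f i₀))) lam nn g) p r := by
  have hG : Continuous fun z : ℝ × (Fin 2 → ℝ) => eval z.2 g :=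
    (MvPolynomial.continuous_eval _).comp continuous_snd
  have hc : ∀ x ∈ Metric.closedBall p r, ContinuousAt (fun z : ℝ × (Fin 2 → ℝ) =>
      expH (Function.update f i₀ (avg z.1 (f i₀))) lam nn g z.2) (0, x) := by
    intro x hx
    refine expH_contAt (F := fun ε => Function.update f i₀ (avg ε (f i₀))) (G := fun _ => g)
      lam nn (cont_updA f i₀) hG fun i => ?_
    simp only [updA_zero]
    exact h1 x hx i
  refine Filter.Eventually.filter_mono nhdsWithin_le_nhds
    (gap_persist (Ψ := fun ε => expH (Function.update f i₀ (avg ε (f i₀))) lam nn g) hr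
      (fun x hx => hc x (Metric.sphere_subset_closedBall hx)) ?_ ?_)
  · exact (hc p (Metric.mem_closedBall_self hr.le)).comp (f := fun ε : ℝ => (ε, p))
      (by fun_prop)
  · simp only [updA_zero]
    exact h

theorem step_blow {ι : Type} [Fintype ι] [DecidableEq ι] (f : ι → R) (lam : ι → ℝ)
    (nn : ι → ℕ) (g : R) (i₀ : ι) {p : Fin 2 → ℝ} {r : ℝ} (hr : 0 < r)
    (h1 : ∀ i, ∀ x ∈ Metric.closedBall p r, x ≠ p → eval x (f i) ≠ 0)
    (h2 : ∀ i, i ≠ i₀ → eval p (f i) ≠ 0) (h0 : eval p (f i₀) = 0)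
    (hb : (nn i₀ = 0 ∧ lam i₀ ≠ 0) ∨ (nn i₀ ≠ 0 ∧ eval p g ≠ 0)) :
    ∀ᶠ ε in 𝓝[>] (0 : ℝ),
      Gap (expH (Function.update f i₀ (avg ε (f i₀))) lam nn g) p r := by
  have hG : Continuous fun z : ℝ × (Fin 2 → ℝ) => eval z.2 g :=
    (MvPolynomial.continuous_eval _).comp continuous_snd
  have hc : ∀ x ∈ Metric.sphere p r, ContinuousAt (fun z : ℝ × (Fin 2 → ℝ) =>
      expH (Function.update f i₀ (avg z.1 (f i₀))) lam nn g z.2) (0, x) := by
    intro x hx
    refine expH_contAt (F := fun ε => Function.update f i₀ (avg ε (f i₀))) (G := fun _ => g)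
      lam nn (cont_updA f i₀) hG fun i => ?_
    simp only [updA_zero]
    refine h1 i x (Metric.sphere_subset_closedBall hx) ?_
    rintro rfl
    rw [Metric.mem_sphere, dist_self] at hx
    exact hr.ne hx
  refine gap_blow (Ψ := fun ε => expH (Function.update f i₀ (avg ε (f i₀))) lam nn g) hr hc ?_
  -- the value at the point
  set A : ℝ := ∑ i ∈ Finset.univ.erase i₀, lam i * Real.log |eval p (f i)| with hA
  set B : ℝ := ∏ i ∈ Finset.univ.erase i₀, eval p (f i) ^ nn i with hB
  have hB0 : B ≠ 0 := Finset.prod_ne_zero_iff.2 fun i hi =>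
    pow_ne_zero _ (h2 i (Finset.ne_of_mem_erase hi))
  have hval : ∀ ε : ℝ, expH (Function.update f i₀ (avg ε (f i₀))) lam nn g p =
      A + lam i₀ * Real.log |eval p (avg ε (f i₀))| +
        (eval p g / B) / eval p (avg ε (f i₀)) ^ nn i₀ := by
    intro ε
    have e1 : logF (Function.update f i₀ (avg ε (f i₀))) lam p =
        lam i₀ * Real.log |eval p (avg ε (f i₀))| + A := by
      rw [logF, ← Finset.add_sum_erase _ _ (Finset.mem_univ i₀), Function.update_self, hA]
      congr 1
      refine Finset.sum_congr rfl fun i hi => ?_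
      rw [Function.update_of_ne (Finset.ne_of_mem_erase hi)]
    have e2 : ∏ i, eval p (Function.update f i₀ (avg ε (f i₀)) i) ^ nn i =
        eval p (avg ε (f i₀)) ^ nn i₀ * B := by
      rw [← Finset.mul_prod_erase _ _ (Finset.mem_univ i₀), Function.update_self, hB]
      congr 1
      refine Finset.prod_congr rfl fun i hi => ?_
      rw [Function.update_of_ne (Finset.ne_of_mem_erase hi)]
    rw [expH, e1, e2, div_div, mul_comm B]
    ring
  simp only [hval]
  have ht : Filter.Tendsto (fun ε : ℝ => eval p (avg ε (f i₀))) (𝓝[>] 0) (𝓝[≠] 0) := by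
    rw [tendsto_nhdsWithin_iff]
    constructor
    · have h3 : Continuous fun ε : ℝ => eval p (avg ε (f i₀)) :=
        (cont_avg (f i₀)).comp (f := fun ε : ℝ => (ε, p)) (by fun_prop)
      have h4 := h3.tendsto 0
      rw [avg_zero, h0] at h4
      exact h4.mono_left nhdsWithin_le_nhds
    · exact (avg_ne hr (h1 i₀)).mono fun ε hε => hε p (Metric.mem_closedBall_self hr.le)
  refine (blow_up A (lam i₀) (eval p g / B) (nn i₀) ?_).comp ht
  rcases hb with h | h
  · exact Or.inl h
  · exact Or.inr ⟨h.1, div_ne_zero h.2 hB0⟩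

theorem pert_all {ι : Type} [Fintype ι] [DecidableEq ι] (f : ι → R) (lam : ι → ℝ)
    (nn : ι → ℕ) (g : R) (S : Finset (Fin 2 → ℝ)) {r : ℝ} (hr : 0 < r)
    (h1 : ∀ p ∈ S, ∀ i, ∀ x ∈ Metric.closedBall p r, x ≠ p → eval x (f i) ≠ 0)
    (h2 : ∀ p ∈ S, ∀ i, eval p (f i) = 0 →
      (nn i = 0 ∧ lam i ≠ 0) ∨ (nn i ≠ 0 ∧ eval p g ≠ 0))
    (h3 : ∀ p ∈ S, (∀ i, eval p (f i) ≠ 0) → Gap (expH f lam nn g) p r) (T : Finset ι) :
    ∃ f' : ι → R, (∀ i, (f' i).totalDegree ≤ (f i).totalDegree) ∧ (∀ i, i ∉ T → f' i = f i) ∧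
      (∀ i ∈ T, ∀ p ∈ S, ∀ x ∈ Metric.closedBall p r, eval x (f' i) ≠ 0) ∧
      ∀ p ∈ S, (∀ i, i ∉ T → eval p (f i) ≠ 0) → Gap (expH f' lam nn g) p r := by
  induction T using Finset.induction_on with
  | empty =>
    refine ⟨f, fun i => le_rfl, fun i _ => rfl, fun i hi => absurd hi (Finset.notMem_empty i), ?_⟩
    intro p hp h
    exact h3 p hp fun i => h i (Finset.notMem_empty i)
  | insert i₀ T hi₀ ih =>
    obtain ⟨f', hd, hout, hin, hgap⟩ := ih
    have hfi : f' i₀ = f i₀ := hout i₀ hi₀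
    have e1 : ∀ᶠ ε in 𝓝[>] (0 : ℝ), ∀ p ∈ S, ∀ x ∈ Metric.closedBall p r,
        eval x (avg ε (f' i₀)) ≠ 0 := by
      rw [Filter.eventually_all_finset]
      intro p hp
      rw [hfi]
      exact avg_ne hr (h1 p hp i₀)
    have e2 : ∀ᶠ ε in 𝓝[>] (0 : ℝ), ∀ p ∈ S, (∀ i, i ∉ insert i₀ T → eval p (f i) ≠ 0) →
        Gap (expH (Function.update f' i₀ (avg ε (f' i₀))) lam nn g) p r := by
      rw [Filter.eventually_all_finset]
      intro p hp
      by_cases hall : ∀ i, i ∉ insert i₀ T → eval p (f i) ≠ 0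
      · have hne : ∀ i, i ≠ i₀ → ∀ x ∈ Metric.closedBall p r, eval x (f' i) ≠ 0 := by
          intro i hi x hx
          by_cases hT : i ∈ T
          · exact hin i hT p hp x hx
          · rw [hout i hT]
            by_cases hxp : x = p
            · rw [hxp]
              exact hall i (by
                rw [Finset.mem_insert, not_or]
                exact ⟨hi, hT⟩)
            · exact h1 p hp i x hx hxp
        by_cases hz : eval p (f i₀) = 0
        · refine (step_blow f' lam nn g i₀ hr ?_ ?_ ?_ ?_).mono fun ε hε _ => hε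
          · intro i x hx hxp
            by_cases hii : i = i₀
            · rw [hii, hfi]
              exact h1 p hp i₀ x hx hxp
            · exact hne i hii x hx
          · intro i hi
            exact hne i hi p (Metric.mem_closedBall_self hr.le)
          · rw [hfi]; exact hz
          · exact h2 p hp i₀ hz
        · refine (step_persist f' lam nn g i₀ hr ?_ ?_).mono fun ε hε _ => hε
          · intro x hx i
            by_cases hii : i = i₀
            · rw [hii, hfi]
              by_cases hxp : x = p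
              · rw [hxp]; exact hz
              · exact h1 p hp i₀ x hx hxp
            · exact hne i hii x hx
          · refine hgap p hp fun i hi => ?_
            by_cases hii : i = i₀
            · rw [hii]; exact hz
            · exact hall i (by
                rw [Finset.mem_insert, not_or]
                exact ⟨hii, hi⟩)
      · exact Filter.Eventually.of_forall fun ε h => absurd h hall
    obtain ⟨ε, hε1, hε2⟩ := (e1.and e2).exists
    refine ⟨Function.update f' i₀ (avg ε (f' i₀)), ?_, ?_, ?_, hε2⟩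
    · intro i
      by_cases hii : i = i₀
      · rw [hii, Function.update_self]
        exact (totalDegree_avg ε (f' i₀)).trans (hd i₀)
      · rw [Function.update_of_ne hii]
        exact hd i
    · intro i hi
      rw [Finset.mem_insert, not_or] at hi
      rw [Function.update_of_ne hi.1]
      exact hout i hi.2
    · intro i hi p hp x hx
      by_cases hii : i = i₀
      · rw [hii, Function.update_self]
        exact hε1 p hp x hx
      · rw [Function.update_of_ne hii]
        exact hin i (Finset.mem_of_mem_insert_of_ne hi hii) p hp x hx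

theorem pert_bound {ι : Type} [Fintype ι] [DecidableEq ι] (f : ι → R) (lam : ι → ℝ)
    (nn : ι → ℕ) (g : R) {n : ℕ}
    (hn : ∑ i, (f i).totalDegree +
      max g.totalDegree (∑ i, nn i * (f i).totalDegree) ≤ n + 1)
    (S : Finset (Fin 2 → ℝ)) {r : ℝ} (hr : 0 < r)
    (hdisj : ∀ p ∈ S, ∀ q ∈ S, p ≠ q → Disjoint (Metric.ball p r) (Metric.ball q r))
    (h1 : ∀ p ∈ S, ∀ i, ∀ x ∈ Metric.closedBall p r, x ≠ p → eval x (f i) ≠ 0)
    (h2 : ∀ p ∈ S, ∀ i, eval p (f i) = 0 →
      (nn i = 0 ∧ lam i ≠ 0) ∨ (nn i ≠ 0 ∧ eval p g ≠ 0))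
    (h3 : ∀ p ∈ S, (∀ i, eval p (f i) ≠ 0) → Gap (expH f lam nn g) p r) :
    2 * S.card ≤ n ^ 2 + 1 := by
  rcases S.eq_empty_or_nonempty with rfl | ⟨p₀, hp₀⟩
  · simp
  obtain ⟨f', hd, -, hin, hgap⟩ := pert_all f lam nn g S hr h1 h2 h3 Finset.univ
  refine exp_bound_gap f' lam nn g ?_ ?_ S hr hdisj ?_
  · intro i h0
    have h := hin i (Finset.mem_univ i) p₀ hp₀ p₀ (Metric.mem_closedBall_self hr.le)
    rw [h0, map_zero] at h
    exact h rfl
  · refine le_trans (add_le_add (Finset.sum_le_sum fun i _ => hd i) ?_) hn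
    exact max_le_max le_rfl (Finset.sum_le_sum fun i _ => Nat.mul_le_mul le_rfl (hd i))
  · intro p hp
    refine ⟨fun x hx i => hin i (Finset.mem_univ i) p hp x hx, ?_⟩
    exact hgap p hp fun i hi => absurd (Finset.mem_univ i) hi

end Pool.Agent.LogCentres
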