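import Pool.Agent.LogCentres.Generic

/-!
# General position
-/

namespace Pool.Agent.LogCentres

open MvPolynomial Pool.Agent.PlanarCentres

private theorem step_pt {ι κ : Type} [Fintype ι] [DecidableEq ι] [Fintype κ] [DecidableEq κ]
    {F : ι → R} {α : ι → ℝ} {G : κ → R} {β : κ → ℝ} (μ c : ℝ) (s : Fin 2 → ℝ)
    (h : eval s (XP F α G β) = 0 ∧ eval s (XQ F α G β) = 0 ∧
      0 < eval s (jacP (XP F α G β) (XQ F α G β)) ∧
      (eval s (∏ i, F i) ≠ 0 ∨ eval s (∏ j, G j) ≠ 0)) :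
    eval ![s 0 - μ * s 1 - c, s 1]
        (XP (fun i => shear μ c (F i)) α (fun j => shear μ c (G j)) β) = 0 ∧
      eval ![s 0 - μ * s 1 - c, s 1]
        (XQ (fun i => shear μ c (F i)) α (fun j => shear μ c (G j)) β) = 0 ∧
      0 < eval ![s 0 - μ * s 1 - c, s 1]
        (jacP (XP (fun i => shear μ c (F i)) α (fun j => shear μ c (G j)) β)
          (XQ (fun i => shear μ c (F i)) α (fun j => shear μ c (G j)) β)) ∧
      (eval ![s 0 - μ * s 1 - c, s 1] (∏ i, shear μ c (F i)) ≠ 0 ∨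
        eval ![s 0 - μ * s 1 - c, s 1] (∏ j, shear μ c (G j)) ≠ 0) := by
  obtain ⟨h1, h2⟩ := shear_X F α G β μ c
  rw [h1, h2, shear_jac, map_sub, map_mul, shear_eval, shear_eval, h.1, h.2.1, ← map_prod,
    ← map_prod, shear_eval, shear_eval]
  exact ⟨by ring, rfl, h.2.2.1, h.2.2.2⟩

private theorem prod_deg {ι : Type} (s : Finset ι) {F : ι → R} (hF : ∀ i, F i ≠ 0) :
    (∏ i ∈ s, F i).totalDegree = ∑ i ∈ s, (F i).totalDegree := by
  classical
  induction s using Finset.induction_on with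
  | empty => rw [Finset.prod_empty, Finset.sum_empty, totalDegree_one]
  | insert a s ha ih =>
    rw [Finset.prod_insert ha, Finset.sum_insert ha, totalDegree_mul_of_isDomain (hF a)
      (Finset.prod_ne_zero_iff.mpr fun i _ => hF i), ih]

private theorem mv_inj (μ c : ℝ) :
    Function.Injective (fun s : Fin 2 → ℝ => (![s 0 - μ * s 1 - c, s 1] : Fin 2 → ℝ)) := by
  intro s t h
  have h0 := congrFun h 0
  have h1 := congrFun h 1
  simp only [Matrix.cons_val_zero, Matrix.cons_val_one, Matrix.cons_val_fin_one] at h0 h1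
  funext i
  fin_cases i
  · change s 0 = t 0
    rw [h1] at h0
    linarith
  · exact h1

theorem position {ι κ : Type} [Fintype ι] [DecidableEq ι] [Fintype κ] [DecidableEq κ]
    {F : ι → R} {α : ι → ℝ} {G : κ → R} {β : κ → ℝ} (hF : ∀ i, F i ≠ 0) (_hG : ∀ j, G j ≠ 0)
    (hrel : ∀ i j, IsRelPrime (F i) (G j)) (S : Finset (Fin 2 → ℝ))
    (hS : ∀ s ∈ S, eval s (XP F α G β) = 0 ∧ eval s (XQ F α G β) = 0 ∧
      0 < eval s (jacP (XP F α G β) (XQ F α G β)) ∧
      (eval s (∏ i, F i) ≠ 0 ∨ eval s (∏ j, G j) ≠ 0)) :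
    ∃ (F' : ι → R) (G' : κ → R) (S' : Finset (Fin 2 → ℝ)),
      (∀ i, (F' i).totalDegree ≤ (F i).totalDegree) ∧
      (∀ j, (G' j).totalDegree ≤ (G j).totalDegree) ∧
      (ln (∏ i, F' i)).natDegree = ∑ i, (F i).totalDegree ∧
      IsCoprime (ln (∏ i, F' i)) (ln (∏ j, G' j)) ∧ S'.card = S.card ∧
      ∀ s ∈ S', s 0 ≠ 0 ∧ eval s (XP F' α G' β) = 0 ∧ eval s (XQ F' α G' β) = 0 ∧
        0 < eval s (jacP (XP F' α G' β) (XQ F' α G' β)) ∧
        (eval s (∏ i, F' i) ≠ 0 ∨ eval s (∏ j, G' j) ≠ 0) := by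
  classical
  have hf0 : (∏ i, F i) ≠ 0 := Finset.prod_ne_zero_iff.mpr fun i _ => hF i
  have hdeg : (∏ i, F i).totalDegree = ∑ i, (F i).totalDegree := prod_deg _ hF
  obtain ⟨μ, hμ⟩ := exists_shear hf0
  have hle : (∏ i, shear μ 0 (F i)).totalDegree ≤ ∑ i, (F i).totalDegree := by
    rw [← map_prod, shear_deg, hdeg]
  have hco : coeff (Finsupp.single 1 (∑ i, (F i).totalDegree)) (∏ i, shear μ 0 (F i)) ≠ 0 := by
    rw [← map_prod, ← hdeg]
    exact hμ
  have hrp : IsRelPrime (∏ i, shear μ 0 (F i)) (∏ j, shear μ 0 (G j)) :=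
    IsRelPrime.prod_left fun i _ => IsRelPrime.prod_right fun j _ => shear_relprime μ 0 (hrel i j)
  obtain ⟨c, hc, hnd, hcop⟩ := generic hle hco hrp
    (S.image fun s => ![s 0 - μ * s 1 - 0, s 1])
  have e1 : ∏ i, shear 0 c (shear μ 0 (F i)) = shear 0 c (∏ i, shear μ 0 (F i)) :=
    (map_prod _ _ _).symm
  have e2 : ∏ j, shear 0 c (shear μ 0 (G j)) = shear 0 c (∏ j, shear μ 0 (G j)) :=
    (map_prod _ _ _).symm
  refine ⟨fun i => shear 0 c (shear μ 0 (F i)), fun j => shear 0 c (shear μ 0 (G j)),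
    (S.image fun s => ![s 0 - μ * s 1 - 0, s 1]).image fun s => ![s 0 - 0 * s 1 - c, s 1],
    fun i => ?_, fun j => ?_, ?_, ?_, ?_, ?_⟩
  · rw [shear_deg, shear_deg]
  · rw [shear_deg, shear_deg]
  · exact (congrArg (fun f => (ln f).natDegree) e1).trans hnd
  · exact e1 ▸ e2 ▸ hcop
  · rw [Finset.card_image_of_injective _ (mv_inj 0 c),
      Finset.card_image_of_injective _ (mv_inj μ 0)]
  · intro s hs
    obtain ⟨t, ht, rfl⟩ := Finset.mem_image.mp hs
    have h1 := hc t ht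
    obtain ⟨r, hr, rfl⟩ := Finset.mem_image.mp ht
    refine ⟨?_, step_pt 0 c _ (step_pt μ 0 r (hS r hr))⟩
    simp only [Matrix.cons_val_zero] at h1 ⊢
    intro h2
    apply h1
    linarith

end Pool.Agent.LogCentres
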