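import Mathlib

/-!
# Primitives of closed one-forms with compact support in the plane
-/

namespace Pool.Agent.LogCentres

open Metric Topology

/-- a closed one-form of class `C¹` with support in a closed ball has a primitive that vanishes
off the ball -/
theorem exists_primitive {p : Fin 2 → ℝ} {r : ℝ} (ω : (Fin 2 → ℝ) → ((Fin 2 → ℝ) →L[ℝ] ℝ))
    (hω : ContDiff ℝ 1 ω) (hcl : ∀ x v w, fderiv ℝ ω x v w = fderiv ℝ ω x w v)
    (hsupp : ∀ x, x ∉ closedBall p r → ω x = 0) :
    ∃ θ : (Fin 2 → ℝ) → ℝ, (∀ x, HasFDerivAt θ (ω x) x) ∧ ∀ x, x ∉ closedBall p r → θ x = 0 := by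
  obtain ⟨θ, hθ⟩ := Convex.exists_forall_hasFDerivAt_of_fderiv_symmetric
    (convex_univ (𝕜 := ℝ) (E := Fin 2 → ℝ)) isOpen_univ
    (hω.differentiable one_ne_zero).differentiableOn (fun a _ x y => hcl a x y)
  have hθ' : ∀ x, HasFDerivAt θ (ω x) x := fun x => hθ x (Set.mem_univ x)
  -- constant on open convex sets outside of the ball
  have hconst : ∀ s : Set (Fin 2 → ℝ), IsOpen s → Convex ℝ s →
      (∀ x ∈ s, x ∉ closedBall p r) → ∀ x ∈ s, ∀ y ∈ s, θ x = θ y := by
    intro s hso hsc hs x hx y hy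
    refine hso.is_const_of_fderiv_eq_zero (𝕜 := ℝ) hsc.isPreconnected
      (fun z _ => (hθ' z).differentiableAt.differentiableWithinAt) ?_ hx hy
    intro z hz
    rw [(hθ' z).fderiv, hsupp z (hs z hz)]
    rfl
  have hout : ∀ (x : Fin 2 → ℝ) (i : Fin 2), r < |x i - p i| → x ∉ closedBall p r := by
    intro x i hi hx
    rw [mem_closedBall] at hx
    have h1 := dist_le_pi_dist x p i
    rw [Real.dist_eq] at h1
    linarith
  have hL : ∀ i : Fin 2, ∀ x : Fin 2 → ℝ, x ∈ {x : Fin 2 → ℝ | x i < p i - r} →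
      ∀ y ∈ {x : Fin 2 → ℝ | x i < p i - r}, θ x = θ y := by
    intro i
    refine hconst _ (isOpen_lt (continuous_apply i) continuous_const)
      (convex_halfSpace_lt (LinearMap.proj (R := ℝ) i).isLinear _) ?_
    intro x hx
    refine hout x i (lt_of_lt_of_le ?_ (neg_le_abs _))
    have : x i < p i - r := hx
    linarith
  have hR : ∀ i : Fin 2, ∀ x : Fin 2 → ℝ, x ∈ {x : Fin 2 → ℝ | p i + r < x i} →
      ∀ y ∈ {x : Fin 2 → ℝ | p i + r < x i}, θ x = θ y := by
    intro i
    refine hconst _ (isOpen_lt continuous_const (continuous_apply i))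
      (convex_halfSpace_gt (LinearMap.proj (R := ℝ) i).isLinear _) ?_
    intro x hx
    refine hout x i (lt_of_lt_of_le ?_ (le_abs_self _))
    have : p i + r < x i := hx
    linarith
  have hr1 : r < |r| + 1 := by linarith [le_abs_self r]
  set K : ℝ := |r| + 1
  have key : ∀ x, x ∉ closedBall p r → θ x = θ ![p 0 - K, p 1 - K] := by
    intro x hx
    have hb : θ ![p 0 + K, p 1 - K] = θ ![p 0 - K, p 1 - K] := by
      refine hL 1 _ ?_ _ ?_ <;> simp [hr1]
    have hd : θ ![p 0 - K, p 1 + K] = θ ![p 0 - K, p 1 - K] := by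
      refine hL 0 _ ?_ _ ?_ <;> simp [hr1]
    have : ∃ i, r < |x i - p i| := by
      by_contra hn
      push Not at hn
      have hr : 0 ≤ r := le_trans (abs_nonneg _) (hn 0)
      refine hx ?_
      rw [mem_closedBall, dist_pi_le_iff hr]
      intro i
      rw [Real.dist_eq]
      exact hn i
    obtain ⟨i, hi⟩ := this
    rw [lt_abs] at hi
    fin_cases i
    · simp only [Fin.zero_eta, Fin.isValue] at hi
      rcases hi with hi | hi
      · rw [← hb]
        refine hR 0 _ ?_ _ ?_
        · show p 0 + r < x 0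
          linarith
        · simp [hr1]
      · refine hL 0 _ ?_ _ ?_
        · show x 0 < p 0 - r
          linarith
        · simp [hr1]
    · simp only [Fin.mk_one, Fin.isValue] at hi
      rcases hi with hi | hi
      · rw [← hd]
        refine hR 1 _ ?_ _ ?_
        · show p 1 + r < x 1
          linarith
        · simp [hr1]
      · refine hL 1 _ ?_ _ ?_
        · show x 1 < p 1 - r
          linarith
        · simp [hr1]
  refine ⟨fun x => θ x - θ ![p 0 - K, p 1 - K], fun x => (hθ' x).sub_const _, fun x hx => ?_⟩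
  show θ x - θ ![p 0 - K, p 1 - K] = 0
  rw [key x hx, sub_self]

end Pool.Agent.LogCentres
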