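import Pool.Agent.LogCentres.RdBal
import Pool.Agent.LogCentres.Swap

/-!
# Reduced systems in the new chart
-/

namespace Pool.Agent.LogCentres

open MvPolynomial Pool.Agent.PlanarCentres

theorem swap2_pos {ι κ : Type} [Fintype ι] [DecidableEq ι] [Fintype κ] [DecidableEq κ]
    {F : ι → R} {α : ι → ℝ} {G : κ → R} {β : κ → ℝ} {dd : ι → ℕ} {ee : κ → ℕ} {a b : ℕ}
    (hα : ∀ i, 0 < α i) (hβ : ∀ j, 0 < β j)
    (hF : ∀ i, (F i).totalDegree ≤ dd i) (hG : ∀ j, (G j).totalDegree ≤ ee j)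
    (ha : ∑ i, dd i = a + 1) (hb : ∑ j, ee j = b)
    (hD : ∑ j, β j * ee j < ∑ i, α i * dd i)
    (hn : (ln (∏ i, F i)).natDegree = a + 1) (hc : IsCoprime (ln (∏ i, F i)) (ln (∏ j, G j)))
    {K P Q : R} {k n : ℕ} (hkn : k + n = a + b) (hK : K.totalDegree ≤ k)
    (hP : P.totalDegree ≤ n) (hQ : Q.totalDegree ≤ n)
    (hKP : K * P = XP F α G β) (hKQ : K * Q = XQ F α G β)
    (S : Finset (Fin 2 → ℝ))
    (hS : ∀ s ∈ S, s 0 ≠ 0 ∧ eval s P = 0 ∧ eval s Q = 0 ∧ 0 < eval s (jacP P Q) ∧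
      (eval s (∏ i, F i) ≠ 0 ∨ eval s (∏ j, G j) ≠ 0)) :
    2 * S.card ≤ n * n + 1 := by
  have hN : ∑ i, dd i + ∑ j, ee j = (a + b) + 1 := by omega
  obtain ⟨h1, h2⟩ := chart_base (α := α) (β := β) hF hG hN
  have mP : homk (a + b) (XP F α G β) = homk k K * homk n P := by
    rw [← hKP, ← hkn, homk_mul hK hP]
  have mQ : homk (a + b) (XQ F α G β) = homk k K * homk n Q := by
    rw [← hKQ, ← hkn, homk_mul hK hQ]
  obtain ⟨D, hDe⟩ : ∃ D, D = ∑ i, α i * dd i - ∑ j, β j * ee j := ⟨_, rfl⟩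
  rw [← hDe] at h2
  have hD0 : 0 < D := by linarith
  obtain ⟨o1, o2⟩ := opt_XP (fun i => homk (dd i) (F i)) α (fun j => homk (ee j) (G j)) β D
  rw [h1, mP] at o1
  rw [h2, mP, mQ] at o2
  have hprod : ∏ o : Option κ, optF (fun j => homk (ee j) (G j)) o =
      X 0 * ∏ j, homk (ee j) (G j) := by
    rw [Fintype.prod_option]
    rfl
  have hdG : (∏ j, homk (ee j) (G j)).totalDegree ≤ b :=
    totalDegree_prod_le _ (fun j => deg_homk _ (hG j)) hb
  have dP := deg_homk (k := n) _ hP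
  have dQ := deg_homk (k := n) _ hQ
  have hX : ∀ i : Fin 2, (X i * homk n P : R).totalDegree ≤ n + 1 := by
    intro i
    refine (totalDegree_mul _ _).trans ?_
    have := totalDegree_X (R := ℝ) i
    omega
  rw [← card_sw fun s hs => (hS s hs).1]
  refine balanced2 (F := fun i => homk (dd i) (F i)) (G := optF fun j => homk (ee j) (G j))
    (α := α) (β := optV D β) (dd := dd) (ee := optN ee) (a := a) (b := b) (K := homk k K)
    (P := X 0 * homk n P) (Q := X 1 * homk n P - homk n Q) (k := k) (d := n)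
    hα ?_ (fun i => deg_homk _ (hF i)) ?_ ha ?_ ?_ ?_ hkn (deg_homk _ hK) (hX 0) ?_ ?_ ?_ ?_ _ ?_
  · rintro (_ | j)
    · exact hD0
    · exact hβ j
  · rintro (_ | j)
    · exact (totalDegree_X (R := ℝ) (0 : Fin 2)).le
    · exact deg_homk _ (hG j)
  · rw [Fintype.sum_option]
    change 1 + ∑ j, ee j = b + 1
    omega
  · rw [topP_prod hF ha, hn]
  · rw [topP_prod hF ha, hprod, add_comm b 1,
      topP_mul (totalDegree_X (R := ℝ) (0 : Fin 2)).le hdG, topP_X0, one_mul, topP_prod hG hb]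
    exact hc
  · exact (totalDegree_sub _ _).trans (max_le (hX 1) (dQ.trans (Nat.le_succ n)))
  · have e : X 0 * (X 1 * homk n P - homk n Q) - X 1 * (X 0 * homk n P) =
        -(X 0 * homk n Q) := by ring
    rw [e, totalDegree_neg]
    refine (totalDegree_mul _ _).trans ?_
    have := totalDegree_X (R := ℝ) (0 : Fin 2)
    omega
  · rw [o1]
    ring
  · rw [o2]
    ring
  · intro s' hs'
    obtain ⟨s, hs, rfl⟩ := Finset.mem_image.1 hs'
    obtain ⟨h0, hP0, hQ0, hj, hne⟩ := hS s hs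
    obtain ⟨e1, e2, e3⟩ := chart_pt hP hQ h0 hP0 hQ0 hj
    change eval (sw s) _ = 0 at e1
    change eval (sw s) _ = 0 at e2
    refine ⟨by rw [map_mul, e1, mul_zero], by rw [map_sub, map_mul, e1, e2]; ring, e3, ?_⟩
    rw [hprod, ← homk_prod Finset.univ F dd fun i _ => hF i,
      ← homk_prod Finset.univ G ee fun j _ => hG j, map_mul,
      ev_sw h0 (totalDegree_prod_le F hF rfl), ev_sw h0 (totalDegree_prod_le G hG rfl), eval_X]
    exact hne.imp (fun h => mul_ne_zero (pow_ne_zero _ (inv_ne_zero h0)) h)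
      (fun h => mul_ne_zero (inv_ne_zero h0) (mul_ne_zero (pow_ne_zero _ (inv_ne_zero h0)) h))

end Pool.Agent.LogCentres
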