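import Pool.Agent.LogCentres.RdBal
import Pool.Agent.LogCentres.Swap

/-!
# Reduced systems in the new chart, balanced exponents
-/

namespace Pool.Agent.LogCentres

open MvPolynomial Pool.Agent.PlanarCentres

/-- homogenising with one degree more -/
theorem b_homk_succ {k : ℕ} {f : R} (hf : f.totalDegree ≤ k) :
    homk (k + 1) f = X 0 * homk k f := by
  have h1 : homk 1 (1 : R) = X 0 := by
    have h : (1 : R) = monomial 0 1 := rfl
    rw [h, homk_mon]
    simp
  have h2 := homk_mul (l := 1) (g := 1) hf (by rw [totalDegree_one]; exact Nat.zero_le _)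
  rw [mul_one, h1, mul_comm] at h2
  exact h2

/-- homogenising twice gives the polynomial back -/
theorem b_homk_homk {k : ℕ} {f : R} (hf : f.totalDegree ≤ k) : homk k (homk k f) = f := by
  refine ind_deg (P := fun f => homk k (homk k f) = f)
    (by simp) (fun f g h h' => by rw [map_add, map_add, h, h']) ?_ f hf
  intro s c hs
  obtain ⟨j, rfl⟩ := Nat.exists_eq_add_of_le hs
  have h1 : homk (s 0 + s 1 + j) (monomial s c : R) =
      monomial (Finsupp.single 0 j + Finsupp.single 1 (s 1)) c := by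
    rw [homk_mon, mon_eq, show s 0 + s 1 + j - s 0 - s 1 = j by omega]
    simp
  rw [h1, homk_mon, mon_eq]
  have h2 : (Finsupp.single (0 : Fin 2) j + Finsupp.single 1 (s 1) : Fin 2 →₀ ℕ) 0 = j := by simp
  have h3 : (Finsupp.single (0 : Fin 2) j + Finsupp.single 1 (s 1) : Fin 2 →₀ ℕ) 1 = s 1 := by
    simp
  rw [h2, h3, show s 0 + s 1 + j - j - s 1 = s 0 by omega]

theorem b_not_dvd {K : R} {k : ℕ} (hK0 : K ≠ 0) (hK : K.totalDegree = k) :
    ¬ (X 0 : R) ∣ homk k K := by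
  rintro ⟨M, hM⟩
  have h1 := b_homk_homk hK.le
  have hM0 : M ≠ 0 := by
    rintro rfl
    rw [hM, mul_zero, map_zero] at h1
    exact hK0 h1.symm
  have h2 : (X 0 * M : R).totalDegree = 1 + M.totalDegree := by
    rw [totalDegree_mul_of_isDomain (X_ne_zero 0) hM0, totalDegree_X]
  have h3 := deg_homk K hK.le
  rw [hM, h2] at h3
  obtain ⟨j, rfl⟩ : ∃ j, k = j + 1 := ⟨k - 1, by omega⟩
  have h4 : M.totalDegree ≤ j := by omega
  rw [hM, homk_X0_mul h4] at h1
  have h5 := deg_homk M h4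
  rw [h1, hK] at h5
  omega

theorem swap2_zeroA {ι κ : Type} [Fintype ι] [DecidableEq ι] [Fintype κ] [DecidableEq κ]
    {F : ι → R} {α : ι → ℝ} {G : κ → R} {β : κ → ℝ} {dd : ι → ℕ} {ee : κ → ℕ} {a b : ℕ}
    (hα : ∀ i, 0 < α i) (hβ : ∀ j, 0 < β j)
    (hF : ∀ i, (F i).totalDegree ≤ dd i) (hG : ∀ j, (G j).totalDegree ≤ ee j)
    (ha : ∑ i, dd i = a + 1) (hb : ∑ j, ee j = b + 1)
    (hD : ∑ j, β j * ee j = ∑ i, α i * dd i)
    (hn : (ln (∏ i, F i)).natDegree = a + 1) (hc : IsCoprime (ln (∏ i, F i)) (ln (∏ j, G j)))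
    {K P Q : R} {k n : ℕ} (hkn : k + n = a + b) (hK : K.totalDegree ≤ k)
    (hP : P.totalDegree ≤ n) (hQ : Q.totalDegree ≤ n)
    (hKP : K * P = XP F α G β) (hKQ : K * Q = XQ F α G β)
    (S : Finset (Fin 2 → ℝ))
    (hS : ∀ s ∈ S, s 0 ≠ 0 ∧ eval s P = 0 ∧ eval s Q = 0 ∧ 0 < eval s (jacP P Q) ∧
      (eval s (∏ i, F i) ≠ 0 ∨ eval s (∏ j, G j) ≠ 0)) :
    2 * S.card ≤ n * n + 1 := by
  have hN : ∑ i, dd i + ∑ j, ee j = (k + n + 1) + 1 := by omega
  obtain ⟨h1, h2⟩ := chart_base (α := α) (β := β) hF hG hN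
  have hKPd : (K * P).totalDegree ≤ k + n :=
    (totalDegree_mul _ _).trans (add_le_add hK hP)
  have hKQd : (K * Q).totalDegree ≤ k + n :=
    (totalDegree_mul _ _).trans (add_le_add hK hQ)
  rw [hD, sub_self, map_zero, zero_mul, add_zero, ← hKP, ← hKQ, b_homk_succ hKPd,
    b_homk_succ hKQd, homk_mul hK hP, homk_mul hK hQ] at h2
  rw [← hKP, b_homk_succ hKPd, homk_mul hK hP] at h1
  have hXQ' : homk k K * (X 1 * homk n P - homk n Q) =
      XQ (fun i => homk (dd i) (F i)) α (fun j => homk (ee j) (G j)) β := by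
    apply mul_left_cancel₀ (X_ne_zero (R := ℝ) (0 : Fin 2))
    rw [h2]
    ring
  have hXP' : homk k K * (X 0 * homk n P) =
      XP (fun i => homk (dd i) (F i)) α (fun j => homk (ee j) (G j)) β := by
    rw [h1]
    ring
  have hXd : ∀ (i : Fin 2) (f : R), f.totalDegree ≤ n → (X i * homk n f : R).totalDegree ≤ n + 1 := by
    intro i f hf
    refine (totalDegree_mul _ _).trans ?_
    have h3 := (totalDegree_X (R := ℝ) i).le
    have h4 := deg_homk f hf
    omega
  rw [← card_sw fun s hs => (hS s hs).1]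
  refine balanced2 (F := fun i => homk (dd i) (F i)) (G := fun j => homk (ee j) (G j)) (α := α)
    (β := β) (dd := dd) (ee := ee) (K := homk k K) (P := X 0 * homk n P)
    (Q := X 1 * homk n P - homk n Q) hα hβ
    (fun i => deg_homk _ (hF i)) (fun j => deg_homk _ (hG j))
    ha hb ?_ ?_ hkn (deg_homk _ hK) (hXd 0 P hP) ?_ ?_ hXP' hXQ' _ ?_
  · rw [topP_prod hF ha, hn]
  · rw [topP_prod hF ha, topP_prod hG hb]
    exact hc
  · exact (totalDegree_sub _ _).trans (max_le (hXd 1 P hP) ((deg_homk _ hQ).trans (by omega)))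
  · have h5 : X 0 * (X 1 * homk n P - homk n Q) - X 1 * (X 0 * homk n P) =
        -(X 0 * homk n Q) := by
      ring
    rw [h5, totalDegree_neg]
    exact hXd 0 Q hQ
  · intro s' hs'
    obtain ⟨s, hs, rfl⟩ := Finset.mem_image.1 hs'
    obtain ⟨h0, hP', hQ', hj, hne⟩ := hS s hs
    obtain ⟨e1, e2, e3⟩ := chart_pt hP hQ h0 hP' hQ' hj
    change eval (sw s) _ = 0 at e1
    change eval (sw s) _ = 0 at e2
    refine ⟨by rw [map_mul, e1, mul_zero], by rw [map_sub, map_mul, e1, e2]; ring, e3, ?_⟩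
    rw [← homk_prod Finset.univ F dd fun i _ => hF i, ← homk_prod Finset.univ G ee fun j _ => hG j,
      ev_sw h0 (totalDegree_prod_le F hF rfl), ev_sw h0 (totalDegree_prod_le G hG rfl)]
    exact hne.imp (fun h => mul_ne_zero (pow_ne_zero _ (inv_ne_zero h0)) h)
      (fun h => mul_ne_zero (pow_ne_zero _ (inv_ne_zero h0)) h)

theorem swap2_zeroB {ι κ : Type} [Fintype ι] [DecidableEq ι] [Fintype κ] [DecidableEq κ]
    {F : ι → R} {α : ι → ℝ} {G : κ → R} {β : κ → ℝ} {dd : ι → ℕ} {ee : κ → ℕ} {a b : ℕ}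
    (hα : ∀ i, 0 < α i) (hβ : ∀ j, 0 < β j)
    (hF : ∀ i, (F i).totalDegree ≤ dd i) (hG : ∀ j, (G j).totalDegree ≤ ee j)
    (ha : ∑ i, dd i = a + 1) (hb : ∑ j, ee j = b + 1)
    (hD : ∑ j, β j * ee j = ∑ i, α i * dd i)
    (hn : (ln (∏ i, F i)).natDegree = a + 1) (hc : IsCoprime (ln (∏ i, F i)) (ln (∏ j, G j)))
    {K P Q : R} {k d : ℕ} (hkd : k + d = a + b) (hK0 : K ≠ 0) (hK : K.totalDegree = k)
    (hP : P.totalDegree ≤ d + 1) (hQ : Q.totalDegree ≤ d + 1)
    (hKP : K * P = XP F α G β) (hKQ : K * Q = XQ F α G β)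
    (S : Finset (Fin 2 → ℝ))
    (hS : ∀ s ∈ S, s 0 ≠ 0 ∧ eval s P = 0 ∧ eval s Q = 0 ∧ 0 < eval s (jacP P Q) ∧
      (eval s (∏ i, F i) ≠ 0 ∨ eval s (∏ j, G j) ≠ 0)) :
    2 * S.card ≤ d * d + 1 := by
  have hN : ∑ i, dd i + ∑ j, ee j = (k + (d + 1)) + 1 := by omega
  obtain ⟨h1, h2⟩ := chart_base (α := α) (β := β) hF hG hN
  rw [hD, sub_self, map_zero, zero_mul, add_zero, ← hKP, ← hKQ, homk_mul hK.le hP,
    homk_mul hK.le hQ] at h2
  rw [← hKP, homk_mul hK.le hP] at h1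
  have hprime : Prime (X 0 : R) := X_prime 
  have hdvd : (X 0 : R) ∣ homk k K * (X 1 * homk (d + 1) P - homk (d + 1) Q) := by
    refine ⟨XQ (fun i => homk (dd i) (F i)) α (fun j => homk (ee j) (G j)) β, ?_⟩
    rw [h2]
    ring
  obtain ⟨Qo, hQo⟩ := (hprime.dvd_or_dvd hdvd).resolve_left (b_not_dvd hK0 hK)
  have hXQ' : homk k K * Qo = XQ (fun i => homk (dd i) (F i)) α (fun j => homk (ee j) (G j)) β := by
    apply mul_left_cancel₀ hprime.ne_zero
    rw [h2]
    linear_combination (-(homk k K)) * hQo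
  have hQod : Qo.totalDegree ≤ d + 1 := by
    by_cases hz : Qo = 0
    · rw [hz, totalDegree_zero]
      exact Nat.zero_le _
    · have h3 : (X 0 * Qo : R).totalDegree = 1 + Qo.totalDegree := by
        rw [totalDegree_mul_of_isDomain hprime.ne_zero hz, totalDegree_X]
      have h4 : (X 1 * homk (d + 1) P - homk (d + 1) Q).totalDegree ≤ 1 + (d + 1) := by
        refine (totalDegree_sub _ _).trans (max_le ?_ ?_)
        · refine (totalDegree_mul _ _).trans ?_
          exact add_le_add (totalDegree_X (R := ℝ) (1 : Fin 2)).le (deg_homk _ hP)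
        · exact (deg_homk _ hQ).trans (by omega)
      rw [hQo, h3] at h4
      omega
  rw [← card_sw fun s hs => (hS s hs).1]
  refine balanced2 (F := fun i => homk (dd i) (F i)) (G := fun j => homk (ee j) (G j)) (α := α)
    (β := β) (dd := dd) (ee := ee) (K := homk k K) (P := homk (d + 1) P) (Q := Qo) hα hβ
    (fun i => deg_homk _ (hF i)) (fun j => deg_homk _ (hG j))
    ha hb ?_ ?_ hkd (deg_homk _ hK.le) (deg_homk _ hP) hQod ?_ h1.symm hXQ' _ ?_
  · rw [topP_prod hF ha, hn]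
  · rw [topP_prod hF ha, topP_prod hG hb]
    exact hc
  · have h5 : X 0 * Qo - X 1 * homk (d + 1) P = - homk (d + 1) Q := by
      rw [← hQo]
      ring
    rw [h5, totalDegree_neg]
    exact deg_homk _ hQ
  · intro s' hs'
    obtain ⟨s, hs, rfl⟩ := Finset.mem_image.1 hs'
    obtain ⟨h0, hP', hQ', hj, hne⟩ := hS s hs
    obtain ⟨e1, e2, e3⟩ := chart_pt0 hP hQ hQo.symm h0 hP' hQ' hj
    refine ⟨e1, e2, e3, ?_⟩
    rw [← homk_prod Finset.univ F dd fun i _ => hF i, ← homk_prod Finset.univ G ee fun j _ => hG j,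
      ev_sw h0 (totalDegree_prod_le F hF rfl), ev_sw h0 (totalDegree_prod_le G hG rfl)]
    exact hne.imp (fun h => mul_ne_zero (pow_ne_zero _ (inv_ne_zero h0)) h)
      (fun h => mul_ne_zero (pow_ne_zero _ (inv_ne_zero h0)) h)

end Pool.Agent.LogCentres
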