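import Pool.Agent.LogCentres.RdPos
import Pool.Agent.LogCentres.RdSwap
import Pool.Agent.LogCentres.RdSwap0
import Pool.Agent.LogCentres.Affine

/-!
# The bound for zeros of reduced systems
-/

namespace Pool.Agent.LogCentres

open MvPolynomial Pool.Agent.PlanarCentres

private theorem ra_pd (g : R) (k : Fin 2) (hg : g.totalDegree = 0) : pderiv k g = 0 := by
  rw [totalDegree_eq_zero_iff_eq_C.1 hg, pderiv_C]

private theorem ra_log {τ : Type} [Fintype τ] [DecidableEq τ] (H : τ → R) (γ : τ → ℝ) (k : Fin 2)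
    (hH : ∀ i, (H i).totalDegree = 0) : logD H γ k = 0 := by
  rw [logD]
  exact Finset.sum_eq_zero fun i _ => by rw [ra_pd _ _ (hH i), mul_zero, smul_zero]

private theorem ra_zero {τ : Type} [Fintype τ] {H : τ → R} {γ : τ → ℝ} (hγ : ∀ i, 0 < γ i)
    (h : ∑ i, γ i * ((H i).totalDegree : ℝ) = 0) (i : τ) : (H i).totalDegree = 0 := by
  have := (Finset.sum_eq_zero_iff_of_nonneg (fun i _ =>
    mul_nonneg (hγ i).le (Nat.cast_nonneg _))).1 h i (Finset.mem_univ i)
  rcases mul_eq_zero.1 this with h1 | h1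
  · exact absurd h1 (hγ i).ne'
  · exact_mod_cast h1

theorem affine2_half {ι κ : Type} [Fintype ι] [DecidableEq ι] [Fintype κ] [DecidableEq κ]
    {F : ι → R} {α : ι → ℝ} {G : κ → R} {β : κ → ℝ} {n : ℕ}
    (hα : ∀ i, 0 < α i) (hβ : ∀ j, 0 < β j) (hF : ∀ i, F i ≠ 0) (hG : ∀ j, G j ≠ 0)
    (hrel : ∀ i j, IsRelPrime (F i) (G j)) {K P Q : R} (hK : K ≠ 0)
    (hP : P.totalDegree ≤ n) (hQ : Q.totalDegree ≤ n)
    (hKP : K * P = XP F α G β) (hKQ : K * Q = XQ F α G β)
    (hD : ∑ j, β j * ((G j).totalDegree : ℝ) ≤ ∑ i, α i * ((F i).totalDegree : ℝ))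
    (S : Finset (Fin 2 → ℝ))
    (hS : ∀ s ∈ S, eval s P = 0 ∧ eval s Q = 0 ∧ 0 < eval s (jacP P Q) ∧
      (eval s (∏ i, F i) ≠ 0 ∨ eval s (∏ j, G j) ≠ 0)) :
    2 * S.card ≤ n * n + 1 := by
  obtain ⟨F', G', K', P', Q', S', hF', hG', hdeg, hcop, hK', hP', hQ', hKP', hKQ', hcard, hS'⟩ :=
    position2 hF hG hrel hK hP hQ hKP hKQ S hS
  rw [← hcard]
  rcases S'.eq_empty_or_nonempty with h0 | ⟨s₀, hs₀⟩
  · rw [h0, Finset.card_empty]
    omega
  have hj := (hS' s₀ hs₀).2.2.2.1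
  have hPne : P' ≠ 0 := by
    rintro rfl
    rw [jacP, map_zero, map_zero, zero_mul, zero_mul, sub_zero, map_zero] at hj
    exact lt_irrefl _ hj
  have hQne : Q' ≠ 0 := by
    rintro rfl
    rw [jacP, map_zero, map_zero, mul_zero, mul_zero, sub_zero, map_zero] at hj
    exact lt_irrefl _ hj
  obtain ⟨n₀, hn₀⟩ : ∃ n₀, n₀ = max P'.totalDegree Q'.totalDegree := ⟨_, rfl⟩
  have hP0 : P'.totalDegree ≤ n₀ := hn₀ ▸ le_max_left _ _
  have hQ0 : Q'.totalDegree ≤ n₀ := hn₀ ▸ le_max_right _ _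
  have hn₀n : n₀ ≤ n := hn₀ ▸ max_le hP' hQ'
  have hn₀1 : 1 ≤ n₀ := by
    by_contra hcon
    have h1 : P'.totalDegree = 0 := by omega
    rw [jacP, ra_pd _ _ h1, ra_pd _ _ h1, zero_mul, zero_mul, sub_zero, map_zero] at hj
    exact lt_irrefl _ hj
  -- all polynomials constant
  have hall : ¬ ((∀ i, (F i).totalDegree = 0) ∧ ∀ j, (G j).totalDegree = 0) := by
    rintro ⟨h1, h2⟩
    have h3 : ∀ i, (F' i).totalDegree = 0 := fun i => by
      have := hF' i
      rw [h1 i] at this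
      omega
    have h4 : ∀ j, (G' j).totalDegree = 0 := fun j => by
      have := hG' j
      rw [h2 j] at this
      omega
    rw [XP, ra_log F' α 1 h3, ra_log G' β 1 h4, mul_zero, mul_zero, sub_zero] at hKP'
    rcases mul_eq_zero.1 hKP' with h5 | h5
    · exact hK' h5
    · exact hPne h5
  obtain ⟨a, ha⟩ : ∃ a, ∑ i, (F i).totalDegree = a + 1 := by
    rcases Nat.eq_zero_or_pos (∑ i, (F i).totalDegree) with h | h
    · exfalso
      have h0 : ∑ i, α i * ((F i).totalDegree : ℝ) = 0 :=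
        Finset.sum_eq_zero fun i _ => by
          rw [(Finset.sum_eq_zero_iff.1 h) i (Finset.mem_univ i)]; simp
      have h1 : 0 ≤ ∑ j, β j * ((G j).totalDegree : ℝ) :=
        Finset.sum_nonneg fun j _ => mul_nonneg (hβ j).le (Nat.cast_nonneg _)
      exact hall ⟨ra_zero hα h0, ra_zero hβ (le_antisymm (hD.trans h0.le) h1)⟩
    · exact ⟨_, (Nat.sub_add_cancel h).symm⟩
  obtain ⟨B, hB⟩ : ∃ B, ∑ j, (G j).totalDegree = B := ⟨_, rfl⟩
  have hN : ∑ i, (F i).totalDegree + ∑ j, (G j).totalDegree = (a + B) + 1 := by omega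
  obtain ⟨hXP, hXQ⟩ := deg_XP (α := α) (β := β) hF' hG' hN
  have hdP : K'.totalDegree + P'.totalDegree ≤ a + B := by
    rw [← totalDegree_mul_of_isDomain hK' hPne, hKP']
    exact hXP
  have hdQ : K'.totalDegree + Q'.totalDegree ≤ a + B := by
    rw [← totalDegree_mul_of_isDomain hK' hQne, hKQ']
    exact hXQ
  have hdn : K'.totalDegree + n₀ ≤ a + B := by
    rw [hn₀]
    rcases max_cases P'.totalDegree Q'.totalDegree with h | h <;> omega
  have hnn : n₀ * n₀ ≤ n * n := Nat.mul_le_mul hn₀n hn₀n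
  rcases hD.lt_or_eq with hlt | heq
  · have key := swap2_pos (F := F') (G := G') (α := α) (β := β)
      (dd := fun i => (F i).totalDegree) (ee := fun j => (G j).totalDegree) hα hβ hF' hG' ha hB
      hlt (by rw [hdeg, ha]) hcop (K := K') (P := P') (Q := Q') (k := a + B - n₀) (n := n₀)
      (by omega) (by omega) hP0 hQ0 hKP' hKQ' S' hS'
    omega
  · obtain ⟨b, hb⟩ : ∃ b, ∑ j, (G j).totalDegree = b + 1 := by
      rcases Nat.eq_zero_or_pos (∑ j, (G j).totalDegree) with h' | h'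
      · exfalso
        have h0 : ∑ j, β j * ((G j).totalDegree : ℝ) = 0 :=
          Finset.sum_eq_zero fun j _ => by
            rw [(Finset.sum_eq_zero_iff.1 h') j (Finset.mem_univ j)]; simp
        have hFc := ra_zero hα (heq.symm.trans h0)
        have : ∑ i, (F i).totalDegree = 0 := Finset.sum_eq_zero fun i _ => hFc i
        omega
      · exact ⟨_, (Nat.sub_add_cancel h').symm⟩
    have hBb : B = b + 1 := hB.symm.trans hb
    rcases Nat.lt_or_ge (K'.totalDegree + n₀) (a + B) with h | h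
    · have key := swap2_zeroA (F := F') (G := G') (α := α) (β := β)
        (dd := fun i => (F i).totalDegree) (ee := fun j => (G j).totalDegree) hα hβ hF' hG' ha hb
        heq (by rw [hdeg, ha]) hcop (K := K') (P := P') (Q := Q') (k := a + b - n₀) (n := n₀)
        (by omega) (by omega) hP0 hQ0 hKP' hKQ' S' hS'
      omega
    · obtain ⟨d, hd⟩ : ∃ d, n₀ = d + 1 := ⟨n₀ - 1, by omega⟩
      have key := swap2_zeroB (F := F') (G := G') (α := α) (β := β)
        (dd := fun i => (F i).totalDegree) (ee := fun j => (G j).totalDegree) hα hβ hF' hG' ha hb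
        heq (by rw [hdeg, ha]) hcop (K := K') (P := P') (Q := Q') (k := K'.totalDegree) (d := d)
        (by omega) hK' rfl (by omega) (by omega) hKP' hKQ' S' hS'
      have h2 : d * d ≤ n * n := Nat.mul_le_mul (by omega) (by omega)
      omega

theorem affine2_bound {ι κ : Type} [Fintype ι] [DecidableEq ι] [Fintype κ] [DecidableEq κ]
    {F : ι → R} {α : ι → ℝ} {G : κ → R} {β : κ → ℝ} {n : ℕ}
    (hα : ∀ i, 0 < α i) (hβ : ∀ j, 0 < β j) (hF : ∀ i, F i ≠ 0) (hG : ∀ j, G j ≠ 0)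
    (hrel : ∀ i j, IsRelPrime (F i) (G j)) {K P Q : R} (hK : K ≠ 0)
    (hP : P.totalDegree ≤ n) (hQ : Q.totalDegree ≤ n)
    (hKP : K * P = XP F α G β) (hKQ : K * Q = XQ F α G β)
    (S : Finset (Fin 2 → ℝ))
    (hS : ∀ s ∈ S, eval s P = 0 ∧ eval s Q = 0 ∧ 0 < eval s (jacP P Q) ∧
      (eval s (∏ i, F i) ≠ 0 ∨ eval s (∏ j, G j) ≠ 0)) :
    2 * S.card ≤ n * n + 1 := by
  rcases le_total (∑ j, β j * ((G j).totalDegree : ℝ))
    (∑ i, α i * ((F i).totalDegree : ℝ)) with h | h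
  · exact affine2_half hα hβ hF hG hrel hK hP hQ hKP hKQ h S hS
  · obtain ⟨e1, e2⟩ := X_symm F α G β
    refine affine2_half hβ hα hG hF (fun i j => (hrel j i).symm) (K := K) (P := -P) (Q := -Q) hK
      (by rw [totalDegree_neg]; exact hP) (by rw [totalDegree_neg]; exact hQ)
      (by rw [mul_neg, hKP, e1]) (by rw [mul_neg, hKQ, e2]) h S fun s hs => ?_
    obtain ⟨h1, h2, h3, h4⟩ := hS s hs
    rw [jacP_neg, map_neg, map_neg, h1, h2]
    exact ⟨neg_zero, neg_zero, h3, h4.symm⟩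

end Pool.Agent.LogCentres
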