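import Pool.Agent.LogCentres.TraceSq

/-!
# Real elements whose square has trace zero
-/

namespace Pool.Agent.LogCentres

theorem exists_char (A : Type) [CommRing A] [Algebra ℝ A] [Module.Finite ℝ A] [Nontrivial A] :
    Nonempty (A →ₐ[ℝ] ℂ) := by
  obtain ⟨M, hM⟩ := Ideal.exists_maximal A
  let _ : Field (A ⧸ M) := Ideal.Quotient.field M
  have _ : Module.Finite ℝ (A ⧸ M) :=
    Module.Finite.of_surjective (Ideal.Quotient.mkₐ ℝ M).toLinearMap
      (Ideal.Quotient.mkₐ_surjective ℝ M)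
  have _ : Algebra.IsAlgebraic ℝ (A ⧸ M) := Algebra.IsAlgebraic.of_finite _ _
  let φ : (A ⧸ M) →ₐ[ℝ] ℂ := IsAlgClosed.lift
  exact ⟨φ.comp (Ideal.Quotient.mkₐ ℝ M)⟩

private theorem rt_key {B : Type} [AddCommGroup B] [Module ℂ B] [FiniteDimensional ℂ B]
    (f : Module.End ℂ B) (hf : ∀ μ : ℂ, f.HasEigenvalue μ → μ.im = 0)
    (h0 : LinearMap.trace ℂ B (f ∘ₗ f) = 0) (μ : ℂ) (hμ : f.HasEigenvalue μ) : μ = 0 := by
  classical
  have htop : ⨆ μ, f.maxGenEigenspace μ = ⊤ := Module.End.iSup_maxGenEigenspace_eq_top f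
  have hff : ∀ μ, Set.MapsTo (f ∘ₗ f) ↑(f.maxGenEigenspace μ) ↑(f.maxGenEigenspace μ) :=
    fun μ ↦ (f.mapsTo_maxGenEigenspace_of_comm rfl μ).comp (f.mapsTo_maxGenEigenspace_of_comm rfl μ)
  have hds := DirectSum.isInternal_submodule_of_iSupIndep_of_iSup_eq_top
    f.independent_maxGenEigenspace htop
  have h_fin : {μ | f.maxGenEigenspace μ ≠ ⊥}.Finite :=
    WellFoundedGT.finite_ne_bot_of_iSupIndep f.independent_maxGenEigenspace
  have hone : ∀ μ, LinearMap.trace ℂ _ ((f ∘ₗ f).restrict (hff μ)) =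
      μ * (μ * (Module.finrank ℂ (f.maxGenEigenspace μ) : ℂ)) := by
    intro μ
    have hf' := f.mapsTo_maxGenEigenspace_of_comm (Commute.refl _) μ
    have hc : Commute (f.restrict hf') (f.restrict hf') := Commute.refl _
    have hc1 : Commute (LinearMap.id : Module.End ℂ (f.maxGenEigenspace μ)) (f.restrict hf') :=
      Commute.one_left _
    have hn := f.isNilpotent_restrict_maxGenEigenspace_sub_algebraMap μ
    have e1 : (f ∘ₗ f).restrict (hff μ) = (f.restrict hf') ∘ₗ (f.restrict hf') := rfl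
    have e2 := LinearMap.trace_comp_eq_mul_of_commute_of_isNilpotent μ hc hn
    have e3 := LinearMap.trace_comp_eq_mul_of_commute_of_isNilpotent μ hc1 hn
    rw [e1, e2]
    rw [LinearMap.id_comp, LinearMap.trace_id] at e3
    rw [e3]
  rw [LinearMap.trace_eq_sum_trace_restrict' hds h_fin hff] at h0
  have hre : ∀ μ ∈ h_fin.toFinset, μ * (μ * (Module.finrank ℂ (f.maxGenEigenspace μ) : ℂ)) =
      ((μ.re ^ 2 * (Module.finrank ℂ (f.maxGenEigenspace μ) : ℝ) : ℝ) : ℂ) := by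
    intro μ hμ
    have h1 : f.maxGenEigenspace μ ≠ ⊥ := by simpa using hμ
    have h2 : f.HasEigenvalue μ :=
      Module.End.HasUnifEigenvalue.lt (m := 1) (k := ⊤) zero_lt_one h1
    have h5 : (μ.re : ℂ) = μ := Complex.ext (by simp) (by simp [hf μ h2])
    push_cast
    rw [h5]
    ring
  have h1 : ∑ μ ∈ h_fin.toFinset,
      (μ.re ^ 2 * (Module.finrank ℂ (f.maxGenEigenspace μ) : ℝ)) = 0 := by
    have h2 : ((∑ μ ∈ h_fin.toFinset,
        (μ.re ^ 2 * (Module.finrank ℂ (f.maxGenEigenspace μ) : ℝ)) : ℝ) : ℂ) = 0 := by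
      rw [← h0, Complex.ofReal_sum]
      refine Finset.sum_congr rfl fun μ hμ => ?_
      rw [hone μ, hre μ hμ]
    exact_mod_cast h2
  have hne : f.maxGenEigenspace μ ≠ ⊥ := by
    intro h
    obtain ⟨v, hv⟩ := hμ.exists_hasEigenvector
    have h2 : v ∈ f.maxGenEigenspace μ :=
      (Module.End.mem_maxGenEigenspace f μ v).2 ⟨1, by
        rw [pow_one, LinearMap.sub_apply, LinearMap.smul_apply, Module.End.one_apply,
          hv.apply_eq_smul, sub_self]⟩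
    rw [h, Submodule.mem_bot] at h2
    exact hv.2 h2
  have hmem : μ ∈ h_fin.toFinset := by simpa using hne
  have h3 := (Finset.sum_eq_zero_iff_of_nonneg fun μ _ => by positivity).1 h1 μ hmem
  have h4 : (Module.finrank ℂ (f.maxGenEigenspace μ) : ℝ) ≠ 0 := by
    intro h
    have h5 : Module.finrank ℂ (f.maxGenEigenspace μ) = 0 := by exact_mod_cast h
    exact hne (Submodule.finrank_eq_zero.1 h5)
  have h5 : μ.re = 0 := by
    have h6 := (mul_eq_zero.1 h3).resolve_right h4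
    exact pow_eq_zero_iff (by norm_num) |>.1 h6
  exact Complex.ext h5 (hf μ hμ)

open TensorProduct in
theorem trace_sq_zero {A : Type} [CommRing A] [Algebra ℝ A] [Module.Finite ℝ A] (u : A)
    (hu : ∀ χ : A →ₐ[ℝ] ℂ, (χ u).im = 0) (h0 : Algebra.trace ℝ A (u * u) = 0)
    (χ : A →ₐ[ℝ] ℂ) : χ u = 0 := by
  classical
  set f : A →ₗ[ℝ] A := Algebra.lmul ℝ A u with hfdef
  have hmul : ∀ w : ℂ ⊗[ℝ] A, f.baseChange ℂ w = ((1 : ℂ) ⊗ₜ[ℝ] u) * w := by
    intro w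
    induction w using TensorProduct.induction_on with
    | zero => simp
    | tmul a b => simp [hfdef]
    | add a b ha hb => rw [map_add, ha, hb, mul_add]
  have hsm : ∀ (μ : ℂ) (v : ℂ ⊗[ℝ] A), (μ ⊗ₜ[ℝ] (1 : A)) * v = μ • v := by
    intro μ v
    induction v using TensorProduct.induction_on with
    | zero => rw [mul_zero, smul_zero]
    | tmul a b =>
      rw [TensorProduct.smul_tmul', Algebra.TensorProduct.tmul_mul_tmul, one_mul, smul_eq_mul]
    | add a b ha hb => rw [mul_add, smul_add, ha, hb]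
  have hchar : ∀ z : ℂ, ¬ IsUnit ((1 : ℂ) ⊗ₜ[ℝ] u - z ⊗ₜ[ℝ] (1 : A)) →
      ∃ χ : A →ₐ[ℝ] ℂ, χ u = z := by
    intro z hz
    obtain ⟨M, hM, hmem⟩ := exists_max_ideal_of_mem_nonunits hz
    let _ : Field ((ℂ ⊗[ℝ] A) ⧸ M) := Ideal.Quotient.field M
    have _ : Module.Finite ℂ ((ℂ ⊗[ℝ] A) ⧸ M) :=
      Module.Finite.of_surjective (Ideal.Quotient.mkₐ ℂ M).toLinearMap
        (Ideal.Quotient.mkₐ_surjective ℂ M)
    have _ : Algebra.IsAlgebraic ℂ ((ℂ ⊗[ℝ] A) ⧸ M) := Algebra.IsAlgebraic.of_finite _ _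
    let φ : ((ℂ ⊗[ℝ] A) ⧸ M) →ₐ[ℂ] ℂ := IsAlgClosed.lift
    refine ⟨(φ.restrictScalars ℝ).comp
      ((Ideal.Quotient.mkₐ ℝ M).comp Algebra.TensorProduct.includeRight), ?_⟩
    show φ (Ideal.Quotient.mk M ((1 : ℂ) ⊗ₜ[ℝ] u)) = z
    have h1 : Ideal.Quotient.mk M ((1 : ℂ) ⊗ₜ[ℝ] u) = Ideal.Quotient.mk M (z ⊗ₜ[ℝ] (1 : A)) :=
      Ideal.Quotient.eq.2 hmem
    have h2 : Ideal.Quotient.mk M (z ⊗ₜ[ℝ] (1 : A)) = algebraMap ℂ ((ℂ ⊗[ℝ] A) ⧸ M) z := rfl
    rw [h1, h2, φ.commutes]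
    rfl
  have hev : ∀ μ : ℂ, Module.End.HasEigenvalue (f.baseChange ℂ) μ → μ.im = 0 := by
    intro μ hμ
    obtain ⟨v, hv⟩ := hμ.exists_hasEigenvector
    have h1 : f.baseChange ℂ v = μ • v := hv.apply_eq_smul
    have h2 : ((1 : ℂ) ⊗ₜ[ℝ] u - μ ⊗ₜ[ℝ] (1 : A)) * v = 0 := by
      rw [sub_mul, ← hmul, h1, hsm, sub_self]
    obtain ⟨χ, hχ⟩ := hchar μ (fun h => hv.2 ((h.mul_right_eq_zero).1 h2))
    rw [← hχ]
    exact hu χ
  have h1 : (f.baseChange ℂ) ∘ₗ (f.baseChange ℂ) = (f ∘ₗ f).baseChange ℂ := by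
    rw [LinearMap.baseChange_comp]
  have h2 : Algebra.trace ℝ A (u * u) = LinearMap.trace ℝ A (f ∘ₗ f) := by
    rw [Algebra.trace_apply, map_mul]
    rfl
  have h3 : LinearMap.trace ℂ (ℂ ⊗[ℝ] A) ((f.baseChange ℂ) ∘ₗ (f.baseChange ℂ)) = 0 := by
    rw [h1, LinearMap.trace_baseChange, ← h2, h0, map_zero]
  -- `χ u` is an eigenvalue
  let w : ℂ ⊗[ℝ] A := (1 : ℂ) ⊗ₜ[ℝ] u - (χ u) ⊗ₜ[ℝ] (1 : A)
  have hw : Algebra.TensorProduct.productMap (AlgHom.id ℝ ℂ) χ w = 0 := by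
    simp only [w, map_sub, Algebra.TensorProduct.productMap_apply_tmul, AlgHom.id_apply, map_one,
      one_mul, mul_one, sub_self]
  have hnu : ¬ IsUnit w := by
    intro h
    have h4 := h.map (Algebra.TensorProduct.productMap (AlgHom.id ℝ ℂ) χ)
    rw [hw] at h4
    exact not_isUnit_zero h4
  have hex : ∃ v : ℂ ⊗[ℝ] A, v ≠ 0 ∧ w * v = 0 := by
    by_contra hcon
    push Not at hcon
    have hinj : Function.Injective (LinearMap.mulLeft ℂ w) := by
      rw [injective_iff_map_eq_zero]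
      intro v hv
      by_contra hv0
      exact hcon v hv0 hv
    obtain ⟨v, hv⟩ := (LinearMap.injective_iff_surjective.1 hinj) 1
    exact hnu (IsUnit.of_mul_eq_one v hv)
  obtain ⟨v, hv0, hv⟩ := hex
  have hmu : Module.End.HasEigenvalue (f.baseChange ℂ) (χ u) := by
    refine Module.End.hasEigenvalue_of_hasEigenvector (x := v)
      (Module.End.hasEigenvector_iff.2 ⟨Module.End.mem_eigenspace_iff.2 ?_, hv0⟩)
    rw [hmul, ← hsm]
    have h5 : ((1 : ℂ) ⊗ₜ[ℝ] u - (χ u) ⊗ₜ[ℝ] (1 : A)) * v = 0 := hv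
    rw [sub_mul] at h5
    exact sub_eq_zero.1 h5
  exact rt_key (f.baseChange ℂ) hev h3 _ hmu

end Pool.Agent.LogCentres
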