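import Pool.Agent.LogCentres.WPos
import Pool.Agent.LogCentres.RdTr

/-!
# Real elements at which the form vanishes
-/

namespace Pool.Agent.LogCentres

open MvPolynomial

theorem W_zero {ι κ : Type} [Fintype ι] [DecidableEq ι] [Fintype κ] [DecidableEq κ]
    (F : ι → R) (α : ι → ℝ) (G : κ → R) (β : κ → ℝ) (hα : ∀ i, 0 < α i) (hβ : ∀ j, 0 < β j)
    {m : R →ₗ[ℝ] ℝ} (hm : Res (∏ i, F i) (∏ j, G j) m)
    [Module.Finite ℝ (R ⧸ Ideal.span {∏ i, F i, ∏ j, G j})] (u : R)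
    (hu : ∀ χ : (R ⧸ Ideal.span {∏ i, F i, ∏ j, G j}) →ₐ[ℝ] ℂ,
      (χ (Ideal.Quotient.mk _ u)).im = 0)
    (h0 : m ((logD G β 1 * logD F α 0 - logD F α 1 * logD G β 0) * (u * u)) = 0)
    (χ : (R ⧸ Ideal.span {∏ i, F i, ∏ j, G j}) →ₐ[ℝ] ℂ) :
    χ (Ideal.Quotient.mk _ u) = 0 := by
  have hu' : ∀ i j, ∀ ψ : (R ⧸ Ideal.span {F i, G j}) →ₐ[ℝ] ℂ,
      (ψ (Ideal.Quotient.mk _ u)).im = 0 := fun i j ψ =>
    hu (ψ.comp (Ideal.Quotient.factorₐ ℝ (w_span_le F G i j)))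
  have hnn : ∀ i j, 0 ≤ (α i * β j) * Algebra.trace ℝ (R ⧸ Ideal.span {F i, G j})
      (Ideal.Quotient.mk _ (u * u)) := by
    intro i j
    have hfin := w_fin_quot F G i j
    refine mul_nonneg (mul_pos (hα i) (hβ j)).le ?_
    rw [map_mul]
    exact trace_sq_nonneg _ (hu' i j)
  rw [w_trace F α G β hm] at h0
  have hz1 : ∀ i, ∑ j, (α i * β j) * Algebra.trace ℝ (R ⧸ Ideal.span {F i, G j})
      (Ideal.Quotient.mk _ (u * u)) = 0 := fun i =>
    (Finset.sum_eq_zero_iff_of_nonneg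
      (fun i _ => Finset.sum_nonneg fun j _ => hnn i j)).1 h0 i (Finset.mem_univ i)
  have hz2 : ∀ i j, (α i * β j) * Algebra.trace ℝ (R ⧸ Ideal.span {F i, G j})
      (Ideal.Quotient.mk _ (u * u)) = 0 := fun i j =>
    (Finset.sum_eq_zero_iff_of_nonneg (fun j _ => hnn i j)).1 (hz1 i) j (Finset.mem_univ j)
  -- the character as a map on `R`
  set φ : R →ₐ[ℝ] ℂ := χ.comp (Ideal.Quotient.mkₐ ℝ _) with hφ
  have hφF : φ (∏ i, F i) = 0 := by
    change χ (Ideal.Quotient.mk _ (∏ i, F i)) = 0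
    rw [Ideal.Quotient.eq_zero_iff_mem.2 (Ideal.subset_span (Set.mem_insert _ _)), map_zero]
  have hφG : φ (∏ j, G j) = 0 := by
    change χ (Ideal.Quotient.mk _ (∏ j, G j)) = 0
    have hmem : (∏ j, G j) ∈ Ideal.span {∏ i, F i, ∏ j, G j} :=
      Ideal.subset_span (Set.mem_insert_of_mem _ rfl)
    rw [Ideal.Quotient.eq_zero_iff_mem.2 hmem, map_zero]
  rw [map_prod] at hφF hφG
  obtain ⟨i, -, hi⟩ := Finset.prod_eq_zero_iff.1 hφF
  obtain ⟨j, -, hj⟩ := Finset.prod_eq_zero_iff.1 hφG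
  have hker : ∀ a ∈ Ideal.span {F i, G j}, φ a = 0 := by
    intro a ha
    have hle : Ideal.span {F i, G j} ≤ RingHom.ker φ.toRingHom := by
      rw [Ideal.span_le]
      rintro x (rfl | hx)
      · exact hi
      · rw [Set.mem_singleton_iff.1 hx]
        exact hj
    exact hle ha
  have hfin := w_fin_quot F G i j
  have htr : Algebra.trace ℝ (R ⧸ Ideal.span {F i, G j})
      (Ideal.Quotient.mk _ u * Ideal.Quotient.mk _ u) = 0 := by
    rw [← map_mul]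
    exact (mul_eq_zero.1 (hz2 i j)).resolve_left (mul_pos (hα i) (hβ j)).ne'
  have h := trace_sq_zero _ (hu' i j) htr (Ideal.Quotient.liftₐ _ φ hker)
  exact h

end Pool.Agent.LogCentres
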