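import Pool.Agent.LogCentres.RdCount
import Pool.Agent.LogCentres.RdWz
import Pool.Agent.LogCentres.Balanced

/-!
# The balanced case for reduced systems
-/

namespace Pool.Agent.LogCentres

open MvPolynomial

theorem balanced2 {ι κ : Type} [Fintype ι] [DecidableEq ι] [Fintype κ] [DecidableEq κ]
    {F : ι → R} {α : ι → ℝ} {G : κ → R} {β : κ → ℝ} {dd : ι → ℕ} {ee : κ → ℕ} {a b : ℕ}
    (hα : ∀ i, 0 < α i) (hβ : ∀ j, 0 < β j)
    (hF : ∀ i, (F i).totalDegree ≤ dd i) (hG : ∀ j, (G j).totalDegree ≤ ee j)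
    (ha : ∑ i, dd i = a + 1) (hb : ∑ j, ee j = b + 1)
    (hn : (topP (a + 1) (∏ i, F i)).natDegree = a + 1)
    (hc : IsCoprime (topP (a + 1) (∏ i, F i)) (topP (b + 1) (∏ j, G j)))
    {K P Q : R} {k d : ℕ} (hkd : k + d = a + b) (hK : K.totalDegree ≤ k)
    (hP : P.totalDegree ≤ d + 1) (hQ : Q.totalDegree ≤ d + 1)
    (hE : (X 0 * Q - X 1 * P).totalDegree ≤ d + 1)
    (hKP : K * P = XP F α G β) (hKQ : K * Q = XQ F α G β)
    (S : Finset (Fin 2 → ℝ))
    (hS : ∀ s ∈ S, eval s P = 0 ∧ eval s Q = 0 ∧ 0 < eval s (jacP P Q) ∧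
      (eval s (∏ i, F i) ≠ 0 ∨ eval s (∏ j, G j) ≠ 0)) :
    2 * S.card ≤ d * d + 1 := by
  have hf := totalDegree_prod_le F hF ha
  have hh := totalDegree_prod_le G hG hb
  obtain ⟨hfin, hrk⟩ := finrank_ge hf hh hn hc
  obtain ⟨m, hm, hlow⟩ := residue_low hf hh hn hc
  obtain ⟨G₀, P₁, Q₁, hG₀, hP₁, hQ₁, hP', hQ'⟩ := euler_split hP hQ hE
  have hne : Ideal.span {∏ i, F i, ∏ j, G j} ≠ (⊤ : Ideal R) := by
    intro h
    have : Module.finrank ℝ (R ⧸ Ideal.span {∏ i, F i, ∏ j, G j}) = 0 := by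
      have := Ideal.Quotient.subsingleton_iff.2 h
      exact Module.finrank_zero_of_subsingleton
    rw [this] at hrk
    simp at hrk
  have hW : (-logD G β 1) * (-logD F α 0) - logD F α 1 * logD G β 0 =
      logD G β 1 * logD F α 0 - logD F α 1 * logD G β 0 := by ring
  exact count2 (d := d) (k := k) S (K := K) (U₁ := -logD G β 1) (V₁ := logD F α 1)
    (U₂ := logD G β 0) (V₂ := -logD F α 0) (f := ∏ i, F i) (h := ∏ j, G j)
    hG₀ hP₁ hQ₁ hP' hQ' (by rw [hKP, XP]; ring) (by rw [hKQ, XQ]; ring) hS hm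
    (fun u hu => by rw [hW]; exact W_nonneg F α G β hα hβ hm u hu)
    (fun u hu h0 χ => by rw [hW] at h0; exact W_zero F α G β hα hβ hm u hu h0 χ)
    (by rw [hW]; exact W_one_pos F α G β hα hβ hm hne)
    (fun p hp => hlow p (by omega)) hK

end Pool.Agent.LogCentres
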