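import Pool.Agent.LogCentres.Defs2

/-!
# Growth of the Hilbert function of a colon ideal
-/

namespace Pool.Agent.LogCentres

open MvPolynomial

/-- polynomials of degree less than `j` -/
private def rgW (j : ℕ) : Submodule ℝ R where
  carrier := {p | p = 0 ∨ p.totalDegree + 1 ≤ j}
  zero_mem' := Or.inl rfl
  add_mem' := by
    rintro a b (rfl | ha) hb
    · rw [zero_add]; exact hb
    · rcases hb with rfl | hb
      · rw [add_zero]; exact Or.inr ha
      · refine Or.inr ?_
        have := totalDegree_add a b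
        omega
  smul_mem' := by
    rintro c a (rfl | ha)
    · rw [smul_zero]; exact Or.inl rfl
    · refine Or.inr ?_
      have := totalDegree_smul_le c a
      omega

private theorem rgW_mem {j : ℕ} {p : R} : p ∈ rgW j ↔ (p = 0 ∨ p.totalDegree + 1 ≤ j) := Iff.rfl

private theorem rgW_mono {i j : ℕ} (h : i ≤ j) : rgW i ≤ rgW j := by
  rintro p (hp | hp)
  · exact Or.inl hp
  · exact Or.inr (hp.trans h)

theorem grow {I : Ideal R} [Module.Finite ℝ (R ⧸ I)] {m : R →ₗ[ℝ] ℝ} {K : R} {κ d : ℕ}
    (hkill : ∀ p ∈ I, m p = 0) (hlow : ∀ p : R, p.totalDegree + 1 ≤ κ + d → m p = 0)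
    (hnd : (∀ p, m (K * p) = 0) → K ∈ I) (hK : K ∉ I) (hKd : K.totalDegree ≤ κ) :
    ∃ E : Submodule ℝ (R ⧸ I), d ≤ Module.finrank ℝ E ∧
      ∀ e ∈ E, ∃ p : R, (p = 0 ∨ p.totalDegree + 1 ≤ d) ∧ e = Ideal.Quotient.mk I (K * p) := by
  let L : R →ₗ[ℝ] (R ⧸ I) := (Ideal.Quotient.mkₐ ℝ I).toLinearMap ∘ₗ LinearMap.mulLeft ℝ K
  have hL : ∀ p, L p = Ideal.Quotient.mk I (K * p) := fun p => rfl
  have hstep : ∀ j, j < d → (rgW j).map L ≠ (rgW (j + 1)).map L := by
    intro j hj heq
    have hall : ∀ p : R, L p ∈ (rgW j).map L := by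
      intro p
      induction p using MvPolynomial.induction_on with
      | C a =>
        rw [heq]
        refine Submodule.mem_map_of_mem (Or.inr ?_)
        rw [totalDegree_C]
        omega
      | add p q hp hq =>
        rw [map_add]
        exact Submodule.add_mem _ hp hq
      | mul_X p i hp =>
        obtain ⟨q, hq, hqp⟩ := Submodule.mem_map.1 hp
        have e : L (p * X i) = L (q * X i) := by
          rw [hL, hL, ← mul_assoc, ← mul_assoc, map_mul, map_mul _ (K * q), ← hL, ← hL, hqp]
        rw [e, heq]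
        refine Submodule.mem_map_of_mem ?_
        rcases hq with rfl | hq
        · rw [zero_mul]
          exact Or.inl rfl
        · refine Or.inr ?_
          have h1 := totalDegree_mul q (X i : R)
          rw [totalDegree_X] at h1
          omega
    apply hK
    apply hnd
    intro p
    obtain ⟨q, hq, hqp⟩ := Submodule.mem_map.1 (hall p)
    have h1 : K * p - K * q ∈ I := by
      rw [← Ideal.Quotient.eq_zero_iff_mem, map_sub, ← hL, ← hL, hqp, sub_self]
    have h2 := hkill _ h1
    rw [map_sub, sub_eq_zero] at h2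
    rw [h2]
    rcases hq with rfl | hq
    · rw [mul_zero, map_zero]
    · apply hlow
      have := totalDegree_mul K q
      omega
  have hrank : ∀ j, j ≤ d → j ≤ Module.finrank ℝ ((rgW j).map L) := by
    intro j
    induction j with
    | zero => intro _; exact Nat.zero_le _
    | succ j ih =>
      intro hj
      have h1 := ih (by omega)
      have h2 : (rgW j).map L < (rgW (j + 1)).map L :=
        lt_of_le_of_ne (Submodule.map_mono (rgW_mono (by omega))) (hstep j (by omega))
      have h3 := Submodule.finrank_lt_finrank_of_lt h2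
      omega
  refine ⟨(rgW d).map L, hrank d le_rfl, ?_⟩
  intro e he
  obtain ⟨p, hp, hpe⟩ := Submodule.mem_map.1 he
  exact ⟨p, hp, hpe.symm⟩

theorem perp (B : Type) [CommRing B] [Algebra ℝ B] [Module.Finite ℝ B] (μ : B →ₗ[ℝ] ℝ)
    (hnd : ∀ x, (∀ y, μ (x * y) = 0) → x = 0) (E : Submodule ℝ B) :
    ∃ T : Submodule ℝ B, Module.finrank ℝ T + Module.finrank ℝ E = Module.finrank ℝ B ∧
      ∀ x, x ∈ T ↔ ∀ e ∈ E, μ (x * e) = 0 := by
  let Φ : B →ₗ[ℝ] Module.Dual ℝ B := (LinearMap.mul ℝ B).compr₂ μ
  have hΦ : ∀ x y, Φ x y = μ (x * y) := fun x y => rfl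
  have hinj : Function.Injective Φ := by
    rw [← LinearMap.ker_eq_bot, LinearMap.ker_eq_bot']
    intro x hx
    apply hnd
    intro y
    rw [← hΦ, hx, LinearMap.zero_apply]
  have hsurj : Function.Surjective Φ := by
    refine (LinearMap.injective_iff_surjective_of_finrank_eq_finrank ?_).1 hinj
    exact Subspace.dual_finrank_eq.symm
  let Ψ : B →ₗ[ℝ] Module.Dual ℝ E := (E.dualRestrict).comp Φ
  have hΨ : Function.Surjective Ψ := (Subspace.dualRestrict_surjective).comp hsurj
  refine ⟨LinearMap.ker Ψ, ?_, ?_⟩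
  · have h1 := LinearMap.finrank_range_add_finrank_ker Ψ
    rw [LinearMap.range_eq_top.2 hΨ, finrank_top, Subspace.dual_finrank_eq] at h1
    omega
  · intro x
    rw [LinearMap.mem_ker]
    constructor
    · intro h e he
      have := LinearMap.congr_fun h ⟨e, he⟩
      exact this
    · intro h
      ext e
      exact h e.1 e.2

end Pool.Agent.LogCentres
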