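import Pool.Agent.LogCentres.RealSub

/-!
# Real elements and nilpotent elements
-/

namespace Pool.Agent.LogCentres

theorem real_nil (A : Type) [CommRing A] [Algebra ℝ A] [Module.Finite ℝ A] :
    ∃ (s : ℕ) (L : A →ₗ[ℝ] (Fin s → ℝ)) (N : Submodule ℝ A),
      2 * s + Module.finrank ℝ N ≤ Module.finrank ℝ A ∧
      (∀ u, u ∈ N ↔ ∀ χ : A →ₐ[ℝ] ℂ, χ u = 0) ∧
      ∀ u, L u = 0 → ∀ χ : A →ₐ[ℝ] ℂ, (χ u).im = 0 := by
  classical
  have hli := linearIndependent_toLinearMap ℝ A ℂ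
  have : Finite (A →ₐ[ℝ] ℂ) := hli.finite
  have : Fintype (A →ₐ[ℝ] ℂ) := Fintype.ofFinite _
  let N : Submodule ℝ A := ⨅ χ : A →ₐ[ℝ] ℂ, LinearMap.ker χ.toLinearMap
  have hN : ∀ u, u ∈ N ↔ ∀ χ : A →ₐ[ℝ] ℂ, χ u = 0 := by
    intro u
    simp only [N, Submodule.mem_iInf, LinearMap.mem_ker, AlgHom.toLinearMap_apply]
  have hle : ∀ χ : A →ₐ[ℝ] ℂ, N ≤ LinearMap.ker χ.toLinearMap := fun χ => iInf_le _ χ
  have hX : Fintype.card (A →ₐ[ℝ] ℂ) + Module.finrank ℝ N ≤ Module.finrank ℝ A := by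
    let Φ : ((A ⧸ N) →ₗ[ℝ] ℂ) →ₗ[ℂ] (A →ₗ[ℝ] ℂ) :=
      { toFun := fun g => g ∘ₗ N.mkQ
        map_add' := fun g h => rfl
        map_smul' := fun c g => rfl }
    have h0 : LinearIndependent ℂ (fun χ : A →ₐ[ℝ] ℂ => N.liftQ χ.toLinearMap (hle χ)) := by
      refine LinearIndependent.of_comp Φ ?_
      have h1 : (Φ ∘ fun χ : A →ₐ[ℝ] ℂ => N.liftQ χ.toLinearMap (hle χ)) =
          (AlgHom.toLinearMap : (A →ₐ[ℝ] ℂ) → (A →ₗ[ℝ] ℂ)) := by
        funext χ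
        exact N.liftQ_mkQ χ.toLinearMap (hle χ)
      rw [h1]
      exact hli
    have h1 := h0.fintype_card_le_finrank
    rw [Module.finrank_linearMap_self] at h1
    have h2 := N.finrank_quotient_add_finrank
    omega
  let σ : (A →ₐ[ℝ] ℂ) → (A →ₐ[ℝ] ℂ) := fun χ => (Complex.conjAe : ℂ →ₐ[ℝ] ℂ).comp χ
  have hσ1 : ∀ χ u, σ χ u = (starRingEnd ℂ) (χ u) := fun χ u => rfl
  have hσ : ∀ χ, σ (σ χ) = χ := by
    intro χ
    ext u
    rw [hσ1, hσ1, Complex.conj_conj]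
  have hinj : Function.Injective σ := fun χ χ' h => by rw [← hσ χ, h, hσ]
  let ν := Fintype.equivFin (A →ₐ[ℝ] ℂ)
  let H : Finset (A →ₐ[ℝ] ℂ) := Finset.univ.filter fun χ => ν χ < ν (σ χ)
  have hdisj : Disjoint H (H.image σ) := by
    rw [Finset.disjoint_left]
    intro χ h1 h2
    obtain ⟨χ', h3, rfl⟩ := Finset.mem_image.1 h2
    rw [Finset.mem_filter] at h1 h3
    rw [hσ] at h1
    exact lt_asymm h1.2 h3.2
  have hcard : 2 * H.card ≤ Fintype.card (A →ₐ[ℝ] ℂ) := by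
    have h1 : (H ∪ H.image σ).card = H.card + H.card := by
      rw [Finset.card_union_of_disjoint hdisj, Finset.card_image_of_injective _ hinj]
    have h2 := Finset.card_le_univ (H ∪ H.image σ)
    omega
  refine ⟨H.card, LinearMap.pi fun k =>
    Complex.imLm ∘ₗ ((H.equivFin.symm k : A →ₐ[ℝ] ℂ)).toLinearMap, N, by omega, hN, ?_⟩
  intro u hu χ
  have hH : ∀ χ ∈ H, (χ u).im = 0 := by
    intro χ hχ
    have h1 := congrFun hu (H.equivFin ⟨χ, hχ⟩)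
    simpa using h1
  by_cases h1 : χ ∈ H
  · exact hH χ h1
  · by_cases h2 : σ χ ∈ H
    · have h3 := hH _ h2
      rw [hσ1, Complex.conj_im] at h3
      linarith
    · have h4 : ν χ = ν (σ χ) := by
        simp only [H, Finset.mem_filter, Finset.mem_univ, true_and, not_lt] at h1 h2
        rw [hσ] at h2
        exact le_antisymm h2 h1
      have h5 : (χ u).im = (σ χ u).im := congrArg (fun ψ : A →ₐ[ℝ] ℂ => (ψ u).im) (ν.injective h4)
      rw [hσ1, Complex.conj_im] at h5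
      linarith

end Pool.Agent.LogCentres
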