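import Pool.Agent.LogCentres.PairId
import Pool.Agent.LogCentres.ResC
import Pool.Agent.LogCentres.PairEv

/-!
# The Bezoutian of a pair of which a multiple lies in an ideal
-/

namespace Pool.Agent.LogCentres

open MvPolynomial

theorem pair_K {f h P Q K U₁ V₁ U₂ V₂ : R} {m : R →ₗ[ℝ] ℝ} (hm : Res f h m)
    (hP : K * P = f * U₁ + h * V₁) (hQ : K * Q = f * U₂ + h * V₂) {A B C D : T}
    (h1 : Ker P A B) (h2 : Ker Q C D) (u u' : R) :
    pair (tw m (K * u)) (tw m (K * u')) (A * D - B * C) =
      m ((U₁ * V₂ - V₁ * U₂) * (u * u')) := by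
  obtain ⟨k0, k1, hk⟩ := exists_ker K
  obtain ⟨A', B', hA'⟩ := exists_ker f
  obtain ⟨C'', D', hC''⟩ := exists_ker h
  have hk' : Ker K k0 k1 := hk
  have hfI : f ∈ Ideal.span {f, h} := Ideal.subset_span (by simp)
  have hhI : h ∈ Ideal.span {f, h} := Ideal.subset_span (by simp)
  have hPI : K * P ∈ Ideal.span {f, h} := by
    rw [hP]
    exact Ideal.add_mem _ (Ideal.mul_mem_right _ _ hfI) (Ideal.mul_mem_right _ _ hhI)
  have hQI : K * Q ∈ Ideal.span {f, h} := by
    rw [hQ]
    exact Ideal.add_mem _ (Ideal.mul_mem_right _ _ hfI) (Ideal.mul_mem_right _ _ hhI)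
  have hmu : ∀ v : R, ∀ p ∈ Ideal.span {f, h}, tw m v p = 0 := fun v p hp =>
    hm.kill _ (Ideal.mul_mem_left _ _ hp)
  have hKP : Ker (K * P) (ix K * A + iu P * k0) (ix K * B + iu P * k1) := by
    unfold Ker at *
    rw [map_mul, map_mul]
    linear_combination (ix K) * h1 + (iu P) * hk'
  have hKQ : Ker (K * Q) (iu K * C + ix Q * k0) (iu K * D + ix Q * k1) := by
    unfold Ker at *
    rw [map_mul, map_mul]
    linear_combination (iu K) * h2 + (ix Q) * hk'
  have key := pair_ideal hP hQ (hmu u) (hmu u') hKP hKQ hA' hC''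
  rw [res_pair hm hA' hC''] at key
  have e1 : (ix K * A + iu P * k0) * (iu K * D + ix Q * k1) -
      (ix K * B + iu P * k1) * (iu K * C + ix Q * k0) =
      ix K * (iu K * (A * D - B * C)) + ix (K * Q) * (A * k1 - B * k0) +
        iu (K * P) * (k0 * D - k1 * C) := by
    rw [map_mul, map_mul]
    ring
  have t1 : pair (tw m u) (tw m u') (ix K * (iu K * (A * D - B * C))) =
      pair (tw m (K * u)) (tw m (K * u')) (A * D - B * C) := by
    change tw m u (app (tw m u') (ix K * (iu K * (A * D - B * C)))) =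
      tw m (K * u) (app (tw m (K * u')) (A * D - B * C))
    rw [app_ix_mul, app_iu_mul]
    have e2 : tw (tw m u') K = tw m (K * u') := by
      apply LinearMap.ext
      intro p
      change m (u' * (K * p)) = m (K * u' * p)
      congr 1
      ring
    rw [e2]
    change m (u * (K * _)) = m (K * u * _)
    congr 1
    ring
  have t2 : pair (tw m u) (tw m u') (ix (K * Q) * (A * k1 - B * k0)) = 0 := by
    change tw m u (app (tw m u') (ix (K * Q) * (A * k1 - B * k0))) = 0
    rw [app_ix_mul]
    exact hmu u _ (Ideal.mul_mem_right _ _ hQI)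
  have t3 : pair (tw m u) (tw m u') (iu (K * P) * (k0 * D - k1 * C)) = 0 := by
    change tw m u (app (tw m u') (iu (K * P) * (k0 * D - k1 * C))) = 0
    rw [app_iu_mul, tw_kill (hmu u') hPI, app_zero, map_zero]
  rw [e1, map_add, map_add, t1, t2, t3, add_zero, add_zero] at key
  exact key

end Pool.Agent.LogCentres
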