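import Pool.Agent.LogCentres.Defs2
import Pool.Agent.LogCentres.IrrDvd

/-!
# Irreducible factors of the polynomials in a logarithmic first integral are invariant
-/

namespace Pool.Agent.LogCentres

open MvPolynomial

theorem first_int_inv {ι : Type} [Fintype ι] [DecidableEq ι] {g : ι → R} {mu : ι → ℝ}
    (hg : ∀ i, g i ≠ 0) {P Q : R} (h : P * logD g mu 0 + Q * logD g mu 1 = 0) {u : R}
    (hu : Irreducible u) (hsign : ∀ i, u ∣ g i → 0 < mu i) (hex : ∃ i, u ∣ g i) :
    u ∣ P * pderiv 0 u + Q * pderiv 1 u := by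
  choose k G hG hgG using fun i => WfDvdMonoid.max_power_factor (hg i) hu
  obtain ⟨D, hD⟩ : ∃ D : R → R, ∀ f, D f = P * pderiv 0 f + Q * pderiv 1 f := ⟨_, fun _ => rfl⟩
  have hp : Prime u := hu.prime
  obtain ⟨W, hW⟩ : ∃ W : R, W = ∏ j, u ^ k j := ⟨_, rfl⟩
  have hW0 : W ≠ 0 := by
    rw [hW]
    exact Finset.prod_ne_zero_iff.2 fun j _ => pow_ne_zero _ hu.ne_zero
  have hpow : ∀ (n : ℕ) (l : Fin 2), u * pderiv l (u ^ n) = (n : R) * u ^ n * pderiv l u := by
    intro n l
    cases n with
    | zero => simp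
    | succ m =>
      rw [Derivation.leibniz_pow]
      simp only [smul_eq_mul, nsmul_eq_mul, Nat.add_sub_cancel]
      ring
  have hDg : ∀ i, u * D (g i) = u ^ k i * ((k i : R) * D u * G i + u * D (G i)) := by
    intro i
    have h1 : ∀ l : Fin 2, u * pderiv l (g i) =
        u ^ k i * ((k i : R) * pderiv l u * G i + u * pderiv l (G i)) := by
      intro l
      rw [hgG i, Derivation.leibniz]
      simp only [smul_eq_mul]
      linear_combination (G i) * hpow (k i) l
    rw [hD, hD, hD]
    linear_combination P * h1 0 + Q * h1 1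
  have hprod : ∀ i, (∏ j ∈ Finset.univ.erase i, g j) * u ^ k i =
      W * ∏ j ∈ Finset.univ.erase i, G j := by
    intro i
    have h1 : ∏ j ∈ Finset.univ.erase i, g j =
        (∏ j ∈ Finset.univ.erase i, u ^ k j) * ∏ j ∈ Finset.univ.erase i, G j := by
      rw [← Finset.prod_mul_distrib]
      exact Finset.prod_congr rfl fun j _ => hgG j
    rw [h1, hW, ← Finset.prod_erase_mul Finset.univ (fun j => u ^ k j) (Finset.mem_univ i)]
    ring
  have hGp : ∀ i, (∏ j ∈ Finset.univ.erase i, G j) * G i = ∏ j, G j := fun i =>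
    Finset.prod_erase_mul _ _ (Finset.mem_univ i)
  have hsum : ∑ i, mu i • ((∏ j ∈ Finset.univ.erase i, g j) * D (g i)) = 0 := by
    rw [← h]
    simp only [logD, Finset.mul_sum, ← Finset.sum_add_distrib]
    refine Finset.sum_congr rfl fun i _ => ?_
    rw [hD]
    simp only [smul_eq_C_mul]
    ring
  have h1 : ∀ i, u * (mu i • ((∏ j ∈ Finset.univ.erase i, g j) * D (g i))) =
      W * (C (mu i * k i) * D u * ∏ j, G j +
        u * (mu i • ((∏ j ∈ Finset.univ.erase i, G j) * D (G i)))) := by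
    intro i
    have h2 : (C (mu i * k i) : R) = C (mu i) * (k i : R) := by
      rw [map_mul, map_natCast]
    rw [smul_eq_C_mul, smul_eq_C_mul, h2]
    linear_combination (C (mu i) * ∏ j ∈ Finset.univ.erase i, g j) * hDg i +
      C (mu i) * ((k i : R) * D u * G i + u * D (G i)) * hprod i +
      C (mu i) * W * (k i : R) * D u * hGp i
  have hsum2 : W * (C (∑ i, mu i * k i) * D u * ∏ j, G j +
      u * ∑ i, mu i • ((∏ j ∈ Finset.univ.erase i, G j) * D (G i))) = 0 := by
    have h3 : u * ∑ i, mu i • ((∏ j ∈ Finset.univ.erase i, g j) * D (g i)) = 0 := by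
      rw [hsum, mul_zero]
    rw [Finset.mul_sum, Finset.sum_congr rfl fun i _ => h1 i, ← Finset.mul_sum,
      Finset.sum_add_distrib, ← Finset.mul_sum, ← Finset.sum_mul, ← Finset.sum_mul,
      ← map_sum] at h3
    exact h3
  have h4 := (mul_eq_zero.1 hsum2).resolve_left hW0
  have h5 : u ∣ C (∑ i, mu i * k i) * D u * ∏ j, G j :=
    ⟨-∑ i, mu i • ((∏ j ∈ Finset.univ.erase i, G j) * D (G i)), by linear_combination h4⟩
  have hdvd : ∀ i, k i ≠ 0 → u ∣ g i := by
    intro i hi
    rw [hgG i]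
    exact (dvd_pow_self u hi).mul_right _
  have hc : 0 < ∑ i, mu i * (k i : ℝ) := by
    apply Finset.sum_pos'
    · intro i _
      by_cases hi : k i = 0
      · rw [hi]; simp
      · exact mul_nonneg (hsign i (hdvd i hi)).le (Nat.cast_nonneg _)
    · obtain ⟨i, hi⟩ := hex
      refine ⟨i, Finset.mem_univ i, mul_pos (hsign i hi) ?_⟩
      have : k i ≠ 0 := by
        intro h0
        apply hG i
        have h6 := hgG i
        rw [h0, pow_zero, one_mul] at h6
        rwa [← h6]
      exact_mod_cast Nat.pos_of_ne_zero this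
  rw [← hD]
  rcases hp.dvd_or_dvd h5 with h6 | h6
  · rcases hp.dvd_or_dvd h6 with h7 | h7
    · exfalso
      refine hu.not_isUnit (isUnit_of_dvd_unit h7 ?_)
      exact IsUnit.map C (isUnit_iff_ne_zero.2 hc.ne')
    · exact h7
  · obtain ⟨i, -, hi⟩ := hp.exists_mem_finset_dvd h6
    exact absurd hi (hG i)

end Pool.Agent.LogCentres
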