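import Pool.Agent.LogCentres.RdSep

/-!
# Two coprime invariant curves do not meet at a nondegenerate centre
-/

namespace Pool.Agent.LogCentres

open MvPolynomial Pool.Agent.PlanarCentres

private theorem rs2_coeff (f : R) {x y : Polynomial ℂ} {p : Fin 2 → ℝ}
    (hx : x.coeff 0 = p 0) (hy : y.coeff 0 = p 1) :
    (MvPolynomial.aeval ![x, y] f).coeff 0 = ((eval p f : ℝ) : ℂ) := by
  induction f using MvPolynomial.induction_on with
  | C a =>
    rw [MvPolynomial.aeval_C, eval_C]
    change (Polynomial.C ((a : ℝ) : ℂ)).coeff 0 = _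
    rw [Polynomial.coeff_C_zero]
  | add f g hf hg =>
    rw [map_add, Polynomial.coeff_add, hf, hg, map_add, Complex.ofReal_add]
  | mul_X f i hf =>
    rw [map_mul, Polynomial.mul_coeff_zero, hf, map_mul, eval_X, Complex.ofReal_mul,
      MvPolynomial.aeval_X]
    fin_cases i
    · change _ * x.coeff 0 = _
      rw [hx]; rfl
    · change _ * y.coeff 0 = _
      rw [hy]; rfl

private theorem rs2_chain (f : R) (x y : Polynomial ℂ) :
    Polynomial.derivative (MvPolynomial.aeval ![x, y] f) =
      MvPolynomial.aeval ![x, y] (pderiv 0 f) * Polynomial.derivative x +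
      MvPolynomial.aeval ![x, y] (pderiv 1 f) * Polynomial.derivative y := by
  induction f using MvPolynomial.induction_on with
  | C a =>
    rw [MvPolynomial.aeval_C, pderiv_C, pderiv_C, map_zero, zero_mul, zero_mul, add_zero]
    change Polynomial.derivative (Polynomial.C ((a : ℝ) : ℂ)) = 0
    rw [Polynomial.derivative_C]
  | add f g hf hg =>
    simp only [map_add, hf, hg]
    ring
  | mul_X f i hf =>
    rw [map_mul, Polynomial.derivative_mul, hf, MvPolynomial.aeval_X, Derivation.leibniz,
      Derivation.leibniz]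
    fin_cases i
    · simp only [Fin.zero_eta, pderiv_X_self, smul_eq_mul, mul_one, map_add, map_mul,
        MvPolynomial.aeval_X, Matrix.cons_val_zero]
      rw [pderiv_X_of_ne (by decide)]
      simp only [mul_zero, map_zero, zero_add]
      ring
    · simp only [Fin.mk_one, pderiv_X_self, smul_eq_mul, mul_one, map_add, map_mul,
        MvPolynomial.aeval_X, Matrix.cons_val_one, Matrix.cons_val_fin_one]
      rw [pderiv_X_of_ne (by decide)]
      simp only [mul_zero, map_zero, zero_add]
      ring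

/-- an invariant polynomial with vanishing cofactor at the point vanishes on the truncated
separatrix -/
theorem inv_on_sep {P Q F κ : R} {p : Fin 2 → ℝ} (hF0 : eval p F = 0) (hκ0 : eval p κ = 0)
    (hκ : P * pderiv 0 F + Q * pderiv 1 F = κ * F) {N : ℕ} {μ : ℂ} {x y : Polynomial ℂ}
    (hμ : μ ≠ 0) (hx : x.coeff 0 = p 0) (hy : y.coeff 0 = p 1)
    (h1 : Polynomial.X ^ (N + 1) ∣ Polynomial.C μ * Polynomial.X * Polynomial.derivative x -
        MvPolynomial.aeval ![x, y] P)
    (h2 : Polynomial.X ^ (N + 1) ∣ Polynomial.C μ * Polynomial.X * Polynomial.derivative y -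
        MvPolynomial.aeval ![x, y] Q) :
    Polynomial.X ^ (N + 1) ∣ MvPolynomial.aeval ![x, y] F := by
  have hdvd : Polynomial.X ^ (N + 1) ∣ Polynomial.C μ * Polynomial.X *
      Polynomial.derivative (MvPolynomial.aeval ![x, y] F) -
      MvPolynomial.aeval ![x, y] κ * MvPolynomial.aeval ![x, y] F := by
    have e : Polynomial.C μ * Polynomial.X *
        Polynomial.derivative (MvPolynomial.aeval ![x, y] F) -
        MvPolynomial.aeval ![x, y] κ * MvPolynomial.aeval ![x, y] F =
        (Polynomial.C μ * Polynomial.X * Polynomial.derivative x -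
          MvPolynomial.aeval ![x, y] P) * MvPolynomial.aeval ![x, y] (pderiv 0 F) +
        (Polynomial.C μ * Polynomial.X * Polynomial.derivative y -
          MvPolynomial.aeval ![x, y] Q) * MvPolynomial.aeval ![x, y] (pderiv 1 F) := by
      rw [rs2_chain, ← map_mul, ← hκ, map_add, map_mul, map_mul]
      ring
    rw [e]
    exact dvd_add (h1.mul_right _) (h2.mul_right _)
  rw [Polynomial.X_pow_dvd_iff] at hdvd ⊢
  intro d
  induction d using Nat.strong_induction_on with
  | _ d ih =>
  intro hd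
  rcases d with _ | d
  · rw [rs2_coeff F hx hy, hF0, Complex.ofReal_zero]
  · have h3 := hdvd (d + 1) hd
    rw [Polynomial.coeff_sub, mul_assoc, Polynomial.coeff_C_mul, Polynomial.coeff_X_mul,
      Polynomial.coeff_derivative, Polynomial.coeff_mul] at h3
    have h4 : ∑ ij ∈ Finset.HasAntidiagonal.antidiagonal (d + 1), (MvPolynomial.aeval ![x, y] κ).coeff ij.1 *
        (MvPolynomial.aeval ![x, y] F).coeff ij.2 = 0 := by
      refine Finset.sum_eq_zero fun ij hij => ?_
      rw [Finset.HasAntidiagonal.mem_antidiagonal] at hij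
      by_cases h0 : ij.1 = 0
      · rw [h0, rs2_coeff κ hx hy, hκ0, Complex.ofReal_zero, zero_mul]
      · rw [ih ij.2 (by omega) (by omega), mul_zero]
    rw [h4, sub_zero] at h3
    rcases mul_eq_zero.mp h3 with h5 | h5
    · exact absurd h5 hμ
    · rcases mul_eq_zero.mp h5 with h6 | h6
      · exact h6
      · exact absurd h6 (by exact_mod_cast Nat.succ_ne_zero d)

private noncomputable def rs2_fwd : R →+* Polynomial (Polynomial ℝ) :=
  MvPolynomial.eval₂Hom (Polynomial.C.comp Polynomial.C)
    ![Polynomial.C Polynomial.X, Polynomial.X]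

private noncomputable def rs2_bwd : Polynomial (Polynomial ℝ) →+* R :=
  Polynomial.eval₂RingHom (Polynomial.aeval (X 0 : R) : Polynomial ℝ →ₐ[ℝ] R).toRingHom (X 1)

private theorem rs2_bf (p : R) : rs2_bwd (rs2_fwd p) = p := by
  have : rs2_bwd.comp rs2_fwd = RingHom.id R := by
    refine MvPolynomial.ringHom_ext (fun c => ?_) fun i => ?_
    · simp [rs2_bwd, rs2_fwd]
    · fin_cases i <;> simp [rs2_bwd, rs2_fwd]
  exact congrArg (fun r : R →+* R => r p) this

private theorem rs2_fb (p : Polynomial (Polynomial ℝ)) : rs2_fwd (rs2_bwd p) = p := by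
  have : rs2_fwd.comp rs2_bwd = RingHom.id _ := by
    refine Polynomial.ringHom_ext' (Polynomial.ringHom_ext' ?_ ?_) ?_
    · ext c
      simp [rs2_bwd, rs2_fwd]
    · simp [rs2_bwd, rs2_fwd]
    · simp [rs2_bwd, rs2_fwd]
  exact congrArg (fun r : Polynomial (Polynomial ℝ) →+* Polynomial (Polynomial ℝ) => r p) this

private noncomputable def rs2_E : R ≃+* Polynomial (Polynomial ℝ) :=
  { rs2_fwd with
    toFun := rs2_fwd
    invFun := rs2_bwd
    left_inv := rs2_bf
    right_inv := rs2_fb }

private theorem rs2_bC (r : Polynomial ℝ) :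
    rs2_bwd (Polynomial.C r) = Polynomial.aeval (X 0 : R) r := by
  show Polynomial.eval₂ _ _ (Polynomial.C r) = _
  rw [Polynomial.eval₂_C]
  rfl

private theorem rs2_aux (F H : Polynomial (Polynomial ℝ)) (hF : Irreducible F)
    (hH : Irreducible H) (hF0 : F.natDegree ≠ 0) (hH0 : H.natDegree ≠ 0) (hc : ¬ F ∣ H) :
    ∃ r : Polynomial ℝ, r ≠ 0 ∧ Polynomial.C r ∈ Ideal.span {F, H} := by
  let K := FractionRing (Polynomial ℝ)
  have hinj : Function.Injective (algebraMap (Polynomial ℝ) K) := IsFractionRing.injective _ _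
  have hFp : F.IsPrimitive := hF.isPrimitive hF0
  have hHp : H.IsPrimitive := hH.isPrimitive hH0
  have hFK : Irreducible (F.map (algebraMap (Polynomial ℝ) K)) :=
    (hFp.irreducible_iff_irreducible_map_fraction_map).1 hF
  have h1 : IsCoprime (F.map (algebraMap (Polynomial ℝ) K)) (H.map (algebraMap _ K)) := by
    rw [hFK.coprime_iff_not_dvd]
    intro h
    exact hc (hFp.dvd_of_fraction_map_dvd_fraction_map h)
  obtain ⟨u, v, huv⟩ := h1
  obtain ⟨b, hb, hbu⟩ := IsLocalization.integerNormalization_spec (nonZeroDivisors (Polynomial ℝ)) u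
  obtain ⟨c, hc', hcv⟩ := IsLocalization.integerNormalization_spec (nonZeroDivisors (Polynomial ℝ)) v
  set U := IsLocalization.integerNormalization (nonZeroDivisors (Polynomial ℝ)) u
  set V := IsLocalization.integerNormalization (nonZeroDivisors (Polynomial ℝ)) v
  refine ⟨b * c, mul_ne_zero (nonZeroDivisors.ne_zero hb) (nonZeroDivisors.ne_zero hc'), ?_⟩
  rw [Ideal.mem_span_pair]
  refine ⟨Polynomial.C c * U, Polynomial.C b * V, ?_⟩
  apply Polynomial.map_injective _ hinj
  rw [Polynomial.map_add, Polynomial.map_mul, Polynomial.map_mul, Polynomial.map_mul,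
    Polynomial.map_mul, hbu, hcv, Polynomial.map_C, Polynomial.map_C, Polynomial.map_C, map_mul,
    Polynomial.C_mul]
  have e1 : b • u = Polynomial.C (algebraMap (Polynomial ℝ) K b) * u := by
    rw [← Polynomial.smul_eq_C_mul, algebraMap_smul]
  have e2 : c • v = Polynomial.C (algebraMap (Polynomial ℝ) K c) * v := by
    rw [← Polynomial.smul_eq_C_mul, algebraMap_smul]
  rw [e1, e2]
  linear_combination Polynomial.C (algebraMap (Polynomial ℝ) K b) *
    Polynomial.C (algebraMap (Polynomial ℝ) K c) * huv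

private theorem rs2_const {u : R} (hu : u ≠ 0) (h0 : (rs2_fwd u).natDegree = 0) :
    ∃ r : Polynomial ℝ, r ≠ 0 ∧ (Polynomial.aeval (X 0 : R) r) = u := by
  have h := Polynomial.eq_C_of_natDegree_eq_zero h0
  refine ⟨(rs2_fwd u).coeff 0, ?_, ?_⟩
  · intro h1
    rw [h1, Polynomial.C_0] at h
    apply hu
    rw [← rs2_bf u, h, map_zero]
  · rw [← rs2_bC, ← h, rs2_bf]

/-- coprime polynomials combine to a nonzero polynomial in `x₀` -/
theorem elim_irr {u v : R} (hu : Irreducible u) (hv : Irreducible v) (huv : ¬ u ∣ v) :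
    ∃ r : Polynomial ℝ, r ≠ 0 ∧ (Polynomial.aeval (X 0 : R) r) ∈ Ideal.span {u, v} := by
  by_cases hu0 : (rs2_fwd u).natDegree = 0
  · obtain ⟨r, hr, hr2⟩ := rs2_const hu.ne_zero hu0
    exact ⟨r, hr, by rw [hr2]; exact Ideal.subset_span (by simp)⟩
  by_cases hv0 : (rs2_fwd v).natDegree = 0
  · obtain ⟨r, hr, hr2⟩ := rs2_const hv.ne_zero hv0
    exact ⟨r, hr, by rw [hr2]; exact Ideal.subset_span (by simp)⟩
  have hFu : Irreducible (rs2_fwd u) := (MulEquiv.irreducible_iff rs2_E).2 hu
  have hFv : Irreducible (rs2_fwd v) := (MulEquiv.irreducible_iff rs2_E).2 hv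
  have hd : ¬ rs2_fwd u ∣ rs2_fwd v := by
    intro h
    have := map_dvd rs2_bwd h
    rw [rs2_bf, rs2_bf] at this
    exact huv this
  obtain ⟨r, hr, hr2⟩ := rs2_aux _ _ hFu hFv hu0 hv0 hd
  refine ⟨r, hr, ?_⟩
  obtain ⟨P, Q, hPQ⟩ := Ideal.mem_span_pair.1 hr2
  have h4 := congrArg rs2_bwd hPQ
  rw [map_add, map_mul, map_mul, rs2_bf, rs2_bf, rs2_bC] at h4
  rw [← h4]
  exact Ideal.mem_span_pair.2 ⟨rs2_bwd P, rs2_bwd Q, rfl⟩

end Pool.Agent.LogCentres
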