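import Pool.Agent.LogCentres.RdAff
import Pool.Agent.LogCentres.RdInv
import Pool.Agent.LogCentres.RdSep2
import Pool.Agent.LogCentres.General

/-!
# Centres of systems with a Darboux first integral, without a degree condition
-/

namespace Pool.Agent.LogCentres

open MvPolynomial Pool.Agent.PlanarCentres

private theorem rf_coeff {x : Polynomial ℂ} {t : ℝ} (hx : x.coeff 0 = t) (q : Polynomial ℝ) :
    (Polynomial.aeval x q).coeff 0 = ((q.eval t : ℝ) : ℂ) := by
  induction q using Polynomial.induction_on' with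
  | add p q hp hq =>
    rw [map_add, Polynomial.coeff_add, hp, hq, Polynomial.eval_add, Complex.ofReal_add]
  | monomial n a =>
    rw [Polynomial.aeval_monomial, Polynomial.eval_monomial, Polynomial.mul_coeff_zero,
      Polynomial.coeff_zero_eq_eval_zero (x ^ n), Polynomial.eval_pow,
      ← Polynomial.coeff_zero_eq_eval_zero x, hx, Complex.ofReal_mul, Complex.ofReal_pow]
    congr 1
    change (Polynomial.C ((a : ℝ) : ℂ)).coeff 0 = _
    rw [Polynomial.coeff_C_zero]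

theorem sep_ord {x : Polynomial ℂ} {t : ℝ} (hx : x.coeff 0 = t) (h1 : x.coeff 1 ≠ 0)
    {r : Polynomial ℝ} (hr : r ≠ 0) {N : ℕ} (hN : r.natDegree ≤ N) :
    ¬ Polynomial.X ^ (N + 1) ∣ Polynomial.aeval x r := by
  intro hd
  obtain ⟨q, hq, hqn⟩ := Polynomial.exists_eq_pow_rootMultiplicity_mul_and_not_dvd r hr t
  set k := r.rootMultiplicity t with hk
  have hkN : k ≤ N := by
    have h2 : k ≤ r.natDegree := by
      rw [hk, ← Polynomial.count_roots]
      exact (Multiset.count_le_card _ _).trans (Polynomial.card_roots' r)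
    exact h2.trans hN
  have hqt : q.eval t ≠ 0 := by
    intro h0
    exact hqn (Polynomial.dvd_iff_isRoot.2 h0)
  obtain ⟨w, hw⟩ : Polynomial.X ∣ x - Polynomial.C (t : ℂ) := by
    rw [Polynomial.X_dvd_iff, Polynomial.coeff_sub, Polynomial.coeff_C_zero, hx, sub_self]
  have hw0 : w.coeff 0 ≠ 0 := by
    have h2 := congrArg (fun p : Polynomial ℂ => p.coeff 1) hw
    simp only [Polynomial.coeff_sub, Polynomial.coeff_C_succ, Polynomial.coeff_X_mul,
      sub_zero] at h2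
    rwa [← h2]
  have h3 : Polynomial.aeval x r = Polynomial.X ^ k * (w ^ k * Polynomial.aeval x q) := by
    conv_lhs => rw [hq]
    rw [map_mul, map_pow, map_sub, Polynomial.aeval_X, Polynomial.aeval_C]
    change (x - Polynomial.C ((t : ℝ) : ℂ)) ^ k * _ = _
    rw [hw, mul_pow]
    ring
  rw [h3] at hd
  have h4 : Polynomial.X ^ k * Polynomial.X ∣
      Polynomial.X ^ k * (w ^ k * Polynomial.aeval x q) := by
    rw [← pow_succ]
    exact (pow_dvd_pow _ (by omega)).trans hd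
  have h5 : (Polynomial.X : Polynomial ℂ) ∣ w ^ k * Polynomial.aeval x q :=
    (mul_dvd_mul_iff_left (pow_ne_zero _ Polynomial.X_ne_zero)).1 h4
  rw [Polynomial.X_dvd_iff, Polynomial.mul_coeff_zero, rf_coeff hx,
    Polynomial.coeff_zero_eq_eval_zero (w ^ k), Polynomial.eval_pow,
    ← Polynomial.coeff_zero_eq_eval_zero w] at h5
  rcases mul_eq_zero.1 h5 with h6 | h6
  · exact pow_ne_zero _ hw0 h6
  · exact hqt (by exact_mod_cast h6)

theorem two_curves {P Q u v κ₁ κ₂ : R} {p : Fin 2 → ℝ} (hP : eval p P = 0) (hQ : eval p Q = 0)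
    (htr : eval p (pderiv 0 P) + eval p (pderiv 1 Q) = 0) (hj : 0 < jac P Q p)
    (hu : Irreducible u) (hv : Irreducible v) (huv : ¬ u ∣ v)
    (h0u : eval p u = 0) (h0v : eval p v = 0)
    (hκ₁ : P * pderiv 0 u + Q * pderiv 1 u = κ₁ * u)
    (hκ₂ : P * pderiv 0 v + Q * pderiv 1 v = κ₂ * v)
    (e1 : eval p κ₁ = 0) (e2 : eval p κ₂ = 0) : False := by
  obtain ⟨r, hr, hmem⟩ := elim_irr hu hv huv
  obtain ⟨μ, x, y, hμ, hx, hy, hx1, d1, d2⟩ := trunc_sep hP hQ htr hj r.natDegree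
  have f1 := inv_on_sep h0u e1 hκ₁ hμ hx hy d1 d2
  have f2 := inv_on_sep h0v e2 hκ₂ hμ hx hy d1 d2
  obtain ⟨a, b, hab⟩ := Ideal.mem_span_pair.1 hmem
  have h1 := congrArg (MvPolynomial.aeval ![x, y]) hab
  rw [map_add, map_mul, map_mul] at h1
  have h2 : MvPolynomial.aeval ![x, y] (Polynomial.aeval (X 0 : R) r) =
      Polynomial.aeval x r := by
    rw [← Polynomial.aeval_algHom_apply, MvPolynomial.aeval_X]
    rfl
  rw [h2] at h1
  refine sep_ord hx hx1 hr le_rfl ?_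
  rw [← h1]
  exact dvd_add (f1.mul_left _) (f2.mul_left _)

private theorem rf_factor {f : R} (hf : f ≠ 0) {p : Fin 2 → ℝ} (h0 : eval p f = 0) :
    ∃ u, Irreducible u ∧ u ∣ f ∧ eval p u = 0 := by
  obtain ⟨s, hs, a, ha⟩ := WfDvdMonoid.exists_factors f hf
  rw [← ha, map_mul] at h0
  have hau : eval p (a : R) ≠ 0 := (a.isUnit.map (eval p)).ne_zero
  have h1 := (mul_eq_zero.1 h0).resolve_right hau
  rw [map_multiset_prod, Multiset.prod_eq_zero_iff, Multiset.mem_map] at h1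
  obtain ⟨u, hu, hu0⟩ := h1
  refine ⟨u, hs u hu, ?_, hu0⟩
  rw [← ha]
  exact (Multiset.dvd_prod hu).mul_right _

private theorem rf_logD_neg {ι : Type} [Fintype ι] [DecidableEq ι] (g : ι → R) (mu : ι → ℝ)
    (k : Fin 2) : logD g (fun i => -mu i) k = -logD g mu k := by
  rw [logD, logD, ← Finset.sum_neg_distrib]
  exact Finset.sum_congr rfl fun i _ => neg_smul _ _

theorem reduced_count {n : ℕ} {ι : Type} [Fintype ι] [DecidableEq ι] (f : ι → R) (lam : ι → ℝ)
    (hf : ∀ i, f i ≠ 0) (P Q : R) (hP : P.totalDegree ≤ n) (hQ : Q.totalDegree ≤ n)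
    (hH : P * logD f lam 0 + Q * logD f lam 1 = 0)
    (hne : ¬ (logD f lam 0 = 0 ∧ logD f lam 1 = 0))
    (S : Finset (Fin 2 → ℝ)) (hS : ∀ p ∈ S, IsCentre P Q p ∧ jac P Q p ≠ 0) :
    2 * S.card ≤ n * n + 1 := by
  classical
  by_cases hP0 : P = 0
  · have hS0 : S = ∅ := by
      refine Finset.eq_empty_of_forall_notMem fun s hs => (hS s hs).2 ?_
      rw [hP0, jac]
      simp
    rw [hS0, Finset.card_empty]
    omega
  obtain ⟨k, g, mu, W, hg, hmu, hrel, -, -, hW⟩ := normalize f lam hf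
  obtain ⟨P₀, Q₀, c, hrp, hPe, hQe⟩ := UniqueFactorizationMonoid.exists_reduced_factors P hP0 Q
  have hc0 : c ≠ 0 := by
    rintro rfl
    exact hP0 (by rw [← hPe, zero_mul])
  have hP₀ : P₀ ≠ 0 := by
    rintro rfl
    exact hP0 (by rw [← hPe, mul_zero])
  have hW0 : W ≠ 0 := by
    rintro rfl
    exact hne ⟨by rw [hW, zero_mul], by rw [hW, zero_mul]⟩
  have hgl : P₀ * logD g mu 0 + Q₀ * logD g mu 1 = 0 := by
    apply mul_left_cancel₀ (mul_ne_zero hc0 hW0)
    rw [mul_zero, ← hH, hW, hW, ← hPe, ← hQe]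
    ring
  have hdvd : P₀ ∣ logD g mu 1 := by
    have h1 : P₀ ∣ Q₀ * logD g mu 1 := ⟨-logD g mu 0, by linear_combination hgl⟩
    exact hrp.dvd_of_dvd_mul_left h1
  obtain ⟨K, hK1⟩ := hdvd
  have hK0 : -logD g mu 0 = Q₀ * K := by
    apply mul_left_cancel₀ hP₀
    rw [hK1] at hgl
    linear_combination -hgl
  have hKne : K ≠ 0 := by
    rintro rfl
    apply hne
    rw [mul_zero] at hK1 hK0
    rw [hW, hW, hK1, neg_eq_zero.1 hK0, mul_zero]
    exact ⟨rfl, rfl⟩
  have eP : logD g mu 1 = XP (fun i : {i // 0 < mu i} => g i) (fun i => mu i)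
      (fun j : {j // mu j < 0} => g j) (fun j => -mu j) := by
    rw [XP, log_split g mu hg hmu 1]; rfl
  have eQ : -logD g mu 0 = XQ (fun i : {i // 0 < mu i} => g i) (fun i => mu i)
      (fun j : {j // mu j < 0} => g j) (fun j => -mu j) := by
    rw [XQ, ← neg_sub, log_split g mu hg hmu 0]; rfl
  have hdP : P₀.totalDegree ≤ n := by
    rw [← hPe, totalDegree_mul_of_isDomain hc0 hP₀] at hP
    omega
  have hdQ : Q₀.totalDegree ≤ n := by
    by_cases hQ₀ : Q₀ = 0
    · rw [hQ₀, totalDegree_zero]; omega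
    · rw [← hQe, totalDegree_mul_of_isDomain hc0 hQ₀] at hQ
      omega
  refine affine2_bound (n := n) (F := fun i : {i // 0 < mu i} => g i) (α := fun i => mu i)
    (G := fun j : {j // mu j < 0} => g j) (β := fun j => -mu j) (fun i => i.2)
    (fun j => neg_pos.2 j.2) (fun i => hg i) (fun j => hg j) (fun i j => hrel i j i.2 j.2)
    (K := K) (P := P₀) (Q := Q₀) hKne hdP hdQ (by rw [← eP, hK1]; ring) (by rw [← eQ, hK0]; ring)
    S fun s hs => ?_
  obtain ⟨hcen, hjne⟩ := hS s hs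
  obtain ⟨htr, hjp⟩ := centre_jac hcen hjne
  have hj' : 0 < eval s (jacP (c * P₀) (c * Q₀)) := by
    rw [hPe, hQe, eval_jacP]
    exact hjp
  have hcs : eval s c ≠ 0 := eval_W_ne hj'
  have g1 : eval s P₀ = 0 := by
    have h1 := hcen.1
    rw [← hPe, map_mul] at h1
    exact (mul_eq_zero.1 h1).resolve_left hcs
  have g2 : eval s Q₀ = 0 := by
    have h1 := hcen.2.1
    rw [← hQe, map_mul] at h1
    exact (mul_eq_zero.1 h1).resolve_left hcs
  have hj₀ : 0 < eval s (jacP P₀ Q₀) := by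
    rw [eval_jacP, eval_pderiv_mul c _ g1, eval_pderiv_mul c _ g2, eval_pderiv_mul c _ g1,
      eval_pderiv_mul c _ g2] at hj'
    rw [eval_jacP]
    have h5 : 0 < eval s c ^ 2 := by positivity
    have h6 : 0 < eval s c ^ 2 * (eval s (pderiv 0 P₀) * eval s (pderiv 1 Q₀) -
        eval s (pderiv 1 P₀) * eval s (pderiv 0 Q₀)) := by
      nlinarith [hj']
    exact (mul_pos_iff_of_pos_left h5).1 h6
  have htr₀ : eval s (pderiv 0 P₀) + eval s (pderiv 1 Q₀) = 0 := by
    rw [← hPe, ← hQe, eval_pderiv_mul c _ g1, eval_pderiv_mul c _ g2, ← mul_add] at htr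
    exact (mul_eq_zero.1 htr).resolve_left hcs
  refine ⟨g1, g2, hj₀, ?_⟩
  by_contra hcon
  push Not at hcon
  obtain ⟨hf0, hh0⟩ := hcon
  rw [map_prod, Finset.prod_eq_zero_iff] at hf0 hh0
  obtain ⟨i, -, hi⟩ := hf0
  obtain ⟨j, -, hjz⟩ := hh0
  obtain ⟨u, hu, hud, hu0⟩ := rf_factor (hg i) hi
  obtain ⟨v, hv, hvd, hv0⟩ := rf_factor (hg j) hjz
  have huv : ¬ u ∣ v := fun h => hu.not_isUnit ((hrel i j i.2 j.2) hud (h.trans hvd))
  have hsu : ∀ l, u ∣ g l → 0 < mu l := by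
    intro l hl
    by_contra hneg
    have hlt : mu l < 0 := lt_of_le_of_ne (not_lt.1 hneg) (hmu l)
    exact hu.not_isUnit ((hrel i l i.2 hlt) hud hl)
  have hsv : ∀ l, v ∣ g l → 0 < -mu l := by
    intro l hl
    by_contra hneg
    have hlt : 0 < mu l := lt_of_le_of_ne (by linarith) (hmu l).symm
    exact hv.not_isUnit ((hrel l j hlt j.2) hl hvd)
  obtain ⟨κ₁, hκ₁⟩ := first_int_inv hg hgl hu hsu ⟨i, hud⟩
  have hgl' : P₀ * logD g (fun i => -mu i) 0 + Q₀ * logD g (fun i => -mu i) 1 = 0 := by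
    rw [rf_logD_neg, rf_logD_neg]
    linear_combination -hgl
  obtain ⟨κ₂, hκ₂⟩ := first_int_inv hg hgl' hv hsv ⟨j, hvd⟩
  have hz : ∀ (w κ : R), w ≠ 0 → P₀ * pderiv 0 w + Q₀ * pderiv 1 w = w * κ → eval s κ = 0 := by
    intro w κ hw0 hκ
    have h1 : P * pderiv 0 w + Q * pderiv 1 w = (c * κ) * w := by
      rw [← hPe, ← hQe]
      linear_combination c * hκ
    have h2 := cofactor_zero hcen hw0 h1
    rw [map_mul] at h2
    exact (mul_eq_zero.1 h2).resolve_left hcs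
  have hj₁ : 0 < jac P₀ Q₀ s := by
    rw [eval_jacP] at hj₀
    exact hj₀
  exact two_curves g1 g2 htr₀ hj₁ hu hv huv hu0 hv0 (by rw [hκ₁, mul_comm])
    (by rw [hκ₂, mul_comm]) (hz u κ₁ hu.ne_zero hκ₁) (hz v κ₂ hv.ne_zero hκ₂)

end Pool.Agent.LogCentres
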