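import Pool.Agent.LogCentres.IrrIso
import Pool.Agent.PlanarCentres.Cofactor

/-!
# Two coprime invariant curves do not meet at a nondegenerate centre
-/

namespace Pool.Agent.LogCentres

open MvPolynomial Pool.Agent.PlanarCentres

private theorem rs_aeval_C (f : R) (p : Fin 2 → ℝ) :
    MvPolynomial.aeval ![(Polynomial.C ((p 0 : ℝ) : ℂ) : Polynomial ℂ),
      Polynomial.C ((p 1 : ℝ) : ℂ)] f = Polynomial.C ((eval p f : ℝ) : ℂ) := by
  induction f using MvPolynomial.induction_on with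
  | C a =>
    rw [MvPolynomial.aeval_C, eval_C]
    rfl
  | add f g hf hg =>
    rw [map_add, hf, hg, map_add, Complex.ofReal_add, Polynomial.C_add]
  | mul_X f i hf =>
    rw [map_mul, hf, map_mul, eval_X, Complex.ofReal_mul, Polynomial.C_mul,
      MvPolynomial.aeval_X]
    fin_cases i <;> rfl

private theorem rs_aeval_coeff (f : R) {x y : Polynomial ℂ} {p : Fin 2 → ℝ}
    (hx : x.coeff 0 = p 0) (hy : y.coeff 0 = p 1) :
    (MvPolynomial.aeval ![x, y] f).coeff 0 = ((eval p f : ℝ) : ℂ) := by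
  induction f using MvPolynomial.induction_on with
  | C a =>
    rw [MvPolynomial.aeval_C, eval_C]
    change (Polynomial.C ((a : ℝ) : ℂ)).coeff 0 = _
    rw [Polynomial.coeff_C_zero]
  | add f g hf hg =>
    rw [map_add, Polynomial.coeff_add, hf, hg, map_add, Complex.ofReal_add]
  | mul_X f i hf =>
    rw [map_mul, Polynomial.mul_coeff_zero, hf, map_mul, eval_X, Complex.ofReal_mul,
      MvPolynomial.aeval_X]
    fin_cases i
    · change _ * x.coeff 0 = _
      rw [hx]; rfl
    · change _ * y.coeff 0 = _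
      rw [hy]; rfl

private theorem rs_sub_dvd {g : Polynomial ℂ} {a : ℂ} (h : g.coeff 0 = a) :
    ∃ u, g = Polynomial.C a + Polynomial.X * u := by
  have : Polynomial.X ∣ g - Polynomial.C a := by
    rw [Polynomial.X_dvd_iff, Polynomial.coeff_sub, Polynomial.coeff_C_zero, h, sub_self]
  obtain ⟨u, hu⟩ := this
  exact ⟨u, by rw [← hu]; ring⟩

private theorem rs_ring {A B z U B1 z1 : Polynomial ℂ} {δ b q γ : ℂ} {m : ℕ}
    (hA : A = B + Polynomial.C δ * Polynomial.X ^ (m + 1) + Polynomial.X ^ (m + 2) * U)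
    (hB : B = Polynomial.C b + Polynomial.X * B1) (hz : z = Polynomial.C q + Polynomial.X * z1) :
    Polynomial.X ^ (m + 2) ∣ A * (z + Polynomial.C γ * Polynomial.X ^ (m + 1)) - B * z -
      Polynomial.C (δ * q + γ * b) * Polynomial.X ^ (m + 1) := by
  refine ⟨Polynomial.C γ * B1 + Polynomial.C δ * z1 +
    Polynomial.C δ * Polynomial.C γ * Polynomial.X ^ m +
    U * (z + Polynomial.C γ * Polynomial.X ^ (m + 1)), ?_⟩
  rw [hA, hB, hz, Polynomial.C_add, Polynomial.C_mul, Polynomial.C_mul]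
  ring

private theorem rs_key (f : R) (m : ℕ) {x y : Polynomial ℂ} {p : Fin 2 → ℝ}
    (hx : x.coeff 0 = p 0) (hy : y.coeff 0 = p 1) (α β : ℂ) :
    Polynomial.X ^ (m + 2) ∣
      MvPolynomial.aeval ![x + Polynomial.C α * Polynomial.X ^ (m + 1),
        y + Polynomial.C β * Polynomial.X ^ (m + 1)] f - MvPolynomial.aeval ![x, y] f -
      Polynomial.C (α * ((eval p (pderiv 0 f) : ℝ) : ℂ) + β * ((eval p (pderiv 1 f) : ℝ) : ℂ)) *
        Polynomial.X ^ (m + 1) := by
  induction f using MvPolynomial.induction_on with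
  | C a =>
    rw [MvPolynomial.aeval_C, MvPolynomial.aeval_C, pderiv_C, pderiv_C, map_zero,
      Complex.ofReal_zero, mul_zero, mul_zero, add_zero, Polynomial.C_0, zero_mul, sub_self,
      sub_zero]
    exact dvd_zero _
  | add f g hf hg =>
    have h := dvd_add hf hg
    refine h.trans (dvd_of_eq ?_)
    simp only [map_add, Complex.ofReal_add, Polynomial.C_mul]
    ring
  | mul_X f i hf =>
    obtain ⟨U, hU⟩ := hf
    obtain ⟨B1, hB1⟩ := rs_sub_dvd (rs_aeval_coeff f hx hy)
    obtain ⟨x1, hx1⟩ := rs_sub_dvd hx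
    obtain ⟨y1, hy1⟩ := rs_sub_dvd hy
    have hA := eq_add_of_sub_eq hU
    have hA2 := eq_add_of_sub_eq hA
    have hA3 : MvPolynomial.aeval ![x + Polynomial.C α * Polynomial.X ^ (m + 1),
        y + Polynomial.C β * Polynomial.X ^ (m + 1)] f = MvPolynomial.aeval ![x, y] f +
        Polynomial.C (α * ((eval p (pderiv 0 f) : ℝ) : ℂ) +
        β * ((eval p (pderiv 1 f) : ℝ) : ℂ)) * Polynomial.X ^ (m + 1) +
        Polynomial.X ^ (m + 2) * U := by
      rw [hA2]; ring
    rw [map_mul, map_mul, MvPolynomial.aeval_X, MvPolynomial.aeval_X]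
    fin_cases i
    · have e0 : eval p (pderiv 0 (f * X (0 : Fin 2))) = eval p (pderiv 0 f) * p 0 + eval p f := by
        rw [Derivation.leibniz, pderiv_X_self]
        simp only [smul_eq_mul, mul_one, map_add, map_mul, eval_X]
        ring
      have e1 : eval p (pderiv 1 (f * X (0 : Fin 2))) = eval p (pderiv 1 f) * p 0 := by
        rw [Derivation.leibniz, pderiv_X_of_ne (by decide)]
        simp only [smul_eq_mul, mul_zero, map_add, map_mul, eval_X, map_zero]
        ring
      have h := rs_ring (γ := α) hA3 hB1 hx1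
      refine h.trans (dvd_of_eq ?_)
      change _ = MvPolynomial.aeval ![x + Polynomial.C α * Polynomial.X ^ (m + 1),
        y + Polynomial.C β * Polynomial.X ^ (m + 1)] f *
        (x + Polynomial.C α * Polynomial.X ^ (m + 1)) - MvPolynomial.aeval ![x, y] f * x -
        Polynomial.C (α * ((eval p (pderiv 0 (f * X (0 : Fin 2))) : ℝ) : ℂ) +
          β * ((eval p (pderiv 1 (f * X (0 : Fin 2))) : ℝ) : ℂ)) * Polynomial.X ^ (m + 1)
      rw [e0, e1]
      congr 3
      push_cast
      ring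
    · have e0 : eval p (pderiv 0 (f * X (1 : Fin 2))) = eval p (pderiv 0 f) * p 1 := by
        rw [Derivation.leibniz, pderiv_X_of_ne (by decide)]
        simp only [smul_eq_mul, mul_zero, map_add, map_mul, eval_X, map_zero]
        ring
      have e1 : eval p (pderiv 1 (f * X (1 : Fin 2))) = eval p (pderiv 1 f) * p 1 + eval p f := by
        rw [Derivation.leibniz, pderiv_X_self]
        simp only [smul_eq_mul, mul_one, map_add, map_mul, eval_X]
        ring
      have h := rs_ring (γ := β) hA3 hB1 hy1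
      refine h.trans (dvd_of_eq ?_)
      change _ = MvPolynomial.aeval ![x + Polynomial.C α * Polynomial.X ^ (m + 1),
        y + Polynomial.C β * Polynomial.X ^ (m + 1)] f *
        (y + Polynomial.C β * Polynomial.X ^ (m + 1)) - MvPolynomial.aeval ![x, y] f * y -
        Polynomial.C (α * ((eval p (pderiv 0 (f * X (1 : Fin 2))) : ℝ) : ℂ) +
          β * ((eval p (pderiv 1 (f * X (1 : Fin 2))) : ℝ) : ℂ)) * Polynomial.X ^ (m + 1)
      rw [e0, e1]
      congr 3
      push_cast
      ring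

private theorem rs_der (μ α : ℂ) (x : Polynomial ℂ) (k : ℕ) :
    Polynomial.C μ * Polynomial.X *
      Polynomial.derivative (x + Polynomial.C α * Polynomial.X ^ (k + 1)) =
    Polynomial.C μ * Polynomial.X * Polynomial.derivative x +
      Polynomial.C (μ * (k + 1) * α) * Polynomial.X ^ (k + 1) := by
  rw [Polynomial.derivative_add, Polynomial.derivative_C_mul, Polynomial.derivative_X_pow]
  simp only [Nat.add_sub_cancel, Nat.cast_add, Nat.cast_one, Polynomial.C_1,
    Polynomial.C_add, Polynomial.C_mul]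
  ring

private theorem rs_fix {g : Polynomial ℂ} {k : ℕ} {t : ℂ} (h : Polynomial.X ^ k ∣ g)
    (ht : g.coeff k = t) : Polynomial.X ^ (k + 1) ∣ g - Polynomial.C t * Polynomial.X ^ k := by
  obtain ⟨u, hu⟩ := h
  have h1 : u.coeff 0 = t := by
    rw [← ht, hu, mul_comm, Polynomial.coeff_mul_X_pow' u k k]
    simp
  obtain ⟨v, hv⟩ := rs_sub_dvd h1
  refine ⟨v, ?_⟩
  rw [hu, hv]
  ring

private theorem rs_aux {P Q : R} {p : Fin 2 → ℝ} (hP : eval p P = 0) (hQ : eval p Q = 0)
    {a b c d μ : ℂ} (ha : ((eval p (pderiv 0 P) : ℝ) : ℂ) = a)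
    (hb : ((eval p (pderiv 1 P) : ℝ) : ℂ) = b) (hc : ((eval p (pderiv 0 Q) : ℝ) : ℂ) = c)
    (hd : ((eval p (pderiv 1 Q) : ℝ) : ℂ) = d) (htr : a + d = 0) (hμ : μ ^ 2 = - (a * d - b * c))
    (hμ0 : μ ≠ 0) (N : ℕ) :
    ∃ x y : Polynomial ℂ, x.coeff 0 = p 0 ∧ y.coeff 0 = p 1 ∧ x.coeff 1 = b ∧
      Polynomial.X ^ (N + 2) ∣ Polynomial.C μ * Polynomial.X * Polynomial.derivative x -
        MvPolynomial.aeval ![x, y] P ∧
      Polynomial.X ^ (N + 2) ∣ Polynomial.C μ * Polynomial.X * Polynomial.derivative y -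
        MvPolynomial.aeval ![x, y] Q := by
  induction N with
  | zero =>
    have hx0 : (Polynomial.C ((p 0 : ℝ) : ℂ)).coeff 0 = ((p 0 : ℝ) : ℂ) :=
      Polynomial.coeff_C_zero
    have hy0 : (Polynomial.C ((p 1 : ℝ) : ℂ)).coeff 0 = ((p 1 : ℝ) : ℂ) :=
      Polynomial.coeff_C_zero
    have k1 := rs_key P 0 hx0 hy0 b (μ - a)
    have k2 := rs_key Q 0 hx0 hy0 b (μ - a)
    rw [rs_aeval_C, hP, ha, hb] at k1
    rw [rs_aeval_C, hQ, hc, hd] at k2
    refine ⟨Polynomial.C ((p 0 : ℝ) : ℂ) + Polynomial.C b * Polynomial.X ^ (0 + 1),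
      Polynomial.C ((p 1 : ℝ) : ℂ) + Polynomial.C (μ - a) * Polynomial.X ^ (0 + 1), ?_, ?_, ?_,
      ?_, ?_⟩
    · simp
    · simp
    · simp
    · rw [rs_der, Polynomial.derivative_C, mul_zero, zero_add]
      refine (dvd_neg.mpr k1).trans (dvd_of_eq ?_)
      have e : μ * ((0 : ℕ) + 1) * b = b * a + (μ - a) * b := by push_cast; ring
      rw [e]
      simp only [Complex.ofReal_zero, Polynomial.C_0]
      ring
    · rw [rs_der, Polynomial.derivative_C, mul_zero, zero_add]
      refine (dvd_neg.mpr k2).trans (dvd_of_eq ?_)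
      have e : μ * ((0 : ℕ) + 1) * (μ - a) = b * c + (μ - a) * d := by
        push_cast
        linear_combination hμ - μ * htr
      rw [e]
      simp only [Complex.ofReal_zero, Polynomial.C_0]
      ring
  | succ N ih =>
    obtain ⟨x, y, hx, hy, hx1, h1, h2⟩ := ih
    obtain ⟨r1, hr1⟩ : ∃ r, (Polynomial.C μ * Polynomial.X * Polynomial.derivative x -
        MvPolynomial.aeval ![x, y] P).coeff (N + 2) = r := ⟨_, rfl⟩
    obtain ⟨r2, hr2⟩ : ∃ r, (Polynomial.C μ * Polynomial.X * Polynomial.derivative y -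
        MvPolynomial.aeval ![x, y] Q).coeff (N + 2) = r := ⟨_, rfl⟩
    have f1 := rs_fix h1 hr1
    have f2 := rs_fix h2 hr2
    -- the linear system
    have hk : (μ * (((N + 1 : ℕ) : ℂ) + 1) - a) * (μ * (((N + 1 : ℕ) : ℂ) + 1) - d) - b * c ≠ 0 := by
      have e : (μ * (((N + 1 : ℕ) : ℂ) + 1) - a) * (μ * (((N + 1 : ℕ) : ℂ) + 1) - d) - b * c =
          μ ^ 2 * (((N : ℂ) + 1) * ((N : ℂ) + 3)) := by
        push_cast
        linear_combination (-(μ * ((N : ℂ) + 2))) * htr + hμ
      rw [e]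
      refine mul_ne_zero (pow_ne_zero _ hμ0) (mul_ne_zero ?_ ?_)
      · exact_mod_cast Nat.succ_ne_zero N
      · exact_mod_cast Nat.succ_ne_zero (N + 2)
    set M : ℂ := μ * (((N + 1 : ℕ) : ℂ) + 1) with hM
    set D : ℂ := (M - a) * (M - d) - b * c with hD
    obtain ⟨α, hα⟩ : ∃ α : ℂ, α = -((M - d) * r1 + b * r2) / D := ⟨_, rfl⟩
    obtain ⟨β, hβ⟩ : ∃ β : ℂ, β = -((M - a) * r2 + c * r1) / D := ⟨_, rfl⟩
    have s1 : r1 + M * α - (α * a + β * b) = 0 := by
      have : D * (r1 + M * α - (α * a + β * b)) = 0 := by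
        rw [hα, hβ]
        field_simp
        rw [hD]
        ring
      exact (mul_eq_zero.mp this).resolve_left hk
    have s2 : r2 + M * β - (α * c + β * d) = 0 := by
      have : D * (r2 + M * β - (α * c + β * d)) = 0 := by
        rw [hα, hβ]
        field_simp
        rw [hD]
        ring
      exact (mul_eq_zero.mp this).resolve_left hk
    have k1 := rs_key P (N + 1) hx hy α β
    have k2 := rs_key Q (N + 1) hx hy α β
    rw [ha, hb] at k1
    rw [hc, hd] at k2
    refine ⟨x + Polynomial.C α * Polynomial.X ^ (N + 1 + 1),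
      y + Polynomial.C β * Polynomial.X ^ (N + 1 + 1), ?_, ?_, ?_, ?_, ?_⟩
    · rw [Polynomial.coeff_add, hx]; simp
    · rw [Polynomial.coeff_add, hy]; simp
    · rw [Polynomial.coeff_add, hx1, Polynomial.coeff_C_mul, Polynomial.coeff_X_pow]; simp
    · rw [rs_der]
      refine (dvd_sub f1 k1).trans (dvd_of_eq ?_)
      have e : M * α = (α * a + β * b) - r1 := by linear_combination s1
      rw [← hM, e]
      simp only [Polynomial.C_sub]
      ring
    · rw [rs_der]
      refine (dvd_sub f2 k2).trans (dvd_of_eq ?_)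
      have e : M * β = (α * c + β * d) - r2 := by linear_combination s2
      rw [← hM, e]
      simp only [Polynomial.C_sub]
      ring

/-- a truncated separatrix: a polynomial curve tangent to an eigenvector -/
theorem trunc_sep {P Q : R} {p : Fin 2 → ℝ} (hP : eval p P = 0) (hQ : eval p Q = 0)
    (htr : eval p (pderiv 0 P) + eval p (pderiv 1 Q) = 0) (hj : 0 < jac P Q p) (N : ℕ) :
    ∃ (μ : ℂ) (x y : Polynomial ℂ), μ ≠ 0 ∧ x.coeff 0 = p 0 ∧ y.coeff 0 = p 1 ∧
      x.coeff 1 ≠ 0 ∧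
      Polynomial.X ^ (N + 1) ∣ Polynomial.C μ * Polynomial.X * Polynomial.derivative x -
        MvPolynomial.aeval ![x, y] P ∧
      Polynomial.X ^ (N + 1) ∣ Polynomial.C μ * Polynomial.X * Polynomial.derivative y -
        MvPolynomial.aeval ![x, y] Q := by
  have hs : 0 < Real.sqrt (jac P Q p) := Real.sqrt_pos.mpr hj
  have hμ0 : Complex.I * ((Real.sqrt (jac P Q p) : ℝ) : ℂ) ≠ 0 :=
    mul_ne_zero Complex.I_ne_zero (by exact_mod_cast hs.ne')
  have hμ : (Complex.I * ((Real.sqrt (jac P Q p) : ℝ) : ℂ)) ^ 2 =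
      - (((eval p (pderiv 0 P) : ℝ) : ℂ) * ((eval p (pderiv 1 Q) : ℝ) : ℂ) -
        ((eval p (pderiv 1 P) : ℝ) : ℂ) * ((eval p (pderiv 0 Q) : ℝ) : ℂ)) := by
    rw [mul_pow, Complex.I_sq, ← Complex.ofReal_pow, Real.sq_sqrt hj.le, jac]
    push_cast
    ring
  have hb : eval p (pderiv 1 P) ≠ 0 := by
    intro h
    rw [jac, h, zero_mul, sub_zero] at hj
    have : eval p (pderiv 1 Q) = - eval p (pderiv 0 P) := by linarith
    rw [this] at hj
    nlinarith [mul_self_nonneg (eval p (pderiv 0 P))]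
  obtain ⟨x, y, hx, hy, hx1, h1, h2⟩ := rs_aux hP hQ rfl rfl rfl rfl (by exact_mod_cast htr) hμ hμ0 N
  refine ⟨_, x, y, hμ0, hx, hy, ?_, ?_, ?_⟩
  · rw [hx1]
    exact_mod_cast hb
  · exact (pow_dvd_pow _ (by omega)).trans h1
  · exact (pow_dvd_pow _ (by omega)).trans h2

end Pool.Agent.LogCentres
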