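import Pool.Agent.LogCentres.PairEv
import Pool.Agent.LogCentres.PairId
import Pool.Agent.LogCentres.ResC

/-!
# Orthogonality of a functional supported at a point
-/

namespace Pool.Agent.LogCentres

open MvPolynomial

/-- a polynomial of the ideal which is `1` at the point to the order `L` -/
private theorem ro_unit {p : Fin 2 → ℝ} (L : ℕ) {I : Ideal R} {g : R} (hg : g ∈ I)
    (hgp : eval p g ≠ 0) :
    ∃ q ∈ I, 1 - q ∈ (RingHom.ker (eval p : R →+* ℝ)) ^ L := by
  have hu : 1 - C (eval p g)⁻¹ * g ∈ RingHom.ker (eval p : R →+* ℝ) := by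
    rw [RingHom.mem_ker, map_sub, map_one, map_mul, eval_C, inv_mul_cancel₀ hgp, sub_self]
  refine ⟨1 - (1 - C (eval p g)⁻¹ * g) ^ L, ?_, ?_⟩
  · have h1 : (1 : R) - (1 - C (eval p g)⁻¹ * g) ∣ 1 ^ L - (1 - C (eval p g)⁻¹ * g) ^ L :=
      sub_dvd_pow_sub_pow _ _ L
    rw [one_pow, sub_sub_cancel] at h1
    obtain ⟨w, hw⟩ := h1
    rw [hw]
    exact I.mul_mem_right _ (I.mul_mem_left _ hg)
  · rw [sub_sub_cancel]
    exact Ideal.pow_mem_pow hu L

theorem orth {P Q : R} {A B C D : T} (h1 : Ker P A B) (h2 : Ker Q C D) {p : Fin 2 → ℝ} {L : ℕ}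
    {φ ψ : R →ₗ[ℝ] ℝ} {I : Ideal R} (hφ : ∀ q ∈ Ideal.span {P, Q}, φ q = 0)
    (hφL : ∀ q ∈ (RingHom.ker (eval p : R →+* ℝ)) ^ L, φ q = 0)
    (hψ : ∀ q ∈ I, ψ q = 0) (hPI : P ∈ I) (hQI : Q ∈ I) {g : R} (hg : g ∈ I)
    (hgp : eval p g ≠ 0) :
    pair φ ψ (A * D - B * C) = 0 ∧ pair ψ φ (A * D - B * C) = 0 := by
  obtain ⟨q, hqI, hq⟩ := ro_unit L hg hgp
  have hle : Ideal.span {P, Q} ≤ I := by
    rw [Ideal.span_le]
    intro x hx
    simp only [Set.mem_insert_iff, Set.mem_singleton_iff] at hx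
    rcases hx with rfl | rfl
    · exact hPI
    · exact hQI
  have hψ' : ∀ r ∈ Ideal.span {P, Q}, ψ r = 0 := fun r hr => hψ r (hle hr)
  have hone : ∀ r : R, φ (q * r) = φ r := by
    intro r
    have h3 : φ ((1 - q) * r) = 0 := hφL _ (Ideal.mul_mem_right _ _ hq)
    rw [sub_mul, one_mul, map_sub, sub_eq_zero] at h3
    exact h3.symm
  have hmove := det_move h1 h2 q
  constructor
  · have h3 := pair_J hφ hψ' hmove
    rw [sub_mul, map_sub, sub_eq_zero] at h3
    have h4 : pair φ ψ (ix q * (A * D - B * C)) = pair φ ψ (A * D - B * C) := by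
      change φ (app ψ (ix q * (A * D - B * C))) = φ (app ψ (A * D - B * C))
      rw [app_ix_mul, hone]
    have h5 : pair φ ψ (iu q * (A * D - B * C)) = 0 := by
      change φ (app ψ (iu q * (A * D - B * C))) = 0
      rw [app_iu_mul, tw_kill hψ hqI, app_zero, map_zero]
    rw [← h4, h3, h5]
  · have h3 := pair_J hψ' hφ hmove
    rw [sub_mul, map_sub, sub_eq_zero] at h3
    have h4 : pair ψ φ (ix q * (A * D - B * C)) = 0 := by
      change ψ (app φ (ix q * (A * D - B * C))) = 0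
      rw [app_ix_mul]
      exact hψ _ (I.mul_mem_right _ hqI)
    have h5 : pair ψ φ (iu q * (A * D - B * C)) = pair ψ φ (A * D - B * C) := by
      have h6 : tw φ q = φ := LinearMap.ext fun r => hone r
      change ψ (app φ (iu q * (A * D - B * C))) = ψ (app φ (A * D - B * C))
      rw [app_iu_mul, h6]
    rw [← h5, ← h3, h4]

end Pool.Agent.LogCentres
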