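import Pool.Agent.LogCentres.Count
import Pool.Agent.LogCentres.RdTr
import Pool.Agent.LogCentres.RdNil
import Pool.Agent.LogCentres.RdGrow
import Pool.Agent.LogCentres.RdPair
import Pool.Agent.LogCentres.RePosFn
import Pool.Agent.LogCentres.ReOrth

/-!
# The count for reduced systems, degenerate zeros included
-/

namespace Pool.Agent.LogCentres

open MvPolynomial

private theorem rc3_num {S B d s ν N0 T E : ℕ} (h1 : 2 * (S + B) ≤ d * (d + 1) + 2 + 2 * s + 2 * ν)
    (h2 : 2 * s + N0 ≤ B) (h3 : ν ≤ N0) (h4 : ν + 1 ≤ T) (h5 : T + E = B) (h6 : d ≤ E) :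
    2 * S ≤ d * d + 1 := by
  have : d * (d + 1) = d * d + d := by ring
  omega

/-- the final count -/
theorem count3 {d k : ℕ} (S : Finset (Fin 2 → ℝ)) {K P Q G P₁ Q₁ f h U₁ V₁ U₂ V₂ : R}
    {m : R →ₗ[ℝ] ℝ} (hG : G.totalDegree ≤ d) (hP₁ : P₁.totalDegree ≤ d)
    (hQ₁ : Q₁.totalDegree ≤ d) (hP : P = X 0 * G + P₁) (hQ : Q = X 1 * G + Q₁)
    (hP' : K * P = f * U₁ + h * V₁) (hQ' : K * Q = f * U₂ + h * V₂)
    (hrel : IsRelPrime P Q)
    (hS : ∀ s ∈ S, eval s P = 0 ∧ eval s Q = 0 ∧ 0 ≤ eval s (jacP P Q) ∧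
      (eval s f ≠ 0 ∨ eval s h ≠ 0))
    (hm : Res f h m) [Module.Finite ℝ (R ⧸ Ideal.span {f, h})]
    (hpos : ∀ u : R, (∀ χ : (R ⧸ Ideal.span {f, h}) →ₐ[ℝ] ℂ,
      (χ (Ideal.Quotient.mk _ u)).im = 0) → 0 ≤ m ((U₁ * V₂ - V₁ * U₂) * (u * u)))
    (hzero : ∀ u : R, (∀ χ : (R ⧸ Ideal.span {f, h}) →ₐ[ℝ] ℂ,
      (χ (Ideal.Quotient.mk _ u)).im = 0) → m ((U₁ * V₂ - V₁ * U₂) * (u * u)) = 0 →
      ∀ χ : (R ⧸ Ideal.span {f, h}) →ₐ[ℝ] ℂ, χ (Ideal.Quotient.mk _ u) = 0)
    (hone : 0 < m (U₁ * V₂ - V₁ * U₂))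
    (hlow : ∀ p : R, p.totalDegree + 1 ≤ k + d → m p = 0) (hKd : K.totalDegree ≤ k) :
    2 * S.card ≤ d * d + 1 := by
  classical
  obtain ⟨n, L, N, hn, hN, hL⟩ := real_nil (R ⧸ Ideal.span {f, h})
  obtain ⟨W, hW, hWr, hWf⟩ := exists_low d
  obtain ⟨A, B, C', D, hA, hC, htop⟩ := kernel_top hG hP₁ hQ₁ hP hQ
  have hfun : ∀ s : S, ∃ (φ : R →ₗ[ℝ] ℝ) (L : ℕ), (∀ q ∈ Ideal.span {P, Q}, φ q = 0) ∧
      (∀ q ∈ (RingHom.ker (eval s.1 : R →+* ℝ)) ^ L, φ q = 0) ∧
      0 < pair φ φ (A * D - B * C') := fun s =>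
    pos_fn hrel (hS s.1 s.2).1 (hS s.1 s.2).2.1 hA hC (hS s.1 s.2).2.2.1
  choose Φ Lv hΦ1 hΦ2 hΦ3 using hfun
  obtain ⟨A', B', hA'⟩ := exists_ker f
  obtain ⟨C'', D', hC''⟩ := exists_ker h
  -- the ideal
  have hfI : f ∈ Ideal.span {f, h} := Ideal.subset_span (by simp)
  have hhI : h ∈ Ideal.span {f, h} := Ideal.subset_span (by simp)
  have hnt : Ideal.span {f, h} ≠ ⊤ := by
    intro h0
    have h1 : U₁ * V₂ - V₁ * U₂ ∈ Ideal.span {f, h} := by rw [h0]; exact Submodule.mem_top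
    rw [hm.kill _ h1] at hone
    exact lt_irrefl _ hone
  have hpK := pair_K hm hP' hQ' hA hC
  have hKI : K ∉ Ideal.span {f, h} := by
    intro h0
    have h1 := hpK 1 1
    have h2 : tw m (K * 1) = 0 := by
      refine LinearMap.ext fun p => ?_
      exact hm.kill _ (Ideal.mul_mem_right _ _ (Ideal.mul_mem_right _ _ h0))
    rw [h2, mul_one, mul_one] at h1
    change (0 : ℝ) = _ at h1
    rw [← h1] at hone
    exact lt_irrefl _ hone
  have hnd : ∀ u : R, (∀ p, m (u * p) = 0) → u ∈ Ideal.span {f, h} := by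
    intro u hu
    have h1 := res_repr hm hA' hC'' u
    have h2 : app m (iu u * (A' * D' - B' * C'')) = 0 := by
      rw [app_iu_mul]
      have h3 : tw m u = 0 := LinearMap.ext fun p => hu p
      rw [h3, app_zero]
    rw [h2, zero_sub] at h1
    simpa using h1
  obtain ⟨E, hE, hEm⟩ := grow (I := Ideal.span {f, h}) (K := K) hm.kill hlow (hnd K) hKI hKd
  -- the functional on the quotient
  let μ : (R ⧸ Ideal.span {f, h}) →ₗ[ℝ] ℝ :=
    Submodule.liftQ ((Ideal.span {f, h}).restrictScalars ℝ) m (fun p hp => hm.kill p hp)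
  have hμ : ∀ p : R, μ (Ideal.Quotient.mk _ p) = m p := fun p => rfl
  obtain ⟨T₀, hT₀, hT₁⟩ := perp (R ⧸ Ideal.span {f, h}) μ (fun x hx => by
    obtain ⟨p, rfl⟩ := Ideal.Quotient.mk_surjective x
    refine Ideal.Quotient.eq_zero_iff_mem.2 (hnd p fun q => ?_)
    have := hx (Ideal.Quotient.mk _ q)
    rwa [← map_mul, hμ] at this) E
  have hTn : Module.finrank ℝ (N ⊓ T₀ : Submodule ℝ _) + 1 ≤ Module.finrank ℝ T₀ := by
    have hlt : (N ⊓ T₀ : Submodule ℝ _) < T₀ := by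
      refine lt_of_le_of_ne inf_le_right fun h0 => ?_
      have h1 : (1 : R ⧸ Ideal.span {f, h}) ∈ T₀ := by
        rw [hT₁]
        intro e he
        obtain ⟨p, hp, rfl⟩ := hEm e he
        rw [one_mul, hμ]
        rcases hp with rfl | hp
        · rw [mul_zero, map_zero]
        · refine hlow _ ?_
          have := totalDegree_mul K p
          omega
      rw [← h0] at h1
      have h2 := (hN 1).1 h1.1
      have : Nontrivial (R ⧸ Ideal.span {f, h}) := Ideal.Quotient.nontrivial_iff.2 hnt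
      obtain ⟨χ⟩ := exists_char (R ⧸ Ideal.span {f, h})
      have h3 := h2 χ
      rw [map_one] at h3
      exact one_ne_zero h3
    exact Submodule.finrank_lt_finrank_of_lt hlt
  have hNn : Module.finrank ℝ (N ⊓ T₀ : Submodule ℝ _) ≤ Module.finrank ℝ N :=
    Submodule.finrank_mono inf_le_left
  -- a linear section
  obtain ⟨σ, hσ⟩ := LinearMap.exists_rightInverse_of_surjective
    (Ideal.Quotient.mkₐ ℝ (Ideal.span {f, h})).toLinearMap
    (LinearMap.range_eq_top.2 (Ideal.Quotient.mkₐ_surjective ℝ _))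
  have hσ' : ∀ x, Ideal.Quotient.mk (Ideal.span {f, h}) (σ x) = x := fun x => by
    have h1 := LinearMap.congr_fun hσ x
    simpa using h1
  -- the functional
  let φ : ((S → ℝ) × (R ⧸ Ideal.span {f, h})) →ₗ[ℝ] (R →ₗ[ℝ] ℝ) :=
    { toFun := fun v => ∑ s, v.1 s • Φ s + tw m (K * σ v.2)
      map_add' := fun v w => by
        refine LinearMap.ext fun p => ?_
        simp only [Prod.fst_add, Pi.add_apply, Prod.snd_add, map_add, tw, LinearMap.add_apply,
          LinearMap.sum_apply, LinearMap.smul_apply, LinearMap.comp_apply, mul_add,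
          LinearMap.mulLeft_apply, add_mul, add_smul, Finset.sum_add_distrib]
        ring
      map_smul' := fun c v => by
        refine LinearMap.ext fun p => ?_
        simp only [Prod.smul_fst, Pi.smul_apply, Prod.smul_snd, map_smul, tw,
          LinearMap.add_apply, LinearMap.sum_apply, LinearMap.smul_apply, LinearMap.comp_apply,
          LinearMap.mulLeft_apply, mul_smul_comm, smul_mul_assoc, smul_eq_mul, RingHom.id_apply,
          mul_add, Finset.mul_sum, mul_assoc] }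
  have hφ : ∀ v, φ v = ∑ s, v.1 s • Φ s + tw m (K * σ v.2) := fun v => rfl
  let Ψ : ((S → ℝ) × (R ⧸ Ideal.span {f, h})) →ₗ[ℝ] ((W →ₗ[ℝ] ℝ) × ℝ × (Fin n → ℝ)) :=
    ((LinearMap.lcomp ℝ ℝ W.subtype).comp φ).prod
      (((LinearMap.applyₗ G).comp φ).prod (L.comp (LinearMap.snd ℝ _ _)))
  have hker : ∀ v ∈ LinearMap.ker Ψ, v.1 = 0 ∧ v.2 ∈ (N ⊓ T₀ : Submodule ℝ _) := by
    rintro ⟨w, x⟩ hv
    have hΨ : Ψ (w, x) = 0 := LinearMap.mem_ker.1 hv
    have h1 : ∀ p : R, p.totalDegree + 1 ≤ d → φ (w, x) p = 0 := fun p hp =>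
      LinearMap.congr_fun (Prod.ext_iff.1 hΨ).1 ⟨p, hW p hp⟩
    have h2 : φ (w, x) G = 0 := (Prod.ext_iff.1 (Prod.ext_iff.1 hΨ).2).1
    have h3 : L x = 0 := (Prod.ext_iff.1 (Prod.ext_iff.1 hΨ).2).2
    have h4 := htop (φ (w, x)) h1
    rw [h2] at h4
    set Δ : T := A * D - B * C' with hΔ
    set u : R := σ x with hu
    let I : Ideal R := Submodule.comap (LinearMap.mulLeft R K) (Ideal.span {f, h})
    have hI : ∀ p, p ∈ I ↔ K * p ∈ Ideal.span {f, h} := fun p => Iff.rfl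
    have hmu : ∀ p ∈ I, tw m (K * u) p = 0 := fun p hp => by
      have h5 := hm.kill _ (Ideal.mul_mem_left _ u ((hI p).1 hp))
      change m (K * u * p) = 0
      rw [← h5]
      congr 1
      ring
    have hPI : P ∈ I := by
      rw [hI, hP']
      exact Ideal.add_mem _ (Ideal.mul_mem_right _ _ hfI) (Ideal.mul_mem_right _ _ hhI)
    have hQI : Q ∈ I := by
      rw [hI, hQ']
      exact Ideal.add_mem _ (Ideal.mul_mem_right _ _ hfI) (Ideal.mul_mem_right _ _ hhI)
    have hfI' : f ∈ I := (hI f).2 (Ideal.mul_mem_left _ _ hfI)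
    have hhI' : h ∈ I := (hI h).2 (Ideal.mul_mem_left _ _ hhI)
    have h5 : pair (tw m (K * u)) (tw m (K * u)) Δ = m ((U₁ * V₂ - V₁ * U₂) * (u * u)) :=
      hpK u u
    have h67 : ∀ s : S, pair (Φ s) (tw m (K * u)) Δ = 0 ∧ pair (tw m (K * u)) (Φ s) Δ = 0 :=
      fun s => by
        obtain ⟨-, -, -, hs3 | hs3⟩ := hS s.1 s.2
        · exact orth hA hC (hΦ1 s) (hΦ2 s) hmu hPI hQI hfI' hs3
        · exact orth hA hC (hΦ1 s) (hΦ2 s) hmu hPI hQI hhI' hs3
    have hst : ∀ s t : S, t ≠ s → pair (Φ s) (Φ t) Δ = 0 := fun s t hts => by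
      have hne : ∃ i, t.1 i ≠ s.1 i := by
        by_contra hcon
        push Not at hcon
        exact hts (Subtype.ext (_root_.funext hcon))
      obtain ⟨i, hi⟩ := hne
      have hk : (X i - C (t.1 i) : R) ∈ RingHom.ker (eval t.1 : R →+* ℝ) := by
        rw [RingHom.mem_ker, map_sub, eval_X, eval_C, sub_self]
      refine (orth hA hC (hΦ1 s) (hΦ2 s)
        (I := Ideal.span {P, Q} ⊔ (RingHom.ker (eval t.1 : R →+* ℝ)) ^ Lv t) (ψ := Φ t)
        (g := (X i - C (t.1 i)) ^ Lv t) ?_ ?_ ?_ ?_ ?_).1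
      · intro q hq
        obtain ⟨y, hy, z, hz, rfl⟩ := Submodule.mem_sup.1 hq
        rw [map_add, hΦ1 t y hy, hΦ2 t z hz, add_zero]
      · exact Ideal.mem_sup_left (Ideal.subset_span (by simp))
      · exact Ideal.mem_sup_left (Ideal.subset_span (by simp))
      · exact Ideal.mem_sup_right (Ideal.pow_mem_pow hk _)
      · rw [map_pow, map_sub, eval_X, eval_C]
        exact pow_ne_zero _ (sub_ne_zero.2 (Ne.symm hi))
    have h8 : pair (φ (w, x)) (φ (w, x)) Δ =
        ∑ s : S, w s ^ 2 * pair (Φ s) (Φ s) Δ + m ((U₁ * V₂ - V₁ * U₂) * (u * u)) := by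
      have ha : app (φ (w, x)) Δ = ∑ s : S, w s • app (Φ s) Δ + app (tw m (K * u)) Δ := by
        rw [hφ, app_add, app_sum]
        simp only [app_smul]
        rfl
      have hb : ∀ ψ : R →ₗ[ℝ] ℝ, pair ψ (φ (w, x)) Δ =
          ∑ s : S, w s * pair ψ (Φ s) Δ + pair ψ (tw m (K * u)) Δ := fun ψ => by
        change ψ (app (φ (w, x)) Δ) = _
        rw [ha, map_add, map_sum]
        simp only [map_smul, smul_eq_mul]
        rfl
      have hc : ∀ ψ : R →ₗ[ℝ] ℝ, pair (φ (w, x)) ψ Δ =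
          ∑ s : S, w s * pair (Φ s) ψ Δ + pair (tw m (K * u)) ψ Δ := fun ψ => by
        change φ (w, x) (app ψ Δ) = _
        rw [hφ, LinearMap.add_apply, LinearMap.sum_apply]
        rfl
      rw [hc, hb, h5]
      have hd : ∑ s : S, w s * pair (tw m (K * u)) (Φ s) Δ = 0 :=
        Finset.sum_eq_zero fun s _ => by rw [(h67 s).2, mul_zero]
      rw [hd, zero_add]
      congr 1
      refine Finset.sum_congr rfl fun s _ => ?_
      rw [hb, (h67 s).1, add_zero, Finset.sum_eq_single s]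
      · ring
      · intro t _ hts
        rw [hst s t hts, mul_zero]
      · intro hs
        exact absurd (Finset.mem_univ _) hs
    rw [h8] at h4
    have hre : ∀ χ : (R ⧸ Ideal.span {f, h}) →ₐ[ℝ] ℂ, (χ (Ideal.Quotient.mk _ u)).im = 0 :=
      fun χ => by
        rw [hu, hσ']
        exact hL x h3 χ
    have h9 : 0 ≤ m ((U₁ * V₂ - V₁ * U₂) * (u * u)) := hpos u hre
    have h10 : ∀ s : S, 0 ≤ w s ^ 2 * pair (Φ s) (Φ s) Δ := fun s =>
      mul_nonneg (sq_nonneg _) (hΦ3 s).le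
    have h11 : 0 ≤ ∑ s : S, w s ^ 2 * pair (Φ s) (Φ s) Δ := Finset.sum_nonneg fun s _ => h10 s
    have h12 : ∑ s : S, w s ^ 2 * pair (Φ s) (Φ s) Δ = 0 := by
      have : (0 : ℝ) ^ 2 = 0 := by norm_num
      linarith
    have h13 : m ((U₁ * V₂ - V₁ * U₂) * (u * u)) = 0 := by
      have : (0 : ℝ) ^ 2 = 0 := by norm_num
      linarith
    have hw : w = 0 := by
      funext s
      have h14 := (Finset.sum_eq_zero_iff_of_nonneg fun s _ => h10 s).1 h12 s (Finset.mem_univ _)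
      rcases mul_eq_zero.1 h14 with h15 | h15
      · simpa using h15
      · exact absurd h15 (hΦ3 s).ne'
    refine ⟨hw, (hN x).2 ?_, (hT₁ x).2 ?_⟩
    · have h14 := hzero u hre h13
      rwa [hu, hσ'] at h14
    · intro e he
      obtain ⟨p, hp, rfl⟩ := hEm e he
      rw [← hσ' x, ← map_mul, hμ]
      rcases hp with rfl | hp
      · rw [mul_zero, mul_zero, map_zero]
      · have h15 := h1 p hp
        rw [hφ, hw] at h15
        have h16 : m (K * (σ x * p)) = 0 := by simpa [tw] using h15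
        rw [← h16]
        congr 1
        ring
  -- dimensions
  have hd2 : 2 * (d * (d + 1) / 2) = d * (d + 1) :=
    Nat.mul_div_cancel' (Nat.even_mul_succ_self d).two_dvd
  have hkd : Module.finrank ℝ (LinearMap.ker Ψ) ≤
      Module.finrank ℝ (N ⊓ T₀ : Submodule ℝ _) := by
    let g : LinearMap.ker Ψ →ₗ[ℝ] (N ⊓ T₀ : Submodule ℝ _) :=
      ((LinearMap.snd ℝ _ _).comp (LinearMap.ker Ψ).subtype).codRestrict _
        fun v => (hker v.1 v.2).2
    refine LinearMap.finrank_le_finrank_of_injective (f := g) ?_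
    intro v v' hvv
    have h1 : v.1.2 = v'.1.2 := congrArg Subtype.val hvv
    exact Subtype.ext (Prod.ext ((hker v.1 v.2).1.trans (hker v'.1 v'.2).1.symm) h1)
  have hrk := LinearMap.finrank_range_add_finrank_ker Ψ
  have hrg : Module.finrank ℝ (LinearMap.range Ψ) ≤
      Module.finrank ℝ ((W →ₗ[ℝ] ℝ) × ℝ × (Fin n → ℝ)) := Submodule.finrank_le _
  rw [Module.finrank_prod, Module.finrank_prod, Module.finrank_self,
      Module.finrank_fintype_fun_eq_card,
      Module.finrank_linearMap, hWr, Module.finrank_self, Fintype.card_fin] at hrg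
  rw [Module.finrank_prod, Module.finrank_fintype_fun_eq_card, Fintype.card_coe] at hrk
  refine rc3_num (S := S.card) (B := Module.finrank ℝ (R ⧸ Ideal.span {f, h})) (d := d) (s := n)
    (ν := Module.finrank ℝ (N ⊓ T₀ : Submodule ℝ _)) (N0 := Module.finrank ℝ N)
    (T := Module.finrank ℝ T₀) (E := Module.finrank ℝ E) ?_ hn hNn hTn hT₀ hE
  omega

end Pool.Agent.LogCentres
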