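import Pool.Agent.LogCentres.Position

/-!
# General position for reduced systems
-/

namespace Pool.Agent.LogCentres

open MvPolynomial Pool.Agent.PlanarCentres

private theorem rp3_pt {F h P Q : R} (μ c : ℝ) (s : Fin 2 → ℝ)
    (h1 : eval s P = 0 ∧ eval s Q = 0 ∧ 0 ≤ eval s (jacP P Q) ∧ (eval s F ≠ 0 ∨ eval s h ≠ 0)) :
    eval ![s 0 - μ * s 1 - c, s 1] (shear μ c P - C μ * shear μ c Q) = 0 ∧
      eval ![s 0 - μ * s 1 - c, s 1] (shear μ c Q) = 0 ∧
      0 ≤ eval ![s 0 - μ * s 1 - c, s 1]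
        (jacP (shear μ c P - C μ * shear μ c Q) (shear μ c Q)) ∧
      (eval ![s 0 - μ * s 1 - c, s 1] (shear μ c F) ≠ 0 ∨
        eval ![s 0 - μ * s 1 - c, s 1] (shear μ c h) ≠ 0) := by
  rw [shear_jac, map_sub, map_mul, shear_eval, shear_eval, h1.1, h1.2.1, shear_eval, shear_eval]
  exact ⟨by ring, rfl, h1.2.2.1, h1.2.2.2⟩

private theorem rp3_inj (μ c : ℝ) :
    Function.Injective (fun s : Fin 2 → ℝ => (![s 0 - μ * s 1 - c, s 1] : Fin 2 → ℝ)) := by
  intro s t h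
  have h0 := congrFun h 0
  have h1 := congrFun h 1
  simp only [Matrix.cons_val_zero, Matrix.cons_val_one, Matrix.cons_val_fin_one] at h0 h1
  funext i
  fin_cases i
  · change s 0 = t 0
    rw [h1] at h0
    linarith
  · exact h1

private theorem rp3_prod_deg {ι : Type} (s : Finset ι) {F : ι → R} (hF : ∀ i, F i ≠ 0) :
    (∏ i ∈ s, F i).totalDegree = ∑ i ∈ s, (F i).totalDegree := by
  classical
  induction s using Finset.induction_on with
  | empty => rw [Finset.prod_empty, Finset.sum_empty, totalDegree_one]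
  | insert a s ha ih =>
    rw [Finset.prod_insert ha, Finset.sum_insert ha, totalDegree_mul_of_isDomain (hF a)
      (Finset.prod_ne_zero_iff.mpr fun i _ => hF i), ih]

/-- one shear -/
private theorem rp3_step {ι κ : Type} [Fintype ι] [DecidableEq ι] [Fintype κ] [DecidableEq κ]
    {F : ι → R} {α : ι → ℝ} {G : κ → R} {β : κ → ℝ} {K P Q : R} {n : ℕ} (μ c : ℝ)
    (hK : K ≠ 0) (hP : P.totalDegree ≤ n) (hQ : Q.totalDegree ≤ n)
    (hKP : K * P = XP F α G β) (hKQ : K * Q = XQ F α G β) (hrelP : IsRelPrime P Q) :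
    IsRelPrime (shear μ c P - C μ * shear μ c Q) (shear μ c Q) ∧ shear μ c K ≠ 0 ∧ (shear μ c P - C μ * shear μ c Q).totalDegree ≤ n ∧
    (shear μ c Q).totalDegree ≤ n ∧
    shear μ c K * (shear μ c P - C μ * shear μ c Q) =
      XP (fun i => shear μ c (F i)) α (fun j => shear μ c (G j)) β ∧
    shear μ c K * shear μ c Q =
      XQ (fun i => shear μ c (F i)) α (fun j => shear μ c (G j)) β := by
  obtain ⟨h1, h2⟩ := shear_X F α G β μ c
  refine ⟨?_, ?_, ?_, ?_, ?_, ?_⟩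
  · intro d hd1 hd2
    refine (shear_relprime μ c hrelP) ?_ hd2
    have h3 := dvd_add hd1 (hd2.mul_left (C μ))
    rwa [sub_add_cancel] at h3
  · intro h0
    apply hK
    have h3 : ∀ s, eval s K = eval s 0 := by
      intro s
      rw [← shear_eval μ c K s, h0, map_zero, map_zero]
    exact MvPolynomial.funext h3
  · refine (totalDegree_sub _ _).trans (max_le ?_ ?_)
    · rw [shear_deg]; exact hP
    · refine (totalDegree_mul _ _).trans ?_
      rw [totalDegree_C, zero_add, shear_deg]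
      exact hQ
  · rw [shear_deg]; exact hQ
  · rw [h1, ← hKP, ← hKQ, map_mul, map_mul]
    ring
  · rw [h2, ← hKQ, map_mul]

theorem position3 {ι κ : Type} [Fintype ι] [DecidableEq ι] [Fintype κ] [DecidableEq κ]
    {F : ι → R} {α : ι → ℝ} {G : κ → R} {β : κ → ℝ} (hF : ∀ i, F i ≠ 0) (_hG : ∀ j, G j ≠ 0)
    (hrel : ∀ i j, IsRelPrime (F i) (G j)) {K P Q : R} {n : ℕ} (hK : K ≠ 0)
    (hP : P.totalDegree ≤ n) (hQ : Q.totalDegree ≤ n)
    (hKP : K * P = XP F α G β) (hKQ : K * Q = XQ F α G β) (hrelP : IsRelPrime P Q)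
    (S : Finset (Fin 2 → ℝ))
    (hS : ∀ s ∈ S, eval s P = 0 ∧ eval s Q = 0 ∧ 0 ≤ eval s (jacP P Q) ∧
      (eval s (∏ i, F i) ≠ 0 ∨ eval s (∏ j, G j) ≠ 0)) :
    ∃ (F' : ι → R) (G' : κ → R) (K' P' Q' : R) (S' : Finset (Fin 2 → ℝ)),
      (∀ i, (F' i).totalDegree ≤ (F i).totalDegree) ∧
      (∀ j, (G' j).totalDegree ≤ (G j).totalDegree) ∧
      (ln (∏ i, F' i)).natDegree = ∑ i, (F i).totalDegree ∧
      IsCoprime (ln (∏ i, F' i)) (ln (∏ j, G' j)) ∧ IsRelPrime P' Q' ∧ K' ≠ 0 ∧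
      P'.totalDegree ≤ n ∧ Q'.totalDegree ≤ n ∧
      K' * P' = XP F' α G' β ∧ K' * Q' = XQ F' α G' β ∧ S'.card = S.card ∧
      ∀ s ∈ S', s 0 ≠ 0 ∧ eval s P' = 0 ∧ eval s Q' = 0 ∧ 0 ≤ eval s (jacP P' Q') ∧
        (eval s (∏ i, F' i) ≠ 0 ∨ eval s (∏ j, G' j) ≠ 0) := by
  classical
  have hf0 : (∏ i, F i) ≠ 0 := Finset.prod_ne_zero_iff.mpr fun i _ => hF i
  have hdeg : (∏ i, F i).totalDegree = ∑ i, (F i).totalDegree := rp3_prod_deg _ hF
  obtain ⟨μ, hμ⟩ := exists_shear hf0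
  have hle : (∏ i, shear μ 0 (F i)).totalDegree ≤ ∑ i, (F i).totalDegree := by
    rw [← map_prod, shear_deg, hdeg]
  have hco : coeff (Finsupp.single 1 (∑ i, (F i).totalDegree)) (∏ i, shear μ 0 (F i)) ≠ 0 := by
    rw [← map_prod, ← hdeg]
    exact hμ
  have hrp : IsRelPrime (∏ i, shear μ 0 (F i)) (∏ j, shear μ 0 (G j)) :=
    IsRelPrime.prod_left fun i _ => IsRelPrime.prod_right fun j _ => shear_relprime μ 0 (hrel i j)
  obtain ⟨c, hc, hnd, hcop⟩ := generic hle hco hrp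
    (S.image fun s => ![s 0 - μ * s 1 - 0, s 1])
  have e1 : ∏ i, shear 0 c (shear μ 0 (F i)) = shear 0 c (∏ i, shear μ 0 (F i)) :=
    (map_prod _ _ _).symm
  have e2 : ∏ j, shear 0 c (shear μ 0 (G j)) = shear 0 c (∏ j, shear μ 0 (G j)) :=
    (map_prod _ _ _).symm
  obtain ⟨a0, a1, a2, a3, a4, a5⟩ := rp3_step μ 0 hK hP hQ hKP hKQ hrelP
  obtain ⟨b0, b1, b2, b3, b4, b5⟩ := rp3_step 0 c a1 a2 a3 a4 a5 a0
  refine ⟨fun i => shear 0 c (shear μ 0 (F i)), fun j => shear 0 c (shear μ 0 (G j)),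
    shear 0 c (shear μ 0 K),
    shear 0 c (shear μ 0 P - C μ * shear μ 0 Q) - C 0 * shear 0 c (shear μ 0 Q),
    shear 0 c (shear μ 0 Q),
    (S.image fun s => ![s 0 - μ * s 1 - 0, s 1]).image fun s => ![s 0 - 0 * s 1 - c, s 1],
    fun i => ?_, fun j => ?_, ?_, ?_, b0, b1, b2, b3, b4, b5, ?_, ?_⟩
  · rw [shear_deg, shear_deg]
  · rw [shear_deg, shear_deg]
  · exact (congrArg (fun f => (ln f).natDegree) e1).trans hnd
  · exact e1 ▸ e2 ▸ hcop
  · rw [Finset.card_image_of_injective _ (rp3_inj 0 c),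
      Finset.card_image_of_injective _ (rp3_inj μ 0)]
  · intro s hs
    obtain ⟨t, ht, rfl⟩ := Finset.mem_image.mp hs
    have h1 := hc t ht
    obtain ⟨r, hr, rfl⟩ := Finset.mem_image.mp ht
    refine ⟨?_, ?_⟩
    · simp only [Matrix.cons_val_zero] at h1 ⊢
      intro h2
      apply h1
      linarith
    · have h3 := rp3_pt 0 c _ (rp3_pt μ 0 r (hS r hr))
      simp only [map_prod] at h3 ⊢
      exact h3

end Pool.Agent.LogCentres
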