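import Pool.Agent.LogCentres.Defs2

/-!
# The socle of a local complete intersection in the plane
-/

namespace Pool.Agent.LogCentres

open MvPolynomial

private noncomputable def rsSub (r : ℝ) : R →ₐ[ℝ] R := aeval ![X 0, C r]

private theorem rs_dvd (r : ℝ) (f : R) : (X 1 - C r : R) ∣ f - rsSub r f := by
  induction f using MvPolynomial.induction_on with
  | C a => simp [rsSub]
  | add f g hf hg =>
    rw [map_add]
    have : f + g - (rsSub r f + rsSub r g) = (f - rsSub r f) + (g - rsSub r g) := by ring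
    rw [this]
    exact dvd_add hf hg
  | mul_X f i hf =>
    rw [map_mul]
    have : f * X i - rsSub r f * rsSub r (X i) =
        (f - rsSub r f) * X i + rsSub r f * (X i - rsSub r (X i)) := by ring
    rw [this]
    refine dvd_add (hf.mul_right _) (Dvd.dvd.mul_left ?_ _)
    fin_cases i <;> simp [rsSub]

private theorem rs_lin {p : Fin 2 → ℝ} {x y : R}
    (h : (X 0 - C (p 0)) * x = (X 1 - C (p 1)) * y) :
    ∃ e, x = (X 1 - C (p 1)) * e ∧ y = (X 0 - C (p 0)) * e := by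
  have h0 : rsSub (p 1) x = 0 := by
    have h1 := congrArg (rsSub (p 1)) h
    rw [map_mul, map_mul] at h1
    have e1 : rsSub (p 1) (X 1 - C (p 1)) = 0 := by simp [rsSub]
    have e0 : rsSub (p 1) (X 0 - C (p 0)) = X 0 - C (p 0) := by simp [rsSub]
    rw [e1, e0, zero_mul] at h1
    refine (mul_eq_zero.1 h1).resolve_left fun h2 => ?_
    have h3 := congrArg (eval ![p 0 + 1, 0]) h2
    simp at h3
  obtain ⟨e, he⟩ := rs_dvd (p 1) x
  rw [h0, sub_zero] at he
  refine ⟨e, he, ?_⟩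
  have hne : (X 1 - C (p 1) : R) ≠ 0 := by
    intro h2
    have h3 := congrArg (eval ![0, p 1 + 1]) h2
    simp at h3
  apply mul_left_cancel₀ hne
  rw [← h, he]
  ring

/-- two determinants for the same pair -/
theorem det_two {P Q : R} {p : Fin 2 → ℝ} {a b c d a' b' c' d' : R}
    (h1 : P = (X 0 - C (p 0)) * a + (X 1 - C (p 1)) * b)
    (h2 : Q = (X 0 - C (p 0)) * c + (X 1 - C (p 1)) * d)
    (h3 : P = (X 0 - C (p 0)) * a' + (X 1 - C (p 1)) * b')
    (h4 : Q = (X 0 - C (p 0)) * c' + (X 1 - C (p 1)) * d') :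
    (a * d - b * c) - (a' * d' - b' * c') ∈ Ideal.span {P, Q} := by
  obtain ⟨e, he1, he2⟩ := rs_lin (p := p) (x := a - a') (y := b' - b)
    (by linear_combination h3 - h1)
  obtain ⟨f, hf1, hf2⟩ := rs_lin (p := p) (x := c - c') (y := d' - d)
    (by linear_combination h4 - h2)
  rw [Ideal.mem_span_pair]
  refine ⟨-f, e, ?_⟩
  have ha : a = a' + (X 1 - C (p 1)) * e := by linear_combination he1
  have hb : b = b' - (X 0 - C (p 0)) * e := by linear_combination -he2
  have hc : c = c' + (X 1 - C (p 1)) * f := by linear_combination hf1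
  have hd : d = d' - (X 0 - C (p 0)) * f := by linear_combination -hf2
  rw [ha, hb, hc, hd]
  linear_combination (-f) * h3 + e * h4

private theorem rs_factor {f : R} (hf : f ≠ 0) {p : Fin 2 → ℝ} (h0 : eval p f = 0) :
    ∃ u, Irreducible u ∧ u ∣ f ∧ eval p u = 0 := by
  obtain ⟨s, hs, a, ha⟩ := WfDvdMonoid.exists_factors f hf
  rw [← ha, map_mul] at h0
  have hau : eval p (a : R) ≠ 0 := (a.isUnit.map (eval p)).ne_zero
  have h1 := (mul_eq_zero.1 h0).resolve_right hau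
  rw [map_multiset_prod, Multiset.prod_eq_zero_iff, Multiset.mem_map] at h1
  obtain ⟨u, hu, hu0⟩ := h1
  refine ⟨u, hs u hu, ?_, hu0⟩
  rw [← ha]
  exact (Multiset.dvd_prod hu).mul_right _

private theorem rs_prop {A B D E : R} (hne : ¬ (A = 0 ∧ B = 0)) (h : A * E = B * D)
    (hrel : IsRelPrime A B) : ∃ t, D = A * t ∧ E = B * t := by
  obtain ⟨t, ht⟩ : A ∣ D := hrel.dvd_of_dvd_mul_left ⟨E, h.symm⟩
  obtain ⟨t', ht'⟩ : B ∣ E := hrel.symm.dvd_of_dvd_mul_left ⟨D, h⟩
  by_cases hA : A = 0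
  · have hB : B ≠ 0 := fun hB => hne ⟨hA, hB⟩
    refine ⟨t', ?_, ht'⟩
    rw [hA, zero_mul] at h ⊢
    exact (mul_eq_zero.1 h.symm).resolve_left hB
  · refine ⟨t, ht, ?_⟩
    apply mul_left_cancel₀ hA
    rw [h, ht]
    ring

/-- the determinant is not in the local ideal -/
theorem socle {P Q : R} (hrel : IsRelPrime P Q) {p : Fin 2 → ℝ} {a b c d s : R}
    (hP : P = (X 0 - C (p 0)) * a + (X 1 - C (p 1)) * b)
    (hQ : Q = (X 0 - C (p 0)) * c + (X 1 - C (p 1)) * d) (hs : eval p s ≠ 0) :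
    s * (a * d - b * c) ∉ Ideal.span {P, Q} := by
  intro hmem
  rw [Ideal.mem_span_pair] at hmem
  obtain ⟨α, β, hαβ⟩ := hmem
  have hs0 : s ≠ 0 := by
    rintro rfl
    simp at hs
  have hQp : eval p Q = 0 := by
    rw [hQ]
    simp
  have hP0 : P ≠ 0 := by
    intro h0
    have hu : IsUnit Q := hrel (h0 ▸ dvd_zero Q) dvd_rfl
    exact (hu.map (eval p)).ne_zero hQp
  set A : R := s * a - (X 1 - C (p 1)) * β with hA
  set B : R := s * b + (X 0 - C (p 0)) * β with hB
  set D : R := s * c + (X 1 - C (p 1)) * α with hD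
  set E : R := s * d - (X 0 - C (p 0)) * α with hE
  have e1 : s * P = (X 0 - C (p 0)) * A + (X 1 - C (p 1)) * B := by
    rw [hA, hB]
    linear_combination s * hP
  have e2 : s * Q = (X 0 - C (p 0)) * D + (X 1 - C (p 1)) * E := by
    rw [hD, hE]
    linear_combination s * hQ
  have e3 : A * E = B * D := by
    rw [hA, hB, hD, hE]
    linear_combination (-s) * hαβ + s * α * hP + s * β * hQ
  have hsP : s * P ≠ 0 := mul_ne_zero hs0 hP0
  have hAB : ¬ (A = 0 ∧ B = 0) := by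
    rintro ⟨h1, h2⟩
    apply hsP
    rw [e1, h1, h2]
    ring
  obtain ⟨A₀, B₀, g, hr, hgA, hgB⟩ : ∃ A₀ B₀ g : R, IsRelPrime A₀ B₀ ∧ g * A₀ = A ∧ g * B₀ = B := by
    by_cases h0 : A = 0
    · have h1 : B ≠ 0 := fun h => hAB ⟨h0, h⟩
      obtain ⟨x, y, z, h2, h3, h4⟩ := UniqueFactorizationMonoid.exists_reduced_factors B h1 A
      exact ⟨y, x, z, h2.symm, h4, h3⟩
    · obtain ⟨x, y, z, h2, h3, h4⟩ := UniqueFactorizationMonoid.exists_reduced_factors A h0 B
      exact ⟨x, y, z, h2, h3, h4⟩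
  have hg : g ≠ 0 := by
    rintro rfl
    exact hAB ⟨by rw [← hgA, zero_mul], by rw [← hgB, zero_mul]⟩
  have hAB0 : ¬ (A₀ = 0 ∧ B₀ = 0) := by
    rintro ⟨h1, h2⟩
    exact hAB ⟨by rw [← hgA, h1, mul_zero], by rw [← hgB, h2, mul_zero]⟩
  obtain ⟨t, ht1, ht2⟩ := rs_prop (A := A₀) (B := B₀) (D := D) (E := E) hAB0 (by
    apply mul_left_cancel₀ hg
    rw [← mul_assoc, ← mul_assoc, hgA, hgB, e3]) hr
  set w : R := (X 0 - C (p 0)) * A₀ + (X 1 - C (p 1)) * B₀ with hw
  have w1 : s * P = g * w := by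
    rw [e1, hw, ← hgA, ← hgB]
    ring
  have w2 : s * Q = t * w := by
    rw [e2, hw, ht1, ht2]
    ring
  have w0 : w ≠ 0 := by
    intro h
    rw [h, mul_zero] at w1
    exact hsP w1
  have wp : eval p w = 0 := by
    rw [hw]
    simp
  obtain ⟨u, hu, huw, hup⟩ := rs_factor w0 wp
  have hpr : Prime u := hu.prime
  have hus : ¬ u ∣ s := by
    rintro ⟨v, hv⟩
    apply hs
    rw [hv, map_mul, hup, zero_mul]
  have hu1 : u ∣ P := (hpr.dvd_or_dvd (w1 ▸ huw.mul_left g)).resolve_left hus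
  have hu2 : u ∣ Q := (hpr.dvd_or_dvd (w2 ▸ huw.mul_left t)).resolve_left hus
  exact hu.not_isUnit (hrel hu1 hu2)

end Pool.Agent.LogCentres
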