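import Pool.Agent.LogCentres.SfBal
import Pool.Agent.LogCentres.ReHom
import Pool.Agent.LogCentres.ReChart
import Pool.Agent.LogCentres.SfChart
import Pool.Agent.LogCentres.RdSwap0

/-!
# Reduced systems in the new chart, degenerate zeros included
-/

namespace Pool.Agent.LogCentres

open MvPolynomial Pool.Agent.PlanarCentres

private theorem rs4_X {n : ℕ} {f : R} (i : Fin 2) (hf : f.totalDegree ≤ n) :
    (X i * f : R).totalDegree ≤ n + 1 := by
  refine (totalDegree_mul _ _).trans ?_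
  have := totalDegree_X (R := ℝ) i
  omega

/-- the balanced theorem in the new chart -/
theorem chart4 {ι κ : Type} [Fintype ι] [DecidableEq ι] [Fintype κ] [DecidableEq κ]
    {F : ι → R} {α : ι → ℝ} {G : κ → R} {β : κ → ℝ} {dd : ι → ℕ} {ee : κ → ℕ} {a b : ℕ}
    (hα : ∀ i, 0 < α i) (hβ : ∀ j, 0 < β j)
    (hF : ∀ i, (F i).totalDegree ≤ dd i) (hG : ∀ j, (G j).totalDegree ≤ ee j)
    (ha : ∑ i, dd i = a + 1) (hb : ∑ j, ee j = b + 1)
    (hn : (topP (a + 1) (∏ i, F i)).natDegree = a + 1)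
    (hc : IsCoprime (topP (a + 1) (∏ i, F i)) (topP (b + 1) (∏ j, G j)))
    {M P Q : R} {k n : ℕ} (hkn : k + n = a + b) (hM : M.totalDegree ≤ k)
    (hrel : IsRelPrime P Q) (hP : P.totalDegree ≤ n) (hQ : Q.totalDegree ≤ n)
    (hPQ : P.totalDegree = n ∨ Q.totalDegree = n) (hn1 : 1 ≤ n)
    (hMP : M * (X 0 * homk n P) = XP F α G β)
    (hMQ : M * (X 1 * homk n P - homk n Q) = XQ F α G β)
    (S Sb : Finset (Fin 2 → ℝ))
    (hS : ∀ s ∈ S, s 0 ≠ 0 ∧ eval s P = 0 ∧ eval s Q = 0 ∧ 0 ≤ eval s (jacP P Q) ∧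
      (eval (sw s) (∏ i, F i) ≠ 0 ∨ eval (sw s) (∏ j, G j) ≠ 0))
    (hSb : ∀ s ∈ Sb, s 0 ≠ 0 ∧ eval s P = 0 ∧ eval s Q = 0 ∧ eval s (jacP P Q) = 0 ∧
      eval (sw s) (∏ i, F i) = 0 ∧ eval (sw s) (∏ j, G j) = 0) :
    2 * (S.card + Sb.card) ≤ n * n + 1 := by
  have hrh := homk_rel hrel hP hQ hPQ
  have dP := deg_homk (k := n) _ hP
  have dQ := deg_homk (k := n) _ hQ
  have hd1 : (X 1 * homk n P - homk n Q).totalDegree ≤ n + 1 :=
    (totalDegree_sub _ _).trans (max_le (rs4_X 1 dP) (dQ.trans (Nat.le_succ n)))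
  rw [← card_sw fun s hs => (hS s hs).1, ← card_sw fun s hs => (hSb s hs).1]
  by_cases h0 : (X 0 : R) ∣ X 1 * homk n P - homk n Q
  · obtain ⟨Qo, hQo⟩ := h0
    obtain ⟨d, rfl⟩ : ∃ d, n = d + 1 := ⟨n - 1, by omega⟩
    have hQod : Qo.totalDegree ≤ d + 1 := by
      by_cases hz : Qo = 0
      · rw [hz, totalDegree_zero]
        exact Nat.zero_le _
      · have h3 : (X 0 * Qo : R).totalDegree = 1 + Qo.totalDegree := by
          rw [totalDegree_mul_of_isDomain (X_ne_zero 0) hz, totalDegree_X]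
        rw [hQo, h3] at hd1
        omega
    have key := balanced4 (F := F) (G := G) (α := α) (β := β) (dd := dd) (ee := ee) (a := a)
      (b := b) (K := M * X 0) (P := homk (d + 1) P) (Q := Qo) (k := k + 1) (d := d) hα hβ hF hG
      ha hb hn hc (by omega)
      (by rw [mul_comm]; exact rs4_X 0 hM)
      dP hQod
      (by
        have h5 : X 0 * Qo - X 1 * homk (d + 1) P = - homk (d + 1) Q := by
          rw [← hQo]
          ring
        rw [h5, totalDegree_neg]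
        exact dQ)
      (by rw [← hMP]; ring) (by rw [← hMQ, hQo]; ring)
      (rel_chart0 hrh hQo.symm) (S.image sw) (Sb.image sw) (fun s' hs' => by
        obtain ⟨s, hs, rfl⟩ := Finset.mem_image.1 hs'
        obtain ⟨h0, hP', hQ', hj, hne⟩ := hS s hs
        obtain ⟨e1, e2, e3⟩ := chart_pt03 hP hQ hQo.symm h0 hP' hQ' hj
        exact ⟨e1, e2, e3, hne⟩) (fun s' hs' => by
        obtain ⟨s, hs, rfl⟩ := Finset.mem_image.1 hs'
        obtain ⟨h0, hP', hQ', hj, hne⟩ := hSb s hs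
        obtain ⟨e1, e2, e3⟩ := chart_pt04 hP hQ hQo.symm h0 hP' hQ' hj
        exact ⟨e3, hne⟩)
    have h2 : d * d ≤ (d + 1) * (d + 1) := Nat.mul_le_mul (by omega) (by omega)
    omega
  · refine balanced4 (F := F) (G := G) (α := α) (β := β) (dd := dd) (ee := ee) (a := a)
      (b := b) (K := M) (P := X 0 * homk n P) (Q := X 1 * homk n P - homk n Q) (k := k) (d := n)
      hα hβ hF hG ha hb hn hc hkn hM (rs4_X 0 dP) hd1 ?_ hMP hMQ (rel_chart hrh h0)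
      (S.image sw) (Sb.image sw) (fun s' hs' => ?_) (fun s' hs' => ?_)
    · have h5 : X 0 * (X 1 * homk n P - homk n Q) - X 1 * (X 0 * homk n P) =
          -(X 0 * homk n Q) := by
        ring
      rw [h5, totalDegree_neg]
      exact rs4_X 0 dQ
    · obtain ⟨s, hs, rfl⟩ := Finset.mem_image.1 hs'
      obtain ⟨h0, hP', hQ', hj, hne⟩ := hS s hs
      obtain ⟨e1, e2, e3⟩ := chart_pt3 hP hQ h0 hP' hQ' hj
      exact ⟨e1, e2, e3, hne⟩
    · obtain ⟨s, hs, rfl⟩ := Finset.mem_image.1 hs'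
      obtain ⟨h0, hP', hQ', hj, hne⟩ := hSb s hs
      obtain ⟨e1, e2, e3⟩ := chart_pt4 hP hQ h0 hP' hQ' hj
      exact ⟨e3, hne⟩

theorem swap4_pos {ι κ : Type} [Fintype ι] [DecidableEq ι] [Fintype κ] [DecidableEq κ]
    {F : ι → R} {α : ι → ℝ} {G : κ → R} {β : κ → ℝ} {dd : ι → ℕ} {ee : κ → ℕ} {a b : ℕ}
    (hα : ∀ i, 0 < α i) (hβ : ∀ j, 0 < β j)
    (hF : ∀ i, (F i).totalDegree ≤ dd i) (hG : ∀ j, (G j).totalDegree ≤ ee j)
    (ha : ∑ i, dd i = a + 1) (hb : ∑ j, ee j = b)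
    (hD : ∑ j, β j * ee j < ∑ i, α i * dd i)
    (hn : (ln (∏ i, F i)).natDegree = a + 1) (hc : IsCoprime (ln (∏ i, F i)) (ln (∏ j, G j)))
    {K P Q : R} {k n : ℕ} (hkn : k + n = a + b) (hK : K.totalDegree ≤ k)
    (hrel : IsRelPrime P Q) (hP : P.totalDegree ≤ n) (hQ : Q.totalDegree ≤ n)
    (hPQ : P.totalDegree = n ∨ Q.totalDegree = n) (hn1 : 1 ≤ n)
    (hKP : K * P = XP F α G β) (hKQ : K * Q = XQ F α G β)
    (S Sb : Finset (Fin 2 → ℝ))
    (hS : ∀ s ∈ S, s 0 ≠ 0 ∧ eval s P = 0 ∧ eval s Q = 0 ∧ 0 ≤ eval s (jacP P Q) ∧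
      (eval s (∏ i, F i) ≠ 0 ∨ eval s (∏ j, G j) ≠ 0))
    (hSb : ∀ s ∈ Sb, s 0 ≠ 0 ∧ eval s P = 0 ∧ eval s Q = 0 ∧ eval s (jacP P Q) = 0 ∧
      eval s (∏ i, F i) = 0 ∧ eval s (∏ j, G j) = 0) :
    2 * (S.card + Sb.card) ≤ n * n + 1 := by
  have hN : ∑ i, dd i + ∑ j, ee j = (a + b) + 1 := by omega
  obtain ⟨h1, h2⟩ := chart_base (α := α) (β := β) hF hG hN
  have mP : homk (a + b) (XP F α G β) = homk k K * homk n P := by
    rw [← hKP, ← hkn, homk_mul hK hP]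
  have mQ : homk (a + b) (XQ F α G β) = homk k K * homk n Q := by
    rw [← hKQ, ← hkn, homk_mul hK hQ]
  obtain ⟨D, hDe⟩ : ∃ D, D = ∑ i, α i * dd i - ∑ j, β j * ee j := ⟨_, rfl⟩
  rw [← hDe] at h2
  have hD0 : 0 < D := by linarith
  obtain ⟨o1, o2⟩ := opt_XP (fun i => homk (dd i) (F i)) α (fun j => homk (ee j) (G j)) β D
  rw [h1, mP] at o1
  rw [h2, mP, mQ] at o2
  have hprod : ∏ o : Option κ, optF (fun j => homk (ee j) (G j)) o =
      X 0 * ∏ j, homk (ee j) (G j) := by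
    rw [Fintype.prod_option]
    rfl
  have hdG : (∏ j, homk (ee j) (G j)).totalDegree ≤ b :=
    totalDegree_prod_le _ (fun j => deg_homk _ (hG j)) hb
  refine chart4 (F := fun i => homk (dd i) (F i)) (G := optF fun j => homk (ee j) (G j))
    (α := α) (β := optV D β) (dd := dd) (ee := optN ee) (a := a) (b := b) (M := homk k K)
    (k := k) (n := n)
    hα ?_ (fun i => deg_homk _ (hF i)) ?_ ha ?_ ?_ ?_ hkn (deg_homk _ hK) hrel hP hQ hPQ hn1
    ?_ ?_ S Sb ?_ ?_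
  · rintro (_ | j)
    · exact hD0
    · exact hβ j
  · rintro (_ | j)
    · exact (totalDegree_X (R := ℝ) (0 : Fin 2)).le
    · exact deg_homk _ (hG j)
  · rw [Fintype.sum_option]
    change 1 + ∑ j, ee j = b + 1
    omega
  · rw [topP_prod hF ha, hn]
  · rw [topP_prod hF ha, hprod, add_comm b 1,
      topP_mul (totalDegree_X (R := ℝ) (0 : Fin 2)).le hdG, topP_X0, one_mul, topP_prod hG hb]
    exact hc
  · rw [o1]
    ring
  · rw [o2]
    ring
  · intro s hs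
    obtain ⟨h0, hP0, hQ0, hj, hne⟩ := hS s hs
    refine ⟨h0, hP0, hQ0, hj, ?_⟩
    rw [hprod, ← homk_prod Finset.univ F dd fun i _ => hF i,
      ← homk_prod Finset.univ G ee fun j _ => hG j, map_mul,
      ev_sw h0 (totalDegree_prod_le F hF rfl), ev_sw h0 (totalDegree_prod_le G hG rfl), eval_X]
    exact hne.imp (fun h => mul_ne_zero (pow_ne_zero _ (inv_ne_zero h0)) h)
      (fun h => mul_ne_zero (inv_ne_zero h0) (mul_ne_zero (pow_ne_zero _ (inv_ne_zero h0)) h))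
  · intro s hs
    obtain ⟨h0, hP0, hQ0, hj, hf0, hh0⟩ := hSb s hs
    refine ⟨h0, hP0, hQ0, hj, ?_⟩
    rw [hprod, ← homk_prod Finset.univ F dd fun i _ => hF i,
      ← homk_prod Finset.univ G ee fun j _ => hG j, map_mul,
      ev_sw h0 (totalDegree_prod_le F hF rfl), ev_sw h0 (totalDegree_prod_le G hG rfl), eval_X,
      hf0, hh0]
    exact ⟨mul_zero _, by rw [mul_zero, mul_zero]⟩

theorem swap4_zeroA {ι κ : Type} [Fintype ι] [DecidableEq ι] [Fintype κ] [DecidableEq κ]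
    {F : ι → R} {α : ι → ℝ} {G : κ → R} {β : κ → ℝ} {dd : ι → ℕ} {ee : κ → ℕ} {a b : ℕ}
    (hα : ∀ i, 0 < α i) (hβ : ∀ j, 0 < β j)
    (hF : ∀ i, (F i).totalDegree ≤ dd i) (hG : ∀ j, (G j).totalDegree ≤ ee j)
    (ha : ∑ i, dd i = a + 1) (hb : ∑ j, ee j = b + 1)
    (hD : ∑ j, β j * ee j = ∑ i, α i * dd i)
    (hn : (ln (∏ i, F i)).natDegree = a + 1) (hc : IsCoprime (ln (∏ i, F i)) (ln (∏ j, G j)))
    {K P Q : R} {k n : ℕ} (hkn : k + n = a + b) (hK : K.totalDegree ≤ k)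
    (hrel : IsRelPrime P Q) (hP : P.totalDegree ≤ n) (hQ : Q.totalDegree ≤ n)
    (hPQ : P.totalDegree = n ∨ Q.totalDegree = n) (hn1 : 1 ≤ n)
    (hKP : K * P = XP F α G β) (hKQ : K * Q = XQ F α G β)
    (S Sb : Finset (Fin 2 → ℝ))
    (hS : ∀ s ∈ S, s 0 ≠ 0 ∧ eval s P = 0 ∧ eval s Q = 0 ∧ 0 ≤ eval s (jacP P Q) ∧
      (eval s (∏ i, F i) ≠ 0 ∨ eval s (∏ j, G j) ≠ 0))
    (hSb : ∀ s ∈ Sb, s 0 ≠ 0 ∧ eval s P = 0 ∧ eval s Q = 0 ∧ eval s (jacP P Q) = 0 ∧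
      eval s (∏ i, F i) = 0 ∧ eval s (∏ j, G j) = 0) :
    2 * (S.card + Sb.card) ≤ n * n + 1 := by
  have hN : ∑ i, dd i + ∑ j, ee j = (k + n + 1) + 1 := by omega
  obtain ⟨h1, h2⟩ := chart_base (α := α) (β := β) hF hG hN
  have hKPd : (K * P).totalDegree ≤ k + n :=
    (totalDegree_mul _ _).trans (add_le_add hK hP)
  have hKQd : (K * Q).totalDegree ≤ k + n :=
    (totalDegree_mul _ _).trans (add_le_add hK hQ)
  rw [hD, sub_self, map_zero, zero_mul, add_zero, ← hKP, ← hKQ, b_homk_succ hKPd,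
    b_homk_succ hKQd, homk_mul hK hP, homk_mul hK hQ] at h2
  rw [← hKP, b_homk_succ hKPd, homk_mul hK hP] at h1
  have hXQ' : homk k K * (X 1 * homk n P - homk n Q) =
      XQ (fun i => homk (dd i) (F i)) α (fun j => homk (ee j) (G j)) β := by
    apply mul_left_cancel₀ (X_ne_zero (R := ℝ) (0 : Fin 2))
    rw [h2]
    ring
  have hXP' : homk k K * (X 0 * homk n P) =
      XP (fun i => homk (dd i) (F i)) α (fun j => homk (ee j) (G j)) β := by
    rw [h1]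
    ring
  refine chart4 (F := fun i => homk (dd i) (F i)) (G := fun j => homk (ee j) (G j)) (α := α)
    (β := β) (dd := dd) (ee := ee) (M := homk k K) hα hβ
    (fun i => deg_homk _ (hF i)) (fun j => deg_homk _ (hG j))
    ha hb ?_ ?_ hkn (deg_homk _ hK) hrel hP hQ hPQ hn1 hXP' hXQ' S Sb ?_ ?_
  · rw [topP_prod hF ha, hn]
  · rw [topP_prod hF ha, topP_prod hG hb]
    exact hc
  · intro s hs
    obtain ⟨h0, hP', hQ', hj, hne⟩ := hS s hs
    refine ⟨h0, hP', hQ', hj, ?_⟩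
    rw [← homk_prod Finset.univ F dd fun i _ => hF i, ← homk_prod Finset.univ G ee fun j _ => hG j,
      ev_sw h0 (totalDegree_prod_le F hF rfl), ev_sw h0 (totalDegree_prod_le G hG rfl)]
    exact hne.imp (fun h => mul_ne_zero (pow_ne_zero _ (inv_ne_zero h0)) h)
      (fun h => mul_ne_zero (pow_ne_zero _ (inv_ne_zero h0)) h)
  · intro s hs
    obtain ⟨h0, hP', hQ', hj, hf0, hh0⟩ := hSb s hs
    refine ⟨h0, hP', hQ', hj, ?_⟩
    rw [← homk_prod Finset.univ F dd fun i _ => hF i, ← homk_prod Finset.univ G ee fun j _ => hG j,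
      ev_sw h0 (totalDegree_prod_le F hF rfl), ev_sw h0 (totalDegree_prod_le G hG rfl), hf0, hh0]
    exact ⟨mul_zero _, mul_zero _⟩

theorem swap4_zeroB {ι κ : Type} [Fintype ι] [DecidableEq ι] [Fintype κ] [DecidableEq κ]
    {F : ι → R} {α : ι → ℝ} {G : κ → R} {β : κ → ℝ} {dd : ι → ℕ} {ee : κ → ℕ} {a b : ℕ}
    (hα : ∀ i, 0 < α i) (hβ : ∀ j, 0 < β j)
    (hF : ∀ i, (F i).totalDegree ≤ dd i) (hG : ∀ j, (G j).totalDegree ≤ ee j)
    (ha : ∑ i, dd i = a + 1) (hb : ∑ j, ee j = b + 1)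
    (hD : ∑ j, β j * ee j = ∑ i, α i * dd i)
    (hn : (ln (∏ i, F i)).natDegree = a + 1) (hc : IsCoprime (ln (∏ i, F i)) (ln (∏ j, G j)))
    {K P Q : R} {k d : ℕ} (hkd : k + d = a + b) (hK0 : K ≠ 0) (hK : K.totalDegree = k)
    (hrel : IsRelPrime P Q) (hP : P.totalDegree ≤ d + 1) (hQ : Q.totalDegree ≤ d + 1)
    (hPQ : P.totalDegree = d + 1 ∨ Q.totalDegree = d + 1)
    (hKP : K * P = XP F α G β) (hKQ : K * Q = XQ F α G β)
    (S Sb : Finset (Fin 2 → ℝ))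
    (hS : ∀ s ∈ S, s 0 ≠ 0 ∧ eval s P = 0 ∧ eval s Q = 0 ∧ 0 ≤ eval s (jacP P Q) ∧
      (eval s (∏ i, F i) ≠ 0 ∨ eval s (∏ j, G j) ≠ 0))
    (hSb : ∀ s ∈ Sb, s 0 ≠ 0 ∧ eval s P = 0 ∧ eval s Q = 0 ∧ eval s (jacP P Q) = 0 ∧
      eval s (∏ i, F i) = 0 ∧ eval s (∏ j, G j) = 0) :
    2 * (S.card + Sb.card) ≤ d * d + 1 := by
  have hN : ∑ i, dd i + ∑ j, ee j = (k + (d + 1)) + 1 := by omega
  obtain ⟨h1, h2⟩ := chart_base (α := α) (β := β) hF hG hN
  rw [hD, sub_self, map_zero, zero_mul, add_zero, ← hKP, ← hKQ, homk_mul hK.le hP,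
    homk_mul hK.le hQ] at h2
  rw [← hKP, homk_mul hK.le hP] at h1
  have hprime : Prime (X 0 : R) := X_prime 
  have hdvd : (X 0 : R) ∣ homk k K * (X 1 * homk (d + 1) P - homk (d + 1) Q) := by
    refine ⟨XQ (fun i => homk (dd i) (F i)) α (fun j => homk (ee j) (G j)) β, ?_⟩
    rw [h2]
    ring
  obtain ⟨Qo, hQo⟩ := (hprime.dvd_or_dvd hdvd).resolve_left (b_not_dvd hK0 hK)
  have hXQ' : homk k K * Qo = XQ (fun i => homk (dd i) (F i)) α (fun j => homk (ee j) (G j)) β := by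
    apply mul_left_cancel₀ hprime.ne_zero
    rw [h2]
    linear_combination (-(homk k K)) * hQo
  have hQod : Qo.totalDegree ≤ d + 1 := by
    by_cases hz : Qo = 0
    · rw [hz, totalDegree_zero]
      exact Nat.zero_le _
    · have h3 : (X 0 * Qo : R).totalDegree = 1 + Qo.totalDegree := by
        rw [totalDegree_mul_of_isDomain hprime.ne_zero hz, totalDegree_X]
      have h4 : (X 1 * homk (d + 1) P - homk (d + 1) Q).totalDegree ≤ 1 + (d + 1) := by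
        refine (totalDegree_sub _ _).trans (max_le ?_ ?_)
        · refine (totalDegree_mul _ _).trans ?_
          exact add_le_add (totalDegree_X (R := ℝ) (1 : Fin 2)).le (deg_homk _ hP)
        · exact (deg_homk _ hQ).trans (by omega)
      rw [hQo, h3] at h4
      omega
  rw [← card_sw fun s hs => (hS s hs).1, ← card_sw fun s hs => (hSb s hs).1]
  refine balanced4 (F := fun i => homk (dd i) (F i)) (G := fun j => homk (ee j) (G j)) (α := α)
    (β := β) (dd := dd) (ee := ee) (K := homk k K) (P := homk (d + 1) P) (Q := Qo) hα hβ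
    (fun i => deg_homk _ (hF i)) (fun j => deg_homk _ (hG j))
    ha hb ?_ ?_ hkd (deg_homk _ hK.le) (deg_homk _ hP) hQod ?_ h1.symm hXQ'
    (rel_chart0 (homk_rel hrel hP hQ hPQ) hQo.symm) _ _ ?_ ?_
  · rw [topP_prod hF ha, hn]
  · rw [topP_prod hF ha, topP_prod hG hb]
    exact hc
  · have h5 : X 0 * Qo - X 1 * homk (d + 1) P = - homk (d + 1) Q := by
      rw [← hQo]
      ring
    rw [h5, totalDegree_neg]
    exact deg_homk _ hQ
  · intro s' hs'
    obtain ⟨s, hs, rfl⟩ := Finset.mem_image.1 hs'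
    obtain ⟨h0, hP', hQ', hj, hne⟩ := hS s hs
    obtain ⟨e1, e2, e3⟩ := chart_pt03 hP hQ hQo.symm h0 hP' hQ' hj
    refine ⟨e1, e2, e3, ?_⟩
    rw [← homk_prod Finset.univ F dd fun i _ => hF i, ← homk_prod Finset.univ G ee fun j _ => hG j,
      ev_sw h0 (totalDegree_prod_le F hF rfl), ev_sw h0 (totalDegree_prod_le G hG rfl)]
    exact hne.imp (fun h => mul_ne_zero (pow_ne_zero _ (inv_ne_zero h0)) h)
      (fun h => mul_ne_zero (pow_ne_zero _ (inv_ne_zero h0)) h)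
  · intro s' hs'
    obtain ⟨s, hs, rfl⟩ := Finset.mem_image.1 hs'
    obtain ⟨h0, hP', hQ', hj, hf0, hh0⟩ := hSb s hs
    obtain ⟨e1, e2, e3⟩ := chart_pt04 hP hQ hQo.symm h0 hP' hQ' hj
    refine ⟨e3, ?_⟩
    rw [← homk_prod Finset.univ F dd fun i _ => hF i, ← homk_prod Finset.univ G ee fun j _ => hG j,
      ev_sw h0 (totalDegree_prod_le F hF rfl), ev_sw h0 (totalDegree_prod_le G hG rfl), hf0, hh0]
    exact ⟨mul_zero _, mul_zero _⟩

end Pool.Agent.LogCentres
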