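import Pool.Agent.LogCentres.ReCen
import Pool.Agent.LogCentres.OrbOpen
import Pool.Agent.PlanarCentres.Cofactor

/-!
# A nondegenerate centre of a multiple of a vector field
-/

namespace Pool.Agent.LogCentres

open MvPolynomial Pool.Agent.PlanarCentres Topology

private theorem sc_sign {P₀ Q₀ c : R} {γ : ℝ → Fin 2 → ℝ}
    (hγ : IsPeriodicOrbit (c * P₀) (c * Q₀) γ) :
    ∃ ε : ℝ, ∀ t, 0 < ε * eval (γ t) c := by
  have hne : ∀ t, eval (γ t) c ≠ 0 := by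
    intro t h
    have h1 := orbit_ne hγ t
    rw [map_mul, map_mul, h, zero_mul, zero_mul] at h1
    rcases h1 with h1 | h1 <;> exact h1 rfl
  have hγc : Continuous γ := continuous_iff_continuousAt.2 fun s => (hγ.1 s).continuousAt
  have hcc : Continuous fun s => eval (γ s) c := (MvPolynomial.continuous_eval c).comp hγc
  rcases lt_or_gt_of_ne (hne 0) with h0 | h0
  · refine ⟨-1, fun t => ?_⟩
    rcases lt_or_gt_of_ne (hne t) with h1 | h1
    · linarith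
    · obtain ⟨s, hs⟩ := mem_range_of_exists_le_of_exists_ge hcc ⟨0, h0.le⟩ ⟨t, h1.le⟩
      exact absurd hs (hne s)
  · refine ⟨1, fun t => ?_⟩
    rcases lt_or_gt_of_ne (hne t) with h1 | h1
    · obtain ⟨s, hs⟩ := mem_range_of_exists_le_of_exists_ge hcc ⟨t, h1.le⟩ ⟨0, h0.le⟩
      exact absurd hs (hne s)
    · linarith

private theorem sc_orbit {P Q : R} {p : Fin 2 → ℝ} (hc : IsCentre P Q p) {W : Set (Fin 2 → ℝ)}
    (hW : W ∈ 𝓝 p) :
    ∃ γ : ℝ → Fin 2 → ℝ, IsPeriodicOrbit P Q γ ∧ ∀ t, γ t ∈ W ∧ γ t ≠ p := by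
  obtain ⟨U, hU, hUW, hq⟩ := hc.2.2 W hW
  have : ∃ q ∈ U, q ≠ p := by
    have hne : (𝓝[≠] p).NeBot := inferInstance
    obtain ⟨q, hq1, hq2⟩ := (hne.nonempty_of_mem (Filter.inter_mem_inf
      (f := 𝓝 p) (g := Filter.principal {p}ᶜ) hU (Filter.mem_principal_self _)))
    exact ⟨q, hq1, hq2⟩
  obtain ⟨q, hqU, hqp⟩ := this
  obtain ⟨γ, hγ, -, hγU⟩ := hq q hqU hqp
  exact ⟨γ, hγ, fun t => ⟨hUW (hγU t).1, (hγU t).2⟩⟩

theorem centre_mul_trace {P₀ Q₀ c : R} {p : Fin 2 → ℝ} (hc : IsCentre (c * P₀) (c * Q₀) p)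
    (hj : jac P₀ Q₀ p ≠ 0) :
    eval p (pderiv 0 P₀) + eval p (pderiv 1 Q₀) = 0 ∧ 0 < jac P₀ Q₀ p := by
  obtain ⟨hP, hQ, -⟩ := centre_reduced hc
  by_contra hneg
  obtain ⟨s1, s2, s3, h1, h2⟩ := exists_lyap (eval p (pderiv 0 P₀)) (eval p (pderiv 1 P₀))
    (eval p (pderiv 0 Q₀)) (eval p (pderiv 1 Q₀)) hj hneg
  rw [← dA_self, ← dA_self, ← dB_self, ← dB_self] at h2
  rw [← dA_self, ← dA_self] at h1
  have c1 := dA_cont P₀ p
  have c2 := dB_cont P₀ p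
  have c3 := dA_cont Q₀ p
  have c4 := dB_cont Q₀ p
  have o1 : ∀ᶠ x in 𝓝 p, 0 < s1 * dA P₀ x p + s2 * dA Q₀ x p := by
    have : Continuous fun x => s1 * dA P₀ x p + s2 * dA Q₀ x p := by fun_prop
    exact this.continuousAt.eventually (lt_mem_nhds h1)
  have o2 : ∀ᶠ x in 𝓝 p, 0 < 4 * (s1 * dA P₀ x p + s2 * dA Q₀ x p) *
      (s2 * dB P₀ x p + s3 * dB Q₀ x p) -
      (s1 * dB P₀ x p + s2 * (dA P₀ x p + dB Q₀ x p) + s3 * dA Q₀ x p) ^ 2 := by
    have : Continuous fun x => 4 * (s1 * dA P₀ x p + s2 * dA Q₀ x p) *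
      (s2 * dB P₀ x p + s3 * dB Q₀ x p) -
      (s1 * dB P₀ x p + s2 * (dA P₀ x p + dB Q₀ x p) + s3 * dA Q₀ x p) ^ 2 := by fun_prop
    exact this.continuousAt.eventually (lt_mem_nhds (by linarith))
  obtain ⟨γ, hγ, hin⟩ := sc_orbit hc (o1.and o2)
  obtain ⟨ε, hε⟩ := sc_sign hγ
  obtain ⟨T, hT, hper⟩ := hγ.2.1
  set V : ℝ → ℝ := fun t => ε * (s1 * (γ t 0 - p 0) ^ 2 +
    2 * s2 * ((γ t 0 - p 0) * (γ t 1 - p 1)) + s3 * (γ t 1 - p 1) ^ 2) with hV
  have hd0 : ∀ t, HasDerivAt (fun t => γ t 0) (eval (γ t) c * eval (γ t) P₀) t := by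
    intro t
    have := hasDerivAt_pi.mp (hγ.1 t) 0
    simpa using this
  have hd1 : ∀ t, HasDerivAt (fun t => γ t 1) (eval (γ t) c * eval (γ t) Q₀) t := by
    intro t
    have := hasDerivAt_pi.mp (hγ.1 t) 1
    simpa using this
  set G : ℝ → ℝ := fun t => (ε * eval (γ t) c) *
    (2 * ((s1 * dA P₀ (γ t) p + s2 * dA Q₀ (γ t) p) * (γ t 0 - p 0) ^ 2 +
    (s1 * dB P₀ (γ t) p + s2 * (dA P₀ (γ t) p + dB Q₀ (γ t) p) + s3 * dA Q₀ (γ t) p) *
      ((γ t 0 - p 0) * (γ t 1 - p 1)) +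
    (s2 * dB P₀ (γ t) p + s3 * dB Q₀ (γ t) p) * (γ t 1 - p 1) ^ 2)) with hG
  have hVd : ∀ t, HasDerivAt V (G t) t := by
    intro t
    have e1 := dAB P₀ (γ t) p
    have e2 := dAB Q₀ (γ t) p
    rw [hP, sub_zero] at e1
    rw [hQ, sub_zero] at e2
    have a0 := (hd0 t).sub_const (p 0)
    have a1 := (hd1 t).sub_const (p 1)
    have := ((((a0.pow 2).const_mul s1).add ((a0.mul a1).const_mul (2 * s2))).add
      ((a1.pow 2).const_mul s3)).const_mul ε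
    refine this.congr_deriv ?_
    rw [hG, e1, e2]
    simp only
    ring
  have hGpos : ∀ t, 0 < G t := by
    intro t
    have hne : γ t 0 - p 0 ≠ 0 ∨ γ t 1 - p 1 ≠ 0 := by
      by_contra hcon
      push Not at hcon
      apply (hin t).2
      funext i
      fin_cases i
      · exact sub_eq_zero.mp hcon.1
      · exact sub_eq_zero.mp hcon.2
    have hW := (hin t).1
    have := form_pos (x := γ t 0 - p 0) (y := γ t 1 - p 1) hW.1
      (b := s1 * dB P₀ (γ t) p + s2 * (dA P₀ (γ t) p + dB Q₀ (γ t) p) + s3 * dA Q₀ (γ t) p)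
      (c := s2 * dB P₀ (γ t) p + s3 * dB Q₀ (γ t) p) (by have := hW.2; linarith) hne
    simp only [hG]
    exact mul_pos (hε t) (by linarith)
  have hz := periodic_deriv_zero hT hVd (fun t => (hGpos t).le)
    (fun t => by simp only [hV, hper]) 0
  exact (hGpos 0).ne' hz

theorem cofactor_zero_mul {P₀ Q₀ c w κ : R} {p : Fin 2 → ℝ}
    (hc : IsCentre (c * P₀) (c * Q₀) p) (hw : w ≠ 0)
    (hκ : P₀ * pderiv 0 w + Q₀ * pderiv 1 w = κ * w) : eval p κ = 0 := by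
  by_contra hne
  have hcont : Continuous fun x : Fin 2 → ℝ => eval p κ * eval x κ :=
    continuous_const.mul (MvPolynomial.continuous_eval κ)
  have hpos : 0 < eval p κ * eval p κ := mul_self_pos.mpr hne
  have hW : {x : Fin 2 → ℝ | 0 < eval p κ * eval x κ} ∈ 𝓝 p :=
    hcont.continuousAt.eventually (lt_mem_nhds hpos)
  obtain ⟨U, hU, hUW, hq⟩ := hc.2.2 _ hW
  obtain ⟨q, hqU, hqp, hfq⟩ := exists_ne_zero_near hw p hU
  obtain ⟨γ, hγ, hγ0, hγU⟩ := hq q hqU hqp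
  obtain ⟨ε, hε⟩ := sc_sign hγ
  obtain ⟨T, hT, hper⟩ := hγ.2.1
  have hd : ∀ t, HasDerivAt (fun t => (ε * eval p κ) * (eval (γ t) w) ^ 2)
      (2 * ((ε * eval (γ t) c) * ((eval p κ * eval (γ t) κ) * (eval (γ t) w) ^ 2))) t := by
    intro t
    have h1 := ((hasDerivAt_eval w (hγ.1 t)).pow 2).const_mul (ε * eval p κ)
    refine h1.congr_deriv ?_
    have h2 := congrArg (eval (γ t)) hκ
    simp only [map_add, map_mul] at h2
    simp only [Matrix.cons_val_zero, Matrix.cons_val_one, map_mul]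
    simp only [Nat.cast_ofNat, Nat.add_one_sub_one, pow_one]
    linear_combination (2 * (ε * eval p κ) * eval (γ t) w * eval (γ t) c) * h2
  have hz := periodic_deriv_zero hT hd (fun t => by
    have h3 : 0 < eval p κ * eval (γ t) κ := hUW (hγU t).1
    have h4 := hε t
    positivity) (fun t => by simp only [hper t]) 0
  have h4 : 0 < eval p κ * eval (γ 0) κ := hUW (hγU 0).1
  have h6 := hε 0
  rw [hγ0] at hz h4 h6
  have h5 : 0 < (eval q w) ^ 2 := by positivity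
  have : 0 < 2 * ((ε * eval q c) * ((eval p κ * eval q κ) * (eval q w) ^ 2)) := by positivity
  exact this.ne' hz

end Pool.Agent.LogCentres
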