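import Pool.Agent.LogCentres.KTop

/-!
# The kernel and its degree
-/

namespace Pool.Agent.LogCentres

open MvPolynomial

/-- polynomials of degree less than `d` -/
noncomputable def SfLow (d : ℕ) : Submodule ℝ R :=
  Submodule.span ℝ {p | p.totalDegree + 1 ≤ d}

theorem sfLow_spec {d : ℕ} {p : R} (h : p ∈ SfLow d) : p = 0 ∨ p.totalDegree + 1 ≤ d := by
  refine Submodule.span_induction (p := fun p _ => p = 0 ∨ p.totalDegree + 1 ≤ d)
    ?_ ?_ ?_ ?_ h
  · intro x hx
    exact Or.inr hx
  · exact Or.inl rfl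
  · rintro x y _ _ (rfl | h1) h2
    · rwa [zero_add]
    · rcases h2 with rfl | h2
      · rw [add_zero]
        exact Or.inr h1
      · right
        have h3 := totalDegree_add x y
        have h4 : max x.totalDegree y.totalDegree + 1 ≤ d := by
          rcases max_cases x.totalDegree y.totalDegree with ⟨h5, _⟩ | ⟨h5, _⟩ <;> omega
        omega
  · rintro r x _ (rfl | h1)
    · rw [smul_zero]
      exact Or.inl rfl
    · right
      have h3 := totalDegree_smul_le r x
      omega

theorem kernel_top2 {P Q G P₁ Q₁ : R} {d : ℕ} (hG : G.totalDegree ≤ d)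
    (hP₁ : P₁.totalDegree ≤ d) (hQ₁ : Q₁.totalDegree ≤ d) (hP : P = X 0 * G + P₁)
    (hQ : Q = X 1 * G + Q₁) :
    ∃ A B C D : T, Ker P A B ∧ Ker Q C D ∧ ∀ φ : R →ₗ[ℝ] ℝ,
      (∀ p : R, p.totalDegree + 1 ≤ d → φ p = 0) →
      pair φ φ (A * D - B * C) = φ G ^ 2 ∧
      (φ G = 0 → app φ (A * D - B * C) = 0 ∨
        (app φ (A * D - B * C)).totalDegree + 1 ≤ d) := by
  obtain ⟨a, b, h0, ha, hb⟩ := exists_kk hG
  obtain ⟨a₁, b₁, h1, ha₁, hb₁⟩ := exists_kk hP₁
  obtain ⟨a₂, b₂, h2, ha₂, hb₂⟩ := exists_kk hQ₁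
  have g0 : ix G - iu G = e 0 * a + e 1 * b := h0
  have g1 : ix P₁ - iu P₁ = e 0 * a₁ + e 1 * b₁ := h1
  have g2 : ix Q₁ - iu Q₁ = e 0 * a₂ + e 1 * b₂ := h2
  have e0 : e 0 = ix (X 0) - iu (X 0) := rfl
  have e1 : e 1 = ix (X 1) - iu (X 1) := rfl
  refine ⟨iu G + ix (X 0) * a + a₁, ix (X 0) * b + b₁, ix (X 1) * a + a₂,
    iu G + ix (X 1) * b + b₂, ?_, ?_, ?_⟩
  · show ix P - iu P = _
    rw [hP, map_add, map_add, map_mul, map_mul]
    linear_combination ix (X 0) * g0 + g1 - iu G * e0
  · show ix Q - iu Q = _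
    rw [hQ, map_add, map_add, map_mul, map_mul]
    linear_combination ix (X 1) * g0 + g2 - iu G * e1
  · intro φ hφ
    have k1 : ∀ t ∈ KK 1 (d + d), pair φ φ t = 0 := by
      intro t ht
      refine Submodule.span_induction (p := fun t _ => pair φ φ t = 0) ?_ ?_ ?_ ?_ ht
      · rintro _ ⟨p, q, h3, rfl⟩
        rw [pair_ix_iu]
        by_cases h4 : p.totalDegree + 1 ≤ d
        · rw [hφ p h4, zero_mul]
        · rw [hφ q (by omega), mul_zero]
      · rw [map_zero]
      · intro x y _ _ h3 h4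
        rw [map_add, h3, h4, add_zero]
      · intro r x _ h3
        rw [map_smul, h3, smul_zero]
    have k2 : ∀ (r : R), ∀ t ∈ KK 1 d, pair φ φ (iu r * t) = 0 := by
      intro r t ht
      refine Submodule.span_induction (p := fun t _ => pair φ φ (iu r * t) = 0) ?_ ?_ ?_ ?_ ht
      · rintro _ ⟨p, q, h3, rfl⟩
        have h5 : iu r * (ix p * iu q) = ix p * iu (r * q) := by
          rw [map_mul]
          ring
        rw [h5, pair_ix_iu, hφ p (by omega), zero_mul]
      · rw [mul_zero, map_zero]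
      · intro x y _ _ h3 h4
        rw [mul_add, map_add, h3, h4, add_zero]
      · intro c x _ h3
        rw [mul_smul_comm, map_smul, h3, smul_zero]
    have hX : ∀ i : Fin 2, (X i : R).totalDegree ≤ 1 := fun i => (totalDegree_X i).le
    have m1 : iu G * b₂ ∈ KK 1 (d + d) := KK.iu_mul hG hb₂
    have m2 : iu G * a₁ ∈ KK 1 (d + d) := KK.iu_mul hG ha₁
    have m3 : ∀ (i : Fin 2) (s t : T), s ∈ KK 1 d → t ∈ KK 1 d →
        ix (X i) * (s * t) ∈ KK 1 (d + d) := fun i s t hs ht => KK.ix_mul (hX i) (KK.mul hs ht)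
    have m4 : ∀ s t : T, s ∈ KK 1 d → t ∈ KK 1 d → s * t ∈ KK 1 (d + d) :=
      fun s t hs ht => KK.anti (by omega) (KK.mul hs ht)
    have key : (iu G + ix (X 0) * a + a₁) * (iu G + ix (X 1) * b + b₂) -
        (ix (X 0) * b + b₁) * (ix (X 1) * a + a₂) =
        ix G * iu G + iu (G * X 0) * a + iu (G * X 1) * b + (iu G * b₂ + iu G * a₁ +
          ix (X 0) * (a * b₂) + ix (X 1) * (a₁ * b) - ix (X 0) * (b * a₂) -
          ix (X 1) * (b₁ * a) + a₁ * b₂ - b₁ * a₂) := by
      rw [map_mul, map_mul]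
      rw [e0, e1] at g0
      linear_combination (-iu G) * g0
    have mr : (iu G * b₂ + iu G * a₁ +
          ix (X 0) * (a * b₂) + ix (X 1) * (a₁ * b) - ix (X 0) * (b * a₂) -
          ix (X 1) * (b₁ * a) + a₁ * b₂ - b₁ * a₂) ∈ KK 1 (d + d) := by
      refine Submodule.sub_mem _ (Submodule.add_mem _ (Submodule.sub_mem _ (Submodule.sub_mem _
        (Submodule.add_mem _ (Submodule.add_mem _ (Submodule.add_mem _ m1 m2) (m3 0 _ _ ha hb₂))
        (m3 1 _ _ ha₁ hb)) (m3 0 _ _ hb ha₂)) (m3 1 _ _ hb₁ ha)) (m4 _ _ ha₁ hb₂))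
        (m4 _ _ hb₁ ha₂)
    constructor
    · rw [key, map_add, map_add, map_add, pair_ix_iu, k2 _ a ha, k2 _ b hb, k1 _ mr]
      ring
    · intro hφG
      apply sfLow_spec
      have l1 : ∀ t ∈ KK 1 (d + d), app φ t ∈ SfLow d := by
        intro t ht
        refine Submodule.span_induction (p := fun t _ => app φ t ∈ SfLow d) ?_ ?_ ?_ ?_ ht
        · rintro _ ⟨p, q, h3, rfl⟩
          rw [app_ix_iu]
          by_cases h4 : q.totalDegree + 1 ≤ d
          · rw [hφ q h4, zero_smul]
            exact Submodule.zero_mem _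
          · exact Submodule.smul_mem _ _ (Submodule.subset_span (by
              show p.totalDegree + 1 ≤ d
              omega))
        · rw [map_zero]
          exact Submodule.zero_mem _
        · intro x y _ _ h3 h4
          rw [map_add]
          exact Submodule.add_mem _ h3 h4
        · intro r x _ h3
          rw [map_smul]
          exact Submodule.smul_mem _ _ h3
      have l2 : ∀ (r : R), ∀ t ∈ KK 1 d, app φ (iu r * t) ∈ SfLow d := by
        intro r t ht
        refine Submodule.span_induction (p := fun t _ => app φ (iu r * t) ∈ SfLow d)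
          ?_ ?_ ?_ ?_ ht
        · rintro _ ⟨p, q, h3, rfl⟩
          have h5 : iu r * (ix p * iu q) = ix p * iu (r * q) := by
            rw [map_mul]
            ring
          rw [h5, app_ix_iu]
          exact Submodule.smul_mem _ _ (Submodule.subset_span (by
              show p.totalDegree + 1 ≤ d
              omega))
        · rw [mul_zero, map_zero]
          exact Submodule.zero_mem _
        · intro x y _ _ h3 h4
          rw [mul_add, map_add]
          exact Submodule.add_mem _ h3 h4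
        · intro c x _ h3
          rw [mul_smul_comm, map_smul]
          exact Submodule.smul_mem _ _ h3
      rw [key, map_add, map_add, map_add, app_ix_iu, hφG, zero_smul, zero_add]
      exact Submodule.add_mem _ (Submodule.add_mem _ (l2 _ a ha) (l2 _ b hb)) (l1 _ mr)

end Pool.Agent.LogCentres
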