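import Pool.Agent.LogCentres.Defs2

/-!
# A point derivation killing an ideal
-/

namespace Pool.Agent.LogCentres

open MvPolynomial Pointwise

theorem exists_der {I : Ideal R} {p : Fin 2 → ℝ} (hI : ∀ q ∈ I, eval p q = 0) {u : R}
    (hu0 : eval p u = 0) (hu1 : u ∉ I) (hum : ∀ q, eval p q = 0 → u * q ∈ I) :
    ∃ D : R →ₗ[ℝ] ℝ, (∀ q ∈ I, D q = 0) ∧ D ≠ 0 ∧
      ∀ q r, D (q * r) = eval p q * D r + eval p r * D q := by
  classical
  obtain ⟨m, hm⟩ : ∃ m : Ideal R, m = RingHom.ker (eval p : R →+* ℝ) := ⟨_, rfl⟩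
  have hmem : ∀ q : R, q ∈ m ↔ eval p q = 0 := fun q => by
    rw [hm, RingHom.mem_ker]
  have hIm : I ≤ m := fun q hq => (hmem q).2 (hI q hq)
  have hfg : m.FG := IsNoetherian.noetherian m
  have hnot : ¬ m ≤ I ⊔ m • m := by
    intro hle
    obtain ⟨s, hs1, hs2⟩ :=
      Submodule.exists_sub_one_mem_and_smul_le_of_fg_of_le_sup hfg le_rfl hle
    have h1 : s * u ∈ I := by
      have h3 : s • u ∈ s • m :=
        Submodule.smul_mem_pointwise_smul u s m ((hmem u).2 hu0)
      exact hs2 h3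
    have h2 : u * (s - 1) ∈ I := hum _ ((hmem _).1 hs1)
    apply hu1
    have h4 : u = s * u - u * (s - 1) := by ring
    rw [h4]
    exact I.sub_mem h1 h2
  obtain ⟨q0, hq0, hq1⟩ := Set.not_subset.1 hnot
  have hq1' : q0 ∉ (I ⊔ m • m).restrictScalars ℝ := hq1
  obtain ⟨lam, hl0, hl1⟩ := Submodule.exists_le_ker_of_notMem hq1'
  have hk : ∀ q ∈ I ⊔ m • m, lam q = 0 := fun q hq => by
    have h5 : q ∈ (I ⊔ m • m).restrictScalars ℝ := hq
    exact LinearMap.mem_ker.1 (hl1 h5)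
  have hkI : ∀ q ∈ I, lam q = 0 := fun q hq => hk q (Submodule.mem_sup_left hq)
  have hkm : ∀ q r, q ∈ m → r ∈ m → lam (q * r) = 0 := fun q r hq hr =>
    hk _ (Submodule.mem_sup_right (Submodule.smul_mem_smul hq hr))
  have hsub : ∀ q : R, q - C (eval p q) ∈ m := fun q => by
    rw [hmem, map_sub, eval_C, sub_self]
  obtain ⟨D, hD⟩ : ∃ D : R →ₗ[ℝ] ℝ, ∀ q, D q = lam (q - C (eval p q)) := by
    refine ⟨{ toFun := fun q => lam (q - C (eval p q)), map_add' := ?_, map_smul' := ?_ },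
      fun q => rfl⟩
    · intro q r
      rw [← map_add]
      congr 1
      rw [map_add, C_add]
      ring
    · intro c q
      rw [RingHom.id_apply, ← map_smul]
      congr 1
      rw [smul_eval, C_mul, smul_sub, smul_eq_C_mul, smul_eq_C_mul]
  refine ⟨D, fun q hq => ?_, ?_, fun q r => ?_⟩
  · rw [hD, hI q hq, C_0, sub_zero]
    exact hkI q hq
  · intro h6
    apply hl0
    have h7 := hD q0
    rw [h6, (hmem q0).1 hq0, C_0, sub_zero] at h7
    exact h7.symm
  · have e1 : q * r - C (eval p (q * r)) = (q - C (eval p q)) * (r - C (eval p r)) +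
        (eval p q • (r - C (eval p r)) + eval p r • (q - C (eval p q))) := by
      rw [smul_eq_C_mul, smul_eq_C_mul, map_mul, C_mul]
      ring
    rw [hD (q * r), e1, map_add, map_add, map_smul, map_smul, hkm _ _ (hsub q) (hsub r), hD q,
      hD r, zero_add, smul_eq_mul, smul_eq_mul]

end Pool.Agent.LogCentres
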