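import Mathlib

/-!
# Relatively prime real polynomials over the complex numbers
-/

namespace Pool.Agent.LogCentres

open MvPolynomial

theorem exists_real_of_conj {e : MvPolynomial (Fin 2) ℂ}
    (h : MvPolynomial.map (starRingEnd ℂ) e = e) :
    ∃ e0 : MvPolynomial (Fin 2) ℝ, MvPolynomial.map (algebraMap ℝ ℂ) e0 = e := by
  have h1 : e ∈ (MvPolynomial.map (σ := Fin 2) (algebraMap ℝ ℂ)).range := by
    change e ∈ Set.range _
    rw [MvPolynomial.mem_range_map_iff_coeffs_subset]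
    intro c hc
    obtain ⟨m, -, rfl⟩ := MvPolynomial.mem_coeffs_iff.1 hc
    have h2 := congrArg (MvPolynomial.coeff m) h
    rw [MvPolynomial.coeff_map] at h2
    exact ⟨(e.coeff m).re, Complex.conj_eq_iff_re.1 h2⟩
  exact h1

theorem conj_map_real (P : MvPolynomial (Fin 2) ℝ) :
    MvPolynomial.map (starRingEnd ℂ) (MvPolynomial.map (algebraMap ℝ ℂ) P) =
      MvPolynomial.map (algebraMap ℝ ℂ) P := by
  rw [MvPolynomial.map_map]
  congr 1
  congr 1
  ext x
  simp

theorem dvd_of_map_dvd {e P : MvPolynomial (Fin 2) ℝ}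
    (h : MvPolynomial.map (algebraMap ℝ ℂ) e ∣ MvPolynomial.map (algebraMap ℝ ℂ) P) : e ∣ P := by
  have hinj : Function.Injective (MvPolynomial.map (σ := Fin 2) (algebraMap ℝ ℂ)) :=
    MvPolynomial.map_injective _ (algebraMap ℝ ℂ).injective
  obtain ⟨m, hm⟩ := h
  by_cases he : MvPolynomial.map (algebraMap ℝ ℂ) e = 0
  · rw [he, zero_mul] at hm
    have h1 : P = 0 := hinj (by rw [hm, map_zero])
    rw [h1]
    exact dvd_zero _
  · have h1 := congrArg (MvPolynomial.map (starRingEnd ℂ)) hm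
    rw [map_mul, conj_map_real, conj_map_real, hm] at h1
    have h2 : MvPolynomial.map (starRingEnd ℂ) m = m := (mul_left_cancel₀ he h1).symm
    obtain ⟨m0, hm0⟩ := exists_real_of_conj h2
    refine ⟨m0, hinj ?_⟩
    rw [hm, map_mul, hm0]

theorem relprime_complex {P Q : MvPolynomial (Fin 2) ℝ} (hrel : IsRelPrime P Q) :
    IsRelPrime (MvPolynomial.map (algebraMap ℝ ℂ) P) (MvPolynomial.map (algebraMap ℝ ℂ) Q) := by
  intro d hP hQ
  have hc : ∀ P' : MvPolynomial (Fin 2) ℝ, d ∣ MvPolynomial.map (algebraMap ℝ ℂ) P' →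
      d * MvPolynomial.map (starRingEnd ℂ) d ∣ MvPolynomial.map (algebraMap ℝ ℂ) (P' ^ 2) := by
    intro P' h
    have h1 := map_dvd (MvPolynomial.map (starRingEnd ℂ)) h
    rw [conj_map_real] at h1
    rw [map_pow, sq]
    exact mul_dvd_mul h h1
  obtain ⟨e0, he0⟩ := exists_real_of_conj (e := d * MvPolynomial.map (starRingEnd ℂ) d) (by
    rw [map_mul, MvPolynomial.map_map]
    have h1 : (starRingEnd ℂ).comp (starRingEnd ℂ) = RingHom.id ℂ := by
      ext x
      simp
    rw [h1, MvPolynomial.map_id, mul_comm])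
  have h1 : e0 ∣ P ^ 2 := dvd_of_map_dvd (by rw [he0]; exact hc P hP)
  have h2 : e0 ∣ Q ^ 2 := dvd_of_map_dvd (by rw [he0]; exact hc Q hQ)
  have h3 : IsUnit e0 := (hrel.pow : IsRelPrime (P ^ 2) (Q ^ 2)) h1 h2
  have h4 : IsUnit (MvPolynomial.map (algebraMap ℝ ℂ) e0) := h3.map _
  rw [he0] at h4
  exact isUnit_of_mul_isUnit_left h4

end Pool.Agent.LogCentres
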