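import Pool.Agent.LogCentres.SfSoc
import Pool.Agent.LogCentres.SfRel
import Pool.Agent.LogCentres.PairEv
import Pool.Agent.LogCentres.PairId

/-!
# Duality for a pair of relatively prime polynomials
-/

namespace Pool.Agent.LogCentres

open MvPolynomial

/-- the ideal of the polynomials which annihilate a functional -/
private noncomputable def sfd_ann (φ : R →ₗ[ℝ] ℝ) : Ideal R where
  carrier := {w | tw φ w = 0}
  zero_mem' := by
    apply LinearMap.ext
    intro p
    change φ (0 * p) = 0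
    rw [zero_mul, map_zero]
  add_mem' := by
    intro u v hu hv
    apply LinearMap.ext
    intro p
    change φ ((u + v) * p) = 0
    have h1 : φ (u * p) = 0 := LinearMap.congr_fun hu p
    have h2 : φ (v * p) = 0 := LinearMap.congr_fun hv p
    rw [add_mul, map_add, h1, h2, add_zero]
  smul_mem' := by
    intro r w hw
    apply LinearMap.ext
    intro p
    change φ ((r * w) * p) = 0
    have h1 : φ (w * (r * p)) = 0 := LinearMap.congr_fun hw (r * p)
    rw [← h1]
    congr 1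
    ring

private theorem sfd_mem_ann {φ : R →ₗ[ℝ] ℝ} {w : R} : w ∈ sfd_ann φ ↔ ∀ p, φ (w * p) = 0 := by
  constructor
  · intro h p
    exact LinearMap.congr_fun h p
  · intro h
    apply LinearMap.ext
    intro p
    exact h p

/-- a prime ideal which is the annihilator of a multiple of `φ` -/
private theorem sfd_prime {φ : R →ₗ[ℝ] ℝ} (hne : φ ≠ 0) :
    ∃ (M : Ideal R) (w : R), M.IsPrime ∧ ∀ q, q ∈ M ↔ ∀ p, φ (w * (q * p)) = 0 := by
  have htop : sfd_ann φ ≠ ⊤ := by
    intro h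
    apply hne
    have h1 : (1 : R) ∈ sfd_ann φ := by rw [h]; exact Submodule.mem_top
    apply LinearMap.ext
    intro p
    have h2 := sfd_mem_ann.1 h1 p
    rw [one_mul] at h2
    rw [h2]
    rfl
  have : Nontrivial (R ⧸ sfd_ann φ) := Ideal.Quotient.nontrivial_iff.2 htop
  obtain ⟨M, hM⟩ := associatedPrimes.nonempty R (R ⧸ sfd_ann φ)
  rw [AssociatedPrimes.mem_iff, isAssociatedPrime_iff] at hM
  obtain ⟨hMp, x, hx⟩ := hM
  obtain ⟨w, rfl⟩ := Ideal.Quotient.mk_surjective x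
  refine ⟨M, w, hMp, fun q => ?_⟩
  rw [hx, Submodule.mem_colon_singleton, Submodule.mem_bot]
  have h3 : q • (Ideal.Quotient.mk (sfd_ann φ)) w = Ideal.Quotient.mk (sfd_ann φ) (q * w) := rfl
  rw [h3, Ideal.Quotient.eq_zero_iff_mem, sfd_mem_ann]
  constructor
  · intro h p
    rw [← h p]
    congr 1
    ring
  · intro h p
    rw [← h p]
    congr 1
    ring

/-- on a field quotient every functional is a multiple of a nonzero one -/
private theorem sfd_mult {M : Ideal R} (hM : M.IsMaximal) [Module.Finite ℝ (R ⧸ M)]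
    {ψ m : R →ₗ[ℝ] ℝ} (hψ : ∀ q ∈ M, ψ q = 0) (hm : ∀ q ∈ M, m q = 0) (hne : ψ ≠ 0) :
    ∃ v : R, ∀ p, m p = ψ (v * p) := by
  classical
  let _ : Field (R ⧸ M) := Ideal.Quotient.field M
  let π : R →ₐ[ℝ] (R ⧸ M) := Ideal.Quotient.mkₐ ℝ M
  have hπs : Function.Surjective π := Ideal.Quotient.mkₐ_surjective ℝ M
  obtain ⟨s, hs⟩ := LinearMap.exists_rightInverse_of_surjective π.toLinearMap
    (LinearMap.range_eq_top.2 hπs)
  have hs' : ∀ k, π (s k) = k := fun k => LinearMap.congr_fun hs k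
  have hfac : ∀ (g : R →ₗ[ℝ] ℝ), (∀ q ∈ M, g q = 0) → ∀ x y : R, π x = π y → g x = g y := by
    intro g hg x y hxy
    have h1 : x - y ∈ M := Ideal.Quotient.eq.1 hxy
    have h2 := hg _ h1
    rw [map_sub] at h2
    exact sub_eq_zero.1 h2
  let ψb : (R ⧸ M) →ₗ[ℝ] ℝ := ψ ∘ₗ s
  let Φ : (R ⧸ M) →ₗ[ℝ] Module.Dual ℝ (R ⧸ M) := (LinearMap.mul ℝ (R ⧸ M)).compr₂ ψb
  have hΦ : ∀ k y, Φ k y = ψ (s (k * y)) := fun k y => rfl
  have hinj : Function.Injective Φ := by
    rw [← LinearMap.ker_eq_bot, LinearMap.ker_eq_bot']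
    intro k hk
    by_contra hk0
    apply hne
    apply LinearMap.ext
    intro p
    have h1 := LinearMap.congr_fun hk (k⁻¹ * π p)
    rw [hΦ, mul_inv_cancel_left₀ hk0] at h1
    have h2 : ψ (s (π p)) = ψ p := hfac ψ hψ _ _ (hs' _)
    rw [← h2, h1]
    rfl
  have hsurj : Function.Surjective Φ :=
    (LinearMap.injective_iff_surjective_of_finrank_eq_finrank
      (Subspace.dual_finrank_eq (K := ℝ) (V := R ⧸ M)).symm).1 hinj
  obtain ⟨k, hk⟩ := hsurj (m ∘ₗ s)
  refine ⟨s k, fun p => ?_⟩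
  have h1 := LinearMap.congr_fun hk (π p)
  rw [hΦ] at h1
  have h2 : m (s (π p)) = m p := hfac m hm _ _ (hs' _)
  have h3 : ψ (s (k * π p)) = ψ (s k * p) := by
    apply hfac ψ hψ
    rw [hs', map_mul, hs']
  rw [← h2, ← h3, h1]
  rfl

/-- a complex point with kernel `M` -/
private theorem sfd_char {M : Ideal R} (hM : M.IsMaximal) [Module.Finite ℝ (R ⧸ M)] :
    ∃ χ : R →ₐ[ℝ] ℂ, ∀ q, χ q = 0 ↔ q ∈ M := by
  let _ : Field (R ⧸ M) := Ideal.Quotient.field M
  have : Algebra.IsAlgebraic ℝ (R ⧸ M) := Algebra.IsAlgebraic.of_finite ℝ (R ⧸ M)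
  let f : (R ⧸ M) →ₐ[ℝ] ℂ := IsAlgClosed.lift
  refine ⟨f.comp (Ideal.Quotient.mkₐ ℝ M), fun q => ?_⟩
  have h1 : (f.comp (Ideal.Quotient.mkₐ ℝ M)) q = f (Ideal.Quotient.mk M q) := rfl
  rw [h1, ← Ideal.Quotient.eq_zero_iff_mem]
  exact map_eq_zero f.toRingHom

/-- apply a complex character in the variable `u` -/
private theorem sfd_map_app (χ : R →ₐ[ℝ] ℂ) (t : T) :
    MvPolynomial.map (χ : R →+* ℂ) t =
      MvPolynomial.map (algebraMap ℝ ℂ) (app (Complex.reLm ∘ₗ χ.toLinearMap) t) +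
      C Complex.I * MvPolynomial.map (algebraMap ℝ ℂ) (app (Complex.imLm ∘ₗ χ.toLinearMap) t) := by
  ext s
  rw [coeff_map, coeff_add, coeff_C_mul, coeff_map, coeff_map, coeff_app, coeff_app]
  change χ (coeff s t) = ((χ (coeff s t)).re : ℂ) + Complex.I * ((χ (coeff s t)).im : ℂ)
  rw [mul_comm, Complex.re_add_im]

private theorem sfd_map_ker (χ : R →ₐ[ℝ] ℂ) {P : R} {A B : T} (h : Ker P A B) (hP : χ P = 0) :
    MvPolynomial.map (algebraMap ℝ ℂ) P =
      (X 0 - C (χ (X 0))) * MvPolynomial.map (χ : R →+* ℂ) A +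
      (X 1 - C (χ (X 1))) * MvPolynomial.map (χ : R →+* ℂ) B := by
  have hix : ∀ f : R, MvPolynomial.map (χ : R →+* ℂ) (ix f) =
      MvPolynomial.map (algebraMap ℝ ℂ) f := by
    intro f
    have h1 : ix f = MvPolynomial.map (algebraMap ℝ R) f := rfl
    have h3 : (χ : R →+* ℂ).comp (algebraMap ℝ R) = algebraMap ℝ ℂ :=
      RingHom.ext fun r => χ.commutes r
    rw [h1, MvPolynomial.map_map, h3]
  have hiu : ∀ f : R, MvPolynomial.map (χ : R →+* ℂ) (iu f) = C (χ f) := by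
    intro f
    have h1 : iu f = C f := rfl
    rw [h1, map_C]
    rfl
  have h2 := congrArg (MvPolynomial.map (χ : R →+* ℂ)) h
  rw [map_sub, hix, hiu, hP, C_0, sub_zero, map_add, map_mul, map_mul, e, e, map_sub, map_sub,
    hix, hix, hiu, hiu, map_X, map_X] at h2
  exact h2

private theorem sfd_span {P Q f : R} (hf : f ∈ Ideal.span {P, Q}) :
    MvPolynomial.map (algebraMap ℝ ℂ) f ∈
      Ideal.span {MvPolynomial.map (algebraMap ℝ ℂ) P, MvPolynomial.map (algebraMap ℝ ℂ) Q} := by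
  rw [Ideal.mem_span_pair] at hf ⊢
  obtain ⟨a, b, rfl⟩ := hf
  exact ⟨MvPolynomial.map (algebraMap ℝ ℂ) a, MvPolynomial.map (algebraMap ℝ ℂ) b, by
    rw [map_add, map_mul, map_mul]⟩

theorem dual_inj {P Q : R} (hrel : IsRelPrime P Q) {A B C D : T} (h1 : Ker P A B)
    (h2 : Ker Q C D) {φ : R →ₗ[ℝ] ℝ} {I : Ideal R} [Module.Finite ℝ (R ⧸ I)]
    (hI : ∀ q ∈ I, φ q = 0) (hφ : ∀ q ∈ Ideal.span {P, Q}, φ q = 0)
    (h0 : app φ (A * D - B * C) = 0) : φ = 0 := by
  by_contra hne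
  obtain ⟨M, w, hMp, hM⟩ := sfd_prime hne
  have hIM : I ≤ M := by
    intro q hq
    rw [hM]
    intro p
    exact hI _ (I.mul_mem_left _ (I.mul_mem_right _ hq))
  have hPQM : Ideal.span {P, Q} ≤ M := by
    intro q hq
    rw [hM]
    intro p
    exact hφ _ (Ideal.mul_mem_left _ _ (Ideal.mul_mem_right _ _ hq))
  have : Module.Finite ℝ (R ⧸ M) :=
    Module.Finite.of_surjective (Ideal.Quotient.factorₐ ℝ hIM).toLinearMap
      (Ideal.Quotient.factor_surjective hIM)
  have := hMp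
  have hmax : M.IsMaximal := by
    have : IsDomain (R ⧸ M) := Ideal.Quotient.isDomain M
    have : IsArtinianRing (R ⧸ M) := IsArtinianRing.of_finite ℝ (R ⧸ M)
    exact Ideal.Quotient.maximal_of_isField M (IsArtinianRing.isField_of_isDomain (R ⧸ M))
  -- the multiples of φ
  have hmul : ∀ v : R, app (tw φ v) (A * D - B * C) ∈ Ideal.span {P, Q} := by
    intro v
    have k1 := app_J hφ (det_move h1 h2 v)
    rw [sub_mul, map_sub, app_ix_mul, h0, mul_zero, zero_sub, app_iu_mul] at k1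
    exact neg_mem_iff.1 k1
  have hψ0 : tw φ w ≠ 0 := by
    intro h
    apply hMp.ne_top
    rw [Ideal.eq_top_iff_one, hM]
    intro p
    exact LinearMap.congr_fun h (1 * p)
  have hψM : ∀ q ∈ M, tw φ w q = 0 := by
    intro q hq
    have := (hM q).1 hq 1
    rw [mul_one] at this
    exact this
  have hall : ∀ m : R →ₗ[ℝ] ℝ, (∀ q ∈ M, m q = 0) →
      app m (A * D - B * C) ∈ Ideal.span {P, Q} := by
    intro m hm
    obtain ⟨v, hv⟩ := sfd_mult hmax hψM hm hψ0
    have : m = tw φ (w * v) := by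
      apply LinearMap.ext
      intro p
      rw [hv]
      change φ (w * (v * p)) = φ (w * v * p)
      rw [mul_assoc]
    rw [this]
    exact hmul _
  obtain ⟨χ, hχ⟩ := sfd_char hmax
  have hre := sfd_span (hall (Complex.reLm ∘ₗ χ.toLinearMap) (by
    intro q hq
    change (χ q).re = 0
    rw [(hχ q).2 hq, Complex.zero_re]))
  have him := sfd_span (hall (Complex.imLm ∘ₗ χ.toLinearMap) (by
    intro q hq
    change (χ q).im = 0
    rw [(hχ q).2 hq, Complex.zero_im]))
  have hdet := Ideal.add_mem _ hre (Ideal.mul_mem_left _ (MvPolynomial.C Complex.I) him)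
  rw [← sfd_map_app, map_sub, map_mul, map_mul] at hdet
  have hPM : χ P = 0 := (hχ P).2 (hPQM (Ideal.subset_span (by simp)))
  have hQM : χ Q = 0 := (hχ Q).2 (hPQM (Ideal.subset_span (by simp)))
  exact socle_field (relprime_complex hrel) (p := fun i => χ (X i))
    (sfd_map_ker χ h1 hPM) (sfd_map_ker χ h2 hQM) hdet

end Pool.Agent.LogCentres
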