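import Pool.Agent.LogCentres.RdTr

/-!
# Characters kill an ideal without idempotents
-/

namespace Pool.Agent.LogCentres

theorem char_kill {B : Type} [CommRing B] [Algebra ℝ B] [Module.Finite ℝ B] (J : Ideal B)
    (h : ∀ e ∈ J, IsIdempotentElem e → ∀ χ : B →ₐ[ℝ] ℂ, χ e = 0) (x : B) (hx : x ∈ J)
    (χ : B →ₐ[ℝ] ℂ) : χ x = 0 := by
  by_contra hne
  have hint : IsIntegral ℝ x := Algebra.IsIntegral.isIntegral x
  have hμ0 : minpoly ℝ x ≠ 0 := minpoly.ne_zero hint
  obtain ⟨ν, hν, hd⟩ := Polynomial.exists_eq_pow_rootMultiplicity_mul_and_not_dvd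
    (minpoly ℝ x) hμ0 0
  rw [Polynomial.C_0, sub_zero] at hν hd
  generalize Polynomial.rootMultiplicity 0 (minpoly ℝ x) = a at hν
  have hcop : IsCoprime (Polynomial.X ^ (a + 1)) ν :=
    IsCoprime.pow_left (Polynomial.irreducible_X.coprime_iff_not_dvd.2 hd)
  obtain ⟨al, be, hab⟩ := hcop
  have h1 := congrArg (Polynomial.aeval x) hab
  rw [map_add, map_mul, map_mul, map_pow, Polynomial.aeval_X, map_one] at h1
  have h0 : x ^ a * Polynomial.aeval x ν = 0 := by
    have := minpoly.aeval ℝ x
    rw [hν, map_mul, map_pow, Polynomial.aeval_X] at this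
    exact this
  set e := Polynomial.aeval x al * x ^ (a + 1) with he
  have heJ : e ∈ J := by
    rw [he, pow_succ, ← mul_assoc]
    exact J.mul_mem_left _ hx
  have hee : IsIdempotentElem e := by
    have h2 : e * (Polynomial.aeval x be * Polynomial.aeval x ν) = 0 := by
      rw [he, pow_succ]
      linear_combination (Polynomial.aeval x al * x * Polynomial.aeval x be) * h0
    have h3 : Polynomial.aeval x be * Polynomial.aeval x ν = 1 - e := by
      rw [← h1]; ring
    rw [h3, mul_sub, mul_one, sub_eq_zero] at h2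
    exact h2.symm
  have h4 := h e heJ hee χ
  have h5 := congrArg χ h1
  rw [map_add, h4, zero_add, map_mul, map_one] at h5
  have h6 : χ (Polynomial.aeval x ν) = 0 := by
    have := congrArg χ h0
    rw [map_mul, map_pow, map_zero] at this
    exact (mul_eq_zero.mp this).resolve_left (pow_ne_zero _ hne)
  rw [h6, mul_zero] at h5
  exact zero_ne_one h5

end Pool.Agent.LogCentres
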