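import Mathlib

/-!
# A count in linear algebra
-/

namespace Pool.Agent.LogCentres

theorem lin_count {Y M : Type} [AddCommGroup Y] [Module ℝ Y] [Module.Finite ℝ Y]
    [AddCommGroup M] [Module ℝ M] (W : Submodule ℝ M) [Module.Finite ℝ W]
    (ρ : Y →ₗ[ℝ] (M →ₗ[ℝ] ℝ)) (γ : Y →ₗ[ℝ] ℝ) (g : Y →ₗ[ℝ] M)
    (h1 : ∀ z, (∀ p ∈ W, ρ z p = 0) → γ z = 0 → g z ∈ W)
    (h2 : ∀ z, (∀ p ∈ W, ρ z p = 0) → γ z = 0 → ∀ y, ρ y (g z) = 0)
    (h3 : ∀ z, (∀ p ∈ W, ρ z p = 0) → γ z = 0 → g z = 0 → z = 0) :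
    Module.finrank ℝ Y ≤ Module.finrank ℝ W + 1 := by
  classical
  let r : Y →ₗ[ℝ] Module.Dual ℝ W := W.dualRestrict ∘ₗ ρ
  have hr : ∀ (y : Y) (w : W), r y w = ρ y (w : M) := fun y w => rfl
  have hker : ∀ z : Y, z ∈ LinearMap.ker r → ∀ p ∈ W, ρ z p = 0 := by
    intro z hz p hp
    have := LinearMap.congr_fun (LinearMap.mem_ker.mp hz) ⟨p, hp⟩
    rw [hr] at this
    simpa using this
  let γ' : LinearMap.ker r →ₗ[ℝ] ℝ := γ ∘ₗ (LinearMap.ker r).subtype
  have hγ : ∀ z : LinearMap.ker γ', γ ((z : LinearMap.ker r) : Y) = 0 := fun z =>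
    LinearMap.mem_ker.mp z.2
  let gZ : LinearMap.ker γ' →ₗ[ℝ] W :=
    LinearMap.codRestrict W (g ∘ₗ (LinearMap.ker r).subtype ∘ₗ (LinearMap.ker γ').subtype)
      (fun z => h1 _ (hker _ (z : LinearMap.ker r).2) (hγ z))
  have hinj : Function.Injective gZ := by
    rw [← LinearMap.ker_eq_bot, LinearMap.ker_eq_bot']
    intro z hz
    have hz' : g ((z : LinearMap.ker r) : Y) = 0 := congrArg Subtype.val hz
    have := h3 _ (hker _ (z : LinearMap.ker r).2) (hγ z) hz'
    exact Subtype.ext (Subtype.ext this)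
  have hV : Module.finrank ℝ (LinearMap.range gZ) = Module.finrank ℝ (LinearMap.ker γ') :=
    LinearMap.finrank_range_of_inj hinj
  have hle : LinearMap.range r ≤ (LinearMap.range gZ).dualAnnihilator := by
    rintro _ ⟨y, rfl⟩
    rw [Submodule.mem_dualAnnihilator]
    rintro _ ⟨z, rfl⟩
    rw [hr]
    exact h2 _ (hker _ (z : LinearMap.ker r).2) (hγ z) y
  have h4 : Module.finrank ℝ (LinearMap.range r) ≤
      Module.finrank ℝ ((LinearMap.range gZ).dualAnnihilator) := Submodule.finrank_mono hle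
  have h5 : Module.finrank ℝ (LinearMap.range gZ) +
      Module.finrank ℝ ((LinearMap.range gZ).dualAnnihilator) = Module.finrank ℝ W := by
    exact Subspace.finrank_add_finrank_dualAnnihilator_eq (LinearMap.range gZ)
  have h6 := LinearMap.finrank_range_add_finrank_ker r
  have h7 := LinearMap.finrank_range_add_finrank_ker γ'
  have h8 : Module.finrank ℝ (LinearMap.range γ') ≤ 1 := by
    have := Submodule.finrank_le (LinearMap.range γ')
    simpa using this
  omega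

end Pool.Agent.LogCentres
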