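import Pool.Agent.LogCentres.RdNil

/-!
# Real elements of a real algebra with point derivations
-/

namespace Pool.Agent.LogCentres

theorem srl_sep (A : Type) [CommRing A] [Algebra ℝ A] (ρ : A →ₐ[ℝ] ℝ) (χ : A →ₐ[ℝ] ℂ)
    (h : χ ≠ Complex.ofRealAm.comp ρ) : ∃ a : A, χ a = 0 ∧ ρ a ≠ 0 := by
  have h1 : ∃ u, χ u ≠ (ρ u : ℂ) := by
    by_contra h2
    push Not at h2
    exact h (AlgHom.ext fun u => by simpa using h2 u)
  obtain ⟨u, hu⟩ := h1
  obtain ⟨v, hv⟩ : ∃ v, v = u - algebraMap ℝ A (ρ u) := ⟨_, rfl⟩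
  have hz : χ v ≠ 0 := by
    rw [hv, map_sub, AlgHom.commutes]
    simpa [sub_eq_zero] using hu
  have hr : ρ v = 0 := by
    rw [hv, map_sub, AlgHom.commutes]
    simp
  refine ⟨v * v - algebraMap ℝ A (2 * (χ v).re) * v + algebraMap ℝ A (Complex.normSq (χ v)), ?_, ?_⟩
  · rw [map_add, map_sub, map_mul, map_mul, AlgHom.commutes, AlgHom.commutes]
    apply Complex.ext
    · simp [Complex.normSq_apply]
      ring
    · simp [Complex.normSq_apply]
      ring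
  · rw [map_add, map_sub, map_mul, map_mul, AlgHom.commutes, AlgHom.commutes, hr]
    simpa using hz

theorem srl_bump (A : Type) [CommRing A] [Algebra ℝ A] [Finite (A →ₐ[ℝ] ℂ)] (ρ : A →ₐ[ℝ] ℝ) :
    ∃ t : A, ρ t ≠ 0 ∧ ∀ χ : A →ₐ[ℝ] ℂ, χ ≠ Complex.ofRealAm.comp ρ → χ t = 0 := by
  classical
  have : Fintype (A →ₐ[ℝ] ℂ) := Fintype.ofFinite _
  have h0 : ∀ χ : A →ₐ[ℝ] ℂ, ∃ a : A, ρ a ≠ 0 ∧ (χ ≠ Complex.ofRealAm.comp ρ → χ a = 0) := by
    intro χ
    by_cases h : χ = Complex.ofRealAm.comp ρ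
    · exact ⟨1, by simp, fun h' => absurd h h'⟩
    · obtain ⟨a, h1, h2⟩ := srl_sep A ρ χ h
      exact ⟨a, h2, fun _ => h1⟩
  choose a ha ha' using h0
  refine ⟨∏ χ, a χ, ?_, ?_⟩
  · rw [map_prod]
    exact Finset.prod_ne_zero_iff.2 fun χ _ => ha χ
  · intro χ hχ
    rw [map_prod]
    exact Finset.prod_eq_zero (Finset.mem_univ χ) (ha' χ hχ)

theorem srl_card (A : Type) [CommRing A] [Algebra ℝ A] [Module.Finite ℝ A] {τ : Type} [Fintype τ]
    (ρ : τ → (A →ₐ[ℝ] ℝ)) (hρ : Function.Injective ρ) (D : τ → (A →ₗ[ℝ] ℝ))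
    (hD0 : ∀ j, D j ≠ 0) (hD : ∀ j x y, D j (x * y) = ρ j x * D j y + ρ j y * D j x)
    (N : Submodule ℝ A) (hN : ∀ u, (∀ χ : A →ₐ[ℝ] ℂ, χ u = 0) → u ∈ N) :
    Fintype.card τ ≤ Module.finrank ℝ N := by
  classical
  have hli := linearIndependent_toLinearMap ℝ A ℂ
  have : Finite (A →ₐ[ℝ] ℂ) := hli.finite
  have hρ' : ∀ i j, i ≠ j → Complex.ofRealAm.comp (ρ i) ≠ Complex.ofRealAm.comp (ρ j) := by
    intro i j hij h
    refine hij (hρ (AlgHom.ext fun u => ?_))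
    have h1 := congrArg (fun ψ : A →ₐ[ℝ] ℂ => ψ u) h
    simpa using h1
  have h1 : ∀ j, D j 1 = 0 := by
    intro j
    have h := hD j 1 1
    rw [mul_one, map_one (ρ j)] at h
    linarith
  have h0 : ∀ j, ∃ y : N, D j y ≠ 0 ∧ ∀ i, i ≠ j → D i y = 0 := by
    intro j
    obtain ⟨t, ht, ht'⟩ := srl_bump A (ρ j)
    obtain ⟨x, hx⟩ : ∃ x, D j x ≠ 0 := by
      by_contra h
      push Not at h
      exact hD0 j (LinearMap.ext h)
    have hti : ∀ i, i ≠ j → ρ i t = 0 := by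
      intro i hij
      have h := ht' _ (hρ' i j hij)
      simpa using h
    have hw : D j (x - algebraMap ℝ A (ρ j x)) = D j x := by
      rw [Algebra.algebraMap_eq_smul_one, map_sub, map_smul, h1, smul_zero, sub_zero]
    have hw0 : ρ j (x - algebraMap ℝ A (ρ j x)) = 0 := by
      rw [map_sub, AlgHom.commutes]
      simp
    refine ⟨⟨(x - algebraMap ℝ A (ρ j x)) * (t * t), hN _ fun χ => ?_⟩, ?_, ?_⟩
    · by_cases h : χ = Complex.ofRealAm.comp (ρ j)
      · rw [map_mul, h]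
        have h2 : (Complex.ofRealAm.comp (ρ j)) (x - algebraMap ℝ A (ρ j x)) = 0 := by
          rw [AlgHom.comp_apply, hw0, map_zero]
        rw [h2, zero_mul]
      · rw [map_mul, map_mul, ht' χ h, mul_zero, mul_zero]
    · show D j ((x - algebraMap ℝ A (ρ j x)) * (t * t)) ≠ 0
      rw [hD, hw0, hw, zero_mul, zero_add, map_mul]
      exact mul_ne_zero (mul_ne_zero ht ht) hx
    · intro i hij
      show D i ((x - algebraMap ℝ A (ρ j x)) * (t * t)) = 0
      rw [hD, hD i t t, map_mul, hti i hij]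
      ring
  choose y hy hy' using h0
  have h2 : LinearIndependent ℝ y := by
    rw [Fintype.linearIndependent_iff]
    intro g hg i
    have h3 := congrArg (fun v : N => D i v) hg
    simp only [Submodule.coe_sum, Submodule.coe_smul, map_sum, map_smul, Submodule.coe_zero,
      map_zero, smul_eq_mul] at h3
    rw [Finset.sum_eq_single i] at h3
    · exact (mul_eq_zero.1 h3).resolve_right (hy i)
    · intro j _ hj
      rw [hy' j i (Ne.symm hj), mul_zero]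
    · intro h
      exact absurd (Finset.mem_univ i) h
  exact h2.fintype_card_le_finrank

theorem real_der (A : Type) [CommRing A] [Algebra ℝ A] [Module.Finite ℝ A] {τ : Type} [Fintype τ]
    (ρ : τ → (A →ₐ[ℝ] ℝ)) (hρ : Function.Injective ρ) (D : τ → (A →ₗ[ℝ] ℝ))
    (hD0 : ∀ j, D j ≠ 0) (hD : ∀ j x y, D j (x * y) = ρ j x * D j y + ρ j y * D j x) :
    ∃ (s : ℕ) (L : A →ₗ[ℝ] (Fin s → ℝ)),
      2 * s + 2 * Fintype.card τ ≤ Module.finrank ℝ A ∧
      ∀ u, L u = 0 → ∀ χ : A →ₐ[ℝ] ℂ, (χ u).im = 0 := by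
  classical
  have hli := linearIndependent_toLinearMap ℝ A ℂ
  have : Finite (A →ₐ[ℝ] ℂ) := hli.finite
  have : Fintype (A →ₐ[ℝ] ℂ) := Fintype.ofFinite _
  let N : Submodule ℝ A := ⨅ χ : A →ₐ[ℝ] ℂ, LinearMap.ker χ.toLinearMap
  have hN : ∀ u, u ∈ N ↔ ∀ χ : A →ₐ[ℝ] ℂ, χ u = 0 := by
    intro u
    simp only [N, Submodule.mem_iInf, LinearMap.mem_ker, AlgHom.toLinearMap_apply]
  have hle : ∀ χ : A →ₐ[ℝ] ℂ, N ≤ LinearMap.ker χ.toLinearMap := fun χ => iInf_le _ χ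
  have hX : Fintype.card (A →ₐ[ℝ] ℂ) + Module.finrank ℝ N ≤ Module.finrank ℝ A := by
    let Φ : ((A ⧸ N) →ₗ[ℝ] ℂ) →ₗ[ℂ] (A →ₗ[ℝ] ℂ) :=
      { toFun := fun g => g ∘ₗ N.mkQ
        map_add' := fun g h => rfl
        map_smul' := fun c g => rfl }
    have h0 : LinearIndependent ℂ (fun χ : A →ₐ[ℝ] ℂ => N.liftQ χ.toLinearMap (hle χ)) := by
      refine LinearIndependent.of_comp Φ ?_
      have h1 : (Φ ∘ fun χ : A →ₐ[ℝ] ℂ => N.liftQ χ.toLinearMap (hle χ)) =
          (AlgHom.toLinearMap : (A →ₐ[ℝ] ℂ) → (A →ₗ[ℝ] ℂ)) := by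
        funext χ
        exact N.liftQ_mkQ χ.toLinearMap (hle χ)
      rw [h1]
      exact hli
    have h1 := h0.fintype_card_le_finrank
    rw [Module.finrank_linearMap_self] at h1
    have h2 := N.finrank_quotient_add_finrank
    omega
  have hτ : Fintype.card τ ≤ Module.finrank ℝ N :=
    srl_card A ρ hρ D hD0 hD N fun u hu => (hN u).2 hu
  let σ : (A →ₐ[ℝ] ℂ) → (A →ₐ[ℝ] ℂ) := fun χ => (Complex.conjAe : ℂ →ₐ[ℝ] ℂ).comp χ
  have hσ1 : ∀ χ u, σ χ u = (starRingEnd ℂ) (χ u) := fun χ u => rfl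
  have hσ : ∀ χ, σ (σ χ) = χ := by
    intro χ
    ext u
    rw [hσ1, hσ1, Complex.conj_conj]
  have hinj : Function.Injective σ := fun χ χ' h => by rw [← hσ χ, h, hσ]
  let ν := Fintype.equivFin (A →ₐ[ℝ] ℂ)
  let H : Finset (A →ₐ[ℝ] ℂ) := Finset.univ.filter fun χ => ν χ < ν (σ χ)
  have hdisj : Disjoint H (H.image σ) := by
    rw [Finset.disjoint_left]
    intro χ h1 h2
    obtain ⟨χ', h3, rfl⟩ := Finset.mem_image.1 h2
    rw [Finset.mem_filter] at h1 h3
    rw [hσ] at h1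
    exact lt_asymm h1.2 h3.2
  let R : Finset (A →ₐ[ℝ] ℂ) := Finset.univ.image fun j => Complex.ofRealAm.comp (ρ j)
  have hRc : R.card = Fintype.card τ := by
    rw [Finset.card_image_of_injective, Finset.card_univ]
    intro i j h
    refine hρ (AlgHom.ext fun u => ?_)
    have h1 := congrArg (fun ψ : A →ₐ[ℝ] ℂ => ψ u) h
    simpa using h1
  have hRσ : ∀ χ ∈ R, σ χ = χ := by
    intro χ hχ
    obtain ⟨j, -, rfl⟩ := Finset.mem_image.1 hχ
    ext u
    rw [hσ1]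
    simp
  have hdisj2 : Disjoint (H ∪ H.image σ) R := by
    rw [Finset.disjoint_left]
    intro χ h1 h2
    have h3 := hRσ χ h2
    rcases Finset.mem_union.1 h1 with h4 | h4
    · rw [Finset.mem_filter, h3] at h4
      exact lt_irrefl _ h4.2
    · obtain ⟨χ', h5, h6⟩ := Finset.mem_image.1 h4
      have h7 : χ' = χ := by rw [← hσ χ', h6, h3]
      rw [Finset.mem_filter, h7, h3] at h5
      exact lt_irrefl _ h5.2
  have hcard : 2 * H.card + Fintype.card τ ≤ Fintype.card (A →ₐ[ℝ] ℂ) := by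
    have h1 : (H ∪ H.image σ).card = H.card + H.card := by
      rw [Finset.card_union_of_disjoint hdisj, Finset.card_image_of_injective _ hinj]
    have h3 : ((H ∪ H.image σ) ∪ R).card = (H.card + H.card) + Fintype.card τ := by
      rw [Finset.card_union_of_disjoint hdisj2, h1, hRc]
    have h2 := Finset.card_le_univ ((H ∪ H.image σ) ∪ R)
    omega
  refine ⟨H.card, LinearMap.pi fun k =>
    Complex.imLm ∘ₗ ((H.equivFin.symm k : A →ₐ[ℝ] ℂ)).toLinearMap, by omega, ?_⟩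
  intro u hu χ
  have hH : ∀ χ ∈ H, (χ u).im = 0 := by
    intro χ hχ
    have h1 := congrFun hu (H.equivFin ⟨χ, hχ⟩)
    simpa using h1
  by_cases h1 : χ ∈ H
  · exact hH χ h1
  · by_cases h2 : σ χ ∈ H
    · have h3 := hH _ h2
      rw [hσ1, Complex.conj_im] at h3
      linarith
    · have h4 : ν χ = ν (σ χ) := by
        simp only [H, Finset.mem_filter, Finset.mem_univ, true_and, not_lt] at h1 h2
        rw [hσ] at h2
        exact le_antisymm h2 h1
      have h5 : (χ u).im = (σ χ u).im := congrArg (fun ψ : A →ₐ[ℝ] ℂ => (ψ u).im) (ν.injective h4)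
      rw [hσ1, Complex.conj_im] at h5
      linarith

end Pool.Agent.LogCentres
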