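import Pool.Agent.LogCentres.PairEv
import Pool.Agent.LogCentres.PairId
import Pool.Agent.LogCentres.KTop
import Pool.Agent.LogCentres.Jid

/-!
# Symmetry of the form
-/

namespace Pool.Agent.LogCentres

open MvPolynomial

/-- the swap of the two sets of variables -/
noncomputable def sfSw : T →+* T :=
  MvPolynomial.eval₂Hom (ix : R →ₐ[ℝ] T).toRingHom (fun i => iu (X i))

theorem sfSw_iu (b : R) : sfSw (iu b) = ix b := by
  rw [iu_eq]
  exact MvPolynomial.eval₂Hom_C _ _ _

theorem sfSw_ix (a : R) : sfSw (ix a) = iu a := by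
  induction a using MvPolynomial.induction_on with
  | C c =>
    have h1 : ix (C c) = iu (C c) := by
      have h2 : (C c : R) = algebraMap ℝ R c := rfl
      rw [h2, AlgHom.commutes, AlgHom.commutes]
    rw [h1, sfSw_iu, h1]
  | add p q hp hq => rw [map_add, map_add, hp, hq, map_add]
  | mul_X p i hp =>
    have h1 : ix (X i : R) = (X i : T) := by
      simp [ix]
    rw [map_mul, map_mul, hp, map_mul, h1]
    congr 1
    exact MvPolynomial.eval₂Hom_X' _ _ _

theorem pair_sfSw (φ ψ : R →ₗ[ℝ] ℝ) (t : T) : pair φ ψ (sfSw t) = pair ψ φ t := by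
  obtain ⟨n, a, b, rfl⟩ := exists_sum t
  rw [map_sum, map_sum, map_sum]
  refine Finset.sum_congr rfl fun i _ => ?_
  rw [map_mul, sfSw_ix, sfSw_iu, mul_comm, pair_ix_iu, pair_ix_iu, mul_comm]

theorem sfSw_ker {P : R} {A B : T} (h : Ker P A B) : Ker P (sfSw A) (sfSw B) := by
  unfold Ker at h ⊢
  have he : ∀ i, sfSw (e i) = -e i := fun i => by
    rw [e, map_sub, sfSw_ix, sfSw_iu]
    ring
  have h1 := congrArg sfSw h
  rw [map_sub, map_add, map_mul, map_mul, sfSw_ix, sfSw_iu, he, he] at h1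
  linear_combination -h1

theorem pair_symm {P Q : R} {A B C D : T} (h1 : Ker P A B) (h2 : Ker Q C D)
    {φ ψ : R →ₗ[ℝ] ℝ} (hφ : ∀ q ∈ Ideal.span {P, Q}, φ q = 0)
    (hψ : ∀ q ∈ Ideal.span {P, Q}, ψ q = 0) :
    pair φ ψ (A * D - B * C) = pair ψ φ (A * D - B * C) := by
  have h3 := det_indep h1 h2 (sfSw_ker h1) (sfSw_ker h2)
  have h4 := pair_J hφ hψ h3
  have h5 : sfSw A * sfSw D - sfSw B * sfSw C = sfSw (A * D - B * C) := by
    rw [map_sub, map_mul, map_mul]
  rw [h5, map_sub, pair_sfSw] at h4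
  linarith

end Pool.Agent.LogCentres
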