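import Pool.Agent.LogCentres.ReCount
import Pool.Agent.LogCentres.SfIdem
import Pool.Agent.LogCentres.SfReal
import Pool.Agent.LogCentres.SfDer
import Pool.Agent.LogCentres.SfSym
import Pool.Agent.LogCentres.SfDeg
import Pool.Agent.LogCentres.SfDual
import Pool.Agent.LogCentres.SfLin

/-!
# The count for reduced systems, degenerate zeros at base points included
-/

namespace Pool.Agent.LogCentres

open MvPolynomial

private theorem sc_num {S Sb b d s Y : ℕ} (h1 : S + b ≤ Y + s) (h2 : Y ≤ d * (d + 1) / 2 + 1)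
    (h3 : 2 * s + 2 * Sb ≤ b) (h4 : d + 1 ≤ b) : 2 * (S + Sb) ≤ d * d + 1 := by
  have hd2 : 2 * (d * (d + 1) / 2) = d * (d + 1) :=
    Nat.mul_div_cancel' (Nat.even_mul_succ_self d).two_dvd
  have : d * (d + 1) = d * d + d := by ring
  omega

private theorem sc_cs {a b c : ℝ} (h : ∀ t : ℝ, 0 ≤ a + t * b + t ^ 2 * c) (hc : c = 0) : b = 0 := by
  by_contra hb
  have h1 := h (-(a + 1) / b)
  rw [hc] at h1
  have h2 : -(a + 1) / b * b = -(a + 1) := div_mul_cancel₀ _ hb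
  rw [h2] at h1
  linarith

theorem desc_lin {I : Ideal R} (D : R →ₗ[ℝ] ℝ) (hD : ∀ q ∈ I, D q = 0) :
    ∃ D' : (R ⧸ I) →ₗ[ℝ] ℝ, ∀ q, D' (Ideal.Quotient.mk I q) = D q :=
  ⟨Submodule.liftQ (I.restrictScalars ℝ) D (fun p hp => hD p hp), fun _ => rfl⟩

theorem desc_alg {I : Ideal R} (s : Fin 2 → ℝ) (hs : ∀ q ∈ I, eval s q = 0) :
    ∃ ρ : (R ⧸ I) →ₐ[ℝ] ℝ, ∀ q, ρ (Ideal.Quotient.mk I q) = eval s q :=
  ⟨Ideal.Quotient.liftₐ I (aeval s : R →ₐ[ℝ] ℝ) hs, fun _ => rfl⟩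

theorem desc_char {I : Ideal R} (s : Fin 2 → ℝ) (hs : ∀ q ∈ I, eval s q = 0) :
    ∃ χ : (R ⧸ I) →ₐ[ℝ] ℂ, ∀ q, χ (Ideal.Quotient.mk I q) = ((eval s q : ℝ) : ℂ) := by
  obtain ⟨ρ, hρ⟩ := desc_alg s hs
  refine ⟨(Complex.ofRealAm).comp ρ, fun q => ?_⟩
  rw [← hρ q]
  rfl

theorem real_pts {I : Ideal R} [Module.Finite ℝ (R ⧸ I)] (Sb : Finset (Fin 2 → ℝ))
    (hev : ∀ s ∈ Sb, ∀ q ∈ I, eval s q = 0)
    (hder : ∀ s : Sb, ∃ D : R →ₗ[ℝ] ℝ, (∀ q ∈ I, D q = 0) ∧ D ≠ 0 ∧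
      ∀ q r, D (q * r) = eval s.1 q * D r + eval s.1 r * D q) :
    ∃ (n : ℕ) (L : (R ⧸ I) →ₗ[ℝ] (Fin n → ℝ)),
      2 * n + 2 * Sb.card ≤ Module.finrank ℝ (R ⧸ I) ∧
      ∀ u, L u = 0 → ∀ χ : (R ⧸ I) →ₐ[ℝ] ℂ, (χ u).im = 0 := by
  have hρ' : ∀ s : Sb, ∃ ρ : (R ⧸ I) →ₐ[ℝ] ℝ, ∀ q, ρ (Ideal.Quotient.mk I q) = eval s.1 q :=
    fun s => desc_alg s.1 (hev s.1 s.2)
  choose ρ hρ using hρ'
  have hD' : ∀ s : Sb, ∃ D : (R ⧸ I) →ₗ[ℝ] ℝ, D ≠ 0 ∧
      ∀ x y, D (x * y) = ρ s x * D y + ρ s y * D x := by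
    intro s
    obtain ⟨D, h1, h2, h3⟩ := hder s
    obtain ⟨D', hD'⟩ := desc_lin D h1
    refine ⟨D', ?_, ?_⟩
    · intro h0
      refine h2 (LinearMap.ext fun q => ?_)
      rw [← hD' q, h0, LinearMap.zero_apply, LinearMap.zero_apply]
    · intro x y
      obtain ⟨q, rfl⟩ := Ideal.Quotient.mk_surjective x
      obtain ⟨r, rfl⟩ := Ideal.Quotient.mk_surjective y
      rw [← map_mul, hD', hD', hD', hρ, hρ]
      exact h3 q r
  choose D hD0 hDL using hD'
  have h1 := real_der (R ⧸ I) (τ := Sb) ρ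
    (by
      intro s t hst
      refine Subtype.ext (_root_.funext fun i => ?_)
      have h1 : ρ s (Ideal.Quotient.mk I (X i)) = ρ t (Ideal.Quotient.mk I (X i)) := by rw [hst]
      rwa [hρ, hρ, eval_X, eval_X] at h1) D hD0 hDL
  rwa [Fintype.card_coe] at h1

/-- duality at a point -/
theorem exists_dual {I : Ideal R} [Module.Finite ℝ (R ⧸ I)] {l : R →ₗ[ℝ] ℝ}
    (hl : ∀ q ∈ I, l q = 0) (hnd : ∀ u : R, (∀ p, l (u * p) = 0) → u ∈ I)
    {s : Fin 2 → ℝ} (hs : ∀ q ∈ I, eval s q = 0) : ∃ u : R, ∀ q, l (u * q) = eval s q := by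
  obtain ⟨μ, hμ⟩ := desc_lin l hl
  obtain ⟨E, hE⟩ := desc_lin (ev s) (fun q hq => hs q hq)
  let ψ : (R ⧸ I) →ₗ[ℝ] ((R ⧸ I) →ₗ[ℝ] ℝ) := (LinearMap.mul ℝ (R ⧸ I)).compr₂ μ
  have hψ' : ∀ x y, ψ x y = μ (x * y) := fun x y => rfl
  have hψ : Function.Injective ψ := by
    rw [← LinearMap.ker_eq_bot, LinearMap.ker_eq_bot']
    intro x hx
    obtain ⟨p, rfl⟩ := Ideal.Quotient.mk_surjective x
    refine Ideal.Quotient.eq_zero_iff_mem.2 (hnd p fun q => ?_)
    have h1 := LinearMap.congr_fun hx (Ideal.Quotient.mk I q)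
    rwa [hψ', ← map_mul, hμ, LinearMap.zero_apply] at h1
  have hsur : Function.Surjective ψ :=
    (LinearMap.injective_iff_surjective_of_finrank_eq_finrank (by
      rw [Module.finrank_linearMap, Module.finrank_self, mul_one])).1 hψ
  obtain ⟨x, hx⟩ := hsur E
  obtain ⟨u, rfl⟩ := Ideal.Quotient.mk_surjective x
  refine ⟨u, fun q => ?_⟩
  have h1 := LinearMap.congr_fun hx (Ideal.Quotient.mk I q)
  rw [hψ', ← map_mul, hμ, hE] at h1
  exact h1

set_option maxHeartbeats 1000000 in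
/-- the final count -/
theorem count4 {d k : ℕ} (S Sb : Finset (Fin 2 → ℝ)) {K P Q G P₁ Q₁ f h U₁ V₁ U₂ V₂ : R}
    {m : R →ₗ[ℝ] ℝ} (hG : G.totalDegree ≤ d) (hP₁ : P₁.totalDegree ≤ d)
    (hQ₁ : Q₁.totalDegree ≤ d) (hP : P = X 0 * G + P₁) (hQ : Q = X 1 * G + Q₁)
    (hP' : K * P = f * U₁ + h * V₁) (hQ' : K * Q = f * U₂ + h * V₂)
    (hrel : IsRelPrime P Q)
    (hS : ∀ s ∈ S, eval s P = 0 ∧ eval s Q = 0 ∧ 0 ≤ eval s (jacP P Q) ∧
      (eval s f ≠ 0 ∨ eval s h ≠ 0))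
    (hSb : ∀ s ∈ Sb, eval s (jacP P Q) = 0 ∧ eval s f = 0 ∧ eval s h = 0)
    (hm : Res f h m) [Module.Finite ℝ (R ⧸ Ideal.span {f, h})]
    (hpos : ∀ u : R, (∀ χ : (R ⧸ Ideal.span {f, h}) →ₐ[ℝ] ℂ,
      (χ (Ideal.Quotient.mk _ u)).im = 0) → 0 ≤ m ((U₁ * V₂ - V₁ * U₂) * (u * u)))
    (hzero : ∀ u : R, (∀ χ : (R ⧸ Ideal.span {f, h}) →ₐ[ℝ] ℂ,
      (χ (Ideal.Quotient.mk _ u)).im = 0) → m ((U₁ * V₂ - V₁ * U₂) * (u * u)) = 0 →
      ∀ χ : (R ⧸ Ideal.span {f, h}) →ₐ[ℝ] ℂ, χ (Ideal.Quotient.mk _ u) = 0)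
    (hone : 0 < m (U₁ * V₂ - V₁ * U₂))
    (hlow : ∀ p : R, p.totalDegree + 1 ≤ k + d → m p = 0) (hKd : K.totalDegree ≤ k) :
    2 * (S.card + Sb.card) ≤ d * d + 1 := by
  classical
  obtain ⟨W, hW, hWr, hWf⟩ := exists_low d
  obtain ⟨A, B, C', D, hA, hC, htop⟩ := kernel_top2 hG hP₁ hQ₁ hP hQ
  have hfun : ∀ s : S, ∃ (φ : R →ₗ[ℝ] ℝ) (L : ℕ), (∀ q ∈ Ideal.span {P, Q}, φ q = 0) ∧
      (∀ q ∈ (RingHom.ker (eval s.1 : R →+* ℝ)) ^ L, φ q = 0) ∧
      0 < pair φ φ (A * D - B * C') := fun s =>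
    pos_fn hrel (hS s.1 s.2).1 (hS s.1 s.2).2.1 hA hC (hS s.1 s.2).2.2.1
  choose Φ Lv hΦ1 hΦ2 hΦ3 using hfun
  obtain ⟨A', B', hA'⟩ := exists_ker f
  obtain ⟨C'', D', hC''⟩ := exists_ker h
  -- the ideals
  have hfI : f ∈ Ideal.span {f, h} := Ideal.subset_span (by simp)
  have hhI : h ∈ Ideal.span {f, h} := Ideal.subset_span (by simp)
  have hpK := pair_K hm hP' hQ' hA hC
  have hKI : K ∉ Ideal.span {f, h} := by
    intro h0
    have h1 := hpK 1 1
    have h2 : tw m (K * 1) = 0 := by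
      refine LinearMap.ext fun p => ?_
      exact hm.kill _ (Ideal.mul_mem_right _ _ (Ideal.mul_mem_right _ _ h0))
    rw [h2, mul_one, mul_one] at h1
    change (0 : ℝ) = _ at h1
    rw [← h1] at hone
    exact lt_irrefl _ hone
  have hnd : ∀ u : R, (∀ p, m (u * p) = 0) → u ∈ Ideal.span {f, h} := by
    intro u hu
    have h1 := res_repr hm hA' hC'' u
    have h2 : app m (iu u * (A' * D' - B' * C'')) = 0 := by
      rw [app_iu_mul]
      have h3 : tw m u = 0 := LinearMap.ext fun p => hu p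
      rw [h3, app_zero]
    rw [h2, zero_sub] at h1
    simpa using h1
  let I : Ideal R := Submodule.comap (LinearMap.mulLeft R K) (Ideal.span {f, h})
  have hI : ∀ p, p ∈ I ↔ K * p ∈ Ideal.span {f, h} := fun p => Iff.rfl
  have hle : Ideal.span {f, h} ≤ I := fun p hp => (hI p).2 (Ideal.mul_mem_left _ _ hp)
  have hfin : Module.Finite ℝ (R ⧸ I) :=
    Module.Finite.of_surjective (Ideal.Quotient.factorₐ ℝ hle).toLinearMap
      (Ideal.Quotient.factor_surjective hle)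
  have hkI : ∀ p ∈ I, m (K * p) = 0 := fun p hp => hm.kill _ ((hI p).1 hp)
  have hndI : ∀ u : R, (∀ p, m (K * (u * p)) = 0) → u ∈ I := fun u hu =>
    (hI u).2 (hnd _ fun p => by rw [mul_assoc]; exact hu p)
  have hPI : P ∈ I := by
    rw [hI, hP']
    exact Ideal.add_mem _ (Ideal.mul_mem_right _ _ hfI) (Ideal.mul_mem_right _ _ hhI)
  have hQI : Q ∈ I := by
    rw [hI, hQ']
    exact Ideal.add_mem _ (Ideal.mul_mem_right _ _ hfI) (Ideal.mul_mem_right _ _ hhI)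
  have h1I : (1 : R) ∉ I := fun h0 => hKI (by rw [hI, mul_one] at h0; exact h0)
  -- characters kill the colon ideal
  have hchar : ∀ (χ : (R ⧸ Ideal.span {f, h}) →ₐ[ℝ] ℂ) (p : R), p ∈ I →
      χ (Ideal.Quotient.mk _ p) = 0 := by
    intro χ p hp
    refine char_kill (Ideal.map (Ideal.Quotient.mk (Ideal.span {f, h})) I) ?_ _
      (Ideal.mem_map_of_mem _ hp) χ
    intro e he hid χ'
    obtain ⟨q, hq, rfl⟩ := (Ideal.mem_map_iff_of_surjective _ Ideal.Quotient.mk_surjective).1 he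
    refine hzero q (fun χ'' => ?_) ?_ χ'
    · have h1 := congrArg χ'' hid.eq
      rw [map_mul] at h1
      have h2 : χ'' (Ideal.Quotient.mk _ q) * (χ'' (Ideal.Quotient.mk _ q) - 1) = 0 := by
        linear_combination h1
      rcases mul_eq_zero.1 h2 with h3 | h3
      · rw [h3]; rfl
      · rw [sub_eq_zero.1 h3]; rfl
    · rw [← hpK q q]
      have h2 : tw m (K * q) = 0 :=
        LinearMap.ext fun r => hm.kill _ (Ideal.mul_mem_right _ _ ((hI q).1 hq))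
      rw [h2]
      rfl
  have hreal : ∀ u : R, (∀ χ : (R ⧸ I) →ₐ[ℝ] ℂ, (χ (Ideal.Quotient.mk _ u)).im = 0) →
      ∀ χ : (R ⧸ Ideal.span {f, h}) →ₐ[ℝ] ℂ, (χ (Ideal.Quotient.mk _ u)).im = 0 := by
    intro u hu χ
    exact hu (Ideal.Quotient.liftₐ I (χ.comp (Ideal.Quotient.mkₐ ℝ _)) fun p hp => hchar χ p hp)
  -- the dimension of the quotient
  let μ : (R ⧸ I) →ₗ[ℝ] ℝ :=
    Submodule.liftQ (I.restrictScalars ℝ) (tw m K) (fun p hp => hkI p hp)
  have hμ : ∀ p : R, μ (Ideal.Quotient.mk _ p) = m (K * p) := fun p => rfl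
  have hμnd : ∀ x : R ⧸ I, (∀ y, μ (x * y) = 0) → x = 0 := fun x hx => by
    obtain ⟨p, rfl⟩ := Ideal.Quotient.mk_surjective x
    refine Ideal.Quotient.eq_zero_iff_mem.2 (hndI p fun q => ?_)
    have := hx (Ideal.Quotient.mk _ q)
    rwa [← map_mul, hμ] at this
  have hnt : Nontrivial (R ⧸ I) :=
    Ideal.Quotient.nontrivial_iff.2 fun h0 => h1I (by rw [h0]; exact Submodule.mem_top)
  have hdim : d + 1 ≤ Module.finrank ℝ (R ⧸ I) := by
    obtain ⟨E, hE, hEm⟩ := grow (I := I) (K := 1) (κ := 0) (d := d) (m := tw m K)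
      (fun p hp => hkI p hp)
      (fun p hp => by
        have h2 := totalDegree_mul K p
        exact hlow (K * p) (by omega))
      (fun h0 => absurd (hndI 1 fun p => by
        have := h0 p
        exact this) h1I) h1I (by rw [totalDegree_one])
    obtain ⟨T₀, hT₀, hT₁⟩ := perp (R ⧸ I) μ hμnd E
    have h1 : (1 : R ⧸ I) ∈ T₀ := by
      rw [hT₁]
      intro e he
      obtain ⟨p, hp, rfl⟩ := hEm e he
      rw [one_mul, one_mul, hμ]
      rcases hp with rfl | hp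
      · rw [mul_zero, map_zero]
      · refine hlow _ ?_
        have := totalDegree_mul K p
        omega
    have h2 : 0 < Module.finrank ℝ T₀ := by
      have : Nontrivial T₀ := ⟨⟨⟨1, h1⟩, 0, fun h3 => one_ne_zero (congrArg Subtype.val h3)⟩⟩
      exact Module.finrank_pos
    omega
  -- the points of `Sb`
  have hevI : ∀ s ∈ Sb, ∀ q ∈ I, eval s q = 0 := by
    intro s hs q hq
    obtain ⟨-, hf0, hh0⟩ := hSb s hs
    have hsp : ∀ r ∈ Ideal.span {f, h}, eval s r = 0 := by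
      intro r hr
      obtain ⟨a, b, rfl⟩ := Ideal.mem_span_pair.1 hr
      rw [map_add, map_mul, map_mul, hf0, hh0, mul_zero, mul_zero, add_zero]
    obtain ⟨χ, hχ⟩ := desc_char s hsp
    have h1 := hchar χ q hq
    rw [hχ] at h1
    exact_mod_cast h1
  have hder : ∀ s : Sb, ∃ D : R →ₗ[ℝ] ℝ, (∀ q ∈ I, D q = 0) ∧ D ≠ 0 ∧
      ∀ q r, D (q * r) = eval s.1 q * D r + eval s.1 r * D q := by
    intro s
    obtain ⟨hj0, hf0, hh0⟩ := hSb s.1 s.2
    -- the functional `ev s` is `tw m (K u)`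
    obtain ⟨u, hu⟩ := exists_dual (I := I) (l := tw m K) (fun p hp => hkI p hp)
      (fun u hu => hndI u hu) (hevI s.1 s.2)
    have htw : tw m (K * u) = ev s.1 := LinearMap.ext fun q => by
      have h1 : m (K * (u * q)) = eval s.1 q := hu q
      rw [ev_apply, ← h1, ← mul_assoc]
      rfl
    have hWu : m ((U₁ * V₂ - V₁ * U₂) * (u * u)) = 0 := by
      rw [← hpK u u, htw, pair_ev_self hA hC, hj0]
    have hum : ∀ q, eval s.1 q = 0 → u * q ∈ I := by
      intro q hq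
      refine hndI _ fun r => ?_
      have h1 : m (K * (u * (q * r))) = eval s.1 (q * r) := hu (q * r)
      rw [map_mul (eval s.1), hq, zero_mul] at h1
      rw [mul_assoc u q r]
      exact h1
    have hur : ∀ χ : (R ⧸ Ideal.span {f, h}) →ₐ[ℝ] ℂ, (χ (Ideal.Quotient.mk _ u)).im = 0 := by
      intro χ
      by_cases h0 : χ (Ideal.Quotient.mk _ u) = 0
      · rw [h0]; rfl
      · have h1 := hchar χ _ (hum (u - C (eval s.1 u)) (by
          rw [map_sub (eval s.1), eval_C, sub_self]))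
        rw [map_mul (Ideal.Quotient.mk _), map_mul χ] at h1
        have h2 := (mul_eq_zero.1 h1).resolve_left h0
        rw [map_sub (Ideal.Quotient.mk _), map_sub χ, sub_eq_zero] at h2
        have h3 : χ (Ideal.Quotient.mk _ (C (eval s.1 u))) = ((eval s.1 u : ℝ) : ℂ) :=
          χ.commutes (eval s.1 u)
        rw [h2, h3, Complex.ofReal_im]
    have hz := hzero u hur hWu
    have hu0 : eval s.1 u = 0 := by
      obtain ⟨χ, hχ⟩ := desc_char (I := Ideal.span {f, h}) s.1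
        (fun r hr => hevI s.1 s.2 r (hle hr))
      have h1 := hz χ
      rw [hχ] at h1
      exact_mod_cast h1
    refine exists_der (fun q hq => hevI s.1 s.2 q hq) hu0 ?_ hum
    intro h0
    have h1 : m (K * (u * 1)) = eval s.1 1 := hu 1
    rw [mul_one, hkI u h0, map_one] at h1
    exact zero_ne_one h1
  obtain ⟨n, L, hn, hL⟩ := real_pts Sb hevI hder
  -- a linear section
  obtain ⟨σ, hσ⟩ := LinearMap.exists_rightInverse_of_surjective
    (Ideal.Quotient.mkₐ ℝ I).toLinearMap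
    (LinearMap.range_eq_top.2 (Ideal.Quotient.mkₐ_surjective ℝ _))
  have hσ' : ∀ x, Ideal.Quotient.mk I (σ x) = x := fun x => by
    have h1 := LinearMap.congr_fun hσ x
    simpa using h1
  -- the functional
  let φ : ((S → ℝ) × (R ⧸ I)) →ₗ[ℝ] (R →ₗ[ℝ] ℝ) :=
    { toFun := fun v => ∑ s, v.1 s • Φ s + tw m (K * σ v.2)
      map_add' := fun v w => by
        refine LinearMap.ext fun p => ?_
        simp only [Prod.fst_add, Pi.add_apply, Prod.snd_add, map_add, tw, LinearMap.add_apply,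
          LinearMap.sum_apply, LinearMap.smul_apply, LinearMap.comp_apply, mul_add,
          LinearMap.mulLeft_apply, add_mul, add_smul, Finset.sum_add_distrib]
        ring
      map_smul' := fun c v => by
        refine LinearMap.ext fun p => ?_
        simp only [Prod.smul_fst, Pi.smul_apply, Prod.smul_snd, map_smul, tw,
          LinearMap.add_apply, LinearMap.sum_apply, LinearMap.smul_apply, LinearMap.comp_apply,
          LinearMap.mulLeft_apply, mul_smul_comm, smul_mul_assoc, smul_eq_mul, RingHom.id_apply,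
          mul_add, Finset.mul_sum, mul_assoc] }
  have hφ : ∀ v, φ v = ∑ s, v.1 s • Φ s + tw m (K * σ v.2) := fun v => rfl
  set Δ : T := A * D - B * C' with hΔ
  have hmu : ∀ u, ∀ p ∈ I, tw m (K * u) p = 0 := fun u p hp => by
    have h5 := hm.kill _ (Ideal.mul_mem_left _ u ((hI p).1 hp))
    change m (K * u * p) = 0
    rw [← h5]
    congr 1
    ring
  have hPQI : Ideal.span {P, Q} ≤ I := by
    rw [Ideal.span_le]
    rintro x (rfl | hx)
    · exact hPI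
    · rw [Set.mem_singleton_iff.1 hx]
      exact hQI
  have hφk : ∀ v, ∀ q ∈ Ideal.span {P, Q}, φ v q = 0 := by
    intro v q hq
    rw [hφ, LinearMap.add_apply, LinearMap.sum_apply, hmu _ q (hPQI hq), add_zero]
    exact Finset.sum_eq_zero fun s _ => by rw [LinearMap.smul_apply, hΦ1 s q hq, smul_zero]
  have hfI' : f ∈ I := hle hfI
  have hhI' : h ∈ I := hle hhI
  have h67 : ∀ (u : R) (s : S), pair (Φ s) (tw m (K * u)) Δ = 0 ∧
      pair (tw m (K * u)) (Φ s) Δ = 0 := fun u s => by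
    obtain ⟨-, -, -, hs3 | hs3⟩ := hS s.1 s.2
    · exact orth hA hC (hΦ1 s) (hΦ2 s) (hmu u) hPI hQI hfI' hs3
    · exact orth hA hC (hΦ1 s) (hΦ2 s) (hmu u) hPI hQI hhI' hs3
  have hst : ∀ s t : S, t ≠ s → pair (Φ s) (Φ t) Δ = 0 := fun s t hts => by
    have hne : ∃ i, t.1 i ≠ s.1 i := by
      by_contra hcon
      push Not at hcon
      exact hts (Subtype.ext (_root_.funext hcon))
    obtain ⟨i, hi⟩ := hne
    have hk : (X i - C (t.1 i) : R) ∈ RingHom.ker (eval t.1 : R →+* ℝ) := by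
      rw [RingHom.mem_ker, map_sub, eval_X, eval_C, sub_self]
    refine (orth hA hC (hΦ1 s) (hΦ2 s)
      (I := Ideal.span {P, Q} ⊔ (RingHom.ker (eval t.1 : R →+* ℝ)) ^ Lv t) (ψ := Φ t)
      (g := (X i - C (t.1 i)) ^ Lv t) ?_ ?_ ?_ ?_ ?_).1
    · intro q hq
      obtain ⟨y, hy, z, hz, rfl⟩ := Submodule.mem_sup.1 hq
      rw [map_add, hΦ1 t y hy, hΦ2 t z hz, add_zero]
    · exact Ideal.mem_sup_left (Ideal.subset_span (by simp))
    · exact Ideal.mem_sup_left (Ideal.subset_span (by simp))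
    · exact Ideal.mem_sup_right (Ideal.pow_mem_pow hk _)
    · rw [map_pow, map_sub, eval_X, eval_C]
      exact pow_ne_zero _ (sub_ne_zero.2 (Ne.symm hi))
  have h8 : ∀ w x, pair (φ (w, x)) (φ (w, x)) Δ =
      ∑ s : S, w s ^ 2 * pair (Φ s) (Φ s) Δ + m ((U₁ * V₂ - V₁ * U₂) * (σ x * σ x)) := by
    intro w x
    have h5 : pair (tw m (K * σ x)) (tw m (K * σ x)) Δ =
        m ((U₁ * V₂ - V₁ * U₂) * (σ x * σ x)) := hpK _ _
    have ha : app (φ (w, x)) Δ = ∑ s : S, w s • app (Φ s) Δ + app (tw m (K * σ x)) Δ := by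
      rw [hφ, app_add, app_sum]
      simp only [app_smul]
    have hb : ∀ ψ : R →ₗ[ℝ] ℝ, pair ψ (φ (w, x)) Δ =
        ∑ s : S, w s * pair ψ (Φ s) Δ + pair ψ (tw m (K * σ x)) Δ := fun ψ => by
      change ψ (app (φ (w, x)) Δ) = _
      rw [ha, map_add, map_sum]
      simp only [map_smul, smul_eq_mul]
      rfl
    have hc : ∀ ψ : R →ₗ[ℝ] ℝ, pair (φ (w, x)) ψ Δ =
        ∑ s : S, w s * pair (Φ s) ψ Δ + pair (tw m (K * σ x)) ψ Δ := fun ψ => by
      change φ (w, x) (app ψ Δ) = _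
      rw [hφ, LinearMap.add_apply, LinearMap.sum_apply]
      rfl
    rw [hc, hb, h5]
    have hd : ∑ s : S, w s * pair (tw m (K * σ x)) (Φ s) Δ = 0 :=
      Finset.sum_eq_zero fun s _ => by rw [(h67 _ s).2, mul_zero]
    rw [hd, zero_add]
    congr 1
    refine Finset.sum_congr rfl fun s _ => ?_
    rw [hb, (h67 _ s).1, add_zero, Finset.sum_eq_single s]
    · ring
    · intro t _ hts
      rw [hst s t hts, mul_zero]
    · intro hs
      exact absurd (Finset.mem_univ _) hs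
  -- the space
  let Y : Submodule ℝ ((S → ℝ) × (R ⧸ I)) := LinearMap.ker (L.comp (LinearMap.snd ℝ _ _))
  have hYr : ∀ y ∈ Y, ∀ χ : (R ⧸ Ideal.span {f, h}) →ₐ[ℝ] ℂ,
      (χ (Ideal.Quotient.mk _ (σ y.2))).im = 0 := by
    intro y hy
    refine hreal _ fun χ => ?_
    rw [hσ']
    exact hL y.2 (LinearMap.mem_ker.1 hy) χ
  have h10 : ∀ (w : S → ℝ) (s : S), 0 ≤ w s ^ 2 * pair (Φ s) (Φ s) Δ := fun w s =>
    mul_nonneg (sq_nonneg _) (hΦ3 s).le
  have hYpos : ∀ y ∈ Y, 0 ≤ pair (φ y) (φ y) Δ := by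
    rintro ⟨w, x⟩ hy
    rw [h8]
    exact add_nonneg (Finset.sum_nonneg fun s _ => h10 w s) (hpos _ (hYr _ hy))
  have hYzero : ∀ y ∈ Y, pair (φ y) (φ y) Δ = 0 → y.1 = 0 := by
    rintro ⟨w, x⟩ hy h0
    rw [h8] at h0
    have h9 : 0 ≤ m ((U₁ * V₂ - V₁ * U₂) * (σ x * σ x)) := hpos _ (hYr _ hy)
    have h11 : 0 ≤ ∑ s : S, w s ^ 2 * pair (Φ s) (Φ s) Δ :=
      Finset.sum_nonneg fun s _ => h10 w s
    have h12 : ∑ s : S, w s ^ 2 * pair (Φ s) (Φ s) Δ = 0 := by linarith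
    funext s
    have h14 := (Finset.sum_eq_zero_iff_of_nonneg fun s _ => h10 w s).1 h12 s (Finset.mem_univ _)
    rcases mul_eq_zero.1 h14 with h15 | h15
    · simpa using h15
    · exact absurd h15 (hΦ3 s).ne'
  -- bilinearity
  have hadd : ∀ v v' ψ, pair (φ (v + v')) ψ Δ = pair (φ v) ψ Δ + pair (φ v') ψ Δ := by
    intro v v' ψ
    change φ (v + v') (app ψ Δ) = _
    rw [map_add, LinearMap.add_apply]
    rfl
  have hsmul : ∀ (c : ℝ) v ψ, pair (φ (c • v)) ψ Δ = c * pair (φ v) ψ Δ := by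
    intro c v ψ
    change φ (c • v) (app ψ Δ) = _
    rw [map_smul, LinearMap.smul_apply]
    rfl
  have hsy : ∀ v v', pair (φ v) (φ v') Δ = pair (φ v') (φ v) Δ := fun v v' =>
    pair_symm hA hC (hφk v) (hφk v')
  have hCS : ∀ y ∈ Y, ∀ z ∈ Y, pair (φ z) (φ z) Δ = 0 → pair (φ y) (φ z) Δ = 0 := by
    intro y hy z hz h0
    have h1 : ∀ t : ℝ, 0 ≤ pair (φ y) (φ y) Δ + t * (2 * pair (φ y) (φ z) Δ) +
        t ^ 2 * pair (φ z) (φ z) Δ := by
      intro t
      have h2 := hYpos (y + t • z) (Y.add_mem hy (Y.smul_mem t hz))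
      have h3 : pair (φ (y + t • z)) (φ (y + t • z)) Δ = pair (φ y) (φ y) Δ +
          t * (2 * pair (φ y) (φ z) Δ) + t ^ 2 * pair (φ z) (φ z) Δ := by
        rw [hadd, hsmul, hsy y, hsy z, hadd, hadd, hsmul, hsmul, hsy z y]
        ring
      rwa [h3] at h2
    have h2 := sc_cs h1 h0
    linarith
  -- the linear count
  let g : Y →ₗ[ℝ] R :=
    { toFun := fun y => app (φ y.1) Δ
      map_add' := fun y z => by
        rw [Submodule.coe_add, map_add, app_add]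
      map_smul' := fun c y => by
        rw [Submodule.coe_smul, map_smul, app_smul]
        rfl }
  have hg : ∀ y : Y, g y = app (φ y.1) Δ := fun y => rfl
  have hlin := lin_count W (φ.comp Y.subtype)
    ((LinearMap.applyₗ G).comp (φ.comp Y.subtype)) g
    (by
      intro z hz1 hz2
      have h1 : ∀ p : R, p.totalDegree + 1 ≤ d → φ z.1 p = 0 := fun p hp => hz1 p (hW p hp)
      have h2 : φ z.1 G = 0 := hz2
      rw [hg]
      rcases (htop (φ z.1) h1).2 h2 with h3 | h3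
      · rw [h3]
        exact W.zero_mem
      · exact hW _ h3)
    (by
      intro z hz1 hz2 y
      have h1 : ∀ p : R, p.totalDegree + 1 ≤ d → φ z.1 p = 0 := fun p hp => hz1 p (hW p hp)
      have h2 : φ z.1 G = 0 := hz2
      have h3 := (htop (φ z.1) h1).1
      rw [h2, zero_pow two_ne_zero] at h3
      exact hCS y.1 y.2 z.1 z.2 h3)
    (by
      intro z hz1 hz2 hz3
      have h1 : ∀ p : R, p.totalDegree + 1 ≤ d → φ z.1 p = 0 := fun p hp => hz1 p (hW p hp)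
      have h2 : φ z.1 G = 0 := hz2
      have h3 := (htop (φ z.1) h1).1
      rw [h2, zero_pow two_ne_zero] at h3
      have h4 := hYzero z.1 z.2 h3
      have h5 : φ z.1 = tw m (K * σ z.1.2) := by
        rw [hφ, h4]
        simp
      rw [hg, h5] at hz3
      have h6 := dual_inj hrel hA hC (φ := tw m (K * σ z.1.2)) (I := I) (hmu _)
        (fun q hq => hmu _ q (hPQI hq)) hz3
      have h7 : z.1.2 = 0 := by
        rw [← hσ' z.1.2, Ideal.Quotient.eq_zero_iff_mem]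
        refine hndI _ fun p => ?_
        have h8 := LinearMap.congr_fun h6 p
        have h9 : m (K * σ z.1.2 * p) = 0 := h8
        rw [← mul_assoc]
        exact h9
      exact Subtype.ext (Prod.ext h4 h7))
  -- dimensions
  have hrk := LinearMap.finrank_range_add_finrank_ker
    (L.comp (LinearMap.snd ℝ (S → ℝ) (R ⧸ I)))
  have hrg : Module.finrank ℝ (LinearMap.range (L.comp (LinearMap.snd ℝ (S → ℝ) (R ⧸ I)))) ≤
      Module.finrank ℝ (Fin n → ℝ) := Submodule.finrank_le _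
  rw [Module.finrank_fintype_fun_eq_card, Fintype.card_fin] at hrg
  rw [Module.finrank_prod, Module.finrank_fintype_fun_eq_card, Fintype.card_coe] at hrk
  rw [hWr] at hlin
  exact sc_num (Y := Module.finrank ℝ Y) (s := n) (b := Module.finrank ℝ (R ⧸ I))
    (by
      change S.card + _ ≤ Module.finrank ℝ (LinearMap.ker (L.comp (LinearMap.snd ℝ _ _))) + n
      omega) hlin hn hdim

end Pool.Agent.LogCentres
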