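import Pool.Agent.LogCentres.RdFin
import Pool.Agent.LogCentres.SfAff
import Pool.Agent.LogCentres.SfCen
import Pool.Agent.LogCentres.ReCen

/-!
# All centres of systems with a Darboux first integral
-/

namespace Pool.Agent.LogCentres

open MvPolynomial Pool.Agent.PlanarCentres

private theorem rh_factor {f : R} (hf : f ≠ 0) {p : Fin 2 → ℝ} (h0 : eval p f = 0) :
    ∃ u, Irreducible u ∧ u ∣ f ∧ eval p u = 0 := by
  obtain ⟨s, hs, a, ha⟩ := WfDvdMonoid.exists_factors f hf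
  rw [← ha, map_mul] at h0
  have hau : eval p (a : R) ≠ 0 := (a.isUnit.map (eval p)).ne_zero
  have h1 := (mul_eq_zero.1 h0).resolve_right hau
  rw [map_multiset_prod, Multiset.prod_eq_zero_iff, Multiset.mem_map] at h1
  obtain ⟨u, hu, hu0⟩ := h1
  refine ⟨u, hs u hu, ?_, hu0⟩
  rw [← ha]
  exact (Multiset.dvd_prod hu).mul_right _

private theorem rh_logD_neg {ι : Type} [Fintype ι] [DecidableEq ι] (g : ι → R) (mu : ι → ℝ)
    (k : Fin 2) : logD g (fun i => -mu i) k = -logD g mu k := by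
  rw [logD, logD, ← Finset.sum_neg_distrib]
  exact Finset.sum_congr rfl fun i _ => neg_smul _ _

theorem reduced_all {n : ℕ} {ι : Type} [Fintype ι] [DecidableEq ι] (f : ι → R) (lam : ι → ℝ)
    (hf : ∀ i, f i ≠ 0) (P Q : R) (hP : P.totalDegree ≤ n) (hQ : Q.totalDegree ≤ n)
    (hH : P * logD f lam 0 + Q * logD f lam 1 = 0)
    (hne : ¬ (logD f lam 0 = 0 ∧ logD f lam 1 = 0))
    (S : Finset (Fin 2 → ℝ)) (hS : ∀ p ∈ S, IsCentre P Q p) :
    2 * S.card ≤ n * n + 1 := by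
  classical
  by_cases hP0 : P = 0
  · have hS0 : S = ∅ := by
      refine Finset.eq_empty_of_forall_notMem fun s hs => ?_
      have h1 := hS s hs
      have h2 := (centre_reduced (P₀ := 0) (Q₀ := 1) (c := Q) (p := s) (by
        rw [mul_zero, mul_one, ← hP0]
        exact h1)).2.1
      rw [map_one] at h2
      exact one_ne_zero h2
    rw [hS0, Finset.card_empty]
    omega
  obtain ⟨k, g, mu, W, hg, hmu, hrel, -, -, hW⟩ := normalize f lam hf
  obtain ⟨P₀, Q₀, c, hrp, hPe, hQe⟩ := UniqueFactorizationMonoid.exists_reduced_factors P hP0 Q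
  have hc0 : c ≠ 0 := by
    rintro rfl
    exact hP0 (by rw [← hPe, zero_mul])
  have hP₀ : P₀ ≠ 0 := by
    rintro rfl
    exact hP0 (by rw [← hPe, mul_zero])
  have hW0 : W ≠ 0 := by
    rintro rfl
    exact hne ⟨by rw [hW, zero_mul], by rw [hW, zero_mul]⟩
  have hgl : P₀ * logD g mu 0 + Q₀ * logD g mu 1 = 0 := by
    apply mul_left_cancel₀ (mul_ne_zero hc0 hW0)
    rw [mul_zero, ← hH, hW, hW, ← hPe, ← hQe]
    ring
  have hdvd : P₀ ∣ logD g mu 1 := by
    have h1 : P₀ ∣ Q₀ * logD g mu 1 := ⟨-logD g mu 0, by linear_combination hgl⟩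
    exact hrp.dvd_of_dvd_mul_left h1
  obtain ⟨K, hK1⟩ := hdvd
  have hK0 : -logD g mu 0 = Q₀ * K := by
    apply mul_left_cancel₀ hP₀
    rw [hK1] at hgl
    linear_combination -hgl
  have hKne : K ≠ 0 := by
    rintro rfl
    apply hne
    rw [mul_zero] at hK1 hK0
    rw [hW, hW, hK1, neg_eq_zero.1 hK0, mul_zero]
    exact ⟨rfl, rfl⟩
  have eP : logD g mu 1 = XP (fun i : {i // 0 < mu i} => g i) (fun i => mu i)
      (fun j : {j // mu j < 0} => g j) (fun j => -mu j) := by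
    rw [XP, log_split g mu hg hmu 1]; rfl
  have eQ : -logD g mu 0 = XQ (fun i : {i // 0 < mu i} => g i) (fun i => mu i)
      (fun j : {j // mu j < 0} => g j) (fun j => -mu j) := by
    rw [XQ, ← neg_sub, log_split g mu hg hmu 0]; rfl
  have hdP : P₀.totalDegree ≤ n := by
    rw [← hPe, totalDegree_mul_of_isDomain hc0 hP₀] at hP
    omega
  have hdQ : Q₀.totalDegree ≤ n := by
    by_cases hQ₀ : Q₀ = 0
    · rw [hQ₀, totalDegree_zero]; omega
    · rw [← hQe, totalDegree_mul_of_isDomain hc0 hQ₀] at hQ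
      omega
  -- at a centre off which the two products do not both vanish or the Jacobian is zero
  have hcase : ∀ s ∈ S, eval s P₀ = 0 ∧ eval s Q₀ = 0 ∧ 0 ≤ eval s (jacP P₀ Q₀) ∧
      (eval s (∏ i : {i // 0 < mu i}, g i) = 0 → eval s (∏ j : {j // mu j < 0}, g j) = 0 →
        eval s (jacP P₀ Q₀) = 0) := by
    intro s hs
    have hcen : IsCentre (c * P₀) (c * Q₀) s := by
      rw [hPe, hQe]
      exact hS s hs
    obtain ⟨g1, g2, g3⟩ := centre_reduced hcen
    refine ⟨g1, g2, by rw [eval_jacP]; exact g3, ?_⟩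
    intro hf0 hh0
    by_contra hjne
    have hjne' : jac P₀ Q₀ s ≠ 0 := by
      rw [eval_jacP] at hjne
      exact hjne
    obtain ⟨htr₀, hj₁⟩ := centre_mul_trace hcen hjne'
    rw [map_prod, Finset.prod_eq_zero_iff] at hf0 hh0
    obtain ⟨i, -, hi⟩ := hf0
    obtain ⟨j, -, hjz⟩ := hh0
    obtain ⟨u, hu, hud, hu0⟩ := rh_factor (hg i) hi
    obtain ⟨v, hv, hvd, hv0⟩ := rh_factor (hg j) hjz
    have huv : ¬ u ∣ v := fun h => hu.not_isUnit ((hrel i j i.2 j.2) hud (h.trans hvd))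
    have hsu : ∀ l, u ∣ g l → 0 < mu l := by
      intro l hl
      by_contra hneg
      have hlt : mu l < 0 := lt_of_le_of_ne (not_lt.1 hneg) (hmu l)
      exact hu.not_isUnit ((hrel i l i.2 hlt) hud hl)
    have hsv : ∀ l, v ∣ g l → 0 < -mu l := by
      intro l hl
      by_contra hneg
      have hlt : 0 < mu l := lt_of_le_of_ne (by linarith) (hmu l).symm
      exact hv.not_isUnit ((hrel l j hlt j.2) hl hvd)
    obtain ⟨κ₁, hκ₁⟩ := first_int_inv hg hgl hu hsu ⟨i, hud⟩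
    have hgl' : P₀ * logD g (fun i => -mu i) 0 + Q₀ * logD g (fun i => -mu i) 1 = 0 := by
      rw [rh_logD_neg, rh_logD_neg]
      linear_combination -hgl
    obtain ⟨κ₂, hκ₂⟩ := first_int_inv hg hgl' hv hsv ⟨j, hvd⟩
    have hz : ∀ (w κ : R), w ≠ 0 → P₀ * pderiv 0 w + Q₀ * pderiv 1 w = w * κ →
        eval s κ = 0 := fun w κ hw0 hκ =>
      cofactor_zero_mul hcen hw0 (by rw [hκ, mul_comm])
    exact two_curves g1 g2 htr₀ hj₁ hu hv huv hu0 hv0 (by rw [hκ₁, mul_comm])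
      (by rw [hκ₂, mul_comm]) (hz u κ₁ hu.ne_zero hκ₁) (hz v κ₂ hv.ne_zero hκ₂)
  have key := affine4_bound (n := n) (F := fun i : {i // 0 < mu i} => g i) (α := fun i => mu i)
    (G := fun j : {j // mu j < 0} => g j) (β := fun j => -mu j) (fun i => i.2)
    (fun j => neg_pos.2 j.2) (fun i => hg i) (fun j => hg j) (fun i j => hrel i j i.2 j.2)
    (K := K) (P := P₀) (Q := Q₀) hKne hdP hdQ (by rw [← eP, hK1]; ring) (by rw [← eQ, hK0]; ring)
    hrp
    (S.filter fun s => eval s (∏ i : {i // 0 < mu i}, g i) ≠ 0 ∨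
      eval s (∏ j : {j // mu j < 0}, g j) ≠ 0)
    (S.filter fun s => ¬ (eval s (∏ i : {i // 0 < mu i}, g i) ≠ 0 ∨
      eval s (∏ j : {j // mu j < 0}, g j) ≠ 0))
    (fun s hs => by
      obtain ⟨h1, h2⟩ := Finset.mem_filter.1 hs
      obtain ⟨g1, g2, g3, -⟩ := hcase s h1
      exact ⟨g1, g2, g3, h2⟩)
    (fun s hs => by
      obtain ⟨h1, h2⟩ := Finset.mem_filter.1 hs
      obtain ⟨g1, g2, -, g4⟩ := hcase s h1
      push Not at h2
      exact ⟨g1, g2, g4 h2.1 h2.2, h2.1, h2.2⟩)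
  rwa [Finset.card_filter_add_card_filter_not] at key

end Pool.Agent.LogCentres
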