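import Mathlib

/-!
# The determinant is not in the ideal, over any field
-/

namespace Pool.Agent.LogCentres

open MvPolynomial

private theorem sf_factor {k : Type} [Field k] {f : MvPolynomial (Fin 2) k} (hf : f ≠ 0)
    {p : Fin 2 → k} (h0 : eval p f = 0) :
    ∃ u, Irreducible u ∧ u ∣ f ∧ eval p u = 0 := by
  obtain ⟨s, hs, a, ha⟩ := WfDvdMonoid.exists_factors f hf
  rw [← ha, map_mul] at h0
  have hau : eval p (a : MvPolynomial (Fin 2) k) ≠ 0 := (a.isUnit.map (eval p)).ne_zero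
  have h1 := (mul_eq_zero.1 h0).resolve_right hau
  rw [map_multiset_prod, Multiset.prod_eq_zero_iff, Multiset.mem_map] at h1
  obtain ⟨u, hu, hu0⟩ := h1
  refine ⟨u, hs u hu, ?_, hu0⟩
  rw [← ha]
  exact (Multiset.dvd_prod hu).mul_right _

private theorem sf_prop {k : Type} [Field k] {A B D E : MvPolynomial (Fin 2) k}
    (hne : ¬ (A = 0 ∧ B = 0)) (h : A * E = B * D)
    (hrel : IsRelPrime A B) : ∃ t, D = A * t ∧ E = B * t := by
  obtain ⟨t, ht⟩ : A ∣ D := hrel.dvd_of_dvd_mul_left ⟨E, h.symm⟩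
  obtain ⟨t', ht'⟩ : B ∣ E := hrel.symm.dvd_of_dvd_mul_left ⟨D, h⟩
  by_cases hA : A = 0
  · have hB : B ≠ 0 := fun hB => hne ⟨hA, hB⟩
    refine ⟨t', ?_, ht'⟩
    rw [hA, zero_mul] at h ⊢
    exact (mul_eq_zero.1 h.symm).resolve_left hB
  · refine ⟨t, ht, ?_⟩
    apply mul_left_cancel₀ hA
    rw [h, ht]
    ring

theorem socle_field {k : Type} [Field k] {P Q : MvPolynomial (Fin 2) k} (hrel : IsRelPrime P Q)
    {p : Fin 2 → k} {a b c d : MvPolynomial (Fin 2) k}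
    (hP : P = (X 0 - C (p 0)) * a + (X 1 - C (p 1)) * b)
    (hQ : Q = (X 0 - C (p 0)) * c + (X 1 - C (p 1)) * d) :
    a * d - b * c ∉ Ideal.span {P, Q} := by
  intro hmem
  rw [Ideal.mem_span_pair] at hmem
  obtain ⟨α, β, hαβ⟩ := hmem
  have hQp : eval p Q = 0 := by
    rw [hQ]
    simp
  have hP0 : P ≠ 0 := by
    intro h0
    have hu : IsUnit Q := hrel (h0 ▸ dvd_zero Q) dvd_rfl
    exact (hu.map (eval p)).ne_zero hQp
  set A : MvPolynomial (Fin 2) k := a - (X 1 - C (p 1)) * β with hA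
  set B : MvPolynomial (Fin 2) k := b + (X 0 - C (p 0)) * β with hB
  set D : MvPolynomial (Fin 2) k := c + (X 1 - C (p 1)) * α with hD
  set E : MvPolynomial (Fin 2) k := d - (X 0 - C (p 0)) * α with hE
  have e1 : P = (X 0 - C (p 0)) * A + (X 1 - C (p 1)) * B := by
    rw [hA, hB]
    linear_combination hP
  have e2 : Q = (X 0 - C (p 0)) * D + (X 1 - C (p 1)) * E := by
    rw [hD, hE]
    linear_combination hQ
  have e3 : A * E = B * D := by
    rw [hA, hB, hD, hE]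
    linear_combination (-1 : MvPolynomial (Fin 2) k) * hαβ + α * hP + β * hQ
  have hAB : ¬ (A = 0 ∧ B = 0) := by
    rintro ⟨h1, h2⟩
    apply hP0
    rw [e1, h1, h2]
    ring
  obtain ⟨A₀, B₀, g, hr, hgA, hgB⟩ : ∃ A₀ B₀ g : MvPolynomial (Fin 2) k,
      IsRelPrime A₀ B₀ ∧ g * A₀ = A ∧ g * B₀ = B := by
    by_cases h0 : A = 0
    · have h1 : B ≠ 0 := fun h => hAB ⟨h0, h⟩
      obtain ⟨x, y, z, h2, h3, h4⟩ := UniqueFactorizationMonoid.exists_reduced_factors B h1 A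
      exact ⟨y, x, z, h2.symm, h4, h3⟩
    · obtain ⟨x, y, z, h2, h3, h4⟩ := UniqueFactorizationMonoid.exists_reduced_factors A h0 B
      exact ⟨x, y, z, h2, h3, h4⟩
  have hg : g ≠ 0 := by
    rintro rfl
    exact hAB ⟨by rw [← hgA, zero_mul], by rw [← hgB, zero_mul]⟩
  have hAB0 : ¬ (A₀ = 0 ∧ B₀ = 0) := by
    rintro ⟨h1, h2⟩
    exact hAB ⟨by rw [← hgA, h1, mul_zero], by rw [← hgB, h2, mul_zero]⟩
  obtain ⟨t, ht1, ht2⟩ := sf_prop (A := A₀) (B := B₀) (D := D) (E := E) hAB0 (by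
    apply mul_left_cancel₀ hg
    rw [← mul_assoc, ← mul_assoc, hgA, hgB, e3]) hr
  set w : MvPolynomial (Fin 2) k := (X 0 - C (p 0)) * A₀ + (X 1 - C (p 1)) * B₀ with hw
  have w1 : P = g * w := by
    rw [e1, hw, ← hgA, ← hgB]
    ring
  have w2 : Q = t * w := by
    rw [e2, hw, ht1, ht2]
    ring
  have w0 : w ≠ 0 := by
    intro h
    rw [h, mul_zero] at w1
    exact hP0 w1
  have wp : eval p w = 0 := by
    rw [hw]
    simp
  obtain ⟨u, hu, huw, hup⟩ := sf_factor w0 wp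
  exact hu.not_isUnit (hrel (w1 ▸ huw.mul_left g) (w2 ▸ huw.mul_left t))

end Pool.Agent.LogCentres
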