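import Pool.Agent.LogCentres.Defs3

/-!
# Affine changes of coordinates
-/

namespace Pool.Agent.LogCentres

open MvPolynomial Pool.Agent.PlanarCentres

private theorem sh_X0 (μ c : ℝ) : shear μ c (X 0) = C c + X 0 + C μ * X 1 := by
  simp [shear, sub]

private theorem sh_X1 (μ c : ℝ) : shear μ c (X 1) = X 1 := by
  simp [shear, sub]

private theorem sh_C (μ c a : ℝ) : shear μ c (C a) = C a := by
  simp [shear, sub]

private theorem sh_inv (μ c : ℝ) (f : R) : shear (-μ) (-c) (shear μ c f) = f := by
  induction f using MvPolynomial.induction_on with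
  | C a => rw [sh_C, sh_C]
  | add p q hp hq => rw [map_add, map_add, hp, hq]
  | mul_X p i hp =>
    rw [map_mul, map_mul, hp]
    congr 1
    fin_cases i
    · simp only [Fin.zero_eta]
      rw [sh_X0, map_add, map_add, map_mul, sh_C, sh_C, sh_X0, sh_X1, map_neg, map_neg]
      ring
    · simp only [Fin.mk_one]
      rw [sh_X1, sh_X1]

private theorem sh_inv' (μ c : ℝ) (f : R) : shear μ c (shear (-μ) (-c) f) = f := by
  have h := sh_inv (-μ) (-c) f
  rwa [neg_neg, neg_neg] at h

private theorem pd0 (μ c : ℝ) (f : R) : pderiv 0 (shear μ c f) = shear μ c (pderiv 0 f) := by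
  rw [shear, pderiv_sub']
  simp

private theorem pd1 (μ c : ℝ) (f : R) :
    pderiv 1 (shear μ c f) = C μ * shear μ c (pderiv 0 f) + shear μ c (pderiv 1 f) := by
  rw [shear, pderiv_sub']
  simp

theorem shear_deg (μ c : ℝ) (f : R) : (shear μ c f).totalDegree = f.totalDegree := by
  apply le_antisymm
  · exact totalDegree_sub' _ _ le_rfl
  · have h : (shear (-μ) (-c) (shear μ c f)).totalDegree ≤ (shear μ c f).totalDegree :=
      totalDegree_sub' _ _ le_rfl
    rwa [sh_inv] at h

theorem shear_relprime (μ c : ℝ) {f g : R} (h : IsRelPrime f g) :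
    IsRelPrime (shear μ c f) (shear μ c g) := by
  intro d h1 h2
  have h3 : shear (-μ) (-c) d ∣ f := by
    have := map_dvd (shear (-μ) (-c)) h1
    rwa [sh_inv] at this
  have h4 : shear (-μ) (-c) d ∣ g := by
    have := map_dvd (shear (-μ) (-c)) h2
    rwa [sh_inv] at this
  have h5 := (h h3 h4).map (shear μ c)
  rwa [sh_inv'] at h5

private theorem logD0 {ι : Type} [Fintype ι] [DecidableEq ι] (F : ι → R) (α : ι → ℝ)
    (μ c : ℝ) : logD (fun i => shear μ c (F i)) α 0 = shear μ c (logD F α 0) := by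
  simp only [logD, map_sum, map_smul, map_mul, map_prod, pd0]

private theorem logD1 {ι : Type} [Fintype ι] [DecidableEq ι] (F : ι → R) (α : ι → ℝ)
    (μ c : ℝ) : logD (fun i => shear μ c (F i)) α 1 =
      C μ * shear μ c (logD F α 0) + shear μ c (logD F α 1) := by
  simp only [logD, map_sum, map_smul, map_mul, map_prod, pd1, Finset.mul_sum]
  rw [← Finset.sum_add_distrib]
  apply Finset.sum_congr rfl
  intro i _
  rw [mul_smul_comm, ← smul_add]
  congr 1
  ring

theorem shear_X {ι κ : Type} [Fintype ι] [DecidableEq ι] [Fintype κ] [DecidableEq κ]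
    (F : ι → R) (α : ι → ℝ) (G : κ → R) (β : κ → ℝ) (μ c : ℝ) :
    XP (fun i => shear μ c (F i)) α (fun j => shear μ c (G j)) β =
      shear μ c (XP F α G β) - C μ * shear μ c (XQ F α G β) ∧
    XQ (fun i => shear μ c (F i)) α (fun j => shear μ c (G j)) β =
      shear μ c (XQ F α G β) := by
  constructor
  · simp only [XP, XQ, logD1, map_sub, map_mul, map_prod]
    ring
  · simp only [XQ, logD0, map_sub, map_mul, map_prod]

theorem shear_eval (μ c : ℝ) (f : R) (s : Fin 2 → ℝ) :
    eval ![s 0 - μ * s 1 - c, s 1] (shear μ c f) = eval s f := by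
  rw [shear, eval_sub']
  congr 2
  funext i
  fin_cases i
  · simp [aff]
  · simp [aff]

theorem shear_jac (μ c : ℝ) (P Q : R) (s : Fin 2 → ℝ) :
    eval ![s 0 - μ * s 1 - c, s 1] (jacP (shear μ c P - C μ * shear μ c Q) (shear μ c Q)) =
      eval s (jacP P Q) := by
  rw [← shear_eval μ c (jacP P Q) s]
  congr 1
  have h0 : pderiv 0 (C μ * shear μ c Q) = C μ * shear μ c (pderiv 0 Q) := by
    rw [Derivation.leibniz, pderiv_C, smul_zero, add_zero, smul_eq_mul, pd0]
  have h1 : pderiv 1 (C μ * shear μ c Q) =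
      C μ * (C μ * shear μ c (pderiv 0 Q) + shear μ c (pderiv 1 Q)) := by
    rw [Derivation.leibniz, pderiv_C, smul_zero, add_zero, smul_eq_mul, pd1]
  simp only [jacP, map_sub, map_mul, h0, h1, pd0, pd1]
  ring

private theorem ln_shear (μ : ℝ) (f : R) :
    ln (shear μ 0 f) = aeval ![Polynomial.C μ * Polynomial.X, Polynomial.X] f := by
  induction f using MvPolynomial.induction_on with
  | C a => simp [ln]
  | add p q hp hq =>
    rw [map_add, ln, map_add, ← ln, ← ln, hp, hq, map_add]
  | mul_X p i hp =>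
    rw [map_mul, ln, map_mul, ← ln, hp, map_mul]
    congr 1
    fin_cases i
    · simp only [Fin.zero_eta]
      rw [sh_X0]
      simp
    · simp only [Fin.mk_one]
      rw [sh_X1]
      simp

private theorem coeff_shear (μ : ℝ) (f : R) (d : ℕ) :
    coeff (Finsupp.single 1 d) (shear μ 0 f) =
      Polynomial.eval μ (∑ s ∈ f.support.filter (fun s => s 0 + s 1 = d),
        Polynomial.monomial (s 0) (coeff s f)) := by
  rw [← ln_coeff, ln_shear, Polynomial.eval_finsetSum, Finset.sum_filter, aeval_def,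
    eval₂_eq', Polynomial.finsetSum_coeff]
  apply Finset.sum_congr rfl
  intro s _
  rw [Fin.prod_univ_two, Polynomial.eval_monomial]
  have h1 : algebraMap ℝ (Polynomial ℝ) (coeff s f) *
      ((![Polynomial.C μ * Polynomial.X, Polynomial.X] : Fin 2 → Polynomial ℝ) 0 ^ s 0 *
        (![Polynomial.C μ * Polynomial.X, Polynomial.X] : Fin 2 → Polynomial ℝ) 1 ^ s 1) =
      Polynomial.C (coeff s f * μ ^ s 0) * Polynomial.X ^ (s 0 + s 1) := by
    simp only [Matrix.cons_val_zero, Matrix.cons_val_one, Polynomial.algebraMap_eq,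
      Polynomial.C_mul, Polynomial.C_pow]
    ring
  rw [h1, Polynomial.coeff_C_mul, Polynomial.coeff_X_pow]
  by_cases h : s 0 + s 1 = d
  · rw [if_pos h, if_pos h.symm, mul_one]
  · rw [if_neg h, if_neg (Ne.symm h), mul_zero]

theorem exists_shear {f : R} (hf : f ≠ 0) :
    ∃ μ : ℝ, coeff (Finsupp.single 1 f.totalDegree) (shear μ 0 f) ≠ 0 := by
  by_contra hcon
  push Not at hcon
  have hp : (∑ s ∈ f.support.filter (fun s => s 0 + s 1 = f.totalDegree),
      Polynomial.monomial (s 0) (coeff s f) : Polynomial ℝ) = 0 := by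
    apply Polynomial.funext
    intro μ
    rw [← coeff_shear, hcon μ, Polynomial.eval_zero]
  obtain ⟨s, hs, hd⟩ := Finset.exists_mem_eq_sup f.support
    (Finset.nonempty_iff_ne_empty.mpr (by rwa [Ne, support_eq_empty]))
    (fun s => s.sum fun _ e => e)
  have hd' : s 0 + s 1 = f.totalDegree := by
    rw [totalDegree, hd, Finsupp.sum_fintype _ _ (fun _ => rfl), Fin.sum_univ_two]
  have hc := congrArg (fun p : Polynomial ℝ => p.coeff (s 0)) hp
  simp only [Polynomial.finsetSum_coeff, Polynomial.coeff_monomial, Polynomial.coeff_zero] at hc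
  rw [Finset.sum_eq_single s] at hc
  · rw [if_pos rfl] at hc
    exact (mem_support_iff.mp hs) hc
  · intro r hr hne
    rw [if_neg]
    intro h0
    apply hne
    have h1 := (Finset.mem_filter.mp hr).2
    ext i
    fin_cases i
    · exact h0
    · simp only [Fin.mk_one]
      omega
  · intro h
    exact absurd (Finset.mem_filter.mpr ⟨hs, hd'⟩) h

end Pool.Agent.LogCentres
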