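import Pool.Agent.LogCentres.Defs2

/-!
# Top forms
-/

namespace Pool.Agent.LogCentres

open MvPolynomial

private theorem topP_coeff (a : ℕ) (f : R) (k : ℕ) : (topP a f).coeff k =
    if k ≤ a then coeff (Finsupp.single 0 (a - k) + Finsupp.single 1 k) f else 0 := by
  rw [topP, Polynomial.finsetSum_coeff]
  simp only [Polynomial.coeff_monomial]
  rw [Finset.sum_ite_eq' (Finset.range (a + 1)) k]
  by_cases h : k ≤ a
  · rw [if_pos (Finset.mem_range.2 (by omega)), if_pos h]
  · rw [if_neg (by rw [Finset.mem_range]; omega), if_neg h]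

theorem topP_add (a : ℕ) (f g : R) : topP a (f + g) = topP a f + topP a g := by
  ext k
  rw [Polynomial.coeff_add, topP_coeff, topP_coeff, topP_coeff]
  split_ifs
  · rw [coeff_add]
  · rw [add_zero]

theorem topP_smul (a : ℕ) (c : ℝ) (f : R) : topP a (c • f) = c • topP a f := by
  ext k
  rw [Polynomial.coeff_smul, topP_coeff, topP_coeff]
  split_ifs
  · rw [coeff_smul]
  · rw [smul_zero]

theorem topP_natDegree_le (a : ℕ) (f : R) : (topP a f).natDegree ≤ a := by
  rw [Polynomial.natDegree_le_iff_coeff_eq_zero]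
  intro k hk
  rw [topP_coeff, if_neg (by omega)]

/-- `topP` as a linear map -/
private noncomputable def topL (a : ℕ) : R →ₗ[ℝ] Polynomial ℝ where
  toFun := topP a
  map_add' := topP_add a
  map_smul' := topP_smul a

private theorem deg2 (s : Fin 2 →₀ ℕ) : s.degree = s 0 + s 1 := by
  rw [Finsupp.degree_eq_sum, Fin.sum_univ_two]

private theorem eq_iff2 (s : Fin 2 →₀ ℕ) (i k : ℕ) :
    s = Finsupp.single 0 i + Finsupp.single 1 k ↔ s 0 = i ∧ s 1 = k := by
  constructor
  · rintro rfl
    simp
  · rintro ⟨h0, h1⟩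
    ext j
    fin_cases j
    · simp [h0]
    · simp [h1]

private theorem topP_monomial (a : ℕ) (s : Fin 2 →₀ ℕ) (c : ℝ) :
    topP a (monomial s c) = if s.degree = a then Polynomial.monomial (s 1) c else 0 := by
  classical
  ext k
  rw [topP_coeff, deg2]
  by_cases hk : k ≤ a
  · rw [if_pos hk, coeff_monomial]
    by_cases hs : s = Finsupp.single 0 (a - k) + Finsupp.single 1 k
    · obtain ⟨h0, h1⟩ := (eq_iff2 s _ _).1 hs
      rw [if_pos hs, if_pos (by omega), Polynomial.coeff_monomial, if_pos h1]
    · rw [if_neg hs]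
      split_ifs with h2
      · rw [Polynomial.coeff_monomial, if_neg]
        intro h1
        exact hs ((eq_iff2 s _ _).2 ⟨by omega, h1⟩)
      · simp
  · rw [if_neg hk]
    split_ifs with h2
    · rw [Polynomial.coeff_monomial, if_neg (by omega)]
    · simp

private theorem le_of_supp {a : ℕ} {f : R} (hf : f.totalDegree ≤ a) {s : Fin 2 →₀ ℕ}
    (hs : s ∈ f.support) : s.degree ≤ a := by
  refine le_trans ?_ hf
  have := le_totalDegree hs
  rwa [Finsupp.degree_eq_sum, ← Finsupp.sum_fintype s (fun _ e => e) (fun _ => rfl)]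

private theorem sum_deg (s : Fin 2 →₀ ℕ) : (s.sum fun _ e => e) = s.degree := by
  rw [Finsupp.degree_eq_sum, ← Finsupp.sum_fintype s (fun _ e => e) (fun _ => rfl)]

private theorem topP_sum (a : ℕ) (f : R) :
    topP a f = ∑ s ∈ f.support, topP a (monomial s (coeff s f)) := by
  have h1 : topL a f = topL a (∑ s ∈ f.support, monomial s (coeff s f)) := by
    rw [f.support_sum_monomial_coeff]
  rw [map_sum] at h1
  exact h1

theorem topP_mul {a b : ℕ} {f g : R} (hf : f.totalDegree ≤ a) (hg : g.totalDegree ≤ b) :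
    topP (a + b) (f * g) = topP a f * topP b g := by
  have h1 : f * g = ∑ s ∈ f.support, ∑ t ∈ g.support,
      monomial s (coeff s f) * monomial t (coeff t g) := by
    rw [← Finset.sum_mul_sum, f.support_sum_monomial_coeff, g.support_sum_monomial_coeff]
  have h2 : topP (a + b) (f * g) = ∑ s ∈ f.support, ∑ t ∈ g.support,
      topP (a + b) (monomial s (coeff s f) * monomial t (coeff t g)) := by
    have h3 : topL (a + b) (f * g) = topL (a + b) (∑ s ∈ f.support, ∑ t ∈ g.support,
      monomial s (coeff s f) * monomial t (coeff t g)) := by rw [← h1]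
    simp only [map_sum] at h3
    exact h3
  rw [h2, topP_sum a f, topP_sum b g, Finset.sum_mul_sum]
  refine Finset.sum_congr rfl fun s hs => Finset.sum_congr rfl fun t ht => ?_
  have hs' := le_of_supp hf hs
  have ht' := le_of_supp hg ht
  rw [monomial_mul, topP_monomial, topP_monomial, topP_monomial]
  have hst : (s + t).degree = s.degree + t.degree := by simp
  by_cases h : s.degree = a ∧ t.degree = b
  · rw [if_pos (by omega), if_pos h.1, if_pos h.2, Polynomial.monomial_mul_monomial,
      Finsupp.add_apply]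
  · rw [if_neg (by omega)]
    by_cases h' : s.degree = a
    · rw [if_neg (show ¬ t.degree = b from fun h'' => h ⟨h', h''⟩), mul_zero]
    · rw [if_neg h', zero_mul]

theorem topP_of_lt {a : ℕ} {f : R} (hf : f.totalDegree < a) : topP a f = 0 := by
  rw [topP_sum]
  refine Finset.sum_eq_zero fun s hs => ?_
  have := le_of_supp le_rfl hs
  rw [topP_monomial, if_neg (by omega)]

theorem deg_of_topP {a : ℕ} {f : R} (hf : f.totalDegree ≤ a + 1) (h : topP (a + 1) f = 0) :
    f.totalDegree ≤ a := by
  unfold totalDegree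
  refine Finset.sup_le fun s hs => ?_
  have h1 := le_of_supp hf hs
  rw [sum_deg]
  by_contra hne
  have h2 : s 0 + s 1 = a + 1 := by
    rw [← deg2]
    omega
  have h5 := congrArg (fun q => Polynomial.coeff q (s 1)) h
  simp only [Polynomial.coeff_zero] at h5
  rw [topP_coeff, if_pos (by omega)] at h5
  have h6 : s = Finsupp.single 0 (a + 1 - s 1) + Finsupp.single 1 (s 1) :=
    (eq_iff2 s _ _).2 ⟨by omega, rfl⟩
  rw [← h6] at h5
  exact (mem_support_iff.1 hs) h5

theorem topP_surj {a : ℕ} {q : Polynomial ℝ} (hq : q.natDegree ≤ a) :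
    ∃ f : R, f.totalDegree ≤ a ∧ topP a f = q := by
  refine ⟨∑ k ∈ Finset.range (a + 1),
    monomial (Finsupp.single 0 (a - k) + Finsupp.single 1 k) (q.coeff k), ?_, ?_⟩
  · refine totalDegree_finsetSum_le fun k hk => ?_
    refine (totalDegree_monomial_le _ _).trans ?_
    have hk' := Finset.mem_range.1 hk
    have h1 := sum_deg (Finsupp.single (0 : Fin 2) (a - k) + Finsupp.single 1 k)
    refine (le_of_eq h1).trans ?_
    rw [deg2]
    simp
    omega
  · have h1 : topL a (∑ k ∈ Finset.range (a + 1),
        monomial (Finsupp.single 0 (a - k) + Finsupp.single 1 k) (q.coeff k)) =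
        ∑ k ∈ Finset.range (a + 1), Polynomial.monomial k (q.coeff k) := by
      rw [map_sum]
      refine Finset.sum_congr rfl fun k hk => ?_
      have hk' := Finset.mem_range.1 hk
      show topP a _ = _
      rw [topP_monomial, if_pos]
      · simp
      · rw [deg2]
        simp
        omega
    refine Eq.trans h1 ?_
    exact (q.as_sum_range' (a + 1) (by omega)).symm

theorem topP_X0 : topP 1 (X 0 : R) = 1 := by
  rw [X, topP_monomial, if_pos (by simp)]
  simp

theorem topP_X1 : topP 1 (X 1 : R) = Polynomial.X := by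
  rw [X, topP_monomial, if_pos (by simp)]
  simp [Polynomial.X]

end Pool.Agent.LogCentres
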