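import Pool.Agent.LogCentres.ResC

/-!
# Residues and traces
-/

namespace Pool.Agent.LogCentres

open MvPolynomial

theorem trace_of_kernel {A : Type} [CommRing A] [Algebra ℝ A] [Module.Finite ℝ A]
    (m : A →ₗ[ℝ] ℝ) {n : ℕ} (a b : Fin n → A) (h : ∀ v : A, ∑ i, m (b i * v) • a i = v) (p : A) :
    Algebra.trace ℝ A p = m (p * ∑ i, a i * b i) := by
  have hl : Algebra.lmul ℝ A p =
      ∑ i, ((m ∘ₗ LinearMap.mulLeft ℝ (b i)).smulRight (p * a i) : A →ₗ[ℝ] A) := by
    ext v
    rw [LinearMap.sum_apply]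
    simp only [LinearMap.smulRight_apply, LinearMap.comp_apply, LinearMap.mulLeft_apply]
    conv_lhs => rw [← h v]
    simp only [map_sum, Algebra.coe_lmul_eq_mul, LinearMap.mul_apply', mul_smul_comm]
  rw [Algebra.trace_apply]
  change LinearMap.trace ℝ A (Algebra.lmul ℝ A p) = _
  rw [hl, map_sum]
  simp only [LinearMap.trace_smulRight, LinearMap.comp_apply, LinearMap.mulLeft_apply]
  rw [← map_sum]
  congr 1
  rw [Finset.mul_sum]
  exact Finset.sum_congr rfl fun i _ => by ring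

theorem res_trace {F G : R} {m : R →ₗ[ℝ] ℝ} (hm : Res F G m)
    [Module.Finite ℝ (R ⧸ Ideal.span {F, G})] (p : R) :
    m (jacP F G * p) =
      Algebra.trace ℝ (R ⧸ Ideal.span {F, G}) (Ideal.Quotient.mk _ p) := by
  obtain ⟨A, B, h1⟩ := exists_ker F
  obtain ⟨C, D, h2⟩ := exists_ker G
  obtain ⟨n, a, b, hD⟩ := exists_sum (A * D - B * C)
  set I : Ideal R := Ideal.span {F, G} with hI
  have hk : I.restrictScalars ℝ ≤ LinearMap.ker m := fun q hq => hm.kill q hq
  let m' : (R ⧸ I) →ₗ[ℝ] ℝ := (Submodule.liftQ (I.restrictScalars ℝ) m hk) ∘ₗ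
    (Submodule.Quotient.restrictScalarsEquiv ℝ I).symm.toLinearMap
  have hm' : ∀ q : R, m' (Ideal.Quotient.mk I q) = m q := fun q => rfl
  have hrep : ∀ v : R ⧸ I, ∑ i, m' (Ideal.Quotient.mk I (b i) * v) • Ideal.Quotient.mk I (a i)
      = v := by
    intro v
    obtain ⟨u, rfl⟩ := Ideal.Quotient.mk_surjective v
    have h3 := res_repr hm h1 h2 u
    rw [hD, app_iu_mul, map_sum] at h3
    have h4 : ∑ i, app (tw m u) (ix (a i) * iu (b i)) = ∑ i, m (b i * u) • a i := by
      refine Finset.sum_congr rfl fun i _ => ?_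
      rw [app_ix_iu]
      congr 1
      simp only [tw, LinearMap.comp_apply, LinearMap.mulLeft_apply, mul_comm]
    rw [h4] at h3
    have h5 : Ideal.Quotient.mk I (∑ i, m (b i * u) • a i) = Ideal.Quotient.mk I u :=
      Ideal.Quotient.eq.mpr h3
    refine Eq.trans ?_ h5
    rw [map_sum]
    refine Finset.sum_congr rfl fun i _ => ?_
    rw [← map_mul, hm']
    rfl
  rw [trace_of_kernel m' (fun i => Ideal.Quotient.mk I (a i))
    (fun i => Ideal.Quotient.mk I (b i)) hrep]
  have h6 : mu (A * D - B * C) = jacP F G := by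
    rw [map_sub, map_mul, map_mul, h1.mu_eq.1, h1.mu_eq.2, h2.mu_eq.1, h2.mu_eq.2]
    rfl
  have h7 : ∑ i, a i * b i = jacP F G := by
    rw [← h6, hD, map_sum]
    exact Finset.sum_congr rfl fun i _ => by rw [map_mul, mu_ix, mu_iu]
  rw [← hm', ← h7]
  congr 1
  rw [map_mul, map_sum, mul_comm]
  simp only [map_mul]

end Pool.Agent.LogCentres
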